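import Pool.Agent.FO2.Stmts

/-!
# Permutations moving only the points of an interval

They are products of the adjacent transpositions of the interval.
-/

namespace FO2

open Lib_helper64.FO
open scoped RealInnerProductSpace

namespace ADJ

/-- the claim for the interval from `a` to `b` -/
def Cl (n a b : ℕ) : Prop :=
  ∀ π : Equiv.Perm (Fin n), (∀ k : Fin n, (k.val < a ∨ b < k.val) → π k = k) →
    π ∈ Subgroup.closure (adj n '' {j | a ≤ j ∧ j < b})

lemma mem_adj {n a b j : ℕ} (ha : a ≤ j) (hb : j < b) :
    adj n j ∈ Subgroup.closure (adj n '' {j | a ≤ j ∧ j < b}) :=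
  Subgroup.subset_closure ⟨j, ⟨ha, hb⟩, rfl⟩

lemma adj_sq (n j : ℕ) : adj n j * adj n j = 1 := by
  unfold adj
  split
  · exact Equiv.swap_mul_self _ _
  · exact one_mul 1

lemma adj_fix {n j : ℕ} (k : Fin n) (h1 : k.val ≠ j) (h2 : k.val ≠ j + 1) : adj n j k = k := by
  unfold adj
  split
  · apply Equiv.swap_apply_of_ne_of_ne
    · intro h
      exact h1 (congrArg Fin.val h)
    · intro h
      exact h2 (congrArg Fin.val h)
  · rfl

lemma adj_self {n j : ℕ} (hj : j + 1 < n) (k : Fin n) (h1 : k.val = j) :
    (adj n j k).val = j + 1 := by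
  subst h1
  unfold adj
  rw [dif_pos hj]
  change (Equiv.swap k ⟨k.val + 1, hj⟩ k).val = k.val + 1
  rw [Equiv.swap_apply_left]

lemma image_mem {n a b : ℕ} {π : Equiv.Perm (Fin n)}
    (h : ∀ k : Fin n, (k.val < a ∨ b < k.val) → π k = k) (k : Fin n) (hk1 : a ≤ k.val)
    (hk2 : k.val ≤ b) : a ≤ (π k).val ∧ (π k).val ≤ b := by
  by_contra hc
  have h1 : (π k).val < a ∨ b < (π k).val := by omega
  have h2 : π (π k) = π k := h _ h1
  have h3 : π k = k := π.injective h2
  rw [h3] at h1
  omega

lemma step {n a b : ℕ} (hab : a ≤ b) (hb : b + 1 < n) (IH : Cl n a b) : Cl n a (b + 1) := by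
  have key : ∀ m : ℕ, ∀ π : Equiv.Perm (Fin n),
      (∀ k : Fin n, (k.val < a ∨ b + 1 < k.val) → π k = k) →
      b + 1 - (π ⟨b + 1, hb⟩).val = m →
      π ∈ Subgroup.closure (adj n '' {j | a ≤ j ∧ j < b + 1}) := by
    intro m
    induction m with
    | zero =>
      intro π h hm
      have h1 := image_mem h ⟨b + 1, hb⟩ (by simp only; omega) (le_refl _)
      have h2 : π ⟨b + 1, hb⟩ = ⟨b + 1, hb⟩ := by
        apply Fin.ext
        simp only
        omega
      have h3 : π ∈ Subgroup.closure (adj n '' {j | a ≤ j ∧ j < b}) := by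
        apply IH
        intro k hk
        rcases hk with hk | hk
        · exact h k (Or.inl hk)
        · by_cases hk' : k.val = b + 1
          · have hk2 : k = ⟨b + 1, hb⟩ := Fin.ext hk'
            rw [hk2]
            exact h2
          · exact h k (Or.inr (by omega))
      refine Subgroup.closure_mono (Set.image_mono ?_) h3
      intro j hj
      exact ⟨hj.1, by have := hj.2; omega⟩
    | succ m ih =>
      intro π h hm
      have h1 := image_mem h ⟨b + 1, hb⟩ (by simp only; omega) (le_refl _)
      set c : ℕ := (π ⟨b + 1, hb⟩).val with hc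
      have hcb : c < b + 1 := by omega
      have h4 : adj n c * π ∈ Subgroup.closure (adj n '' {j | a ≤ j ∧ j < b + 1}) := by
        apply ih
        · intro k hk
          rw [Equiv.Perm.mul_apply, h k hk]
          apply adj_fix
          · omega
          · omega
        · rw [Equiv.Perm.mul_apply, adj_self (by omega) _ hc.symm]
          omega
      have h5 : π = adj n c * (adj n c * π) := by
        rw [← mul_assoc, adj_sq, one_mul]
      rw [h5]
      exact Subgroup.mul_mem _ (mem_adj h1.1 hcb) h4
  intro π h
  exact key _ π h rfl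

lemma base {n a : ℕ} : Cl n a a := by
  intro π h
  have h1 : π = 1 := by
    ext k
    by_cases hk : k.val = a
    · have h2 := image_mem h k (by omega) (by omega)
      rw [Equiv.Perm.one_apply]
      omega
    · rw [h k (by omega), Equiv.Perm.one_apply]
  rw [h1]
  exact Subgroup.one_mem _

lemma all (n a m : ℕ) : a + m < n → Cl n a (a + m) := by
  induction m with
  | zero => intro _; exact base
  | succ m ih =>
    intro h
    have h1 : a + m < n := by omega
    have h2 : a + m + 1 < n := by omega
    have h3 := step (Nat.le_add_right a m) h2 (ih h1)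
    exact h3

end ADJ

theorem adjT : StmtAdj := by
  intro n a b hab hb π h
  obtain ⟨m, rfl⟩ := Nat.exists_eq_add_of_le hab
  exact ADJ.all n a m hb π h

end FO2
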