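import Pool.Agent.FO2.Stmts

/-!
# Automorphisms of the root system `A_d` (module AUA)
-/

namespace FO2.AUA

open Lib_helper64.FO
open scoped RealInnerProductSpace

noncomputable section

variable {d : ℕ}

/-- the Kronecker delta -/
def D (i j : Fin (d + 1)) : ℝ := if i = j then 1 else 0

theorem inner_v {v : Fin (d + 1) → E d}
    (hv : ∀ i j, ⟪v i, v j⟫ = if i = j then (1 : ℝ) else -1 / d) (i j : Fin (d + 1)) :
    ⟪v i, v j⟫ = (1 + 1 / (d : ℝ)) * D i j - 1 / d := by
  rw [hv, D]
  split_ifs <;> ring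

theorem inner_sub {v : Fin (d + 1) → E d}
    (hv : ∀ i j, ⟪v i, v j⟫ = if i = j then (1 : ℝ) else -1 / d) (i j k l : Fin (d + 1)) :
    ⟪v i - v j, v k - v l⟫ = (1 + 1 / (d : ℝ)) * (D i k - D i l - D j k + D j l) := by
  rw [inner_sub_left, inner_sub_right, inner_sub_right, inner_v hv, inner_v hv, inner_v hv,
    inner_v hv]
  ring

theorem norm_sub {v : Fin (d + 1) → E d}
    (hv : ∀ i j, ⟪v i, v j⟫ = if i = j then (1 : ℝ) else -1 / d) {i j : Fin (d + 1)}
    (h : i ≠ j) : ‖v i - v j‖ ^ 2 = 2 * (1 + 1 / (d : ℝ)) := by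
  rw [← real_inner_self_eq_norm_sq, inner_sub hv]
  simp only [D, if_true, if_neg h, if_neg h.symm]
  ring

theorem sum_v {v : Fin (d + 1) → E d} (hd : 0 < d)
    (hv : ∀ i j, ⟪v i, v j⟫ = if i = j then (1 : ℝ) else -1 / d) : ∑ i, v i = 0 := by
  have hd' : (d : ℝ) ≠ 0 := by positivity
  rw [← inner_self_eq_zero (𝕜 := ℝ), sum_inner]
  apply Finset.sum_eq_zero
  intro i _
  rw [inner_sum]
  simp only [inner_v hv, D]
  rw [Finset.sum_sub_distrib, ← Finset.mul_sum, Finset.sum_ite_eq]
  simp only [Finset.mem_univ, if_true, Finset.sum_const, Finset.card_univ, Fintype.card_fin,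
    nsmul_eq_mul]
  push_cast
  field_simp
  ring

/-- differences go to differences -/
theorem diff {Φ : Set (E d)} {v : Fin (d + 1) → E d} (hA : IsA Φ v)
    {g : E d ≃ₗᵢ[ℝ] E d} (hg : ∀ a ∈ Φ, g a ∈ Φ) {i j : Fin (d + 1)} (h : i ≠ j) :
    ∃ k l, k ≠ l ∧ g (v i) - g (v j) = v k - v l := by
  obtain ⟨hv, hΦ⟩ := hA
  have hm : (0 : ℝ) < 2 * (1 + 1 / (d : ℝ)) := by positivity
  have hn := norm_sub hv h
  have hn0 : 0 < ‖v i - v j‖ := by
    have h1 : ‖v i - v j‖ ≠ 0 := by
      intro h0
      rw [h0] at hn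
      rw [← hn] at hm
      norm_num at hm
    exact lt_of_le_of_ne (norm_nonneg _) (Ne.symm h1)
  have ha : (‖v i - v j‖⁻¹ : ℝ) • (v i - v j) ∈ Φ := by
    rw [hΦ]
    refine ⟨i, j, h, ‖v i - v j‖⁻¹, inv_pos.2 hn0, ?_, rfl⟩
    rw [norm_smul, norm_inv, norm_norm, inv_mul_cancel₀ hn0.ne']
  obtain ⟨k, l, hkl, t, ht, h1, h2⟩ := (hΦ _).1 (hg _ ha)
  refine ⟨k, l, hkl, ?_⟩
  have hn' := norm_sub hv hkl
  have e1 : ‖v k - v l‖ = ‖v i - v j‖ := by
    have := hn'.trans hn.symm
    exact (pow_left_inj₀ (norm_nonneg _) (norm_nonneg _) (by norm_num)).1 this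
  have e2 : t = ‖v i - v j‖⁻¹ := by
    rw [h2, norm_smul, e1, Real.norm_of_nonneg ht.le] at h1
    exact eq_inv_of_mul_eq_one_left h1
  rw [e2, map_smul, map_sub] at h2
  exact smul_right_injective (E d) (inv_pos.2 hn0).ne' h2

theorem pair {k l k' l' : Fin (d + 1)} (h1 : k ≠ l) (h2 : k' ≠ l')
    (h : D k k' - D k l' - D l k' + D l l' = 1) : (k = k' ∧ l ≠ l') ∨ (l = l' ∧ k ≠ k') := by
  unfold D at h
  by_cases a : k = k'
  · subst a
    by_cases b : l = l'
    · subst b
      simp only [if_true, if_neg h1, if_neg h1.symm] at h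
      norm_num at h
    · exact Or.inl ⟨rfl, b⟩
  · by_cases b : l = l'
    · exact Or.inr ⟨b, a⟩
    · exfalso
      rw [if_neg a, if_neg b] at h
      split_ifs at h <;> norm_num at h

theorem main (hd : 0 < d) {Φ : Set (E d)} {v : Fin (d + 1) → E d} (hA : IsA Φ v)
    {g : E d ≃ₗᵢ[ℝ] E d} (hg : ∀ a ∈ Φ, g a ∈ Φ) :
    ∃ (π : Equiv.Perm (Fin (d + 1))),
      (∀ i, g (v i) = v (π i)) ∨ (∀ i, g (v i) = -v (π i)) := by
  have hv := hA.1
  have hc : (0 : ℝ) < 1 + 1 / (d : ℝ) := by positivity
  have hsum := sum_v hd hv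
  have hd1 : ((d : ℝ) + 1) ≠ 0 := by positivity
  -- the images of the differences with `v 0`
  have h0 : ∀ j : Fin (d + 1), ∃ k l, j ≠ 0 → k ≠ l ∧ g (v 0) - g (v j) = v k - v l := by
    intro j
    by_cases hj : j = 0
    · exact ⟨0, 0, fun h => absurd hj h⟩
    · obtain ⟨k, l, h1, h2⟩ := diff hA hg (Ne.symm hj)
      exact ⟨k, l, fun _ => ⟨h1, h2⟩⟩
  choose K L hKL using h0
  have hpair : ∀ i j, i ≠ 0 → j ≠ 0 → i ≠ j →
      (K i = K j ∧ L i ≠ L j) ∨ (L i = L j ∧ K i ≠ K j) := by
    intro i j hi hj hij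
    obtain ⟨a1, a2⟩ := hKL i hi
    obtain ⟨b1, b2⟩ := hKL j hj
    apply pair a1 b1
    have e1 : ⟪v (K i) - v (L i), v (K j) - v (L j)⟫ = ⟪v 0 - v i, v 0 - v j⟫ := by
      rw [← a2, ← b2, ← map_sub, ← map_sub, LinearIsometryEquiv.inner_map_map]
    rw [inner_sub hv, inner_sub hv] at e1
    have e2 := mul_left_cancel₀ hc.ne' e1
    rw [e2]
    simp only [D, if_true, if_neg hi, if_neg hij, if_neg (Ne.symm hj)]
    ring
  have hone : (Fin.last d) ≠ 0 := by
    intro h
    have := congrArg Fin.val h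
    simp only [Fin.val_last, Fin.val_zero] at this
    omega
  set o : Fin (d + 1) := Fin.last d with ho
  have hcase : (∀ j, j ≠ 0 → K j = K o) ∨ (∀ j, j ≠ 0 → L j = L o) := by
    by_contra hcon
    push Not at hcon
    obtain ⟨⟨i, hi, hi'⟩, j, hj, hj'⟩ := hcon
    have hio : i ≠ o := fun h => hi' (by rw [h])
    have hjo : j ≠ o := fun h => hj' (by rw [h])
    have e1 : L i = L o := by
      rcases hpair i o hi hone hio with h | h
      · exact absurd h.1 hi'
      · exact h.1
    have e2 : K j = K o := by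
      rcases hpair j o hj hone hjo with h | h
      · exact h.1
      · exact absurd h.1 hj'
    have hij : i ≠ j := fun h => hi' (by rw [h, e2])
    rcases hpair i j hi hj hij with h | h
    · exact hi' (h.1.trans e2)
    · exact hj' (h.1.symm.trans e1)
  rcases hcase with hK | hL
  · -- common first index
    obtain ⟨π', hπ'⟩ : ∃ π' : Fin (d + 1) → Fin (d + 1), π' = fun i => if i = 0 then K o else L i :=
      ⟨_, rfl⟩
    have hinj : Function.Injective π' := by
      intro i j hij
      rw [hπ'] at hij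
      simp only at hij
      by_contra hne
      by_cases hi : i = 0
      · have hj : j ≠ 0 := fun h => hne (hi.trans h.symm)
        rw [if_pos hi, if_neg hj, ← hK j hj] at hij
        exact (hKL j hj).1 hij
      · by_cases hj : j = 0
        · rw [if_neg hi, if_pos hj, ← hK i hi] at hij
          exact (hKL i hi).1 hij.symm
        · rw [if_neg hi, if_neg hj] at hij
          rcases hpair i j hi hj hne with h | h
          · exact h.2 hij
          · exact h.2 ((hK i hi).trans (hK j hj).symm)
    obtain ⟨π, hπ⟩ : ∃ π : Equiv.Perm (Fin (d + 1)), ∀ i, π i = π' i :=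
      ⟨Equiv.ofBijective π' (Finite.injective_iff_bijective.1 hinj), fun _ => rfl⟩
    have key : ∀ i, g (v i) = (g (v 0) - v (K o)) + v (π i) := by
      intro i
      rw [hπ, hπ']
      by_cases hi : i = 0
      · simp only [if_pos hi]
        rw [hi]
        abel
      · simp only [if_neg hi]
        have := (hKL i hi).2
        rw [hK i hi] at this
        have h3 : g (v i) = g (v 0) - (v (K o) - v (L i)) := by
          rw [← this]
          abel
        rw [h3]
        abel
    have hz : g (v 0) - v (K o) = 0 := by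
      have h1 : ∑ i, g (v i) = 0 := by
        rw [← map_sum, hsum, map_zero]
      have h2 : ∑ i, v (π i) = 0 := by
        rw [Equiv.sum_comp π v, hsum]
      rw [Finset.sum_congr rfl fun i _ => key i, Finset.sum_add_distrib, h2, add_zero,
        Finset.sum_const, Finset.card_univ, Fintype.card_fin, ← Nat.cast_smul_eq_nsmul ℝ] at h1
      refine (smul_eq_zero.1 h1).resolve_left ?_
      push_cast
      exact hd1
    refine ⟨π, Or.inl fun i => ?_⟩
    rw [key i, hz, zero_add]
  · -- common second index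
    obtain ⟨π', hπ'⟩ : ∃ π' : Fin (d + 1) → Fin (d + 1), π' = fun i => if i = 0 then L o else K i :=
      ⟨_, rfl⟩
    have hinj : Function.Injective π' := by
      intro i j hij
      rw [hπ'] at hij
      simp only at hij
      by_contra hne
      by_cases hi : i = 0
      · have hj : j ≠ 0 := fun h => hne (hi.trans h.symm)
        rw [if_pos hi, if_neg hj, ← hL j hj] at hij
        exact (hKL j hj).1 hij.symm
      · by_cases hj : j = 0
        · rw [if_neg hi, if_pos hj, ← hL i hi] at hij
          exact (hKL i hi).1 hij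
        · rw [if_neg hi, if_neg hj] at hij
          rcases hpair i j hi hj hne with h | h
          · exact h.2 ((hL i hi).trans (hL j hj).symm)
          · exact h.2 hij
    obtain ⟨π, hπ⟩ : ∃ π : Equiv.Perm (Fin (d + 1)), ∀ i, π i = π' i :=
      ⟨Equiv.ofBijective π' (Finite.injective_iff_bijective.1 hinj), fun _ => rfl⟩
    have key : ∀ i, g (v i) = (g (v 0) + v (L o)) - v (π i) := by
      intro i
      rw [hπ, hπ']
      by_cases hi : i = 0
      · simp only [if_pos hi]
        rw [hi]
        abel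
      · simp only [if_neg hi]
        have := (hKL i hi).2
        rw [hL i hi] at this
        have h3 : g (v i) = g (v 0) - (v (K i) - v (L o)) := by
          rw [← this]
          abel
        rw [h3]
        abel
    have hz : g (v 0) + v (L o) = 0 := by
      have h1 : ∑ i, g (v i) = 0 := by
        rw [← map_sum, hsum, map_zero]
      have h2 : ∑ i, v (π i) = 0 := by
        rw [Equiv.sum_comp π v, hsum]
      rw [Finset.sum_congr rfl fun i _ => key i, Finset.sum_sub_distrib, h2, sub_zero,
        Finset.sum_const, Finset.card_univ, Fintype.card_fin, ← Nat.cast_smul_eq_nsmul ℝ] at h1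
      refine (smul_eq_zero.1 h1).resolve_left ?_
      push_cast
      exact hd1
    refine ⟨π, Or.inr fun i => ?_⟩
    rw [key i, hz, zero_sub]

end

end FO2.AUA

namespace FO2

/-- Module AUA: the isometries that preserve the root system `A_d`. -/
theorem autA : StmtAutA := by
  intro d Φ v hd hA g hg
  exact AUA.main (by omega) hA hg

end FO2
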