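import Pool.Agent.FO2.Stmts

/-!
# Automorphisms of the root system `D_d`, `d ≥ 5` (MP_0bb2d9_co)
-/

set_option autoImplicit false

namespace FO2

open Lib_helper64.FO
open scoped RealInnerProductSpace

namespace AUD

theorem sg_sq (s : ℤˣ) : sg s * sg s = 1 := by
  rcases Int.units_eq_one_or s with rfl | rfl <;> simp [sg]

theorem sg_ne (s : ℤˣ) : sg s ≠ 0 := by
  intro h
  have := sg_sq s
  rw [h] at this
  norm_num at this

theorem sg_cases (s t : ℤˣ) : sg s = sg t ∨ sg s = -sg t := by
  rcases Int.units_eq_one_or s with rfl | rfl <;> rcases Int.units_eq_one_or t with rfl | rfl <;>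
    simp [sg]

variable {d : ℕ} (u : OrthonormalBasis (Fin d) ℝ (E d))

/-- sum of two different signed basis vectors -/
def R (w : E d) : Prop :=
  ∃ i j, i ≠ j ∧ ∃ s t : ℤˣ, w = sg s • u i + sg t • u j

theorem inner_uu (m i : Fin d) : ⟪u m, u i⟫ = if m = i then (1 : ℝ) else 0 :=
  orthonormal_iff_ite.1 u.orthonormal m i

theorem inner_pq {m i j : Fin d} (s t : ℤˣ) : ⟪u m, sg s • u i + sg t • u j⟫ =
    (if m = i then sg s else 0) + (if m = j then sg t else 0) := by
  rw [inner_add_right, inner_smul_right, inner_smul_right, inner_uu, inner_uu]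
  split_ifs <;> simp

/-- the main alternative -/
theorem alt {a b : E d} (hab : ⟪a + b, a - b⟫ = (0 : ℝ)) (hp : R u (a + b)) (hq : R u (a - b)) :
    (∃ (m : Fin d) (s : ℤˣ), a = sg s • u m) ∨
      (∃ S : Finset (Fin d), S.card ≤ 4 ∧ (∀ m, m ∉ S → ⟪u m, a⟫ = (0 : ℝ)) ∧
        ∀ m, ⟪u m, a⟫ = (0 : ℝ) → ⟪u m, b⟫ = (0 : ℝ)) := by
  classical
  obtain ⟨i, j, hij, s, t, hp⟩ := hp
  obtain ⟨i', j', hij', s', t', hq⟩ := hq
  have ha : a = (1 / 2 : ℝ) • ((sg s • u i + sg t • u j) + (sg s' • u i' + sg t' • u j')) := by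
    rw [← hp, ← hq]
    module
  have hb : b = (1 / 2 : ℝ) • ((sg s • u i + sg t • u j) - (sg s' • u i' + sg t' • u j')) := by
    rw [← hp, ← hq]
    module
  have horth : (if i = i' then sg s * sg s' else 0) + (if i = j' then sg s * sg t' else 0) +
      ((if j = i' then sg t * sg s' else 0) + (if j = j' then sg t * sg t' else 0)) = 0 := by
    rw [hp, hq, inner_add_left, inner_smul_left, inner_smul_left, inner_pq, inner_pq] at hab
    simp only [conj_trivial, mul_add, mul_ite, mul_zero] at hab
    exact hab
  have n1 := sg_ne s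
  have n2 := sg_ne t
  have n3 := sg_ne s'
  have n4 := sg_ne t'
  have q1 := sg_sq s
  have q2 := sg_sq t
  have q3 := sg_sq s'
  have q4 := sg_sq t'
  -- equal supports
  have key : ∀ (s t s' t' : ℤˣ) (i j : Fin d), sg s * sg s' + sg t * sg t' = 0 →
      a = (1 / 2 : ℝ) • ((sg s • u i + sg t • u j) + (sg s' • u i + sg t' • u j)) →
      ∃ (m : Fin d) (s : ℤˣ), a = sg s • u m := by
    intro s t s' t' i j h ha
    have q1 := sg_sq s
    have q2 := sg_sq t
    rcases sg_cases s' s with h1 | h1
    · have h2 : sg t' = -sg t := by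
        rcases sg_cases t' t with h3 | h3
        · rw [h1, h3, q1, q2] at h
          norm_num at h
        · exact h3
      refine ⟨i, s, ?_⟩
      rw [ha, h1, h2]
      module
    · have h2 : sg t' = sg t := by
        rcases sg_cases t' t with h3 | h3
        · exact h3
        · rw [h1, h3] at h
          have : -(sg s * sg s) - sg t * sg t = 0 := by rw [← h]; ring
          rw [q1, q2] at this
          norm_num at this
      refine ⟨j, t, ?_⟩
      rw [ha, h1, h2]
      module
  by_cases e1 : i = i'
  · have e2 : i ≠ j' := fun h => hij' (e1.symm.trans h)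
    have e3 : j ≠ i' := fun h => hij (e1.trans h.symm)
    rw [if_pos e1, if_neg e2, if_neg e3] at horth
    by_cases e4 : j = j'
    · rw [if_pos e4] at horth
      subst e1
      subst e4
      left
      exact key s t s' t' i j (by linarith) ha
    · rw [if_neg e4] at horth
      exfalso
      have : sg s * sg s' = 0 := by linarith
      exact mul_ne_zero n1 n3 this
  by_cases e2 : i = j'
  · have e4 : j ≠ j' := fun h => hij (e2.trans h.symm)
    rw [if_neg e1, if_pos e2, if_neg e4] at horth
    by_cases e3 : j = i'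
    · rw [if_pos e3] at horth
      subst e2
      subst e3
      left
      refine key s t t' s' i j (by linarith) ?_
      rw [ha]
      module
    · rw [if_neg e3] at horth
      exfalso
      have : sg s * sg t' = 0 := by linarith
      exact mul_ne_zero n1 n4 this
  by_cases e3 : j = i'
  · have e4 : j ≠ j' := fun h => hij' (e3.symm.trans h)
    rw [if_neg e1, if_neg e2, if_pos e3, if_neg e4] at horth
    exfalso
    have : sg t * sg s' = 0 := by linarith
    exact mul_ne_zero n2 n3 this
  by_cases e4 : j = j'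
  · rw [if_neg e1, if_neg e2, if_neg e3, if_pos e4] at horth
    exfalso
    have : sg t * sg t' = 0 := by linarith
    exact mul_ne_zero n2 n4 this
  -- different supports
  right
  refine ⟨{i, j, i', j'}, Finset.card_le_four, ?_, ?_⟩
  · intro m hm
    simp only [Finset.mem_insert, Finset.mem_singleton, not_or] at hm
    obtain ⟨m1, m2, m3, m4⟩ := hm
    rw [ha, inner_smul_right, inner_add_right, inner_pq, inner_pq, if_neg m1, if_neg m2,
      if_neg m3, if_neg m4]
    norm_num
  · intro m hm
    rw [ha, inner_smul_right, inner_add_right, inner_pq, inner_pq] at hm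
    rw [hb, inner_smul_right, inner_sub_right, inner_pq, inner_pq]
    by_cases m1 : m = i
    · subst m1
      rw [if_pos rfl, if_neg hij, if_neg e1, if_neg e2] at hm
      exfalso
      apply n1
      linarith
    by_cases m2 : m = j
    · subst m2
      rw [if_neg m1, if_pos rfl, if_neg e3, if_neg e4] at hm
      exfalso
      apply n2
      linarith
    by_cases m3 : m = i'
    · subst m3
      rw [if_neg m1, if_neg m2, if_pos rfl, if_neg hij'] at hm
      exfalso
      apply n3
      linarith
    by_cases m4 : m = j'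
    · subst m4
      rw [if_neg m1, if_neg m2, if_neg m3, if_pos rfl] at hm
      exfalso
      apply n4
      linarith
    rw [if_neg m1, if_neg m2, if_neg m3, if_neg m4]
    norm_num

theorem root_iff {w : E d} : (∃ i j, i ≠ j ∧ ∃ s t : ℤˣ,
    (1 / √2 : ℝ) • w = (1 / √2 : ℝ) • (sg s • u i + sg t • u j)) → R u w := by
  rintro ⟨i, j, hij, s, t, h⟩
  refine ⟨i, j, hij, s, t, ?_⟩
  have h2 : (1 / √2 : ℝ) ≠ 0 := by positivity
  exact smul_right_injective _ h2 h

end AUD

open AUD in
theorem autD : StmtAutD := by
  classical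
  intro d Φ u hd hΦ g hg
  -- images of sums and differences
  have hR : ∀ k l : Fin d, k ≠ l → ∀ t : ℤˣ, R u (g (u k) + sg t • g (u l)) := by
    intro k l hkl t
    have h1 : (1 / √2 : ℝ) • (sg 1 • u k + sg t • u l) ∈ Φ := (hΦ _).2 ⟨k, l, hkl, 1, t, rfl⟩
    have h2 := (hΦ _).1 (hg _ h1)
    apply root_iff
    obtain ⟨i, j, hij, s, t', h3⟩ := h2
    refine ⟨i, j, hij, s, t', ?_⟩
    rw [← h3, map_smul, map_add, map_smul, map_smul]
    have : sg 1 = 1 := by simp [sg]
    rw [this, one_smul]
  have hadd : ∀ k l : Fin d, k ≠ l → R u (g (u k) + g (u l)) := by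
    intro k l hkl
    have h := hR k l hkl 1
    have : sg 1 = 1 := by simp [sg]
    rwa [this, one_smul] at h
  have hsub : ∀ k l : Fin d, k ≠ l → R u (g (u k) - g (u l)) := by
    intro k l hkl
    have h := hR k l hkl (-1)
    have : sg (-1) = -1 := by simp [sg]
    rwa [this, neg_one_smul, ← sub_eq_add_neg] at h
  have hgg : ∀ k l : Fin d, ⟪g (u k), g (u l)⟫ = if k = l then (1 : ℝ) else 0 := by
    intro k l
    rw [LinearIsometryEquiv.inner_map_map]
    exact inner_uu u k l
  have main : ∀ k : Fin d, ∃ (m : Fin d) (s : ℤˣ), g (u k) = sg s • u m := by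
    intro k
    by_contra hno
    have halt : ∀ l, l ≠ k → ∃ S : Finset (Fin d), S.card ≤ 4 ∧
        (∀ m, m ∉ S → ⟪u m, g (u k)⟫ = (0 : ℝ)) ∧
        ∀ m, ⟪u m, g (u k)⟫ = (0 : ℝ) → ⟪u m, g (u l)⟫ = (0 : ℝ) := by
      intro l hl
      have h0 : ⟪g (u k) + g (u l), g (u k) - g (u l)⟫ = (0 : ℝ) := by
        simp only [inner_add_left, inner_sub_right, hgg]
        rw [if_neg hl, if_neg (Ne.symm hl)]
        norm_num
      rcases alt u (a := g (u k)) (b := g (u l)) h0 (hadd k l hl.symm) (hsub k l hl.symm) with h | h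
      · exact absurd h hno
      · exact h
    obtain ⟨l, hl⟩ : ∃ l : Fin d, l ≠ k := by
      have : Nontrivial (Fin d) := Fin.nontrivial_iff_two_le.2 (by omega)
      exact exists_ne k
    obtain ⟨S, hS, hS1, -⟩ := halt l hl
    obtain ⟨m, hm⟩ : ∃ m, m ∉ S := by
      by_contra h
      push Not at h
      have h1 : Finset.univ ⊆ S := fun x _ => h x
      have h2 := Finset.card_le_card h1
      rw [Finset.card_univ, Fintype.card_fin] at h2
      omega
    have hz : ∀ l : Fin d, ⟪u m, g (u l)⟫ = (0 : ℝ) := by
      intro l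
      by_cases hlk : l = k
      · rw [hlk]
        exact hS1 m hm
      · obtain ⟨-, -, -, h3⟩ := halt l hlk
        exact h3 m (hS1 m hm)
    have hz' : g.symm (u m) = 0 := by
      have h4 : ∀ l, ⟪u l, g.symm (u m)⟫ = (0 : ℝ) := by
        intro l
        rw [real_inner_comm, ← LinearIsometryEquiv.inner_map_map g,
          LinearIsometryEquiv.apply_symm_apply]
        exact hz l
      have h5 := u.sum_repr' (g.symm (u m))
      rw [← h5]
      exact Finset.sum_eq_zero fun l _ => by rw [h4 l, zero_smul]
    have hn : ‖g.symm (u m)‖ = 1 := by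
      rw [LinearIsometryEquiv.norm_map]
      exact u.orthonormal.1 m
    rw [hz', norm_zero] at hn
    norm_num at hn
  choose f s hf using main
  have hinj : Function.Injective f := by
    intro k l hkl
    by_contra hne
    have h := hgg k l
    rw [if_neg hne, hf k, hf l, hkl, inner_smul_left, inner_smul_right, inner_uu, if_pos rfl] at h
    simp only [conj_trivial, mul_one] at h
    exact mul_ne_zero (sg_ne _) (sg_ne _) h
  exact ⟨Equiv.ofBijective f (Finite.injective_iff_bijective.1 hinj), s, hf⟩

end FO2
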