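import Pool.Agent.FO2.Stmts

/-!
# Assembly: the main theorem from the statements of the modules
-/

namespace FO2

open Lib_helper64.FO
open scoped RealInnerProductSpace

theorem rg1 (hRGa : StmtRGa) (hRGb : StmtRGb) (hRGc : StmtRGc) (hRGd : StmtRGd) {d : ℕ}
    {Φ : Set (E d)} (hd : 5 ≤ d) (h1 : IsRS Φ) (h2 : IrrRS Φ) (h3 : Submodule.span ℝ Φ = ⊤)
    (h4 : HomRS Φ) : SL Φ := by
  have a := hRGa d Φ (by omega) h1 h2 h3
  have b := hRGb d Φ h1 a
  exact hRGd d Φ hd h1 h2 h3 b (hRGc d Φ hd h1 h2 h3 h4 b)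

theorem goodOf (hCh : StmtChain) (hSt : StmtIrrStep) (hBa : StmtIrrBase) (hSc : StmtScal) {d : ℕ}
    {Γ : Type} [Group Γ] [Finite Γ] {X : Type} [MulAction Γ X] (G : Geo d Γ X) (hd : 3 ≤ d) :
    Good G := by
  have hc := hCh d Γ X G hd
  have hb : G.Irr (d - 3) := by
    by_cases h : G.Irr (d - 2)
    · have e : d - 3 + 1 = d - 2 := by omega
      exact hSt d Γ X G hd hc (d - 3) (by omega) (e ▸ h)
    · exact hBa d Γ X G hd hc h
  refine hSc d Γ X G hd hc ?_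
  have key : ∀ k, k + 3 ≤ d → G.Irr (d - 3 - k) := by
    intro k
    induction k with
    | zero => intro _; exact hb
    | succ k ih =>
      intro hk
      have e : d - 3 - (k + 1) + 1 = d - 3 - k := by omega
      exact hSt d Γ X G hd hc (d - 3 - (k + 1)) (by omega) (e ▸ ih (by omega))
  intro i hi
  have e : d - 3 - (d - 3 - i) = i := by omega
  exact e ▸ key (d - 3 - i) (by omega)

theorem exists_not_mem {d : ℕ} {Γ : Type} [Group Γ] {X : Type} [MulAction Γ X] (G : Geo d Γ X) :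
    ∃ j, G.ρ j ∉ G.H := by
  by_contra hcon
  push Not at hcon
  have h1 : (⊤ : Subgroup Γ) ≤ G.H := by
    rw [← G.gen, gpar, Subgroup.closure_le]
    rintro _ ⟨k, -, rfl⟩
    exact hcon k
  have h2 := G.idx
  rw [top_le_iff.1 h1, Subgroup.index_top] at h2
  omega

theorem lastOf (hT1 : StmtT1) (hR0 : StmtRho0) (hLa : StmtLast) (hOrb : StmtOrb)
    (hBl : StmtBlock) (hRGa : StmtRGa) (hRGb : StmtRGb) (hRGc : StmtRGc) (hRGd : StmtRGd)
    (hIIf : StmtIIf) (hIIi : StmtIIi) {d : ℕ} {Γ : Type} [Group Γ] [Finite Γ] {X : Type}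
    [MulAction Γ X] (G : Geo d Γ X) (hd : 9 ≤ d) (hG : Good G) : ∃ r, Last G r := by
  have hJ : (∀ j, 3 ≤ j → G.ρ j ∈ G.H) ∧ (G.ρ 0 ∈ G.H → G.ρ 2 ∈ G.H) := by
    by_cases h0 : G.ρ 0 ∈ G.H
    · have h2 : ∀ j, 2 ≤ j → G.ρ j ∈ G.H := by
        obtain ⟨ε, a, hε, ha, haV, hax, hxa, hT⟩ := hR0 d Γ X G (by omega) hG h0
        obtain ⟨o1, o2, o3, o4, o5, o6, o7⟩ := hOrb d Γ X G (G.ρ 0) ε a h0 hε ha hT
        obtain ⟨b1, b2⟩ := hBl d Γ X G (by omega) hG (G.orb a) o1 o3 o4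
        by_cases hi : IrrRS (G.orb a)
        · exact hIIi d Γ X G (by omega) hG h0 ε a hε ha haV hT hi b1
            (rg1 hRGa hRGb hRGc hRGd (by omega) o1 hi b1 o7)
        · obtain ⟨hf, hx | hκ⟩ := b2 hi
          · exfalso
            obtain ⟨b, hb, c, hc⟩ := hx
            rcases hf a o2 b hb with h | h | h
            · apply hax
              rw [hc, inner_smul_right, h, mul_zero]
            · exact hxa c (h ▸ hc)
            · apply hxa (-c)
              rw [hc, h]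
              simp
          · exact hIIf d Γ X G (by omega) hG h0 ε a hε ha haV hxa hT hf hκ
      exact ⟨fun j hj => h2 j (by omega), fun _ => h2 2 le_rfl⟩
    · exact ⟨hT1 d Γ X G (by omega) hG h0, fun h => absurd h h0⟩
  have hl := hJ.1 (d - 1) (by omega)
  obtain ⟨r, hr, hrV, hrT⟩ := hLa d Γ X G (by omega) hG.chain hl
  obtain ⟨o1, o2, o3, o4, o5, o6, o7⟩ := hOrb d Γ X G (G.ρ (d - 1)) 1 r hl (Or.inl rfl) hr
    (fun v => by rw [hrT v, one_smul])
  exact ⟨r, hG, hJ.1, hJ.2, hr, hrV, hrT, (hBl d Γ X G (by omega) hG (G.orb r) o1 o3 o4).1⟩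

theorem IsA.renum {d : ℕ} {Φ : Set (E d)} {v : Fin (d + 1) → E d} (h : IsA Φ v)
    (π : Equiv.Perm (Fin (d + 1))) : IsA Φ (fun i => v (π i)) := by
  refine ⟨fun i j => ?_, fun a => ?_⟩
  · rw [h.1]
    simp [π.injective.eq_iff]
  · rw [h.2]
    constructor
    · rintro ⟨i, j, hij, t, ht, ha, rfl⟩
      exact ⟨π.symm i, π.symm j, fun e => hij (π.symm.injective e), t, ht, ha, by simp⟩
    · rintro ⟨i, j, hij, t, ht, ha, rfl⟩
      exact ⟨π i, π j, fun e => hij (π.injective e), t, ht, ha, rfl⟩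

theorem IsD.renum {d : ℕ} {Φ : Set (E d)} {u : OrthonormalBasis (Fin d) ℝ (E d)} (h : IsD Φ u)
    (π : Equiv.Perm (Fin d)) : IsD Φ (u.reindex π) := by
  intro a
  rw [h a]
  constructor
  · rintro ⟨i, j, hij, s, t, rfl⟩
    exact ⟨π i, π j, fun e => hij (π.injective e), s, t, by simp⟩
  · rintro ⟨i, j, hij, s, t, rfl⟩
    exact ⟨π.symm i, π.symm j, fun e => hij (π.symm.injective e), s, t, by simp⟩

/-- the permutation of `Fin (d + 1)` that fixes `0` and permutes the others as `π` -/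
def liftPerm {d : ℕ} (π : Equiv.Perm (Fin d)) : Equiv.Perm (Fin (d + 1)) where
  toFun := Fin.cons 0 (fun k => (π k).succ)
  invFun := Fin.cons 0 (fun k => (π.symm k).succ)
  left_inv i := by
    refine Fin.cases ?_ (fun k => ?_) i <;> simp
  right_inv i := by
    refine Fin.cases ?_ (fun k => ?_) i <;> simp

theorem liftPerm_zero {d : ℕ} (π : Equiv.Perm (Fin d)) : liftPerm π 0 = 0 := rfl

theorem liftPerm_succ {d : ℕ} (π : Equiv.Perm (Fin d)) (k : Fin d) :
    liftPerm π k.succ = (π k).succ := by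
  simp [liftPerm]

/-- the four possible forms -/
def Forms {d : ℕ} {Γ : Type} [Group Γ] {X : Type} [MulAction Γ X] (G : Geo d Γ X) : Prop :=
  (∃ (v : Fin (d + 1) → E d) (a b : ℝ), IsSimplex v ∧ a ≠ 0 ∧ b ≠ 0 ∧ a ^ 2 ≠ b ^ 2 ∧
      GMatch G (S1 d) (0, false) (F1 v a b)) ∨
  (∃ (u : OrthonormalBasis (Fin d) ℝ (E d)) (a b : ℝ), a ≠ 0 ∧ b ≠ 0 ∧ a ^ 2 ≠ b ^ 2 ∧
      GMatch G (S2 d) (fun _ => 1) (F2 u a b)) ∨
  (∃ (h : 0 < d) (u : OrthonormalBasis (Fin d) ℝ (E d)) (a b : ℝ), a ≠ 0 ∧ b ≠ 0 ∧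
      a ^ 2 ≠ b ^ 2 ∧ GMatch G (S3 d) (⟨0, h⟩, 1, false) (F3 u a b)) ∨
  (∃ (hd : Even d) (u : OrthonormalBasis (Fin d) ℝ (E d)) (a : ℝ), a ≠ 0 ∧
      GMatch G (S4 d hd) (fun _ => 1) (F2 u a a))

/-- all the statements of the algebraic part -/
structure Alg : Prop where
  Ch : StmtChain
  St : StmtIrrStep
  Ba : StmtIrrBase
  Sc : StmtScal
  RGa : StmtRGa
  RGb : StmtRGb
  RGc : StmtRGc
  RGd : StmtRGd
  RG2 : StmtRG2
  RG3a : StmtRG3a
  RG3b : StmtRG3b
  RG3c : StmtRG3c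
  AutA : StmtAutA
  AutD : StmtAutD
  Ext : StmtExt
  T1 : StmtExt → StmtT1
  R0 : StmtRho0
  La : StmtLast
  Orb : StmtOrb
  Bl : StmtBlock
  IIf : StmtExt → StmtIIf
  Star : StmtOrb → StmtRG2 → StmtStar
  StarN : StmtStar → StmtStarN
  IIi : StmtExt → StmtStarN → StmtIIi
  J2 : StmtExt → StmtStarN → StmtJ2
  J01 : StmtExt → StmtStarN → StmtJ01
  Fr1 : StmtOrb → StmtFr1
  Fr2 : StmtOrb → StmtFr2
  Fr3 : StmtFr3
  Fr4 : StmtFr4
  PosA : StmtOrb → StmtAutA → StmtPosA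
  PosD : StmtOrb → StmtAutD → StmtStar → StmtPosD
  SymA : StmtOrb → StmtAutA → StmtSymA
  SymD : StmtOrb → StmtAutD → StmtSymD
  Lab1 : StmtLab1
  Lab2 : StmtLab2
  Chi : StmtExt → StmtStarN → StmtChi
  FinA0 : StmtOrb → StmtAutA → StmtStar → StmtFinA0
  FinA1 : StmtOrb → StmtAutA → StmtChi → StmtFinA1
  FinD0 : StmtOrb → StmtAutD → StmtStar → StmtFinD0
  FinD1 : StmtOrb → StmtAutD → StmtChi → StmtFinD1

theorem forms (A : Alg) {d : ℕ} {Γ : Type} [Group Γ] [Finite Γ] {X : Type} [MulAction Γ X]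
    (G : Geo d Γ X) (hd : 9 ≤ d) : Forms G := by
  have hG := goodOf A.Ch A.St A.Ba A.Sc G (by omega)
  have hStar : StmtStar := A.Star A.Orb A.RG2
  have hStarN : StmtStarN := A.StarN hStar
  have hChi : StmtChi := A.Chi A.Ext hStarN
  obtain ⟨r, hr⟩ := lastOf (A.T1 A.Ext) A.R0 A.La A.Orb A.Bl A.RGa A.RGb A.RGc A.RGd
    (A.IIf A.Ext) (A.IIi A.Ext hStarN) G hd hG
  obtain ⟨j0, hj0⟩ := exists_not_mem G
  have hl := hr.J (d - 1) (by omega)
  obtain ⟨o1, o2, o3, o4, o5, o6, o7⟩ := A.Orb d Γ X G (G.ρ (d - 1)) 1 r hl (Or.inl rfl) hr.norm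
    (fun v => by rw [hr.refl v, one_smul])
  by_cases hi : IrrRS (G.orb r)
  · have hsl : SL (G.orb r) := rg1 A.RGa A.RGb A.RGc A.RGd (by omega) o1 hi hr.span o7
    have h2 := A.J2 A.Ext hStarN d Γ X G r (by omega) hr hi hsl
    have h01 := A.J01 A.Ext hStarN d Γ X G r (by omega) hr hi hsl h2
    have hge2 : ∀ j, 2 ≤ j → G.ρ j ∈ G.H := by
      intro j hj
      rcases Nat.lt_or_ge j 3 with h | h
      · have : j = 2 := by omega
        exact this ▸ h2
      · exact hr.J j h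
    have hcase : (G.ρ 0 ∉ G.H ∧ ∀ j, 1 ≤ j → G.ρ j ∈ G.H) ∨ (G.ρ 0 ∈ G.H ∧ G.ρ 1 ∉ G.H) := by
      rcases h01 with h | h
      · right
        refine ⟨h, fun h1 => hj0 ?_⟩
        rcases Nat.lt_or_ge j0 2 with h' | h'
        · interval_cases j0
          · exact h
          · exact h1
        · exact hge2 j0 h'
      · left
        have h1 : ∀ j, 1 ≤ j → G.ρ j ∈ G.H := by
          intro j hj
          rcases Nat.lt_or_ge j 2 with h' | h'
          · have : j = 1 := by omega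
            exact this ▸ h
          · exact hge2 j h'
        refine ⟨fun h0 => hj0 ?_, h1⟩
        rcases Nat.lt_or_ge j0 1 with h' | h'
        · have : j0 = 0 := by omega
          exact this ▸ h0
        · exact h1 j0 h'
    by_cases h4 : HasD4 (G.orb r)
    · -- type D
      obtain ⟨n, u, hn, hu, hc⟩ := A.RG3b d (G.orb r) o1 hsl h4
      obtain ⟨u, hu⟩ := A.RG3c d (G.orb r) hd o1 hi hr.span hsl n u hn hu hc
      obtain ⟨u, hu, hx⟩ := A.PosD A.Orb A.AutD hStar d Γ X G r hd hr hi hsl ⟨j0, hj0⟩ u hu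
      have hs := A.SymD A.Orb A.AutD d Γ X G r hd hr u hu hx
      have hL := A.Lab1 d Γ X G hd hG hge2 _ hs
      rcases hcase with ⟨hc0, hc1⟩ | ⟨hc0, hc1⟩
      · obtain ⟨π, hπ⟩ := A.Lab2 d Γ X G hd hG 1 (Or.inl rfl) hc1 _ hs hL
        right; left
        refine A.FinD0 A.Orb A.AutD hStar d Γ X G r hd hr hi hsl hc0 hc1 (u.reindex π.symm)
          (hu.renum π.symm) ?_ ?_
        · obtain ⟨c, hc⟩ := hx
          refine ⟨c, ?_⟩
          rw [hc]
          congr 1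
          simp only [OrthonormalBasis.reindex_apply, Equiv.symm_symm]
          exact (Equiv.sum_comp π (fun i => u i)).symm
        · intro j hj k
          simpa using hπ j hj k
      · obtain ⟨π, hπ⟩ := A.Lab2 d Γ X G hd hG 2 (Or.inr rfl) hge2 _ hs hL
        right; right; right
        refine A.FinD1 A.Orb A.AutD hChi d Γ X G r hd hr hi hsl hc0 hc1 h2 (u.reindex π.symm)
          (hu.renum π.symm) ?_ ?_
        · obtain ⟨c, hc⟩ := hx
          refine ⟨c, ?_⟩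
          rw [hc]
          congr 1
          simp only [OrthonormalBasis.reindex_apply, Equiv.symm_symm]
          exact (Equiv.sum_comp π (fun i => u i)).symm
        · intro j hj k
          simpa using hπ j hj k
    · -- type A
      obtain ⟨v, hv⟩ := A.RG3a d (G.orb r) (by omega) o1 hi hr.span hsl h4
      rcases hcase with ⟨hc0, hc1⟩ | ⟨hc0, hc1⟩
      · obtain ⟨v, hv, hx⟩ := A.PosA A.Orb A.AutA d Γ X G r hd hr v hv
        have hs := A.SymA A.Orb A.AutA d Γ X G r hd hr v hv hx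
        have hL := A.Lab1 d Γ X G hd hG hge2 _ hs
        obtain ⟨π, hπ⟩ := A.Lab2 d Γ X G hd hG 1 (Or.inl rfl) hc1 _ hs hL
        left
        refine A.FinA0 A.Orb A.AutA hStar d Γ X G r hd hr hi hsl hc0 hc1
          (fun i => v (liftPerm π i)) (hv.renum _) hx ?_
        intro j hj k
        have := hπ j hj k
        simpa only [liftPerm_succ] using this
      · exact (A.FinA1 A.Orb A.AutA hChi d Γ X G r hd hr hi hsl hc0 hc1 h2 v hv).elim
  · -- frame
    obtain ⟨b1, b2⟩ := A.Bl d Γ X G (by omega) hG (G.orb r) o1 o3 o4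
    obtain ⟨hf, hx⟩ := b2 hi
    obtain ⟨hj, ha⟩ := A.Fr1 A.Orb d Γ X G r (by omega) hr hf hx
    have h0 : G.ρ 0 ∉ G.H := by
      intro h0
      apply hj0
      rcases Nat.lt_or_ge j0 1 with h' | h'
      · have : j0 = 0 := by omega
        exact this ▸ h0
      · exact hj j0 h'
    obtain ⟨u, a, b, η, ε, hF⟩ := A.Fr2 A.Orb d Γ X G r (by omega) hr hf hj ha
    obtain ⟨u, a, b, ε, hF, hε⟩ := A.Fr3 d Γ X G (by omega) hG hj h0 u a b η ε hF
    obtain ⟨u, a, b, ha, hb, hab, hM⟩ := A.Fr4 d Γ X G (by omega) hG hj h0 u a b ε hF hε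
    right; right; left
    exact ⟨by omega, u, a, b, ha, hb, hab, hM⟩

/-- all the statements of the poset part -/
structure Pos : Prop where
  Flg : StmtFlag
  Conn : StmtFlag → StmtConn
  Poly : StmtFlag → StmtConn → StmtPoly
  Lin : StmtLin
  Geo1 : StmtLin → StmtGeo1
  Geo2 : StmtFlag → StmtGeo2
  Int : StmtInt
  CosA : StmtCosA
  CosB : StmtCosA → StmtCosB
  RealF : StmtFlag → StmtPoly → StmtRealF
  RealO : StmtFlag → StmtPoly → StmtRealO
  Adj : StmtAdj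
  Ex1S : StmtInt → StmtAdj → StmtEx1S
  Ex2S : StmtInt → StmtAdj → StmtEx2S
  Ex3S : StmtInt → StmtAdj → StmtEx3S
  Ex4S : StmtInt → StmtAdj → StmtEx4S
  Ex1R : StmtAdj → StmtEx1S → StmtEx1R
  Ex2R : StmtAdj → StmtEx2S → StmtEx2R
  Ex3R : StmtAdj → StmtEx3S → StmtEx3R
  Ex4R : StmtAdj → StmtEx4S → StmtEx4R

theorem exists_flag (P : Type) [PartialOrder P] : Nonempty (Flag P) := by
  obtain ⟨s, hs, -⟩ := (IsChain.exists_maxChain (r := (· ≤ ·)) (c := (∅ : Set P)) (by simp [IsChain]))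
  exact ⟨⟨s, hs.1, hs.2⟩⟩

theorem main (A : Alg) (B : Pos) : MainStatement := by
  intro d hd
  have hConn := B.Conn B.Flg
  have hPoly := B.Poly B.Flg hConn
  have hCos := B.CosB B.CosA
  have e1 := B.Ex1S B.Int B.Adj
  have e2 := B.Ex2S B.Int B.Adj
  have e3 := B.Ex3S B.Int B.Adj
  have e4 := B.Ex4S B.Int B.Adj
  refine ⟨?_, hCos d _ (S1 d) (by omega) inferInstance (e1 d (by omega)),
    hCos d _ (S2 d) (by omega) inferInstance (e2 d (by omega)),
    hCos d _ (S3 d) (by omega) inferInstance (e3 d (by omega)),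
    fun h => hCos d _ (S4 d h) (by omega) inferInstance (e4 d h (by omega))⟩
  intro P _ _ rk hP f
  constructor
  · intro hf
    obtain ⟨C⟩ := exists_flag P
    obtain ⟨ρ, hρ⟩ := hPoly d P rk hP C
    obtain ⟨X, _, G, ι, c, hG⟩ := B.Geo1 B.Lin d (by omega) P rk hP f hf C ρ hρ
    have : Finite (P ≃o P) := Finite.of_injective (fun g : P ≃o P => (g : P → P))
      DFunLike.coe_injective
    have back := B.Geo2 B.Flg d (by omega) P rk hP f C ρ X G ι c hG
    rcases forms A G hd with h | h | h | h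
    · obtain ⟨v, a, b, hv, ha, hb, hab, hM⟩ := h
      exact Or.inl ⟨v, a, b, hv, ha, hb, hab, back _ _ _ _ hM⟩
    · obtain ⟨u, a, b, ha, hb, hab, hM⟩ := h
      exact Or.inr (Or.inl ⟨u, a, b, ha, hb, hab, back _ _ _ _ hM⟩)
    · obtain ⟨h0, u, a, b, ha, hb, hab, hM⟩ := h
      exact Or.inr (Or.inr (Or.inl ⟨h0, u, a, b, ha, hb, hab, back _ _ _ _ hM⟩))
    · obtain ⟨hev, u, a, ha, hM⟩ := h
      exact Or.inr (Or.inr (Or.inr ⟨hev, u, a, ha, back _ _ _ _ hM⟩))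
  · have hF := B.RealF B.Flg hPoly
    have hO := B.RealO B.Flg hPoly
    rintro (h | h | h | h)
    · obtain ⟨v, a, b, hv, ha, hb, hab, hM⟩ := h
      obtain ⟨i0, hR⟩ := B.Ex1R B.Adj e1 d (by omega) v a b hv ha hb hab
      exact ⟨hF d _ _ _ _ i0 inferInstance (e1 d (by omega)) hR P rk hP f hM,
        hO d _ _ _ _ i0 inferInstance (e1 d (by omega)) hR P rk hP f hM⟩
    · obtain ⟨u, a, b, ha, hb, hab, hM⟩ := h
      obtain ⟨i0, hR⟩ := B.Ex2R B.Adj e2 d (by omega) u a b ha hb hab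
      exact ⟨hF d _ _ _ _ i0 inferInstance (e2 d (by omega)) hR P rk hP f hM,
        hO d _ _ _ _ i0 inferInstance (e2 d (by omega)) hR P rk hP f hM⟩
    · obtain ⟨h0, u, a, b, ha, hb, hab, hM⟩ := h
      obtain ⟨i0, hR⟩ := B.Ex3R B.Adj e3 d (by omega) u a b ha hb hab
      exact ⟨hF d _ _ _ _ i0 inferInstance (e3 d (by omega)) hR P rk hP f hM,
        hO d _ _ _ _ i0 inferInstance (e3 d (by omega)) hR P rk hP f hM⟩
    · obtain ⟨hev, u, a, ha, hM⟩ := h
      obtain ⟨i0, hR⟩ := B.Ex4R B.Adj e4 d hev (by omega) u a ha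
      exact ⟨hF d _ _ _ _ i0 inferInstance (e4 d hev (by omega)) hR P rk hP f hM,
        hO d _ _ _ _ i0 inferInstance (e4 d hev (by omega)) hR P rk hP f hM⟩

end FO2
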