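import Pool.Agent.FO2.Stmts

/-!
# Module BL: the blocks of a root set
-/

namespace FO2

open Lib_helper64.FO
open scoped RealInnerProductSpace

noncomputable section

namespace BL

variable {d : ℕ} {Φ : Set (E d)}

/-- two roots which are not orthogonal -/
def nb (Φ : Set (E d)) (p q : E d) : Prop := p ∈ Φ ∧ q ∈ Φ ∧ ⟪p, q⟫ ≠ (0 : ℝ)

/-- connected roots -/
def con (Φ : Set (E d)) : E d → E d → Prop := Relation.ReflTransGen (nb Φ)

/-- the span of the component of the root `a` -/
def LL (Φ : Set (E d)) (a : E d) : Submodule ℝ (E d) :=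
  Submodule.span ℝ {b | b ∈ Φ ∧ con Φ a b}

theorem nb_symm {p q : E d} (h : nb Φ p q) : nb Φ q p :=
  ⟨h.2.1, h.1, by rw [real_inner_comm]; exact h.2.2⟩

theorem con_symm {p q : E d} (h : con Φ p q) : con Φ q p := by
  induction h with
  | refl => exact Relation.ReflTransGen.refl
  | tail _ h2 ih => exact Relation.ReflTransGen.head (nb_symm h2) ih

theorem con_trans {p q r : E d} (h : con Φ p q) (h' : con Φ q r) : con Φ p r :=
  Relation.ReflTransGen.trans h h'

theorem self_mem {a : E d} (ha : a ∈ Φ) : a ∈ LL Φ a :=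
  Submodule.subset_span ⟨ha, Relation.ReflTransGen.refl⟩

theorem mem_of_con {a b : E d} (hb : b ∈ Φ) (h : con Φ a b) : b ∈ LL Φ a :=
  Submodule.subset_span ⟨hb, h⟩

theorem LL_eq {a b : E d} (h : con Φ a b) : LL Φ a = LL Φ b := by
  unfold LL
  congr 1
  ext c
  exact ⟨fun hc => ⟨hc.1, con_trans (con_symm h) hc.2⟩, fun hc => ⟨hc.1, con_trans h hc.2⟩⟩

theorem LL_ortho {a b : E d} (h : ¬ con Φ a b) : ∀ u ∈ LL Φ a, ∀ v ∈ LL Φ b, ⟪u, v⟫ = (0 : ℝ) := by
  have h1 : (LL Φ a) ⟂ (LL Φ b) := by
    unfold LL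
    rw [Submodule.isOrtho_span]
    intro p hp q hq
    by_contra hne
    exact h (con_trans hp.2 (Relation.ReflTransGen.head ⟨hp.1, hq.1, hne⟩ (con_symm hq.2)))
  intro u hu v hv
  exact h1.inner_eq hu hv

theorem nb_map (T : E d ≃ₗᵢ[ℝ] E d) (hT : ∀ b ∈ Φ, T b ∈ Φ) {p q : E d} (h : nb Φ p q) :
    nb Φ (T p) (T q) :=
  ⟨hT _ h.1, hT _ h.2.1, by rw [LinearIsometryEquiv.inner_map_map]; exact h.2.2⟩

theorem con_map (T : E d ≃ₗᵢ[ℝ] E d) (hT : ∀ b ∈ Φ, T b ∈ Φ) {p q : E d} (h : con Φ p q) :
    con Φ (T p) (T q) := by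
  induction h with
  | refl => exact Relation.ReflTransGen.refl
  | tail _ h2 ih => exact Relation.ReflTransGen.tail ih (nb_map T hT h2)

theorem LL_map (T : E d ≃ₗᵢ[ℝ] E d) (hT : ∀ b ∈ Φ, T b ∈ Φ) {a : E d} :
    ∀ v ∈ LL Φ a, T v ∈ LL Φ (T a) := by
  intro v hv
  unfold LL at hv
  induction hv using Submodule.span_induction with
  | mem w hw => exact mem_of_con (hT _ hw.1) (con_map T hT hw.2)
  | zero => rw [map_zero]; exact Submodule.zero_mem _
  | add u w _ _ h1 h2 => rw [map_add]; exact Submodule.add_mem _ h1 h2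
  | smul c u _ h1 => rw [map_smul]; exact Submodule.smul_mem _ _ h1

/-- the projection of `x` to the span of the component of `a` -/
def pr (Φ : Set (E d)) (x a : E d) : E d := (LL Φ a).starProjection x

theorem pr_mem (x a : E d) : pr Φ x a ∈ LL Φ a := Submodule.starProjection_apply_mem _ _

theorem inner_pr (x a : E d) {v : E d} (hv : v ∈ LL Φ a) : ⟪v, pr Φ x a⟫ = (⟪v, x⟫ : ℝ) := by
  have h := Submodule.starProjection_inner_eq_zero (K := LL Φ a) x v hv
  rw [inner_sub_left, sub_eq_zero, real_inner_comm, real_inner_comm v] at h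
  exact h.symm

theorem pr_map (T : E d ≃ₗᵢ[ℝ] E d) (hT : ∀ b ∈ Φ, T b ∈ Φ) (hT' : ∀ b ∈ Φ, T.symm b ∈ Φ)
    {x : E d} (hx : T x = x) (a : E d) : T (pr Φ x a) = pr Φ x (T a) := by
  symm
  apply Submodule.eq_starProjection_of_mem_of_inner_eq_zero
  · exact LL_map T hT _ (pr_mem x a)
  · intro w hw
    have h1 : T.symm w ∈ LL Φ a := by
      have := LL_map T.symm hT' _ hw
      rwa [LinearIsometryEquiv.symm_apply_apply] at this
    have h2 := inner_pr x a h1
    have h3 : (⟪w, T (pr Φ x a)⟫ : ℝ) = ⟪T.symm w, pr Φ x a⟫ := by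
      rw [← LinearIsometryEquiv.inner_map_map T (T.symm w), LinearIsometryEquiv.apply_symm_apply]
    have h4 : (⟪w, x⟫ : ℝ) = ⟪T.symm w, x⟫ := by
      rw [← LinearIsometryEquiv.inner_map_map T (T.symm w), LinearIsometryEquiv.apply_symm_apply, hx]
    rw [inner_sub_left, real_inner_comm, real_inner_comm w, h3, h4, h2, sub_self]

/-- `x` is orthogonal to each vector which is orthogonal to all projections of `x` -/
theorem ortho_of_pr (hfin : Φ.Finite) (hsp : Submodule.span ℝ Φ = ⊤) {x y : E d}
    (hy : ∀ a ∈ Φ, ⟪y, pr Φ x a⟫ = (0 : ℝ)) : ⟪y, x⟫ = (0 : ℝ) := by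
  classical
  set S : Finset (Submodule ℝ (E d)) := hfin.toFinset.image (LL Φ) with hS
  set z : E d := ∑ L ∈ S, L.starProjection x with hz
  have hzx : z = x := by
    have h1 : ∀ b ∈ Φ, ⟪b, z - x⟫ = (0 : ℝ) := by
      intro b hb
      rw [inner_sub_right, hz, inner_sum, Finset.sum_eq_single (LL Φ b)]
      · have := inner_pr x b (self_mem hb)
        unfold pr at this
        rw [this, sub_self]
      · intro L hL hne
        rw [hS, Finset.mem_image] at hL
        obtain ⟨c, hc, rfl⟩ := hL
        have hcon : ¬ con Φ b c := fun h => hne (LL_eq h).symm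
        exact LL_ortho hcon b (self_mem hb) _ (Submodule.starProjection_apply_mem _ _)
      · intro h
        exact absurd (Finset.mem_image_of_mem _ (hfin.mem_toFinset.2 hb)) h
    have h2 : z - x ∈ (Submodule.span ℝ Φ)ᗮ := by
      rw [Submodule.mem_orthogonal]
      intro u hu
      induction hu using Submodule.span_induction with
      | mem w hw => exact h1 w hw
      | zero => exact inner_zero_left _
      | add u w _ _ h1 h2 => rw [inner_add_left, h1, h2, add_zero]
      | smul c u _ h1 => rw [inner_smul_left, h1, mul_zero]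
    rw [hsp, Submodule.top_orthogonal_eq_bot, Submodule.mem_bot, sub_eq_zero] at h2
    exact h2
  rw [← hzx, hz, inner_sum]
  apply Finset.sum_eq_zero
  intro L hL
  rw [hS, Finset.mem_image] at hL
  obtain ⟨c, hc, rfl⟩ := hL
  exact hy c (hfin.mem_toFinset.1 hc)

/-- if all spans of components are lines, then `Φ` is a frame -/
theorem frame_of_line (hΦ : IsRS Φ) (h : ∀ a ∈ Φ, ∀ b ∈ LL Φ a, ∃ c : ℝ, b = c • a) : FrameRS Φ := by
  intro a ha b hb
  by_cases hc : con Φ a b
  · right
    obtain ⟨c, e⟩ := h a ha b (mem_of_con hb hc)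
    have h1 : ‖b‖ = |c| * ‖a‖ := by rw [e, norm_smul, Real.norm_eq_abs]
    rw [hΦ.norm b hb, hΦ.norm a ha, mul_one] at h1
    rcases abs_choice c with h2 | h2
    · left
      rw [h2] at h1
      rw [e, ← h1, one_smul]
    · right
      rw [h2] at h1
      have : c = -1 := by linarith
      rw [e, this]
      simp
  · left
    exact LL_ortho hc a (self_mem ha) b (self_mem hb)

end BL

open BL in
/-- BL -/
theorem block : StmtBlock := by
  intro d Γ _ _ X _ G hd hG Φ hΦ hst htr
  have hC := hG.chain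
  have hx : G.x ≠ 0 := hC.x_ne
  -- the spaces `V 0`, `V 1`
  have hV1 : Submodule.span ℝ {G.x} = G.V 1 := by
    apply Submodule.eq_of_le_of_finrank_eq
    · rw [Submodule.span_singleton_le_iff_mem]
      exact G.x_mem_V1
    · rw [finrank_span_singleton hx, hC.dim 1 (by omega)]
  have hU0 : G.U 0 = ⊤ := by
    have h0 : G.V 0 = ⊥ := Submodule.finrank_eq_zero.1 (hC.dim 0 (by omega))
    rw [Geo.U, h0, Submodule.bot_orthogonal_eq_top]
  have hVU : (G.U 1)ᗮ = G.V 1 := by
    rw [Geo.U, Submodule.orthogonal_orthogonal]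
  have memU1 : ∀ v, v ∈ G.U 1 ↔ ⟪v, G.x⟫ = (0 : ℝ) := by
    intro v
    rw [Geo.U, ← hV1, Submodule.mem_orthogonal_singleton_iff_inner_left]
  have hsymm : ∀ h ∈ G.H, ∀ b ∈ Φ, (G.T h).symm b ∈ Φ := by
    intro h hh b hb
    have h1 : (G.T h).symm b = G.T h⁻¹ b := by
      rw [LinearIsometryEquiv.symm_apply_eq, G.T_inv_apply hh]
    rw [h1]
    exact hst _ (inv_mem hh) b hb
  have hxfix : ∀ h ∈ G.Hi 1, G.T h G.x = G.x := fun h hh => G.x_mem_V1 h hh
  obtain ⟨a0, ha0⟩ := hΦ.ne
  have nz : ∀ a ∈ Φ, a ≠ 0 := by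
    intro a ha e
    have := hΦ.norm a ha
    rw [e, norm_zero] at this
    exact zero_ne_one this
  -- the roots span
  have hspst : ∀ h ∈ G.Hi 0, ∀ v ∈ Submodule.span ℝ Φ, G.T h v ∈ Submodule.span ℝ Φ := by
    intro h hh v hv
    induction hv using Submodule.span_induction with
    | mem w hw => exact Submodule.subset_span (hst h (G.Hi_le_H 0 hh) w hw)
    | zero => rw [map_zero]; exact Submodule.zero_mem _
    | add u w _ _ h1 h2 => rw [map_add]; exact Submodule.add_mem _ h1 h2
    | smul c u _ h1 => rw [map_smul]; exact Submodule.smul_mem _ _ h1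
  have hspan : Submodule.span ℝ Φ = ⊤ := by
    rcases hG.irr 0 (by omega) (Submodule.span ℝ Φ) (hU0 ▸ le_top) hspst with h | h
    · exfalso
      have h1 : a0 ∈ Submodule.span ℝ Φ := Submodule.subset_span ha0
      rw [h, Submodule.mem_bot] at h1
      exact nz a0 ha0 h1
    · rw [h, hU0]
  refine ⟨hspan, fun hirr => ?_⟩
  -- two components
  have htwo : ∃ a ∈ Φ, ∃ b ∈ Φ, ¬ con Φ a b := by
    by_contra hcon
    push Not at hcon
    apply hirr
    intro L hL
    by_contra hno
    push Not at hno
    obtain ⟨⟨a, ha, ha'⟩, ⟨b, hb, hb'⟩⟩ := hno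
    have hbL : b ∈ L := (hL b hb).resolve_right hb'
    have key : ∀ c, con Φ b c → c ∈ L := by
      intro c hc
      induction hc with
      | refl => exact hbL
      | tail _ h2 ih =>
          rename_i p q _
          rcases hL q h2.2.1 with h3 | h3
          · exact h3
          · exfalso
            rw [Submodule.mem_orthogonal] at h3
            exact h2.2.2 (h3 p ih)
    exact ha' (key a (hcon b hb a ha))
  -- `B`
  set B : Submodule ℝ (E d) :=
    { carrier := {y | ∀ a ∈ Φ, ⟪y, pr Φ G.x a⟫ = (0 : ℝ)}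
      add_mem' := by
        intro u v hu hv a ha
        rw [inner_add_left, hu a ha, hv a ha, add_zero]
      zero_mem' := by
        intro a _
        exact inner_zero_left _
      smul_mem' := by
        intro c u hu a ha
        rw [inner_smul_left, hu a ha, mul_zero] } with hB
  have memB : ∀ y, y ∈ B ↔ ∀ a ∈ Φ, ⟪y, pr Φ G.x a⟫ = (0 : ℝ) := fun y => Iff.rfl
  have hBU : B ≤ G.U 1 := by
    intro y hy
    rw [memU1]
    exact ortho_of_pr hΦ.fin hspan ((memB y).1 hy)
  have hBst : ∀ h ∈ G.Hi 1, ∀ v ∈ B, G.T h v ∈ B := by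
    intro h hh v hv
    rw [memB] at hv ⊢
    intro a ha
    have hh' := G.Hi_le_H 1 hh
    have h1 := pr_map (G.T h) (hst h hh') (hsymm h hh') (hxfix h hh) ((G.T h).symm a)
    rw [LinearIsometryEquiv.apply_symm_apply] at h1
    rw [← h1, LinearIsometryEquiv.inner_map_map]
    exact hv _ (hsymm h hh' a ha)
  rcases hG.irr 1 (by omega) B hBU hBst with hBot | hTop
  · -- `B = ⊥`
    have key : ∀ a ∈ Φ, ∀ v ∈ LL Φ a, ⟪v, pr Φ G.x a⟫ = (0 : ℝ) → v = 0 := by
      intro a ha v hv h0
      have : v ∈ B := by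
        rw [memB]
        intro b hb
        by_cases hc : con Φ a b
        · have e : pr Φ G.x b = pr Φ G.x a := by simp only [pr, LL_eq hc]
          rw [e, h0]
        · exact LL_ortho hc v hv _ (pr_mem _ _)
      rw [hBot, Submodule.mem_bot] at this
      exact this
    have hne : ∀ a ∈ Φ, ⟪a, G.x⟫ ≠ (0 : ℝ) := by
      intro a ha h0
      rw [← inner_pr G.x a (self_mem ha)] at h0
      exact nz a ha (key a ha a (self_mem ha) h0)
    have hline : ∀ a ∈ Φ, ∀ b ∈ LL Φ a, ∃ c : ℝ, b = c • a := by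
      intro a ha b hb
      have hna : (⟪a, pr Φ G.x a⟫ : ℝ) ≠ 0 := by
        rw [inner_pr G.x a (self_mem ha)]
        exact hne a ha
      refine ⟨⟪b, pr Φ G.x a⟫ / ⟪a, pr Φ G.x a⟫, ?_⟩
      rw [← sub_eq_zero]
      apply key a ha
      · exact Submodule.sub_mem _ hb (Submodule.smul_mem _ _ (self_mem ha))
      · rw [inner_sub_left, inner_smul_left]
        simp only [conj_trivial]
        rw [div_mul_cancel₀ _ hna, sub_self]
    have hfr : FrameRS Φ := frame_of_line hΦ hline
    refine ⟨hfr, Or.inr ⟨⟪a0, G.x⟫, hne a0 ha0, ?_⟩⟩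
    -- constancy
    classical
    set t : ℝ := |⟪a0, G.x⟫| with ht
    set F : Finset (E d) := hΦ.fin.toFinset.filter (fun b => |(⟪b, G.x⟫ : ℝ)| = t) with hF
    have memF : ∀ b, b ∈ F ↔ b ∈ Φ ∧ |(⟪b, G.x⟫ : ℝ)| = t := by
      intro b
      rw [hF, Finset.mem_filter, hΦ.fin.mem_toFinset]
    set y : E d := ∑ b ∈ F, (⟪b, G.x⟫ : ℝ) • b with hy
    have hyV : y ∈ G.V 1 := by
      intro h hh
      have hh' := G.Hi_le_H 1 hh
      have hin : ∀ b, (⟪G.T h b, G.x⟫ : ℝ) = ⟪b, G.x⟫ := by
        intro b
        conv_lhs => rw [← hxfix h hh]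
        rw [LinearIsometryEquiv.inner_map_map]
      rw [hy, map_sum]
      apply Finset.sum_bij (fun b _ => G.T h b)
      · intro b hb
        rw [memF] at hb ⊢
        exact ⟨hst h hh' b hb.1, by rw [hin]; exact hb.2⟩
      · intro b _ c _ e
        exact (G.T h).injective e
      · intro b hb
        rw [memF] at hb
        refine ⟨(G.T h).symm b, ?_, LinearIsometryEquiv.apply_symm_apply _ _⟩
        rw [memF]
        refine ⟨hsymm h hh' b hb.1, ?_⟩
        rw [← hin, LinearIsometryEquiv.apply_symm_apply]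
        exact hb.2
      · intro b _
        rw [map_smul, hin]
    rw [← hV1, Submodule.mem_span_singleton] at hyV
    obtain ⟨c, hc⟩ := hyV
    have hself : ∀ a ∈ Φ, (⟪a, a⟫ : ℝ) = 1 := fun a ha => hΦ.inner_self ha
    -- inner products with `y`
    have hyin : ∀ a ∈ Φ, (⟪a, y⟫ : ℝ) = if |(⟪a, G.x⟫ : ℝ)| = t then 2 * ⟪a, G.x⟫ else 0 := by
      intro a ha
      have hna : a ≠ -a := by
        intro e
        have h2 : (2 : ℝ) • a = 0 := by
          rw [two_smul]
          nth_rewrite 1 [e]
          exact neg_add_cancel a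
        rcases smul_eq_zero.1 h2 with h3 | h3
        · norm_num at h3
        · exact nz a ha h3
      rw [hy, inner_sum]
      simp only [inner_smul_right]
      split_ifs with hif
      · have hmem : ({a, -a} : Finset (E d)) ⊆ F := by
          intro b hb
          rw [Finset.mem_insert, Finset.mem_singleton] at hb
          rw [memF]
          rcases hb with rfl | rfl
          · exact ⟨ha, hif⟩
          · refine ⟨hΦ.neg_mem ha, ?_⟩
            rw [inner_neg_left, abs_neg]
            exact hif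
        rw [← Finset.sum_subset hmem]
        · rw [Finset.sum_pair hna, inner_neg_left, inner_neg_right, hself a ha]
          ring
        · intro b hb hb'
          rw [Finset.mem_insert, Finset.mem_singleton, not_or] at hb'
          rw [memF] at hb
          rcases hfr a ha b hb.1 with h | h | h
          · rw [h, mul_zero]
          · exact absurd h.symm hb'.1
          · exact absurd (by rw [h, neg_neg]) hb'.2
      · apply Finset.sum_eq_zero
        intro b hb
        rw [memF] at hb
        rcases hfr a ha b hb.1 with h | h | h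
        · rw [h, mul_zero]
        · exfalso
          rw [h] at hif
          exact hif hb.2
        · exfalso
          rw [h, inner_neg_left, abs_neg] at hif
          exact hif hb.2
    have hc2 : c = 2 := by
      have h1 := hyin a0 ha0
      rw [if_pos ht.symm, ← hc, inner_smul_right] at h1
      exact mul_right_cancel₀ (hne a0 ha0) h1
    intro a ha
    have h1 := hyin a ha
    rw [← hc, inner_smul_right, hc2] at h1
    have h2 : |(⟪a, G.x⟫ : ℝ)| = t := by
      by_contra hcon
      rw [if_neg hcon] at h1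
      have := hne a ha
      apply this
      linarith
    rw [ht] at h2
    exact abs_eq_abs.1 h2
  · -- `B = U 1`
    have hprV : ∀ a ∈ Φ, pr Φ G.x a ∈ G.V 1 := by
      intro a ha
      rw [← hVU, Submodule.mem_orthogonal]
      intro u hu
      rw [← hTop, memB] at hu
      exact hu a ha
    -- a component whose span contains `x`
    obtain ⟨a1, ha1, hxa1⟩ : ∃ a ∈ Φ, G.x ∈ LL Φ a := by
      by_contra hno
      push Not at hno
      have h0 : ∀ a ∈ Φ, pr Φ G.x a = 0 := by
        intro a ha
        have h1 := hprV a ha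
        rw [← hV1, Submodule.mem_span_singleton] at h1
        obtain ⟨c, hc⟩ := h1
        by_cases hc0 : c = 0
        · rw [← hc, hc0, zero_smul]
        · exfalso
          apply hno a ha
          have h2 := pr_mem (Φ := Φ) G.x a
          rw [← hc] at h2
          have h3 := Submodule.smul_mem _ c⁻¹ h2
          rwa [inv_smul_smul₀ hc0] at h3
      have h1 : (⟪G.x, G.x⟫ : ℝ) = 0 := by
        apply ortho_of_pr hΦ.fin hspan
        intro a ha
        rw [h0 a ha, inner_zero_right]
      exact hx (inner_self_eq_zero.1 h1)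
    -- its orthogonal complement
    have hLU : (LL Φ a1)ᗮ ≤ G.U 1 := by
      intro v hv
      rw [memU1]
      rw [Submodule.mem_orthogonal'] at hv
      exact hv _ hxa1
    have hsame : ∀ h ∈ G.Hi 1, con Φ a1 (G.T h a1) := by
      intro h hh
      have hh' := G.Hi_le_H 1 hh
      by_contra hcon
      have h1 : G.x ∈ LL Φ (G.T h a1) := by
        have := LL_map (G.T h) (hst h hh') _ hxa1
        rwa [hxfix h hh] at this
      exact hx (inner_self_eq_zero.1 (LL_ortho hcon _ hxa1 _ h1))
    have hLst : ∀ h ∈ G.Hi 1, ∀ v ∈ (LL Φ a1)ᗮ, G.T h v ∈ (LL Φ a1)ᗮ := by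
      intro h hh v hv
      have hh' := G.Hi_le_H 1 hh
      rw [Submodule.mem_orthogonal] at hv ⊢
      intro u hu
      have h1 : (G.T h).symm u ∈ LL Φ a1 := by
        rw [LL_eq (hsame h hh)] at hu
        have := LL_map (G.T h).symm (hsymm h hh') _ hu
        rwa [LinearIsometryEquiv.symm_apply_apply] at this
      have h2 := hv _ h1
      rw [← LinearIsometryEquiv.inner_map_map (G.T h), LinearIsometryEquiv.apply_symm_apply] at h2
      exact h2
    have hLV : LL Φ a1 = G.V 1 := by
      rcases hG.irr 1 (by omega) _ hLU hLst with h | h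
      · exfalso
        rw [Submodule.orthogonal_eq_bot_iff] at h
        obtain ⟨a, ha, b, hb, hab⟩ := htwo
        have : ∀ c ∈ Φ, con Φ a1 c := by
          intro c hc
          by_contra hcon
          have h1 := LL_ortho hcon c (by rw [h]; exact Submodule.mem_top) c (self_mem hc)
          exact nz c hc (inner_self_eq_zero.1 h1)
        exact hab (con_trans (con_symm (this a ha)) (this b hb))
      · rw [← hVU, ← h, Submodule.orthogonal_orthogonal]
    have ha1x : ∃ c : ℝ, G.x = c • a1 := by
      have h1 : a1 ∈ Submodule.span ℝ {G.x} := by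
        rw [hV1, ← hLV]
        exact self_mem ha1
      rw [Submodule.mem_span_singleton] at h1
      obtain ⟨c, hc⟩ := h1
      have hc0 : c ≠ 0 := by
        intro e
        rw [e, zero_smul] at hc
        exact nz a1 ha1 hc.symm
      exact ⟨c⁻¹, by rw [← hc, inv_smul_smul₀ hc0]⟩
    have hline1 : ∀ b ∈ LL Φ a1, ∃ c : ℝ, b = c • a1 := by
      intro b hb
      rw [hLV, ← hV1, Submodule.mem_span_singleton] at hb
      obtain ⟨c, hc⟩ := hb
      obtain ⟨c', hc'⟩ := ha1x
      exact ⟨c * c', by rw [← hc, mul_smul, ← hc']⟩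
    have hline : ∀ a ∈ Φ, ∀ b ∈ LL Φ a, ∃ c : ℝ, b = c • a := by
      intro a ha b hb
      obtain ⟨h, hh, hha⟩ := htr a ha a1 ha1
      have h1 : G.T h b ∈ LL Φ a1 := by
        have h2 := LL_map (G.T h) (hst h hh) _ hb
        rcases hha with h3 | h3
        · rwa [h3] at h2
        · rw [h3] at h2
          have h4 : con Φ a1 (-a1) := by
            refine Relation.ReflTransGen.single ⟨ha1, hΦ.neg_mem ha1, ?_⟩
            rw [inner_neg_right, hΦ.inner_self ha1]
            norm_num
          rwa [LL_eq h4]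
      obtain ⟨c, hc⟩ := hline1 _ h1
      rcases hha with h3 | h3
      · refine ⟨c, ?_⟩
        apply (G.T h).injective
        rw [map_smul, h3, hc]
      · refine ⟨-c, ?_⟩
        apply (G.T h).injective
        rw [map_smul, h3, hc]
        simp
    exact ⟨frame_of_line hΦ hline, Or.inl ⟨a1, ha1, ha1x⟩⟩

end

end FO2
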