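import Pool.Agent.FO2.Stmts

/-!
# CH: the chain of fixed spaces of a two-orbit realization
-/

namespace FO2

open Lib_helper64.FO
open scoped RealInnerProductSpace

noncomputable section

namespace CH

/-! ### two isometries with the same large fixed space -/

theorem act_perp {d : ℕ} (W : Submodule ℝ (E d)) (A : E d ≃ₗᵢ[ℝ] E d) (hA : ∀ v ∈ W, A v = v)
    {w : E d} (hw : w ∈ Wᗮ) : A w ∈ Wᗮ := by
  rw [Submodule.mem_orthogonal] at hw ⊢
  intro v hv
  rw [← hA v hv, LinearIsometryEquiv.inner_map_map]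
  exact hw v hv

theorem ext_perp {d : ℕ} (W : Submodule ℝ (E d)) (A B : E d ≃ₗᵢ[ℝ] E d)
    (h : ∀ v ∈ W, A v = B v) (h' : ∀ v ∈ Wᗮ, A v = B v) : A = B := by
  ext1 v
  obtain ⟨a, ha, b, hb, rfl⟩ := Submodule.exists_add_mem_mem_orthogonal (K := W) v
  rw [map_add, map_add, h a ha, h' b hb]

theorem perp_line {d : ℕ} (W : Submodule ℝ (E d)) (hW : d ≤ Module.finrank ℝ W + 1) :
    ∃ u ∈ Wᗮ, ∀ w ∈ Wᗮ, ∃ c : ℝ, c • u = w := by
  have h1 : Module.finrank ℝ W + Module.finrank ℝ (Wᗮ : Submodule ℝ (E d)) = d := by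
    rw [Submodule.finrank_add_finrank_orthogonal W]
    exact finrank_euclideanSpace_fin
  have h2 : Module.finrank ℝ (Wᗮ : Submodule ℝ (E d)) ≤ 1 := by omega
  obtain ⟨v, hv⟩ := finrank_le_one_iff.1 h2
  refine ⟨v, v.2, fun w hw => ?_⟩
  obtain ⟨c, hc⟩ := hv ⟨w, hw⟩
  exact ⟨c, congrArg Subtype.val hc⟩

theorem neg_perp {d : ℕ} (W : Submodule ℝ (E d)) (hW : d ≤ Module.finrank ℝ W + 1)
    (A : E d ≃ₗᵢ[ℝ] E d) (hA : ∀ v ∈ W, A v = v) (h1 : A ≠ 1) : ∀ w ∈ Wᗮ, A w = -w := by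
  obtain ⟨u, hu, hspan⟩ := perp_line W hW
  obtain ⟨c, hc⟩ := hspan (A u) (act_perp W A hA hu)
  have hn : |c| * ‖u‖ = ‖u‖ := by
    rw [← Real.norm_eq_abs, ← norm_smul, hc, LinearIsometryEquiv.norm_map]
  have key : A u = -u := by
    rcases eq_or_ne u 0 with rfl | hu0
    · rw [map_zero, neg_zero]
    have h2 : |c| = 1 := by
      have := norm_pos_iff.2 hu0
      exact mul_right_cancel₀ this.ne' (by rw [hn, one_mul])
    rcases abs_eq (zero_le_one) |>.1 h2 with h3 | h3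
    · exfalso
      apply h1
      refine ext_perp W A 1 (fun v hv => hA v hv) fun w hw => ?_
      obtain ⟨b, rfl⟩ := hspan w hw
      rw [map_smul, ← hc, h3, one_smul]
      rfl
    · rw [← hc, h3, neg_one_smul]
  intro w hw
  obtain ⟨b, rfl⟩ := hspan w hw
  rw [map_smul, key, smul_neg]

theorem eq_of_fix {d : ℕ} (W : Submodule ℝ (E d)) (hW : d ≤ Module.finrank ℝ W + 1)
    (A B : E d ≃ₗᵢ[ℝ] E d) (hA : ∀ v ∈ W, A v = v) (hB : ∀ v ∈ W, B v = v) (h1 : A ≠ 1)
    (h2 : B ≠ 1) : A = B :=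
  ext_perp W A B (fun v hv => by rw [hA v hv, hB v hv]) fun w hw => by
    rw [neg_perp W hW A hA h1 w hw, neg_perp W hW B hB h2 w hw]

/-! ### subgroups generated by involutions -/

variable {d : ℕ} {Γ : Type} [Group Γ] {X : Type} [MulAction Γ X] (G : Geo d Γ X)

theorem gpar_empty : gpar G.ρ ∅ = ⊥ := by
  rw [gpar, Set.image_empty, Subgroup.closure_empty]

/-- a subgroup all of whose generators are `1` or the involution `r` -/
theorem mem_pair {I : Set ℕ} {r : Γ} (hr : r * r = 1) (hI : ∀ j ∈ I, G.ρ j = 1 ∨ G.ρ j = r) {g : Γ}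
    (hg : g ∈ gpar G.ρ I) : g = 1 ∨ g = r := by
  have hr' : r⁻¹ = r := by
    rw [inv_eq_iff_mul_eq_one]
    exact hr
  refine Subgroup.closure_induction (p := fun g _ => g = 1 ∨ g = r) ?_ (Or.inl rfl) ?_ ?_ hg
  · rintro _ ⟨j, hj, rfl⟩
    exact hI j hj
  · rintro x y - - (rfl | rfl) (rfl | rfl)
    · left; rw [one_mul]
    · right; rw [one_mul]
    · right; rw [mul_one]
    · left; exact hr
  · rintro x - (rfl | rfl)
    · left; rw [inv_one]
    · right; exact hr'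

theorem mem_V' (i : ℕ) (g : Γ) (hg : g ∈ G.dn i) : G.f (g • G.x0) ∈ G.V (i + 1) := by
  intro h hh
  rw [G.equiv h hh.1, ← mul_smul, ← G.comm_dn_up (Nat.lt_succ_self i) hg hh.2, mul_smul,
    G.up_fix_x0 (G.up_anti (by omega) hh.2)]

theorem Hi_of_fix' (i : ℕ) (h : Γ) (hh : h ∈ G.H) (hv : ∀ v ∈ G.V (i + 1), G.T h v = v) :
    h ∈ G.Hi (i + 1) := by
  refine ⟨hh, G.fix i h fun g hg => ?_⟩
  apply G.inj
  rw [← G.equiv h hh]
  exact hv _ (mem_V' G i g hg)

theorem ρ_not' (i : ℕ) (hi : i < d) : G.ρ i ∉ G.up (i + 1) := by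
  intro h
  have h1 : G.ρ i ∈ gpar G.ρ {i} := Subgroup.subset_closure ⟨i, rfl, rfl⟩
  have h2 : G.ρ i ∈ gpar G.ρ {i} ⊓ gpar G.ρ {j | i + 1 ≤ j} := ⟨h1, h⟩
  rw [G.inter] at h2
  have e : ({i} : Set ℕ) ∩ {j | i + 1 ≤ j} = ∅ := by
    ext j
    constructor
    · rintro ⟨rfl, h3⟩
      have h3' : j + 1 ≤ j := h3
      omega
    · intro h3
      exact absurd h3 (Set.notMem_empty j)
  rw [e, gpar_empty] at h2
  exact G.ne_one i hi h2

theorem not_comm' (i : ℕ) (hi : i + 1 < d) : G.ρ i * G.ρ (i + 1) ≠ G.ρ (i + 1) * G.ρ i := by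
  intro hc
  refine ρ_not' G (i + 1) hi (G.fix (i + 1) _ fun g hg => ?_)
  have h1 : G.dn (i + 1) ≤ Subgroup.centralizer ({G.ρ (i + 1)} : Set Γ) := by
    rw [Geo.dn, gpar, Subgroup.closure_le]
    rintro _ ⟨k, hk, rfl⟩
    rw [SetLike.mem_coe, Subgroup.mem_centralizer_iff]
    intro h' hh
    rw [Set.mem_singleton_iff] at hh
    subst hh
    have hk' : k < i + 1 := hk
    rcases Nat.lt_or_ge k i with h2 | h2
    · exact (G.comm k (i + 1) (by omega)).symm
    · have : k = i := by omega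
      subst this
      exact hc.symm
  have h2 := Subgroup.mem_centralizer_iff.1 (h1 hg) (G.ρ (i + 1)) rfl
  rw [← mul_smul, h2, mul_smul, G.stab (i + 1) (by omega)]

theorem conj_not' (i : ℕ) (hi : i + 1 < d) : G.ρ i * G.ρ (i + 1) * G.ρ i ∉ G.up (i + 1) := by
  intro h
  have h1 : G.ρ i ∈ gpar G.ρ {i, i + 1} := Subgroup.subset_closure ⟨i, by simp, rfl⟩
  have h1' : G.ρ (i + 1) ∈ gpar G.ρ {i, i + 1} := Subgroup.subset_closure ⟨i + 1, by simp, rfl⟩
  have h2 : G.ρ i * G.ρ (i + 1) * G.ρ i ∈ gpar G.ρ {i, i + 1} ⊓ gpar G.ρ {j | i + 1 ≤ j} :=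
    ⟨mul_mem (mul_mem h1 h1') h1, h⟩
  rw [G.inter] at h2
  have h3 := mem_pair G (G.sq (i + 1)) (by
    intro j hj
    right
    have h4 : (j = i ∨ j = i + 1) ∧ i + 1 ≤ j := by simpa using hj
    have : j = i + 1 := by omega
    rw [this]) h2
  rcases h3 with h3 | h3
  · apply G.ne_one (i + 1) hi
    have : G.ρ i * (G.ρ i * G.ρ (i + 1) * G.ρ i) * G.ρ i = 1 := by
      rw [h3, mul_one, G.sq]
    calc G.ρ (i + 1) = G.ρ i * (G.ρ i * G.ρ (i + 1) * G.ρ i) * G.ρ i := by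
          rw [mul_assoc (G.ρ i) (G.ρ (i + 1)) (G.ρ i), ← mul_assoc (G.ρ i) (G.ρ i), G.sq, one_mul,
            mul_assoc, G.sq, mul_one]
      _ = 1 := this
  · apply not_comm' G i hi
    calc G.ρ i * G.ρ (i + 1) = G.ρ i * G.ρ (i + 1) * G.ρ i * G.ρ i := by
          rw [mul_assoc _ (G.ρ i) (G.ρ i), G.sq, mul_one]
      _ = G.ρ (i + 1) * G.ρ i := by rw [h3]

theorem step' (i : ℕ) (hi : i + 2 ≤ d) : ∃ h ∈ G.Hi i, h ∉ G.up (i + 1) := by
  by_cases h0 : G.ρ i ∈ G.H
  · exact ⟨G.ρ i, ⟨h0, G.ρ_mem_up le_rfl⟩, ρ_not' G i (by omega)⟩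
  by_cases h1 : G.ρ (i + 1) ∈ G.H
  · refine ⟨G.ρ i * G.ρ (i + 1) * G.ρ i, ⟨?_, ?_⟩, conj_not' G i (by omega)⟩
    · have := G.conj_mem (G.ρ i) h1
      rwa [G.inv_ρ] at this
    · exact mul_mem (mul_mem (G.ρ_mem_up le_rfl) (G.ρ_mem_up (by omega))) (G.ρ_mem_up le_rfl)
  · refine ⟨G.ρ i * G.ρ (i + 1), ⟨G.mul_mem_of_not h0 h1, ?_⟩, ?_⟩
    · exact mul_mem (G.ρ_mem_up le_rfl) (G.ρ_mem_up (by omega))
    · intro h
      apply ρ_not' G i (by omega)
      have h2 := mul_mem h (G.ρ_mem_up (le_refl (i + 1)))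
      rwa [mul_assoc, G.sq, mul_one] at h2

theorem card' [Finite Γ] (i : ℕ) (hi : i + 2 ≤ d) :
    3 * Nat.card (G.up (i + 1)) ≤ Nat.card (G.up i) := by
  classical
  have hup : G.up (i + 1) ≤ G.up i := G.up_anti (by omega)
  have hi0 : G.ρ i ∈ G.up i := G.ρ_mem_up le_rfl
  have hi1 : G.ρ (i + 1) ∈ G.up i := G.ρ_mem_up (by omega)
  have hi1' : G.ρ (i + 1) ∈ G.up (i + 1) := G.ρ_mem_up le_rfl
  set c : Fin 3 → Γ := ![1, G.ρ i, G.ρ (i + 1) * G.ρ i] with hc
  have hcm : ∀ k, c k ∈ G.up i := by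
    intro k
    fin_cases k
    · exact one_mem _
    · exact hi0
    · exact mul_mem hi1 hi0
  have n01 : (c 0)⁻¹ * c 1 ∉ G.up (i + 1) := by
    simp only [hc, Matrix.cons_val_zero, Matrix.cons_val_one, inv_one, one_mul]
    exact ρ_not' G i (by omega)
  have n02 : (c 0)⁻¹ * c 2 ∉ G.up (i + 1) := by
    simp only [hc, Matrix.cons_val_zero, Matrix.cons_val, inv_one, one_mul]
    intro h
    apply ρ_not' G i (by omega)
    have := mul_mem hi1' h
    rwa [← mul_assoc, G.sq, one_mul] at this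
  have n12 : (c 1)⁻¹ * c 2 ∉ G.up (i + 1) := by
    simp only [hc, Matrix.cons_val_one, Matrix.cons_val, G.inv_ρ]
    rw [← mul_assoc]
    exact conj_not' G i (by omega)
  have key : ∀ k l : Fin 3, k ≠ l → (c k)⁻¹ * c l ∉ G.up (i + 1) := by
    have sym : ∀ k l : Fin 3, (c k)⁻¹ * c l ∉ G.up (i + 1) → (c l)⁻¹ * c k ∉ G.up (i + 1) := by
      intro k l h h'
      apply h
      have := inv_mem h'
      rwa [mul_inv_rev, inv_inv] at this
    intro k l hkl
    fin_cases k <;> fin_cases l <;> first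
      | exact absurd rfl hkl
      | exact n01
      | exact n02
      | exact n12
      | exact sym 0 1 n01
      | exact sym 0 2 n02
      | exact sym 1 2 n12
  have h1 : Nat.card (Fin 3 × G.up (i + 1)) ≤ Nat.card (G.up i) := by
    refine Nat.card_le_card_of_injective
      (fun p : Fin 3 × G.up (i + 1) => (⟨c p.1 * p.2, mul_mem (hcm p.1) (hup p.2.2)⟩ : G.up i)) ?_
    rintro ⟨k, g⟩ ⟨l, g'⟩ h
    have h2 : c k * (g : Γ) = c l * (g' : Γ) := congrArg Subtype.val h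
    have h3 : k = l := by
      by_contra hne
      apply key k l hne
      have : (c k)⁻¹ * c l = (g : Γ) * (g' : Γ)⁻¹ := by
        rw [inv_mul_eq_iff_eq_mul, ← mul_assoc, h2, mul_inv_cancel_right]
      rw [this]
      exact mul_mem g.2 (inv_mem g'.2)
    subst h3
    have h4 : (g : Γ) = g' := mul_left_cancel h2
    rw [Subtype.ext h4]
  rwa [Nat.card_prod, Nat.card_eq_fintype_card (α := Fin 3), Fintype.card_fin] at h1

theorem f_ne' (hd : 3 ≤ d) (y : X) : G.f y ≠ 0 := by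
  intro hy
  obtain ⟨h, hh, hn⟩ := step' G 0 (by omega)
  apply hn
  apply G.mem_up_of_fix
  obtain ⟨g, rfl⟩ := G.trans y
  have h1 : g * h * g⁻¹ ∈ G.H := G.conj_mem g hh.1
  have h2 : (g * h * g⁻¹) • g • G.x0 = g • G.x0 := by
    apply G.inj
    rw [← G.equiv _ h1, hy, map_zero]
  rw [← mul_smul, inv_mul_cancel_right, mul_smul] at h2
  exact smul_left_cancel g h2

theorem ρ0x' (hd : 3 ≤ d) : G.f (G.ρ 0 • G.x0) ∉ G.V 1 := by
  intro h0
  obtain ⟨h, hh, hn⟩ := step' G 1 (by omega)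
  apply hn
  refine G.fix 1 h fun g hg => ?_
  have h1 := mem_pair G (G.sq 0) (by
    intro j hj
    right
    have : j = 0 := by
      have : j < 1 := hj
      omega
    rw [this]) hg
  rcases h1 with rfl | rfl
  · rw [one_smul]
    exact G.up_fix_x0 hh.2
  · apply G.inj
    rw [← G.equiv h hh.1]
    exact h0 h hh

theorem V_lt (i : ℕ) (hi : i + 2 ≤ d) : G.V i < G.V (i + 1) := by
  refine lt_of_le_of_ne (G.V_mono (by omega)) fun he => ?_
  obtain ⟨h, hh, hn⟩ := step' G i hi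
  exact hn (Hi_of_fix' G i h hh.1 fun v hv => by
    rw [← he] at hv
    exact hv h hh).2

theorem rank_lt (i : ℕ) (hi : i + 2 ≤ d) :
    Module.finrank ℝ (G.V i) < Module.finrank ℝ (G.V (i + 1)) :=
  Submodule.finrank_lt_finrank_of_lt (V_lt G i hi)

/-- two different elements `≠ 1` of `H_(d-2)` -/
theorem two_elts (i : ℕ) (hi : i + 2 ≤ d) : ∃ p ∈ G.Hi i, ∃ q ∈ G.Hi i, p ≠ 1 ∧ q ≠ 1 ∧ p ≠ q := by
  have ha : G.ρ i ∈ G.up i := G.ρ_mem_up le_rfl
  have hb : G.ρ (i + 1) ∈ G.up i := G.ρ_mem_up (by omega)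
  have ha1 := G.ne_one i (by omega)
  have hb1 := G.ne_one (i + 1) (by omega)
  have hnc := not_comm' G i (by omega)
  have sa := G.sq i
  have sb := G.sq (i + 1)
  have ia := G.inv_ρ i
  have ib := G.inv_ρ (i + 1)
  generalize G.ρ i = a at *
  generalize G.ρ (i + 1) = b at *
  have conj : ∀ x y : Γ, x * x = 1 → y ≠ 1 → x * y * x ≠ 1 := by
    intro x y hx hy h
    apply hy
    calc y = x * (x * y * x) * x := by
          rw [mul_assoc x y x, ← mul_assoc x x, hx, one_mul, mul_assoc, hx, mul_one]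
      _ = 1 := by rw [h, mul_one, hx]
  have conj2 : ∀ x y : Γ, x * x = 1 → x * y ≠ y * x → y ≠ x * y * x := by
    intro x y hx hxy h
    apply hxy
    calc x * y = x * y * x * x := by rw [mul_assoc _ x x, hx, mul_one]
      _ = y * x := by rw [← h]
  by_cases hA : a ∈ G.H
  · by_cases hB : b ∈ G.H
    · refine ⟨a, ⟨hA, ha⟩, b, ⟨hB, hb⟩, ha1, hb1, ?_⟩
      rintro rfl
      exact hnc rfl
    · refine ⟨a, ⟨hA, ha⟩, b * a * b, ⟨?_, mul_mem (mul_mem hb ha) hb⟩, ha1,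
        conj b a sb ha1, conj2 b a sb fun h => hnc h.symm⟩
      have := G.conj_mem b hA
      rwa [ib] at this
  · by_cases hB : b ∈ G.H
    · refine ⟨b, ⟨hB, hb⟩, a * b * a, ⟨?_, mul_mem (mul_mem ha hb) ha⟩, hb1,
        conj a b sa hb1, conj2 a b sa hnc⟩
      have := G.conj_mem a hB
      rwa [ia] at this
    · refine ⟨a * b, ⟨G.mul_mem_of_not hA hB, mul_mem ha hb⟩, b * a,
        ⟨G.mul_mem_of_not hB hA, mul_mem hb ha⟩, ?_, ?_, hnc⟩
      · intro h
        apply hnc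
        rw [h]
        have : a = b := by
          rw [mul_eq_one_iff_eq_inv, ib] at h
          exact h
        rw [this, sb]
      · intro h
        apply hnc
        rw [h]
        have : b = a := by
          rw [mul_eq_one_iff_eq_inv, ia] at h
          exact h
        rw [this, sa]

theorem rank_le (i : ℕ) (hi : i + 2 = d) : Module.finrank ℝ (G.V i) ≤ i := by
  by_contra hcon
  obtain ⟨p, hp, q, hq, p1, q1, hpq⟩ := two_elts G i (by omega)
  apply hpq
  have hT : ∀ g ∈ G.Hi i, g ≠ 1 → G.T g ≠ 1 := by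
    intro g hg hg1 h
    apply hg1
    exact G.T_inj hg.1 (one_mem _) (by rw [h, G.T_one])
  exact G.T_inj hp.1 hq.1 (eq_of_fix (G.V i) (by omega) (G.T p) (G.T q) (fun v hv => hv p hp)
    (fun v hv => hv q hq) (hT p hp p1) (hT q hq q1))

theorem rank_add (i k : ℕ) (hi : i + k + 1 ≤ d) :
    Module.finrank ℝ (G.V i) + k ≤ Module.finrank ℝ (G.V (i + k)) := by
  induction k with
  | zero => exact le_rfl
  | succ k ih =>
    have h1 := ih (by omega)
    have h2 := rank_lt G (i + k) (by omega)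
    rw [← add_assoc, ← add_assoc]
    exact (Nat.add_le_add_right h1 1).trans h2

theorem dim_eq (i : ℕ) (hi : i + 2 ≤ d) : Module.finrank ℝ (G.V i) = i := by
  have h1 := rank_add G 0 i (by omega)
  have h2 := rank_add G i (d - 2 - i) (by omega)
  have h3 := rank_le G (d - 2) (by omega)
  rw [zero_add] at h1
  rw [show i + (d - 2 - i) = d - 2 by omega] at h2
  omega

theorem dim_last (hd : 3 ≤ d) (h : G.ρ (d - 1) ∈ G.H) :
    Module.finrank ℝ (G.V (d - 1)) = d - 1 := by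
  have h1 := rank_lt G (d - 2) (by omega)
  rw [dim_eq G (d - 2) (by omega), show d - 2 + 1 = d - 1 by omega] at h1
  have h2 : G.V (d - 1) ≠ ⊤ := by
    intro ht
    apply G.ne_one (d - 1) (by omega)
    apply G.T_inj h (one_mem _)
    rw [G.T_one]
    ext1 v
    have hv : v ∈ G.V (d - 1) := by
      rw [ht]
      trivial
    exact hv _ ⟨h, G.ρ_mem_up le_rfl⟩
  have h3 : Module.finrank ℝ (G.V (d - 1)) < d := by
    have := Submodule.finrank_lt h2
    rwa [finrank_euclideanSpace_fin] at this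
  omega

theorem top_last (hd : 3 ≤ d) (h : G.ρ (d - 1) ∉ G.H) : G.V (d - 1) = ⊤ := by
  rw [eq_top_iff]
  intro v _ g hg
  have h1 := mem_pair G (G.sq (d - 1)) (by
    intro j hj
    have hj' : d - 1 ≤ j := hj
    rcases Nat.lt_or_ge j d with h2 | h2
    · right
      rw [show j = d - 1 by omega]
    · left
      exact G.one_of_ge j h2) hg.2
  rcases h1 with rfl | rfl
  · rw [G.T_one]
    rfl
  · exact absurd hg.1 h

end CH

/-- CH -/
theorem chain : StmtChain := by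
  intro d Γ _ _ X _ G hd
  exact
    { mem_V := fun i g hg => CH.mem_V' G i g hg
      Hi_of_fix := fun i h hh hv => CH.Hi_of_fix' G i h hh hv
      dim := fun i hi => CH.dim_eq G i hi
      dim' := fun h => CH.dim_last G hd h
      top' := fun h => CH.top_last G hd h
      x_ne := CH.f_ne' G hd G.x0
      f_ne := fun y => CH.f_ne' G hd y
      ρ0x := CH.ρ0x' G hd
      not_comm := fun i hi => CH.not_comm' G i hi
      conj_not := fun i hi => CH.conj_not' G i hi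
      ρ_not := fun i hi => CH.ρ_not' G i hi
      step := fun i hi => CH.step' G i hi
      card := fun i hi => CH.card' G i hi }

end

end FO2
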