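import Pool.Agent.FO2.Stmts

/-!
# Strong flag-connectedness
-/

namespace FO2

open Lib_helper64.FO
open scoped RealInnerProductSpace

namespace CNN

variable {P : Type} [PartialOrder P]

/-- the flags `A` and `B` have the same face of rank `i` -/
def Ag (rk : P → ℤ) (A B : Flag P) (i : ℤ) : Prop := ∃ z, rk z = i ∧ z ∈ A ∧ z ∈ B

/-- one step -/
def Stp (d : ℕ) (rk : P → ℤ) (I : Set ℕ) (A B : Flag P) : Prop :=
  ∃ i ∈ I, i < d ∧ A ≠ B ∧ ∀ x ∈ A, rk x ≠ (i : ℤ) → x ∈ B

/-- the facts used -/
structure Fct (d : ℕ) (rk : P → ℤ) : Prop where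
  uniq : ∀ (C : Flag P) (x y : P), x ∈ C → y ∈ C → rk x = rk y → x = y
  bd : ∀ x : P, -1 ≤ rk x ∧ rk x ≤ d
  ext : ∀ (s : Set P), IsChain (· ≤ ·) s → ∃ C : Flag P, s ⊆ C
  strict : ∀ x y : P, x < y → rk x < rk y
  full : ∀ (C : Flag P) (i : ℤ), -1 ≤ i → i ≤ d → ∃ x ∈ C, rk x = i
  conn : ∀ x y : P, x < y → rk x + 3 ≤ rk y → ∀ z w : P, x < z → z < y → x < w → w < y →
    Relation.ReflTransGen (fun a b => x < b ∧ b < y ∧ (a ≤ b ∨ b ≤ a)) z w

variable {d : ℕ} {rk : P → ℤ} (hf : Fct d rk) {I : Set ℕ}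

theorem Ag.symm {A B : Flag P} {i : ℤ} (h : Ag rk A B i) : Ag rk B A i := by
  obtain ⟨z, h1, h2, h3⟩ := h
  exact ⟨z, h1, h3, h2⟩

include hf

theorem Ag.trans {A B C : Flag P} {i : ℤ} (h : Ag rk A B i) (h' : Ag rk B C i) : Ag rk A C i := by
  obtain ⟨z, h1, h2, h3⟩ := h
  obtain ⟨w, h4, h5, h6⟩ := h'
  have : z = w := hf.uniq B z w h3 h5 (h1.trans h4.symm)
  subst this
  exact ⟨z, h1, h2, h6⟩

theorem mem_of_ag {A B : Flag P} {z : P} (hz : z ∈ A) (h : Ag rk A B (rk z)) : z ∈ B := by
  obtain ⟨w, h1, h2, h3⟩ := h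
  have : z = w := hf.uniq A z w hz h2 h1.symm
  subst this
  exact h3

theorem ag_of_sub {A B : Flag P} {i : ℤ} (h1 : -1 ≤ i) (h2 : i ≤ d)
    (h : ∀ z ∈ A, rk z = i → z ∈ B) : Ag rk A B i := by
  obtain ⟨z, hz, hi⟩ := hf.full A i h1 h2
  exact ⟨z, hi, hz, h z hz hi⟩

theorem eq_of_ag {A B : Flag P} (h : ∀ i : ℤ, -1 ≤ i → i ≤ d → Ag rk A B i) : A = B := by
  apply Flag.ext
  ext z
  have hb := hf.bd z
  constructor
  · intro hz
    exact mem_of_ag hf hz (h _ hb.1 hb.2)
  · intro hz
    exact mem_of_ag hf hz (h _ hb.1 hb.2).symm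

/-- elements of a flag are ordered by the rank -/
theorem le_of_rk {A : Flag P} {x y : P} (hx : x ∈ A) (hy : y ∈ A) (h : rk x ≤ rk y) : x ≤ y := by
  rcases A.le_or_le hx hy with h1 | h1
  · exact h1
  · rcases h1.eq_or_lt with h2 | h2
    · exact h2.symm.le
    · exact absurd (hf.strict _ _ h2) (not_lt.2 h)

/-- mixed flags -/
theorem mix {A B : Flag P} {w : P} (hA : w ∈ A) (hB : w ∈ B) :
    ∃ K : Flag P, (∀ i, -1 ≤ i → i ≤ rk w → Ag rk A K i) ∧
      ∀ i, rk w ≤ i → i ≤ d → Ag rk K B i := by
  obtain ⟨K, hK⟩ := hf.ext ({z | z ∈ A ∧ rk z ≤ rk w} ∪ {z | z ∈ B ∧ rk w ≤ rk z}) (by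
    rintro a (⟨ha, ha'⟩ | ⟨ha, ha'⟩) b (⟨hb, hb'⟩ | ⟨hb, hb'⟩) -
    · exact A.le_or_le ha hb
    · exact Or.inl ((le_of_rk hf ha hA ha').trans (le_of_rk hf hB hb hb'))
    · exact Or.inr ((le_of_rk hf hb hA hb').trans (le_of_rk hf hB ha ha'))
    · exact B.le_or_le ha hb)
  have hw := hf.bd w
  refine ⟨K, fun i h1 h2 => ?_, fun i h1 h2 => ?_⟩
  · refine ag_of_sub hf h1 (h2.trans hw.2) fun z hz hi => hK (Or.inl ⟨hz, ?_⟩)
    rw [hi]; exact h2
  · refine Ag.symm (ag_of_sub hf (hw.1.trans h1) h2 fun z hz hi => hK (Or.inr ⟨hz, ?_⟩))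
    rw [hi]; exact h1

/-- the induction -/
theorem main (m : ℕ) : ∀ (x y : P) (A B : Flag P), x < y → rk y ≤ rk x + m →
    x ∈ A → y ∈ A →
    (∀ i : ℤ, -1 ≤ i → i ≤ d → (i ≤ rk x ∨ rk y ≤ i ∨ ∀ n ∈ I, (n : ℤ) ≠ i) → Ag rk A B i) →
    Relation.ReflTransGen (Stp d rk I) A B := by
  induction m with
  | zero =>
    intro x y A B hxy hm
    exact absurd (hf.strict x y hxy) (by push_cast at hm; omega)
  | succ m ih =>
    intro x y A B hxy hm hxA hyA hAB
    have bx := hf.bd x
    have by' := hf.bd y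
    have hxy' := hf.strict x y hxy
    have hxB : x ∈ B := mem_of_ag hf hxA (hAB _ bx.1 bx.2 (Or.inl le_rfl))
    have hyB : y ∈ B := mem_of_ag hf hyA (hAB _ by'.1 by'.2 (Or.inr (Or.inl le_rfl)))
    -- two flags with a common face inside
    have join : ∀ (w : P) (A B : Flag P), x < w → w < y → x ∈ A → y ∈ A → w ∈ A → w ∈ B →
        (∀ i : ℤ, -1 ≤ i → i ≤ d → (i ≤ rk x ∨ rk y ≤ i ∨ ∀ n ∈ I, (n : ℤ) ≠ i) →
          Ag rk A B i) → Relation.ReflTransGen (Stp d rk I) A B := by
      intro w A B hxw hwy hxA hyA hwA hwB hAB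
      have h1 := hf.strict x w hxw
      have h2 := hf.strict w y hwy
      have bw := hf.bd w
      obtain ⟨K, hK1, hK2⟩ := mix hf hwA hwB
      have s1 : Relation.ReflTransGen (Stp d rk I) A K := by
        refine ih w y A K hwy (by push_cast at hm ⊢; omega) hwA hyA ?_
        intro i hi1 hi2 h
        by_cases hiw : i ≤ rk w
        · exact hK1 i hi1 hiw
        · refine (hAB i hi1 hi2 ?_).trans hf (hK2 i (by omega) hi2).symm
          rcases h with h | h | h
          · exact absurd h hiw
          · exact Or.inr (Or.inl h)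
          · exact Or.inr (Or.inr h)
      have s2 : Relation.ReflTransGen (Stp d rk I) K B := by
        refine ih x w K B hxw (by push_cast at hm ⊢; omega)
          (mem_of_ag hf hxA (hK1 _ bx.1 h1.le)) (mem_of_ag hf hwA (hK1 _ bw.1 le_rfl)) ?_
        intro i hi1 hi2 h
        by_cases hiw : i ≤ rk w
        · by_cases hiw' : i = rk w
          · exact hK2 i hiw'.ge hi2
          · refine (hK1 i hi1 hiw).symm.trans hf (hAB i hi1 hi2 ?_)
            rcases h with h | h | h
            · exact Or.inl h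
            · omega
            · exact Or.inr (Or.inr h)
        · exact hK2 i (by omega) hi2
      exact s1.trans s2
    by_cases hI : ∃ i : ℤ, rk x < i ∧ i < rk y ∧ ∀ n ∈ I, (n : ℤ) ≠ i
    · obtain ⟨i, hi1, hi2, hi3⟩ := hI
      obtain ⟨w, hw, hwA, hwB⟩ := hAB i (by omega) (by omega) (Or.inr (Or.inr hi3))
      refine join w A B ?_ ?_ hxA hyA hwA hwB hAB
      · refine lt_of_le_of_ne (le_of_rk hf hxA hwA (by omega)) ?_
        rintro rfl
        omega
      · refine lt_of_le_of_ne (le_of_rk hf hwA hyA (by omega)) ?_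
        rintro rfl
        omega
    · push Not at hI
      by_cases h3 : rk x + 3 ≤ rk y
      · -- the long case
        obtain ⟨z, hzA, hz⟩ := hf.full A (rk x + 1) (by omega) (by omega)
        obtain ⟨w, hwB, hw⟩ := hf.full B (rk x + 1) (by omega) (by omega)
        have hxz : x < z := lt_of_le_of_ne (le_of_rk hf hxA hzA (by omega)) (by
          rintro rfl; omega)
        have hzy : z < y := lt_of_le_of_ne (le_of_rk hf hzA hyA (by omega)) (by
          rintro rfl; omega)
        have hxw : x < w := lt_of_le_of_ne (le_of_rk hf hxB hwB (by omega)) (by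
          rintro rfl; omega)
        have hwy : w < y := lt_of_le_of_ne (le_of_rk hf hwB hyB (by omega)) (by
          rintro rfl; omega)
        have path := hf.conn x y hxy h3 z w hxz hzy hxw hwy
        have key : ∀ w : P, Relation.ReflTransGen
            (fun a b => x < b ∧ b < y ∧ (a ≤ b ∨ b ≤ a)) z w →
            x < w ∧ w < y ∧ ∃ K : Flag P, w ∈ K ∧
              (∀ i : ℤ, -1 ≤ i → i ≤ d → (i ≤ rk x ∨ rk y ≤ i) → Ag rk A K i) ∧
              Relation.ReflTransGen (Stp d rk I) A K := by
          intro w hw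
          induction hw with
          | refl =>
            refine ⟨hxz, hzy, A, hzA, fun i hi1 hi2 _ => ?_, Relation.ReflTransGen.refl⟩
            exact ag_of_sub hf hi1 hi2 fun z hz _ => hz
          | @tail a b _ hab ih2 =>
            obtain ⟨hxa, hay, K, haK, hK1, hK2⟩ := ih2
            obtain ⟨hxb, hby, hab⟩ := hab
            refine ⟨hxb, hby, ?_⟩
            have hxa' := hf.strict _ _ hxa
            have hay' := hf.strict _ _ hay
            obtain ⟨K', hK'⟩ := hf.ext
              ({z | z ∈ A ∧ (rk z ≤ rk x ∨ rk y ≤ rk z)} ∪ {a, b}) (by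
                have hc : ∀ u v : P, u ∈ A → (rk u ≤ rk x ∨ rk y ≤ rk u) → x < v → v < y →
                    u ≤ v ∨ v ≤ u := by
                  intro u v hu h1 h2 h3
                  rcases h1 with h1 | h1
                  · exact Or.inl ((le_of_rk hf hu hxA h1).trans h2.le)
                  · exact Or.inr (h3.le.trans (le_of_rk hf hyA hu h1))
                have hab2 : ∀ u v : P, u ∈ ({a, b} : Set P) → v ∈ ({a, b} : Set P) →
                    u ≤ v ∨ v ≤ u := by
                  rintro u v (rfl | rfl) (rfl | rfl)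
                  · exact Or.inl le_rfl
                  · exact hab
                  · exact hab.symm
                  · exact Or.inl le_rfl
                have hin : ∀ u : P, u ∈ ({a, b} : Set P) → x < u ∧ u < y := by
                  rintro u (rfl | rfl)
                  · exact ⟨hxa, hay⟩
                  · exact ⟨hxb, hby⟩
                rintro u (⟨hu, hu'⟩ | hu) v (⟨hv, hv'⟩ | hv) -
                · exact A.le_or_le hu hv
                · exact hc u v hu hu' (hin v hv).1 (hin v hv).2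
                · exact (hc v u hv hv' (hin u hu).1 (hin u hu).2).symm
                · exact hab2 u v hu hv)
            have haK' : a ∈ K' := hK' (Or.inr (Or.inl rfl))
            have hbK' : b ∈ K' := hK' (Or.inr (Or.inr rfl))
            have hAK' : ∀ i : ℤ, -1 ≤ i → i ≤ d → (i ≤ rk x ∨ rk y ≤ i) → Ag rk A K' i := by
              intro i hi1 hi2 h
              refine ag_of_sub hf hi1 hi2 fun z hz hi => hK' (Or.inl ⟨hz, ?_⟩)
              rw [hi]
              exact h
            refine ⟨K', hbK', hAK', hK2.trans ?_⟩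
            have hxK : x ∈ K := mem_of_ag hf hxA (hK1 _ bx.1 bx.2 (Or.inl le_rfl))
            have hyK : y ∈ K := mem_of_ag hf hyA (hK1 _ by'.1 by'.2 (Or.inr le_rfl))
            refine join a K K' hxa hay hxK hyK haK haK' ?_
            intro i hi1 hi2 h
            have h' : i ≤ rk x ∨ rk y ≤ i := by
              rcases h with h | h | h
              · exact Or.inl h
              · exact Or.inr h
              · by_contra hc
                push Not at hc
                obtain ⟨n, hn, hni⟩ := hI i hc.1 hc.2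
                exact h n hn hni
            exact (hK1 i hi1 hi2 h').symm.trans hf (hAK' i hi1 hi2 h')
        obtain ⟨-, -, K, hwK, hK1, hK2⟩ := key w path
        refine hK2.trans ?_
        have hxK : x ∈ K := mem_of_ag hf hxA (hK1 _ bx.1 bx.2 (Or.inl le_rfl))
        have hyK : y ∈ K := mem_of_ag hf hyA (hK1 _ by'.1 by'.2 (Or.inr le_rfl))
        refine join w K B hxw hwy hxK hyK hwK hwB ?_
        intro i hi1 hi2 h
        have h' : i ≤ rk x ∨ rk y ≤ i := by
          rcases h with h | h | h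
          · exact Or.inl h
          · exact Or.inr h
          · by_contra hc
            push Not at hc
            obtain ⟨n, hn, hni⟩ := hI i hc.1 hc.2
            exact h n hn hni
        exact (hK1 i hi1 hi2 h').symm.trans hf (hAB i hi1 hi2 (by
          rcases h' with h' | h'
          · exact Or.inl h'
          · exact Or.inr (Or.inl h')))
      · -- the short case
        by_cases hAB' : A = B
        · subst hAB'
          exact Relation.ReflTransGen.refl
        · apply Relation.ReflTransGen.single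
          have h2 : rk y = rk x + 2 := by
            by_contra hc
            apply hAB'
            apply eq_of_ag hf
            intro i hi1 hi2
            refine hAB i hi1 hi2 ?_
            by_cases h4 : i ≤ rk x
            · exact Or.inl h4
            · exact Or.inr (Or.inl (by omega))
          obtain ⟨n, hn, hni⟩ := hI (rk x + 1) (by omega) (by omega)
          refine ⟨n, hn, by omega, hAB', ?_⟩
          intro z hz hzn
          have bz := hf.bd z
          refine mem_of_ag hf hz (hAB _ bz.1 bz.2 ?_)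
          by_cases h4 : rk z ≤ rk x
          · exact Or.inl h4
          · exact Or.inr (Or.inl (by omega))

end CNN

theorem cnn (h : StmtFlag) : StmtConn := by
  intro d P _ _ rk hP I C D hCD
  obtain ⟨h1, h2, -, h4, -⟩ := h d P rk hP
  have hf : CNN.Fct d rk := ⟨h1, h2, h4, hP.strict, hP.flags, hP.connected⟩
  obtain ⟨b, hb1, hb2⟩ := hP.bot
  obtain ⟨t, ht1, ht2⟩ := hP.top
  have hbm : ∀ A : Flag P, b ∈ A := by
    intro A
    obtain ⟨x, hx, hx'⟩ := hP.flags A (-1) le_rfl (by omega)
    rcases (hb1 x).eq_or_lt with h5 | h5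
    · rw [h5]; exact hx
    · have := hP.strict _ _ h5
      omega
  have htm : ∀ A : Flag P, t ∈ A := by
    intro A
    obtain ⟨x, hx, hx'⟩ := hP.flags A d (by omega) le_rfl
    rcases (ht1 x).eq_or_lt with h5 | h5
    · rw [← h5]; exact hx
    · have := hP.strict _ _ h5
      omega
  have hbt : b < t := lt_of_le_of_ne (hb1 t) (by rintro rfl; omega)
  refine CNN.main hf (d + 1) b t C D hbt (by push_cast; omega) (hbm C) (htm C) ?_
  intro i hi1 hi2 hi3
  rcases hi3 with hi3 | hi3 | hi3
  · exact ⟨b, by omega, hbm C, hbm D⟩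
  · exact ⟨t, by omega, htm C, htm D⟩
  · rcases hi1.eq_or_lt with h6 | h6
    · exact ⟨b, by omega, hbm C, hbm D⟩
    · obtain ⟨x, hx, hx'⟩ := hP.flags C i hi1 hi2
      obtain ⟨n, hn⟩ : ∃ n : ℕ, i = (n : ℤ) := ⟨i.toNat, by omega⟩
      exact ⟨x, hx', hx, hCD x hx n (hx'.trans hn) fun hnI => hi3 n hnI hn.symm⟩

end FO2
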