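import Pool.Agent.FO2.Stmts

/-!
# COA: cosets of a chain have a common element; flags of the coset poset
-/

namespace FO2

open Lib_helper64.FO
open scoped RealInnerProductSpace

noncomputable section

namespace COA

variable {d : ℕ} {Y : Type} {S : SGen d Y}

theorem par_le_univ (S : SGen d Y) (I : Set (Fin d)) : S.par I ≤ S.par Set.univ :=
  Subgroup.closure_mono (Set.image_mono (Set.subset_univ I))

theorem par_mono (S : SGen d Y) {I J : Set (Fin d)} (h : I ⊆ J) : S.par I ≤ S.par J :=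
  Subgroup.closure_mono (Set.image_mono h)

theorem coset_sub (F : CFace S) {g : Equiv.Perm Y} (hg : g ∈ F.coset) : g ∈ S.par Set.univ := by
  obtain ⟨k, hk, e⟩ := F.ex
  rw [e] at hg
  obtain ⟨h, hh, rfl⟩ := hg
  exact mul_mem hk (par_le_univ S _ hh)

theorem coset_nonempty (F : CFace S) : ∃ g, g ∈ F.coset := by
  obtain ⟨k, hk, e⟩ := F.ex
  exact ⟨k, by rw [e]; exact ⟨1, one_mem _, (mul_one k).symm⟩⟩

theorem mul_mem_coset (F : CFace S) {g b : Equiv.Perm Y} (hg : g ∈ F.coset)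
    (hb : b ∈ S.par {j | j ≠ F.rank}) : g * b ∈ F.coset := by
  rw [F.coset_eq hg]
  exact ⟨b, hb, rfl⟩

/-- two cosets of a chain with the same rank are equal -/
theorem eq_of_rank {s : Set (CFace S)} (hs : IsChain (· ≤ ·) s) {F G : CFace S} (hF : F ∈ s)
    (hG : G ∈ s) (h : F.rank = G.rank) : F = G := by
  rcases hs.total hF hG with h1 | h1
  · exact le_antisymm h1 (CFace.le_def.2 ⟨h.ge, by
      rw [Set.inter_comm]; exact (CFace.le_def.1 h1).2⟩)
  · exact le_antisymm (CFace.le_def.2 ⟨h.le, by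
      rw [Set.inter_comm]; exact (CFace.le_def.1 h1).2⟩) h1

theorem meet {s : Set (CFace S)} (hs : IsChain (· ≤ ·) s) {F G : CFace S} (hF : F ∈ s)
    (hG : G ∈ s) : ∃ k, k ∈ F.coset ∧ k ∈ G.coset := by
  rcases hs.total hF hG with h1 | h1
  · exact (CFace.le_def.1 h1).2
  · obtain ⟨k, hk⟩ := (CFace.le_def.1 h1).2
    exact ⟨k, hk.2, hk.1⟩

theorem common (s : Set (CFace S)) (hs : IsChain (· ≤ ·) s) (m : ℕ) :
    ∃ g ∈ S.par Set.univ, ∀ F ∈ s, F.rank.val < m → g ∈ F.coset := by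
  classical
  induction m with
  | zero => exact ⟨1, one_mem _, fun F _ h => absurd h (Nat.not_lt_zero _)⟩
  | succ m ih =>
    obtain ⟨g, hg, hgs⟩ := ih
    by_cases h1 : ∃ F ∈ s, F.rank.val = m
    · obtain ⟨F, hF, hFm⟩ := h1
      have hall : ∀ G ∈ s, G.rank.val < m + 1 → G.rank.val < m ∨ G = F := by
        intro G hG hGm
        rcases Nat.lt_succ_iff_lt_or_eq.1 hGm with h | h
        · exact Or.inl h
        · exact Or.inr (eq_of_rank hs hG hF (Fin.ext (h.trans hFm.symm)))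
      by_cases h2 : ∃ G ∈ s, G.rank.val < m
      · obtain ⟨G0, hG0, hG0m⟩ := h2
        obtain ⟨n, hn, hmax⟩ := Finset.exists_max_image
          ((Finset.range m).filter (fun n => ∃ G ∈ s, G.rank.val = n)) id
          ⟨G0.rank.val, Finset.mem_filter.2 ⟨Finset.mem_range.2 hG0m, G0, hG0, rfl⟩⟩
        obtain ⟨hnm, G, hG, hGn⟩ := Finset.mem_filter.1 hn
        rw [Finset.mem_range] at hnm
        obtain ⟨k, hkG, hkF⟩ := meet hs hG hF
        have hgG : g ∈ G.coset := hgs G hG (by omega)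
        rw [G.coset_eq hkG] at hgG
        obtain ⟨b, hb, hgb⟩ := hgG
        obtain ⟨x, hx, y, hy, e1, e2⟩ := S.conj_split G.rank b hb
        -- g = k * b, b = x * y = y * x
        refine ⟨g * y⁻¹, mul_mem hg (inv_mem (par_le_univ S _ hy)), ?_⟩
        intro F' hF' hF'm
        rcases hall F' hF' hF'm with h3 | rfl
        · refine mul_mem_coset F' (hgs F' hF' h3) (inv_mem (par_mono S ?_ hy))
          have h4 := hmax F'.rank.val (Finset.mem_filter.2 ⟨Finset.mem_range.2 h3, F', hF', rfl⟩)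
          simp only [id] at h4
          intro j hj
          have hj' : G.rank < j := hj
          have hj2 : G.rank.val < j.val := hj'
          intro h5
          rw [h5] at hj2
          omega
        · have e3 : g * y⁻¹ = k * x := by
            rw [hgb, e1]
            group
          rw [e3]
          refine mul_mem_coset F' hkF (par_mono S ?_ hx)
          intro j hj
          have hj' : j < G.rank := hj
          have hj2 : j.val < G.rank.val := hj'
          intro h5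
          rw [h5] at hj2
          omega
      · push Not at h2
        obtain ⟨k, hk⟩ := coset_nonempty F
        refine ⟨k, coset_sub F hk, ?_⟩
        intro F' hF' hF'm
        rcases hall F' hF' hF'm with h3 | rfl
        · exact absurd h3 (not_lt.2 (h2 F' hF'))
        · exact hk
    · push Not at h1
      refine ⟨g, hg, fun F hF hFm => hgs F hF ?_⟩
      have := h1 F hF
      omega

/-- the coset of rank `i` of the element `g` -/
def cos (S : SGen d Y) (i : Fin d) (g : Equiv.Perm Y) (hg : g ∈ S.par Set.univ) : CFace S where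
  rank := i
  coset := {p | ∃ h ∈ S.par {j | j ≠ i}, p = g * h}
  ex := ⟨g, hg, rfl⟩

theorem mem_cos (S : SGen d Y) (i : Fin d) (g : Equiv.Perm Y) (hg : g ∈ S.par Set.univ) :
    g ∈ (cos S i g hg).coset := ⟨1, one_mem _, (mul_one g).symm⟩

/-- the face `F` of the coset poset -/
def fc (F : CFace S) : CPos S := some (some F)

/-- the greatest face of the coset poset -/
def tp (S : SGen d Y) : CPos S := some (⊤ : WithTop (CFace S))

theorem coe_le {F G : CFace S} : fc F ≤ fc G ↔ F ≤ G := by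
  have h1 : (((F : WithTop (CFace S)) : WithBot (WithTop (CFace S))) ≤
      ((G : WithTop (CFace S)) : WithBot (WithTop (CFace S)))) ↔ F ≤ G := by
    rw [WithBot.coe_le_coe, WithTop.coe_le_coe]
  exact h1

theorem le_top' (x : CPos S) : x ≤ tp S := le_top (a := x)

theorem cases3 (x : CPos S) : x = ⊥ ∨ x = tp S ∨ ∃ F : CFace S, x = fc F := by
  rcases x with _ | _ | F
  · exact Or.inl rfl
  · exact Or.inr (Or.inl rfl)
  · exact Or.inr (Or.inr ⟨F, rfl⟩)

theorem flag_common (C : Flag (CPos S)) : ∃ g ∈ S.par Set.univ, ∀ F : CFace S,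
    fc F ∈ C ↔ g ∈ F.coset := by
  have hch : IsChain (· ≤ ·) {F : CFace S | fc F ∈ C} := by
    intro F hF G hG _
    rcases C.le_or_le hF hG with h | h
    · exact Or.inl (coe_le.1 h)
    · exact Or.inr (coe_le.1 h)
  obtain ⟨g, hg, hgs⟩ := common _ hch d
  refine ⟨g, hg, fun F => ⟨fun hF => hgs F hF F.rank.isLt, fun hF => ?_⟩⟩
  rw [Flag.mem_iff_forall_le_or_ge]
  intro x hx
  rcases cases3 x with rfl | rfl | ⟨G, rfl⟩
  · exact Or.inr bot_le
  · exact Or.inl (le_top' _)
  · have hG : g ∈ G.coset := hgs G hx G.rank.isLt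
    rcases le_total F.rank G.rank with h | h
    · exact Or.inl (coe_le.2 (CFace.le_def.2 ⟨h, g, hF, hG⟩))
    · exact Or.inr (coe_le.2 (CFace.le_def.2 ⟨h, g, hG, hF⟩))

theorem top_mem' (C : Flag (CPos S)) : tp S ∈ C := C.top_mem

/-- left multiplication -/
def lmul (γ : Equiv.Perm Y) (hγ : γ ∈ S.par Set.univ) (F : CFace S) : CFace S where
  rank := F.rank
  coset := {p | γ⁻¹ * p ∈ F.coset}
  ex := by
    obtain ⟨g, hg, e⟩ := F.ex
    refine ⟨γ * g, mul_mem hγ hg, ?_⟩
    ext p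
    change γ⁻¹ * p ∈ F.coset ↔ _
    rw [e]
    constructor
    · rintro ⟨h, hh, e2⟩
      exact ⟨h, hh, by rw [mul_assoc, ← e2]; group⟩
    · rintro ⟨h, hh, rfl⟩
      exact ⟨h, hh, by group⟩

theorem mem_lmul {γ : Equiv.Perm Y} {hγ : γ ∈ S.par Set.univ} {F : CFace S} {p : Equiv.Perm Y} :
    p ∈ (lmul γ hγ F).coset ↔ γ⁻¹ * p ∈ F.coset := Iff.rfl

theorem lmul_lmul {γ δ : Equiv.Perm Y} (hγ : γ ∈ S.par Set.univ) (hδ : δ ∈ S.par Set.univ)
    (h : γ * δ = 1) (F : CFace S) : lmul γ hγ (lmul δ hδ F) = F := by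
  refine CFace.ext' rfl ?_
  ext p
  rw [mem_lmul, mem_lmul, ← mul_assoc, ← mul_inv_rev, h, inv_one, one_mul]

/-- left multiplication is an automorphism of the set of cosets -/
def lmulEquiv (γ : Equiv.Perm Y) (hγ : γ ∈ S.par Set.univ) : CFace S ≃o CFace S where
  toFun := lmul γ hγ
  invFun := lmul γ⁻¹ (inv_mem hγ)
  left_inv F := lmul_lmul _ _ (inv_mul_cancel γ) F
  right_inv F := lmul_lmul _ _ (mul_inv_cancel γ) F
  map_rel_iff' := by
    intro F G
    change lmul γ hγ F ≤ lmul γ hγ G ↔ F ≤ G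
    rw [CFace.le_def, CFace.le_def]
    refine and_congr Iff.rfl ⟨?_, ?_⟩
    · rintro ⟨p, hp1, hp2⟩
      exact ⟨γ⁻¹ * p, hp1, hp2⟩
    · rintro ⟨p, hp1, hp2⟩
      refine ⟨γ * p, ?_, ?_⟩
      · rw [mem_lmul, inv_mul_cancel_left]
        exact hp1
      · rw [mem_lmul, inv_mul_cancel_left]
        exact hp2

/-- left multiplication is an automorphism of the coset poset -/
def lmulC (γ : Equiv.Perm Y) (hγ : γ ∈ S.par Set.univ) : CPos S ≃o CPos S :=
  ((lmulEquiv γ hγ).withTopCongr).withBotCongr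

theorem lmulC_coe (γ : Equiv.Perm Y) (hγ : γ ∈ S.par Set.univ) (F : CFace S) :
    lmulC γ hγ (fc F) = fc (lmul γ hγ F) := rfl

theorem lmulC_bot (γ : Equiv.Perm Y) (hγ : γ ∈ S.par Set.univ) :
    lmulC (S := S) γ hγ ⊥ = ⊥ := (lmulC (S := S) γ hγ).map_bot

theorem lmulC_top (γ : Equiv.Perm Y) (hγ : γ ∈ S.par Set.univ) :
    lmulC (S := S) γ hγ (tp S) = tp S := (lmulC (S := S) γ hγ).map_top

theorem trans (C D : Flag (CPos S)) : ∃ γ : CPos S ≃o CPos S, γ • C = D := by
  obtain ⟨g, hg, hC⟩ := flag_common C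
  obtain ⟨g', hg', hD⟩ := flag_common D
  have hγ : g' * g⁻¹ ∈ S.par Set.univ := mul_mem hg' (inv_mem hg)
  refine ⟨lmulC (g' * g⁻¹) hγ, ?_⟩
  have key : ∀ F : CFace S, fc F ∈ C ↔ fc (lmul (g' * g⁻¹) hγ F) ∈ D := by
    intro F
    rw [hC, hD, mem_lmul]
    rw [show (g' * g⁻¹)⁻¹ * g' = g by group]
  have h1 : (↑(lmulC (g' * g⁻¹) hγ • C) : Set (CPos S)) ⊆ D := by
    rintro _ ⟨x, hx, rfl⟩
    rcases cases3 x with rfl | rfl | ⟨F, rfl⟩
    · change lmulC (g' * g⁻¹) hγ ⊥ ∈ D
      rw [lmulC_bot]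
      exact D.bot_mem
    · change lmulC (g' * g⁻¹) hγ (tp S) ∈ D
      rw [lmulC_top]
      exact top_mem' D
    · change lmulC (g' * g⁻¹) hγ (fc F) ∈ D
      rw [lmulC_coe]
      exact (key F).1 hx
  refine Flag.ext ?_
  exact (lmulC (g' * g⁻¹) hγ • C).max_chain' D.chain_le h1

end COA

theorem cosA : StmtCosA := by
  intro d Y S hd _
  refine ⟨?_, COA.flag_common, ?_, COA.trans⟩
  · intro s hs
    obtain ⟨g, hg, h⟩ := COA.common s hs d
    exact ⟨g, hg, fun F hF => h F hF F.rank.isLt⟩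
  · intro C i h1 h2
    obtain ⟨g, hg, hC⟩ := COA.flag_common C
    rcases eq_or_lt_of_le h1 with h1 | h1
    · exact ⟨⊥, C.bot_mem, h1⟩
    rcases eq_or_lt_of_le h2 with h2 | h2
    · exact ⟨COA.tp S, COA.top_mem' C, h2.symm⟩
    · have h3 : i.toNat < d := by omega
      refine ⟨COA.fc (COA.cos S ⟨i.toNat, h3⟩ g hg), (hC _).2 (COA.mem_cos S _ g hg), ?_⟩
      change ((i.toNat : ℕ) : ℤ) = i
      omega

end

end FO2
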