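import Pool.Agent.FO2.Stmts

/-!
# Module COB: the coset poset of a string C-group is a regular polytope
-/

namespace FO2

open Lib_helper64.FO
open scoped RealInnerProductSpace

namespace CobAux

variable {d : ℕ} {Y : Type} {S : SGen d Y}

/-- the subgroup of the generators which do not move the face of rank `i` -/
def N (S : SGen d Y) (i : ℤ) : Subgroup (Equiv.Perm Y) := S.par {j | (j.val : ℤ) ≠ i}

/-- `g` lies in the face `x` -/
def Mem (g : Equiv.Perm Y) (x : CPos S) : Prop :=
  g ∈ S.par Set.univ ∧ ∀ F : CFace S, x = (some (some F) : CPos S) → g ∈ F.coset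

theorem par_mono {I J : Set (Fin d)} (h : I ⊆ J) : S.par I ≤ S.par J :=
  Subgroup.closure_mono (Set.image_mono h)

theorem N_le (i : ℤ) : N S i ≤ S.par Set.univ := par_mono (Set.subset_univ _)

theorem N_bot : N S (-1) = S.par Set.univ := by
  unfold N
  congr 1
  ext j
  simp only [Set.mem_ofPred_eq, Set.mem_univ, iff_true]
  omega

theorem N_top : N S d = S.par Set.univ := by
  unfold N
  congr 1
  ext j
  simp only [Set.mem_ofPred_eq, Set.mem_univ, iff_true]
  have := j.isLt
  omega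

theorem N_face (i : Fin d) : N S (i.val : ℤ) = S.par {j | j ≠ i} := by
  unfold N
  congr 1
  ext j
  simp only [Set.mem_ofPred_eq, ne_eq, Nat.cast_inj, Fin.ext_iff]

theorem coset_sub (F : CFace S) {g : Equiv.Perm Y} (hg : g ∈ F.coset) : g ∈ S.par Set.univ := by
  obtain ⟨k, hk, hF⟩ := F.ex
  rw [hF] at hg
  obtain ⟨h, hh, rfl⟩ := hg
  exact mul_mem hk (par_mono (Set.subset_univ _) hh)

theorem mem_face {g : Equiv.Perm Y} {F : CFace S} :
    Mem g (some (some F) : CPos S) ↔ g ∈ F.coset := by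
  constructor
  · intro h
    exact h.2 F rfl
  · intro h
    refine ⟨coset_sub F h, fun G hG => ?_⟩
    have : F = G := by
      injection hG with h1
      injection h1
    rw [← this]
    exact h

theorem mem_bot {g : Equiv.Perm Y} (hg : g ∈ S.par Set.univ) : Mem g (none : CPos S) :=
  ⟨hg, fun F hF => by cases hF⟩

theorem mem_top {g : Equiv.Perm Y} (hg : g ∈ S.par Set.univ) : Mem g (some none : CPos S) :=
  ⟨hg, fun F hF => by cases hF⟩

theorem rk_bot : rkC (none : CPos S) = -1 := rfl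

theorem rk_top : rkC (some none : CPos S) = d := rfl

theorem rk_face (F : CFace S) : rkC (some (some F) : CPos S) = (F.rank.val : ℤ) := rfl

theorem mem_mul {g h : Equiv.Perm Y} {x : CPos S} (hg : Mem g x) (hh : h ∈ N S (rkC x)) :
    Mem (g * h) x := by
  refine ⟨mul_mem hg.1 (N_le _ hh), ?_⟩
  intro F hF
  have h1 := hg.2 F hF
  subst hF
  rw [rk_face, N_face] at hh
  rw [F.coset_eq h1]
  exact ⟨h, hh, rfl⟩

theorem mem_div {g k : Equiv.Perm Y} {x : CPos S} (hg : Mem g x) (hk : Mem k x) :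
    g⁻¹ * k ∈ N S (rkC x) := by
  rcases x with _ | _ | F
  · rw [rk_bot, N_bot]
    exact mul_mem (inv_mem hg.1) hk.1
  · rw [rk_top, N_top]
    exact mul_mem (inv_mem hg.1) hk.1
  · rw [rk_face, N_face]
    have h1 := mem_face.1 hg
    have h2 := mem_face.1 hk
    rw [F.coset_eq h1] at h2
    obtain ⟨h, hh, rfl⟩ := h2
    rw [inv_mul_cancel_left]
    exact hh

theorem mem_of_div {g k : Equiv.Perm Y} {x : CPos S} (hg : Mem g x)
    (hk : k⁻¹ * g ∈ N S (rkC x)) : Mem k x := by
  have h1 := mem_mul hg (inv_mem hk)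
  have h2 : g * (k⁻¹ * g)⁻¹ = k := by group
  rw [h2] at h1
  exact h1

theorem rk_lo (x : CPos S) : -1 ≤ rkC x := by
  rcases x with _ | _ | F
  · rw [rk_bot]
  · rw [rk_top]; omega
  · rw [rk_face]; omega

theorem rk_hi (x : CPos S) : rkC x ≤ d := by
  rcases x with _ | _ | F
  · rw [rk_bot]; omega
  · rw [rk_top]
  · rw [rk_face]
    have := F.rank.isLt
    omega

theorem le_of_mem {g : Equiv.Perm Y} {x y : CPos S} (hx : Mem g x) (hy : Mem g y)
    (h : rkC x ≤ rkC y) : x ≤ y := by
  rcases x with _ | _ | F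
  · exact bot_le
  · rcases y with _ | _ | G
    · rw [rk_bot, rk_top] at h
      omega
    · exact le_rfl
    · rw [rk_face, rk_top] at h
      have := G.rank.isLt
      omega
  · rcases y with _ | _ | G
    · rw [rk_bot, rk_face] at h
      omega
    · exact WithBot.coe_le_coe.2 le_top
    · refine WithBot.coe_le_coe.2 (WithTop.coe_le_coe.2 ?_)
      rw [rk_face, rk_face] at h
      refine ⟨?_, g, mem_face.1 hx, mem_face.1 hy⟩
      rw [Fin.le_def]
      omega

theorem eq_of_mem {g : Equiv.Perm Y} {x y : CPos S} (hx : Mem g x) (hy : Mem g y)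
    (h : rkC x = rkC y) : x = y :=
  le_antisymm (le_of_mem hx hy h.le) (le_of_mem hy hx h.ge)

theorem exists_face {g : Equiv.Perm Y} (hg : g ∈ S.par Set.univ) {i : ℤ} (h1 : -1 ≤ i)
    (h2 : i ≤ d) : ∃ x : CPos S, Mem g x ∧ rkC x = i := by
  rcases eq_or_lt_of_le h1 with h | h
  · exact ⟨none, mem_bot hg, h⟩
  · rcases eq_or_lt_of_le h2 with h' | h'
    · exact ⟨some none, mem_top hg, h'.symm⟩
    · obtain ⟨n, rfl⟩ := Int.eq_ofNat_of_zero_le (show 0 ≤ i by omega)
      have hn : n < d := by exact_mod_cast h'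
      refine ⟨some (some ⟨⟨n, hn⟩, {p | ∃ h ∈ S.par {j | j ≠ ⟨n, hn⟩}, p = g * h}, g, hg, rfl⟩),
        mem_face.2 ?_, rfl⟩
      exact ⟨1, one_mem _, by simp⟩

theorem chain3 (hA : StmtCosA) (hd : 1 ≤ d) (hY : Finite Y) {x z y : CPos S} (h1 : x ≤ z)
    (h2 : z ≤ y) : ∃ g : Equiv.Perm Y, Mem g x ∧ Mem g z ∧ Mem g y := by
  have h3 : ∀ u v : CPos S, (u = x ∨ u = z ∨ u = y) → (v = x ∨ v = z ∨ v = y) →
      u ≤ v ∨ v ≤ u := by
    rintro u v (rfl | rfl | rfl) (rfl | rfl | rfl)
    · exact Or.inl le_rfl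
    · exact Or.inl h1
    · exact Or.inl (h1.trans h2)
    · exact Or.inr h1
    · exact Or.inl le_rfl
    · exact Or.inl h2
    · exact Or.inr (h1.trans h2)
    · exact Or.inr h2
    · exact Or.inl le_rfl
  obtain ⟨g, hg, hs⟩ := (hA d Y S hd hY).1
    {F | (some (some F) : CPos S) = x ∨ (some (some F) : CPos S) = z ∨
      (some (some F) : CPos S) = y} (by
      intro F hF G hG _
      rcases h3 _ _ hF hG with h | h
      · left
        exact WithTop.coe_le_coe.1 (WithBot.coe_le_coe.1 h)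
      · right
        exact WithTop.coe_le_coe.1 (WithBot.coe_le_coe.1 h))
  exact ⟨g, ⟨hg, fun F hF => hs F (Or.inl hF.symm)⟩,
    ⟨hg, fun F hF => hs F (Or.inr (Or.inl hF.symm))⟩,
    ⟨hg, fun F hF => hs F (Or.inr (Or.inr hF.symm))⟩⟩

theorem strict (hA : StmtCosA) (hd : 1 ≤ d) (hY : Finite Y) {x y : CPos S} (h : x < y) :
    rkC x < rkC y := by
  obtain ⟨g, h1, -, h2⟩ := chain3 hA hd hY (le_refl x) h.le
  by_contra hcon
  push Not at hcon
  exact absurd (le_of_mem h2 h1 hcon) (not_le_of_gt h)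

theorem lt_of_mem {g : Equiv.Perm Y} {x y : CPos S} (hx : Mem g x) (hy : Mem g y)
    (h : rkC x < rkC y) : x < y :=
  lt_of_le_of_ne (le_of_mem hx hy h.le) (fun he => by rw [he] at h; exact lt_irrefl _ h)

theorem sig_mem {I : Set (Fin d)} {j : Fin d} (h : j ∈ I) : S.σ j ∈ S.par I :=
  Subgroup.subset_closure ⟨j, h, rfl⟩

theorem sig_N {i : ℤ} {j : Fin d} (h : (j.val : ℤ) ≠ i) : S.σ j ∈ N S i := sig_mem h

theorem sig_inv (j : Fin d) : (S.σ j)⁻¹ = S.σ j := inv_eq_of_mul_eq_one_right (S.sq j)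

theorem inter_N (hS : StrC S) (i j : ℤ) {p : Equiv.Perm Y} (h1 : p ∈ N S i) (h2 : p ∈ N S j) :
    p ∈ S.par ({l | (l.val : ℤ) ≠ i} ∩ {l | (l.val : ℤ) ≠ j}) := by
  rw [← hS.inter]
  exact ⟨h1, h2⟩

/-- the product of a generator `i` and of generators which are not its neighbours -/
theorem split_mid {i : Fin d} {p : Equiv.Perm Y}
    (hp : p ∈ S.par ({l | (l.val : ℤ) ≠ (i.val : ℤ) - 1} ∩ {l | (l.val : ℤ) ≠ (i.val : ℤ) + 1})) :
    p ∈ S.par {j | j ≠ i} ∨ S.σ i * p ∈ S.par {j | j ≠ i} := by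
  have step : ∀ j : Fin d, j ∈ ({l : Fin d | (l.val : ℤ) ≠ (i.val : ℤ) - 1} ∩
      {l : Fin d | (l.val : ℤ) ≠ (i.val : ℤ) + 1}) → ∀ q : Equiv.Perm Y,
      (q ∈ S.par {j | j ≠ i} ∨ S.σ i * q ∈ S.par {j | j ≠ i}) →
      (S.σ j * q ∈ S.par {j | j ≠ i} ∨ S.σ i * (S.σ j * q) ∈ S.par {j | j ≠ i}) := by
    intro j hj q hq
    obtain ⟨h1, h2⟩ := hj
    simp only [Set.mem_ofPred_eq] at h1 h2
    by_cases hji : j = i
    · subst hji
      rcases hq with hq | hq
      · right
        rw [← mul_assoc, S.sq, one_mul]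
        exact hq
      · left
        exact hq
    · have hne : j.val ≠ i.val := fun h => hji (Fin.ext h)
      have hc : S.σ i * S.σ j = S.σ j * S.σ i := by
        rcases lt_or_gt_of_ne hne with h | h
        · exact (S.comm j i (by omega)).symm
        · exact S.comm i j (by omega)
      have hj' : S.σ j ∈ S.par {j | j ≠ i} := sig_mem hji
      rcases hq with hq | hq
      · left
        exact mul_mem hj' hq
      · right
        rw [← mul_assoc, hc, mul_assoc]
        exact mul_mem hj' hq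
  unfold SGen.par at hp
  induction hp using Subgroup.closure_induction_left with
  | one => exact Or.inl (one_mem _)
  | mul_left x hx y hy ih =>
    obtain ⟨j, hj, rfl⟩ := hx
    exact step j hj y ih
  | inv_mul_cancel x hx y hy ih =>
    obtain ⟨j, hj, rfl⟩ := hx
    rw [sig_inv]
    exact step j hj y ih

end CobAux

open CobAux in
/-- **COB** -/
theorem cosB (h : StmtCosA) : StmtCosB := by
  intro d Y S hd hY hS
  have hst : ∀ x y : CPos S, x < y → rkC x < rkC y := fun x y hxy => strict h hd hY hxy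
  refine ⟨⟨none, fun x => bot_le, rfl⟩, ⟨some none, fun x => ?_, rfl⟩, hst,
    (h d Y S hd hY).2.2.1, ?_, ?_, (h d Y S hd hY).2.2.2⟩
  · exact (le_top : x ≤ (⊤ : CPos S))
  · -- diamond
    intro x y hxy hr
    have hx1 := rk_lo x
    have hy1 := rk_hi y
    obtain ⟨n, hn⟩ := Int.eq_ofNat_of_zero_le (show 0 ≤ rkC x + 1 by omega)
    have hnd : n < d := by omega
    obtain ⟨i, hi⟩ : ∃ i : Fin d, i.val = n := ⟨⟨n, hnd⟩, rfl⟩
    have hxi : rkC x = (i.val : ℤ) - 1 := by omega
    have hyi : rkC y = (i.val : ℤ) + 1 := by omega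
    obtain ⟨g, hgx, -, hgy⟩ := chain3 h hd hY (le_refl x) hxy.le
    have hsx : S.σ i ∈ N S (rkC x) := sig_N (by omega)
    have hsy : S.σ i ∈ N S (rkC y) := sig_N (by omega)
    obtain ⟨z1, hz1, hr1⟩ := exists_face (S := S) hgx.1 (i := (i.val : ℤ)) (by omega) (by omega)
    obtain ⟨z2, hz2, hr2⟩ := exists_face (S := S) (mem_mul hgx hsx).1 (i := (i.val : ℤ)) (by omega)
      (by omega)
    have b1 : x < z1 ∧ z1 < y := ⟨lt_of_mem hgx hz1 (by omega), lt_of_mem hz1 hgy (by omega)⟩
    have b2 : x < z2 ∧ z2 < y :=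
      ⟨lt_of_mem (mem_mul hgx hsx) hz2 (by omega), lt_of_mem hz2 (mem_mul hgy hsy) (by omega)⟩
    rw [Nat.card_eq_two_iff]
    refine ⟨⟨z1, b1⟩, ⟨z2, b2⟩, ?_, ?_⟩
    · intro he
      have he' : z1 = z2 := congrArg Subtype.val he
      rw [← he'] at hz2
      have h3 := mem_div hz1 hz2
      rw [inv_mul_cancel_left, hr1, N_face] at h3
      have h4 : S.σ i ∈ S.par {i} ⊓ S.par {j | j ≠ i} := ⟨sig_mem rfl, h3⟩
      rw [hS.inter] at h4
      have h5 : ({i} ∩ {j | j ≠ i} : Set (Fin d)) = ∅ := by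
        ext j
        simp
      rw [h5] at h4
      unfold SGen.par at h4
      rw [Set.image_empty, Subgroup.closure_empty, Subgroup.mem_bot] at h4
      exact hS.ne_one i h4
    · rw [Set.eq_univ_iff_forall]
      rintro ⟨z, hz⟩
      have r1 := hst x z hz.1
      have r2 := hst z y hz.2
      have hzr : rkC z = (i.val : ℤ) := by omega
      obtain ⟨k, hkx, hkz, hky⟩ := chain3 h hd hY hz.1.le hz.2.le
      have h1 := mem_div hgx hkx
      have h2 := mem_div hgy hky
      rw [hxi] at h1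
      rw [hyi] at h2
      rcases split_mid (inter_N hS _ _ h1 h2) with h3 | h3
      · left
        have h4 : Mem g z := by
          refine mem_of_div hkz ?_
          rw [hzr, N_face]
          exact h3
        exact Subtype.ext (eq_of_mem h4 hz1 (hzr.trans hr1.symm))
      · right
        have h4 : Mem (g * S.σ i) z := by
          refine mem_of_div hkz ?_
          rw [hzr, N_face, mul_inv_rev, sig_inv, mul_assoc]
          exact h3
        exact Subtype.ext (eq_of_mem h4 hz2 (hzr.trans hr2.symm))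
  · -- connected
    intro x y hxy hr z w hxz hzy hxw hwy
    obtain ⟨g, hgx, hgz, hgy⟩ := chain3 h hd hY hxz.le hzy.le
    obtain ⟨k, hkx, hkw, hky⟩ := chain3 h hd hY hxw.le hwy.le
    have h1 := mem_div hgx hkx
    have h2 := mem_div hgy hky
    have h3 := inter_N hS _ _ h1 h2
    have hlo := rk_lo x
    have hhi := rk_hi y
    let R : CPos S → CPos S → Prop := fun a b => x < b ∧ b < y ∧ (a ≤ b ∨ b ≤ a)
    have comp : ∀ (p : Equiv.Perm Y) (a b : CPos S), Mem p a → Mem p b → x < b → b < y → R a b := by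
      intro p a b ha hb h4 h5
      refine ⟨h4, h5, ?_⟩
      rcases le_total (rkC a) (rkC b) with h6 | h6
      · exact Or.inl (le_of_mem ha hb h6)
      · exact Or.inr (le_of_mem hb ha h6)
    have main : ∀ p ∈ S.par ({l : Fin d | (l.val : ℤ) ≠ rkC x} ∩ {l : Fin d | (l.val : ℤ) ≠ rkC y}),
        ∀ w' : CPos S, x < w' → w' < y → Mem (g * p) w' → Relation.ReflTransGen R z w' := by
      have step : ∀ j : Fin d, j ∈ ({l : Fin d | (l.val : ℤ) ≠ rkC x} ∩
          {l : Fin d | (l.val : ℤ) ≠ rkC y}) → ∀ q : Equiv.Perm Y,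
          q ∈ S.par ({l : Fin d | (l.val : ℤ) ≠ rkC x} ∩ {l : Fin d | (l.val : ℤ) ≠ rkC y}) →
          (∀ w' : CPos S, x < w' → w' < y → Mem (g * q) w' → Relation.ReflTransGen R z w') →
          ∀ w' : CPos S, x < w' → w' < y → Mem (g * (q * S.σ j)) w' →
            Relation.ReflTransGen R z w' := by
        intro j hj q hq ih w' hw1 hw2 hw3
        obtain ⟨r, hr1, hr2, hr3⟩ : ∃ r : ℤ, rkC x < r ∧ r < rkC y ∧ (j.val : ℤ) ≠ r := by
          by_cases hjr : (j.val : ℤ) = rkC x + 1
          · exact ⟨rkC x + 2, by omega, by omega, by omega⟩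
          · exact ⟨rkC x + 1, by omega, by omega, hjr⟩
        have hqx : Mem (g * q) x := mem_mul hgx (par_mono Set.inter_subset_left hq)
        have hqy : Mem (g * q) y := mem_mul hgy (par_mono Set.inter_subset_right hq)
        obtain ⟨u, hu, hur⟩ := exists_face (S := S) hqx.1 (i := r) (by omega) (by omega)
        have hxu : x < u := lt_of_mem hqx hu (by omega)
        have huy : u < y := lt_of_mem hu hqy (by omega)
        have hu' : Mem (g * (q * S.σ j)) u := by
          rw [← mul_assoc]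
          exact mem_mul hu (sig_N (by rw [hur]; exact hr3))
        exact (ih u hxu huy hu).tail (comp _ u w' hu' hw3 hw1 hw2)
      intro p hp
      unfold SGen.par at hp
      induction hp using Subgroup.closure_induction_right with
      | one =>
        intro w' hw1 hw2 hw3
        rw [mul_one] at hw3
        exact Relation.ReflTransGen.single (comp g z w' hgz hw3 hw1 hw2)
      | mul_right q hq s hs ih =>
        obtain ⟨j, hj, rfl⟩ := hs
        exact step j hj q hq ih
      | mul_inv_cancel q hq s hs ih =>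
        obtain ⟨j, hj, rfl⟩ := hs
        rw [sig_inv]
        exact step j hj q hq ih
    have h4 := main _ h3 w hxw hwy (by rw [mul_inv_cancel_left]; exact hkw)
    exact h4

end FO2
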