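import Pool.Agent.Lib_helper64.FO.Defs

/-!
# Two-orbit realizations of finite regular polytopes: definitions

* `IsRegularPolytope d rk`: the poset `P` with rank function `rk` is an abstract regular polytope of
  rank `d`.
* `SGen d X`: a string of `d` involutions (or identities) of a set `X`; `CPos S`: the poset of cosets
  of `S` (the faces of rank `i` are the left cosets of the subgroup generated by all `σ j` with
  `j ≠ i` in the group generated by all `σ j`; two cosets are incident if they meet).
* `Match`: a polytope with a vertex map is isomorphic to a coset poset with a given vertex map.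
* the four families.
-/

namespace FO2

open Lib_helper64.FO

/-- The poset `P` with the rank function `rk` is a regular polytope of rank `d`: there are a least
face of rank `-1` and a greatest face of rank `d`, ranks increase strictly, every flag (maximal
chain) has a face of each rank `-1, …, d`, between two faces whose ranks differ by `2` there are
exactly two faces, every section of rank at least `2` is connected, and the automorphism group acts
transitively on the flags. -/
structure IsRegularPolytope (d : ℕ) {P : Type} [PartialOrder P] (rk : P → ℤ) : Prop where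
  bot : ∃ b : P, (∀ x, b ≤ x) ∧ rk b = -1
  top : ∃ t : P, (∀ x, x ≤ t) ∧ rk t = d
  strict : ∀ x y : P, x < y → rk x < rk y
  flags : ∀ (C : Flag P) (i : ℤ), -1 ≤ i → i ≤ d → ∃ x ∈ C, rk x = i
  diamond : ∀ x y : P, x < y → rk y = rk x + 2 → Nat.card {z : P // x < z ∧ z < y} = 2
  connected : ∀ x y : P, x < y → rk x + 3 ≤ rk y → ∀ z w : P, x < z → z < y → x < w → w < y →
    Relation.ReflTransGen (fun a b => x < b ∧ b < y ∧ (a ≤ b ∨ b ≤ a)) z w
  regular : ∀ C D : Flag P, ∃ γ : P ≃o P, γ • C = D

/-- A string of `d` permutations of `X`: their squares are `1` and those which are not neighbours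
commute. -/
structure SGen (d : ℕ) (X : Type) where
  σ : Fin d → Equiv.Perm X
  sq : ∀ i, σ i * σ i = 1
  comm : ∀ i j : Fin d, i.val + 2 ≤ j.val → σ i * σ j = σ j * σ i

/-- The subgroup generated by the `σ i` with `i ∈ I`. -/
def SGen.par {d : ℕ} {X : Type} (S : SGen d X) (I : Set (Fin d)) : Subgroup (Equiv.Perm X) :=
  Subgroup.closure (S.σ '' I)

/-- A proper face: its rank `i` is one of `0, …, d - 1`, and it is a left coset of the subgroup
generated by the `σ j` with `j ≠ i` in the group generated by all `σ j`. -/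
structure CFace {d : ℕ} {X : Type} (S : SGen d X) where
  rank : Fin d
  coset : Set (Equiv.Perm X)
  ex : ∃ g ∈ S.par Set.univ, coset = {p | ∃ h ∈ S.par {j | j ≠ rank}, p = g * h}

theorem SGen.conj_split {d : ℕ} {X : Type} (S : SGen d X) (i : Fin d) :
    ∀ p ∈ S.par {j | j ≠ i}, ∃ a ∈ S.par {j | j < i}, ∃ b ∈ S.par {j | i < j}, p = a * b ∧
      p = b * a := by
  have hcomm : ∀ a ∈ S.par {j | j < i}, ∀ b ∈ S.par {j | i < j}, a * b = b * a := by
    intro a ha b hb
    have h1 : S.par {j | j < i} ≤ Subgroup.centralizer (S.par {j | i < j} : Set (Equiv.Perm X)) := by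
      rw [SGen.par, Subgroup.closure_le]
      rintro _ ⟨j, hj, rfl⟩
      have h2 : S.par {j | i < j} ≤ Subgroup.centralizer ({S.σ j} : Set (Equiv.Perm X)) := by
        rw [SGen.par, Subgroup.closure_le]
        rintro _ ⟨k, hk, rfl⟩
        rw [SetLike.mem_coe, Subgroup.mem_centralizer_iff]
        intro h hh
        rw [Set.mem_singleton_iff] at hh
        subst hh
        have hj' : j.val < i.val := hj
        have hk' : i.val < k.val := hk
        exact S.comm j k (by omega)
      rw [SetLike.mem_coe, Subgroup.mem_centralizer_iff]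
      intro h hh
      have := Subgroup.mem_centralizer_iff.1 (h2 hh) (S.σ j) rfl
      exact this.symm
    have := Subgroup.mem_centralizer_iff.1 (h1 ha) b hb
    exact this.symm
  intro p hp
  refine Subgroup.closure_induction (p := fun p _ => ∃ a ∈ S.par {j | j < i},
    ∃ b ∈ S.par {j | i < j}, p = a * b ∧ p = b * a) ?_ ?_ ?_ ?_ hp
  · rintro _ ⟨j, hj, rfl⟩
    rcases lt_or_gt_of_ne hj with h | h
    · exact ⟨S.σ j, Subgroup.subset_closure ⟨j, h, rfl⟩, 1, one_mem _, by simp, by simp⟩
    · exact ⟨1, one_mem _, S.σ j, Subgroup.subset_closure ⟨j, h, rfl⟩, by simp, by simp⟩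
  · exact ⟨1, one_mem _, 1, one_mem _, by simp, by simp⟩
  · rintro p q - - ⟨a, ha, b, hb, h1, -⟩ ⟨a', ha', b', hb', h1', -⟩
    have e : p * q = (a * a') * (b * b') := by
      rw [h1, h1']
      calc a * b * (a' * b') = a * (b * a') * b' := by group
        _ = a * (a' * b) * b' := by rw [hcomm a' ha' b hb]
        _ = a * a' * (b * b') := by group
    exact ⟨a * a', mul_mem ha ha', b * b', mul_mem hb hb', e, by
      rw [e, hcomm _ (mul_mem ha ha') _ (mul_mem hb hb')]⟩
  · rintro p - ⟨a, ha, b, hb, h1, h2⟩
    refine ⟨a⁻¹, inv_mem ha, b⁻¹, inv_mem hb, ?_, ?_⟩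
    · rw [h2]; group
    · rw [h1]; group

theorem CFace.ext' {d : ℕ} {X : Type} {S : SGen d X} {F G : CFace S} (h1 : F.rank = G.rank)
    (h2 : F.coset = G.coset) : F = G := by
  cases F; cases G; cases h1; cases h2; rfl

/-- A coset is `p` times the subgroup, for each of its elements `p`. -/
theorem CFace.coset_eq {d : ℕ} {X : Type} {S : SGen d X} (F : CFace S) {p : Equiv.Perm X}
    (hp : p ∈ F.coset) : F.coset = {q | ∃ h ∈ S.par {j | j ≠ F.rank}, q = p * h} := by
  obtain ⟨g, -, hg⟩ := F.ex
  rw [hg] at hp ⊢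
  obtain ⟨k, hk, rfl⟩ := hp
  ext q
  constructor
  · rintro ⟨h, hh, rfl⟩
    exact ⟨k⁻¹ * h, mul_mem (inv_mem hk) hh, by group⟩
  · rintro ⟨h, hh, rfl⟩
    exact ⟨k * h, mul_mem hk hh, by group⟩

/-- Two cosets are incident if they meet; the order is by rank. -/
instance instPartialOrderCFace {d : ℕ} {X : Type} (S : SGen d X) : PartialOrder (CFace S) where
  le F G := F.rank ≤ G.rank ∧ (F.coset ∩ G.coset).Nonempty
  le_refl F := by
    refine ⟨le_rfl, ?_⟩
    obtain ⟨g, -, hg⟩ := F.ex
    rw [Set.inter_self, hg]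
    exact ⟨g, 1, one_mem _, by simp⟩
  le_trans F G K := by
    rintro ⟨h1, p, hpF, hpG⟩ ⟨h2, q, hqG, hqK⟩
    refine ⟨h1.trans h2, ?_⟩
    have hq : q ∈ G.coset := hqG
    rw [G.coset_eq hpG] at hqG
    obtain ⟨h, hh, rfl⟩ := hqG
    obtain ⟨a, ha, b, hb, e1, e2⟩ := S.conj_split G.rank h hh
    refine ⟨p * b, ?_, ?_⟩
    · rw [F.coset_eq hpF]
      refine ⟨b, ?_, rfl⟩
      refine (Subgroup.closure_mono (Set.image_mono ?_)) hb
      intro j hj
      have hj' : G.rank < j := hj
      exact (lt_of_le_of_lt h1 hj').ne'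
    · have e3 : p * b = (p * h) * a⁻¹ := by rw [e2]; group
      rw [e3, K.coset_eq hqK]
      refine ⟨a⁻¹, inv_mem ?_, rfl⟩
      refine (Subgroup.closure_mono (Set.image_mono ?_)) ha
      intro j hj
      have hj' : j < G.rank := hj
      exact (lt_of_lt_of_le hj' h2).ne
  le_antisymm F G := by
    rintro ⟨h1, p, hpF, hpG⟩ ⟨h2, -⟩
    have hr : F.rank = G.rank := le_antisymm h1 h2
    refine CFace.ext' hr ?_
    rw [F.coset_eq hpF, G.coset_eq hpG, hr]

theorem CFace.le_def {d : ℕ} {X : Type} {S : SGen d X} {F G : CFace S} :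
    F ≤ G ↔ F.rank ≤ G.rank ∧ (F.coset ∩ G.coset).Nonempty := Iff.rfl

/-- The poset of cosets, with a least and a greatest face added. -/
abbrev CPos {d : ℕ} {X : Type} (S : SGen d X) := WithBot (WithTop (CFace S))

/-- The rank function of the poset of cosets. -/
def rkC {d : ℕ} {X : Type} {S : SGen d X} : CPos S → ℤ
  | ⊥ => -1
  | some ⊤ => d
  | some (some F) => (F.rank.val : ℤ)

/-- The polytope `P` with the vertex map `f` is isomorphic to the poset of cosets of `S` with the
vertex map that sends the coset containing `g` to `c + F (g y₀)`. -/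
def Match {d : ℕ} {P : Type} [PartialOrder P] (rk : P → ℤ) (f : P → E d) {X : Type} (S : SGen d X)
    (y₀ : X) (F : X → E d) : Prop :=
  ∃ (c : E d) (φ : P ≃o CPos S), (∀ x, rkC (φ x) = rk x) ∧
    ∀ (v : P) (K : CFace S), rk v = 0 → φ v = some (some K) → ∀ g ∈ K.coset, f v = c + F (g y₀)

end FO2
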