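import Pool.Agent.FO2.Stmts
import Pool.Agent.Lib_helper64.FO.Ext

/-!
# The double simplex: the string C-group and the realization
-/

namespace FO2

open Lib_helper64.FO Equiv
open scoped RealInnerProductSpace

noncomputable section

namespace E1

variable {d : ℕ}

/-- the action of a permutation and a permutation of the two colours -/
def ph (π : Perm (Fin (d + 1))) (e : Perm Bool) : Perm (Fin (d + 1) × Bool) :=
  Equiv.prodCongr π e

theorem ph_apply (π : Perm (Fin (d + 1))) (e : Perm Bool) (t : Fin (d + 1)) (b : Bool) :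
    ph π e (t, b) = (π t, e b) := rfl

theorem ph_mul (π π' : Perm (Fin (d + 1))) (e e' : Perm Bool) :
    ph π e * ph π' e' = ph (π * π') (e * e') := by
  ext1 x; rfl

theorem ph_one : ph (1 : Perm (Fin (d + 1))) 1 = 1 := by
  ext1 x; rfl

theorem ph_inv (π : Perm (Fin (d + 1))) (e : Perm Bool) : (ph π e)⁻¹ = ph π⁻¹ e⁻¹ := by
  rw [inv_eq_iff_mul_eq_one, ph_mul, mul_inv_cancel, mul_inv_cancel, ph_one]

theorem ph_inj {π π' : Perm (Fin (d + 1))} {e e' : Perm Bool} (h : ph π e = ph π' e') :
    π = π' ∧ e = e' := by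
  constructor
  · ext1 t
    have := congrArg (fun g => (g (t, false)).1) h
    exact this
  · ext1 b
    have := congrArg (fun g => (g (0, b)).2) h
    exact this

/-- the change of the colours -/
def fl (j : Fin d) : Perm Bool := if j.val = 0 then Equiv.boolNot else 1

theorem σ_eq (j : Fin d) : (S1 d).σ j = ph (Equiv.swap j.castSucc j.succ) (fl j) := rfl

theorem fl_pos {j : Fin d} (h : 1 ≤ j.val) : fl j = 1 := by
  unfold fl; rw [if_neg (by omega)]

/-- normal form of the elements of the subgroups generated by an interval of generators -/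
theorem fwd (k m : ℕ) (g : Perm (Fin (d + 1) × Bool))
    (hg : g ∈ (S1 d).par {j | k ≤ j.val ∧ j.val < m}) :
    ∃ (π : Perm (Fin (d + 1))) (e : Perm Bool), g = ph π e ∧
      (∀ t : Fin (d + 1), (t.val < k ∨ m < t.val) → π t = t) ∧ (1 ≤ k → e = 1) := by
  refine Subgroup.closure_induction (p := fun g _ => ∃ (π : Perm (Fin (d + 1))) (e : Perm Bool),
      g = ph π e ∧ (∀ t : Fin (d + 1), (t.val < k ∨ m < t.val) → π t = t) ∧ (1 ≤ k → e = 1))
      ?_ ?_ ?_ ?_ hg
  · rintro _ ⟨j, hj, rfl⟩
    have h1 : k ≤ j.val := hj.1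
    have h2 : j.val < m := hj.2
    refine ⟨_, _, σ_eq j, ?_, fun hk => fl_pos (hk.trans h1)⟩
    intro t ht
    apply Equiv.swap_apply_of_ne_of_ne
    · intro h; have := congrArg Fin.val h; simp at this; omega
    · intro h; have := congrArg Fin.val h; simp at this; omega
  · exact ⟨1, 1, ph_one.symm, fun _ _ => rfl, fun _ => rfl⟩
  · rintro x y - - ⟨π, e, rfl, h1, h2⟩ ⟨π', e', rfl, h1', h2'⟩
    refine ⟨π * π', e * e', ph_mul _ _ _ _, ?_, ?_⟩
    · intro t ht
      rw [Perm.mul_apply, h1' t ht, h1 t ht]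
    · intro hk
      rw [h2 hk, h2' hk, one_mul]
  · rintro x - ⟨π, e, rfl, h1, h2⟩
    refine ⟨π⁻¹, e⁻¹, ph_inv _ _, ?_, ?_⟩
    · intro t ht
      rw [Perm.inv_eq_iff_eq, h1 t ht]
    · intro hk
      rw [h2 hk, inv_one]

/-- the homomorphism `π ↦ ph π 1` -/
def phi : Perm (Fin (d + 1)) →* Perm (Fin (d + 1) × Bool) where
  toFun π := ph π 1
  map_one' := ph_one
  map_mul' π π' := by rw [ph_mul, one_mul]

theorem phi_apply (π : Perm (Fin (d + 1))) : phi π = ph π 1 := rfl

theorem adj_eq (j : Fin d) : adj (d + 1) j.val = Equiv.swap j.castSucc j.succ := by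
  unfold adj
  rw [dif_pos (by omega)]
  rfl

theorem bwd (hA : StmtAdj) (a b : ℕ) (h1 : 1 ≤ a) (hab : a ≤ b) (hb : b ≤ d)
    (π : Perm (Fin (d + 1))) (hπ : ∀ t : Fin (d + 1), (t.val < a ∨ b < t.val) → π t = t) :
    ph π 1 ∈ (S1 d).par {j | a ≤ j.val ∧ j.val < b} := by
  have h := hA (d + 1) a b hab (by omega) π hπ
  have h2 : Subgroup.closure (adj (d + 1) '' {j | a ≤ j ∧ j < b}) ≤
      ((S1 d).par {j | a ≤ j.val ∧ j.val < b}).comap phi := by
    rw [Subgroup.closure_le]
    rintro _ ⟨j, ⟨hj1, hj2⟩, rfl⟩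
    rw [SetLike.mem_coe, Subgroup.mem_comap, phi_apply]
    have hjd : j < d := by omega
    have e := adj_eq (⟨j, hjd⟩ : Fin d)
    change adj (d + 1) j = _ at e
    rw [e]
    have e2 : ph (Equiv.swap (⟨j, hjd⟩ : Fin d).castSucc (⟨j, hjd⟩ : Fin d).succ) 1 =
        (S1 d).σ ⟨j, hjd⟩ := by
      rw [σ_eq, fl_pos (show 1 ≤ (⟨j, hjd⟩ : Fin d).val from h1.trans hj1)]
    rw [e2]
    exact Subgroup.subset_closure ⟨⟨j, hjd⟩, ⟨hj1, hj2⟩, rfl⟩
  exact h2 h

theorem par_congr {d : ℕ} {X : Type} (S : SGen d X) {I J : Set (Fin d)} (h : I = J) :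
    S.par I = S.par J := by rw [h]

theorem par_empty {d : ℕ} {X : Type} (S : SGen d X) : S.par ∅ = ⊥ := by
  unfold SGen.par
  rw [Set.image_empty, Subgroup.closure_empty]

theorem stabCond (hA : StmtAdj) (k m : ℕ) (hm : m ≤ d) (g : Perm (Fin (d + 1) × Bool))
    (h1 : g ∈ (S1 d).par {j | k ≤ j.val ∧ j.val < m})
    (h2 : g ∈ (S1 d).par {j | k + 1 ≤ j.val}) :
    g ∈ (S1 d).par {j | k + 1 ≤ j.val ∧ j.val < m} := by
  rcases Nat.lt_or_ge k m with hk | hk
  · obtain ⟨π, e, rfl, hπ, -⟩ := fwd k m g h1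
    have h2' : ph π e ∈ (S1 d).par {j | k + 1 ≤ j.val ∧ j.val < d} := by
      rw [par_congr (S1 d) (J := {j | k + 1 ≤ j.val})]
      · exact h2
      · ext j; simp
    obtain ⟨π', e', hh, hπ', he'⟩ := fwd (k + 1) d _ h2'
    obtain ⟨rfl, rfl⟩ := ph_inj hh
    rw [he' (by omega)]
    apply bwd hA (k + 1) m (by omega) (by omega) hm
    intro t ht
    rcases ht with ht | ht
    · exact hπ' t (Or.inl ht)
    · exact hπ t (Or.inr ht)
  · have : ({j | k ≤ j.val ∧ j.val < m} : Set (Fin d)) = ∅ := by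
      ext j; simp; omega
    rw [par_congr _ this, par_empty, Subgroup.mem_bot] at h1
    rw [h1]
    exact one_mem _

theorem interAll (hI : StmtInt) (hA : StmtAdj) (n : ℕ) : ∀ k, k + n = d →
    ∀ I J : Set (Fin d), I ⊆ {j | k ≤ j.val} → J ⊆ {j | k ≤ j.val} →
      (S1 d).par I ⊓ (S1 d).par J = (S1 d).par (I ∩ J) := by
  induction n with
  | zero =>
    intro k hk I J hI' hJ'
    have h1 : I = ∅ := by
      rw [Set.eq_empty_iff_forall_notMem]
      intro j hj
      have : k ≤ j.val := hI' hj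
      omega
    rw [h1, Set.empty_inter, par_empty, bot_inf_eq]
  | succ n ih =>
    intro k hk
    exact hI d _ (S1 d) k (fun I J => ih (k + 1) (by omega) I J)
      (fun m hm g h1 h2 => stabCond hA k m hm g h1 h2)

theorem mem_all (g : Perm (Fin (d + 1) × Bool)) (hg : g ∈ (S1 d).par Set.univ) :
    ∃ (π : Perm (Fin (d + 1))) (e : Perm Bool), g = ph π e := by
  have : (S1 d).par Set.univ = (S1 d).par {j | 0 ≤ j.val ∧ j.val < d} := by
    apply par_congr; ext j; simp
  rw [this] at hg
  obtain ⟨π, e, h, -⟩ := fwd 0 d g hg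
  exact ⟨π, e, h⟩

/-- the change of the colours is in the group -/
theorem colour_mem (hd : 4 ≤ d) : ph (1 : Perm (Fin (d + 1))) Equiv.boolNot ∈
    (S1 d).par Set.univ := by
  set j0 : Fin d := ⟨0, by omega⟩ with hj0
  set j1 : Fin d := ⟨1, by omega⟩ with hj1
  have m0 : (S1 d).σ j0 ∈ (S1 d).par Set.univ := Subgroup.subset_closure ⟨j0, trivial, rfl⟩
  have m1 : (S1 d).σ j1 ∈ (S1 d).par Set.univ := Subgroup.subset_closure ⟨j1, trivial, rfl⟩
  have key : ph (1 : Perm (Fin (d + 1))) Equiv.boolNot =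
      (S1 d).σ j0 * (S1 d).σ j1 * ((S1 d).σ j0 * (S1 d).σ j1 * ((S1 d).σ j0 * (S1 d).σ j1)) := by
    have hs1 : j1.castSucc = j0.succ := by
      apply Fin.ext; simp [hj0, hj1]
    have hab : j0.castSucc ≠ j0.succ := by
      intro h; have := congrArg Fin.val h; simp at this
    have hac : j0.castSucc ≠ j1.succ := by
      intro h; have := congrArg Fin.val h; simp [hj0, hj1] at this
    have hbc : j0.succ ≠ j1.succ := by
      intro h; have := congrArg Fin.val h; simp [hj0, hj1] at this
    rw [σ_eq, σ_eq, hs1, fl_pos (show 1 ≤ j1.val from le_rfl), ph_mul, ph_mul, ph_mul]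
    have f0 : fl j0 = Equiv.boolNot := by unfold fl; rw [if_pos rfl]
    rw [f0]
    congr 1
    · generalize j0.castSucc = a at hab hac
      generalize j0.succ = b at hab hbc
      generalize j1.succ = c at hac hbc
      ext1 x
      simp only [Perm.mul_apply, Perm.one_apply]
      by_cases ha : x = a
      · subst ha
        simp [Equiv.swap_apply_def, hab, hac, hbc, hab.symm, hac.symm, hbc.symm]
      · by_cases hb : x = b
        · subst hb
          simp [Equiv.swap_apply_def, hab, hac, hbc, hab.symm, hac.symm, hbc.symm]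
        · by_cases hc : x = c
          · subst hc
            simp [Equiv.swap_apply_def, hab, hac, hbc, hab.symm, hac.symm, hbc.symm]
          · simp [Equiv.swap_apply_def, ha, hb, hc]
    · ext1 x
      cases x <;> rfl
  rw [key]
  exact mul_mem (mul_mem m0 m1) (mul_mem (mul_mem m0 m1) (mul_mem m0 m1))

theorem phi_mem (hA : StmtAdj) (hd : 4 ≤ d) (π : Perm (Fin (d + 1))) :
    ph π 1 ∈ (S1 d).par Set.univ := by
  have h := hA (d + 1) 0 d (by omega) (by omega) π (fun t ht => by omega)
  have h2 : Subgroup.closure (adj (d + 1) '' {j | 0 ≤ j ∧ j < d}) ≤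
      ((S1 d).par Set.univ).comap phi := by
    rw [Subgroup.closure_le]
    rintro _ ⟨j, ⟨hj1, hj2⟩, rfl⟩
    rw [SetLike.mem_coe, Subgroup.mem_comap, phi_apply]
    have e := adj_eq (⟨j, hj2⟩ : Fin d)
    change adj (d + 1) j = _ at e
    rw [e]
    have hm : (S1 d).σ ⟨j, hj2⟩ ∈ (S1 d).par Set.univ :=
      Subgroup.subset_closure ⟨⟨j, hj2⟩, trivial, rfl⟩
    by_cases h0 : j = 0
    · have e2 : ph (Equiv.swap (⟨j, hj2⟩ : Fin d).castSucc (⟨j, hj2⟩ : Fin d).succ) 1 =
          (S1 d).σ ⟨j, hj2⟩ * ph 1 Equiv.boolNot := by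
        have f0 : fl (⟨j, hj2⟩ : Fin d) = Equiv.boolNot := by
          unfold fl; rw [if_pos (show (⟨j, hj2⟩ : Fin d).val = 0 from h0)]
        rw [σ_eq, ph_mul, f0, mul_one]
        congr 1
        ext1 x
        cases x <;> rfl
      rw [e2]
      exact mul_mem hm (colour_mem hd)
    · have e2 : ph (Equiv.swap (⟨j, hj2⟩ : Fin d).castSucc (⟨j, hj2⟩ : Fin d).succ) 1 =
          (S1 d).σ ⟨j, hj2⟩ := by
        rw [σ_eq, fl_pos (show 1 ≤ (⟨j, hj2⟩ : Fin d).val by change 1 ≤ j; omega)]
      rw [e2]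
      exact hm
  exact h2 h

end E1

theorem ex1S (h1 : StmtInt) (h2 : StmtAdj) : StmtEx1S := by
  intro d hd
  constructor
  · intro i h
    rw [E1.σ_eq, ← E1.ph_one] at h
    have h3 := (E1.ph_inj h).1
    have h4 : Equiv.swap i.castSucc i.succ i.castSucc = i.castSucc := by rw [h3]; rfl
    rw [Equiv.swap_apply_left] at h4
    have := congrArg Fin.val h4
    simp at this
  · intro I J
    exact E1.interAll h1 h2 d 0 (by omega) I J (fun j _ => Nat.zero_le _)
      (fun j _ => Nat.zero_le _)

namespace E1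

variable {d : ℕ}

theorem inner_same {v : Fin (d + 1) → E d} (hv : IsSimplex v) (i : Fin (d + 1)) :
    ⟪v i, v i⟫ = (1 : ℝ) := by rw [hv, if_pos rfl]

theorem norm_v {v : Fin (d + 1) → E d} (hv : IsSimplex v) (i : Fin (d + 1)) : ‖v i‖ = 1 := by
  have h := inner_same hv i
  rw [real_inner_self_eq_norm_sq] at h
  nlinarith [norm_nonneg (v i), sq_nonneg (‖v i‖ - 1)]

theorem v_inj (hd : 4 ≤ d) {v : Fin (d + 1) → E d} (hv : IsSimplex v) {i j : Fin (d + 1)}
    (h : v i = v j) : i = j := by
  by_contra hij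
  have h1 := hv i j
  rw [if_neg hij, h, inner_same hv j] at h1
  have h2 : (0 : ℝ) < d := by exact_mod_cast (by omega : 0 < d)
  rw [eq_div_iff h2.ne'] at h1
  linarith

theorem isom_ph {v : Fin (d + 1) → E d} (hv : IsSimplex v) (a b : ℝ)
    (π : Perm (Fin (d + 1))) : Isom (F1 v a b) (ph π 1) := by
  obtain ⟨T, hT⟩ := exists_linearIsometry v (fun t => v (π t)) (by
    intro i j
    rw [hv, hv]
    simp [π.injective.eq_iff])
  refine ⟨T.toIsometryEquiv, ?_⟩
  rintro ⟨t, c⟩
  change T (F1 v a b (t, c)) = F1 v a b (π t, c)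
  unfold F1
  rw [map_smul, hT]

end E1

theorem ex1R (h1 : StmtAdj) (_h2 : StmtEx1S) : StmtEx1R := by
  intro d hd v a b hv ha hb hab
  set i0 : Fin d := ⟨0, by omega⟩ with hi0
  have hσpos : ∀ j : Fin d, j.val ≠ 0 →
      (S1 d).σ j = E1.ph (Equiv.swap j.castSucc j.succ) 1 := by
    intro j hj
    rw [E1.σ_eq, E1.fl_pos (by omega)]
  have hf0 : E1.fl i0 = Equiv.boolNot := by unfold E1.fl; rw [if_pos rfl]
  have hσ0 : (S1 d).σ i0 = E1.ph (Equiv.swap i0.castSucc i0.succ) Equiv.boolNot := by
    rw [E1.σ_eq, hf0]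
  have hnn : (Equiv.boolNot : Perm Bool) * 1 * Equiv.boolNot = 1 := by
    ext1 x; cases x <;> rfl
  refine ⟨i0, ?_⟩
  constructor
  · -- trans
    rintro ⟨t, ω⟩
    cases ω
    · exact ⟨_, E1.phi_mem h1 hd (Equiv.swap 0 t), by rw [E1.ph_apply, Equiv.swap_apply_left]; rfl⟩
    · refine ⟨E1.ph (Equiv.swap 0 t) 1 * E1.ph 1 Equiv.boolNot,
        mul_mem (E1.phi_mem h1 hd (Equiv.swap 0 t)) (E1.colour_mem hd), ?_⟩
      rw [E1.ph_mul, E1.ph_apply, mul_one, Equiv.swap_apply_left]
      rfl
  · -- stab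
    intro g hg h0
    obtain ⟨π, e, rfl⟩ := E1.mem_all g hg
    rw [E1.ph_apply] at h0
    have hp : π 0 = 0 := congrArg Prod.fst h0
    have he : e false = false := congrArg Prod.snd h0
    have he1 : e = 1 := by
      ext1 x
      cases x
      · exact he
      · have : e true ≠ false := by
          intro h
          have := e.injective (h.trans he.symm)
          cases this
        cases hx : e true
        · exact absurd hx this
        · rfl
    subst he1
    have := E1.bwd h1 1 d le_rfl (by omega) le_rfl π (by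
      intro t ht
      have : t = 0 := by apply Fin.ext; change t.val = 0; omega
      rw [this, hp])
    have e2 : ({j | 1 ≤ j.val ∧ j.val < d} : Set (Fin d)) = {j | j.val ≠ 0} := by
      ext j
      simp only [Set.mem_ofPred_eq]
      omega
    rw [← E1.par_congr (S1 d) e2]
    exact this
  · -- stab'
    intro j hj
    rw [hσpos j hj, E1.ph_apply]
    have : Equiv.swap j.castSucc j.succ 0 = 0 := by
      apply Equiv.swap_apply_of_ne_of_ne
      · intro h; have := congrArg Fin.val h; simp at this; omega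
      · intro h; have := congrArg Fin.val h; simp at this
    rw [this]
    rfl
  · -- inj
    rintro ⟨s, ω⟩ ⟨t, ω'⟩ h
    have hn : |if ω then b else a| = |if ω' then b else a| := by
      have := congrArg norm h
      unfold F1 at this
      rw [norm_smul, norm_smul, E1.norm_v hv, E1.norm_v hv, mul_one, mul_one,
        Real.norm_eq_abs, Real.norm_eq_abs] at this
      exact this
    have hω : ω = ω' := by
      have hsq := (sq_eq_sq_iff_abs_eq_abs _ _).2 hn
      cases ω <;> cases ω' <;> simp at hsq ⊢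
      · exact absurd hsq (by simpa using hab)
      · exact absurd hsq.symm (by simpa using hab)
    subst hω
    have hc : (if ω then b else a) ≠ 0 := by
      cases ω <;> simp [ha, hb]
    have hst : v s = v t := by
      have h3 : (if ω then b else a) • v s = (if ω then b else a) • v t := h
      exact smul_right_injective _ hc h3
    rw [E1.v_inj hd hv hst]
  · -- edge
    intro m hm g hg hc
    have e1 : ({j | m ≤ j} : Set (Fin d)) = {j | m.val ≤ j.val ∧ j.val < d} := by
      ext j
      simp only [Set.mem_ofPred_eq, Fin.le_def]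
      omega
    rw [E1.par_congr _ e1] at hg hc
    obtain ⟨π, e, rfl, hπ, he⟩ := E1.fwd _ _ _ hg
    obtain ⟨π', e', h', hπ', -⟩ := E1.fwd _ _ _ hc
    have he1 := he hm
    subst he1
    rw [E1.σ_eq, E1.ph_mul, E1.ph_mul] at h'
    obtain ⟨hπe, -⟩ := E1.ph_inj h'
    set s := Equiv.swap (prd m).castSucc (prd m).succ with hs
    have hsucc : (prd m).succ = m.castSucc := by
      apply Fin.ext; simp [prd]; omega
    have h5 : π' (prd m).castSucc = (prd m).castSucc := by
      apply hπ'
      left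
      simp [prd]; omega
    rw [← hπe, Perm.mul_apply, Perm.mul_apply, hs, Equiv.swap_apply_left, ← hs] at h5
    have h6 : π (prd m).succ = (prd m).succ := by
      have := congrArg s h5
      rw [hs, Equiv.swap_apply_self, Equiv.swap_apply_left] at this
      exact this
    have h7 := E1.bwd h1 (m.val + 1) d (by omega) (by omega) le_rfl π (by
      intro t ht
      rcases ht with ht | ht
      · rcases Nat.lt_succ_iff_lt_or_eq.1 ht with h | h
        · exact hπ t (Or.inl h)
        · have : t = (prd m).succ := by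
            rw [hsucc]; apply Fin.ext; simpa using h
          rw [this, h6]
      · omega)
    have e2 : ({j | m.val + 1 ≤ j.val ∧ j.val < d} : Set (Fin d)) = {j | m < j} := by
      ext j
      simp only [Set.mem_ofPred_eq, Fin.lt_def]
      omega
    rw [← E1.par_congr (S1 d) e2]
    exact h7
  · -- iso1
    intro j hj
    have : j.val ≠ 0 := fun h => hj (Fin.ext h)
    rw [hσpos j this]
    exact E1.isom_ph hv a b _
  · -- iso2
    intro j hj
    have : j.val ≠ 0 := fun h => hj (Fin.ext h)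
    rw [hσpos j this, hσ0, E1.ph_mul, E1.ph_mul, hnn]
    exact E1.isom_ph hv a b _
  · -- noiso
    rintro ⟨T, hT⟩
    apply hab
    have k1 := hT (i0.castSucc, false)
    have k2 := hT (i0.succ, false)
    rw [hσ0, E1.ph_apply, Equiv.swap_apply_left] at k1
    rw [hσ0, E1.ph_apply, Equiv.swap_apply_right] at k2
    have k3 : T (a • v i0.castSucc) = b • v i0.succ := k1
    have k4 : T (a • v i0.succ) = b • v i0.castSucc := k2
    have hdist : dist (a • v i0.castSucc) (a • v i0.succ) =
        dist (b • v i0.succ) (b • v i0.castSucc) := by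
      rw [← k3, ← k4, T.dist_eq]
    rw [dist_smul₀, dist_smul₀, dist_comm (v i0.succ)] at hdist
    have hne : dist (v i0.castSucc) (v i0.succ) ≠ 0 := by
      rw [dist_ne_zero]
      intro h
      have := congrArg Fin.val (E1.v_inj hd hv h)
      simp at this
    have := mul_right_cancel₀ hne hdist
    rw [Real.norm_eq_abs, Real.norm_eq_abs] at this
    exact (sq_eq_sq_iff_abs_eq_abs _ _).2 this

end

end FO2
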