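import Pool.Agent.FO2.Stmts

/-!
# The cube: string C-group and realization conditions
-/

namespace FO2

open Lib_helper64.FO
open scoped RealInnerProductSpace

noncomputable section

namespace E2

variable {d : ℕ}

/-- `g` is the signed permutation `(π, s)` -/
def Frm (g : Equiv.Perm (Fin d → ℤˣ)) (π : Equiv.Perm (Fin d)) (s : Fin d → ℤˣ) : Prop :=
  ∀ (x : Fin d → ℤˣ) (k : Fin d), g x k = s k * x (π k)

theorem Frm.one : Frm (1 : Equiv.Perm (Fin d → ℤˣ)) 1 (fun _ => 1) := by
  intro x k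
  simp

theorem Frm.mul {g g' : Equiv.Perm (Fin d → ℤˣ)} {π π' : Equiv.Perm (Fin d)} {s s' : Fin d → ℤˣ}
    (h : Frm g π s) (h' : Frm g' π' s') : Frm (g * g') (π' * π) (fun k => s k * s' (π k)) := by
  intro x k
  rw [Equiv.Perm.mul_apply, h, h', mul_assoc]
  rfl

theorem Frm.inv {g : Equiv.Perm (Fin d → ℤˣ)} {π : Equiv.Perm (Fin d)} {s : Fin d → ℤˣ}
    (h : Frm g π s) : Frm g⁻¹ π⁻¹ (fun k => s (π⁻¹ k)) := by
  intro x k
  have h1 := h (g⁻¹ x) (π⁻¹ k)
  have e1 : g (g⁻¹ x) = x := g.apply_symm_apply x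
  have e2 : π (π⁻¹ k) = k := π.apply_symm_apply k
  rw [e1, e2] at h1
  change g⁻¹ x k = s (π⁻¹ k) * x (π⁻¹ k)
  rw [h1, ← mul_assoc, Int.units_mul_self, one_mul]

theorem Frm.sgn {g : Equiv.Perm (Fin d → ℤˣ)} {π π' : Equiv.Perm (Fin d)} {s s' : Fin d → ℤˣ}
    (h : Frm g π s) (h' : Frm g π' s') : s = s' := by
  funext k
  have h1 := h (fun _ => 1) k
  have h2 := h' (fun _ => 1) k
  rw [h1] at h2
  simpa using h2

theorem Frm.prm {g : Equiv.Perm (Fin d → ℤˣ)} {π π' : Equiv.Perm (Fin d)} {s s' : Fin d → ℤˣ}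
    (h : Frm g π s) (h' : Frm g π' s') : π = π' := by
  ext1 k
  have hs := h.sgn h'
  by_contra hne
  have h1 := h (fun c => if c = π k then -1 else 1) k
  have h2 := h' (fun c => if c = π k then -1 else 1) k
  rw [h1, hs] at h2
  have h3 := mul_left_cancel h2
  rw [if_pos rfl, if_neg (fun h => hne h.symm)] at h3
  exact absurd h3 (by decide)

/-- the permutation `π` of the coordinates -/
def R (π : Equiv.Perm (Fin d)) : Equiv.Perm (Fin d → ℤˣ) where
  toFun x := fun k => x (π k)
  invFun x := fun k => x (π⁻¹ k)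
  left_inv x := by
    funext k
    simp
  right_inv x := by
    funext k
    simp

theorem Frm.R (π : Equiv.Perm (Fin d)) : Frm (R π) π (fun _ => 1) := by
  intro x k
  rw [one_mul]
  rfl

theorem Frm.eq_R {g : Equiv.Perm (Fin d → ℤˣ)} {π : Equiv.Perm (Fin d)} {s : Fin d → ℤˣ}
    (h : Frm g π s) (hs : ∀ k, s k = 1) : g = E2.R π := by
  ext1 x
  funext k
  rw [h x k, hs k, one_mul]
  rfl

theorem R_mul (π π' : Equiv.Perm (Fin d)) : R (π * π') = R π' * R π := rfl

theorem R_one : R (1 : Equiv.Perm (Fin d)) = 1 := rfl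

theorem R_inv (π : Equiv.Perm (Fin d)) : R π⁻¹ = (R π)⁻¹ := rfl

/-- the generator with number `0` -/
theorem Frm.gen0 {j : Fin d} (hj : j.val = 0) :
    Frm ((S2 d).σ j) 1 (fun k => if k = j then -1 else 1) := by
  intro x k
  change m2 j x k = _
  unfold m2
  rw [if_pos hj]
  by_cases hk : k = j
  · simp [hk]
  · simp [hk]

/-- the other generators -/
theorem Frm.gen1 {j : Fin d} (hj : j.val ≠ 0) :
    Frm ((S2 d).σ j) (Equiv.swap (prd j) j) (fun _ => 1) := by
  intro x k
  change m2 j x k = _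
  unfold m2
  rw [if_neg hj, one_mul]

theorem gen_eq_R {j : Fin d} (hj : j.val ≠ 0) : (S2 d).σ j = R (Equiv.swap (prd j) j) :=
  (Frm.gen1 hj).eq_R fun _ => rfl

/-- normal forms in the parabolic subgroups -/
theorem par_frm {k m : ℕ} {g : Equiv.Perm (Fin d → ℤˣ)}
    (hg : g ∈ (S2 d).par {j | k ≤ j.val ∧ j.val < m}) :
    ∃ π s, Frm g π s ∧ (∀ c : Fin d, c.val + 1 < k ∨ m ≤ c.val → π c = c) ∧
      (1 ≤ k → ∀ c, s c = 1) := by
  refine Subgroup.closure_induction (p := fun g _ => ∃ π s, Frm g π s ∧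
    (∀ c : Fin d, c.val + 1 < k ∨ m ≤ c.val → π c = c) ∧ (1 ≤ k → ∀ c, s c = 1)) ?_ ?_ ?_ ?_ hg
  · rintro _ ⟨j, ⟨hj1, hj2⟩, rfl⟩
    by_cases hj : j.val = 0
    · exact ⟨1, _, Frm.gen0 hj, fun _ _ => rfl, fun hk => by omega⟩
    · refine ⟨_, _, Frm.gen1 hj, ?_, fun _ _ => rfl⟩
      intro c hc
      refine Equiv.swap_apply_of_ne_of_ne ?_ ?_
      · intro h
        have := congrArg Fin.val h
        simp only [prd] at this
        omega
      · intro h
        have := congrArg Fin.val h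
        omega
  · exact ⟨1, _, Frm.one, fun _ _ => rfl, fun _ _ => rfl⟩
  · rintro g g' - - ⟨π, s, h1, h2, h3⟩ ⟨π', s', h1', h2', h3'⟩
    refine ⟨_, _, h1.mul h1', ?_, ?_⟩
    · intro c hc
      rw [Equiv.Perm.mul_apply, h2 c hc, h2' c hc]
    · intro hk c
      simp only [h3 hk, h3' hk, mul_one]
  · rintro g - ⟨π, s, h1, h2, h3⟩
    refine ⟨_, _, h1.inv, ?_, ?_⟩
    · intro c hc
      rw [Equiv.Perm.inv_eq_iff_eq]
      exact (h2 c hc).symm
    · intro hk c
      exact h3 hk _

/-- permutations of the coordinates are in the parabolic subgroups -/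
theorem R_mem (h1 : StmtAdj) {a b : ℕ} (hab : a ≤ b) (hb : b < d) {π : Equiv.Perm (Fin d)}
    (hπ : ∀ k : Fin d, (k.val < a ∨ b < k.val) → π k = k) :
    R π ∈ (S2 d).par {j | a + 1 ≤ j.val ∧ j.val < b + 1} := by
  have h2 := h1 d a b hab hb π hπ
  refine Subgroup.closure_induction (p := fun π _ =>
    R π ∈ (S2 d).par {j | a + 1 ≤ j.val ∧ j.val < b + 1}) ?_ ?_ ?_ ?_ h2
  · rintro _ ⟨j, ⟨hj1, hj2⟩, rfl⟩
    have hj : j + 1 < d := by omega
    rw [adj, dif_pos hj]
    have e : (R (Equiv.swap (⟨j, by omega⟩ : Fin d) ⟨j + 1, hj⟩)) = (S2 d).σ ⟨j + 1, hj⟩ := by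
      rw [gen_eq_R (by simp)]
      rfl
    rw [e]
    exact Subgroup.subset_closure ⟨⟨j + 1, hj⟩, ⟨by simpa using hj1, by simpa using hj2⟩, rfl⟩
  · rw [R_one]
    exact one_mem _
  · intro x y _ _ hx hy
    rw [R_mul]
    exact mul_mem hy hx
  · intro x _ hx
    rw [R_inv]
    exact inv_mem hx

theorem par_mono {I J : Set (Fin d)} (h : I ⊆ J) : (S2 d).par I ≤ (S2 d).par J :=
  Subgroup.closure_mono (Set.image_mono h)

end E2

open E2 in
theorem ex2S (h1 : StmtInt) (h2 : StmtAdj) : StmtEx2S := by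
  intro d hd
  have key : ∀ n k : ℕ, k + n = d → ∀ I J : Set (Fin d), I ⊆ {j | k ≤ j.val} →
      J ⊆ {j | k ≤ j.val} → (S2 d).par I ⊓ (S2 d).par J = (S2 d).par (I ∩ J) := by
    intro n
    induction n with
    | zero =>
      intro k hk I J hI hJ
      have eI : I = ∅ := by
        refine Set.eq_empty_of_forall_notMem fun j hj => ?_
        have : k ≤ j.val := hI hj
        have := j.2
        omega
      subst eI
      have e1 : (S2 d).par ∅ = ⊥ := by
        rw [SGen.par, Set.image_empty, Subgroup.closure_empty]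
      rw [Set.empty_inter, e1, bot_inf_eq]
    | succ n ih =>
      intro k hk
      refine h1 d _ (S2 d) k (ih (k + 1) (by omega)) ?_
      intro m hm g hg hg'
      obtain ⟨π, s, f1, f2, -⟩ := par_frm hg
      have hg2 : g ∈ (S2 d).par {j | k + 1 ≤ j.val ∧ j.val < d} :=
        par_mono (I := {j | k + 1 ≤ j.val}) (J := {j | k + 1 ≤ j.val ∧ j.val < d})
          (fun j hj => ⟨hj, j.2⟩) hg'
      obtain ⟨π', s', f1', f2', f3'⟩ := par_frm hg2
      have es := f1.sgn f1'
      have ep := f1.prm f1'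
      subst es
      subst ep
      have hs : ∀ c, s c = 1 := f3' (by omega)
      rcases lt_or_ge k m with hkm | hkm
      · rw [f1.eq_R hs]
        have h3 := R_mem h2 (a := k) (b := m - 1) (by omega) (by omega) (π := π) (by
          intro c hc
          rcases hc with hc | hc
          · exact f2' c (Or.inl (by omega))
          · exact f2 c (Or.inr (by omega)))
        refine par_mono ?_ h3
        rintro j ⟨hj1, hj2⟩
        exact ⟨hj1, by omega⟩
      · refine par_mono ?_ hg
        rintro j ⟨hj1, hj2⟩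
        exact absurd hj2 (by omega)
  refine ⟨?_, fun I J => key d 0 (by omega) I J (fun _ _ => Nat.zero_le _)
    (fun _ _ => Nat.zero_le _)⟩
  intro i hi
  by_cases h0 : i.val = 0
  · have h3 := (Frm.gen0 h0)
    rw [hi] at h3
    have h4 := congrFun (h3.sgn Frm.one) i
    simp only [if_true] at h4
    exact absurd h4 (by decide)
  · have h3 := Frm.gen1 h0
    rw [hi] at h3
    have h4 := congrArg (fun π : Equiv.Perm (Fin d) => π i) (h3.prm Frm.one)
    simp only [Equiv.swap_apply_right, Equiv.Perm.coe_one, id_eq] at h4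
    have := congrArg Fin.val h4
    simp only [prd] at this
    omega

namespace E2

variable {d : ℕ}

theorem zero_mem_univ (h1 : StmtAdj) (hd : 0 < d) (π : Equiv.Perm (Fin d)) :
    R π ∈ (S2 d).par Set.univ := by
  have h3 := R_mem h1 (a := 0) (b := d - 1) (by omega) (by omega) (π := π) (by
    intro c hc
    have := c.2
    omega)
  exact par_mono (Set.subset_univ _) h3

/-- all single flips -/
theorem flip_mem (h1 : StmtAdj) (hd : 0 < d) (c : Fin d) :
    ∃ g ∈ (S2 d).par Set.univ, Frm g 1 (fun k => if k = c then -1 else 1) := by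
  set z : Fin d := ⟨0, hd⟩ with hz
  have hz0 : z.val = 0 := rfl
  refine ⟨R (Equiv.swap z c) * (S2 d).σ z * R (Equiv.swap z c), ?_, ?_⟩
  · exact mul_mem (mul_mem (zero_mem_univ h1 hd _)
      (Subgroup.subset_closure ⟨z, Set.mem_univ _, rfl⟩)) (zero_mem_univ h1 hd _)
  · have h2 := ((Frm.R (Equiv.swap z c)).mul (Frm.gen0 hz0)).mul (Frm.R (Equiv.swap z c))
    intro x k
    rw [h2 x k]
    simp only [one_mul, mul_one, Equiv.swap_mul_self]
    have e : (Equiv.swap z c k = z) ↔ k = c := by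
      constructor
      · intro h
        have h3 := congrArg (Equiv.swap z c) h
        rwa [Equiv.swap_apply_self, Equiv.swap_apply_left] at h3
      · rintro rfl
        exact Equiv.swap_apply_right _ _
    by_cases hk : k = c
    · rw [if_pos (e.2 hk), if_pos hk]
    · rw [if_neg (fun h => hk (e.1 h)), if_neg hk]

theorem trans (h1 : StmtAdj) (hd : 0 < d) (y : Fin d → ℤˣ) :
    ∃ g ∈ (S2 d).par Set.univ, g (fun _ => 1) = y := by
  classical
  have key : ∀ A : Finset (Fin d), ∃ g ∈ (S2 d).par Set.univ,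
      g (fun _ => 1) = fun k => if k ∈ A then -1 else 1 := by
    intro A
    induction A using Finset.induction_on with
    | empty => exact ⟨1, one_mem _, by simp⟩
    | insert c A hc ih =>
      obtain ⟨g, hg, e⟩ := ih
      obtain ⟨f, hf, ef⟩ := flip_mem h1 hd c
      refine ⟨f * g, mul_mem hf hg, ?_⟩
      rw [Equiv.Perm.mul_apply, e]
      funext k
      rw [ef]
      by_cases hk : k = c
      · subst hk
        simp [hc]
      · by_cases hkA : k ∈ A <;> simp [hk, hkA]
  obtain ⟨g, hg, e⟩ := key (Finset.univ.filter fun k => y k = -1)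
  refine ⟨g, hg, ?_⟩
  rw [e]
  funext k
  rcases Int.units_eq_one_or (y k) with h | h
  · simp only [Finset.mem_filter, Finset.mem_univ, true_and, h]
    rw [if_neg (by decide)]
  · simp [h]

/-! ### the vertex map -/

variable (u : OrthonormalBasis (Fin d) ℝ (E d))

theorem inner_u_sum (l : Fin d → ℝ) (i : Fin d) : ⟪u i, ∑ k, l k • u k⟫ = l i :=
  u.orthonormal.inner_right_fintype l i

/-- the factor of the vertex `y` -/
def cf (a b : ℝ) (y : Fin d → ℤˣ) : ℝ := if par y = 1 then a else b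

theorem inner_F2 (a b : ℝ) (y : Fin d → ℤˣ) (i : Fin d) :
    ⟪u i, F2 u a b y⟫ = cf a b y * sg (y i) := by
  rw [F2, inner_smul_right, inner_u_sum]
  rfl

theorem norm_sq_eq (v : E d) : ‖v‖ ^ 2 = ∑ i, ⟪u i, v⟫ ^ 2 := by
  rw [← u.sum_sq_norm_inner_right v]
  exact Finset.sum_congr rfl fun i _ => by rw [Real.norm_eq_abs, sq_abs]

/-- the signed permutation of the basis -/
def L (π : Equiv.Perm (Fin d)) (s : Fin d → ℤˣ) : E d →ₗ[ℝ] E d where
  toFun v := ∑ k, (sg (s k) * ⟪u (π k), v⟫) • u k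
  map_add' v w := by
    rw [← Finset.sum_add_distrib]
    refine Finset.sum_congr rfl fun k _ => ?_
    rw [inner_add_right, mul_add, add_smul]
  map_smul' c v := by
    rw [RingHom.id_apply, Finset.smul_sum]
    refine Finset.sum_congr rfl fun k _ => ?_
    rw [inner_smul_right, smul_smul]
    congr 1
    ring

theorem L_apply (π : Equiv.Perm (Fin d)) (s : Fin d → ℤˣ) (v : E d) :
    L u π s v = ∑ k, (sg (s k) * ⟪u (π k), v⟫) • u k := rfl

theorem norm_L (π : Equiv.Perm (Fin d)) (s : Fin d → ℤˣ) (v : E d) : ‖L u π s v‖ = ‖v‖ := by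
  have h : ‖L u π s v‖ ^ 2 = ‖v‖ ^ 2 := by
    rw [norm_sq_eq u, norm_sq_eq u v, ← Equiv.sum_comp π (fun i => ⟪u i, v⟫ ^ 2)]
    refine Finset.sum_congr rfl fun i _ => ?_
    rw [L_apply, inner_u_sum, mul_pow]
    have : sg (s i) ^ 2 = 1 := by
      rcases Int.units_eq_one_or (s i) with h | h <;> rw [h] <;> simp [sg]
    rw [this, one_mul]
  exact (sq_eq_sq₀ (norm_nonneg _) (norm_nonneg _)).1 h

theorem isom_of_frm (a b : ℝ) {g : Equiv.Perm (Fin d → ℤˣ)} {π : Equiv.Perm (Fin d)}
    {s : Fin d → ℤˣ} (h : Frm g π s) (hs : ∏ k, s k = 1) : Isom (F2 u a b) g := by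
  let Li : E d →ₗᵢ[ℝ] E d := ⟨L u π s, norm_L u π s⟩
  refine ⟨(Li.toLinearIsometryEquiv rfl).toIsometryEquiv, ?_⟩
  intro y
  have hp : par (g y) = par y := by
    have e : g y = fun k => s k * y (π k) := funext fun k => h y k
    rw [e, par, Finset.prod_mul_distrib, hs, one_mul]
    exact Equiv.prod_comp π y
  change L u π s (F2 u a b y) = F2 u a b (g y)
  rw [L_apply]
  conv_rhs => rw [F2, hp, Finset.smul_sum]
  refine Finset.sum_congr rfl fun k _ => ?_
  rw [inner_F2, smul_smul, h y k]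
  congr 1
  have e2 : sg (s k * y (π k)) = sg (s k) * sg (y (π k)) := by simp [sg]
  rw [e2]
  unfold cf
  ring

theorem F2_inj {a b : ℝ} (hd : 0 < d) (ha : a ≠ 0) (hb : b ≠ 0) (hab : a ^ 2 ≠ b ^ 2) :
    Function.Injective (F2 u a b) := by
  intro y y' h
  have h1 : ∀ i, cf a b y * sg (y i) = cf a b y' * sg (y' i) := by
    intro i
    rw [← inner_F2 u, ← inner_F2 u, h]
  have hsq : ∀ e : ℤˣ, sg e ^ 2 = 1 := by
    intro e
    rcases Int.units_eq_one_or e with h | h <;> rw [h] <;> simp [sg]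
  have h2 : cf a b y ^ 2 = cf a b y' ^ 2 := by
    have h3 := congrArg (fun t : ℝ => t ^ 2) (h1 ⟨0, hd⟩)
    simp only [mul_pow, hsq, mul_one] at h3
    exact h3
  have h4 : cf a b y = cf a b y' := by
    unfold cf at h2 ⊢
    by_cases e1 : par y = 1 <;> by_cases e2 : par y' = 1 <;> simp only [e1, e2, if_true, if_false] at h2 ⊢
    · exact absurd h2 hab
    · exact absurd h2.symm hab
  have h5 : cf a b y' ≠ 0 := by
    unfold cf
    split_ifs
    · exact ha
    · exact hb
  funext i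
  have h6 := h1 i
  rw [h4] at h6
  have h7 := mul_left_cancel₀ h5 h6
  apply Units.ext
  have h8 : (((y i : ℤˣ) : ℤ) : ℝ) = (((y' i : ℤˣ) : ℤ) : ℝ) := h7
  exact_mod_cast h8

theorem dist_sq (a b : ℝ) (y y' : Fin d → ℤˣ) (c : ℝ) (h : cf a b y = c) (h' : cf a b y' = c) :
    dist (F2 u a b y) (F2 u a b y') ^ 2 = c ^ 2 * ∑ i, (sg (y i) - sg (y' i)) ^ 2 := by
  rw [dist_eq_norm, norm_sq_eq u, Finset.mul_sum]
  refine Finset.sum_congr rfl fun i _ => ?_
  rw [inner_sub_right, inner_F2, inner_F2, h, h']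
  ring

theorem noiso {a b : ℝ} (hd : 2 ≤ d) (hab : a ^ 2 ≠ b ^ 2) :
    ¬ Isom (F2 u a b) ((S2 d).σ ⟨0, by omega⟩) := by
  classical
  rintro ⟨T, hT⟩
  set z : Fin d := ⟨0, by omega⟩ with hz
  set o : Fin d := ⟨1, by omega⟩ with ho
  have hz0 : z.val = 0 := rfl
  have hzo : z ≠ o := by
    intro h
    have := congrArg Fin.val h
    simp [hz, ho] at this
  let w : Fin d → ℤˣ := fun k => if k = o then -1 else 1
  have hw : par w = -1 := by
    simp only [par, w]
    rw [Finset.prod_ite_eq']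
    simp
  have hone : par (fun _ : Fin d => (1 : ℤˣ)) = 1 := by simp [par]
  have p1 : cf a b (fun _ : Fin d => (1 : ℤˣ)) = a := by
    unfold cf
    rw [if_pos hone]
  have p2 : cf a b (m2 z w) = a := by
    unfold cf
    rw [par_flip z hz0, hw, neg_neg, if_pos rfl]
  have p3 : cf a b (m2 z (fun _ : Fin d => (1 : ℤˣ))) = b := by
    unfold cf
    rw [par_flip z hz0, hone, if_neg (by decide)]
  have p4 : cf a b w = b := by
    unfold cf
    rw [hw, if_neg (by decide)]
  have e1 := hT (fun _ => 1)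
  have e2 := hT (m2 z w)
  change T (F2 u a b fun _ => 1) = F2 u a b (m2 z fun _ => 1) at e1
  change T (F2 u a b (m2 z w)) = F2 u a b (m2 z (m2 z w)) at e2
  rw [m2_m2] at e2
  have e3 := T.isometry.dist_eq (F2 u a b fun _ => 1) (F2 u a b (m2 z w))
  rw [e1, e2] at e3
  have e4 := congrArg (fun t : ℝ => t ^ 2) e3
  simp only at e4
  rw [dist_sq u a b _ _ b p3 p4, dist_sq u a b _ _ a p1 p2] at e4
  have e5 : ∑ i, (sg (m2 z (fun _ => 1) i) - sg (w i)) ^ 2 =
      ∑ i, (sg ((fun _ => (1 : ℤˣ)) i) - sg (m2 z w i)) ^ 2 := by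
    refine Finset.sum_congr rfl fun i _ => ?_
    unfold m2
    rw [if_pos hz0]
    by_cases hi : i = z
    · subst hi
      rw [if_pos rfl]
      have hn : ∀ e : ℤˣ, sg (-e) = -sg e := fun e => by simp [sg]
      rw [hn, if_pos hz0, if_pos rfl, hn]
      ring
    · rw [if_neg hi, if_pos hz0, if_neg hi]
  rw [e5] at e4
  have e6 : 0 < ∑ i, (sg ((fun _ => (1 : ℤˣ)) i) - sg (m2 z w i)) ^ 2 := by
    refine Finset.sum_pos' (fun i _ => sq_nonneg _) ⟨z, Finset.mem_univ _, ?_⟩
    have e7 : m2 z w z = -1 := by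
      unfold m2
      rw [if_pos hz0, if_pos rfl]
      simp only [w]
      rw [if_neg hzo]
    rw [e7]
    norm_num [sg]
  exact hab (mul_right_cancel₀ e6.ne' e4).symm

end E2

open E2 in
theorem ex2R (h1 : StmtAdj) (_h2 : StmtEx2S) : StmtEx2R := by
  classical
  intro d hd u a b ha hb hab
  have hd0 : 0 < d := by omega
  set z : Fin d := ⟨0, hd0⟩ with hz
  have hz0 : z.val = 0 := rfl
  have hne : ∀ j : Fin d, j ≠ z → j.val ≠ 0 := by
    intro j hj h
    exact hj (Fin.ext h)
  have univ_frm : ∀ (k : ℕ) (I : Set (Fin d)), I ⊆ {j | k ≤ j.val} → ∀ g ∈ (S2 d).par I,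
      ∃ π s, Frm g π s ∧ (∀ c : Fin d, c.val + 1 < k → π c = c) ∧ (1 ≤ k → ∀ c, s c = 1) := by
    intro k I hI g hg
    obtain ⟨π, s, f1, f2, f3⟩ := par_frm (k := k) (m := d)
      (par_mono (J := {j | k ≤ j.val ∧ j.val < d}) (fun j hj => ⟨hI hj, j.2⟩) hg)
    exact ⟨π, s, f1, fun c hc => f2 c (Or.inl hc), f3⟩
  have Rm : ∀ (a : ℕ), a < d → ∀ π : Equiv.Perm (Fin d), (∀ c : Fin d, c.val < a → π c = c) →
      R π ∈ (S2 d).par {j | a + 1 ≤ j.val ∧ j.val < d - 1 + 1} := by
    intro a ha π hπ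
    refine R_mem h1 (a := a) (b := d - 1) (by omega) (by omega) ?_
    intro c hc
    rcases hc with hc | hc
    · exact hπ c hc
    · have := c.2
      omega
  refine ⟨z, ?_⟩
  refine
    { trans := trans h1 hd0
      stab := ?_
      stab' := ?_
      inj := F2_inj u hd0 ha hb hab
      edge := ?_
      iso1 := ?_
      iso2 := ?_
      noiso := noiso u (by omega) hab }
  · intro g hg h
    obtain ⟨π, s, f1, -, -⟩ := univ_frm 0 _ (fun _ _ => Nat.zero_le _) g hg
    have hs : ∀ k, s k = 1 := by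
      intro k
      have h3 := f1 (fun _ => 1) k
      rw [h, mul_one] at h3
      exact h3.symm
    rw [f1.eq_R hs]
    refine par_mono ?_ (Rm 0 hd0 π (fun c hc => absurd hc (Nat.not_lt_zero _)))
    rintro j ⟨hj, -⟩
    have hj' : 0 + 1 ≤ j.val := hj
    change j.val ≠ 0
    omega
  · intro j hj
    funext k
    rw [Frm.gen1 hj]
    simp
  · intro m hm g hg hg'
    obtain ⟨π, s, f1, f2, f3⟩ := univ_frm m.val _ (fun j hj => hj) g hg
    obtain ⟨π', s', f1', f2', f3'⟩ := univ_frm m.val _ (fun j hj => hj) _ hg'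
    have hs := f3 hm
    have hs' := f3' hm
    have fin : (∀ c : Fin d, c.val < m.val → π c = c) → g ∈ (S2 d).par {j | m < j} := by
      intro hfix
      rw [f1.eq_R hs]
      refine par_mono ?_ (Rm m.val m.2 π hfix)
      rintro j ⟨hj, -⟩
      have hj' : m.val + 1 ≤ j.val := hj
      change m.val < j.val
      omega
    by_cases hm1 : m.val = 1
    · have hp : (prd m).val = 0 := by
        simp only [prd]
        omega
      have h3 := ((Frm.gen0 hp).mul f1).mul (Frm.gen0 hp)
      have h4 := congrFun (h3.sgn f1') (prd m)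
      simp only [hs, hs', Equiv.Perm.coe_one, id_eq, mul_one, if_true] at h4
      refine fin ?_
      intro c hc
      have hc' : c = prd m := by
        apply Fin.ext
        omega
      rw [hc']
      by_contra hcon
      rw [if_neg hcon] at h4
      exact absurd h4 (by decide)
    · have hp : (prd m).val ≠ 0 := by
        simp only [prd]
        omega
      have h3 := ((Frm.gen1 hp).mul f1).mul (Frm.gen1 hp)
      have h4 := h3.prm f1'
      refine fin ?_
      intro c hc
      rcases (show c.val + 1 < m.val ∨ c.val + 1 = m.val by omega) with hc1 | hc1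
      · exact f2 c hc1
      · have hc' : c = prd m := by
          apply Fin.ext
          simp only [prd]
          omega
        have h5 := f2' (prd (prd m)) (by simp only [prd]; omega)
        rw [← h4, Equiv.Perm.mul_apply, Equiv.Perm.mul_apply, Equiv.swap_apply_left] at h5
        have h6 := congrArg (Equiv.swap (prd (prd m)) (prd m)) h5
        rw [Equiv.swap_apply_self, Equiv.swap_apply_left] at h6
        rw [hc', h6]
  · intro j hj
    exact isom_of_frm u a b (Frm.gen1 (hne j hj)) (by simp)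
  · intro j hj
    refine isom_of_frm u a b (((Frm.gen0 hz0).mul (Frm.gen1 (hne j hj))).mul (Frm.gen0 hz0)) ?_
    rw [Finset.prod_mul_distrib]
    have e1 : ∏ k : Fin d, (if k = z then (-1 : ℤˣ) else 1) = -1 := by
      rw [Finset.prod_ite_eq']
      simp
    have e2 : ∏ k : Fin d, (if (Equiv.swap (prd j) j * 1) k = z then (-1 : ℤˣ) else 1) = -1 := by
      rw [Equiv.prod_comp (Equiv.swap (prd j) j * 1) (fun k => if k = z then (-1 : ℤˣ) else 1), e1]
    simp only [mul_one] at e2 ⊢
    rw [e1, e2]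
    decide

end

end FO2
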