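import Pool.Agent.FO2.Stmts

/-!
# The double cross-polytope exists

`ex3S`: the generators `S3 d` are different from `1` and have the intersection property.
`ex3R`: the vertex map `F3` satisfies the conditions `RealC` with `i0 = 0`.
-/

namespace FO2

open Lib_helper64.FO
open scoped RealInnerProductSpace

namespace E3

variable {d : ℕ}

/-- the permutation `g` of the points `(k, a, w)` permutes the coordinates `k` by `π`, multiplies the
sign by `e k` and adds `s` to the third entry -/
def Act (g : Equiv.Perm (Fin d × ℤˣ × Bool)) (π : Equiv.Perm (Fin d)) (e : Fin d → ℤˣ) (s : Bool) :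
    Prop :=
  ∀ k a w, g (k, a, w) = (π k, e k * a, xor w s)

theorem Act.mul {g g' : Equiv.Perm (Fin d × ℤˣ × Bool)} {π π' : Equiv.Perm (Fin d)}
    {e e' : Fin d → ℤˣ} {s s' : Bool} (h : Act g π e s) (h' : Act g' π' e' s') :
    Act (g * g') (π * π') (fun k => e (π' k) * e' k) (xor s' s) := by
  intro k a w
  rw [Equiv.Perm.mul_apply, h', h, Equiv.Perm.mul_apply, mul_assoc, Bool.xor_assoc]

theorem Act.inv {g : Equiv.Perm (Fin d × ℤˣ × Bool)} {π : Equiv.Perm (Fin d)}
    {e : Fin d → ℤˣ} {s : Bool} (h : Act g π e s) :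
    Act g⁻¹ π⁻¹ (fun k => (e (π⁻¹ k))⁻¹) s := by
  intro k a w
  have h1 : π (π⁻¹ k) = k := Equiv.apply_symm_apply π k
  rw [Equiv.Perm.inv_eq_iff_eq, h, h1, mul_inv_cancel_left, Bool.xor_assoc,
    Bool.xor_self, Bool.xor_false]

theorem Act.one : Act (1 : Equiv.Perm (Fin d × ℤˣ × Bool)) 1 1 false := by
  intro k a w
  simp

theorem Act.unique {g g' : Equiv.Perm (Fin d × ℤˣ × Bool)} {π : Equiv.Perm (Fin d)}
    {e : Fin d → ℤˣ} {s : Bool} (h : Act g π e s) (h' : Act g' π e s) : g = g' := by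
  ext1 ⟨k, a, w⟩
  rw [h, h']

theorem act_lt (j : Fin d) (h : j.val + 1 < d) :
    Act ((S3 d).σ j) (Equiv.swap j ⟨j.val + 1, h⟩) 1 (decide (j.val = 0)) := by
  intro k a w
  change m3 j (k, a, w) = _
  rw [m3, dif_pos h]
  by_cases h0 : j.val = 0
  · rw [decide_eq_true h0]; simp [h0]
  · rw [decide_eq_false h0]; simp [h0]

theorem act_last (j : Fin d) (h : ¬ j.val + 1 < d) :
    Act ((S3 d).σ j) 1 (fun k => if k = j then -1 else 1) false := by
  intro k a w
  change m3 j (k, a, w) = _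
  by_cases h0 : k = j
  · simp [m3, h, h0]
  · simp [m3, h, h0]

/-- every element of the group has the above form -/
theorem act_par {I : Set (Fin d)} {g : Equiv.Perm (Fin d × ℤˣ × Bool)} (hg : g ∈ (S3 d).par I) :
    ∃ π e s, Act g π e s := by
  refine Subgroup.closure_induction (p := fun g _ => ∃ π e s, Act g π e s) ?_ ?_ ?_ ?_ hg
  · rintro _ ⟨j, -, rfl⟩
    by_cases h : j.val + 1 < d
    · exact ⟨_, _, _, act_lt j h⟩
    · exact ⟨_, _, _, act_last j h⟩
  · exact ⟨_, _, _, Act.one⟩
  · rintro p q - - ⟨π, e, s, h⟩ ⟨π', e', s', h'⟩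
    exact ⟨_, _, _, h.mul h'⟩
  · rintro p - ⟨π, e, s, h⟩
    exact ⟨_, _, _, h.inv⟩

/-- the generators `j ≥ n`, `n ≥ 1`, fix all points `(i, a, w)` with `i < n` -/
theorem fix_par {n : ℕ} (_hn : 1 ≤ n) {I : Set (Fin d)} (hI : ∀ j ∈ I, n ≤ j.val)
    {g : Equiv.Perm (Fin d × ℤˣ × Bool)} (hg : g ∈ (S3 d).par I) (i : Fin d) (hi : i.val < n)
    (a : ℤˣ) (w : Bool) : g (i, a, w) = (i, a, w) := by
  refine Subgroup.closure_induction (p := fun g _ => g (i, a, w) = (i, a, w)) ?_ ?_ ?_ ?_ hg
  · rintro _ ⟨j, hj, rfl⟩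
    have hj' := hI j hj
    by_cases h : j.val + 1 < d
    · rw [act_lt j h]
      have h1 : i ≠ j := by rw [Ne, Fin.ext_iff]; omega
      have h2 : i ≠ ⟨j.val + 1, h⟩ := by rw [Ne, Fin.ext_iff]; dsimp only; omega
      have h3 : ¬ j.val = 0 := by omega
      rw [Equiv.swap_apply_of_ne_of_ne h1 h2]
      simp [h3]
    · rw [act_last j h]
      have h1 : i ≠ j := by rw [Ne, Fin.ext_iff]; omega
      simp [h1]
  · rfl
  · intro p q _ _ hp hq
    rw [Equiv.Perm.mul_apply, hq, hp]
  · intro p _ hp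
    rw [Equiv.Perm.inv_eq_iff_eq, hp]

/-- the permutations of the coordinates -/
def io : Equiv.Perm (Fin d) →* Equiv.Perm (Fin d × ℤˣ × Bool) where
  toFun π := Equiv.prodCongr π (Equiv.refl _)
  map_one' := by ext1 ⟨k, a, w⟩; rfl
  map_mul' p q := by ext1 ⟨k, a, w⟩; rfl

theorem io_act (π : Equiv.Perm (Fin d)) : Act (io π) π 1 false := by
  intro k a w
  simp [io]

/-- the changes of signs -/
def dg : (Fin d → ℤˣ) →* Equiv.Perm (Fin d × ℤˣ × Bool) where
  toFun e :=
    { toFun := fun y => (y.1, e y.1 * y.2.1, y.2.2)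
      invFun := fun y => (y.1, (e y.1)⁻¹ * y.2.1, y.2.2)
      left_inv := by
        rintro ⟨k, a, w⟩
        change (k, (e k)⁻¹ * (e k * a), w) = (k, a, w)
        rw [inv_mul_cancel_left]
      right_inv := by
        rintro ⟨k, a, w⟩
        change (k, e k * ((e k)⁻¹ * a), w) = (k, a, w)
        rw [mul_inv_cancel_left] }
  map_one' := by ext1 ⟨k, a, w⟩; simp
  map_mul' p q := by ext1 ⟨k, a, w⟩; simp [mul_assoc]

theorem dg_act (e : Fin d → ℤˣ) : Act (dg e) 1 e false := by
  intro k a w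
  simp [dg]

theorem io_adj (j : ℕ) (h0 : 1 ≤ j) (h : j + 1 < d) :
    io (adj d j) = (S3 d).σ ⟨j, by omega⟩ := by
  have h1 := act_lt (d := d) ⟨j, by omega⟩ h
  have h2 := io_act (adj d j)
  have h3 : adj d j = Equiv.swap ⟨j, by omega⟩ ⟨j + 1, h⟩ := by
    rw [adj, dif_pos h]
  rw [h3] at h2 ⊢
  refine h2.unique ?_
  have h4 : decide (j = 0) = false := by
    rw [decide_eq_false_iff_not]; omega
  simpa [h4] using h1

theorem io_mem {a b : ℕ} (h0 : 1 ≤ a) (hb : b < d) {I : Set (Fin d)}
    (hI : ∀ j : Fin d, a ≤ j.val → j.val < b → j ∈ I) {π : Equiv.Perm (Fin d)}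
    (hπ : π ∈ Subgroup.closure (adj d '' {j | a ≤ j ∧ j < b})) : io π ∈ (S3 d).par I := by
  have h : Subgroup.closure (adj d '' {j | a ≤ j ∧ j < b}) ≤ ((S3 d).par I).comap io := by
    rw [Subgroup.closure_le]
    rintro _ ⟨j, ⟨h1, h2⟩, rfl⟩
    rw [SetLike.mem_coe, Subgroup.mem_comap, io_adj j (by omega) (by omega)]
    exact Subgroup.subset_closure ⟨_, hI _ h1 h2, rfl⟩
  exact h hπ

/-- permutations of the coordinates `≥ n` belong to the subgroup of the generators `j ≥ n` -/
theorem io_mem' (hA : StmtAdj) {n : ℕ} (hn : 1 ≤ n) {π : Equiv.Perm (Fin d)}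
    (hπ : ∀ k : Fin d, k.val < n → π k = k) : io π ∈ (S3 d).par {j | n ≤ j.val} := by
  by_cases hd : n < d
  · refine io_mem (a := n) (b := d - 1) hn (by omega) (fun j h _ => h) ?_
    refine hA d n (d - 1) (by omega) (by omega) π ?_
    intro k hk
    refine hπ k ?_
    have := k.isLt
    omega
  · have : π = 1 := by
      ext1 k
      rw [hπ k (by have := k.isLt; omega)]
      rfl
    rw [this, map_one]
    exact one_mem _

theorem dg_last (hd : 0 < d) : dg (Pi.mulSingle (⟨d - 1, by omega⟩ : Fin d) (-1 : ℤˣ)) =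
    (S3 d).σ ⟨d - 1, by omega⟩ := by
  have h1 := act_last (d := d) ⟨d - 1, by omega⟩ (by dsimp only; omega)
  refine (dg_act _).unique ?_
  convert h1 using 1
  funext k
  by_cases hk : k = ⟨d - 1, by omega⟩
  · subst hk; simp
  · rw [Pi.mulSingle_eq_of_ne hk, if_neg hk]

theorem io_dg (π : Equiv.Perm (Fin d)) (e : Fin d → ℤˣ) :
    io π * dg e * io π⁻¹ = dg (fun k => e (π⁻¹ k)) := by
  have h := ((io_act π).mul (dg_act e)).mul (io_act π⁻¹)
  refine h.unique ?_
  have h2 := dg_act (fun k => e (π⁻¹ k))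
  intro k a w
  rw [h2]
  simp

/-- changes of the signs of the coordinates `≥ n` belong to the subgroup of the generators
`j ≥ n` -/
theorem dg_mem (hA : StmtAdj) {n : ℕ} (hn : 1 ≤ n) {e : Fin d → ℤˣ}
    (he : ∀ k : Fin d, k.val < n → e k = 1) : dg e ∈ (S3 d).par {j | n ≤ j.val} := by
  have key : ∀ (k : Fin d) (s : ℤˣ), n ≤ k.val →
      dg (Pi.mulSingle k s) ∈ (S3 d).par {j | n ≤ j.val} := by
    intro k s hk
    have hd : 0 < d := lt_of_le_of_lt (Nat.zero_le _) k.isLt
    rcases Int.units_eq_one_or s with rfl | rfl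
    · rw [Pi.mulSingle_one, map_one]
      exact one_mem _
    · have hkd : k.val < d := k.isLt
      have h1 : dg (Pi.mulSingle (⟨d - 1, by omega⟩ : Fin d) (-1 : ℤˣ)) ∈
          (S3 d).par {j | n ≤ j.val} := by
        rw [dg_last hd]
        refine Subgroup.subset_closure ⟨_, ?_, rfl⟩
        change n ≤ d - 1
        omega
      have h2 : io (Equiv.swap k ⟨d - 1, by omega⟩) ∈ (S3 d).par {j | n ≤ j.val} := by
        refine io_mem' hA hn ?_
        intro i hi
        refine Equiv.swap_apply_of_ne_of_ne ?_ ?_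
        · rw [Ne, Fin.ext_iff]; omega
        · rw [Ne, Fin.ext_iff]; dsimp only; omega
      have h3 := io_dg (Equiv.swap k ⟨d - 1, by omega⟩)
        (Pi.mulSingle (⟨d - 1, by omega⟩ : Fin d) (-1 : ℤˣ))
      have h4 : (fun i => (Pi.mulSingle (⟨d - 1, by omega⟩ : Fin d) (-1 : ℤˣ) : Fin d → ℤˣ)
          ((Equiv.swap k ⟨d - 1, by omega⟩)⁻¹ i)) = Pi.mulSingle k (-1 : ℤˣ) := by
        funext i
        rw [Equiv.swap_inv]
        by_cases hi : i = k
        · subst hi
          rw [Equiv.swap_apply_left, Pi.mulSingle_eq_same, Pi.mulSingle_eq_same]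
        · rw [Pi.mulSingle_eq_of_ne hi]
          refine Pi.mulSingle_eq_of_ne ?_ _
          intro h5
          apply hi
          rw [← Equiv.swap_apply_self k ⟨d - 1, by omega⟩ i, h5, Equiv.swap_apply_right]
      rw [h4] at h3
      rw [← h3, map_inv]
      exact mul_mem (mul_mem h2 h1) (inv_mem h2)
  have h : e ∈ ((S3 d).par {j | n ≤ j.val}).comap dg := by
    rw [← Finset.univ_prod_mulSingle e]
    refine Subgroup.prod_mem _ ?_
    intro k _
    rw [Subgroup.mem_comap]
    by_cases hk : n ≤ k.val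
    · exact key k _ hk
    · rw [he k (by omega), Pi.mulSingle_one, map_one]
      exact one_mem _
  exact h

/-- signed permutations of the coordinates `≥ n` -/
theorem act_mem (hA : StmtAdj) {n : ℕ} (hn : 1 ≤ n) {g : Equiv.Perm (Fin d × ℤˣ × Bool)}
    {π : Equiv.Perm (Fin d)} {e : Fin d → ℤˣ} (h : Act g π e false)
    (hπ : ∀ k : Fin d, k.val < n → π k = k) (he : ∀ k : Fin d, k.val < n → e k = 1) :
    g ∈ (S3 d).par {j | n ≤ j.val} := by
  have h1 : g = io π * dg e := by
    refine h.unique ?_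
    have h2 := (io_act π).mul (dg_act e)
    intro k a w
    rw [h2]
    simp
  rw [h1]
  exact mul_mem (io_mem' hA hn hπ) (dg_mem hA hn he)

/-- the elements of the group that fix the points `(k, 1, false)` with `k < n` -/
theorem mem_of_fix (hA : StmtAdj) {n : ℕ} (hn : 1 ≤ n) {I : Set (Fin d)} (hd : 0 < d)
    {g : Equiv.Perm (Fin d × ℤˣ × Bool)} (hg : g ∈ (S3 d).par I)
    (hfix : ∀ k : Fin d, k.val < n → g (k, 1, false) = (k, 1, false)) :
    g ∈ (S3 d).par {j | n ≤ j.val} := by
  obtain ⟨π, e, s, h⟩ := act_par hg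
  have h0 := hfix ⟨0, hd⟩ (by dsimp only; omega)
  rw [h] at h0
  have hs : s = false := by simpa using (Prod.ext_iff.1 (Prod.ext_iff.1 h0).2).2
  subst hs
  refine act_mem hA hn h ?_ ?_
  · intro k hk
    have := hfix k hk
    rw [h] at this
    exact (Prod.ext_iff.1 this).1
  · intro k hk
    have := hfix k hk
    rw [h] at this
    have := (Prod.ext_iff.1 (Prod.ext_iff.1 this).2).1
    simpa using this

/-- the elements of the subgroup generated by the generators `j` with `k ≤ j < m`, `m < d` -/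
theorem act_mid {k m : ℕ} (hm : m < d) {g : Equiv.Perm (Fin d × ℤˣ × Bool)}
    (hg : g ∈ (S3 d).par {j | k ≤ j.val ∧ j.val < m}) :
    ∃ π s, Act g π 1 s ∧ ∀ i : Fin d, (i.val < k ∨ m < i.val) → π i = i := by
  refine Subgroup.closure_induction
    (p := fun g _ => ∃ π s, Act g π 1 s ∧ ∀ i : Fin d, (i.val < k ∨ m < i.val) → π i = i)
    ?_ ?_ ?_ ?_ hg
  · rintro _ ⟨j, ⟨h1, h2⟩, rfl⟩
    refine ⟨_, _, act_lt j (by omega), ?_⟩
    intro i hi
    refine Equiv.swap_apply_of_ne_of_ne ?_ ?_
    · rw [Ne, Fin.ext_iff]; omega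
    · rw [Ne, Fin.ext_iff]; dsimp only; omega
  · exact ⟨1, false, Act.one, fun _ _ => rfl⟩
  · rintro p q - - ⟨π, s, h, hf⟩ ⟨π', s', h', hf'⟩
    refine ⟨π * π', xor s' s, ?_, ?_⟩
    · have h5 := h.mul h'
      have h6 : (fun k => (1 : Fin d → ℤˣ) (π' k) * (1 : Fin d → ℤˣ) k) = 1 := by
        funext k
        simp
      rwa [h6] at h5
    · intro i hi
      rw [Equiv.Perm.mul_apply, hf' i hi, hf i hi]
  · rintro p - ⟨π, s, h, hf⟩
    refine ⟨π⁻¹, s, ?_, ?_⟩
    · have h5 := h.inv
      have h6 : (fun k => ((1 : Fin d → ℤˣ) (π⁻¹ k))⁻¹) = 1 := by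
        funext k
        simp
      rwa [h6] at h5
    · intro i hi
      rw [Equiv.Perm.inv_eq_iff_eq, hf i hi]

theorem cond (hA : StmtAdj) (k : ℕ) (hk : k < d) (m : ℕ) (_hm : m ≤ d)
    (g : Equiv.Perm (Fin d × ℤˣ × Bool)) (hg : g ∈ (S3 d).par {j | k ≤ j.val ∧ j.val < m})
    (hg' : g ∈ (S3 d).par {j | k + 1 ≤ j.val}) :
    g ∈ (S3 d).par {j | k + 1 ≤ j.val ∧ j.val < m} := by
  rcases Nat.lt_or_ge m d with hmd | hmd
  · obtain ⟨π, s, h, hf⟩ := act_mid hmd hg
    have hfix := fix_par (n := k + 1) (by omega) (I := {j | k + 1 ≤ j.val}) (fun j hj => hj) hg'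
      ⟨k, hk⟩ (by dsimp only; omega) 1 false
    rw [h] at hfix
    have hs : s = false := by simpa using (Prod.ext_iff.1 (Prod.ext_iff.1 hfix).2).2
    have hπ : π ⟨k, hk⟩ = ⟨k, hk⟩ := (Prod.ext_iff.1 hfix).1
    subst hs
    have hg1 : g = io π := h.unique (io_act π)
    rcases Nat.lt_or_ge k m with hkm | hkm
    · rw [hg1]
      refine io_mem (a := k + 1) (b := m) (I := {j | k + 1 ≤ j.val ∧ j.val < m}) (by omega) hmd
        (fun j h1 h2 => ⟨h1, h2⟩) ?_
      refine hA d (k + 1) m (by omega) hmd π ?_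
      intro i hi
      by_cases hik : i.val = k
      · have : i = ⟨k, hk⟩ := Fin.ext hik
        rw [this, hπ]
      · exact hf i (by omega)
    · have h1 : ({j : Fin d | k ≤ j.val ∧ j.val < m} : Set (Fin d)) ⊆ ∅ := by
        intro j hj
        have h2 : k ≤ j.val ∧ j.val < m := hj
        omega
      have h2 : ({j : Fin d | k ≤ j.val ∧ j.val < m} : Set (Fin d)) ⊆
          {j | k + 1 ≤ j.val ∧ j.val < m} := h1.trans (Set.empty_subset _)
      exact Subgroup.closure_mono (Set.image_mono h2) hg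
  · have h1 : ({j : Fin d | k + 1 ≤ j.val} : Set (Fin d)) ⊆
        {j | k + 1 ≤ j.val ∧ j.val < m} := by
      intro j hj
      exact ⟨hj, lt_of_lt_of_le j.isLt hmd⟩
    exact Subgroup.closure_mono (Set.image_mono h1) hg'

theorem inter_ge (hI : StmtInt) (hA : StmtAdj) (n : ℕ) : ∀ k : ℕ, k + n = d →
    ∀ I J : Set (Fin d), I ⊆ {j | k ≤ j.val} → J ⊆ {j | k ≤ j.val} →
      (S3 d).par I ⊓ (S3 d).par J = (S3 d).par (I ∩ J) := by
  induction n with
  | zero =>
    intro k hk I J hI' hJ'
    have h1 : I = ∅ := by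
      rw [Set.eq_empty_iff_forall_notMem]
      intro j hj
      have h2 : k ≤ j.val := hI' hj
      have := j.isLt
      omega
    have h2 : J = ∅ := by
      rw [Set.eq_empty_iff_forall_notMem]
      intro j hj
      have h2 : k ≤ j.val := hJ' hj
      have := j.isLt
      omega
    subst h1 h2
    rw [Set.inter_self, inf_idem]
  | succ n ih =>
    intro k hk
    exact hI d _ (S3 d) k (ih (k + 1) (by omega)) (cond hA k (by omega))

end E3

theorem ex3S (h1 : StmtInt) (h2 : StmtAdj) : StmtEx3S := by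
  intro d hd
  refine ⟨?_, ?_⟩
  · intro j hj
    by_cases h : j.val + 1 < d
    · have h3 := E3.act_lt j h j 1 false
      rw [hj, Equiv.Perm.one_apply, Equiv.swap_apply_left] at h3
      have h4 := congrArg Fin.val (Prod.ext_iff.1 h3).1
      dsimp only at h4
      omega
    · have h3 := E3.act_last j h j 1 false
      rw [hj, Equiv.Perm.one_apply] at h3
      have h4 := (Prod.ext_iff.1 (Prod.ext_iff.1 h3).2).1
      simp at h4
  · intro I J
    exact E3.inter_ge h1 h2 d 0 (by omega) I J (fun _ _ => Nat.zero_le _) (fun _ _ => Nat.zero_le _)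

namespace E3

variable {d : ℕ}

/-! ### the realization -/

theorem sg_one : sg 1 = 1 := by simp [sg]
theorem sg_mul (a b : ℤˣ) : sg (a * b) = sg a * sg b := by simp [sg]
theorem sg_neg (a : ℤˣ) : sg (-a) = -sg a := by simp [sg]
theorem sg_sq (a : ℤˣ) : sg a ^ 2 = 1 := by
  rcases Int.units_eq_one_or a with rfl | rfl <;> simp [sg]

theorem sg_inj {a b : ℤˣ} (h : sg a = sg b) : a = b := by
  rcases Int.units_eq_one_or a with rfl | rfl <;> rcases Int.units_eq_one_or b with rfl | rfl
  · rfl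
  · simp [sg] at h; norm_num at h
  · simp [sg] at h; norm_num at h
  · rfl

/-- change of signs of the coordinates -/
noncomputable def sgn (u : OrthonormalBasis (Fin d) ℝ (E d)) (e : Fin d → ℤˣ) :
    E d ≃ₗᵢ[ℝ] E d :=
  (u.repr.trans (LinearIsometryEquiv.piLpCongrRight 2
    (fun k => if e k = 1 then LinearIsometryEquiv.refl ℝ ℝ else LinearIsometryEquiv.neg ℝ))).trans
    u.repr.symm

theorem sgn_apply (u : OrthonormalBasis (Fin d) ℝ (E d)) (e : Fin d → ℤˣ) (k : Fin d) :
    sgn u e (u k) = sg (e k) • u k := by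
  apply u.repr.injective
  rw [map_smul]
  ext i
  simp only [sgn, LinearIsometryEquiv.trans_apply, LinearIsometryEquiv.apply_symm_apply,
    OrthonormalBasis.repr_self, LinearIsometryEquiv.piLpCongrRight_apply]
  rcases Int.units_eq_one_or (e k) with h | h
  · by_cases hik : i = k
    · subst hik; simp [h, sg]
    · by_cases h' : e i = 1 <;> simp [h, h', hik, sg]
  · by_cases hik : i = k
    · subst hik; simp [h, sg]
    · by_cases h' : e i = 1 <;> simp [h, h', hik, sg]

/-- signed permutations are isometries -/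
theorem isom (u : OrthonormalBasis (Fin d) ℝ (E d)) (a b : ℝ)
    {g : Equiv.Perm (Fin d × ℤˣ × Bool)} {π : Equiv.Perm (Fin d)} {e : Fin d → ℤˣ}
    (h : Act g π e false) : Isom (F3 u a b) g := by
  refine ⟨((sgn u e).trans (u.equiv u π)).toIsometryEquiv, ?_⟩
  rintro ⟨k, s, w⟩
  rw [h]
  change (u.equiv u π) (sgn u e (((if w then b else a) * sg s) • u k)) =
    ((if (xor w false) then b else a) * sg (e k * s)) • u (π k)
  rw [map_smul, sgn_apply, map_smul, map_smul, OrthonormalBasis.equiv_apply_basis, smul_smul,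
    sg_mul, Bool.xor_false]
  congr 1
  ring

end E3

theorem ex3R (h1 : StmtAdj) (_h2 : StmtEx3S) : StmtEx3R := by
  intro d hd u a b ha hb hab
  have h0d : 0 < d := by omega
  refine ⟨⟨0, h0d⟩, ?_⟩
  have hval : ∀ j : Fin d, j ≠ ⟨0, h0d⟩ → j.val ≠ 0 := by
    intro j hj h
    exact hj (Fin.ext h)
  -- the form of the generators without a change of the third entry
  have hact : ∀ j : Fin d, j ≠ ⟨0, h0d⟩ → ∃ π e, E3.Act ((S3 d).σ j) π e false := by
    intro j hj
    by_cases h : j.val + 1 < d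
    · have h3 := E3.act_lt j h
      have h4 : decide (j.val = 0) = false := by
        rw [decide_eq_false_iff_not]; exact hval j hj
      rw [h4] at h3
      exact ⟨_, _, h3⟩
    · exact ⟨_, _, E3.act_last j h⟩
  have hσ0 : E3.Act ((S3 d).σ ⟨0, h0d⟩)
      (Equiv.swap ⟨0, h0d⟩ ⟨0 + 1, by omega⟩) 1 true := by
    have h3 := E3.act_lt (d := d) ⟨0, h0d⟩ (by dsimp only; omega)
    simpa using h3
  refine ⟨?_, ?_, ?_, ?_, ?_, ?_, ?_, ?_⟩
  · -- transitivity
    have step : ∀ (j : Fin d) (y : Fin d × ℤˣ × Bool),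
        (∃ g ∈ (S3 d).par Set.univ, g (⟨0, h0d⟩, 1, false) = y) →
        ∃ g ∈ (S3 d).par Set.univ, g (⟨0, h0d⟩, 1, false) = (S3 d).σ j y := by
      rintro j y ⟨g, hg, rfl⟩
      exact ⟨(S3 d).σ j * g, mul_mem (Subgroup.subset_closure ⟨j, Set.mem_univ _, rfl⟩) hg, rfl⟩
    set R : (Fin d × ℤˣ × Bool) → Prop :=
      fun y => ∃ g ∈ (S3 d).par Set.univ, g (⟨0, h0d⟩, 1, false) = y with hR
    have s0 : ∀ (k : Fin d) (s : ℤˣ) (w : Bool), R (k, s, w) →
        R (Equiv.swap ⟨0, h0d⟩ ⟨0 + 1, by omega⟩ k, s, !w) := by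
      intro k s w h
      have := step ⟨0, h0d⟩ _ h
      rw [hσ0] at this
      simpa using this
    have sj : ∀ (j : ℕ) (h1 : 1 ≤ j) (h : j + 1 < d) (k : Fin d) (s : ℤˣ) (w : Bool),
        R (k, s, w) → R (Equiv.swap ⟨j, by omega⟩ ⟨j + 1, h⟩ k, s, w) := by
      intro j h1 h k s w hr
      have := step ⟨j, by omega⟩ _ hr
      rw [E3.act_lt (d := d) ⟨j, by omega⟩ h] at this
      have h4 : decide (j = 0) = false := by
        rw [decide_eq_false_iff_not]; omega
      simpa [h4] using this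
    have sl : ∀ (s : ℤˣ) (w : Bool), R (⟨d - 1, by omega⟩, s, w) →
        R (⟨d - 1, by omega⟩, -s, w) := by
      intro s w hr
      have := step ⟨d - 1, by omega⟩ _ hr
      rw [E3.act_last (d := d) ⟨d - 1, by omega⟩ (by dsimp only; omega)] at this
      simpa using this
    have up : ∀ (s : ℤˣ) (w : Bool), R (⟨1, by omega⟩, s, w) → ∀ (k : ℕ) (h1 : 1 ≤ k) (h : k < d),
        R (⟨k, h⟩, s, w) := by
      intro s w hr k h1
      induction k, h1 using Nat.le_induction with
      | base => intro _; exact hr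
      | succ k hk ih =>
        intro h
        have := sj k hk h _ s w (ih (by omega))
        rwa [Equiv.swap_apply_left] at this
    have dn : ∀ (s : ℤˣ) (w : Bool) (k : ℕ) (h1 : 1 ≤ k) (h : k < d),
        R (⟨k, h⟩, s, w) → R (⟨1, by omega⟩, s, w) := by
      intro s w k h1
      induction k, h1 using Nat.le_induction with
      | base => intro _ hr; exact hr
      | succ k hk ih =>
        intro h hr
        have := sj k hk h _ s w hr
        rw [Equiv.swap_apply_right] at this
        exact ih (by omega) this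
    have r0 : R (⟨0, h0d⟩, 1, false) := ⟨1, one_mem _, rfl⟩
    have r1 : R (⟨1, by omega⟩, 1, true) := by
      have := s0 _ _ _ r0
      rwa [Equiv.swap_apply_left] at this
    have flip : ∀ (s : ℤˣ) (w : Bool), R (⟨1, by omega⟩, s, w) → R (⟨1, by omega⟩, s, !w) := by
      intro s w hr
      have h3 := s0 _ _ _ (up s w hr 2 (by omega) (by omega))
      rw [Equiv.swap_apply_of_ne_of_ne (by rw [Ne, Fin.ext_iff]; dsimp only; omega)
        (by rw [Ne, Fin.ext_iff]; dsimp only; omega)] at h3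
      exact dn s _ 2 (by omega) (by omega) h3
    have neg : ∀ (s : ℤˣ) (w : Bool), R (⟨1, by omega⟩, s, w) → R (⟨1, by omega⟩, -s, w) := by
      intro s w hr
      exact dn _ _ (d - 1) (by omega) (by omega) (sl _ _ (up s w hr (d - 1) (by omega) (by omega)))
    have all1 : ∀ (s : ℤˣ) (w : Bool), R (⟨1, by omega⟩, s, w) := by
      intro s w
      have h5 : ∀ w, R (⟨1, by omega⟩, 1, w) := by
        intro w
        cases w
        · exact flip _ _ r1
        · exact r1
      rcases Int.units_eq_one_or s with rfl | rfl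
      · exact h5 w
      · exact neg _ _ (h5 w)
    rintro ⟨⟨k, hk⟩, s, w⟩
    change R _
    rcases Nat.eq_zero_or_pos k with h | h
    · subst h
      have := s0 _ _ _ (all1 s (!w))
      have h6 : Equiv.swap (⟨0, h0d⟩ : Fin d) ⟨0 + 1, by omega⟩ ⟨1, by omega⟩ = ⟨0, h0d⟩ :=
        Equiv.swap_apply_right _ _
      rw [h6, Bool.not_not] at this
      exact this
    · exact up s w (all1 s w) k h hk
  · -- stabiliser
    intro g hg hfix
    have h3 : ({j : Fin d | j.val ≠ 0} : Set (Fin d)) = {j | 1 ≤ j.val} := by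
      ext j
      exact Nat.one_le_iff_ne_zero.symm
    rw [h3]
    refine E3.mem_of_fix h1 le_rfl h0d hg ?_
    intro k hk
    have : k = ⟨0, h0d⟩ := Fin.ext (by dsimp only; omega)
    rw [this, hfix]
  · intro j hj
    exact E3.fix_par (n := 1) le_rfl (I := {j | 1 ≤ j.val}) (fun j hj => hj)
      (Subgroup.subset_closure ⟨j, Nat.one_le_iff_ne_zero.2 hj, rfl⟩) _ (by dsimp only; omega) _ _
  · -- injectivity
    rintro ⟨k, s, w⟩ ⟨k', s', w'⟩ h
    change ((if w then b else a) * sg s) • u k = ((if w' then b else a) * sg s') • u k' at h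
    have hc : ∀ w : Bool, (if w then b else a) ≠ 0 := by
      intro w; cases w <;> simpa
    have hsg : ∀ s : ℤˣ, sg s ≠ 0 := by
      intro s h
      have := E3.sg_sq s
      rw [h] at this
      norm_num at this
    have hk : k = k' := by
      by_contra hk
      have h3 := congrArg (fun v => ⟪u k, v⟫) h
      simp only [inner_smul_right, u.inner_eq_ite, hk, if_true, if_false, mul_one, mul_zero] at h3
      exact mul_ne_zero (hc w) (hsg s) h3
    subst hk
    have h3 := congrArg (fun v => ⟪u k, v⟫) h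
    simp only [inner_smul_right, u.inner_eq_ite, if_true, mul_one] at h3
    have hw : w = w' := by
      have h4 := congrArg (fun t : ℝ => t ^ 2) h3
      simp only [mul_pow, E3.sg_sq, mul_one] at h4
      cases w <;> cases w'
      · rfl
      · exact absurd h4 (by simpa using hab)
      · exact absurd h4.symm (by simpa using hab)
      · rfl
    subst hw
    have h5 := mul_left_cancel₀ (hc w) h3
    rw [E3.sg_inj h5]
  · -- edges
    intro m hm g hg hg'
    have hm' := m.isLt
    have h3 : ({j : Fin d | m < j} : Set (Fin d)) = {j | m.val + 1 ≤ j.val} := by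
      ext j
      exact Fin.lt_def.trans Nat.succ_le_iff.symm
    rw [h3]
    refine E3.mem_of_fix h1 (by omega) h0d hg ?_
    intro k hk
    rcases Nat.lt_or_ge k.val m.val with h | h
    · exact E3.fix_par hm (fun j (hj : m ≤ j) => hj) hg k h _ _
    · have hkm : k = m := Fin.ext (by omega)
      subst hkm
      have h4 := E3.act_lt (prd k) (by change k.val - 1 + 1 < d; omega)
      have h5 : (Equiv.swap (prd k) ⟨(prd k).val + 1, by change k.val - 1 + 1 < d; omega⟩) (prd k) =
          k := by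
        rw [Equiv.swap_apply_left]
        exact Fin.ext (by change k.val - 1 + 1 = k.val; omega)
      set c := decide ((prd k).val = 0) with hc
      have h6 := E3.fix_par hm (fun j (hj : k ≤ j) => hj) hg' (prd k)
        (by change k.val - 1 < k.val; omega) 1 c
      have h7 : (S3 d).σ (prd k) (prd k, 1, c) = (k, 1, false) := by
        rw [h4, h5]
        simp
      rw [Equiv.Perm.mul_apply, Equiv.Perm.mul_apply, h7] at h6
      have h8 := congrArg ((S3 d).σ (prd k)) h6
      rw [h7, ← Equiv.Perm.mul_apply, (S3 d).sq, Equiv.Perm.one_apply] at h8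
      exact h8
  · intro j hj
    obtain ⟨π, e, h⟩ := hact j hj
    exact E3.isom u a b h
  · intro j hj
    obtain ⟨π, e, h⟩ := hact j hj
    exact E3.isom u a b ((hσ0.mul h).mul hσ0)
  · -- no isometry
    rintro ⟨T, hT⟩
    have hneg : ∀ (k : Fin d) (s : ℤˣ) (w : Bool), F3 u a b (k, -s, w) = -F3 u a b (k, s, w) := by
      intro k s w
      change ((if w then b else a) * sg (-s)) • u k = -(((if w then b else a) * sg s) • u k)
      rw [E3.sg_neg, mul_neg, neg_smul]
    have hT0 : T 0 = 0 := by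
      have h3 : midpoint ℝ (F3 u a b (⟨0, h0d⟩, 1, false)) (F3 u a b (⟨0, h0d⟩, -1, false)) =
          0 := by
        rw [hneg, midpoint_self_neg]
      have h4 := T.map_midpoint (F3 u a b (⟨0, h0d⟩, 1, false)) (F3 u a b (⟨0, h0d⟩, -1, false))
      rw [h3, hT, hT, hσ0, hσ0] at h4
      simp only [Pi.one_apply, one_mul] at h4
      rw [h4, hneg, midpoint_self_neg]
    have h5 : ‖F3 u a b ((S3 d).σ ⟨0, h0d⟩ (⟨0, h0d⟩, 1, false))‖ =
        ‖F3 u a b (⟨0, h0d⟩, 1, false)‖ := by
      rw [← hT, ← dist_zero_right, ← dist_zero_right]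
      conv_lhs => rw [← hT0]
      exact T.isometry.dist_eq _ _
    rw [hσ0] at h5
    have hnorm : ∀ (k : Fin d) (w : Bool), ‖F3 u a b (k, 1, w)‖ = |if w then b else a| := by
      intro k w
      change ‖((if w then b else a) * sg 1) • u k‖ = _
      rw [E3.sg_one, mul_one, norm_smul, u.norm_eq_one, mul_one, Real.norm_eq_abs]
    simp only [Pi.one_apply, one_mul] at h5
    rw [hnorm, hnorm] at h5
    simp only [Bool.false_xor, if_true, Bool.false_eq_true, if_false] at h5
    exact hab ((sq_eq_sq_iff_abs_eq_abs _ _).2 h5.symm)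

end FO2
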