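import Pool.Agent.FO2.Stmts

/-!
# Modules E4S and E4R: the polytope of type `{4, 6, 3, …, 3}`
-/

namespace FO2

open Lib_helper64.FO
open scoped RealInnerProductSpace

noncomputable section

namespace E4

/-- permutations of the coordinates -/
def P (d : ℕ) : Equiv.Perm (Fin d) →* Equiv.Perm (Fin d → ℤˣ) where
  toFun π := ⟨fun x k => x (π.symm k), fun x k => x (π k), fun x => by funext k; simp,
    fun x => by funext k; simp⟩
  map_one' := by ext1 x; rfl
  map_mul' π ρ := by ext1 x; rfl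

/-- sign changes -/
def s (d : ℕ) : (Fin d → ℤˣ) →* Equiv.Perm (Fin d → ℤˣ) where
  toFun z := ⟨fun x k => z k * x k, fun x k => z k * x k,
    fun x => by funext k; simp only [← mul_assoc, ← sq, Int.units_sq, one_mul],
    fun x => by funext k; simp only [← mul_assoc, ← sq, Int.units_sq, one_mul]⟩
  map_one' := by ext1 x; funext k; simp
  map_mul' z w := by ext1 x; funext k; simp [mul_assoc]

/-- the power of a sign -/
def pw (ε t : ℤˣ) : ℤˣ := if ε = 1 then 1 else t

theorem pw_one (t : ℤˣ) : pw 1 t = 1 := by simp [pw]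

theorem pw_mul (ε ε' t : ℤˣ) : pw (ε * ε') t = pw ε t * pw ε' t := by
  revert ε ε' t
  decide

theorem pw_mul' (ε t t' : ℤˣ) : pw ε (t * t') = pw ε t * pw ε t' := by
  revert ε t t'
  decide

theorem pw_sq (ε t : ℤˣ) : pw ε t * pw ε t = 1 := by
  rw [← sq, Int.units_sq]

theorem pw_neg_one (ε : ℤˣ) : pw ε (-1) = ε := by
  revert ε
  decide

variable {d : ℕ}

theorem par_perm (π : Equiv.Perm (Fin d)) (x : Fin d → ℤˣ) : par (fun k => x (π.symm k)) = par x :=
  Equiv.prod_comp π.symm x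

theorem par_mulf (z x : Fin d → ℤˣ) : par (fun k => z k * x k) = par z * par x := by
  simp [par, Finset.prod_mul_distrib]

/-- the map `x ↦ par x * x` and the identity -/
def cc (hd : Even d) : ℤˣ →* Equiv.Perm (Fin d → ℤˣ) where
  toFun ε := ⟨fun x k => pw ε (par x) * x k, fun x k => pw ε (par x) * x k,
    fun x => by
      funext k
      simp only [par_mul_const hd, ← mul_assoc, pw_sq, one_mul],
    fun x => by
      funext k
      simp only [par_mul_const hd, ← mul_assoc, pw_sq, one_mul]⟩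
  map_one' := by
    ext1 x
    funext k
    simp [pw_one]
  map_mul' ε ε' := by
    ext1 x
    funext k
    change pw (ε * ε') (par x) * x k =
      pw ε (par fun k => pw ε' (par x) * x k) * (pw ε' (par x) * x k)
    rw [par_mul_const hd, pw_mul, mul_assoc]

theorem cc_P (hd : Even d) (ε : ℤˣ) (π : Equiv.Perm (Fin d)) :
    P d π * cc hd ε = cc hd ε * P d π := by
  ext1 x
  funext k
  change pw ε (par x) * x (π.symm k) = pw ε (par fun k => x (π.symm k)) * x (π.symm k)
  rw [par_perm]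

/-- the group of the maps `c ^ i * P π` -/
def Th (hd : Even d) : ℤˣ × Equiv.Perm (Fin d) →* Equiv.Perm (Fin d → ℤˣ) where
  toFun t := cc hd t.1 * P d t.2
  map_one' := by simp
  map_mul' t u := by
    simp only [Prod.fst_mul, Prod.snd_mul, map_mul]
    calc cc hd t.1 * cc hd u.1 * (P d t.2 * P d u.2)
        = cc hd t.1 * (cc hd u.1 * P d t.2) * P d u.2 := by group
      _ = cc hd t.1 * (P d t.2 * cc hd u.1) * P d u.2 := by rw [cc_P]
      _ = cc hd t.1 * P d t.2 * (cc hd u.1 * P d u.2) := by group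

theorem Th_apply (hd : Even d) (t : ℤˣ × Equiv.Perm (Fin d)) (x : Fin d → ℤˣ) (k : Fin d) :
    Th hd t x k = pw t.1 (par x) * x (t.2.symm k) := by
  change pw t.1 (par fun k => x (t.2.symm k)) * x (t.2.symm k) = _
  rw [par_perm]

theorem s_apply (z x : Fin d → ℤˣ) (k : Fin d) : s d z x k = z k * x k := rfl

theorem Th_s (hd : Even d) (t : ℤˣ × Equiv.Perm (Fin d)) (z : Fin d → ℤˣ) :
    Th hd t * s d z = s d (fun k => pw t.1 (par z) * z (t.2.symm k)) * Th hd t := by
  ext1 x
  funext k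
  rw [Equiv.Perm.mul_apply, Equiv.Perm.mul_apply, Th_apply, s_apply, s_apply, Th_apply]
  have : par (s d z x) = par z * par x := par_mulf z x
  rw [this, pw_mul']
  ac_rfl

/-- the sign vector with one minus sign -/
def flp (j : Fin d) : Fin d → ℤˣ := fun k => if k = j then -1 else 1

theorem par_flp (j : Fin d) : par (flp j) = -1 := by
  simp [par, flp]

theorem Th_flp (hd : Even d) (t : ℤˣ × Equiv.Perm (Fin d)) (j k : Fin d) :
    Th hd t (flp j) k = t.1 * flp (t.2 j) k := by
  rw [Th_apply, par_flp, pw_neg_one]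
  have : t.2.symm k = j ↔ k = t.2 j := by
    rw [Equiv.symm_apply_eq]
  simp [flp, this]

theorem flp_eq (h3 : 3 ≤ d) {ε : ℤˣ} {i j : Fin d} (h : ∀ k, ε * flp i k = flp j k) :
    ε = 1 ∧ i = j := by
  have h1 : ε = 1 := by
    obtain ⟨k, hk⟩ : ∃ k : Fin d, k ∉ ({i, j} : Finset (Fin d)) := by
      by_contra hcon
      push Not at hcon
      have := Finset.card_le_card (fun k _ => hcon k : (Finset.univ : Finset (Fin d)) ⊆ {i, j})
      have h2 := Finset.card_le_two (a := i) (b := j)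
      rw [Finset.card_univ, Fintype.card_fin] at this
      omega
    simp only [Finset.mem_insert, Finset.mem_singleton, not_or] at hk
    have := h k
    simpa [flp, hk.1, hk.2] using this
  refine ⟨h1, ?_⟩
  have := h j
  rw [h1, one_mul] at this
  by_contra hne
  have hne' : j ≠ i := fun e => hne e.symm
  simp only [flp, if_neg hne'] at this
  exact absurd this (by decide)

theorem Th_inj (hd : Even d) (h3 : 3 ≤ d) : Function.Injective (Th hd) := by
  rw [injective_iff_map_eq_one]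
  intro t ht
  have h : ∀ j, t.1 = 1 ∧ t.2 j = j := by
    intro j
    apply flp_eq h3
    intro k
    rw [← Th_flp hd, ht]
    rfl
  exact Prod.ext (h ⟨0, by omega⟩).1 (Equiv.ext fun j => (h j).2)

theorem Th_one (hd : Even d) (π : Equiv.Perm (Fin d)) : Th hd (1, π) = P d π := by
  change cc hd 1 * P d π = P d π
  rw [map_one, one_mul]

/-- the pair of a generator -/
def tj (j : Fin d) : ℤˣ × Equiv.Perm (Fin d) := (if j.val = 1 then -1 else 1, Equiv.swap (prd j) j)

theorem σ_eq (hd : Even d) (j : Fin d) (h : j.val ≠ 0) : (S4 d hd).σ j = Th hd (tj j) := by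
  ext1 x
  funext k
  rw [Th_apply]
  change m4 j x k = _
  by_cases h1 : j.val = 1
  · simp [m4, m2, h1, tj, pw]
  · simp [m4, m2, h1, h, tj, pw]

theorem σ0_eq (hd : Even d) (j : Fin d) (h : j.val = 0) : (S4 d hd).σ j = s d (flp j) := by
  ext1 x
  funext k
  rw [s_apply]
  change m4 j x k = _
  by_cases h1 : k = j <;> simp [m4, m2, h, flp, h1]

/-- the permutations which fix the points outside `[a, b]` -/
def fixS (d a b : ℕ) : Subgroup (Equiv.Perm (Fin d)) where
  carrier := {π | ∀ k : Fin d, (k.val < a ∨ b < k.val) → π k = k}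
  mul_mem' := by
    intro π ρ h1 h2 k hk
    rw [Equiv.Perm.mul_apply, h2 k hk, h1 k hk]
  one_mem' := fun k _ => rfl
  inv_mem' := by
    intro π h k hk
    rw [Equiv.Perm.inv_eq_iff_eq, h k hk]

theorem mem_fixS {a b : ℕ} {π : Equiv.Perm (Fin d)} :
    π ∈ fixS d a b ↔ ∀ k : Fin d, (k.val < a ∨ b < k.val) → π k = k := Iff.rfl

theorem swap_mem (j : Fin d) {a b : ℕ} (h1 : a ≤ j.val - 1) (h2 : j.val ≤ b) :
    Equiv.swap (prd j) j ∈ fixS d a b := by
  intro k hk
  apply Equiv.swap_apply_of_ne_of_ne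
  · intro h
    have := congrArg Fin.val h
    simp only [prd] at this
    omega
  · intro h
    have := congrArg Fin.val h
    omega

/-- normal form of the elements of the parabolic subgroups -/
theorem par_le (hd : Even d) (k m : ℕ) (hk : 1 ≤ k) (Q : Subgroup ℤˣ) (hQ : k = 1 → Q = ⊤) :
    (S4 d hd).par {j | k ≤ j.val ∧ j.val < m} ≤ (Q.prod (fixS d (k - 1) (m - 1))).map (Th hd) := by
  rw [SGen.par, Subgroup.closure_le]
  rintro _ ⟨j, hj, rfl⟩
  obtain ⟨h1, h2⟩ := hj
  rw [σ_eq hd j (by omega)]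
  refine ⟨tj j, ?_, rfl⟩
  refine Subgroup.mem_prod.2 ⟨?_, ?_⟩
  · by_cases h : j.val = 1
    · rw [hQ (by omega)]
      exact Subgroup.mem_top _
    · simp only [tj, if_neg h]
      exact one_mem _
  · exact swap_mem j (by omega) (by omega)

theorem par_le' (hd : Even d) (k : ℕ) (hk : 1 ≤ k) (Q : Subgroup ℤˣ) (hQ : k = 1 → Q = ⊤) :
    (S4 d hd).par {j | k ≤ j.val} ≤ (Q.prod (fixS d (k - 1) (d - 1))).map (Th hd) := by
  have e : {j : Fin d | k ≤ j.val} = {j : Fin d | k ≤ j.val ∧ j.val < d} := by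
    ext j
    exact ⟨fun h => ⟨h, j.2⟩, fun h => h.1⟩
  rw [e]
  exact par_le hd k d hk Q hQ

/-- permutations of `[k, m - 1]`, `k ≥ 1`, belong to the parabolic subgroup -/
theorem mem_par (h2 : StmtAdj) (hd : Even d) {k m : ℕ} (hk : 1 ≤ k) (hkm : k < m) (hm : m ≤ d)
    {π : Equiv.Perm (Fin d)} (hπ : π ∈ fixS d k (m - 1)) :
    Th hd (1, π) ∈ (S4 d hd).par {j | k + 1 ≤ j.val ∧ j.val < m} := by
  have h := h2 d k (m - 1) (by omega) (by omega) π hπ
  have hle : Subgroup.closure (adj d '' {j | k ≤ j ∧ j < m - 1}) ≤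
      ((S4 d hd).par {j | k + 1 ≤ j.val ∧ j.val < m}).comap
        ((Th hd).comp (MonoidHom.inr ℤˣ (Equiv.Perm (Fin d)))) := by
    rw [Subgroup.closure_le]
    rintro _ ⟨j, ⟨hj1, hj2⟩, rfl⟩
    have hjd : j + 1 < d := by omega
    change Th hd (1, adj d j) ∈ (S4 d hd).par {j | k + 1 ≤ j.val ∧ j.val < m}
    have e : Th hd (1, adj d j) = (S4 d hd).σ ⟨j + 1, hjd⟩ := by
      rw [σ_eq hd _ (by simp)]
      congr 1
      have hj0 : j ≠ 0 := by omega
      simp [tj, adj, hjd, prd, hj0]
    rw [e]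
    exact Subgroup.subset_closure ⟨_, ⟨by simpa using hj1, by simp; omega⟩, rfl⟩
  exact hle h

theorem fix_one (hd : Even d) {g : Equiv.Perm (Fin d → ℤˣ)}
    (hg : g ∈ (S4 d hd).par {j | 1 ≤ j.val}) : g (fun _ => 1) = fun _ => 1 := by
  have h := par_le' hd 1 le_rfl ⊤ (fun _ => rfl) hg
  obtain ⟨t, -, rfl⟩ := h
  funext k
  rw [Th_apply]
  have : par (fun _ : Fin d => (1 : ℤˣ)) = 1 := by simp [par]
  rw [this]
  simp [pw]

/-- the parabolic subgroup `[0, m)` is contained in the product of the sign changes and the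
parabolic subgroup `[1, m)` -/
theorem semidirect (hd : Even d) (m : ℕ) {g : Equiv.Perm (Fin d → ℤˣ)}
    (hg : g ∈ (S4 d hd).par {j | j.val < m}) :
    ∃ z, ∃ h ∈ (S4 d hd).par {j | 1 ≤ j.val ∧ j.val < m}, g = s d z * h := by
  have hcomm : ∀ h ∈ (S4 d hd).par {j | 1 ≤ j.val ∧ j.val < m}, ∀ z, ∃ w,
      h * s d z = s d w * h := by
    intro h hh z
    obtain ⟨t, -, rfl⟩ := par_le hd 1 m le_rfl ⊤ (fun _ => rfl) hh
    exact ⟨_, Th_s hd t z⟩
  refine Subgroup.closure_induction (p := fun g _ => ∃ z,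
    ∃ h ∈ (S4 d hd).par {j | 1 ≤ j.val ∧ j.val < m}, g = s d z * h) ?_ ?_ ?_ ?_ hg
  · rintro _ ⟨j, hj, rfl⟩
    by_cases h0 : j.val = 0
    · exact ⟨flp j, 1, one_mem _, by rw [mul_one, σ0_eq hd j h0]⟩
    · exact ⟨1, (S4 d hd).σ j, Subgroup.subset_closure ⟨j, ⟨by omega, hj⟩, rfl⟩, by simp⟩
  · exact ⟨1, 1, one_mem _, by simp⟩
  · rintro _ _ - - ⟨z, h, hh, rfl⟩ ⟨z', h', hh', rfl⟩
    obtain ⟨w, hw⟩ := hcomm h hh z'
    refine ⟨z * w, h * h', mul_mem hh hh', ?_⟩
    rw [map_mul]
    calc s d z * h * (s d z' * h') = s d z * (h * s d z') * h' := by group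
      _ = s d z * (s d w * h) * h' := by rw [hw]
      _ = s d z * s d w * (h * h') := by group
  · rintro _ - ⟨z, h, hh, rfl⟩
    obtain ⟨w, hw⟩ := hcomm h⁻¹ (inv_mem hh) z⁻¹
    refine ⟨w, h⁻¹, inv_mem hh, ?_⟩
    rw [mul_inv_rev, ← map_inv, hw]

theorem mem_of_fix (hd : Even d) (m : ℕ) {g : Equiv.Perm (Fin d → ℤˣ)}
    (hg : g ∈ (S4 d hd).par {j | j.val < m}) (h1 : g (fun _ => 1) = fun _ => 1) :
    g ∈ (S4 d hd).par {j | 1 ≤ j.val ∧ j.val < m} := by
  obtain ⟨z, h, hh, rfl⟩ := semidirect hd m hg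
  have hf : h (fun _ => 1) = fun _ => 1 := by
    apply fix_one hd
    refine (Subgroup.closure_mono (Set.image_mono ?_)) hh
    exact fun j hj => hj.1
  have hz : z = 1 := by
    funext k
    have := congrFun h1 k
    rw [Equiv.Perm.mul_apply, hf, s_apply, mul_one] at this
    exact this
  rw [hz, map_one, one_mul]
  exact hh

theorem stepc (h2 : StmtAdj) (hd : Even d) (h4 : 4 ≤ d) (k m : ℕ) (hm : m ≤ d)
    (g : Equiv.Perm (Fin d → ℤˣ)) (hg : g ∈ (S4 d hd).par {j | k ≤ j.val ∧ j.val < m})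
    (hg' : g ∈ (S4 d hd).par {j | k + 1 ≤ j.val}) :
    g ∈ (S4 d hd).par {j | k + 1 ≤ j.val ∧ j.val < m} := by
  rcases Nat.eq_zero_or_pos k with rfl | hk
  · apply mem_of_fix hd m
    · simpa using hg
    · exact fix_one hd (by simpa using hg')
  · by_cases hkm : k < m
    · obtain ⟨t, ht, rfl⟩ := par_le hd k m hk ⊤ (fun _ => rfl) hg
      obtain ⟨u, hu, hut⟩ := par_le' hd (k + 1) (by omega) ⊥ (fun h => absurd h (by omega)) hg'
      have e := Th_inj hd (by omega) hut
      subst e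
      obtain ⟨hu1, hu2⟩ := Subgroup.mem_prod.1 hu
      obtain ⟨-, ht2⟩ := Subgroup.mem_prod.1 ht
      have e : u = (1, u.2) := Prod.ext (Subgroup.mem_bot.1 hu1) rfl
      rw [e]
      refine mem_par h2 hd hk hkm hm ?_
      intro l hl
      rcases hl with hl | hl
      · exact hu2 l (Or.inl (by omega))
      · exact ht2 l (Or.inr hl)
    · have : {j : Fin d | k ≤ j.val ∧ j.val < m} = ∅ := by
        ext j
        simp only [Set.mem_ofPred_eq, Set.mem_empty_iff_false, iff_false, not_and, not_lt]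
        omega
      rw [this, SGen.par, Set.image_empty, Subgroup.closure_empty, Subgroup.mem_bot] at hg
      rw [hg]
      exact one_mem _

theorem inter (h1 : StmtInt) (h2 : StmtAdj) (hd : Even d) (h4 : 4 ≤ d) (n : ℕ) :
    ∀ k, k + n = d → ∀ I J : Set (Fin d), I ⊆ {j | k ≤ j.val} → J ⊆ {j | k ≤ j.val} →
      (S4 d hd).par I ⊓ (S4 d hd).par J = (S4 d hd).par (I ∩ J) := by
  induction n with
  | zero =>
    intro k hk I J hI hJ
    have e : ∀ K : Set (Fin d), K ⊆ {j | k ≤ j.val} → K = ∅ := by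
      intro K hK
      ext j
      simp only [Set.mem_empty_iff_false, iff_false]
      intro hj
      have := hK hj
      have h3 := j.2
      simp only [Set.mem_ofPred_eq] at this
      omega
    rw [e I hI, e J hJ]
    simp
  | succ n ih =>
    intro k hk
    refine h1 d _ (S4 d hd) k (ih (k + 1) (by omega)) ?_
    intro m hm g hg hg'
    exact stepc h2 hd h4 k m hm g hg hg'

theorem ne_one (hd : Even d) (h4 : 4 ≤ d) (i : Fin d) : (S4 d hd).σ i ≠ 1 := by
  intro h
  by_cases h0 : i.val = 0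
  · rw [σ0_eq hd i h0] at h
    have := congrArg (fun g : Equiv.Perm (Fin d → ℤˣ) => g (fun _ => 1) i) h
    simp only [s_apply, mul_one, Equiv.Perm.one_apply, flp, if_true] at this
    exact absurd this (by decide)
  · rw [σ_eq hd i h0] at h
    have h1 := Th_inj hd (by omega) (h.trans (map_one _).symm)
    have h2 := congrArg (fun t => t.2 i) h1
    simp only [tj, Equiv.swap_apply_right, Prod.snd_one, Equiv.Perm.one_apply] at h2
    have := congrArg Fin.val h2
    simp only [prd] at this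
    omega

/-! ### the realization -/

/-- `c` belongs to the parabolic subgroup of `1, 2` -/
theorem c_mem (hd : Even d) (h4 : 4 ≤ d) :
    Th hd (-1, 1) ∈ (S4 d hd).par {j | 1 ≤ j.val ∧ j.val < d} := by
  have h1 : Th hd (tj ⟨1, by omega⟩) ∈ (S4 d hd).par {j | 1 ≤ j.val ∧ j.val < d} := by
    rw [← σ_eq hd _ (by simp)]
    exact Subgroup.subset_closure ⟨_, ⟨by simp, by simp; omega⟩, rfl⟩
  have h2 : Th hd (tj ⟨2, by omega⟩) ∈ (S4 d hd).par {j | 1 ≤ j.val ∧ j.val < d} := by
    rw [← σ_eq hd _ (by simp)]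
    exact Subgroup.subset_closure ⟨_, ⟨by simp, by simp; omega⟩, rfl⟩
  have h3 := pow_mem (mul_mem h1 h2) 3
  rw [← map_mul, ← map_pow] at h3
  have e : (tj (d := d) ⟨1, by omega⟩ * tj ⟨2, by omega⟩) ^ 3 = (-1, 1) := by
    refine Prod.ext ?_ ?_
    · simp [tj]
      decide
    · simp only [tj, Prod.pow_snd, Prod.snd_mul]
      have e1 : prd (d := d) ⟨1, by omega⟩ = ⟨0, by omega⟩ := rfl
      have e2 : prd (d := d) ⟨2, by omega⟩ = ⟨1, by omega⟩ := rfl
      rw [e1, e2]
      have h := Equiv.Perm.isThreeCycle_swap_mul_swap_same (a := (⟨1, by omega⟩ : Fin d))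
        (b := ⟨0, by omega⟩) (c := ⟨2, by omega⟩) (by simp) (by simp) (by simp)
      rw [Equiv.swap_comm (⟨1, by omega⟩ : Fin d) ⟨0, by omega⟩] at h
      rw [← h.orderOf]
      exact pow_orderOf_eq_one _
  rwa [e] at h3

/-- all the maps `Th t` belong to the stabiliser of the base vertex -/
theorem Th_mem (h2 : StmtAdj) (hd : Even d) (h4 : 4 ≤ d) (t : ℤˣ × Equiv.Perm (Fin d)) :
    Th hd t ∈ (S4 d hd).par {j | 1 ≤ j.val ∧ j.val < d} := by
  have hc : ∀ ε : ℤˣ, Th hd (ε, 1) ∈ (S4 d hd).par {j | 1 ≤ j.val ∧ j.val < d} := by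
    intro ε
    rcases Int.units_eq_one_or ε with rfl | rfl
    · have : ((1 : ℤˣ), (1 : Equiv.Perm (Fin d))) = 1 := rfl
      rw [this, map_one]
      exact one_mem _
    · exact c_mem hd h4
  have hP : ∀ π : Equiv.Perm (Fin d), Th hd (1, π) ∈
      (S4 d hd).par {j | 1 ≤ j.val ∧ j.val < d} := by
    intro π
    have h := h2 d 0 (d - 1) (by omega) (by omega) π (fun k hk => by
      have := k.2
      omega)
    have hle : Subgroup.closure (adj d '' {j | 0 ≤ j ∧ j < d - 1}) ≤
        ((S4 d hd).par {j | 1 ≤ j.val ∧ j.val < d}).comap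
          ((Th hd).comp (MonoidHom.inr ℤˣ (Equiv.Perm (Fin d)))) := by
      rw [Subgroup.closure_le]
      rintro _ ⟨j, ⟨-, hj2⟩, rfl⟩
      have hjd : j + 1 < d := by omega
      change Th hd (1, adj d j) ∈ (S4 d hd).par {j | 1 ≤ j.val ∧ j.val < d}
      have e : ((1 : ℤˣ), adj d j) = ((if j = 0 then -1 else 1 : ℤˣ), (1 : Equiv.Perm (Fin d))) *
          tj ⟨j + 1, hjd⟩ := by
        by_cases hj0 : j = 0
        · subst hj0
          simp [tj, adj, hjd, prd]
        · simp [tj, adj, hjd, prd, hj0]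
      rw [e, map_mul]
      refine mul_mem (hc _) ?_
      rw [← σ_eq hd _ (by simp)]
      exact Subgroup.subset_closure ⟨_, ⟨by simp, hjd⟩, rfl⟩
    exact hle h
  have e : t = (t.1, 1) * (1, t.2) := by simp
  rw [e, map_mul]
  exact mul_mem (hc _) (hP _)

theorem par_mono (hd : Even d) {I J : Set (Fin d)} (h : I ⊆ J) :
    (S4 d hd).par I ≤ (S4 d hd).par J :=
  Subgroup.closure_mono (Set.image_mono h)

/-- all sign changes belong to the group -/
theorem s_mem (h2 : StmtAdj) (hd : Even d) (h4 : 4 ≤ d) (z : Fin d → ℤˣ) :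
    s d z ∈ (S4 d hd).par Set.univ := by
  have hT : ∀ t, Th hd t ∈ (S4 d hd).par Set.univ := fun t =>
    par_mono hd (Set.subset_univ _) (Th_mem h2 hd h4 t)
  have hf : ∀ k : Fin d, s d (flp k) ∈ (S4 d hd).par Set.univ := by
    intro k
    have h0 : s d (flp (⟨0, by omega⟩ : Fin d)) ∈ (S4 d hd).par Set.univ := by
      rw [← σ0_eq hd _ rfl]
      exact Subgroup.subset_closure ⟨_, Set.mem_univ _, rfl⟩
    have h1 := Th_s hd (1, Equiv.swap (⟨0, by omega⟩ : Fin d) k) (flp ⟨0, by omega⟩)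
    have e : (fun l => pw (1 : ℤˣ) (par (flp (⟨0, by omega⟩ : Fin d))) *
        flp (⟨0, by omega⟩ : Fin d) ((Equiv.swap (⟨0, by omega⟩ : Fin d) k).symm l)) = flp k := by
      funext l
      rw [pw_one, one_mul, Equiv.symm_swap]
      have : Equiv.swap (⟨0, by omega⟩ : Fin d) k l = ⟨0, by omega⟩ ↔ l = k := by
        rw [Equiv.swap_apply_eq_iff, Equiv.swap_apply_left]
      simp only [flp, this]
    dsimp only at h1
    rw [e] at h1
    have e3 : s d (flp k) = Th hd (1, Equiv.swap (⟨0, by omega⟩ : Fin d) k) *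
        s d (flp ⟨0, by omega⟩) * (Th hd (1, Equiv.swap (⟨0, by omega⟩ : Fin d) k))⁻¹ := by
      rw [h1]
      group
    rw [e3]
    exact mul_mem (mul_mem (hT _) h0) (inv_mem (hT _))
  have hz : z ∈ ((S4 d hd).par Set.univ).comap (s d) := by
    have e : z = ∏ k, Pi.mulSingle k (z k) := (Finset.univ_prod_mulSingle z).symm
    rw [e]
    refine prod_mem fun k _ => ?_
    rcases Int.units_eq_one_or (z k) with h | h
    · rw [h, Pi.mulSingle_one]
      exact one_mem _
    · have : Pi.mulSingle k (z k) = flp k := by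
        funext l
        rw [h]
        by_cases hl : l = k
        · subst hl
          simp [flp]
        · simp [flp, hl]
      rw [this]
      exact hf k
  exact hz

theorem F2_eq (u : OrthonormalBasis (Fin d) ℝ (E d)) (a : ℝ) (y : Fin d → ℤˣ) :
    F2 u a a y = u.repr.symm (WithLp.toLp 2 fun i => a * sg (y i)) := by
  rw [← OrthonormalBasis.sum_repr_symm]
  simp only [F2, ite_self, Finset.smul_sum, smul_smul]

theorem isom_SP (u : OrthonormalBasis (Fin d) ℝ (E d)) (a : ℝ) (z : Fin d → ℤˣ)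
    (π : Equiv.Perm (Fin d)) : Isom (F2 u a a) (s d z * P d π) := by
  let R : EuclideanSpace ℝ (Fin d) ≃ₗᵢ[ℝ] EuclideanSpace ℝ (Fin d) :=
    LinearIsometryEquiv.piLpCongrRight 2 (fun i => if z i = 1 then LinearIsometryEquiv.refl ℝ ℝ
      else LinearIsometryEquiv.neg ℝ)
  let L : EuclideanSpace ℝ (Fin d) ≃ₗᵢ[ℝ] EuclideanSpace ℝ (Fin d) :=
    LinearIsometryEquiv.piLpCongrLeft 2 ℝ ℝ π
  refine ⟨(((u.repr.trans L).trans R).trans u.repr.symm).toIsometryEquiv, fun y => ?_⟩
  rw [F2_eq, F2_eq]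
  change u.repr.symm (R (L (u.repr (u.repr.symm _)))) = _
  rw [LinearIsometryEquiv.apply_symm_apply]
  congr 1
  ext i
  change (R (L (WithLp.toLp 2 fun i => a * sg (y i)))) i = a * sg (z i * y (π.symm i))
  have e1 : ∀ w : EuclideanSpace ℝ (Fin d), R w i = sg (z i) * w i := by
    intro w
    change (if z i = 1 then LinearIsometryEquiv.refl ℝ ℝ
      else LinearIsometryEquiv.neg ℝ : ℝ ≃ₗᵢ[ℝ] ℝ) (w i) = _
    rcases Int.units_eq_one_or (z i) with h | h
    · simp [h, sg]
    · rw [h, if_neg (by decide)]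
      simp [sg]
  rw [e1]
  have e2 : ∀ w : EuclideanSpace ℝ (Fin d), L w i = w (π.symm i) := by
    intro w
    simp [L]
  rw [e2]
  simp only [sg, Units.val_mul, Int.cast_mul]
  ring

end E4

theorem ex4S (h1 : StmtInt) (h2 : StmtAdj) : StmtEx4S := by
  intro d hd h4
  refine ⟨E4.ne_one hd h4, fun I J => ?_⟩
  exact E4.inter h1 h2 hd h4 d 0 (by omega) I J (fun j _ => Nat.zero_le _)
    (fun j _ => Nat.zero_le _)


theorem ex4R (h1 : StmtAdj) (h2 : StmtEx4S) : StmtEx4R := by
  intro d hd h4 u a ha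
  refine ⟨⟨1, by omega⟩, ?_⟩
  have hset : {j : Fin d | j.val ≠ 0} = {j : Fin d | 1 ≤ j.val ∧ j.val < d} := by
    ext j
    have := j.2
    simp only [Set.mem_ofPred_eq]
    omega
  have hset' : ∀ m : Fin d, {j : Fin d | m ≤ j} = {j : Fin d | m.val ≤ j.val ∧ j.val < d} := by
    intro m
    ext j
    have := j.2
    simp only [Set.mem_ofPred_eq, Fin.le_def]
    omega
  refine ⟨?_, ?_, ?_, ?_, ?_, ?_, ?_, ?_⟩
  · intro y
    refine ⟨E4.s d y, E4.s_mem h1 hd h4 y, ?_⟩
    funext k
    rw [E4.s_apply, mul_one]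
  · intro g hg hg1
    rw [hset]
    refine E4.mem_of_fix hd d ?_ hg1
    have e : {j : Fin d | j.val < d} = Set.univ := by
      ext j
      simp
    rw [e]
    exact hg
  · intro j hj
    apply E4.fix_one hd
    exact Subgroup.subset_closure ⟨j, by simp; omega, rfl⟩
  · intro y y' h
    rw [E4.F2_eq, E4.F2_eq] at h
    have h3 := u.repr.symm.injective h
    funext i
    have h4 := congrFun (congrArg WithLp.ofLp h3) i
    have h5 : a * sg (y i) = a * sg (y' i) := h4
    have h6 : ((y i : ℤ) : ℝ) = ((y' i : ℤ) : ℝ) := mul_left_cancel₀ ha h5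
    exact Units.ext (Int.cast_injective h6)
  · intro m hm g hg hg'
    have hup : {j : Fin d | m < j} = {j : Fin d | m.val + 1 ≤ j.val ∧ j.val < d} := by
      ext j
      have := j.2
      simp only [Set.mem_ofPred_eq, Fin.lt_def]
      omega
    rw [hset'] at hg hg'
    rw [hup]
    have hmd := m.2
    by_cases h1' : m.val = 1
    · obtain ⟨t, ht, rfl⟩ := E4.par_le hd m.val d (by omega) ⊤ (fun _ => rfl) hg
      have h0 : (prd m).val = 0 := by simp only [prd]; omega
      have hf := E4.fix_one hd (E4.par_mono hd (fun j hj => by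
        have : m.val ≤ j.val := hj.1
        simp only [Set.mem_ofPred_eq]
        omega) hg')
      rw [E4.σ0_eq hd _ h0] at hf
      have hk : ∀ k, t.1 * E4.flp (t.2 (prd m)) k = E4.flp (prd m) k := by
        intro k
        have h5 := congrFun hf k
        rw [Equiv.Perm.mul_apply, Equiv.Perm.mul_apply, E4.s_apply] at h5
        have e : E4.s d (E4.flp (prd m)) (fun _ => 1) = E4.flp (prd m) := by
          funext l
          rw [E4.s_apply, mul_one]
        rw [e, E4.Th_flp] at h5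
        have h6 : E4.flp (prd m) k * E4.flp (prd m) k = 1 := by
          rw [← sq, Int.units_sq]
        exact (mul_left_cancel (h6.trans h5.symm)).symm
      obtain ⟨ht1, ht2⟩ := E4.flp_eq (by omega) hk
      have e : t = (1, t.2) := Prod.ext ht1 rfl
      rw [e]
      refine E4.mem_par h1 hd (by omega) (by omega) le_rfl ?_
      intro k hkk
      have hkd := k.2
      rcases hkk with hkk | hkk
      · have : k = prd m := Fin.ext (by simp only [prd]; omega)
        rw [this]
        exact ht2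
      · omega
    · obtain ⟨t, ht, rfl⟩ := E4.par_le hd m.val d (by omega) ⊥ (fun h => absurd h h1') hg
      obtain ⟨u', hu, hut⟩ := E4.par_le hd m.val d (by omega) ⊥ (fun h => absurd h h1') hg'
      have h0 : (prd m).val ≠ 0 := by simp only [prd]; omega
      rw [E4.σ_eq hd _ h0, ← map_mul, ← map_mul] at hut
      have e1 := E4.Th_inj hd (by omega) hut
      obtain ⟨ht1, ht2⟩ := Subgroup.mem_prod.1 ht
      obtain ⟨hu1, hu2⟩ := Subgroup.mem_prod.1 hu
      have e : t = (1, t.2) := Prod.ext (Subgroup.mem_bot.1 ht1) rfl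
      rw [e]
      refine E4.mem_par h1 hd (by omega) (by omega) le_rfl ?_
      intro k hkk
      have hkd := k.2
      rcases hkk with hkk | hkk
      · by_cases hk' : k.val < m.val - 1
        · exact ht2 k (Or.inl hk')
        · have hkm : k = prd m := Fin.ext (by simp only [prd]; omega)
          have h5 := hu2 (prd (prd m)) (Or.inl (by simp only [prd]; omega))
          rw [e1] at h5
          simp only [E4.tj, Prod.snd_mul, Equiv.Perm.mul_apply, Equiv.swap_apply_left] at h5
          rw [hkm]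
          have h6 := congrArg (Equiv.swap (prd (prd m)) (prd m)) h5
          rw [Equiv.swap_apply_self, Equiv.swap_apply_left] at h6
          exact h6
      · omega
  · intro j hj
    by_cases h0 : j.val = 0
    · have := E4.isom_SP u a (E4.flp j) 1
      rw [map_one, mul_one] at this
      rw [E4.σ0_eq hd _ h0]
      exact this
    · have h1' : j.val ≠ 1 := fun h => hj (Fin.ext h)
      have := E4.isom_SP u a 1 (Equiv.swap (prd j) j)
      rw [map_one, one_mul] at this
      rw [E4.σ_eq hd _ h0]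
      simp only [E4.tj, if_neg h1']
      rw [E4.Th_one]
      exact this
  · intro j hj
    rw [E4.σ_eq hd ⟨1, by omega⟩ (by simp)]
    by_cases h0 : j.val = 0
    · rw [E4.σ0_eq hd _ h0, E4.Th_s, mul_assoc, ← map_mul]
      have e : E4.tj (d := d) ⟨1, by omega⟩ * E4.tj ⟨1, by omega⟩ = 1 := by
        refine Prod.ext ?_ ?_
        · simp [E4.tj]
        · simp [E4.tj]
      rw [e]
      have := E4.isom_SP u a (fun k => E4.pw (E4.tj (d := d) ⟨1, by omega⟩).1
        (par (E4.flp j)) * E4.flp j ((E4.tj (d := d) ⟨1, by omega⟩).2.symm k)) 1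
      rw [map_one] at this ⊢
      exact this
    · have h1' : j.val ≠ 1 := fun h => hj (Fin.ext h)
      rw [E4.σ_eq hd j h0, ← map_mul, ← map_mul]
      have e : E4.tj (d := d) ⟨1, by omega⟩ * E4.tj j * E4.tj ⟨1, by omega⟩ =
          (1, (E4.tj (d := d) ⟨1, by omega⟩).2 * (E4.tj j).2 *
            (E4.tj (d := d) ⟨1, by omega⟩).2) := by
        refine Prod.ext ?_ rfl
        simp [E4.tj, h1']
      rw [e, E4.Th_one]
      have := E4.isom_SP u a 1 ((E4.tj (d := d) ⟨1, by omega⟩).2 * (E4.tj j).2 *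
            (E4.tj (d := d) ⟨1, by omega⟩).2)
      rw [map_one, one_mul] at this
      exact this
  · rintro ⟨T, hT⟩
    have hsq : ∀ y y' : Fin d → ℤˣ, dist (F2 u a a y) (F2 u a a y') ^ 2 =
        ∑ i, (a * sg (y i) - a * sg (y' i)) ^ 2 := by
      intro y y'
      rw [E4.F2_eq, E4.F2_eq, LinearIsometryEquiv.dist_map, EuclideanSpace.dist_eq,
        Real.sq_sqrt (Finset.sum_nonneg fun i _ => sq_nonneg _)]
      refine Finset.sum_congr rfl fun i _ => ?_
      rw [Real.dist_eq, sq_abs]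
    have h5 := T.dist_eq (F2 u a a (fun _ => 1)) (F2 u a a (E4.flp ⟨0, by omega⟩))
    rw [hT, hT] at h5
    have h6 := congrArg (fun t => t ^ 2) h5
    simp only [hsq] at h6
    rw [E4.σ_eq hd ⟨1, by omega⟩ (by simp)] at h6
    have e1 : ∀ i : Fin d, (a * sg ((E4.Th hd (E4.tj ⟨1, by omega⟩)) (fun _ => 1) i) -
        a * sg ((E4.Th hd (E4.tj ⟨1, by omega⟩)) (E4.flp ⟨0, by omega⟩) i)) ^ 2 =
        4 * a ^ 2 - if i = ⟨1, by omega⟩ then 4 * a ^ 2 else 0 := by
      intro i
      rw [E4.Th_flp, E4.Th_apply]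
      have e3 : par (fun _ : Fin d => (1 : ℤˣ)) = 1 := by simp [par]
      have e4 : (E4.tj (d := d) ⟨1, by omega⟩).2 ⟨0, by omega⟩ = ⟨1, by omega⟩ := by
        simp only [E4.tj]
        exact Equiv.swap_apply_left _ _
      rw [e3, e4]
      by_cases hi : i = ⟨1, by omega⟩
      · simp [E4.flp, hi, E4.tj, E4.pw, sg]
      · simp only [E4.flp, hi, E4.tj, E4.pw, sg, if_false]
        simp
        ring
    have e2 : ∀ i : Fin d, (a * sg ((1 : ℤˣ)) - a * sg (E4.flp ⟨0, by omega⟩ i)) ^ 2 =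
        if i = ⟨0, by omega⟩ then 4 * a ^ 2 else 0 := by
      intro i
      by_cases hi : i = ⟨0, by omega⟩
      · simp only [E4.flp, hi, if_true, sg]
        simp
        ring
      · simp [E4.flp, hi, sg]
    simp only [e1, e2, Finset.sum_sub_distrib, Finset.sum_ite_eq', Finset.mem_univ, if_true,
      Finset.sum_const, Finset.card_univ, Fintype.card_fin, nsmul_eq_mul] at h6
    have h7 : (d : ℝ) * (4 * a ^ 2) = 2 * (4 * a ^ 2) := by linarith
    have h8 : 0 < a ^ 2 := by positivity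
    have h9 : (d : ℝ) = 2 := mul_right_cancel₀ (by positivity) h7
    have h10 : (4 : ℝ) ≤ d := by exact_mod_cast h4
    linarith

end

end FO2
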