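import Pool.Agent.FO2.Stmts

/-!
# Modules EXT, ORB, LA: extension of a conjugation, orbit of a root, the last generator
-/

namespace FO2

open Lib_helper64.FO
open scoped RealInnerProductSpace

noncomputable section

namespace Ext

variable {d : ℕ} {Γ : Type} [Group Γ] {X : Type} [MulAction Γ X] (G : Geo d Γ X)

/-- the relation extends from generators to the group -/
theorem rel (α : Γ) (g : E d ≃ₗᵢ[ℝ] E d) (S : Set Γ) (hS : Subgroup.closure S = G.H)
    (hs : ∀ s ∈ S, ∀ v, g (G.T s v) = G.T (α * s * α⁻¹) (g v)) :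
    ∀ h ∈ G.H, ∀ v, g (G.T h v) = G.T (α * h * α⁻¹) (g v) := by
  intro h hh
  rw [← hS] at hh
  induction hh using Subgroup.closure_induction with
  | mem x hx => exact hs x hx
  | one =>
    intro v
    rw [mul_one, mul_inv_cancel, G.T_one]
    rfl
  | mul x y hx hy ihx ihy =>
    intro v
    rw [hS] at hx hy
    rw [G.T_mul_apply hx hy, ihx, ihy, ← G.T_mul_apply (G.conj_mem α hx) (G.conj_mem α hy)]
    congr 2
    group
  | inv x hx ihx =>
    intro v
    rw [hS] at hx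
    have h1 := ihx (G.T x⁻¹ v)
    rw [G.T_inv_apply hx] at h1
    have h2 : α * x⁻¹ * α⁻¹ = (α * x * α⁻¹)⁻¹ := by group
    rw [h2, h1, G.T_inv_apply' (G.conj_mem α hx)]

theorem exists_mem {α : Γ} (hα : α ∈ G.up 1) (hα' : α ∉ G.H) (y : X) :
    ∃ h ∈ G.H, h • G.x0 = y := by
  obtain ⟨k, rfl⟩ := G.trans y
  by_cases hk : k ∈ G.H
  · exact ⟨k, hk, rfl⟩
  · exact ⟨k * α, G.mul_mem_of_not hk hα', by rw [mul_smul, G.up_fix_x0 hα]⟩

end Ext

open Ext in
/-- EXT -/
theorem ext : StmtExt := by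
  intro d Γ _ _ X _ G α hα hα' g hg S hS hs
  refine G.noiso α hα' ⟨g, ?_⟩
  intro y
  obtain ⟨h, hh, rfl⟩ := exists_mem G hα hα' y
  have hα0 : α⁻¹ • G.x0 = G.x0 := G.up_fix_x0 (inv_mem hα)
  rw [← G.equiv h hh, rel G α g S hS hs h hh]
  have h1 : g (G.f G.x0) = G.f G.x0 := hg
  rw [h1, G.equiv _ (G.conj_mem α hh), mul_smul, mul_smul, hα0]

namespace Ext

variable {d : ℕ} {Γ : Type} [Group Γ] {X : Type} [MulAction Γ X] (G : Geo d Γ X)

theorem conj_refl {ρ : Γ} {ε : ℝ} {a : E d} (hρ : ρ ∈ G.H) (hT : ∀ v, G.T ρ v = ε • sref a v)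
    {k : Γ} (hk : k ∈ G.H) (v : E d) : G.T (k * ρ * k⁻¹) v = ε • sref (G.T k a) v := by
  rw [G.T_mul_apply (mul_mem hk hρ) (inv_mem hk), G.T_mul_apply hk hρ, hT, map_smul, map_sref,
    G.T_inv_apply hk]

theorem mem_orb {a b : E d} : b ∈ G.orb a ↔ ∃ h ∈ G.H, b = G.T h a ∨ b = -G.T h a := Iff.rfl

theorem orb_T {a : E d} {h : Γ} (hh : h ∈ G.H) {b : E d} (hb : b ∈ G.orb a) :
    G.T h b ∈ G.orb a := by
  obtain ⟨k, hk, h1 | h1⟩ := hb
  · exact ⟨h * k, mul_mem hh hk, Or.inl (by rw [h1, G.T_mul_apply hh hk])⟩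
  · exact ⟨h * k, mul_mem hh hk, Or.inr (by rw [h1, G.T_mul_apply hh hk, map_neg])⟩

theorem orb_neg {a b : E d} (hb : b ∈ G.orb a) : -b ∈ G.orb a := by
  obtain ⟨k, hk, h1 | h1⟩ := hb
  · exact ⟨k, hk, Or.inr (by rw [h1])⟩
  · exact ⟨k, hk, Or.inl (by rw [h1, neg_neg])⟩

theorem orb_trans {a b c : E d} (hb : b ∈ G.orb a) (hc : c ∈ G.orb a) :
    ∃ h ∈ G.H, G.T h b = c ∨ G.T h b = -c := by
  obtain ⟨k, hk, h1⟩ := hb
  obtain ⟨l, hl, h2⟩ := hc
  have e : G.T (l * k⁻¹) (G.T k a) = G.T l a := by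
    rw [G.T_mul_apply hl (inv_mem hk), G.T_inv_apply' hk]
  refine ⟨l * k⁻¹, mul_mem hl (inv_mem hk), ?_⟩
  rcases h1 with rfl | rfl
  · rcases h2 with rfl | rfl
    · exact Or.inl e
    · exact Or.inr (by rw [e, neg_neg])
  · rcases h2 with rfl | rfl
    · exact Or.inr (by rw [map_neg, e])
    · exact Or.inl (by rw [map_neg, e])

end Ext

open Ext in
/-- ORB -/
theorem orb : StmtOrb := by
  intro d Γ _ _ X _ G ρ ε a hρ hε ha hT
  have hself : a ∈ G.orb a := ⟨1, one_mem _, Or.inl (by rw [G.T_one]; rfl)⟩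
  have hfin : (G.orb a).Finite := by
    have h1 : G.orb a ⊆ Set.range (fun h => G.T h a) ∪ Set.range (fun h => -G.T h a) := by
      rintro b ⟨h, -, h1 | h1⟩
      · exact Or.inl ⟨h, h1.symm⟩
      · exact Or.inr ⟨h, h1.symm⟩
    exact ((Set.finite_range _).union (Set.finite_range _)).subset h1
  refine ⟨⟨hfin, ⟨a, hself⟩, ?_, ?_⟩, hself, fun h hh b hb => orb_T G hh hb,
    fun b hb c hc => orb_trans G hb hc, fun k hk v => conj_refl G hρ hT hk v, ?_, ?_⟩
  · rintro b ⟨h, -, rfl | rfl⟩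
    · rw [LinearIsometryEquiv.norm_map, ha]
    · rw [norm_neg, LinearIsometryEquiv.norm_map, ha]
  · rintro b ⟨k, hk, hb⟩ c hc
    have e1 : sref b c = sref (G.T k a) c := by
      rcases hb with rfl | rfl
      · rfl
      · rw [sref_neg]
    have e2 : ε • G.T (k * ρ * k⁻¹) c = sref (G.T k a) c := by
      rw [conj_refl G hρ hT hk, smul_smul]
      rcases hε with rfl | rfl
      · rw [one_mul, one_smul]
      · rw [neg_mul_neg, one_mul, one_smul]
    rw [e1, ← e2]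
    have h3 := orb_T G (G.conj_mem k hρ) hc
    rcases hε with rfl | rfl
    · rw [one_smul]
      exact h3
    · rw [neg_smul, one_smul]
      exact orb_neg G h3
  · rintro b ⟨k, hk, hb⟩
    refine ⟨k, hk, ?_⟩
    rcases hb with rfl | rfl
    · rfl
    · funext v
      rw [sref_neg]
  · intro b hb c hc
    obtain ⟨h, hh, h1⟩ := orb_trans G hb hc
    exact ⟨G.T h, fun e he => orb_T G hh he, h1⟩

namespace Ext

variable {d : ℕ} {Γ : Type} [Group Γ] {X : Type} [MulAction Γ X] (G : Geo d Γ X)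

theorem up_last (hd : 1 ≤ d) {g : Γ} (hg : g ∈ G.up (d - 1)) : g = 1 ∨ g = G.ρ (d - 1) := by
  unfold Geo.up gpar at hg
  induction hg using Subgroup.closure_induction with
  | mem x hx =>
    obtain ⟨j, hj, rfl⟩ := hx
    have hj' : d - 1 ≤ j := hj
    rcases hj'.eq_or_lt with h | h
    · right
      rw [← h]
    · left
      exact G.one_of_ge j (by omega)
  | one => exact Or.inl rfl
  | mul x y _ _ hx hy =>
    rcases hx with rfl | rfl
    · rw [one_mul]
      exact hy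
    · rcases hy with rfl | rfl
      · rw [mul_one]
        exact Or.inr rfl
      · exact Or.inl (G.sq _)
  | inv x _ hx =>
    rcases hx with rfl | rfl
    · exact Or.inl inv_one
    · exact Or.inr (G.inv_ρ _)

end Ext

open Ext in
/-- LA -/
theorem last : StmtLast := by
  intro d Γ _ _ X _ G hd hC hρ
  set R := G.T (G.ρ (d - 1)) with hR
  have hVR : ∀ v, v ∈ G.V (d - 1) ↔ R v = v := by
    intro v
    constructor
    · intro hv
      exact hv _ ⟨hρ, G.ρ_mem_up le_rfl⟩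
    · intro hv h hh
      rcases up_last G (by omega) hh.2 with rfl | rfl
      · rw [G.T_one]
        rfl
      · exact hv
  have hdim := hC.dim' hρ
  have hfin : Module.finrank ℝ (G.V (d - 1))ᗮ = 1 := by
    have h1 := Submodule.finrank_add_finrank_orthogonal (G.V (d - 1))
    rw [hdim, finrank_euclideanSpace_fin] at h1
    omega
  obtain ⟨⟨u, hu⟩, hu0, hspan⟩ := finrank_eq_one_iff'.1 hfin
  have hu0' : u ≠ 0 := fun h => hu0 (Subtype.ext h)
  have hnu : ‖u‖ ≠ 0 := norm_ne_zero_iff.2 hu0'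
  set r : E d := (‖u‖⁻¹ : ℝ) • u with hr
  have hrU : r ∈ (G.V (d - 1))ᗮ := Submodule.smul_mem _ _ hu
  have hr1 : ‖r‖ = 1 := by
    rw [hr, norm_smul, norm_inv, norm_norm, inv_mul_cancel₀ hnu]
  have hrV : ∀ v ∈ G.V (d - 1), ⟪r, v⟫ = (0 : ℝ) := by
    intro v hv
    rw [real_inner_comm]
    exact (Submodule.mem_orthogonal _ _).1 hrU v hv
  have hrr : ⟪r, r⟫ = (1 : ℝ) := by
    rw [real_inner_self_eq_norm_sq, hr1]
    norm_num
  have hmul : ∀ w ∈ (G.V (d - 1))ᗮ, ∃ c : ℝ, w = c • r := by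
    intro w hw
    obtain ⟨c, hc⟩ := hspan ⟨w, hw⟩
    have hc' : c • u = w := congrArg Subtype.val hc
    refine ⟨c * ‖u‖, ?_⟩
    rw [hr, smul_smul, mul_assoc, mul_inv_cancel₀ hnu, mul_one, hc']
  -- the image of `r`
  have hRU : R r ∈ G.U (d - 1) := by
    refine G.map_mem_U R ?_ hrU
    intro v hv
    rw [(hVR v).1 hv]
    exact hv
  obtain ⟨c, hc⟩ := hmul (R r) hRU
  have hc1 : |c| = 1 := by
    have h1 : ‖R r‖ = 1 := by rw [LinearIsometryEquiv.norm_map, hr1]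
    rw [hc, norm_smul, hr1, mul_one] at h1
    exact h1
  have hcm : c = -1 := by
    rcases (abs_eq (by norm_num : (0 : ℝ) ≤ 1)).1 hc1 with h | h
    · exfalso
      rw [h, one_smul] at hc
      have h2 := hrV r ((hVR r).2 hc)
      rw [hrr] at h2
      exact one_ne_zero h2
    · exact h
  refine ⟨r, hr1, hrV, ?_⟩
  intro v
  -- decomposition
  have hdec : v - (⟪r, v⟫ : ℝ) • r ∈ G.V (d - 1) := by
    rw [← Submodule.orthogonal_orthogonal (G.V (d - 1)), Submodule.mem_orthogonal]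
    intro w hw
    obtain ⟨c', rfl⟩ := hmul w hw
    rw [inner_smul_left, inner_sub_right, inner_smul_right, hrr, mul_one, sub_self, mul_zero]
  have h3 := (hVR _).1 hdec
  rw [map_sub, map_smul, hc, hcm] at h3
  have h4 : R v = v - (⟪r, v⟫ : ℝ) • r + (⟪r, v⟫ : ℝ) • ((-1 : ℝ) • r) := by
    rw [← h3]
    module
  rw [h4, sref]
  module

end

end FO2
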