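import Pool.Agent.FO2.Stmts

/-!
# FA0: type A, `ρ 0` not isometric (helper33)
-/

namespace FO2

open Lib_helper64.FO
open scoped RealInnerProductSpace

noncomputable section

namespace FA0

/-! ### the regular simplex -/

section simplex

variable {d : ℕ} {v : Fin (d + 1) → E d}

theorem norm_one (hv : IsSimplex v) (i : Fin (d + 1)) : ‖v i‖ = 1 := by
  have h := hv i i
  rw [if_pos rfl, real_inner_self_eq_norm_sq] at h
  nlinarith [norm_nonneg (v i), sq_nonneg (‖v i‖ - 1)]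

theorem v_inj (hd : 2 ≤ d) (hv : IsSimplex v) {i j : Fin (d + 1)} (h : v i = v j) : i = j := by
  by_contra hij
  have h1 := hv i j
  have h2 := hv j j
  rw [if_neg hij, h, h2, if_pos rfl] at h1
  have hd' : (0 : ℝ) < d := by exact_mod_cast (show 0 < d by omega)
  have h3 : (-1 : ℝ) / d < 0 := div_neg_of_neg_of_pos (by norm_num) hd'
  linarith

theorem v_neg (hd : 2 ≤ d) (hv : IsSimplex v) (i j : Fin (d + 1)) : v i ≠ -v j := by
  intro h
  have h1 := hv i j
  have h2 := hv j j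
  rw [h, inner_neg_left, h2, if_pos rfl] at h1
  have hd' : (2 : ℝ) ≤ d := by exact_mod_cast hd
  split_ifs at h1 with hij
  · norm_num at h1
  · have h3 : (-1 : ℝ) < -1 / d := by
      rw [lt_div_iff₀ (by linarith)]
      linarith
    linarith

theorem sref_swap (hd : 2 ≤ d) (hv : IsSimplex v) {i j : Fin (d + 1)} (hij : i ≠ j) {t : ℝ}
    {b : E d} (hb : ‖b‖ = 1) (hbt : b = t • (v i - v j)) (l : Fin (d + 1)) :
    sref b (v l) = v (Equiv.swap i j l) := by
  have hd' : (0 : ℝ) < d := by exact_mod_cast (show 0 < d by omega)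
  have h1 : t ^ 2 * (2 + 2 / d) = 1 := by
    have h2 : ⟪b, b⟫ = (1 : ℝ) := by rw [real_inner_self_eq_norm_sq, hb]; norm_num
    rw [hbt, inner_smul_left, inner_smul_right, inner_sub_left, inner_sub_right, inner_sub_right,
      hv i i, hv i j, hv j i, hv j j, if_pos rfl, if_neg hij, if_neg hij.symm, if_pos rfl] at h2
    simp only [conj_trivial] at h2
    rw [← h2]
    ring
  have h3 : ⟪b, v l⟫ = t * ((if i = l then (1 : ℝ) else -1 / d) - (if j = l then (1 : ℝ) else -1 / d)) := by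
    rw [hbt, inner_smul_left, inner_sub_left, hv i l, hv j l]
    simp only [conj_trivial]
  rw [sref, h3]
  by_cases hi : i = l
  · subst hi
    rw [if_pos rfl, if_neg hij.symm, Equiv.swap_apply_left, hbt, smul_smul]
    have e : 2 * (t * (1 - -1 / (d : ℝ))) * t = 1 := by
      linear_combination h1
    rw [e, one_smul]
    abel
  · by_cases hj : j = l
    · subst hj
      rw [if_pos rfl, if_neg hij, Equiv.swap_apply_right, hbt, smul_smul]
      have e : 2 * (t * (-1 / (d : ℝ) - 1)) * t = -1 := by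
        linear_combination -h1
      rw [e, neg_one_smul]
      abel
    · rw [if_neg hi, if_neg hj, Equiv.swap_apply_of_ne_of_ne (Ne.symm hi) (Ne.symm hj), sub_self,
        mul_zero, mul_zero, zero_smul, sub_zero]

theorem F1_inj (hd : 2 ≤ d) (hv : IsSimplex v) {a b : ℝ} (ha : a ≠ 0) (hb : b ≠ 0) (hab : a ≠ b) :
    Function.Injective (F1 v a b) := by
  rintro ⟨i, ω⟩ ⟨j, ω'⟩ h
  unfold F1 at h
  simp only at h
  have key : ∀ α β : ℝ, α ≠ 0 → β ≠ 0 → α • v i = β • v j → i = j ∧ α = β := by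
    intro α β hα hβ h
    have h1 : |α| = |β| := by
      have := congrArg norm h
      rwa [norm_smul, norm_smul, norm_one hv, norm_one hv, mul_one, mul_one, Real.norm_eq_abs,
        Real.norm_eq_abs] at this
    rcases abs_eq_abs.1 h1 with h2 | h2
    · rw [h2] at h
      exact ⟨v_inj hd hv (smul_right_injective _ hβ h), h2⟩
    · exfalso
      rw [h2, neg_smul, ← smul_neg] at h
      have h3 := smul_right_injective _ hβ h
      exact v_neg hd hv j i h3.symm
  cases ω <;> cases ω' <;> simp only [Bool.false_eq_true, if_true, if_false] at h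
  · rw [(key a a ha ha h).1]
  · exact absurd (key a b ha hb h).2 hab
  · exact absurd (key b a hb ha h).2.symm hab
  · rw [(key b b hb hb h).1]

end simplex

/-- a vector orthogonal to two given ones -/
theorem exists_perp {d : ℕ} (hd : 3 ≤ d) (a b : E d) : ∃ w : E d, w ≠ 0 ∧ ⟪a, w⟫ = (0 : ℝ) ∧
    ⟪b, w⟫ = (0 : ℝ) := by
  set W : Submodule ℝ (E d) := Submodule.span ℝ {a, b} with hW
  have h1 : Module.finrank ℝ W ≤ 2 := by
    have h2 := finrank_span_le_card (R := ℝ) ({a, b} : Set (E d))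
    refine h2.trans ?_
    rw [Set.toFinset_card]
    calc Fintype.card ({a, b} : Set (E d)) = ({a, b} : Set (E d)).toFinset.card := by
          rw [Set.toFinset_card]
      _ ≤ 2 := by
          rw [Set.toFinset_insert, Set.toFinset_singleton]
          exact Finset.card_le_two
  have h2 := Submodule.finrank_add_finrank_orthogonal W
  rw [finrank_euclideanSpace, Fintype.card_fin] at h2
  have h3 : 0 < Module.finrank ℝ Wᗮ := by omega
  have h4 : Wᗮ ≠ ⊥ := by
    intro h
    rw [h, finrank_bot] at h3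
    omega
  obtain ⟨w, hw, hw0⟩ := Submodule.exists_mem_ne_zero_of_ne_bot h4
  rw [Submodule.mem_orthogonal] at hw
  exact ⟨w, hw0, hw a (Submodule.subset_span (by simp)), hw b (Submodule.subset_span (by simp))⟩

/-! ### the group -/

section group

variable {d : ℕ} {Γ : Type} [Group Γ] {X : Type} [MulAction Γ X] (G : Geo d Γ X)

/-- `h` acts on the simplex by the permutation `π` -/
def Act (v : Fin (d + 1) → E d) (h : Γ) (π : Equiv.Perm (Fin (d + 1))) : Prop :=
  h ∈ G.H ∧ ∀ i, G.T h (v i) = v (π i)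

variable {G} {v : Fin (d + 1) → E d}

theorem Act.mul {h k : Γ} {π ρ : Equiv.Perm (Fin (d + 1))} (h1 : Act G v h π) (h2 : Act G v k ρ) :
    Act G v (h * k) (π * ρ) := by
  refine ⟨mul_mem h1.1 h2.1, fun i => ?_⟩
  rw [G.T_mul_apply h1.1 h2.1, h2.2, h1.2]
  rfl

theorem Act.inv {h : Γ} {π : Equiv.Perm (Fin (d + 1))} (h1 : Act G v h π) :
    Act G v h⁻¹ π⁻¹ := by
  refine ⟨inv_mem h1.1, fun i => ?_⟩
  have h2 := h1.2 (π⁻¹ i)
  rw [show π (π⁻¹ i) = i from π.apply_symm_apply i] at h2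
  rw [← h2, G.T_inv_apply' h1.1]

theorem Act.one : Act G v 1 1 := by
  refine ⟨one_mem _, fun i => ?_⟩
  rw [G.T_one]
  rfl

theorem Act.uniq (hspan : Submodule.span ℝ (Set.range v) = ⊤) {h k : Γ}
    {π : Equiv.Perm (Fin (d + 1))} (h1 : Act G v h π) (h2 : Act G v k π) : h = k := by
  refine G.T_inj h1.1 h2.1 ?_
  have e : ((G.T h).toLinearEquiv : E d →ₗ[ℝ] E d) = ((G.T k).toLinearEquiv : E d →ₗ[ℝ] E d) := by
    refine LinearMap.ext_on_range hspan fun i => ?_
    exact (h1.2 i).trans (h2.2 i).symm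
  ext1 w
  exact congrArg (fun f => f w) e

/-! ### reflections -/

/-- everything that is used about the situation -/
structure Sit (G : Geo d Γ X) (r : E d) (v : Fin (d + 1) → E d) : Prop where
  hd : 9 ≤ d
  L : Last G r
  no : G.ρ 0 ∉ G.H
  yes : ∀ j, 1 ≤ j → G.ρ j ∈ G.H
  A : IsA (G.orb r) v
  pos : ∃ c : ℝ, G.x = c • v 0
  act : ∀ j : Fin d, 1 ≤ j.val → ∀ k : Fin d,
      G.T (G.ρ j) (v k.succ) = v (Equiv.swap (prd j) j k).succ
  rs : IsRS (G.orb r)
  conj : ∀ k ∈ G.H, ∀ w, G.T (k * G.ρ (d - 1) * k⁻¹) w = sref (G.T k r) w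
  ex : ∀ b ∈ G.orb r, ∃ k ∈ G.H, sref b = sref (G.T k r)
  mem : ∀ k ∈ G.H, G.T k r ∈ G.orb r

variable {r : E d}

theorem Sit.simp (S : Sit G r v) : IsSimplex v := S.A.1

theorem Sit.span (S : Sit G r v) : Submodule.span ℝ (Set.range v) = ⊤ := by
  rw [← top_le_iff, ← S.L.span, Submodule.span_le]
  intro a ha
  obtain ⟨i, j, -, t, -, -, rfl⟩ := (S.A.2 a).1 ha
  exact Submodule.smul_mem _ _ (Submodule.sub_mem _ (Submodule.subset_span ⟨i, rfl⟩)
    (Submodule.subset_span ⟨j, rfl⟩))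

/-- the conjugates of the last generator act as transpositions -/
theorem Sit.refl (S : Sit G r v) {k : Γ} (hk : k ∈ G.H) :
    ∃ i j, i ≠ j ∧ Act G v (k * G.ρ (d - 1) * k⁻¹) (Equiv.swap i j) := by
  have hd := S.hd
  obtain ⟨i, j, hij, t, ht, hn, hb⟩ := (S.A.2 _).1 (S.mem k hk)
  have hl : G.ρ (d - 1) ∈ G.H := S.yes _ (by omega)
  refine ⟨i, j, hij, mul_mem (mul_mem hk hl) (inv_mem hk), fun l => ?_⟩
  rw [S.conj k hk]
  exact sref_swap (by omega) S.simp hij hn hb l

/-- every transposition is a conjugate of the last generator -/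
theorem Sit.swap (S : Sit G r v) {i j : Fin (d + 1)} (hij : i ≠ j) :
    ∃ k ∈ G.H, Act G v (k * G.ρ (d - 1) * k⁻¹) (Equiv.swap i j) := by
  have hd := S.hd
  have h1 : v i - v j ≠ 0 := fun h => hij (v_inj (by omega) S.simp (sub_eq_zero.1 h))
  have h2 : 0 < ‖v i - v j‖ := norm_pos_iff.2 h1
  set t : ℝ := ‖v i - v j‖⁻¹ with ht
  have hn : ‖t • (v i - v j)‖ = 1 := by
    rw [norm_smul, ht, norm_inv, norm_norm, inv_mul_cancel₀ h2.ne']
  have hb : t • (v i - v j) ∈ G.orb r :=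
    (S.A.2 _).2 ⟨i, j, hij, t, inv_pos.2 h2, hn, rfl⟩
  obtain ⟨k, hk, he⟩ := S.ex _ hb
  have hl : G.ρ (d - 1) ∈ G.H := S.yes _ (by omega)
  refine ⟨k, hk, mul_mem (mul_mem hk hl) (inv_mem hk), fun l => ?_⟩
  rw [S.conj k hk, ← he]
  exact sref_swap (by omega) S.simp hij hn rfl l

theorem Sit.x0 (S : Sit G r v) {h : Γ} (hh : h ∈ G.Hi 1) : G.T h (v 0) = v 0 := by
  obtain ⟨c, hc⟩ := S.pos
  have hc0 : c ≠ 0 := by
    rintro rfl
    rw [zero_smul] at hc
    exact S.L.good.chain.x_ne hc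
  have h1 := G.x_mem_V1 h hh
  rw [hc, map_smul] at h1
  exact smul_right_injective _ hc0 h1

theorem Sit.Hi1 (S : Sit G r v) : G.Hi 1 = G.up 1 := by
  refine inf_eq_right.2 ?_
  rw [Geo.up, gpar, Subgroup.closure_le]
  rintro _ ⟨k, hk, rfl⟩
  exact S.yes k hk

/-- the generators `ρ j`, `1 ≤ j` -/
theorem Sit.gen (S : Sit G r v) (j : Fin d) (hj : 1 ≤ j.val) :
    Act G v (G.ρ j) (Equiv.swap j.castSucc j.succ) := by
  refine ⟨S.yes j hj, fun i => ?_⟩
  have e : (prd j).succ = j.castSucc := by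
    ext
    simp [prd]
    omega
  refine Fin.cases ?_ (fun k => ?_) i
  · rw [Equiv.swap_apply_of_ne_of_ne]
    · refine S.x0 ?_
      rw [S.Hi1]
      exact G.ρ_mem_up hj
    · intro h
      have := congrArg Fin.val h
      simp at this
      omega
    · exact (Fin.succ_ne_zero j).symm
  · rw [S.act j hj k, ← e]
    congr 1
    exact (Fin.succ_injective d).map_swap _ _ _

theorem Sit.comm0 (S : Sit G r v) : G.ρ 0 * G.ρ (d - 1) = G.ρ (d - 1) * G.ρ 0 :=
  G.comm 0 (d - 1) (by have := S.hd; omega)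

/-- the conjugates of the last generator are conjugates by elements of `H` -/
theorem Sit.conjH (S : Sit G r v) (γ : Γ) :
    ∃ k ∈ G.H, γ * G.ρ (d - 1) * γ⁻¹ = k * G.ρ (d - 1) * k⁻¹ := by
  by_cases h : γ ∈ G.H
  · exact ⟨γ, h, rfl⟩
  · refine ⟨γ * G.ρ 0, G.mul_mem_of_not h S.no, ?_⟩
    rw [mul_inv_rev]
    calc γ * G.ρ (d - 1) * γ⁻¹ = γ * (G.ρ 0 * (G.ρ 0)⁻¹) * G.ρ (d - 1) * γ⁻¹ := by group
      _ = γ * (G.ρ 0 * G.ρ 0) * G.ρ (d - 1) * γ⁻¹ := by rw [G.inv_ρ]
      _ = γ * G.ρ 0 * (G.ρ 0 * G.ρ (d - 1)) * γ⁻¹ := by group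
      _ = γ * G.ρ 0 * (G.ρ (d - 1) * G.ρ 0) * γ⁻¹ := by rw [S.comm0]
      _ = γ * G.ρ 0 * G.ρ (d - 1) * (G.ρ 0 * γ⁻¹) := by group
      _ = _ := by rw [G.inv_ρ]

/-- the normal closure of the last generator is `H` -/
theorem Sit.H_le (S : Sit G r v) : G.H ≤ Subgroup.normalClosure {G.ρ (d - 1)} := by
  set R := Subgroup.normalClosure {G.ρ (d - 1)} with hR
  have hn : R.Normal := Subgroup.normalClosure_normal
  have hl : G.ρ (d - 1) ∈ R := Subgroup.subset_normalClosure rfl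
  have hle : R ≤ G.H := by
    have : G.H.Normal := G.normal
    refine Subgroup.normalClosure_le_normal ?_
    rintro _ rfl
    exact S.yes _ (by have := S.hd; omega)
  have hj : ∀ j, 1 ≤ j → G.ρ j ∈ R := by
    intro j hj
    rcases Nat.lt_or_ge j d with h | h
    · have h1 := S.gen ⟨j, h⟩ hj
      obtain ⟨k, hk, h2⟩ := S.swap (i := (⟨j, h⟩ : Fin d).castSucc) (j := (⟨j, h⟩ : Fin d).succ)
        (by intro e; have := congrArg Fin.val e; simp at this)
      rw [Act.uniq S.span h1 h2]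
      exact hn.conj_mem _ hl k
    · rw [G.one_of_ge j h]
      exact one_mem _
  have hall : ∀ γ ∈ gpar G.ρ Set.univ, γ ∈ R ∨ γ * G.ρ 0 ∈ R := by
    intro γ hγ
    refine Subgroup.closure_induction (p := fun γ _ => γ ∈ R ∨ γ * G.ρ 0 ∈ R) ?_ ?_ ?_ ?_ hγ
    · rintro _ ⟨j, -, rfl⟩
      rcases Nat.eq_zero_or_pos j with rfl | h
      · right
        rw [G.sq]
        exact one_mem _
      · exact Or.inl (hj j h)
    · exact Or.inl (one_mem _)
    · rintro x y - - (hx | hx) (hy | hy)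
      · exact Or.inl (mul_mem hx hy)
      · right
        rw [mul_assoc]
        exact mul_mem hx hy
      · right
        have : x * y * G.ρ 0 = (x * G.ρ 0) * ((G.ρ 0)⁻¹ * y * G.ρ 0) := by group
        rw [this]
        refine mul_mem hx ?_
        have := hn.conj_mem y hy (G.ρ 0)⁻¹
        rwa [inv_inv] at this
      · left
        have : x * y = (x * G.ρ 0) * ((G.ρ 0)⁻¹ * (y * G.ρ 0) * G.ρ 0) * ((G.ρ 0)⁻¹ * (G.ρ 0)⁻¹) := by
          group
        rw [this, G.inv_ρ, G.sq, mul_one]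
        refine mul_mem hx ?_
        have := hn.conj_mem (y * G.ρ 0) hy (G.ρ 0)
        rwa [G.inv_ρ] at this
    · rintro x - (hx | hx)
      · exact Or.inl (inv_mem hx)
      · right
        have : x⁻¹ * G.ρ 0 = G.ρ 0 * (x * G.ρ 0)⁻¹ * (G.ρ 0)⁻¹ * (G.ρ 0 * G.ρ 0) := by group
        rw [this, G.sq, mul_one]
        exact hn.conj_mem _ (inv_mem hx) (G.ρ 0)
  intro h hh
  rcases hall h (by rw [G.gen]; exact Subgroup.mem_top h) with h1 | h1
  · exact h1
  · exfalso
    apply S.no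
    have : G.ρ 0 = h⁻¹ * (h * G.ρ 0) := by group
    rw [this]
    exact mul_mem (inv_mem hh) (hle h1)

/-- induction over `H` -/
theorem Sit.ind (S : Sit G r v) {p : Γ → Prop} (h1 : p 1)
    (hc : ∀ k ∈ G.H, p (k * G.ρ (d - 1) * k⁻¹))
    (hm : ∀ x ∈ G.H, ∀ y ∈ G.H, p x → p y → p (x * y))
    (hi : ∀ x ∈ G.H, p x → p x⁻¹) {h : Γ} (hh : h ∈ G.H) : p h := by
  have hle : Subgroup.normalClosure {G.ρ (d - 1)} ≤ G.H := by
    have : G.H.Normal := G.normal
    refine Subgroup.normalClosure_le_normal ?_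
    rintro _ rfl
    exact S.yes _ (by have := S.hd; omega)
  refine Subgroup.closure_induction (p := fun x _ => p x) ?_ h1 ?_ ?_ (S.H_le hh)
  · intro x hx
    rw [Group.mem_conjugatesOfSet_iff] at hx
    obtain ⟨y, hy, hxy⟩ := hx
    rw [Set.mem_singleton_iff] at hy
    subst hy
    obtain ⟨γ, rfl⟩ := isConj_iff.1 hxy
    obtain ⟨k, hk, he⟩ := S.conjH γ
    rw [he]
    exact hc k hk
  · intro x y hx hy px py
    exact hm x (hle hx) y (hle hy) px py
  · intro x hx px
    exact hi x (hle hx) px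

theorem Sit.all (S : Sit G r v) {h : Γ} (hh : h ∈ G.H) : ∃ π, Act G v h π := by
  refine S.ind (p := fun h => ∃ π, Act G v h π) ?_ ?_ ?_ ?_ hh
  · exact ⟨1, Act.one⟩
  · intro k hk
    obtain ⟨i, j, -, h⟩ := S.refl hk
    exact ⟨_, h⟩
  · rintro x - y - ⟨π, h1⟩ ⟨ρ, h2⟩
    exact ⟨_, h1.mul h2⟩
  · rintro x - ⟨π, h1⟩
    exact ⟨_, h1.inv⟩

theorem Sit.surj (S : Sit G r v) (π : Equiv.Perm (Fin (d + 1))) : ∃ h, Act G v h π := by
  refine Equiv.Perm.swap_induction_on π ?_ ?_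
  · exact ⟨1, Act.one⟩
  · rintro f i j hij ⟨h, hh⟩
    obtain ⟨k, -, hk⟩ := S.swap hij
    exact ⟨_, hk.mul hh⟩

theorem Sit.det (S : Sit G r v) {h : Γ} {π ρ : Equiv.Perm (Fin (d + 1))} (h1 : Act G v h π)
    (h2 : Act G v h ρ) : π = ρ := by
  ext1 i
  exact v_inj (by have := S.hd; omega) S.simp ((h1.2 i).symm.trans (h2.2 i))

/-! ### the isometry `g` -/

/-- a permutation that commutes with the transpositions `(j, j + 1)`, `2 ≤ j`, fixes all numbers
`≥ 2` -/
theorem perm_fix {n : ℕ} (hn : 4 ≤ n) (τ : Equiv.Perm (Fin (n + 1)))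
    (h : ∀ j : Fin n, 2 ≤ j.val → τ * Equiv.swap j.castSucc j.succ =
      Equiv.swap j.castSucc j.succ * τ) (i : Fin (n + 1)) (hi : 2 ≤ i.val) : τ i = i := by
  have key : ∀ j : Fin n, 2 ≤ j.val → (τ j.castSucc = j.castSucc ∨ τ j.castSucc = j.succ) ∧
      (τ j.succ = j.castSucc ∨ τ j.succ = j.succ) := by
    intro j hj
    have h1 := congrArg (fun f : Equiv.Perm (Fin (n + 1)) => f j.castSucc) (h j hj)
    have h2 := congrArg (fun f : Equiv.Perm (Fin (n + 1)) => f j.succ) (h j hj)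
    simp only [Equiv.Perm.mul_apply, Equiv.swap_apply_left, Equiv.swap_apply_right] at h1 h2
    have hne : j.castSucc ≠ j.succ := by
      intro e
      have := congrArg Fin.val e
      simp at this
    have h3 : τ j.castSucc ≠ τ j.succ := fun e => hne (τ.injective e)
    constructor
    · by_contra hcon
      push Not at hcon
      rw [Equiv.swap_apply_of_ne_of_ne hcon.1 hcon.2] at h1
      exact h3 h1.symm
    · by_contra hcon
      push Not at hcon
      rw [Equiv.swap_apply_of_ne_of_ne hcon.1 hcon.2] at h2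
      exact h3 h2
  -- the numbers between `3` and `n - 1`
  have mid : ∀ k (hk : k < n), 3 ≤ k → τ (⟨k, hk⟩ : Fin n).castSucc = (⟨k, hk⟩ : Fin n).castSucc := by
    intro k hk h3
    have h1 := (key ⟨k, hk⟩ (by simp; omega)).1
    have h2 := (key ⟨k - 1, by omega⟩ (by simp; omega)).2
    have e : (⟨k - 1, by omega⟩ : Fin n).succ = (⟨k, hk⟩ : Fin n).castSucc := by
      ext
      simp
      omega
    rw [e] at h2
    rcases h1 with h1 | h1
    · exact h1
    · rcases h2 with h2 | h2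
      · exfalso
        have := congrArg Fin.val (h1.symm.trans h2)
        simp at this
        omega
      · exact h2
  rcases Nat.lt_or_ge i.val 3 with h3 | h3
  · -- `i = 2`
    have h1 := (key ⟨2, by omega⟩ (by simp)).1
    have h2 := mid 3 (by omega) le_rfl
    have e : (⟨2, by omega⟩ : Fin n).castSucc = i := by
      ext
      simp
      omega
    have e' : (⟨2, by omega⟩ : Fin n).succ = (⟨3, by omega⟩ : Fin n).castSucc := by
      ext
      simp
    rw [e, e'] at h1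
    rcases h1 with h1 | h1
    · exact h1
    · exfalso
      have h4 := τ.injective (h1.trans h2.symm)
      have := congrArg Fin.val h4
      simp at this
      omega
  · rcases Nat.lt_or_ge i.val n with h4 | h4
    · have := mid i.val h4 h3
      exact this
    · -- `i = n`
      have h1 := (key ⟨n - 1, by omega⟩ (by simp; omega)).2
      have h2 := mid (n - 1) (by omega) (by omega)
      have e : (⟨n - 1, by omega⟩ : Fin n).succ = i := by
        ext
        simp
        omega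
      rw [e] at h1
      rcases h1 with h1 | h1
      · exfalso
        have h5 := τ.injective (h1.trans h2.symm)
        have := congrArg Fin.val h5
        simp at this
        omega
      · exact h1

theorem perm_two {n : ℕ} (τ : Equiv.Perm (Fin (n + 1))) (hn : 1 ≤ n)
    (h : ∀ i : Fin (n + 1), 2 ≤ i.val → τ i = i) : τ = 1 ∨ τ = Equiv.swap 0 ⟨1, by omega⟩ := by
  have key : ∀ i : Fin (n + 1), i.val < 2 → (τ i).val < 2 := by
    intro i hi
    by_contra hcon
    push Not at hcon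
    have h1 := h (τ i) hcon
    have h2 := τ.injective h1
    rw [h2] at hcon
    omega
  have h0 := key 0 (by simp)
  have h1 := key ⟨1, by omega⟩ (by simp)
  by_cases hc : τ 0 = 0
  · left
    ext1 i
    rcases Nat.lt_or_ge i.val 2 with hi | hi
    · rcases Nat.eq_zero_or_pos i.val with hi0 | hi0
      · have : i = 0 := Fin.ext hi0
        rw [this]
        exact hc
      · have e : i = ⟨1, by omega⟩ := Fin.ext (by simp; omega)
        rw [e]
        have h2 : τ ⟨1, by omega⟩ ≠ 0 := by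
          intro h2
          have := τ.injective (h2.trans hc.symm)
          have := congrArg Fin.val this
          simp at this
        have h3 : (τ ⟨1, by omega⟩).val ≠ 0 := fun h3 => h2 (Fin.ext h3)
        exact Fin.ext (by simp; omega)
    · exact h i hi
  · right
    have h2 : (τ 0).val ≠ 0 := fun h3 => hc (Fin.ext h3)
    have h3 : τ 0 = ⟨1, by omega⟩ := Fin.ext (by simp; omega)
    have h4 : τ ⟨1, by omega⟩ = 0 := by
      have h5 : (τ ⟨1, by omega⟩).val ≠ 1 := by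
        intro h5
        have h6 : τ ⟨1, by omega⟩ = τ 0 := by rw [h3]; exact Fin.ext h5
        have := congrArg Fin.val (τ.injective h6)
        simp at this
      have h7 : (τ ⟨1, by omega⟩).val = 0 := by omega
      exact Fin.ext h7
    ext1 i
    rcases Nat.lt_or_ge i.val 2 with hi | hi
    · rcases Nat.eq_zero_or_pos i.val with hi0 | hi0
      · have : i = 0 := Fin.ext hi0
        rw [this, h3, Equiv.swap_apply_left]
      · have e : i = ⟨1, by omega⟩ := Fin.ext (by simp; omega)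
        rw [e, h4, Equiv.swap_apply_right]
    · rw [h i hi, Equiv.swap_apply_of_ne_of_ne]
      · rintro rfl; simp at hi
      · rintro rfl; simp at hi

/-- conjugation by `ρ 0` is conjugation by the isometry `g = (0 1)` -/
theorem Sit.star (S : Sit G r v) (hStar : StmtStar) [Finite Γ] (hi : IrrRS (G.orb r))
    (hsl : SL (G.orb r)) (hAut : StmtAutA) :
    ∃ g : E d ≃ₗᵢ[ℝ] E d, (∀ i, g (v i) = v (Equiv.swap 0 ⟨1, by have := S.hd; omega⟩ i)) ∧
      ∀ h ∈ G.H, ∀ w, g (G.T h w) = G.T (G.ρ 0 * h * G.ρ 0) (g w) := by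
  have hd := S.hd
  obtain ⟨g, -, hg2, hg3⟩ := hStar d Γ X G (by omega) S.L.good (G.ρ (d - 1)) 1 r
    (S.yes _ (by omega)) (Or.inl rfl) S.L.norm (fun w => by rw [S.L.refl w, one_smul]) hi S.L.span
    hsl (G.ρ 0) (by rw [S.comm0]; group)
  rw [G.inv_ρ] at hg3
  -- the sign is `+`
  have hplus : ∀ h ∈ G.H, ∀ w, g (G.T h w) = G.T (G.ρ 0 * h * G.ρ 0) (g w) := by
    have hc : ∀ x ∈ G.H, G.ρ 0 * x * G.ρ 0 ∈ G.H := by
      intro x hx
      have := G.conj_mem (G.ρ 0) hx
      rwa [G.inv_ρ] at this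
    intro h hh
    refine S.ind (p := fun h => ∀ w, g (G.T h w) = G.T (G.ρ 0 * h * G.ρ 0) (g w)) ?_ ?_ ?_ ?_ hh
    · intro w
      rw [mul_one, G.sq, G.T_one]
      rfl
    · intro k hk
      rcases hg3 _ (mul_mem (mul_mem hk (S.yes (d - 1) (by omega))) (inv_mem hk)) with h1 | h1
      · exact h1
      · exfalso
        obtain ⟨k', hk', he⟩ := S.conjH (G.ρ 0 * k)
        have he' : G.ρ 0 * (k * G.ρ (d - 1) * k⁻¹) * G.ρ 0 = k' * G.ρ (d - 1) * k'⁻¹ := by
          rw [← he, mul_inv_rev, G.inv_ρ]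
          group
        obtain ⟨w, hw0, hw1, hw2⟩ := exists_perp (by omega) (g (G.T k r)) (G.T k' r)
        have h2 := h1 (g.symm w)
        rw [he', S.conj k hk, S.conj k' hk', map_sref, g.apply_symm_apply, sref, sref, hw1, hw2,
          mul_zero, zero_smul, zero_smul, sub_zero] at h2
        have h3 : (2 : ℝ) • w = 0 := by
          rw [two_smul]
          nth_rw 1 [h2]
          exact neg_add_cancel w
        exact hw0 ((smul_eq_zero.1 h3).resolve_left (by norm_num))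
    · intro x hx y hy px py w
      rw [G.T_mul_apply hx hy, px, py, ← G.T_mul_apply (hc x hx) (hc y hy)]
      congr 2
      calc G.ρ 0 * x * G.ρ 0 * (G.ρ 0 * y * G.ρ 0) = G.ρ 0 * x * (G.ρ 0 * G.ρ 0) * y * G.ρ 0 := by
            group
        _ = G.ρ 0 * (x * y) * G.ρ 0 := by rw [G.sq]; group
    · intro x hx px w
      have h1 := px (G.T x⁻¹ w)
      rw [G.T_inv_apply hx] at h1
      have e : G.ρ 0 * x⁻¹ * G.ρ 0 = (G.ρ 0 * x * G.ρ 0)⁻¹ := by
        rw [mul_inv_rev, mul_inv_rev, G.inv_ρ, mul_assoc]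
      rw [h1, e, G.T_inv_apply' (hc x hx)]
  -- normalisation
  obtain ⟨g', τ, hτ, hg'⟩ : ∃ (g' : E d ≃ₗᵢ[ℝ] E d) (τ : Equiv.Perm (Fin (d + 1))),
      (∀ i, g' (v i) = v (τ i)) ∧
      ∀ h ∈ G.H, ∀ w, g' (G.T h w) = G.T (G.ρ 0 * h * G.ρ 0) (g' w) := by
    obtain ⟨τ, h1 | h1⟩ := hAut d (G.orb r) v (by omega) S.A g hg2
    · exact ⟨g, τ, h1, hplus⟩
    · refine ⟨g.trans (LinearIsometryEquiv.neg ℝ), τ, fun i => ?_, fun h hh w => ?_⟩
      · change -g (v i) = _
        rw [h1, neg_neg]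
      · change -g (G.T h w) = G.T (G.ρ 0 * h * G.ρ 0) (-g w)
        rw [map_neg, hplus h hh]
  have hcomm : ∀ (h : Γ) (π : Equiv.Perm (Fin (d + 1))), Act G v h π →
      Act G v (G.ρ 0 * h * G.ρ 0) (τ * π * τ⁻¹) := by
    intro h π hh
    have h1 : G.ρ 0 * h * G.ρ 0 ∈ G.H := by
      have := G.conj_mem (G.ρ 0) hh.1
      rwa [G.inv_ρ] at this
    refine ⟨h1, fun i => ?_⟩
    have h2 := hg' h hh.1 (v (τ⁻¹ i))
    rw [hh.2, hτ, hτ, show τ (τ⁻¹ i) = i from τ.apply_symm_apply i] at h2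
    exact h2.symm
  have hfix : ∀ i : Fin (d + 1), 2 ≤ i.val → τ i = i := by
    refine perm_fix (by omega) τ fun j hj => ?_
    have h1 := S.gen j (by omega)
    have h2 := hcomm _ _ h1
    have e : G.ρ 0 * G.ρ j * G.ρ 0 = G.ρ j := by
      rw [G.comm 0 j (by omega), mul_assoc, G.sq, mul_one]
    rw [e] at h2
    have h3 := S.det h1 h2
    calc τ * Equiv.swap j.castSucc j.succ = τ * Equiv.swap j.castSucc j.succ * τ⁻¹ * τ := by group
      _ = _ := by rw [← h3]
  have hτ2 : τ = Equiv.swap 0 ⟨1, by omega⟩ := by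
    rcases perm_two τ (by omega) hfix with h | h
    · exfalso
      have h1 := S.gen ⟨1, by omega⟩ le_rfl
      have h2 := hcomm _ _ h1
      rw [h, one_mul, inv_one, mul_one] at h2
      have h3 := Act.uniq S.span h1 h2
      apply S.L.good.chain.not_comm 0 (by omega)
      calc G.ρ 0 * G.ρ 1 = G.ρ 0 * G.ρ 1 * (G.ρ 0 * G.ρ 0) := by rw [G.sq, mul_one]
        _ = G.ρ 0 * G.ρ 1 * G.ρ 0 * G.ρ 0 := by group
        _ = G.ρ 1 * G.ρ 0 := by rw [← h3]
    · exact h
  subst hτ2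
  exact ⟨g', hτ, hg'⟩

end group

end FA0

open FA0 in
/-- FA0 -/
theorem finA0 (h1 : StmtOrb) (h2 : StmtAutA) (h3 : StmtStar) : StmtFinA0 := by
  intro d Γ _ _ X _ G r hd L hi hsl no yes v hA hpos hact
  obtain ⟨o1, o2, o3, o4, o5, o6, o7⟩ := h1 d Γ X G (G.ρ (d - 1)) 1 r (yes _ (by omega))
    (Or.inl rfl) L.norm (fun w => by rw [L.refl w, one_smul])
  have S : Sit G r v := ⟨hd, L, no, yes, hA, hpos, hact, o1,
    fun k hk w => by rw [o5 k hk w, one_smul], o6, fun k hk => ⟨k, hk, Or.inl rfl⟩⟩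
  obtain ⟨g, hg, hgc⟩ := S.star h3 hi hsl h2
  set τ : Equiv.Perm (Fin (d + 1)) := Equiv.swap 0 ⟨1, by omega⟩ with hτ
  have hττ : ∀ i, τ (τ i) = i := Equiv.swap_apply_self _ _
  have hcomm : ∀ (h : Γ) (π : Equiv.Perm (Fin (d + 1))), Act G v h π →
      Act G v (G.ρ 0 * h * G.ρ 0) (τ * π * τ) := by
    intro h π hh
    have h1 : G.ρ 0 * h * G.ρ 0 ∈ G.H := by
      have := G.conj_mem (G.ρ 0) hh.1
      rwa [G.inv_ρ] at this
    refine ⟨h1, fun i => ?_⟩
    have h2 := hgc h hh.1 (v (τ i))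
    rw [hh.2, hg, hg, hττ] at h2
    exact h2.symm
  -- the vertices
  obtain ⟨a, ha⟩ := hpos
  have ha0 : a ≠ 0 := by
    rintro rfl
    rw [zero_smul] at ha
    exact L.good.chain.x_ne ha
  obtain ⟨b, hb⟩ : ∃ b : ℝ, G.f (G.ρ 0 • G.x0) = b • v (τ 0) := by
    set w := g.symm (G.f (G.ρ 0 • G.x0)) with hw
    have hw1 : w ∈ G.V 1 := by
      intro h hh
      apply g.injective
      have hH : G.ρ 0 * h * G.ρ 0 ∈ G.H := by
        have := G.conj_mem (G.ρ 0) hh.1
        rwa [G.inv_ρ] at this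
      rw [hgc h hh.1, hw, g.apply_symm_apply, G.equiv _ hH, ← mul_smul, mul_assoc, G.sq, mul_one,
        mul_smul, G.up_fix_x0 hh.2]
    have hdim := L.good.chain.dim 1 (by omega)
    have hx1 : G.x ∈ G.V 1 := G.x_mem_V1
    have hx0 : G.x ≠ 0 := L.good.chain.x_ne
    obtain ⟨c, hc⟩ := (finrank_eq_one_iff_of_nonzero' (⟨G.x, hx1⟩ : G.V 1)
      (fun h => hx0 (congrArg Subtype.val h))).1 hdim ⟨w, hw1⟩
    have hc' : c • G.x = w := congrArg Subtype.val hc
    refine ⟨c * a, ?_⟩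
    have h4 : g w = G.f (G.ρ 0 • G.x0) := g.apply_symm_apply _
    rw [← h4, ← hc', ha, smul_smul, map_smul, hg]
  have hb0 : b ≠ 0 := by
    rintro rfl
    rw [zero_smul] at hb
    exact L.good.chain.f_ne _ hb
  -- the two orbits
  have horb : ∀ x : X, (∃ h π, Act G v h π ∧ x = h • G.x0) ∨
      (∃ h π, Act G v h π ∧ x = h • G.ρ 0 • G.x0) := by
    intro x
    obtain ⟨γ, rfl⟩ := G.trans x
    by_cases h : γ ∈ G.H
    · obtain ⟨π, hπ⟩ := S.all h
      exact Or.inl ⟨γ, π, hπ, rfl⟩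
    · obtain ⟨π, hπ⟩ := S.all (G.mul_mem_of_not h no)
      refine Or.inr ⟨_, π, hπ, ?_⟩
      rw [← mul_smul, mul_assoc, G.sq, mul_one]
  have hf1 : ∀ h π, Act G v h π → G.f (h • G.x0) = a • v (π 0) := by
    intro h π hh
    rw [← G.equiv h hh.1]
    change G.T h G.x = _
    rw [ha, map_smul, hh.2]
  have hf2 : ∀ h π, Act G v h π → G.f (h • G.ρ 0 • G.x0) = b • v (π (τ 0)) := by
    intro h π hh
    rw [← G.equiv h hh.1, hb, map_smul, hh.2]
  have hab : a ≠ b := by
    rintro rfl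
    obtain ⟨h, hh⟩ := S.surj τ
    have h4 := hf1 h τ hh
    rw [← hb] at h4
    have h5 := G.inj h4
    have h6 : (h⁻¹ * G.ρ 0) • G.x0 = G.x0 := by rw [mul_smul, ← h5, inv_smul_smul]
    have h7 := G.mem_up_of_fix h6
    have h8 : h⁻¹ * G.ρ 0 ∈ G.H := by
      have : h⁻¹ * G.ρ 0 ∈ G.Hi 1 := by rw [S.Hi1]; exact h7
      exact this.1
    apply no
    have : G.ρ 0 = h * (h⁻¹ * G.ρ 0) := by group
    rw [this]
    exact mul_mem hh.1 h8
  have hFinj := F1_inj (d := d) (by omega) S.simp ha0 hb0 hab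
  -- the bijection
  have hex : ∀ x, ∃ y, F1 v a b y = G.f x := by
    intro x
    rcases horb x with ⟨h, π, hh, rfl⟩ | ⟨h, π, hh, rfl⟩
    · refine ⟨(π 0, false), ?_⟩
      rw [hf1 h π hh]
      simp [F1]
    · refine ⟨(π (τ 0), true), ?_⟩
      rw [hf2 h π hh]
      simp [F1]
  choose e he using hex
  have hebij : Function.Bijective e := by
    constructor
    · intro x y hxy
      apply G.inj
      rw [← he, ← he, hxy]
    · rintro ⟨i, ω⟩
      cases ω
      · obtain ⟨h, hh⟩ := S.surj (Equiv.swap 0 i)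
        refine ⟨h • G.x0, hFinj ?_⟩
        rw [he, hf1 h _ hh, Equiv.swap_apply_left]
        simp [F1]
      · obtain ⟨h, hh⟩ := S.surj (Equiv.swap (τ 0) i)
        refine ⟨h • G.ρ 0 • G.x0, hFinj ?_⟩
        rw [he, hf2 h _ hh, Equiv.swap_apply_left]
        simp [F1]
  -- the action
  have hact1 : ∀ h π, Act G v h π → ∀ x, e (h • x) = (π (e x).1, (e x).2) := by
    intro h π hh x
    apply hFinj
    rw [he, ← G.equiv h hh.1, ← he x]
    simp only [F1, map_smul, hh.2]
  have hact0 : ∀ x, e (G.ρ 0 • x) = (τ (e x).1, !(e x).2) := by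
    intro x
    apply hFinj
    rw [he]
    rcases horb x with ⟨h, π, hh, rfl⟩ | ⟨h, π, hh, rfl⟩
    · have h4 : e (h • G.x0) = (π 0, false) := by
        apply hFinj
        rw [he, hf1 h π hh]
        simp [F1]
      have h5 : G.ρ 0 • h • G.x0 = (G.ρ 0 * h * G.ρ 0) • G.ρ 0 • G.x0 := by
        rw [← mul_smul, ← mul_smul, mul_assoc (G.ρ 0 * h), G.sq, mul_one]
      rw [h5, hf2 _ _ (hcomm h π hh), h4]
      simp [F1, hττ]
    · have h4 : e (h • G.ρ 0 • G.x0) = (π (τ 0), true) := by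
        apply hFinj
        rw [he, hf2 h π hh]
        simp [F1]
      have h5 : G.ρ 0 • h • G.ρ 0 • G.x0 = (G.ρ 0 * h * G.ρ 0) • G.x0 := by
        rw [← mul_smul, ← mul_smul]
      rw [h5, hf1 _ _ (hcomm h π hh), h4]
      simp [F1]
  have hab2 : a ^ 2 ≠ b ^ 2 := by
    intro h
    rcases sq_eq_sq_iff_eq_or_eq_neg.1 h with h | h
    · exact hab h
    · obtain ⟨k, hk⟩ := S.surj τ
      refine G.noiso (G.ρ 0 * k) (fun h4 => no ?_) ⟨LinearIsometryEquiv.neg ℝ, fun x => ?_⟩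
      · have : G.ρ 0 = (G.ρ 0 * k) * k⁻¹ := by group
        rw [this]
        exact mul_mem h4 (inv_mem hk.1)
      · change -G.f x = _
        rw [mul_smul, ← he, ← he, hact0, hact1 k τ hk, hττ]
        unfold F1
        rcases e x with ⟨i, ω⟩
        cases ω
        · simp [h]
        · simp [h]
  refine ⟨v, a, b, S.simp, ha0, hb0, hab2, 1, Equiv.ofBijective e hebij, ?_, ?_, ?_⟩
  · apply hFinj
    change F1 v a b (e ((1 : Γ) • G.x0)) = _
    rw [he, one_smul]
    change G.x = _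
    rw [ha]
    simp [F1]
  · intro i x
    change e ((1 * G.ρ i * 1⁻¹) • x) = (S1 d).σ i (e x)
    rw [one_mul, inv_one, mul_one]
    change _ = σ1 i (e x)
    rcases Nat.eq_zero_or_pos i.val with h0 | h0
    · have hi0 : G.ρ i = G.ρ 0 := by rw [h0]
      rw [hi0, hact0]
      have e1 : i.castSucc = 0 := Fin.ext h0
      have e2 : i.succ = ⟨1, by omega⟩ := Fin.ext (by simp [h0])
      simp only [σ1, h0, e1, e2, hτ, if_true]
      rfl
    · rw [hact1 _ _ (S.gen i h0)]
      have : i.val ≠ 0 := by omega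
      simp only [σ1, this, if_false]
      rfl
  · intro x
    exact (he x).symm

end

end FO2
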