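import Pool.Agent.FO2.Stmts

/-!
# Module FA1: type `A`, `J = {1}` is impossible
-/

namespace FO2

open Lib_helper64.FO
open scoped RealInnerProductSpace

noncomputable section

namespace FA1

variable {d : ℕ} {Γ : Type} [Group Γ] {X : Type} [MulAction Γ X]

/-- Conjugation by `ρ 1` of `h` is realised by `g` up to the scalar `s`. -/
def Ch (G : Geo d Γ X) (g : E d ≃ₗᵢ[ℝ] E d) (s : ℝ) (h : Γ) : Prop :=
  ∀ v, g (G.T h v) = s • G.T (G.ρ 1 * h * G.ρ 1) (g v)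

variable {G : Geo d Γ X} {g : E d ≃ₗᵢ[ℝ] E d}

theorem c_mem {h : Γ} (hh : h ∈ G.H) : G.ρ 1 * h * G.ρ 1 ∈ G.H := by
  have := G.conj_mem (G.ρ 1) hh
  rwa [G.inv_ρ] at this

theorem c_mul (h k : Γ) :
    G.ρ 1 * (h * k) * G.ρ 1 = (G.ρ 1 * h * G.ρ 1) * (G.ρ 1 * k * G.ρ 1) := by
  have h1 := G.sq 1
  calc G.ρ 1 * (h * k) * G.ρ 1 = G.ρ 1 * h * 1 * k * G.ρ 1 := by group
    _ = G.ρ 1 * h * (G.ρ 1 * G.ρ 1) * k * G.ρ 1 := by rw [h1]
    _ = _ := by group

theorem Ch_one : Ch G g 1 1 := by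
  intro v
  rw [mul_one, G.sq 1, G.T_one, one_smul]
  rfl

theorem Ch_mul {s t : ℝ} {h k : Γ} (hh : h ∈ G.H) (hk : k ∈ G.H) (h1 : Ch G g s h)
    (h2 : Ch G g t k) : Ch G g (s * t) (h * k) := by
  intro v
  rw [G.T_mul_apply hh hk, h1, h2, map_smul, c_mul, G.T_mul_apply (c_mem hh) (c_mem hk), smul_smul]

theorem Ch_inv {s : ℝ} (hs : s * s = 1) {h : Γ} (hh : h ∈ G.H) (h1 : Ch G g s h) :
    Ch G g s h⁻¹ := by
  intro v
  have h2 := h1 (G.T h⁻¹ v)
  rw [G.T_inv_apply hh] at h2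
  have h3 : G.ρ 1 * h⁻¹ * G.ρ 1 = (G.ρ 1 * h * G.ρ 1)⁻¹ := by
    rw [mul_inv_rev, mul_inv_rev, G.inv_ρ]
    group
  rw [h3, h2, map_smul, smul_smul, hs, one_smul, G.T_inv_apply' (c_mem hh)]

theorem Ch_conj {s : ℝ} (hs : s * s = 1) {h k : Γ} (hh : h ∈ G.H) (hk : k ∈ G.H)
    (h1 : Ch G g s k) (h2 : Ch G g 1 h) : Ch G g 1 (k * h * k⁻¹) := by
  have h3 := Ch_mul (mul_mem hk hh) (inv_mem hk) (Ch_mul hk hh h1 h2) (Ch_inv hs hk h1)
  rw [mul_one, hs] at h3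
  exact h3

/-- two linear isometries which agree on the simplex are equal -/
theorem ext_simplex {Φ : Set (E d)} {v : Fin (d + 1) → E d} (hA : IsA Φ v)
    (hs : Submodule.span ℝ Φ = ⊤) {A B : E d →ₗ[ℝ] E d} (h : ∀ i, A (v i) = B (v i)) (w : E d) :
    A w = B w := by
  have h1 : Submodule.span ℝ Φ ≤ LinearMap.eqLocus A B := by
    rw [Submodule.span_le]
    intro a ha
    obtain ⟨i, j, -, t, -, -, rfl⟩ := (hA.2 a).1 ha
    show A _ = B _
    rw [map_smul, map_smul, map_sub, map_sub, h, h]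
  rw [hs] at h1
  exact h1 (Submodule.mem_top (x := w))

theorem norm_v {Φ : Set (E d)} {v : Fin (d + 1) → E d} (hA : IsA Φ v) (i : Fin (d + 1)) :
    v i ≠ 0 := by
  intro h
  have h1 := hA.1 i i
  rw [if_pos rfl, h, inner_zero_left] at h1
  exact one_ne_zero h1.symm

theorem eq_zero_of_neg {w : E d} (h : w = -w) : w = 0 := by
  have h1 : (2 : ℝ) • w = 0 := by
    rw [two_smul]
    nth_rewrite 2 [h]
    exact add_neg_cancel w
  rcases smul_eq_zero.1 h1 with h2 | h2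
  · norm_num at h2
  · exact h2

/-- the reflections in the roots are the transpositions -/
theorem root_swap (hd : 0 < d) {Φ : Set (E d)} {v : Fin (d + 1) → E d} (hA : IsA Φ v)
    {i j : Fin (d + 1)} (hij : i ≠ j) :
    ∃ b ∈ Φ, ∀ k, sref b (v k) = v (Equiv.swap i j k) := by
  have hd' : (0 : ℝ) < d := by exact_mod_cast hd
  have hne : ∀ i j : Fin (d + 1), i ≠ j → ⟪v i, v j⟫ = (-1 / d : ℝ) := fun i j h => by
    rw [hA.1 i j, if_neg h]
  have hnn : ⟪v i - v j, v i - v j⟫ = (2 + 2 / d : ℝ) := by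
    rw [inner_sub_left, inner_sub_right, inner_sub_right, hA.1 i i, hA.1 j j, if_pos rfl, if_pos rfl,
      hne i j hij, hne j i hij.symm]
    ring
  have hpos : (0 : ℝ) < 2 + 2 / d := by positivity
  have hn2 : ‖v i - v j‖ ^ 2 = 2 + 2 / d := by rw [← real_inner_self_eq_norm_sq, hnn]
  have hn : 0 < ‖v i - v j‖ := by
    rcases (norm_nonneg (v i - v j)).eq_or_lt with h | h
    · rw [← h] at hn2
      nlinarith
    · exact h
  set t : ℝ := ‖v i - v j‖⁻¹ with ht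
  have ht2 : t * t * (2 + 2 / d) = 1 := by
    rw [← hn2, ht]
    field_simp
  refine ⟨t • (v i - v j), (hA.2 _).2 ⟨i, j, hij, t, inv_pos.2 hn, ?_, rfl⟩, ?_⟩
  · rw [norm_smul, ht, norm_inv, norm_norm, inv_mul_cancel₀ hn.ne']
  · intro k
    rw [sref, inner_smul_left, inner_sub_left]
    simp only [conj_trivial]
    by_cases hki : k = i
    · subst hki
      rw [Equiv.swap_apply_left, hA.1 k k, if_pos rfl, hne j k hij.symm, smul_smul]
      have h1 : 2 * (t * (1 - -1 / (d : ℝ))) * t = 1 := by linear_combination ht2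
      rw [h1, one_smul]
      abel
    · by_cases hkj : k = j
      · subst hkj
        rw [Equiv.swap_apply_right, hA.1 k k, if_pos rfl, hne i k hij, smul_smul]
        have h1 : 2 * (t * (-1 / (d : ℝ) - 1)) * t = -1 := by linear_combination -ht2
        rw [h1, neg_one_smul]
        abel
      · rw [Equiv.swap_apply_of_ne_of_ne hki hkj, hne i k (Ne.symm hki), hne j k (Ne.symm hkj),
          sub_self, mul_zero, mul_zero, zero_smul, sub_zero]

end FA1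

theorem finA1 (h1 : StmtOrb) (h2 : StmtAutA) (h3 : StmtChi) : StmtFinA1 := by
  intro d Γ _ _ X _ G r hd hL hI hS h0 h1n h2m v hA
  obtain ⟨g, -, -, -, hg4, hg5, hg6⟩ := h3 d Γ X G r (by omega) hL hI hS h0 h1n h2m
  have hρ : G.ρ (d - 1) ∈ G.H := hL.J _ (by omega)
  obtain ⟨-, -, hΦ, -, hk, hb, -⟩ := h1 d Γ X G (G.ρ (d - 1)) 1 r hρ (Or.inl rfl) hL.norm
    (fun v => by rw [one_smul]; exact hL.refl v)
  have hch : ∀ h ∈ G.H, ∃ s : ℝ, s * s = 1 ∧ FA1.Ch G g s h := by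
    intro h hh
    rcases hg4 h hh with h4 | h4
    · exact ⟨1, one_mul 1, fun v => by rw [one_smul]; exact h4 v⟩
    · exact ⟨-1, by norm_num, fun v => by rw [neg_one_smul]; exact h4 v⟩
  have hchρ : FA1.Ch G g 1 (G.ρ (d - 1)) := by
    intro v
    rw [one_smul]
    exact hg5 _ ⟨hρ, G.ρ_mem_up (by omega)⟩ v
  have hch0 : FA1.Ch G g (-1) (G.ρ 0) := by
    intro v
    rw [neg_one_smul]
    exact hg6 v
  -- all permutations occur
  have hperm : ∀ π : Equiv.Perm (Fin (d + 1)), ∃ h ∈ G.H, FA1.Ch G g 1 h ∧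
      ∀ k, G.T h (v k) = v (π k) := by
    intro π
    induction π using Equiv.Perm.swap_induction_on with
    | one => exact ⟨1, one_mem _, FA1.Ch_one, fun k => by rw [G.T_one]; rfl⟩
    | swap_mul f x y hxy ih =>
      obtain ⟨h, hh, hc, hT⟩ := ih
      obtain ⟨b, hbΦ, hbs⟩ := FA1.root_swap (by omega) hA hxy
      obtain ⟨k, hkH, hsb⟩ := hb b hbΦ
      obtain ⟨s, hs, hsk⟩ := hch k hkH
      have hc' := FA1.Ch_conj hs hρ hkH hsk hchρ
      have hm : k * G.ρ (d - 1) * k⁻¹ ∈ G.H := mul_mem (mul_mem hkH hρ) (inv_mem hkH)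
      refine ⟨k * G.ρ (d - 1) * k⁻¹ * h, mul_mem hm hh, ?_, ?_⟩
      · have := FA1.Ch_mul hm hh hc' hc
        rwa [one_mul] at this
      · intro i
        rw [G.T_mul_apply hm hh, hT, hk k hkH, one_smul, ← hsb, hbs]
        rfl
  obtain ⟨π, hπ⟩ := h2 d (G.orb r) v (by omega) hA (G.T (G.ρ 0)) (hΦ _ h0)
  obtain ⟨h, hh, hc, hT⟩ := hperm π
  have hv0 := FA1.norm_v hA 0
  rcases hπ with hπ | hπ
  · have e1 : G.T (G.ρ 0) = G.T h := by
      ext1 w
      exact FA1.ext_simplex hA hL.span (A := (G.T (G.ρ 0)).toLinearEquiv.toLinearMap)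
        (B := (G.T h).toLinearEquiv.toLinearMap) (fun i => (hπ i).trans (hT i).symm) w
    have e2 := G.T_inj h0 hh e1
    rw [← e2] at hc
    have h5 := hc (v 0)
    rw [hch0 (v 0), neg_one_smul, one_smul] at h5
    have h5' := FA1.eq_zero_of_neg h5.symm
    apply hv0
    have h6 : g (v 0) = 0 := by
      apply (G.T (G.ρ 1 * G.ρ 0 * G.ρ 1)).injective
      rw [h5', map_zero]
    exact g.injective (by rw [h6, map_zero])
  · have hz : G.ρ 0 * h⁻¹ ∈ G.H := mul_mem h0 (inv_mem hh)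
    have e1 : ∀ w, G.T (G.ρ 0 * h⁻¹) w = -w := by
      intro w
      refine FA1.ext_simplex hA hL.span (A := (G.T (G.ρ 0 * h⁻¹)).toLinearEquiv.toLinearMap)
        (B := -LinearMap.id) (fun i => ?_) w
      show G.T (G.ρ 0 * h⁻¹) (v i) = -(v i)
      obtain ⟨j, rfl⟩ := π.surjective i
      rw [← hπ j, G.T_mul_apply h0 (inv_mem hh), ← hT j, G.T_inv_apply' hh]
    have hcz : FA1.Ch G g (-1) (G.ρ 0 * h⁻¹) := by
      have := FA1.Ch_mul h0 (inv_mem hh) hch0 (FA1.Ch_inv (one_mul 1) hh hc)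
      rwa [mul_one] at this
    have e3 : G.T (G.ρ 1 * (G.ρ 0 * h⁻¹) * G.ρ 1) = G.T 1 := by
      ext1 w
      obtain ⟨u, rfl⟩ := g.surjective w
      have h6 := hcz u
      rw [e1 u, neg_one_smul, map_neg, neg_inj] at h6
      rw [← h6, G.T_one]
      rfl
    have e4 := G.T_inj (FA1.c_mem hz) (one_mem _) e3
    have e5 : G.ρ 0 * h⁻¹ = 1 := by
      have h7 := G.sq 1
      calc G.ρ 0 * h⁻¹ = 1 * (G.ρ 0 * h⁻¹) * 1 := by group
        _ = (G.ρ 1 * G.ρ 1) * (G.ρ 0 * h⁻¹) * (G.ρ 1 * G.ρ 1) := by rw [h7]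
        _ = G.ρ 1 * (G.ρ 1 * (G.ρ 0 * h⁻¹) * G.ρ 1) * G.ρ 1 := by group
        _ = 1 := by rw [e4, mul_one, h7]
    have h8 := e1 (v 0)
    rw [e5, G.T_one] at h8
    have h9 : v 0 = -(v 0) := h8
    exact hv0 (FA1.eq_zero_of_neg h9)

end

end FO2
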