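import Pool.Agent.FO2.Stmts

/-!
# Type `D`, only the generator `0` is not isometric: the cube
-/

namespace FO2

open Lib_helper64.FO
open scoped RealInnerProductSpace

namespace FD0

noncomputable section

/-! ### signs and sign vectors -/

theorem sg_inj {a b : ℤˣ} (h : sg a = sg b) : a = b := by
  unfold sg at h
  exact Units.ext (by exact_mod_cast h)

theorem sg_sq (a : ℤˣ) : sg a ^ 2 = 1 := by
  unfold sg
  rcases Int.units_eq_one_or a with rfl | rfl <;> norm_num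

theorem sg_ne (a : ℤˣ) : sg a ≠ 0 := by
  intro h
  have := sg_sq a
  rw [h] at this
  norm_num at this

theorem sg_neg (a : ℤˣ) : sg (-a) = -sg a := by
  unfold sg
  push_cast
  rfl

theorem sg_one : sg 1 = 1 := by
  unfold sg
  norm_num

section vec

variable {d : ℕ} (u : OrthonormalBasis (Fin d) ℝ (E d))

/-- the sum of the basis vectors with the signs `y` -/
def vec (y : Fin d → ℤˣ) : E d := ∑ i, sg (y i) • u i

theorem F2_eq (a b : ℝ) (y : Fin d → ℤˣ) :
    F2 u a b y = (if par y = 1 then a else b) • vec u y := rfl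

theorem inner_vec (y : Fin d → ℤˣ) (i : Fin d) : ⟪u i, vec u y⟫ = sg (y i) := by
  unfold vec
  exact u.orthonormal.inner_right_fintype _ i

theorem F2_inj {a b : ℝ} (ha : a ≠ 0) (hb : b ≠ 0) (hab : a ^ 2 ≠ b ^ 2) (hd : 0 < d) :
    Function.Injective (F2 u a b) := by
  intro y y' h
  have h1 : ∀ i, (if par y = 1 then a else b) * sg (y i) =
      (if par y' = 1 then a else b) * sg (y' i) := by
    intro i
    have h2 := congrArg (fun v => ⟪u i, v⟫) h
    simp only [F2_eq, inner_smul_right, inner_vec] at h2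
    exact h2
  have h2 : (if par y = 1 then a else b) ^ 2 = (if par y' = 1 then a else b) ^ 2 := by
    have h3 := congrArg (fun t => t ^ 2) (h1 ⟨0, hd⟩)
    simp only [mul_pow, sg_sq, mul_one] at h3
    exact h3
  have h4 : (if par y = 1 then a else b) = (if par y' = 1 then a else b) := by
    split_ifs at h2 ⊢
    · rfl
    · exact absurd h2 hab
    · exact absurd h2.symm hab
    · rfl
  have h5 : (if par y' = 1 then a else b) ≠ 0 := by
    split_ifs
    · exact ha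
    · exact hb
  funext i
  have h6 := h1 i
  rw [h4] at h6
  exact sg_inj (mul_left_cancel₀ h5 h6)

/-- two linear isometries which agree on the basis -/
theorem ext_basis {A B : E d →ₗ[ℝ] E d} (h : ∀ k, A (u k) = B (u k)) (v : E d) : A v = B v := by
  have : A = B := u.toBasis.ext fun k => by
    rw [OrthonormalBasis.coe_toBasis]
    exact h k
  rw [this]

theorem smul_inj {a b : ℤˣ} {i j : Fin d} (h : sg a • u i = sg b • u j) : i = j ∧ a = b := by
  have h1 := congrArg (fun v => ⟪u i, v⟫) h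
  simp only [inner_smul_right, OrthonormalBasis.inner_eq_ite] at h1
  by_cases hij : i = j
  · subst hij
    simp only [if_true, mul_one] at h1
    exact ⟨rfl, sg_inj h1⟩
  · rw [if_neg hij] at h1
    simp only [if_true, mul_one, mul_zero] at h1
    exact absurd h1 (sg_ne a)

end vec

/-- `sref a` as a linear map -/
def srefL {d : ℕ} (a : E d) : E d →ₗ[ℝ] E d where
  toFun := sref a
  map_add' := sref_add a
  map_smul' c v := sref_smul a v c

theorem inv_sqrt_two_sq : (1 / √2 : ℝ) * (1 / √2) = 1 / 2 := by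
  rw [div_mul_div_comm, one_mul, Real.mul_self_sqrt (by norm_num)]

/-! ### adjacent transpositions -/

theorem swap_moves {d : ℕ} (j k : Fin d) (hj : 2 ≤ j.val)
    (hk : k.val = j.val - 1 ∨ k.val = j.val) : Equiv.swap (prd j) j k ≠ k := by
  have hp : (prd j).val = j.val - 1 := rfl
  rcases hk with hk | hk
  · have : k = prd j := Fin.ext (by rw [hp]; exact hk)
    subst this
    rw [Equiv.swap_apply_left]
    intro h
    have := congrArg Fin.val h
    omega
  · have : k = j := Fin.ext hk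
    subst this
    rw [Equiv.swap_apply_right]
    intro h
    have := congrArg Fin.val h
    omega

theorem swap_fixes {d : ℕ} (j k : Fin d)
    (hk : ¬ (k.val = j.val - 1 ∨ k.val = j.val)) : Equiv.swap (prd j) j k = k := by
  refine Equiv.swap_apply_of_ne_of_ne ?_ ?_
  · intro h
    apply hk
    left
    rw [h]
    rfl
  · intro h
    apply hk
    right
    rw [h]

theorem exists_sep {d : ℕ} (hd : 4 ≤ d) (k m : Fin d) (hkm : k ≠ m) : ∃ j : Fin d, 2 ≤ j.val ∧
    (((k.val = j.val - 1 ∨ k.val = j.val) ∧ ¬ (m.val = j.val - 1 ∨ m.val = j.val)) ∨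
      ((m.val = j.val - 1 ∨ m.val = j.val) ∧ ¬ (k.val = j.val - 1 ∨ k.val = j.val))) := by
  have hk := k.2
  have hm := m.2
  have hne : k.val ≠ m.val := fun h => hkm (Fin.ext h)
  rcases lt_or_gt_of_ne hne with h | h
  · by_cases h1 : m.val + 1 < d
    · exact ⟨⟨m.val + 1, h1⟩, by dsimp only; omega, by dsimp only; omega⟩
    · by_cases h2 : 2 ≤ k.val
      · exact ⟨k, by omega, by omega⟩
      · by_cases h3 : k.val = 1
        · exact ⟨⟨2, by omega⟩, by dsimp only; omega, by dsimp only; omega⟩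
        · exact ⟨m, by omega, by omega⟩
  · by_cases h1 : k.val + 1 < d
    · exact ⟨⟨k.val + 1, h1⟩, by dsimp only; omega, by dsimp only; omega⟩
    · by_cases h2 : 2 ≤ m.val
      · exact ⟨m, by omega, by omega⟩
      · by_cases h3 : m.val = 1
        · exact ⟨⟨2, by omega⟩, by dsimp only; omega, by dsimp only; omega⟩
        · exact ⟨k, by omega, by omega⟩

/-- A permutation commuting with the transpositions of `{1, …, d - 1}` is trivial. -/
theorem perm_eq {d : ℕ} (hd : 4 ≤ d) (π : Equiv.Perm (Fin d))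
    (h : ∀ j : Fin d, 2 ≤ j.val → ∀ k, π (Equiv.swap (prd j) j k) = Equiv.swap (prd j) j (π k))
    (k : Fin d) : π k = k := by
  by_contra hne
  obtain ⟨j, hj, hs⟩ := exists_sep hd k (π k) (Ne.symm hne)
  rcases hs with ⟨h1, h2⟩ | ⟨h1, h2⟩
  · have h3 := h j hj k
    rw [swap_fixes j (π k) h2] at h3
    exact swap_moves j k hj h1 (π.injective h3)
  · have h3 := h j hj k
    rw [swap_fixes j k h2] at h3
    exact swap_moves j (π k) hj h1 h3.symm

/-! ### the group -/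

section grp

variable {d : ℕ} {Γ : Type} [Group Γ] {X : Type} [MulAction Γ X] {G : Geo d Γ X}

theorem H_le (K : Subgroup Γ) (hK : K ≤ G.H) (h0 : G.ρ 0 ∉ G.H) (h1 : ∀ j, 1 ≤ j → G.ρ j ∈ K)
    (hc : ∀ k ∈ K, G.ρ 0 * k * (G.ρ 0)⁻¹ ∈ K) : G.H ≤ K := by
  have hc' : ∀ k ∈ K, (G.ρ 0)⁻¹ * k * G.ρ 0 ∈ K := by
    intro k hk
    have := hc k hk
    rwa [G.inv_ρ] at this ⊢
  have key : ∀ γ : Γ, γ ∈ K ∨ γ * G.ρ 0 ∈ K := by
    intro γ
    have hγ : γ ∈ Subgroup.closure (G.ρ '' Set.univ) := by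
      have := G.gen
      unfold gpar at this
      rw [this]
      exact Subgroup.mem_top γ
    refine Subgroup.closure_induction (p := fun γ _ => γ ∈ K ∨ γ * G.ρ 0 ∈ K) ?_ ?_ ?_ ?_ hγ
    · rintro _ ⟨j, -, rfl⟩
      rcases Nat.eq_zero_or_pos j with rfl | hj
      · right
        rw [G.sq 0]
        exact one_mem K
      · left
        exact h1 j hj
    · left
      exact one_mem K
    · rintro a b - - (ha | ha) (hb | hb)
      · left
        exact mul_mem ha hb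
      · right
        rw [mul_assoc]
        exact mul_mem ha hb
      · right
        have h2 := mul_mem ha (hc' b hb)
        have e : a * G.ρ 0 * ((G.ρ 0)⁻¹ * b * G.ρ 0) = a * b * G.ρ 0 := by group
        rwa [e] at h2
      · left
        have h2 := mul_mem ha (hc' _ hb)
        have e : a * G.ρ 0 * ((G.ρ 0)⁻¹ * (b * G.ρ 0) * G.ρ 0) = a * b * (G.ρ 0 * G.ρ 0) := by group
        rwa [e, G.sq, mul_one] at h2
    · rintro a - (ha | ha)
      · left
        exact inv_mem ha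
      · right
        have h2 := hc _ (inv_mem ha)
        have e : G.ρ 0 * (a * G.ρ 0)⁻¹ * (G.ρ 0)⁻¹ = a⁻¹ * (G.ρ 0)⁻¹ := by group
        rwa [e, G.inv_ρ] at h2
  intro γ hγ
  rcases key γ with h | h
  · exact h
  · exfalso
    apply h0
    have h2 := mul_mem (inv_mem hγ) (hK h)
    rwa [inv_mul_cancel_left] at h2

/-- Elements with `g T_h = T_(ρ₀ h ρ₀) g`. -/
def KR (G : Geo d Γ X) (g : E d ≃ₗᵢ[ℝ] E d) : Subgroup Γ where
  carrier := {h | h ∈ G.H ∧ ∀ v, g (G.T h v) = G.T (G.ρ 0 * h * (G.ρ 0)⁻¹) (g v)}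
  one_mem' := ⟨one_mem _, fun v => by rw [mul_one, mul_inv_cancel, G.T_one]; rfl⟩
  mul_mem' := by
    rintro a b ⟨ha, ha'⟩ ⟨hb, hb'⟩
    refine ⟨mul_mem ha hb, fun v => ?_⟩
    have e : G.ρ 0 * (a * b) * (G.ρ 0)⁻¹ =
        (G.ρ 0 * a * (G.ρ 0)⁻¹) * (G.ρ 0 * b * (G.ρ 0)⁻¹) := by group
    rw [G.T_mul_apply ha hb, ha', hb', e, G.T_mul_apply (G.conj_mem _ ha) (G.conj_mem _ hb)]
  inv_mem' := by
    rintro a ⟨ha, ha'⟩
    refine ⟨inv_mem ha, fun v => ?_⟩
    have e : G.ρ 0 * a⁻¹ * (G.ρ 0)⁻¹ = (G.ρ 0 * a * (G.ρ 0)⁻¹)⁻¹ := by group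
    have h1 := ha' (G.T a⁻¹ v)
    rw [G.T_inv_apply ha] at h1
    rw [e, h1, G.T_inv_apply' (G.conj_mem _ ha)]

theorem mem_KR {g : E d ≃ₗᵢ[ℝ] E d} {h : Γ} :
    h ∈ KR G g ↔ h ∈ G.H ∧ ∀ v, g (G.T h v) = G.T (G.ρ 0 * h * (G.ρ 0)⁻¹) (g v) := Iff.rfl

theorem KR_conj {g : E d ≃ₗᵢ[ℝ] E d} (hg : ∀ v, g (g v) = v) {k : Γ} (hk : k ∈ KR G g) :
    G.ρ 0 * k * (G.ρ 0)⁻¹ ∈ KR G g := by
  obtain ⟨h1, h2⟩ := mem_KR.1 hk
  refine mem_KR.2 ⟨G.conj_mem _ h1, fun v => ?_⟩
  have e : G.ρ 0 * (G.ρ 0 * k * (G.ρ 0)⁻¹) * (G.ρ 0)⁻¹ = k := by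
    calc G.ρ 0 * (G.ρ 0 * k * (G.ρ 0)⁻¹) * (G.ρ 0)⁻¹ = (G.ρ 0 * G.ρ 0) * k * (G.ρ 0 * G.ρ 0)⁻¹ := by
          group
      _ = k := by rw [G.sq, one_mul, inv_one, mul_one]
  rw [e]
  have h3 := h2 (g v)
  rw [hg] at h3
  rw [← h3, hg]

end grp

/-! ### the vertices -/

section vert

variable {d : ℕ} {Γ : Type} [Group Γ] {X : Type} [MulAction Γ X]

theorem m2_zero {j : Fin d} (hj : j.val = 0) (y : Fin d → ℤˣ) (k : Fin d) :
    m2 j y k = if k = j then -y k else y k := by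
  unfold m2
  rw [if_pos hj]

theorem m2_pos {j : Fin d} (hj : j.val ≠ 0) (y : Fin d → ℤˣ) (k : Fin d) :
    m2 j y k = y (Equiv.swap (prd j) j k) := by
  unfold m2
  rw [if_neg hj]

/-- every sign vector is reached -/
theorem all_vec (S : Set (Fin d → ℤˣ)) (h1 : (fun _ => 1) ∈ S)
    (hm : ∀ y ∈ S, ∀ j : Fin d, m2 j y ∈ S) (y : Fin d → ℤˣ) : y ∈ S := by
  classical
  have flip : ∀ (n : ℕ) (hn : n < d), ∀ y ∈ S,
      (fun k => if k = (⟨n, hn⟩ : Fin d) then -y k else y k) ∈ S := by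
    intro n
    induction n with
    | zero =>
      intro hn y hy
      have h2 := hm y hy ⟨0, hn⟩
      have e : m2 (⟨0, hn⟩ : Fin d) y = fun k => if k = (⟨0, hn⟩ : Fin d) then -y k else y k := by
        funext k
        exact m2_zero rfl y k
      rwa [e] at h2
    | succ n ih =>
      intro hn y hy
      have hn' : n < d := by omega
      have hj : (⟨n + 1, hn⟩ : Fin d).val ≠ 0 := by simp
      have hp : prd (⟨n + 1, hn⟩ : Fin d) = ⟨n, hn'⟩ := rfl
      have h2 := hm _ (ih hn' _ (hm y hy ⟨n + 1, hn⟩)) ⟨n + 1, hn⟩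
      have e : m2 (⟨n + 1, hn⟩ : Fin d) (fun k => if k = (⟨n, hn'⟩ : Fin d)
          then -m2 (⟨n + 1, hn⟩ : Fin d) y k else m2 (⟨n + 1, hn⟩ : Fin d) y k) =
          fun k => if k = (⟨n + 1, hn⟩ : Fin d) then -y k else y k := by
        funext k
        rw [m2_pos hj, m2_pos hj, Equiv.swap_apply_self, hp]
        have e2 : Equiv.swap (⟨n, hn'⟩ : Fin d) ⟨n + 1, hn⟩ k = ⟨n, hn'⟩ ↔ k = ⟨n + 1, hn⟩ := by
          constructor
          · intro h
            rw [← Equiv.swap_apply_self (⟨n, hn'⟩ : Fin d) ⟨n + 1, hn⟩ k, h,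
              Equiv.swap_apply_left]
          · rintro rfl
            exact Equiv.swap_apply_right _ _
        by_cases hk : k = ⟨n + 1, hn⟩
        · rw [if_pos hk, if_pos (e2.2 hk)]
        · rw [if_neg hk, if_neg (fun h => hk (e2.1 h))]
      rwa [e] at h2
  have fin : ∀ A : Finset (Fin d), (fun k => if k ∈ A then (-1 : ℤˣ) else 1) ∈ S := by
    intro A
    induction A using Finset.induction_on with
    | empty =>
      simpa using h1
    | insert i A hi ih =>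
      have h2 := flip i.val i.2 _ ih
      have e : (fun k => if k = (⟨i.val, i.2⟩ : Fin d) then
          -(if k ∈ A then (-1 : ℤˣ) else 1) else (if k ∈ A then (-1 : ℤˣ) else 1)) =
          fun k => if k ∈ insert i A then (-1 : ℤˣ) else 1 := by
        funext k
        by_cases hk : k = i
        · subst hk
          rw [if_pos rfl, if_neg hi, if_pos (Finset.mem_insert_self _ _)]
        · rw [if_neg hk]
          simp only [Finset.mem_insert, hk, false_or]
      rwa [e] at h2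
  have h3 := fin (Finset.univ.filter fun k => y k = -1)
  have e : (fun k => if k ∈ Finset.univ.filter (fun k => y k = -1) then (-1 : ℤˣ) else 1) = y := by
    funext k
    simp only [Finset.mem_filter, Finset.mem_univ, true_and]
    rcases Int.units_eq_one_or (y k) with h | h
    · rw [h]
      rfl
    · rw [h]
      rfl
  rwa [e] at h3

theorem par_one : par (fun _ : Fin d => (1 : ℤˣ)) = 1 := by
  unfold par
  exact Finset.prod_const_one

variable (G : Geo d Γ X) (u : OrthonormalBasis (Fin d) ℝ (E d)) (g : E d ≃ₗᵢ[ℝ] E d) (a b : ℝ)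

/-- the data of the construction -/
structure Dat : Prop where
  hd : 0 < d
  ha : a ≠ 0
  hb : b ≠ 0
  h0 : G.ρ 0 ∉ G.H
  h1 : ∀ j, 1 ≤ j → G.ρ j ∈ G.H
  hx : G.x = a • vec u (fun _ => 1)
  hT : ∀ j : Fin d, 1 ≤ j.val → ∀ k, G.T (G.ρ j) (u k) = u (Equiv.swap (prd j) j k)
  hg : ∀ k : Fin d, g (u k) = if k.val = 0 then -u k else u k
  hR : ∀ h ∈ G.H, ∀ v, g (G.T h v) = G.T (G.ρ 0 * h * (G.ρ 0)⁻¹) (g v)
  hy : G.f (G.ρ 0 • G.x0) = b • g (vec u (fun _ => 1))

theorem g_vec {u : OrthonormalBasis (Fin d) ℝ (E d)} {g : E d ≃ₗᵢ[ℝ] E d}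
    (hg : ∀ k : Fin d, g (u k) = if k.val = 0 then -u k else u k)
    {j : Fin d} (hj : j.val = 0) (y : Fin d → ℤˣ) : g (vec u y) = vec u (m2 j y) := by
  unfold vec
  rw [map_sum]
  refine Finset.sum_congr rfl fun k _ => ?_
  rw [map_smul, hg, m2_zero hj]
  have e : k = j ↔ k.val = 0 := by
    rw [Fin.ext_iff, hj]
  by_cases hk : k.val = 0
  · rw [if_pos hk, if_pos (e.2 hk), sg_neg, smul_neg, neg_smul]
  · rw [if_neg hk, if_neg (fun h => hk (e.1 h))]

theorem g_g {u : OrthonormalBasis (Fin d) ℝ (E d)} {g : E d ≃ₗᵢ[ℝ] E d}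
    (hg : ∀ k : Fin d, g (u k) = if k.val = 0 then -u k else u k) (v : E d) : g (g v) = v := by
  have h := ext_basis u (A := (g.toLinearEquiv : E d →ₗ[ℝ] E d) ∘ₗ (g.toLinearEquiv : E d →ₗ[ℝ] E d))
    (B := LinearMap.id) (fun k => by
      show g (g (u k)) = u k
      rw [hg]
      by_cases hk : k.val = 0
      · rw [if_pos hk, map_neg, hg, if_pos hk, neg_neg]
      · rw [if_neg hk, hg, if_neg hk]) v
  exact h

variable {G u g a b}

theorem T_vec (D : Dat G u g a b) {j : Fin d} (hj : 1 ≤ j.val) (y : Fin d → ℤˣ) :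
    G.T (G.ρ j) (vec u y) = vec u (m2 j y) := by
  unfold vec
  rw [map_sum]
  have e1 : ∀ k, G.T (G.ρ j) (sg (y k) • u k) =
      (fun k => sg (m2 j y k) • u k) (Equiv.swap (prd j) j k) := by
    intro k
    simp only
    rw [map_smul, D.hT j hj, m2_pos (by omega), Equiv.swap_apply_self]
  rw [Finset.sum_congr rfl fun k _ => e1 k]
  exact Equiv.sum_comp (Equiv.swap (prd j) j) (fun k => sg (m2 j y k) • u k)

/-- the value of the vertex map at `γ x₀` is given by the sign vector `y` -/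
def PP (G : Geo d Γ X) (u : OrthonormalBasis (Fin d) ℝ (E d)) (a b : ℝ) (γ : Γ)
    (y : Fin d → ℤˣ) : Prop :=
  (γ ∈ G.H → G.f (γ • G.x0) = a • vec u y ∧ par y = 1) ∧
    (γ ∉ G.H → G.f (γ • G.x0) = b • vec u y ∧ par y = -1)

theorem PP.f_eq {γ : Γ} {y : Fin d → ℤˣ} (h : PP G u a b γ y) :
    G.f (γ • G.x0) = F2 u a b y := by
  rw [F2_eq]
  by_cases hγ : γ ∈ G.H
  · obtain ⟨h1, h2⟩ := h.1 hγ
    rw [if_pos h2, h1]
  · obtain ⟨h1, h2⟩ := h.2 hγ
    rw [h2, if_neg (by decide), h1]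

theorem PP_one (D : Dat G u g a b) : PP G u a b 1 (fun _ => 1) := by
  constructor
  · intro _
    rw [one_smul]
    exact ⟨D.hx, par_one⟩
  · intro h
    exact absurd (one_mem _) h

theorem PP_step (D : Dat G u g a b) (i : Fin d) {γ : Γ} {y : Fin d → ℤˣ} (h : PP G u a b γ y) :
    PP G u a b (G.ρ i * γ) (m2 i y) := by
  by_cases hi : i.val = 0
  · have hi' : G.ρ i = G.ρ 0 := by rw [hi]
    rw [hi']
    have hinv : (G.ρ 0)⁻¹ ∉ G.H := fun h1 => D.h0 (by simpa using inv_mem h1)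
    constructor
    · intro hm
      have hγ : γ ∉ G.H := by
        intro hγ
        apply D.h0
        have := mul_mem hm (inv_mem hγ)
        rwa [mul_inv_cancel_right] at this
      obtain ⟨h1, h2⟩ := h.2 hγ
      refine ⟨?_, by rw [par_flip i hi, h2, neg_neg]⟩
      have hk : γ * (G.ρ 0)⁻¹ ∈ G.H := G.mul_mem_of_not hγ hinv
      have e1 : G.f (γ • G.x0) = G.T (γ * (G.ρ 0)⁻¹) (G.f (G.ρ 0 • G.x0)) := by
        rw [G.equiv _ hk, ← mul_smul, inv_mul_cancel_right]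
      rw [D.hy, map_smul, h1] at e1
      have e2 : vec u y = G.T (γ * (G.ρ 0)⁻¹) (g (vec u fun _ => 1)) :=
        smul_right_injective _ D.hb e1
      have e3 : G.ρ 0 * (γ * (G.ρ 0)⁻¹) * (G.ρ 0)⁻¹ = G.ρ 0 * γ := by
        calc G.ρ 0 * (γ * (G.ρ 0)⁻¹) * (G.ρ 0)⁻¹ = G.ρ 0 * γ * (G.ρ 0 * G.ρ 0)⁻¹ := by group
          _ = G.ρ 0 * γ := by rw [G.sq, inv_one, mul_one]
      have e4 := D.hR _ hk (g (vec u fun _ => 1))
      rw [← e2, e3, g_g D.hg, g_vec D.hg hi] at e4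
      rw [← G.equiv _ hm]
      show G.T (G.ρ 0 * γ) G.x = _
      rw [D.hx, map_smul, e4]
    · intro hm
      have hγ : γ ∈ G.H := by
        by_contra hγ
        exact hm (G.mul_mem_of_not D.h0 hγ)
      obtain ⟨h1, h2⟩ := h.1 hγ
      refine ⟨?_, by rw [par_flip i hi, h2]⟩
      have e1 : G.T γ (vec u fun _ => 1) = vec u y := by
        have h3 := G.equiv γ hγ G.x0
        have h4 : G.T γ G.x = G.f (γ • G.x0) := h3
        rw [D.hx, map_smul, h1] at h4
        exact smul_right_injective _ D.ha h4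
      have e2 : (G.ρ 0 * γ) • G.x0 = (G.ρ 0 * γ * (G.ρ 0)⁻¹) • G.ρ 0 • G.x0 := by
        rw [← mul_smul, inv_mul_cancel_right]
      rw [e2, ← G.equiv _ (G.conj_mem _ hγ), D.hy, map_smul, ← D.hR γ hγ, e1, g_vec D.hg hi]
  · have hi1 : 1 ≤ i.val := by omega
    have hρ : G.ρ i ∈ G.H := D.h1 i hi1
    have hiff : G.ρ i * γ ∈ G.H ↔ γ ∈ G.H := by
      constructor
      · intro hm
        have := mul_mem (inv_mem hρ) hm
        rwa [inv_mul_cancel_left] at this
      · exact fun hm => mul_mem hρ hm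
    constructor
    · intro hm
      obtain ⟨h1, h2⟩ := h.1 (hiff.1 hm)
      refine ⟨?_, by rw [par_swap i hi, h2]⟩
      rw [mul_smul, ← G.equiv _ hρ, h1, map_smul, T_vec D hi1]
    · intro hm
      obtain ⟨h1, h2⟩ := h.2 (fun h => hm (hiff.2 h))
      refine ⟨?_, by rw [par_swap i hi, h2]⟩
      rw [mul_smul, ← G.equiv _ hρ, h1, map_smul, T_vec D hi1]

theorem exists_PP (D : Dat G u g a b) (γ : Γ) : ∃ y, PP G u a b γ y := by
  have hγ : γ ∈ Subgroup.closure (G.ρ '' Set.univ) := by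
    have := G.gen
    unfold gpar at this
    rw [this]
    exact Subgroup.mem_top γ
  have hstep : ∀ (j : ℕ) (γ : Γ), (∃ y, PP G u a b γ y) → ∃ y, PP G u a b (G.ρ j * γ) y := by
    rintro j γ ⟨y, hy⟩
    by_cases hj : j < d
    · exact ⟨_, PP_step D ⟨j, hj⟩ hy⟩
    · rw [G.one_of_ge j (by omega), one_mul]
      exact ⟨y, hy⟩
  refine Subgroup.closure_induction_left (p := fun γ _ => ∃ y, PP G u a b γ y) ?_ ?_ ?_ hγ
  · exact ⟨_, PP_one D⟩
  · rintro _ ⟨j, -, rfl⟩ γ' - h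
    exact hstep j γ' h
  · rintro _ ⟨j, -, rfl⟩ γ' - h
    rw [G.inv_ρ]
    exact hstep j γ' h

theorem sq_ne (D : Dat G u g a b) : a ^ 2 ≠ b ^ 2 := by
  intro hab
  have key : ∀ x : X, ∃ y : Fin d → ℤˣ,
      (G.f x = a • vec u y ∧ G.f (G.ρ 0 • x) = b • g (vec u y)) ∨
      (G.f x = b • vec u y ∧ G.f (G.ρ 0 • x) = a • g (vec u y)) := by
    intro x
    obtain ⟨γ, rfl⟩ := G.trans x
    obtain ⟨y, hy⟩ := exists_PP D γ
    have h2 := PP_step D ⟨0, D.hd⟩ hy
    have h3 : g (vec u y) = vec u (m2 ⟨0, D.hd⟩ y) := g_vec D.hg rfl y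
    refine ⟨y, ?_⟩
    rw [h3, ← mul_smul]
    by_cases hγ : γ ∈ G.H
    · left
      refine ⟨(hy.1 hγ).1, (h2.2 ?_).1⟩
      intro hm
      apply D.h0
      have h4 : G.ρ 0 * γ ∈ G.H := hm
      have := mul_mem h4 (inv_mem hγ)
      rwa [mul_inv_cancel_right] at this
    · right
      exact ⟨(hy.2 hγ).1, (h2.1 (G.mul_mem_of_not D.h0 hγ)).1⟩
  rcases sq_eq_sq_iff_eq_or_eq_neg.1 hab with h | h
  · refine G.noiso _ D.h0 ⟨g, fun x => ?_⟩
    obtain ⟨y, ⟨h1, h2⟩ | ⟨h1, h2⟩⟩ := key x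
    · rw [h1, h2, map_smul, h]
    · rw [h1, h2, map_smul, h]
  · refine G.noiso _ D.h0 ⟨g.trans (LinearIsometryEquiv.neg ℝ), fun x => ?_⟩
    show -(g (G.f x)) = G.f (G.ρ 0 • x)
    obtain ⟨y, ⟨h1, h2⟩ | ⟨h1, h2⟩⟩ := key x
    · rw [h1, h2, map_smul, h, neg_smul, neg_neg]
    · rw [h1, h2, map_smul, h, neg_smul]

theorem gmatch (D : Dat G u g a b) : GMatch G (S2 d) (fun _ => 1) (F2 u a b) := by
  have hab := sq_ne D
  have hinj := F2_inj u D.ha D.hb hab D.hd
  have hex : ∀ x : X, ∃ y, G.f x = F2 u a b y := by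
    intro x
    obtain ⟨γ, rfl⟩ := G.trans x
    obtain ⟨y, hy⟩ := exists_PP D γ
    exact ⟨y, hy.f_eq⟩
  choose e he using hex
  have e0 : e G.x0 = fun _ => 1 := by
    apply hinj
    rw [← he, ← (PP_one D).f_eq, one_smul]
  have eρ : ∀ (i : Fin d) (x : X), e (G.ρ i • x) = m2 i (e x) := by
    intro i x
    obtain ⟨γ, rfl⟩ := G.trans x
    obtain ⟨y, hy⟩ := exists_PP D γ
    have h1 : e (γ • G.x0) = y := hinj (by rw [← he, hy.f_eq])
    have h2 := (PP_step D i hy).f_eq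
    rw [h1]
    apply hinj
    rw [← he, ← h2, mul_smul]
  have einj : Function.Injective e := by
    intro x x' h
    apply G.inj
    rw [he, he, h]
  have esurj : Function.Surjective e := by
    intro y
    have h := all_vec (Set.range e) ⟨G.x0, e0⟩ (by
      rintro _ ⟨x, rfl⟩ j
      exact ⟨G.ρ j • x, eρ j x⟩) y
    exact h
  refine ⟨1, Equiv.ofBijective e ⟨einj, esurj⟩, ?_, ?_, ?_⟩
  · show e ((1 : Γ) • G.x0) = _
    rw [one_smul, e0]
  · intro i x
    show e ((1 * G.ρ i * 1⁻¹) • x) = m2 i (e x)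
    rw [one_mul, inv_one, mul_one, eρ]
  · intro x
    exact he x

end vert

/-! ### the isometry `g` -/

section ex

variable {d : ℕ}

/-- `- s_c` is not a reflection -/
theorem not_neg_sref (hd : 3 ≤ d) (c c' : E d) (h : ∀ z, sref c z = -sref c' z) : False := by
  have h1 : ∀ z : E d, z ∈ Submodule.span ℝ ({c, c'} : Set (E d)) := by
    intro z
    have h2 := h z
    unfold sref at h2
    have h3 : z = ⟪c, z⟫ • c + ⟪c', z⟫ • c' := by
      have h4 : (2 : ℝ) • z = (2 : ℝ) • (⟪c, z⟫ • c + ⟪c', z⟫ • c') := by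
        have h5 : z - (2 * ⟪c, z⟫) • c + (z - (2 * ⟪c', z⟫) • c') = 0 := by
          rw [h2]
          abel
        have h6 : (2 : ℝ) • z - (2 : ℝ) • (⟪c, z⟫ • c + ⟪c', z⟫ • c') =
            z - (2 * ⟪c, z⟫) • c + (z - (2 * ⟪c', z⟫) • c') := by
          module
        rw [h5] at h6
        exact sub_eq_zero.1 h6
      exact smul_right_injective _ (two_ne_zero (α := ℝ)) h4
    rw [h3]
    exact Submodule.add_mem _ (Submodule.smul_mem _ _ (Submodule.subset_span (by simp)))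
      (Submodule.smul_mem _ _ (Submodule.subset_span (by simp)))
  have h2 : Submodule.span ℝ ({c, c'} : Set (E d)) = ⊤ := by
    rw [eq_top_iff]
    intro z _
    exact h1 z
  have h3 : Module.finrank ℝ (Submodule.span ℝ ({c, c'} : Set (E d))) ≤ 2 := by
    classical
    have h4 := finrank_span_finset_le_card (R := ℝ) ({c, c'} : Finset (E d))
    rw [Finset.coe_insert, Finset.coe_singleton] at h4
    exact h4.trans Finset.card_le_two
  rw [h2, finrank_top, finrank_euclideanSpace_fin] at h3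
  omega

/-- the adjacent transposition is a reflection -/
theorem swap_refl (u : OrthonormalBasis (Fin d) ℝ (E d)) (j : Fin d) (hj : 1 ≤ j.val) (v : E d)
    (A : E d ≃ₗᵢ[ℝ] E d) (hA : ∀ k, A (u k) = u (Equiv.swap (prd j) j k)) :
    A v = sref ((1 / √2 : ℝ) • (sg 1 • u (prd j) + sg (-1) • u j)) v := by
  have hne : prd j ≠ j := by
    intro h
    have h1 := congrArg Fin.val h
    have h2 : (prd j).val = j.val - 1 := rfl
    omega
  have e : (1 / √2 : ℝ) • (sg 1 • u (prd j) + sg (-1) • u j) = (1 / √2 : ℝ) • (u (prd j) - u j) := by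
    rw [sg_neg, sg_one, one_smul, neg_smul, one_smul, sub_eq_add_neg]
  rw [e]
  refine ext_basis u (A := (A.toLinearEquiv : E d →ₗ[ℝ] E d))
    (B := srefL ((1 / √2 : ℝ) • (u (prd j) - u j))) (fun k => ?_) v
  show A (u k) = sref ((1 / √2 : ℝ) • (u (prd j) - u j)) (u k)
  rw [hA]
  unfold sref
  have h2 := inv_sqrt_two_sq
  rw [inner_smul_left, inner_sub_left, OrthonormalBasis.inner_eq_ite,
    OrthonormalBasis.inner_eq_ite]
  simp only [RCLike.conj_to_real]
  by_cases h3 : prd j = k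
  · subst h3
    rw [Equiv.swap_apply_left, if_pos rfl, if_neg (Ne.symm hne), smul_smul]
    have e2 : 2 * (1 / √2 * ((1 : ℝ) - 0)) * (1 / √2) = 1 := by linear_combination 2 * h2
    rw [e2, one_smul]
    abel
  · by_cases h4 : j = k
    · subst h4
      rw [Equiv.swap_apply_right, if_neg h3, if_pos rfl, smul_smul]
      have e2 : 2 * (1 / √2 * ((0 : ℝ) - 1)) * (1 / √2) = -1 := by linear_combination -2 * h2
      rw [e2, neg_smul, one_smul]
      abel
    · rw [Equiv.swap_apply_of_ne_of_ne (Ne.symm h3) (Ne.symm h4), if_neg h3, if_neg h4]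
      simp

variable {Γ : Type} [Group Γ] {X : Type} [MulAction Γ X] {G : Geo d Γ X}

theorem prd_val (j : Fin d) : (prd j).val = j.val - 1 := rfl

/-- `g` commutes with the transpositions of `{1, …, d - 1}`, so it is `± 1` or `± s_{u 0}` -/
theorem form (hd : 4 ≤ d) (u : OrthonormalBasis (Fin d) ℝ (E d)) (g : E d ≃ₗᵢ[ℝ] E d)
    (π : Equiv.Perm (Fin d)) (s : Fin d → ℤˣ) (hg : ∀ i, g (u i) = sg (s i) • u (π i))
    (hc : ∀ j : Fin d, 2 ≤ j.val → ∀ k, g (u (Equiv.swap (prd j) j k)) =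
      sg (s k) • u (Equiv.swap (prd j) j (π k))) :
    ∃ s0 s1 : ℤˣ, ∀ k : Fin d, g (u k) = if k.val = 0 then sg s0 • u k else sg s1 • u k := by
  have h1 : ∀ j : Fin d, 2 ≤ j.val → ∀ k,
      π (Equiv.swap (prd j) j k) = Equiv.swap (prd j) j (π k) ∧
      s (Equiv.swap (prd j) j k) = s k := by
    intro j hj k
    have h2 := hc j hj k
    rw [hg] at h2
    exact smul_inj u h2
  have hπ := perm_eq hd π (fun j hj k => (h1 j hj k).1)
  have hs : ∀ (n : ℕ) (hn : n + 1 < d), s ⟨n + 1, hn⟩ = s ⟨1, by omega⟩ := by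
    intro n
    induction n with
    | zero => intro hn; rfl
    | succ n ih =>
      intro hn
      have h2 := (h1 ⟨n + 1 + 1, hn⟩ (by simp) ⟨n + 1 + 1, hn⟩).2
      rw [Equiv.swap_apply_right] at h2
      rw [← h2]
      exact ih (by omega)
  refine ⟨s ⟨0, by omega⟩, s ⟨1, by omega⟩, fun k => ?_⟩
  rw [hg, hπ]
  by_cases hk : k.val = 0
  · rw [if_pos hk]
    have : k = ⟨0, by omega⟩ := Fin.ext hk
    rw [this]
  · rw [if_neg hk]
    have hk2 := k.2
    have h3 := hs (k.val - 1) (by omega)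
    have h4 : (⟨k.val - 1 + 1, by omega⟩ : Fin d) = k := Fin.ext (by simp only; omega)
    rw [h4] at h3
    rw [h3]

theorem exists_g (h1 : StmtOrb) (h2 : StmtAutD) (h3 : StmtStar) [Finite Γ] (G : Geo d Γ X)
    (r : E d) (hd : 9 ≤ d) (hL : Last G r) (hirr : IrrRS (G.orb r)) (hsl : SL (G.orb r))
    (hj : ∀ j, 1 ≤ j → G.ρ j ∈ G.H) (u : OrthonormalBasis (Fin d) ℝ (E d)) (hu : IsD (G.orb r) u)
    (hT : ∀ j : Fin d, 1 ≤ j.val → ∀ k : Fin d,
      G.T (G.ρ j) (u k) = u (Equiv.swap (prd j) j k)) :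
    ∃ g : E d ≃ₗᵢ[ℝ] E d, (∀ k : Fin d, g (u k) = if k.val = 0 then -u k else u k) ∧
      ∀ j, 1 ≤ j → ∀ v, g (G.T (G.ρ j) v) = G.T (G.ρ 0 * G.ρ j * (G.ρ 0)⁻¹) (g v) := by
  have hρ : G.ρ (d - 1) ∈ G.H := hj (d - 1) (by omega)
  have hrf : ∀ v, G.T (G.ρ (d - 1)) v = (1 : ℝ) • sref r v := by
    intro v
    rw [one_smul]
    exact hL.refl v
  obtain ⟨-, -, -, -, o5, o6, -⟩ := h1 d Γ X G (G.ρ (d - 1)) 1 r hρ (Or.inl rfl) hL.norm hrf
  have hcomm : ∀ j, 2 ≤ j → G.ρ 0 * G.ρ j * (G.ρ 0)⁻¹ = G.ρ j := by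
    intro j hj
    rw [G.comm 0 j (by omega), mul_inv_cancel_right]
  obtain ⟨g, -, hgΦ, hgs⟩ := h3 d Γ X G (by omega) hL.good (G.ρ (d - 1)) 1 r hρ (Or.inl rfl)
    hL.norm hrf hirr hL.span hsl (G.ρ 0) (hcomm _ (by omega))
  obtain ⟨π, s, hg⟩ := h2 d (G.orb r) u (by omega) hu g hgΦ
  -- the sign is `+` at the generators
  have hplus : ∀ j, 1 ≤ j → ∀ v, g (G.T (G.ρ j) v) = G.T (G.ρ 0 * G.ρ j * (G.ρ 0)⁻¹) (g v) := by
    intro j hj1
    by_cases hjd : j < d
    · rcases hgs (G.ρ j) (hj j hj1) with h4 | h4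
      · exact h4
      · exfalso
        obtain ⟨c, hc⟩ : ∃ c : E d, ∀ v, G.T (G.ρ j) v = sref c v :=
          ⟨_, fun v => swap_refl u ⟨j, hjd⟩ hj1 v (G.T (G.ρ j)) (hT ⟨j, hjd⟩ hj1)⟩
        have hcΦ : (1 / √2 : ℝ) • (sg 1 • u (prd ⟨j, hjd⟩) + sg (-1) • u ⟨j, hjd⟩) ∈ G.orb r := by
          rw [hu]
          refine ⟨prd ⟨j, hjd⟩, ⟨j, hjd⟩, ?_, 1, -1, rfl⟩
          intro h
          have h5 := congrArg Fin.val h
          rw [prd_val] at h5
          simp only at h5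
          omega
        obtain ⟨k, hk, hk2⟩ := o6 _ hcΦ
        have h5 : G.ρ j = k * G.ρ (d - 1) * k⁻¹ := by
          refine G.T_inj (hj j hj1) (G.conj_mem k hρ) ?_
          refine LinearIsometryEquiv.ext fun v => ?_
          rw [o5 k hk, one_smul, ← hk2]
          exact swap_refl u ⟨j, hjd⟩ hj1 v (G.T (G.ρ j)) (hT ⟨j, hjd⟩ hj1)
        have h6 : G.ρ 0 * G.ρ j * (G.ρ 0)⁻¹ =
            (G.ρ 0 * k * (G.ρ 0)⁻¹) * G.ρ (d - 1) * (G.ρ 0 * k * (G.ρ 0)⁻¹)⁻¹ := by
          have h7 := hcomm (d - 1) (by omega)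
          calc G.ρ 0 * G.ρ j * (G.ρ 0)⁻¹ = G.ρ 0 * (k * G.ρ (d - 1) * k⁻¹) * (G.ρ 0)⁻¹ := by rw [h5]
            _ = (G.ρ 0 * k * (G.ρ 0)⁻¹) * (G.ρ 0 * G.ρ (d - 1) * (G.ρ 0)⁻¹) *
                (G.ρ 0 * k * (G.ρ 0)⁻¹)⁻¹ := by group
            _ = _ := by rw [h7]
        have h8 : ∀ z, sref (g c) z = -sref (G.T (G.ρ 0 * k * (G.ρ 0)⁻¹) r) z := by
          intro z
          have h9 := h4 (g.symm z)
          rw [hc, map_sref, h6, o5 _ (G.conj_mem _ hk), one_smul,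
            LinearIsometryEquiv.apply_symm_apply] at h9
          exact h9
        exact not_neg_sref (by omega) _ _ h8
    · intro v
      rw [G.one_of_ge j (by omega), mul_one, mul_inv_cancel, G.T_one]
      rfl
  -- the form of `g`
  obtain ⟨s0, s1, hs⟩ := form (by omega) u g π s hg (by
    intro j hj2 k
    have h4 := hplus j (by omega) (u k)
    rw [hcomm j hj2, hT j (by omega), hg k, map_smul, hT j (by omega)] at h4
    exact h4)
  have hne : s0 ≠ s1 := by
    intro h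
    subst h
    have h4 : ∀ v, g v = sg s0 • v := by
      intro v
      have h5 := ext_basis u (A := (g.toLinearEquiv : E d →ₗ[ℝ] E d))
        (B := sg s0 • LinearMap.id) (fun k => by
          show g (u k) = sg s0 • u k
          rw [hs, ite_self]) v
      exact h5
    have h5 : G.ρ 0 * G.ρ 1 * (G.ρ 0)⁻¹ = G.ρ 1 := by
      refine G.T_inj (G.conj_mem _ (hj 1 le_rfl)) (hj 1 le_rfl) ?_
      refine LinearIsometryEquiv.ext fun v => ?_
      have h6 := hplus 1 le_rfl v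
      rw [h4, h4, map_smul] at h6
      exact (smul_right_injective _ (sg_ne s0) h6).symm
    refine hL.good.chain.not_comm 0 (by omega) ?_
    rw [zero_add]
    have h6 := congrArg (fun t => t * G.ρ 0) h5
    simpa [mul_assoc] using h6
  have hs1 : s0 = -s1 := by
    rcases Int.units_eq_one_or s0 with h | h <;> rcases Int.units_eq_one_or s1 with h' | h'
    · exact absurd (h.trans h'.symm) hne
    · rw [h, h', neg_neg]
    · rw [h, h']
    · exact absurd (h.trans h'.symm) hne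
  rcases Int.units_eq_one_or s1 with h | h
  · refine ⟨g, fun k => ?_, hplus⟩
    rw [hs, hs1, h, sg_neg, sg_one, one_smul, neg_smul, one_smul]
  · refine ⟨g.trans (LinearIsometryEquiv.neg ℝ), fun k => ?_, fun j hj v => ?_⟩
    · show -(g (u k)) = _
      rw [hs, hs1, h, neg_neg, sg_neg, sg_one, one_smul, neg_smul, one_smul]
      split_ifs
      · rfl
      · rw [neg_neg]
    · show -(g (G.T (G.ρ j) v)) = G.T _ (-(g v))
      rw [hplus j hj, map_neg]

end ex

end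

end FD0

open FD0 in
theorem finD0 (h1 : StmtOrb) (h2 : StmtAutD) (h3 : StmtStar) : StmtFinD0 := by
  intro d Γ _ _ X _ G r hd hL hirr hsl h0 hj u hu hx hT
  obtain ⟨g, hg, hgj⟩ := exists_g h1 h2 h3 G r hd hL hirr hsl hj u hu hT
  obtain ⟨a, hx⟩ := hx
  have hx' : G.x = a • vec u (fun _ => 1) := by
    rw [hx]
    unfold vec
    congr 1
    exact Finset.sum_congr rfl fun i _ => by rw [sg_one, one_smul]
  have ha : a ≠ 0 := by
    rintro rfl
    exact hL.good.chain.x_ne (by rw [hx', zero_smul])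
  have hgg := g_g hg
  have hR : ∀ h ∈ G.H, ∀ v, g (G.T h v) = G.T (G.ρ 0 * h * (G.ρ 0)⁻¹) (g v) := by
    intro h hh
    exact (mem_KR.1 (H_le (KR G g) (fun k hk => (mem_KR.1 hk).1) h0
      (fun j hj1 => mem_KR.2 ⟨hj j hj1, hgj j hj1⟩) (fun k hk => KR_conj hgg hk) hh)).2
  -- the vertex `ρ₀ x₀`
  have hfix : ∀ j : Fin d, 1 ≤ j.val →
      G.T (G.ρ j) (g (G.f (G.ρ 0 • G.x0))) = g (G.f (G.ρ 0 • G.x0)) := by
    intro j hj1
    have h4 := hR (G.ρ j) (hj j hj1) (g (G.f (G.ρ 0 • G.x0)))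
    rw [hgg, G.equiv _ (G.conj_mem _ (hj j hj1)), ← mul_smul, inv_mul_cancel_right, mul_smul,
      G.stab j hj1] at h4
    have h6 := congrArg g h4
    rw [hgg] at h6
    exact h6
  have hcoord : ∀ (n : ℕ) (hn : n < d), ⟪u ⟨n, hn⟩, g (G.f (G.ρ 0 • G.x0))⟫ =
      ⟪u ⟨0, by omega⟩, g (G.f (G.ρ 0 • G.x0))⟫ := by
    intro n
    induction n with
    | zero => intro hn; rfl
    | succ n ih =>
      intro hn
      rw [← ih (by omega)]
      have h4 := hfix ⟨n + 1, hn⟩ (by simp)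
      have h5 : G.T (G.ρ (n + 1)) (u ⟨n, by omega⟩) = u ⟨n + 1, hn⟩ := by
        have h6 := hT ⟨n + 1, hn⟩ (by simp) ⟨n, by omega⟩
        have h7 : prd (⟨n + 1, hn⟩ : Fin d) = ⟨n, by omega⟩ := rfl
        rw [h7, Equiv.swap_apply_left] at h6
        exact h6
      rw [← h5]
      conv_lhs => rw [← h4]
      exact LinearIsometryEquiv.inner_map_map _ _ _
  obtain ⟨b, hb⟩ : ∃ b : ℝ, b = ⟪u ⟨0, by omega⟩, g (G.f (G.ρ 0 • G.x0))⟫ := ⟨_, rfl⟩
  have hy0 : g (G.f (G.ρ 0 • G.x0)) = b • vec u (fun _ => 1) := by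
    have h4 := u.sum_repr' (g (G.f (G.ρ 0 • G.x0)))
    rw [← h4]
    unfold vec
    rw [Finset.smul_sum]
    refine Finset.sum_congr rfl fun i _ => ?_
    rw [hcoord i.val i.2, ← hb, sg_one, one_smul]
  have hy : G.f (G.ρ 0 • G.x0) = b • g (vec u (fun _ => 1)) := by
    rw [← map_smul, ← hy0, hgg]
  have hb0 : b ≠ 0 := by
    intro h
    exact hL.good.chain.f_ne (G.ρ 0 • G.x0) (by rw [hy, h, zero_smul])
  have D : Dat G u g a b := ⟨by omega, ha, hb0, h0, hj, hx', hT, hg, hR, hy⟩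
  exact ⟨u, a, b, ha, hb0, sq_ne D, gmatch D⟩

end FO2
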