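import Pool.Agent.FO2.Stmts

/-!
# FinD1: type `D`, `J = {1}`
-/

namespace FO2

open Lib_helper64.FO
open scoped RealInnerProductSpace

noncomputable section

namespace FD1

/-! ### signs -/

theorem sg_mul (a b : ℤˣ) : sg (a * b) = sg a * sg b := by simp [sg]

theorem sg_one : sg 1 = 1 := by simp [sg]

theorem sg_neg (a : ℤˣ) : sg (-a) = - sg a := by simp [sg]

theorem sg_inj {a b : ℤˣ} (h : sg a = sg b) : a = b := by
  rcases Int.units_eq_one_or a with rfl | rfl <;> rcases Int.units_eq_one_or b with rfl | rfl <;>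
    first
    | rfl
    | (exfalso; simp only [sg_neg, sg_one] at h; norm_num at h)

theorem sg_ne (a : ℤˣ) : sg a ≠ 0 := by
  rcases Int.units_eq_one_or a with rfl | rfl <;> simp [sg]

theorem sg_mul_self (a : ℤˣ) : sg a * sg a = 1 := by
  rw [← sg_mul, ← sq, Int.units_sq, sg_one]

/-! ### permutations -/

theorem prd_ne {d : ℕ} {j : Fin d} (h : 1 ≤ j.val) : prd j ≠ j := by
  intro e
  have := congrArg Fin.val e
  simp only [prd] at this
  omega

theorem perm_fix {d : ℕ} (a : ℕ) (ha : a + 3 ≤ d) (π : Equiv.Perm (Fin d))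
    (h : ∀ j : Fin d, a + 1 ≤ j.val → ∀ k,
      π (Equiv.swap (prd j) j k) = Equiv.swap (prd j) j (π k)) :
    ∀ k : Fin d, a ≤ k.val → π k = k := by
  have h1 : ∀ j : Fin d, a + 1 ≤ j.val →
      (π (prd j) = prd j ∧ π j = j) ∨ (π (prd j) = j ∧ π j = prd j) := by
    intro j hj
    have e := h j hj j
    rw [Equiv.swap_apply_right] at e
    by_cases h2 : π j = j
    · left; rw [h2, Equiv.swap_apply_right] at e; exact ⟨e, h2⟩
    · by_cases h3 : π j = prd j
      · right; rw [h3, Equiv.swap_apply_left] at e; exact ⟨e, h3⟩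
      · rw [Equiv.swap_apply_of_ne_of_ne h3 h2] at e
        exact absurd (π.injective e) (prd_ne (by omega))
  have h2 : ∀ j : Fin d, a + 1 ≤ j.val → j.val + 1 < d → π (prd j) = prd j ∧ π j = j := by
    intro j hj hjd
    rcases h1 j hj with h | h
    · exact h
    · exfalso
      have h3 := h1 ⟨j.val + 1, hjd⟩ (by simp only; omega)
      have e : prd (⟨j.val + 1, hjd⟩ : Fin d) = j := by ext; simp [prd]
      rw [e] at h3
      rcases h3 with ⟨h4, -⟩ | ⟨h4, -⟩
      · rw [h.2] at h4; have := congrArg Fin.val h4; simp only [prd] at this; omega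
      · rw [h.2] at h4; have := congrArg Fin.val h4; simp only [prd] at this; omega
  intro k hk
  by_cases hk1 : a + 1 ≤ k.val
  · by_cases hk2 : k.val + 1 < d
    · exact (h2 k hk1 hk2).2
    · have h3 := (h2 (prd k) (by simp only [prd]; omega) (by simp only [prd]; omega)).2
      rcases h1 k hk1 with h | h
      · exact h.2
      · rw [h3] at h; have := congrArg Fin.val h.1; simp only [prd] at this; omega
  · have h3 := (h2 ⟨k.val + 1, by omega⟩ (by simp only; omega) (by simp only; omega)).1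
    have e : prd (⟨k.val + 1, by omega⟩ : Fin d) = k := by ext; simp [prd]
    rwa [e] at h3

/-! ### the basis -/

section basis

variable {d : ℕ} (u : OrthonormalBasis (Fin d) ℝ (E d))

theorem iso_ext {A B : E d ≃ₗᵢ[ℝ] E d} (h : ∀ k, A (u k) = B (u k)) : A = B := by
  have h1 : (A.toLinearEquiv : E d →ₗ[ℝ] E d) = B.toLinearEquiv := by
    apply u.toBasis.ext
    intro k
    simpa using h k
  ext1 v
  exact LinearMap.congr_fun h1 v

theorem inner_u (i j : Fin d) : ⟪u i, u j⟫ = if i = j then (1 : ℝ) else 0 := by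
  have := u.orthonormal
  rw [orthonormal_iff_ite] at this
  exact this i j

theorem sgu_inj {a b : ℤˣ} {i j : Fin d} (h : sg a • u i = sg b • u j) : i = j ∧ a = b := by
  have h1 : ⟪u i, sg a • u i⟫ = ⟪u i, sg b • u j⟫ := by rw [h]
  rw [inner_smul_right, inner_smul_right, inner_u, inner_u, if_pos rfl] at h1
  by_cases hij : i = j
  · rw [if_pos hij, mul_one, mul_one] at h1
    exact ⟨hij, sg_inj h1⟩
  · rw [if_neg hij, mul_one, mul_zero] at h1
    exact absurd h1 (sg_ne a)

/-- the vector with the coordinates `s i` -/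
def sv (s : Fin d → ℤˣ) : E d := ∑ i, sg (s i) • u i

theorem sv_one : sv u (fun _ => 1) = ∑ i, u i := by simp [sv, sg_one]

theorem inner_sv (s : Fin d → ℤˣ) (k : Fin d) : ⟪u k, sv u s⟫ = sg (s k) := by
  rw [sv, inner_sum, Finset.sum_eq_single k]
  · rw [inner_smul_right, inner_u, if_pos rfl, mul_one]
  · intro i _ hi
    rw [inner_smul_right, inner_u, if_neg (Ne.symm hi), mul_zero]
  · intro h; exact absurd (Finset.mem_univ _) h

theorem sv_inj {s t : Fin d → ℤˣ} (h : sv u s = sv u t) : s = t := by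
  funext k
  apply sg_inj
  rw [← inner_sv u, ← inner_sv u, h]

theorem csv_inj {c : ℝ} (hc : c ≠ 0) {s t : Fin d → ℤˣ} (h : c • sv u s = c • sv u t) : s = t :=
  sv_inj u (smul_right_injective _ hc h)

/-- image of a sign vector under a signed permutation -/
theorem map_sv (A : E d ≃ₗᵢ[ℝ] E d) (π : Equiv.Perm (Fin d)) (t : Fin d → ℤˣ)
    (h : ∀ k, A (u k) = sg (t k) • u (π k)) (s : Fin d → ℤˣ) :
    A (sv u s) = sv u (fun k => s (π⁻¹ k) * t (π⁻¹ k)) := by
  rw [sv, map_sum, sv, ← Equiv.sum_comp π (fun k => sg (s (π⁻¹ k) * t (π⁻¹ k)) • u k)]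
  refine Finset.sum_congr rfl fun k _ => ?_
  rw [map_smul, h, smul_smul, show π⁻¹ (π k) = k from π.symm_apply_apply k, sg_mul]

theorem smul_sv (a : ℤˣ) (s : Fin d → ℤˣ) : sg a • sv u s = sv u (fun k => a * s k) := by
  rw [sv, sv, Finset.smul_sum]
  refine Finset.sum_congr rfl fun k _ => ?_
  rw [smul_smul, sg_mul]

/-- reflections in roots of `D_d` -/
theorem sref_root (i j : Fin d) (hij : i ≠ j) (t : ℤˣ) (k : Fin d) :
    sref ((1 / √2 : ℝ) • (sg 1 • u i + sg t • u j)) (u k) =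
      sg (if k = i ∨ k = j then -t else 1) • u (Equiv.swap i j k) := by
  have h2 : (1 / √2 : ℝ) * (1 / √2) = 1 / 2 := by
    rw [div_mul_div_comm, one_mul, Real.mul_self_sqrt (by norm_num)]
  rw [sref, inner_smul_left, inner_add_left, inner_smul_left, inner_smul_left, inner_u, inner_u,
    smul_smul]
  simp only [conj_trivial, sg_one, one_mul, one_smul]
  by_cases hi : k = i
  · subst hi
    rw [if_pos rfl, if_neg (Ne.symm hij), if_pos (Or.inl rfl), Equiv.swap_apply_left, sg_neg,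
      mul_zero, add_zero, mul_one, mul_assoc, h2]
    module
  · by_cases hj : k = j
    · subst hj
      rw [if_neg hij, if_pos rfl, if_pos (Or.inr rfl), Equiv.swap_apply_right, sg_neg]
      have e : 2 * (1 / √2 * (0 + sg t * 1)) * (1 / √2) = sg t := by
        rw [show 2 * (1 / √2 * (0 + sg t * 1)) * (1 / √2) =
          2 * ((1 / √2) * (1 / √2)) * sg t by ring, h2]
        ring
      rw [e, smul_add, smul_smul, sg_mul_self]
      module
    · rw [if_neg (Ne.symm hi), if_neg (Ne.symm hj), if_neg (by tauto),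
        Equiv.swap_apply_of_ne_of_ne hi hj, sg_one]
      module

end basis

/-- two reflections do not differ by a sign -/
theorem not_neg_sref {d : ℕ} (hd : 3 ≤ d) (g : E d ≃ₗᵢ[ℝ] E d) (a b : E d) :
    ¬ ∀ v, g (sref a v) = -sref b (g v) := by
  intro h
  let L : E d →ₗ[ℝ] (Fin 2 → ℝ) := LinearMap.pi ![(innerₛₗ ℝ a), (innerₛₗ ℝ (g.symm b))]
  have hL : LinearMap.ker L ≠ ⊥ := by
    apply LinearMap.ker_ne_bot_of_finrank_lt
    simp
    omega
  obtain ⟨v, hv, hv0⟩ := Submodule.exists_mem_ne_zero_of_ne_bot hL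
  rw [LinearMap.mem_ker] at hv
  have h1 : ⟪a, v⟫ = 0 := by
    have := congrFun hv 0
    simpa [L] using this
  have h2 : ⟪b, g v⟫ = 0 := by
    have := congrFun hv 1
    have h3 : ⟪g.symm b, v⟫ = 0 := by simpa [L] using this
    rw [← g.inner_map_map, g.apply_symm_apply] at h3
    exact h3
  have h3 := h v
  rw [sref, sref, h1, h2, mul_zero, zero_smul, sub_zero, zero_smul, sub_zero] at h3
  have h4 : g v = 0 := by
    have : (2 : ℝ) • g v = 0 := by
      rw [two_smul]
      nth_rewrite 1 [h3]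
      simp
    exact (smul_eq_zero.1 this).resolve_left (by norm_num)
  exact hv0 (by simpa using h4)

section main

variable {d : ℕ} {Γ : Type} [Group Γ] {X : Type} [MulAction Γ X] (G : Geo d Γ X)
  (u : OrthonormalBasis (Fin d) ℝ (E d)) (g : E d ≃ₗᵢ[ℝ] E d)

/-- the sign of the conjugation at `h` is `+` -/
def Pos (h : Γ) : Prop := h ∈ G.H ∧ ∀ v, g (G.T h v) = G.T (G.ρ 1 * h * G.ρ 1) (g v)

/-- the sign of the conjugation at `h` is `-` -/
def Neg (h : Γ) : Prop := h ∈ G.H ∧ ∀ v, g (G.T h v) = -G.T (G.ρ 1 * h * G.ρ 1) (g v)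

/-- `T h` is a signed permutation -/
def Act (h : Γ) (π : Equiv.Perm (Fin d)) (s : Fin d → ℤˣ) : Prop :=
  ∀ k, G.T h (u k) = sg (s k) • u (π k)

variable {G u g}

theorem cj_mem {h : Γ} (hh : h ∈ G.H) : G.ρ 1 * h * G.ρ 1 ∈ G.H := by
  have := G.conj_mem (G.ρ 1) hh
  rwa [G.inv_ρ] at this

theorem cj_mul (h k : Γ) :
    G.ρ 1 * (h * k) * G.ρ 1 = (G.ρ 1 * h * G.ρ 1) * (G.ρ 1 * k * G.ρ 1) := by
  have := G.sq 1
  calc G.ρ 1 * (h * k) * G.ρ 1 = G.ρ 1 * h * 1 * k * G.ρ 1 := by group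
    _ = G.ρ 1 * h * (G.ρ 1 * G.ρ 1) * k * G.ρ 1 := by rw [this]
    _ = _ := by group

theorem Pos.one : Pos G g 1 := by
  refine ⟨one_mem _, fun v => ?_⟩
  rw [mul_one, G.sq, G.T_one]
  rfl

theorem Pos.mul {h k : Γ} (hh : Pos G g h) (hk : Pos G g k) : Pos G g (h * k) := by
  refine ⟨mul_mem hh.1 hk.1, fun v => ?_⟩
  rw [cj_mul, G.T_mul_apply hh.1 hk.1, G.T_mul_apply (cj_mem hh.1) (cj_mem hk.1), hh.2, hk.2]

theorem Pos.mul_neg {h k : Γ} (hh : Pos G g h) (hk : Neg G g k) : Neg G g (h * k) := by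
  refine ⟨mul_mem hh.1 hk.1, fun v => ?_⟩
  rw [cj_mul, G.T_mul_apply hh.1 hk.1, G.T_mul_apply (cj_mem hh.1) (cj_mem hk.1), hh.2, hk.2,
    map_neg]

theorem not_pos_neg (u : OrthonormalBasis (Fin d) ℝ (E d)) (hd : 0 < d) {h : Γ} (hp : Pos G g h) (hn : Neg G g h) : False := by
  have h1 := hp.2 (u ⟨0, hd⟩)
  rw [hn.2] at h1
  have h2 : G.T (G.ρ 1 * h * G.ρ 1) (g (u ⟨0, hd⟩)) = 0 := by
    have : (2 : ℝ) • G.T (G.ρ 1 * h * G.ρ 1) (g (u ⟨0, hd⟩)) = 0 := by
      rw [two_smul]
      nth_rewrite 1 [← h1]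
      simp
    exact (smul_eq_zero.1 this).resolve_left (by norm_num)
  have h3 : u ⟨0, hd⟩ = 0 := by simpa using h2
  have h4 := inner_u u ⟨0, hd⟩ ⟨0, hd⟩
  rw [h3] at h4
  simp at h4

theorem Act.mul {h k : Γ} (hh : h ∈ G.H) (hk : k ∈ G.H) {π π' : Equiv.Perm (Fin d)}
    {s s' : Fin d → ℤˣ} (a : Act G u h π s) (b : Act G u k π' s') :
    Act G u (h * k) (π * π') (fun i => s' i * s (π' i)) := by
  intro i
  rw [G.T_mul_apply hh hk, b, map_smul, a, smul_smul, sg_mul]
  rfl

theorem act_ext {h k : Γ} (hh : h ∈ G.H) (hk : k ∈ G.H) {π : Equiv.Perm (Fin d)}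
    {s : Fin d → ℤˣ} (a : Act G u h π s) (b : Act G u k π s) : h = k :=
  G.T_inj hh hk (iso_ext u fun i => by rw [a i, b i])

theorem act_one : Act G u 1 1 (fun _ => 1) := by
  intro k
  rw [G.T_one, sg_one, one_smul]
  rfl

/-- the sign vectors realised by elements with sign `+` -/
def SG : Submonoid (Fin d → ℤˣ) where
  carrier := {s | ∃ h, Pos G g h ∧ Act G u h 1 s}
  mul_mem' := by
    rintro s t ⟨h, hp, ha⟩ ⟨k, kp, ka⟩
    refine ⟨h * k, hp.mul kp, fun i => ?_⟩
    rw [ha.mul hp.1 kp.1 ka i, Pi.mul_apply, mul_comm (s i)]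
    rfl
  one_mem' := ⟨1, Pos.one, act_one⟩

variable (refl : ∀ i j : Fin d, i ≠ j → ∀ t : ℤˣ, ∃ h, Pos G g h ∧
  Act G u h (Equiv.swap i j) (fun k => if k = i ∨ k = j then -t else 1))

include refl

theorem pos_perm (π : Equiv.Perm (Fin d)) : ∃ h, Pos G g h ∧ Act G u h π (fun _ => 1) := by
  induction π using Equiv.Perm.swap_induction_on with
  | one => exact ⟨1, Pos.one, act_one⟩
  | swap_mul π i j hij ih =>
    obtain ⟨h, hp, ha⟩ := ih
    obtain ⟨k, kp, ka⟩ := refl i j hij (-1)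
    refine ⟨k * h, kp.mul hp, fun l => ?_⟩
    rw [ka.mul kp.1 hp.1 ha l]
    simp

theorem pos_sign (hd : 0 < d) (s : Fin d → ℤˣ) (hs : par s = 1) :
    ∃ h, Pos G g h ∧ Act G u h 1 s := by
  set z : Fin d := ⟨0, hd⟩ with hz
  have key : ∀ a : Fin d, (fun k => (if k = a then s a else 1) * (if k = z then s a else 1)) ∈
      SG (G := G) (u := u) (g := g) := by
    intro a
    by_cases haz : a = z
    · have e : (fun k => (if k = a then s a else 1) * (if k = z then s a else 1)) =
          (1 : Fin d → ℤˣ) := by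
        funext k
        rw [haz]
        by_cases hk : k = z
        · simp [hk, ← sq, Int.units_sq]
        · simp [hk]
      rw [e]
      exact one_mem _
    · rcases Int.units_eq_one_or (s a) with h1 | h1
      · have e : (fun k => (if k = a then s a else 1) * (if k = z then s a else 1)) =
            (1 : Fin d → ℤˣ) := by
          funext k
          rw [h1]
          simp
        rw [e]
        exact one_mem _
      · obtain ⟨h, hp, ha⟩ := refl a z haz (-1)
        obtain ⟨k, kp, ka⟩ := refl a z haz 1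
        refine ⟨k * h, kp.mul hp, fun l => ?_⟩
        rw [ka.mul kp.1 hp.1 ha l, h1]
        have e1 : (Equiv.swap a z * Equiv.swap a z) l = l := by
          rw [Equiv.swap_mul_self]; rfl
        rw [e1]
        congr 2
        by_cases hla : l = a
        · subst hla
          simp [haz]
        · by_cases hlz : l = z
          · rw [hlz]
            simp [haz, Ne.symm haz]
          · dsimp only
            rw [Equiv.swap_apply_of_ne_of_ne hla hlz]
            simp [hla, hlz]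
  have h1 : (∏ a : Fin d, fun k => (if k = a then s a else 1) * (if k = z then s a else 1)) ∈
      SG (G := G) (u := u) (g := g) := Submonoid.prod_mem _ fun a _ => key a
  have h2 : (∏ a : Fin d, fun k => (if k = a then s a else 1) * (if k = z then s a else 1)) =
      s := by
    funext k
    rw [Finset.prod_apply, Finset.prod_mul_distrib, Finset.prod_ite_eq]
    by_cases hk : k = z
    · have : par s = ∏ a, s a := rfl
      simp [hk, ← this, hs]
    · simp [hk]
  rw [h2] at h1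
  exact h1

theorem pos_of_par (hd : 0 < d) {h : Γ} (hh : h ∈ G.H) {π : Equiv.Perm (Fin d)}
    {s : Fin d → ℤˣ} (a : Act G u h π s) (hs : par s = 1) : Pos G g h := by
  obtain ⟨p, hp, ap⟩ := pos_perm refl π
  obtain ⟨q, hq, aq⟩ := pos_sign refl hd s hs
  have e : h = p * q := by
    refine act_ext hh (mul_mem hp.1 hq.1) a fun k => ?_
    rw [ap.mul hp.1 hq.1 aq k, mul_one]
    dsimp only
    rw [mul_one]
  rw [e]
  exact hp.mul hq

theorem neg_of_par (hd : 0 < d) {s0 : Fin d → ℤˣ} (hn : Neg G g (G.ρ 0))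
    (a0 : Act G u (G.ρ 0) 1 s0) (p0 : par s0 = -1) {h : Γ} (hh : h ∈ G.H)
    {π : Equiv.Perm (Fin d)} {s : Fin d → ℤˣ} (a : Act G u h π s) (hs : par s = -1) :
    Neg G g h := by
  have h1 : Pos G g (h * G.ρ 0) := by
    refine pos_of_par refl hd (mul_mem hh hn.1) (a.mul hh hn.1 a0) ?_
    have e : par (fun i => s0 i * s ((1 : Equiv.Perm (Fin d)) i)) = par s0 * par s :=
      Finset.prod_mul_distrib
    rw [e, p0, hs]
    rfl
  have h2 := h1.mul_neg hn
  rwa [mul_assoc, G.sq, mul_one] at h2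

theorem exists_sign (hd : 0 < d) {s0 : Fin d → ℤˣ} (hn : Neg G g (G.ρ 0))
    (a0 : Act G u (G.ρ 0) 1 s0) (p0 : par s0 = -1) (s : Fin d → ℤˣ) :
    ∃ h ∈ G.H, Act G u h 1 s := by
  rcases Int.units_eq_one_or (par s) with hs | hs
  · obtain ⟨h, hp, ha⟩ := pos_sign refl hd s hs
    exact ⟨h, hp.1, ha⟩
  · have h1 : par (fun i => s i * s0 i) = 1 := by
      have e : par (fun i => s i * s0 i) = par s * par s0 := Finset.prod_mul_distrib
      rw [e, p0, hs]
      rfl
    obtain ⟨h, hp, ha⟩ := pos_sign refl hd _ h1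
    refine ⟨h * G.ρ 0, mul_mem hp.1 hn.1, fun k => ?_⟩
    rw [ha.mul hp.1 hn.1 a0 k, mul_one]
    congr 2
    change s0 k * (s k * s0 k) = s k
    rw [mul_comm (s k), ← mul_assoc, ← sq, Int.units_sq, one_mul]

theorem even_d (hd : 0 < d) {s0 : Fin d → ℤˣ} (hn : Neg G g (G.ρ 0))
    (a0 : Act G u (G.ρ 0) 1 s0) (p0 : par s0 = -1) : Even d := by
  by_contra hodd
  rw [Nat.not_even_iff_odd] at hodd
  obtain ⟨z, hz, az⟩ := exists_sign refl hd hn a0 p0 (fun _ => -1)
  have h1 : par (fun _ : Fin d => (-1 : ℤˣ)) = -1 := by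
    simp only [par, Finset.prod_const, Finset.card_univ, Fintype.card_fin]
    exact hodd.neg_one_pow
  have h2 := neg_of_par refl hd hn a0 p0 hz az h1
  have h3 : G.T (G.ρ 1 * z * G.ρ 1) = 1 := by
    have h4 : ∀ v, G.T z v = -v := by
      intro v
      have : (G.T z : E d →ₗ[ℝ] E d) = -LinearMap.id := by
        apply u.toBasis.ext
        intro k
        have := az k
        simpa [sg_neg, sg_one] using this
      exact LinearMap.congr_fun this v
    ext1 v
    have h5 := h2.2 (g.symm v)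
    rw [h4, map_neg, g.apply_symm_apply, neg_inj] at h5
    exact h5.symm
  rw [← G.T_one] at h3
  have h4 := G.T_inj (cj_mem hz) (one_mem _) h3
  have h5 : z = 1 := by
    have : z = G.ρ 1 * (G.ρ 1 * z * G.ρ 1) * G.ρ 1 := by
      have h6 := G.sq 1
      calc z = 1 * z * 1 := by group
        _ = (G.ρ 1 * G.ρ 1) * z * (G.ρ 1 * G.ρ 1) := by rw [h6]
        _ = _ := by group
    rw [this, h4, mul_one, G.sq]
  rw [h5] at az
  have h6 := az ⟨0, hd⟩
  rw [G.T_one] at h6
  have h7 : sg 1 • u ⟨0, hd⟩ = sg (-1) • u ⟨0, hd⟩ := by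
    rw [sg_one, one_smul]
    exact h6
  exact absurd (sgu_inj u h7).2 (by decide)

end main

/-- the vectors `f y` are sign vectors -/
theorem exists_vec {d : ℕ} {Γ : Type} [Group Γ] {X : Type} [MulAction Γ X] (G : Geo d Γ X)
    (u : OrthonormalBasis (Fin d) ℝ (E d)) {c : ℝ} (hc0 : c ≠ 0) (hc : G.x = c • ∑ i, u i)
    (act : ∀ h ∈ G.H, ∃ (π : Equiv.Perm (Fin d)) (s : Fin d → ℤˣ), Act G u h π s)
    (hH : ∀ y, ∃ h ∈ G.H, h • G.x0 = y) (hs : ∀ s, ∃ h ∈ G.H, Act G u h 1 s) :
    ∃ e : X ≃ (Fin d → ℤˣ), ∀ y, G.f y = c • sv u (e y) := by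
  have key : ∀ h ∈ G.H, ∀ (π : Equiv.Perm (Fin d)) (t : Fin d → ℤˣ), Act G u h π t →
      G.f (h • G.x0) = c • sv u (fun k => t (π⁻¹ k)) := by
    intro h hh π t a
    rw [← G.equiv h hh, show G.f G.x0 = G.x from rfl, hc, ← sv_one, map_smul,
      map_sv u (G.T h) π t a]
    simp only [one_mul]
  have h1 : ∀ y, ∃ s, G.f y = c • sv u s := by
    intro y
    obtain ⟨h, hh, rfl⟩ := hH y
    obtain ⟨π, t, a⟩ := act h hh
    exact ⟨_, key h hh π t a⟩
  choose e0 he0 using h1
  have hinj : Function.Injective e0 := by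
    intro y y' h
    apply G.inj
    rw [he0, he0, h]
  have hsurj : Function.Surjective e0 := by
    intro s
    obtain ⟨h, hh, a⟩ := hs s
    refine ⟨h • G.x0, csv_inj u hc0 ?_⟩
    rw [← he0, key h hh 1 s a]
    rfl
  exact ⟨Equiv.ofBijective e0 ⟨hinj, hsurj⟩, he0⟩

end FD1

open FD1

theorem finD1 (h1 : StmtOrb) (h2 : StmtAutD) (h3 : StmtChi) : StmtFinD1 := by
  intro d Γ _ _ X _ G r hd hL hi hsl r0 r1 r2 u hD hx hsw
  obtain ⟨c, hc⟩ := hx
  have hl := hL.J (d - 1) (by omega)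
  obtain ⟨o1, o2, o3, o4, o5, o6, o7⟩ := h1 d Γ X G (G.ρ (d - 1)) 1 r hl (Or.inl rfl) hL.norm
    (fun v => by rw [hL.refl v, one_smul])
  obtain ⟨g, gx, gr, gΦ, gs, g1, gn⟩ := h3 d Γ X G r (by omega) hL hi hsl r0 r1 r2
  have hc0 : c ≠ 0 := by
    rintro rfl
    exact hL.good.chain.x_ne (by rw [hc, zero_smul])
  have hJ : ∀ j, 2 ≤ j → G.ρ j ∈ G.H := by
    intro j hj
    rcases Nat.lt_or_ge j 3 with h | h
    · have : j = 2 := by omega
      exact this ▸ r2
    · exact hL.J j h
  have hHi : ∀ j, 2 ≤ j → G.ρ j ∈ G.Hi 1 := fun j hj =>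
    ⟨hJ j hj, G.ρ_mem_up (by omega)⟩
  have act : ∀ h ∈ G.H, ∃ (π : Equiv.Perm (Fin d)) (s : Fin d → ℤˣ), Act G u h π s := fun h hh =>
    h2 d _ u (by omega) hD (G.T h) (fun a ha => o3 h hh a ha)
  -- the reflections have sign `+`
  have refl : ∀ i j : Fin d, i ≠ j → ∀ t : ℤˣ, ∃ h, Pos G g h ∧
      Act G u h (Equiv.swap i j) (fun k => if k = i ∨ k = j then -t else 1) := by
    intro i j hij t
    obtain ⟨k, hk, hb⟩ := o6 _ ((hD ((1 / √2 : ℝ) • (sg 1 • u i + sg t • u j))).2
      ⟨i, j, hij, 1, t, rfl⟩)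
    have hT : ∀ v, G.T (k * G.ρ (d - 1) * k⁻¹) v =
        sref ((1 / √2 : ℝ) • (sg 1 • u i + sg t • u j)) v := by
      intro v
      rw [o5 k hk, one_smul, hb]
    have hh : k * G.ρ (d - 1) * k⁻¹ ∈ G.H := mul_mem (mul_mem hk hl) (inv_mem hk)
    refine ⟨k * G.ρ (d - 1) * k⁻¹, ⟨hh, ?_⟩, fun l => ?_⟩
    · rcases gs _ hh with h | h
      · exact h
      · exfalso
        apply not_neg_sref (d := d) (by omega) g ((1 / √2 : ℝ) • (sg 1 • u i + sg t • u j))
          (G.T (G.ρ 1 * k * G.ρ 1) r)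
        intro v
        rw [← hT, h]
        have e : G.ρ 1 * (k * G.ρ (d - 1) * k⁻¹) * G.ρ 1 =
            (G.ρ 1 * k * G.ρ 1) * G.ρ (d - 1) * (G.ρ 1 * k * G.ρ 1)⁻¹ := by
          have h5 : G.ρ 1 * G.ρ (d - 1) = G.ρ (d - 1) * G.ρ 1 := G.comm 1 (d - 1) (by omega)
          have h6 : G.ρ 1 * G.ρ (d - 1) * (G.ρ 1)⁻¹ = G.ρ (d - 1) := by
            rw [h5]; group
          calc G.ρ 1 * (k * G.ρ (d - 1) * k⁻¹) * G.ρ 1 =
              G.ρ 1 * (k * G.ρ (d - 1) * k⁻¹) * (G.ρ 1)⁻¹ := by rw [G.inv_ρ]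
            _ = (G.ρ 1 * k) * G.ρ (d - 1) * (k⁻¹ * (G.ρ 1)⁻¹) := by group
            _ = (G.ρ 1 * k) * (G.ρ 1 * G.ρ (d - 1) * (G.ρ 1)⁻¹) * (k⁻¹ * (G.ρ 1)⁻¹) := by rw [h6]
            _ = _ := by group
        rw [e, o5 _ (cj_mem hk), one_smul]
    · rw [hT, sref_root u i j hij t l]
  -- `g` exchanges `u 0` and `u 1`
  obtain ⟨πg, tg, hg⟩ := h2 d _ u (by omega) hD g gΦ
  have htg : ∀ k, tg k = 1 := by
    intro k
    rw [hc, ← sv_one, map_smul, map_sv u g πg tg hg] at gx
    have h4 := congrFun (csv_inj u hc0 gx) (πg k)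
    simpa using h4
  have hg' : ∀ k, g (u k) = u (πg k) := by
    intro k
    rw [hg, htg, sg_one, one_smul]
  have hu : ∀ i j, u i = u j → i = j := by
    intro i j h
    exact (sgu_inj u (a := 1) (b := 1) (by rw [h])).1
  have hπg : ∀ k : Fin d, 2 ≤ k.val → πg k = k := by
    apply perm_fix 2 (by omega)
    intro j hj k
    have h4 := g1 (G.ρ j) (hHi j (by omega)) (u k)
    have h5 : G.ρ 1 * G.ρ j * G.ρ 1 = G.ρ j := by
      rw [G.comm 1 j (by omega), mul_assoc, G.sq, mul_one]
    rw [h5, hsw j (by omega), hg', hg', hsw j (by omega)] at h4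
    exact hu _ _ h4
  set z0 : Fin d := ⟨0, by omega⟩ with hz0
  set z1 : Fin d := ⟨1, by omega⟩ with hz1
  have h01 : z0 ≠ z1 := by simp [hz0, hz1]
  have hlt2 : ∀ k : Fin d, k.val < 2 → k = z0 ∨ k = z1 := by
    intro k hk
    rcases Nat.lt_or_ge k.val 1 with h | h
    · left; ext; simp only [hz0]; omega
    · right; ext; simp only [hz1]; omega
  have hlow : ∀ k : Fin d, k.val < 2 → (πg k).val < 2 := by
    intro k hk
    by_contra h
    have h4 := hπg (πg k) (by omega)
    have h5 := πg.injective h4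
    rw [h5] at h
    exact h hk
  have hg2 : πg z0 = z1 ∧ πg z1 = z0 := by
    rcases hlt2 _ (hlow z0 (by simp [hz0])) with h | h
    · exfalso
      have h4 : πg z1 = z1 := by
        rcases hlt2 _ (hlow z1 (by simp [hz1])) with h' | h'
        · exact absurd (πg.injective (h.trans h'.symm)) h01
        · exact h'
      have h5 : ∀ k, πg k = k := by
        intro k
        rcases Nat.lt_or_ge k.val 2 with hk | hk
        · rcases hlt2 k hk with rfl | rfl
          · exact h
          · exact h4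
        · exact hπg k hk
      have h6 : ∀ v, g v = v := by
        intro v
        have : g = 1 := iso_ext u fun k => by rw [hg', h5]; rfl
        rw [this]; rfl
      have h7 : G.T (G.ρ 2) = G.T (G.ρ 1 * G.ρ 2 * G.ρ 1) := by
        ext1 v
        have := g1 (G.ρ 2) (hHi 2 le_rfl) v
        rwa [h6, h6] at this
      have h8 := G.T_inj r2 (cj_mem r2) h7
      apply hL.good.chain.not_comm 1 (by omega)
      change G.ρ 1 * G.ρ 2 = G.ρ 2 * G.ρ 1
      nth_rewrite 2 [h8]
      rw [mul_assoc _ (G.ρ 1) (G.ρ 1), G.sq, mul_one]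
    · refine ⟨h, ?_⟩
      rcases hlt2 _ (hlow z1 (by simp [hz1])) with h' | h'
      · exact h'
      · exact absurd (πg.injective (h.trans h'.symm)) h01
  have hπ : πg = Equiv.swap z0 z1 := by
    ext1 k
    by_cases hk0 : k = z0
    · rw [hk0, Equiv.swap_apply_left, hg2.1]
    · by_cases hk1 : k = z1
      · rw [hk1, Equiv.swap_apply_right, hg2.2]
      · rw [Equiv.swap_apply_of_ne_of_ne hk0 hk1]
        apply hπg
        by_contra h
        rcases hlt2 k (by omega) with h | h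
        · exact hk0 h
        · exact hk1 h
  rw [hπ] at hg'
  -- `T (ρ 0)` is diagonal
  obtain ⟨π0, s0, h0⟩ := act (G.ρ 0) r0
  have hcm : ∀ j : Fin d, 2 ≤ j.val → ∀ k, π0 (Equiv.swap (prd j) j k) =
      Equiv.swap (prd j) j (π0 k) ∧ s0 (Equiv.swap (prd j) j k) = s0 k := by
    intro j hj k
    have h4 : G.T (G.ρ 0) (G.T (G.ρ j) (u k)) = G.T (G.ρ j) (G.T (G.ρ 0) (u k)) := by
      rw [← G.T_mul_apply r0 (hJ j hj), ← G.T_mul_apply (hJ j hj) r0, G.comm 0 j (by omega)]
    rw [hsw j hj, h0, h0, map_smul, hsw j hj] at h4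
    exact sgu_inj u h4
  have hπ0 : π0 = 1 := by
    have h4 := perm_fix 1 (by omega) π0 fun j hj k => (hcm j hj k).1
    ext1 k
    rcases Nat.lt_or_ge k.val 1 with hk | hk
    · by_contra h
      have hk0 : k = z0 := by ext; simp only [hz0]; omega
      have h5 : 1 ≤ (π0 k).val := by
        by_contra h6
        apply h
        ext
        rw [hk0] at h6 ⊢
        change _ = (z0 : Fin d).val
        simp only [hz0]
        simp only [hz0] at h6
        omega
      exact h (π0.injective (h4 _ h5))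
    · exact h4 k hk
  rw [hπ0] at h0
  have hs1 : ∀ k : Fin d, 1 ≤ k.val → s0 k = s0 z1 := by
    have : ∀ n : ℕ, ∀ h : n + 1 < d, s0 ⟨n + 1, h⟩ = s0 z1 := by
      intro n
      induction n with
      | zero => intro _; rfl
      | succ n ih =>
        intro h
        rw [← ih (by omega)]
        have h4 := (hcm ⟨n + 1 + 1, h⟩ (by simp only; omega) ⟨n + 1 + 1, h⟩).2
        rw [Equiv.swap_apply_right] at h4
        rw [← h4]
        rfl
    intro k hk
    have h4 := this (k.val - 1) (by omega)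
    rw [← h4]
    congr 1
    ext
    simp only
    omega
  have hneg : Neg G g (G.ρ 0) := ⟨r0, gn⟩
  have hp0 : par s0 = -1 := by
    rcases Int.units_eq_one_or (par s0) with h | h
    · exact (not_pos_neg u (by omega) (pos_of_par refl (by omega) r0 h0 h) hneg).elim
    · exact h
  have hne : s0 z0 ≠ s0 z1 := by
    intro h
    have h4 : s0 = fun _ => s0 z1 := by
      funext k
      rcases Nat.lt_or_ge k.val 1 with hk | hk
      · have hk0 : k = z0 := by ext; simp only [hz0]; omega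
        rw [hk0, h]
      · exact hs1 k hk
    rcases Int.units_eq_one_or (s0 z1) with h5 | h5
    · rw [h4, h5] at hp0
      simp [par] at hp0
    · apply hL.good.chain.ρ0x
      rw [← G.equiv _ r0]
      have h6 : G.T (G.ρ 0) (G.f G.x0) = -G.x := by
        rw [show G.f G.x0 = G.x from rfl, hc, ← sv_one, map_smul, map_sv u _ 1 s0 h0, h4, h5,
          ← smul_neg]
        congr 1
        rw [sv, sv, ← Finset.sum_neg_distrib]
        refine Finset.sum_congr rfl fun k _ => ?_
        rw [one_mul, sg_neg, neg_smul]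
      rw [h6]
      exact Submodule.neg_mem _ G.x_mem_V1
  have hev : Even d := even_d refl (by omega) hneg h0 hp0
  have hH : ∀ y, ∃ h ∈ G.H, h • G.x0 = y := by
    intro y
    obtain ⟨γ, hγ⟩ := G.trans y
    by_cases h : γ ∈ G.H
    · exact ⟨γ, h, hγ⟩
    · refine ⟨γ * G.ρ 1, G.mul_mem_of_not h r1, ?_⟩
      rw [mul_smul, G.stab 1 le_rfl, hγ]
  obtain ⟨e, he⟩ := exists_vec G u hc0 hc act hH
    (exists_sign refl (by omega) hneg h0 hp0)
  have heq : ∀ y s, G.f y = c • sv u s → e y = s := fun y s h =>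
    csv_inj u hc0 (by rw [← he, h])
  -- the action of the generators
  have fH : ∀ h ∈ G.H, ∀ (π : Equiv.Perm (Fin d)) (t : Fin d → ℤˣ), Act G u h π t → ∀ y,
      e (h • y) = fun k => e y (π⁻¹ k) * t (π⁻¹ k) := by
    intro h hh π t a y
    apply heq
    rw [← G.equiv h hh, he, map_smul, map_sv u _ π t a]
  have hx0 : e G.x0 = fun _ => 1 := by
    apply heq
    rw [sv_one, ← hc]
    rfl
  have f1 : ∀ y, e (G.ρ 1 • y) = fun k => par (e y) * e y (Equiv.swap z0 z1 k) := by
    intro y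
    obtain ⟨h, hh, rfl⟩ := hH y
    obtain ⟨π, t, a⟩ := act h hh
    have h4 : par (e (h • G.x0)) = par t := by
      rw [fH h hh π t a, hx0]
      simp only [one_mul, par]
      exact Equiv.prod_comp π⁻¹ t
    have h5 : G.ρ 1 • h • G.x0 = (G.ρ 1 * h * G.ρ 1) • G.x0 := by
      rw [mul_smul, mul_smul, G.stab 1 le_rfl]
    have h6 : g (G.f (h • G.x0)) = c • sv u (fun k => e (h • G.x0) (Equiv.swap z0 z1 k)) := by
      rw [he, map_smul, map_sv u g (Equiv.swap z0 z1) (fun _ => 1)
        (fun k => by rw [hg', sg_one, one_smul])]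
      simp only [mul_one, Equiv.swap_inv]
    apply heq
    rw [h5, ← G.equiv _ (cj_mem hh), ← smul_sv, h4]
    rcases Int.units_eq_one_or (par t) with h7 | h7
    · have h8 := (pos_of_par refl (by omega) hh a h7).2 (G.f G.x0)
      rw [show G.f G.x0 = G.x from rfl, gx] at h8
      rw [show G.f G.x0 = G.x from rfl, ← h8, h7, sg_one, one_smul, ← h6, ← G.equiv h hh]
      rfl
    · have h8 := (neg_of_par refl (by omega) hneg h0 hp0 hh a h7).2 (G.f G.x0)
      rw [show G.f G.x0 = G.x from rfl, gx] at h8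
      rw [show G.f G.x0 = G.x from rfl, h7, sg_neg, sg_one, neg_smul, one_smul, smul_neg, ← h6,
        ← G.equiv h hh, show G.f G.x0 = G.x from rfl, h8, neg_neg]
  have f1' : ∀ y, e (G.ρ 1 • y) = m4 z1 (e y) := by
    intro y
    rw [f1]
    funext k
    have e2 : prd z1 = z0 := rfl
    simp only [m4, m2, hz1, if_true, one_ne_zero, if_false]
    rw [← hz1, e2]
  have f2 : ∀ j : Fin d, 2 ≤ j.val → ∀ y, e (G.ρ j • y) = m4 j (e y) := by
    intro j hj y
    rw [fH (G.ρ j) (hJ j hj) (Equiv.swap (prd j) j) (fun _ => 1)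
      (fun k => by rw [hsw j hj, sg_one, one_smul])]
    funext k
    have e2 : j.val ≠ 0 := by omega
    have e3 : j.val ≠ 1 := by omega
    simp [m4, m2, e2, e3]
  have hF : ∀ s, F2 u c c s = c • sv u s := by
    intro s
    simp [F2, sv]
  have f0 : ∀ y, e (G.ρ 0 • y) = fun k => e y k * s0 k := by
    intro y
    rw [fH (G.ρ 0) r0 1 s0 h0]
    rfl
  have hm0 : ∀ w : Fin d → ℤˣ, m4 z0 w = m2 z0 w := by
    intro w
    funext k
    have e3 : (z0 : Fin d).val ≠ 1 := by simp [hz0]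
    simp [m4, e3]
  have hm1 : ∀ w : Fin d → ℤˣ, m4 z1 w = fun k => par w * m2 z1 w k := by
    intro w
    funext k
    have e3 : (z1 : Fin d).val = 1 := by simp [hz1]
    simp [m4, e3]
  have hm2 : ∀ j : Fin d, 2 ≤ j.val → ∀ w : Fin d → ℤˣ, m4 j w = m2 j w := by
    intro j hj w
    funext k
    have e3 : j.val ≠ 1 := by omega
    simp [m4, e3]
  have hi3 : ∀ i : Fin d, i = z0 ∨ i = z1 ∨ 2 ≤ i.val := by
    intro i
    rcases Nat.lt_or_ge i.val 2 with h | h
    · rcases hlt2 i h with h | h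
      · exact Or.inl h
      · exact Or.inr (Or.inl h)
    · exact Or.inr (Or.inr h)
  have hk0 : ∀ k : Fin d, k ≠ z0 → s0 k = s0 z1 := by
    intro k hk
    apply hs1
    by_contra h
    apply hk
    ext
    simp only [hz0]
    omega
  have hz00 : (z0 : Fin d).val = 0 := rfl
  have hS : ∀ (i : Fin d) (w : Fin d → ℤˣ), (S4 d hev).σ i w = m4 i w := fun i w => rfl
  refine ⟨hev, u, c, hc0, ?_⟩
  rcases Int.units_eq_one_or (s0 z0) with hs0 | hs0
  · have hs1' : s0 z1 = -1 := by
      rcases Int.units_eq_one_or (s0 z1) with h | h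
      · exact absurd (hs0.trans h.symm) hne
      · exact h
    obtain ⟨k, hk, ak⟩ : ∃ k ∈ G.H, Act G u k (Equiv.swap z0 z1) (fun _ => 1) := by
      obtain ⟨k, kp, ka⟩ := pos_perm refl (Equiv.swap z0 z1)
      exact ⟨k, kp.1, ka⟩
    have fC : ∀ y, e ((G.ρ 1 * k) • y) = fun i => par (e y) * e y i := by
      intro y
      rw [mul_smul, f1, fH k hk _ _ ak]
      funext i
      simp only [mul_one, Equiv.swap_inv, Equiv.swap_apply_self]
      congr 1
      exact Equiv.prod_comp (Equiv.swap z0 z1) (e y)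
    refine ⟨G.ρ 1 * k, e, ?_, ?_, fun x => by rw [hF, he]⟩
    · rw [fC, hx0]
      funext i
      simp [par]
    · intro i x
      obtain ⟨y, rfl⟩ : ∃ y, (G.ρ 1 * k) • y = x := ⟨(G.ρ 1 * k)⁻¹ • x, by rw [smul_inv_smul]⟩
      have e1 : (G.ρ 1 * k * G.ρ i * (G.ρ 1 * k)⁻¹) • (G.ρ 1 * k) • y =
          (G.ρ 1 * k) • (G.ρ i • y) := by
        rw [← mul_smul, ← mul_smul]
        congr 1
        group
      rw [e1, fC, fC, hS]
      rcases hi3 i with rfl | rfl | hi2
      · have e2 : e (G.ρ (z0 : Fin d).val • y) = fun k => (-1) * m2 z0 (e y) k := by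
          rw [hz00, f0]
          funext l
          simp only [m2, hz00, if_true]
          by_cases hl0 : l = z0
          · rw [if_pos hl0, hl0, hs0]
            simp
          · rw [if_neg hl0, hk0 l hl0, hs1']
            simp
        rw [e2, par_mul_const hev, par_flip z0 hz00, hm0, m2_mul]
        funext l
        simp
      · have e2 : e (G.ρ (z1 : Fin d).val • y) = m4 z1 (e y) := f1' y
        rw [e2, hm1, hm1, par_mul_const hev, par_mul_const hev,
          par_swap z1 (by simp [hz1]), m2_mul]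
      · rw [f2 i hi2, hm2 i hi2, hm2 i hi2, par_swap i (by omega), m2_mul]
  · have hs1' : s0 z1 = 1 := by
      rcases Int.units_eq_one_or (s0 z1) with h | h
      · exact h
      · exact absurd (hs0.trans h.symm) hne
    refine ⟨1, e, ?_, ?_, fun x => by rw [hF, he]⟩
    · rw [one_smul, hx0]
    · intro i y
      rw [one_mul, inv_one, mul_one, hS]
      rcases hi3 i with rfl | rfl | hi2
      · rw [hz00, f0, hm0]
        funext l
        simp only [m2, hz00, if_true]
        by_cases hl0 : l = z0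
        · rw [if_pos hl0, hl0, hs0]
          simp
        · rw [if_neg hl0, hk0 l hl0, hs1']
          simp
      · exact f1' y
      · exact f2 i hi2 y

end

end FO2
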