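import Pool.Agent.FO2.Stmts
import Pool.Agent.Lib_helper64.FO.Flags

/-!
# Flags of a polytope
-/

namespace FO2

open Lib_helper64.FO

namespace FLG

variable {d : ℕ} {P : Type} [PartialOrder P] {rk : P → ℤ}

theorem eq_of_rk (h : IsRegularPolytope d rk) (C : Flag P) {x y : P} (hx : x ∈ C) (hy : y ∈ C)
    (e : rk x = rk y) : x = y := by
  by_contra hne
  rcases C.Chain' hx hy hne with h1 | h1
  · have := h.strict x y (lt_of_le_of_ne h1 hne); omega
  · have := h.strict y x (lt_of_le_of_ne h1 (Ne.symm hne)); omega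

theorem lt_of_rk (h : IsRegularPolytope d rk) (C : Flag P) {x y : P} (hx : x ∈ C) (hy : y ∈ C)
    (e : rk x < rk y) : x < y := by
  have hne : x ≠ y := by rintro rfl; omega
  rcases C.Chain' hx hy hne with h1 | h1
  · exact lt_of_le_of_ne h1 hne
  · have := h.strict y x (lt_of_le_of_ne h1 (Ne.symm hne)); omega

theorem le_of_rk (h : IsRegularPolytope d rk) (C : Flag P) {x y : P} (hx : x ∈ C) (hy : y ∈ C)
    (e : rk x ≤ rk y) : x ≤ y := by
  rcases lt_or_eq_of_le e with h1 | h1
  · exact (lt_of_rk h C hx hy h1).le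
  · exact (eq_of_rk h C hx hy h1).le

theorem rk_range (h : IsRegularPolytope d rk) (x : P) : -1 ≤ rk x ∧ rk x ≤ d := by
  obtain ⟨b, hb, hb'⟩ := h.bot
  obtain ⟨t, ht, ht'⟩ := h.top
  constructor
  · rcases eq_or_lt_of_le (hb x) with e | e
    · rw [← e, hb']
    · have := h.strict b x e; omega
  · rcases eq_or_lt_of_le (ht x) with e | e
    · rw [e, ht']
    · have := h.strict x t e; omega

theorem exists_flag_of_chain (s : Set P) (hs : IsChain (· ≤ ·) s) :
    ∃ C : Flag P, s ⊆ (C : Set P) := by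
  obtain ⟨M, hM, hsM⟩ := hs.exists_maxChain
  exact ⟨⟨M, hM.1, hM.2⟩, hsM⟩

theorem exists_flag_mem (x : P) : ∃ C : Flag P, x ∈ C := by
  obtain ⟨C, hC⟩ := exists_flag_of_chain ({x} : Set P) (by simp [IsChain])
  exact ⟨C, hC rfl⟩

theorem rk_le_map (h : IsRegularPolytope d rk) (γ : P ≃o P) :
    ∀ k : ℕ, ∀ x : P, rk x = (k : ℤ) - 1 → (k : ℤ) - 1 ≤ rk (γ x) := by
  intro k
  induction k with
  | zero => intro x _; have := (rk_range h (γ x)).1; simpa using this
  | succ k ih =>
    intro x hx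
    obtain ⟨C, hC⟩ := exists_flag_mem x
    have hr := rk_range h x
    push_cast at hx
    obtain ⟨y, hy, hyr⟩ := h.flags C ((k : ℤ) - 1) (by omega) (by omega)
    have hlt : y < x := lt_of_rk h C hy hC (by omega)
    have h1 := ih y hyr
    have h2 := h.strict _ _ (γ.lt_iff_lt.2 hlt)
    push_cast
    omega

theorem rk_map (h : IsRegularPolytope d rk) (γ : P ≃o P) (x : P) : rk (γ x) = rk x := by
  have key : ∀ (δ : P ≃o P) (y : P), rk y ≤ rk (δ y) := by
    intro δ y
    have hr := rk_range h y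
    have := rk_le_map h δ (rk y + 1).toNat y (by omega)
    omega
  have h1 := key γ x
  have h2 := key γ.symm (γ x)
  rw [γ.symm_apply_apply] at h2
  omega

theorem adjacent [Finite P] (h : IsRegularPolytope d rk) (C : Flag P) (i : ℕ) (hi : i < d) :
    ∃ D : Flag P, D ≠ C ∧ (∀ x ∈ C, rk x ≠ (i : ℤ) → x ∈ D) ∧
      ∀ D' : Flag P, D' ≠ C → (∀ x ∈ C, rk x ≠ (i : ℤ) → x ∈ D') → D' = D := by
  classical
  obtain ⟨x, hx, hxr⟩ := h.flags C ((i : ℤ) - 1) (by omega) (by omega)
  obtain ⟨y, hy, hyr⟩ := h.flags C ((i : ℤ) + 1) (by omega) (by omega)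
  obtain ⟨z, hz, hzr⟩ := h.flags C (i : ℤ) (by omega) (by omega)
  have hxy : x < y := lt_of_rk h C hx hy (by omega)
  have hcard := h.diamond x y hxy (by omega)
  have hxz : x < z := lt_of_rk h C hx hz (by omega)
  have hzy : z < y := lt_of_rk h C hz hy (by omega)
  obtain ⟨⟨a, ha⟩, ⟨b, hb⟩, hab, huniv⟩ := Nat.card_eq_two_iff.1 hcard
  have hall : ∀ w, x < w → w < y → w = a ∨ w = b := by
    intro w h1 h2
    have : (⟨w, h1, h2⟩ : {z : P // x < z ∧ z < y}) ∈ (Set.univ : Set _) := Set.mem_univ _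
    rw [← huniv] at this
    rcases this with h3 | h3
    · exact Or.inl (congrArg Subtype.val h3)
    · exact Or.inr (congrArg Subtype.val h3)
  have hab' : a ≠ b := fun e => hab (Subtype.ext e)
  -- the other face
  obtain ⟨w, hw1, hw2, hwz, hwall⟩ : ∃ w, x < w ∧ w < y ∧ w ≠ z ∧
      ∀ v, x < v → v < y → v ≠ z → v = w := by
    rcases hall z hxz hzy with e | e
    · refine ⟨b, hb.1, hb.2, fun e' => hab' (e'.trans e).symm, ?_⟩
      intro v h1 h2 h3
      rcases hall v h1 h2 with h4 | h4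
      · exact absurd (h4.trans e.symm) h3
      · exact h4
    · refine ⟨a, ha.1, ha.2, fun e' => hab' (e'.trans e), ?_⟩
      intro v h1 h2 h3
      rcases hall v h1 h2 with h4 | h4
      · exact h4
      · exact absurd (h4.trans e.symm) h3
  have hwr : rk w = i := by
    have h1 := h.strict x w hw1
    have h2 := h.strict w y hw2
    omega
  have hwC : w ∉ C := fun hw => hwz (eq_of_rk h C hw hz (by omega))
  have hcomp : ∀ c ∈ C, rk c ≠ (i : ℤ) → c < w ∨ w < c := by
    intro c hc hcr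
    rcases lt_or_gt_of_ne hcr with h1 | h1
    · exact Or.inl (lt_of_le_of_lt (le_of_rk h C hc hx (by omega)) hw1)
    · exact Or.inr (lt_of_lt_of_le hw2 (le_of_rk h C hy hc (by omega)))
  let s : Set P := {c | (c ∈ C ∧ rk c ≠ (i : ℤ)) ∨ c = w}
  have hs : IsChain (· ≤ ·) s := by
    rintro a (⟨ha, ha'⟩ | rfl) b (⟨hb, hb'⟩ | rfl) hne
    · exact C.Chain' ha hb hne
    · rcases hcomp a ha ha' with h1 | h1
      · exact Or.inl h1.le
      · exact Or.inr h1.le
    · rcases hcomp b hb hb' with h1 | h1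
      · exact Or.inr h1.le
      · exact Or.inl h1.le
    · exact absurd rfl hne
  have hmax : IsMaxChain (· ≤ ·) s := by
    refine maxChain_of_ranks rk h.strict s hs ?_
    intro p
    by_cases hp : rk p = i
    · exact ⟨w, Or.inr rfl, by omega⟩
    · have hr := rk_range h p
      obtain ⟨q, hq, hqr⟩ := h.flags C (rk p) hr.1 hr.2
      exact ⟨q, Or.inl ⟨hq, by omega⟩, hqr⟩
  let D : Flag P := ⟨s, hmax.1, hmax.2⟩
  have hDmem : ∀ c, c ∈ D ↔ (c ∈ C ∧ rk c ≠ (i : ℤ)) ∨ c = w := fun c => Iff.rfl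
  refine ⟨D, ?_, ?_, ?_⟩
  · intro e
    apply hwC
    rw [← e]
    exact (hDmem w).2 (Or.inr rfl)
  · intro c hc hcr
    exact (hDmem c).2 (Or.inl ⟨hc, hcr⟩)
  · intro D' hne hD'
    obtain ⟨v, hv, hvr⟩ := h.flags D' (i : ℤ) (by omega) (by omega)
    have hxD' : x ∈ D' := hD' x hx (by omega)
    have hyD' : y ∈ D' := hD' y hy (by omega)
    have hxv : x < v := lt_of_rk h D' hxD' hv (by omega)
    have hvy : v < y := lt_of_rk h D' hv hyD' (by omega)
    have hvz : v ≠ z := by
      rintro rfl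
      apply hne
      have hsub : (C : Set P) ⊆ (D' : Set P) := by
        intro c hc
        by_cases hcr : rk c = i
        · have : c = v := eq_of_rk h C hc hz (by omega)
          rw [this]; exact hv
        · exact hD' c hc hcr
      have := C.max_chain' D'.Chain' hsub
      exact (SetLike.coe_injective this).symm
    have hvw := hwall v hxv hvy hvz
    have hsub : s ⊆ (D' : Set P) := by
      rintro c (⟨hc, hcr⟩ | rfl)
      · exact hD' c hc hcr
      · rw [← hvw]; exact hv
    have := hmax.2 D'.Chain' hsub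
    exact (SetLike.coe_injective this).symm

end FLG

theorem flg : StmtFlag := by
  intro d P _ _ rk h
  exact ⟨fun C x y hx hy e => FLG.eq_of_rk h C hx hy e, FLG.rk_range h, FLG.rk_map h,
    FLG.exists_flag_of_chain, FLG.adjacent h⟩

end FO2
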