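import Pool.Agent.FO2.Stmts
import Pool.Agent.Lib_helper64.FO.Ext

/-!
# Module FR1 : the frame case, `J = {0}`
-/

namespace FO2

open Lib_helper64.FO
open scoped RealInnerProductSpace

namespace FR1

variable {d : ℕ} {Γ : Type} [Group Γ] {X : Type} [MulAction Γ X]

/-- the main step: there is no element outside `H` which fixes the base vertex and commutes with
the last generator -/
theorem core [Finite Γ] (h : StmtOrb) (G : Geo d Γ X) (r : E d) (hd : 6 ≤ d) (hL : Last G r)
    (hF : FrameRS (G.orb r)) {a : E d} (ha : a ∈ G.orb r) {c : ℝ} (hx : G.x = c • a)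
    {α : Γ} (hα : α ∉ G.H) (hα0 : α • G.x0 = G.x0)
    (hcomm : α * G.ρ (d - 1) = G.ρ (d - 1) * α) : False := by
  have hρH : G.ρ (d - 1) ∈ G.H := hL.J (d - 1) (by omega)
  obtain ⟨hRS, hrr, hstab, htrans, hconj, href, -⟩ := h d Γ X G (G.ρ (d - 1)) 1 r hρH (Or.inl rfl)
    hL.norm (fun v => by rw [one_smul]; exact hL.refl v)
  have hc : c ≠ 0 := by
    rintro rfl
    apply hL.good.chain.x_ne
    rw [hx, zero_smul]
  -- every root gives an element of `H`
  have hs : ∀ b ∈ G.orb r, ∃ k ∈ G.H, ∀ v, G.T (k * G.ρ (d - 1) * k⁻¹) v = sref b v := by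
    intro b hb
    obtain ⟨k, hk, e⟩ := href b hb
    refine ⟨k, hk, fun v => ?_⟩
    rw [hconj k hk, one_smul, e]
  -- all vertices
  have hX : ∀ y : X, ∃ b ∈ G.orb r, G.f y = c • b := by
    intro y
    obtain ⟨g, hg⟩ := G.trans y
    by_cases hgH : g ∈ G.H
    · refine ⟨G.T g a, hstab g hgH a ha, ?_⟩
      have := G.equiv g hgH G.x0
      rw [hg] at this
      rw [← this, show G.f G.x0 = G.x from rfl, hx, map_smul]
    · have hgα : g * α ∈ G.H := G.mul_mem_of_not hgH hα
      refine ⟨G.T (g * α) a, hstab _ hgα a ha, ?_⟩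
      have := G.equiv (g * α) hgα G.x0
      rw [mul_smul, hα0, hg] at this
      rw [← this, show G.f G.x0 = G.x from rfl, hx, map_smul]
  have hne : ∀ y : X, G.f y ≠ 0 := hL.good.chain.f_ne
  have hnorm : ∀ y : X, ⟪G.f y, G.f y⟫ = c * c := by
    intro y
    obtain ⟨b, hb, e⟩ := hX y
    rw [e, real_inner_smul_left, real_inner_smul_right, hRS.inner_self hb, mul_one]
  -- the frame property for vertices
  have hfr : ∀ y z : X, ⟪G.f y, G.f z⟫ = 0 ∨ y = z ∨ G.f z = -G.f y := by
    intro y z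
    obtain ⟨b, hb, e⟩ := hX y
    obtain ⟨b', hb', e'⟩ := hX z
    rcases hF b hb b' hb' with h1 | h1 | h1
    · left
      rw [e, e', real_inner_smul_left, real_inner_smul_right, h1, mul_zero, mul_zero]
    · right; left
      apply G.inj
      rw [e, e', h1]
    · right; right
      rw [e, e', h1, smul_neg, neg_neg]
  -- opposite vertices remain opposite
  have hopp : ∀ y z : X, G.f z = -G.f y → G.f (α • z) = -G.f (α • y) := by
    intro y z hyz
    obtain ⟨b, hb, e⟩ := hX y
    obtain ⟨k, hk, hT⟩ := hs b hb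
    have hsH : k * G.ρ (d - 1) * k⁻¹ ∈ G.H := mul_mem (mul_mem hk hρH) (inv_mem hk)
    have hz : (k * G.ρ (d - 1) * k⁻¹) • y = z := by
      apply G.inj
      rw [← G.equiv _ hsH, hT, hyz, e, sref_smul, sref_self (hRS.norm b hb), smul_neg]
    -- the conjugate
    have hk' : α * k * α⁻¹ ∈ G.H := G.conj_mem α hk
    have hcon : α * (k * G.ρ (d - 1) * k⁻¹) * α⁻¹ =
        (α * k * α⁻¹) * G.ρ (d - 1) * (α * k * α⁻¹)⁻¹ := by
      have h1 : α⁻¹ * G.ρ (d - 1) * α = G.ρ (d - 1) := by
        rw [mul_assoc, ← hcomm, inv_mul_cancel_left]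
      calc α * (k * G.ρ (d - 1) * k⁻¹) * α⁻¹
          = α * (k * (α⁻¹ * G.ρ (d - 1) * α) * k⁻¹) * α⁻¹ := by rw [h1]
        _ = _ := by group
    have hb'' := hstab _ hk' r hrr
    have hT' : ∀ v, G.T (α * (k * G.ρ (d - 1) * k⁻¹) * α⁻¹) v = sref (G.T (α * k * α⁻¹) r) v := by
      intro v
      rw [hcon, hconj _ hk', one_smul]
    have hsH' : α * (k * G.ρ (d - 1) * k⁻¹) * α⁻¹ ∈ G.H := G.conj_mem α hsH
    have hαz : (α * (k * G.ρ (d - 1) * k⁻¹) * α⁻¹) • α • y = α • z := by
      rw [← hz, smul_smul, smul_smul]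
      congr 1
      group
    have e1 : G.f (α • z) = sref (G.T (α * k * α⁻¹) r) (G.f (α • y)) := by
      rw [← hαz, ← G.equiv _ hsH', hT']
    obtain ⟨b1, hb1, e2⟩ := hX (α • y)
    rcases hF _ hb'' b1 hb1 with h1 | h1 | h1
    · exfalso
      have h2 : G.f (α • z) = G.f (α • y) := by
        rw [e1, e2, sref_smul, sref, h1, mul_zero, zero_smul, sub_zero]
      have h3 : z = y := by
        have := G.inj h2
        exact MulAction.injective α this
      rw [h3] at hyz
      have h4 : (2 : ℝ) • G.f y = 0 := by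
        rw [two_smul]
        nth_rewrite 1 [hyz]
        exact neg_add_cancel _
      exact hne y ((smul_eq_zero.1 h4).resolve_left two_ne_zero)
    · rw [e1, e2, h1, sref_smul, sref_self (hRS.norm b1 hb1), smul_neg]
    · rw [e1, e2, h1, sref_smul, sref_neg, sref_self (hRS.norm b1 hb1), smul_neg]
  -- opposite vertices exist
  have hex : ∀ y : X, ∃ z : X, G.f z = -G.f y := by
    intro y
    obtain ⟨b, hb, e⟩ := hX y
    obtain ⟨k, hk, hT⟩ := hs b hb
    have hsH : k * G.ρ (d - 1) * k⁻¹ ∈ G.H := mul_mem (mul_mem hk hρH) (inv_mem hk)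
    refine ⟨(k * G.ρ (d - 1) * k⁻¹) • y, ?_⟩
    rw [← G.equiv _ hsH, hT, e, sref_smul, sref_self (hRS.norm b hb), smul_neg]
  have hfin : Finite X := Finite.of_surjective (fun g : Γ => g • G.x0) G.trans
  have : Fintype X := Fintype.ofFinite X
  obtain ⟨g, hg⟩ := exists_linearIsometry (fun y : X => G.f y) (fun y : X => G.f (α • y)) (by
    intro y z
    rcases hfr y z with h1 | h1 | h1
    · rw [h1]
      rcases hfr (α • y) (α • z) with h2 | h2 | h2
      · exact h2.symm
      · exfalso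
        have h3 : y = z := MulAction.injective α h2
        rw [h3, hnorm] at h1
        exact hc (mul_self_eq_zero.1 h1)
      · exfalso
        obtain ⟨w, hw⟩ := hex y
        have h3 := hopp y w hw
        have h4 : z = w := MulAction.injective α (G.inj (h2.trans h3.symm))
        rw [h4, hw, inner_neg_right, hnorm, neg_eq_zero] at h1
        exact hc (mul_self_eq_zero.1 h1)
    · rw [h1, hnorm, hnorm]
    · rw [hopp y z h1, h1, inner_neg_right, inner_neg_right, hnorm, hnorm])
  exact G.noiso α hα ⟨g, hg⟩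

end FR1

/-- FR1 : frame case: `J = {0}` and the base vertex is a multiple of a frame vector -/
theorem fr1 (h : StmtOrb) : StmtFr1 := by
  intro d Γ _ _ X _ G r hd hL hF hx
  have hρH : G.ρ (d - 1) ∈ G.H := hL.J (d - 1) (by omega)
  obtain ⟨-, hrr, -⟩ := h d Γ X G (G.ρ (d - 1)) 1 r hρH (Or.inl rfl)
    hL.norm (fun v => by rw [one_smul]; exact hL.refl v)
  have hrx : ⟪r, G.x⟫ = 0 := hL.perp _ (G.V_mono (by omega) G.x_mem_V1)
  have hx' : ∃ a ∈ G.orb r, ∃ c : ℝ, G.x = c • a := by
    rcases hx with hx | ⟨κ, hκ, hx⟩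
    · exact hx
    · exfalso
      rcases hx r hrr with h1 | h1
      · exact hκ (h1.symm.trans hrx)
      · exact hκ (neg_eq_zero.1 (h1.symm.trans hrx))
  refine ⟨fun j hj => ?_, hx'⟩
  obtain ⟨a, ha, c, hc⟩ := hx'
  by_contra hcon
  have hj3 : j < 3 := by
    by_contra h3
    exact hcon (hL.J j (by omega))
  exact FR1.core h G r hd hL hF ha hc hcon (G.stab j hj) (G.comm j (d - 1) (by omega))

end FO2
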