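import Pool.Agent.FO2.Stmts

/-!
# Module FR2: the frame case, form of the generators
-/

set_option autoImplicit false

namespace FO2

open Lib_helper64.FO
open scoped RealInnerProductSpace

namespace FR2

variable {d : ℕ}

theorem sref_eq_self {a v : E d} (h : ⟪a, v⟫ = 0) : sref a v = v := by simp [sref, h]

theorem perp_of_sref {a v : E d} (ha : ‖a‖ = 1) (h : sref a v = v) : ⟪a, v⟫ = 0 := by
  have h1 : (2 * ⟪a, v⟫) • a = 0 := by
    rw [sref, sub_eq_self] at h
    exact h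
  rcases smul_eq_zero.1 h1 with h2 | h2
  · linarith
  · rw [h2, norm_zero] at ha; norm_num at ha

theorem ne_neg {a : E d} (ha : ‖a‖ = 1) : a ≠ -a := by
  intro h
  have h1 : a = 0 := by
    have h2 : (2 : ℝ) • a = 0 := by
      rw [two_smul]
      nth_rw 1 [h]
      simp
    rcases smul_eq_zero.1 h2 with h3 | h3
    · norm_num at h3
    · exact h3
  rw [h1, norm_zero] at ha
  norm_num at ha

/-- two frame vectors with the same reflection are not orthogonal -/
theorem not_perp {a b : E d} (ha : ‖a‖ = 1) (h : ∀ v, sref a v = sref b v) : ⟪b, a⟫ ≠ 0 := by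
  intro h0
  have h1 := h a
  rw [sref_self ha, sref_eq_self h0] at h1
  exact ne_neg ha h1.symm

variable {Γ : Type} [Group Γ] {X : Type} [MulAction Γ X] (G : Geo d Γ X)

theorem cj_mem {h : Γ} (hh : h ∈ G.H) : G.ρ 0 * h * G.ρ 0 ∈ G.H := by
  have := G.conj_mem (G.ρ 0) hh
  rwa [G.inv_ρ] at this

theorem cj_mul (g h : Γ) :
    G.ρ 0 * (g * h) * G.ρ 0 = (G.ρ 0 * g * G.ρ 0) * (G.ρ 0 * h * G.ρ 0) := by
  have h1 := G.sq 0
  calc G.ρ 0 * (g * h) * G.ρ 0 = G.ρ 0 * g * 1 * h * G.ρ 0 := by group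
    _ = G.ρ 0 * g * (G.ρ 0 * G.ρ 0) * h * G.ρ 0 := by rw [h1]
    _ = _ := by group

theorem cj_cj (h : Γ) : G.ρ 0 * (G.ρ 0 * h * G.ρ 0) * G.ρ 0 = h := by
  have h1 := G.sq 0
  calc G.ρ 0 * (G.ρ 0 * h * G.ρ 0) * G.ρ 0 = (G.ρ 0 * G.ρ 0) * h * (G.ρ 0 * G.ρ 0) := by group
    _ = h := by rw [h1]; group

theorem cj_inv (h : Γ) : (G.ρ 0 * h * G.ρ 0)⁻¹ = G.ρ 0 * h⁻¹ * G.ρ 0 := by
  rw [mul_inv_rev, mul_inv_rev, G.inv_ρ]
  group

theorem cj_one : G.ρ 0 * 1 * G.ρ 0 = 1 := by rw [mul_one, G.sq]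

/-- what is used of the orbit of `r` -/
structure Ctx (Φ : Set (E d)) : Prop where
  rs : IsRS Φ
  fr : FrameRS Φ
  cl : ∀ h ∈ G.H, ∀ b ∈ Φ, G.T h b ∈ Φ
  tr : ∀ b ∈ Φ, ∀ c ∈ Φ, ∃ h ∈ G.H, G.T h b = c ∨ G.T h b = -c
  rf : ∀ b ∈ Φ, ∃ h ∈ G.H, (∀ v, G.T h v = sref b v) ∧
    ∃ b' ∈ Φ, ∀ v, G.T (G.ρ 0 * h * G.ρ 0) v = sref b' v

theorem fix_x {h : Γ} (hh : h ∈ G.H) : G.T h G.x = G.x ↔ h • G.x0 = G.x0 := by
  rw [Geo.x, G.equiv h hh]
  exact G.inj.eq_iff

theorem fix_y {h : Γ} (hh : h ∈ G.H) :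
    G.T h (G.f (G.ρ 0 • G.x0)) = G.f (G.ρ 0 • G.x0) ↔ h • G.ρ 0 • G.x0 = G.ρ 0 • G.x0 := by
  rw [G.equiv h hh]
  exact G.inj.eq_iff

theorem fix_xy {h : Γ} (hh : h ∈ G.H) : G.T h G.x = G.x ↔
    G.T (G.ρ 0 * h * G.ρ 0) (G.f (G.ρ 0 • G.x0)) = G.f (G.ρ 0 • G.x0) := by
  rw [fix_x G hh, fix_y G (cj_mem G hh)]
  constructor
  · intro h1
    rw [mul_smul, mul_smul, ← mul_smul (G.ρ 0) (G.ρ 0), G.sq, one_smul, h1]
  · intro h1
    rw [mul_smul, mul_smul, ← mul_smul (G.ρ 0) (G.ρ 0), G.sq, one_smul] at h1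
    have := congrArg (fun z => G.ρ 0 • z) h1
    simp only [← mul_smul, G.sq, one_smul] at this
    rw [← mul_assoc, G.sq, one_mul] at this
    exact this

/-- the second vertex is a multiple of a frame vector -/
theorem second {Φ : Set (E d)} (C : Ctx G Φ) (hch : Chain G) (hsp : Submodule.span ℝ Φ = ⊤)
    {a : E d} (ha : a ∈ Φ) {c : ℝ} (hx : G.x = c • a) :
    ∃ w ∈ Φ, ∃ b : ℝ, b ≠ 0 ∧ G.f (G.ρ 0 • G.x0) = b • w ∧ ⟪a, w⟫ = 0 ∧
      ∃ h0 ∈ G.H, (∀ v, G.T h0 v = sref a v) ∧ ∀ v, G.T (G.ρ 0 * h0 * G.ρ 0) v = sref w v := by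
  obtain ⟨h0, hh0, e0, w, hw, ew⟩ := C.rf a ha
  set y := G.f (G.ρ 0 • G.x0) with hy
  have na := C.rs.norm a ha
  have nw := C.rs.norm w hw
  have hc : c ≠ 0 := by
    rintro rfl
    exact hch.x_ne (by rw [hx, zero_smul])
  have key : ∀ e ∈ Φ, ⟪e, w⟫ = 0 → ⟪e, y⟫ = 0 := by
    intro e he hew
    obtain ⟨h1, hh1, e1, e', he', e2⟩ := C.rf e he
    have ne := C.rs.norm e he
    have h3 : ⟪e', a⟫ = 0 := by
      have h4 : (∀ v, sref e' v = sref a v) → False := by
        intro h5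
        have h6 : G.ρ 0 * h1 * G.ρ 0 = h0 := by
          apply G.T_inj (cj_mem G hh1) hh0
          ext1 v
          rw [e2 v, h5 v, e0 v]
        have h7 : h1 = G.ρ 0 * h0 * G.ρ 0 := by rw [← h6, cj_cj]
        have h8 : ∀ v, sref w v = sref e v := by
          intro v
          rw [← ew v, ← h7, e1 v]
        exact not_perp nw h8 hew
      rcases C.fr e' he' a ha with h | h | h
      · exact h
      · exact (h4 (fun v => by rw [h])).elim
      · exact (h4 (fun v => by rw [h, sref_neg])).elim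
    have h9 : G.T (G.ρ 0 * h1 * G.ρ 0) G.x = G.x := by
      rw [e2, hx, sref_eq_self]
      rw [inner_smul_right, h3, mul_zero]
    have h10 := (fix_xy G (cj_mem G hh1)).1 h9
    rw [cj_cj, e1] at h10
    exact perp_of_sref ne h10
  have hyw : y = ⟪w, y⟫ • w := by
    have h1 : ∀ e ∈ Φ, ⟪e, y - ⟪w, y⟫ • w⟫ = 0 := by
      intro e he
      rcases C.fr e he w hw with h | h | h
      · rw [inner_sub_right, inner_smul_right, h, key e he h]; ring
      · rw [h, inner_sub_right, inner_smul_right, real_inner_self_eq_norm_sq, nw]; ring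
      · rw [h, inner_neg_left, inner_sub_right, inner_smul_right, real_inner_self_eq_norm_sq, nw]
        ring
    have h2 : ∀ v ∈ Submodule.span ℝ Φ, ⟪v, y - ⟪w, y⟫ • w⟫ = 0 := by
      intro v hv
      induction hv using Submodule.span_induction with
      | mem e he => exact h1 e he
      | zero => exact inner_zero_left _
      | add u v _ _ hu hv => rw [inner_add_left, hu, hv, add_zero]
      | smul t u _ hu => rw [real_inner_smul_left, hu, mul_zero]
    have h3 := h2 (y - ⟪w, y⟫ • w) (by rw [hsp]; trivial)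
    rw [inner_self_eq_zero] at h3
    exact sub_eq_zero.1 h3
  refine ⟨w, hw, ⟪w, y⟫, ?_, hyw, ?_, h0, hh0, e0, ew⟩
  · intro h
    rw [h, zero_smul] at hyw
    exact hch.f_ne _ hyw
  · have h4 : ∀ t : ℝ, w ≠ t • a := by
      intro t ht
      apply hch.ρ0x
      rw [← hy, hyw, ht]
      have h5 : a ∈ G.V 1 := by
        have : a = c⁻¹ • G.x := by rw [hx, smul_smul, inv_mul_cancel₀ hc, one_smul]
        rw [this]
        exact Submodule.smul_mem _ _ G.x_mem_V1
      exact Submodule.smul_mem _ _ (Submodule.smul_mem _ _ h5)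
    rcases C.fr a ha w hw with h | h | h
    · exact h
    · exact absurd (by rw [h, one_smul]) (h4 1)
    · exact absurd (by rw [h]; simp) (h4 (-1))

/-- an isometry `T h` that commutes with the reflection in `e` maps `e` to `± e` -/
theorem comm_sref {Φ : Set (E d)} (C : Ctx G Φ) {h : Γ} (hh : h ∈ G.H) {e : E d} (he : e ∈ Φ)
    (hc : ∀ v, G.T h (sref e v) = sref e (G.T h v)) : G.T h e = e ∨ G.T h e = -e := by
  have ne := C.rs.norm e he
  have h1 := hc e
  rw [sref_self ne, map_neg] at h1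
  rcases C.fr e he _ (C.cl h hh e he) with h2 | h2 | h2
  · rw [sref_eq_self h2] at h1
    exact absurd h1.symm (ne_neg (by rw [LinearIsometryEquiv.norm_map, ne]))
  · exact Or.inl h2.symm
  · exact Or.inr (neg_eq_iff_eq_neg.1 h2.symm)

/-- the sequence of frame vectors -/
noncomputable def vs (a w : E d) : ℕ → E d
  | 0 => a
  | 1 => w
  | (j + 2) => G.T (G.ρ (j + 1)) (vs a w (j + 1))

theorem vs_mem {Φ : Set (E d)} (C : Ctx G Φ) (hJ : ∀ j, 1 ≤ j → G.ρ j ∈ G.H) {a w : E d}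
    (ha : a ∈ Φ) (hw : w ∈ Φ) : ∀ k, vs G a w k ∈ Φ
  | 0 => ha
  | 1 => hw
  | (j + 2) => C.cl _ (hJ _ (by omega)) _ (vs_mem C hJ ha hw (j + 1))

/-- the first `i` vectors of the sequence are orthonormal and span `V_i` -/
structure Spn (v : ℕ → E d) (i : ℕ) : Prop where
  orth : ∀ k l, k < i → l < i → k ≠ l → ⟪v k, v l⟫ = 0
  V : G.V i = Submodule.span ℝ (v '' {k | k < i})

theorem finrank_aux {v : ℕ → E d} {i : ℕ} (hn : ∀ k, ‖v k‖ = 1)
    (ho : ∀ k l, k < i → l < i → k ≠ l → ⟪v k, v l⟫ = 0) :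
    Module.finrank ℝ (Submodule.span ℝ (v '' {k | k < i})) = i := by
  have h1 : Orthonormal ℝ (fun k : Fin i => v k) := by
    refine ⟨fun k => hn k, ?_⟩
    intro k l hkl
    exact ho k l k.2 l.2 (fun h => hkl (Fin.ext h))
  have h2 := finrank_span_eq_card h1.linearIndependent
  have h3 : Set.range (fun k : Fin i => v k) = v '' {k | k < i} := by
    ext z
    constructor
    · rintro ⟨k, rfl⟩
      exact ⟨k, k.2, rfl⟩
    · rintro ⟨k, hk, rfl⟩
      exact ⟨⟨k, hk⟩, rfl⟩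
  rw [h3, Fintype.card_fin] at h2
  exact h2

theorem spn_of {v : ℕ → E d} {i : ℕ} (hn : ∀ k, ‖v k‖ = 1)
    (ho : ∀ k l, k < i → l < i → k ≠ l → ⟪v k, v l⟫ = 0) (hV : ∀ k, k < i → v k ∈ G.V i)
    (hd : Module.finrank ℝ (G.V i) = i) : Spn G v i := by
  refine ⟨ho, ?_⟩
  symm
  apply Submodule.eq_of_le_of_finrank_eq
  · rw [Submodule.span_le]
    rintro _ ⟨k, hk, rfl⟩
    exact hV k hk
  · rw [finrank_aux hn ho, hd]

theorem orth_succ {v : ℕ → E d} {i : ℕ} (ho : ∀ k l, k < i → l < i → k ≠ l → ⟪v k, v l⟫ = 0)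
    (hi : ∀ k, k < i → ⟪v k, v i⟫ = 0) :
    ∀ k l, k < i + 1 → l < i + 1 → k ≠ l → ⟪v k, v l⟫ = 0 := by
  intro k l hk hl hkl
  rcases Nat.lt_succ_iff_lt_or_eq.1 hk with h1 | h1
  · rcases Nat.lt_succ_iff_lt_or_eq.1 hl with h2 | h2
    · exact ho k l h1 h2 hkl
    · rw [h2]; exact hi k h1
  · rcases Nat.lt_succ_iff_lt_or_eq.1 hl with h2 | h2
    · rw [h1, real_inner_comm]; exact hi l h2
    · exact absurd (h1.trans h2.symm) hkl

theorem Hi_eq (hJ : ∀ j, 1 ≤ j → G.ρ j ∈ G.H) {i : ℕ} (hi : 1 ≤ i) {m : Γ} (hm : m ∈ G.up i) :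
    m ∈ G.Hi i := by
  refine ⟨?_, hm⟩
  have h1 : G.up i ≤ G.H := by
    rw [Geo.up, gpar, Subgroup.closure_le]
    rintro _ ⟨k, hk, rfl⟩
    exact hJ k (le_trans hi hk)
  exact h1 hm

theorem up_fix_of {i : ℕ} (hJ : ∀ j, 1 ≤ j → G.ρ j ∈ G.H) (hi : 1 ≤ i)
    {B : Submodule ℝ (E d)} (hB : ∀ k, i ≤ k → ∀ v ∈ B, G.T (G.ρ k) v ∈ B) :
    ∀ h ∈ G.Hi i, ∀ v ∈ B, G.T h v ∈ B := by
  intro h hh
  have h1 : h ∈ G.up i := hh.2
  refine (Subgroup.closure_induction (p := fun h _ => h ∈ G.H ∧ ∀ v ∈ B, G.T h v ∈ B)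
    ?_ ?_ ?_ ?_ h1).2
  · rintro _ ⟨k, hk, rfl⟩
    exact ⟨hJ k (le_trans hi hk), hB k hk⟩
  · refine ⟨one_mem _, fun v hv => ?_⟩
    rw [G.T_one]
    exact hv
  · rintro x y - - ⟨h1, h2⟩ ⟨h3, h4⟩
    refine ⟨mul_mem h1 h3, fun v hv => ?_⟩
    rw [G.T_mul_apply h1 h3]
    exact h2 _ (h4 v hv)
  · rintro x - ⟨h1, h2⟩
    refine ⟨inv_mem h1, fun v hv => ?_⟩
    have h5 : B.map ((G.T x).toLinearEquiv : E d →ₗ[ℝ] E d) = B := by
      apply Submodule.eq_of_le_of_finrank_eq
      · rintro _ ⟨v, hv, rfl⟩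
        exact h2 v hv
      · exact LinearEquiv.finrank_map_eq (G.T x).toLinearEquiv B
    rw [← h5] at hv
    obtain ⟨v', hv', rfl⟩ := hv
    change G.T x⁻¹ (G.T x v') ∈ B
    rw [G.T_inv_apply' h1]
    exact hv'

variable {G}

theorem finV {r : E d} (hL : Last G r) (hJ : ∀ j, 1 ≤ j → G.ρ j ∈ G.H) (hd : 6 ≤ d) {i : ℕ}
    (hi : i + 1 ≤ d) : Module.finrank ℝ (G.V i) = i := by
  rcases Nat.lt_or_ge (i + 1) d with h | h
  · exact hL.good.chain.dim i (by omega)
  · have h1 : i = d - 1 := by omega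
    rw [h1]
    exact hL.good.chain.dim' (hJ _ (by omega))

theorem finU {r : E d} (hL : Last G r) (hJ : ∀ j, 1 ≤ j → G.ρ j ∈ G.H) (hd : 6 ≤ d) {i : ℕ}
    (hi : i + 1 ≤ d) : i + Module.finrank ℝ (G.U i) = d := by
  have h1 := Submodule.finrank_add_finrank_orthogonal (G.V i)
  rw [finV hL hJ hd hi, finrank_euclideanSpace_fin] at h1
  exact h1

theorem T_ρ_V (hJ : ∀ j, 1 ≤ j → G.ρ j ∈ G.H) {i : ℕ} (hi : 1 ≤ i) {v : E d} (hv : v ∈ G.V i) :
    G.T (G.ρ i) v = v := hv _ (Hi_eq G hJ hi (G.ρ_mem_up le_rfl))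

/-- `ρ_i` preserves `V_(i+2)` -/
theorem T_ρ_V2 (hJ : ∀ j, 1 ≤ j → G.ρ j ∈ G.H) {i : ℕ} (hi : 1 ≤ i) {v : E d}
    (hv : v ∈ G.V (i + 2)) : G.T (G.ρ i) v ∈ G.V (i + 2) := by
  refine G.T_mem_V (hJ i hi) ?_ hv
  intro m hm
  rw [G.inv_ρ, G.comm_up le_rfl hm.2, mul_assoc, G.sq, mul_one]
  exact hm

/-- the new vector is orthogonal to the old ones -/
theorem next {r : E d} (hL : Last G r) (hJ : ∀ j, 1 ≤ j → G.ρ j ∈ G.H) (hd : 6 ≤ d)
    (C : Ctx G (G.orb r)) (hr : r ∈ G.orb r) {a w : E d} (ha : a ∈ G.orb r) (hw : w ∈ G.orb r)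
    {i : ℕ} (hi : 1 ≤ i) (hid : i + 2 ≤ d) (h1 : Spn G (vs G a w) i)
    (h2 : Spn G (vs G a w) (i + 1)) :
    ∀ k, k < i + 1 → ⟪vs G a w k, vs G a w (i + 1)⟫ = 0 := by
  set v := vs G a w with hv
  have hm : ∀ k, v k ∈ G.orb r := vs_mem G C hJ ha hw
  have hn : ∀ k, ‖v k‖ = 1 := fun k => C.rs.norm _ (hm k)
  have hch := hL.good.chain
  have e1 : v (i + 1) = G.T (G.ρ i) (v i) := by
    obtain ⟨j, rfl⟩ : ∃ j, i = j + 1 := ⟨i - 1, by omega⟩
    rfl
  have hfix : ∀ k, k < i → G.T (G.ρ i) (v k) = v k := by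
    intro k hk
    apply T_ρ_V hJ hi
    rw [h1.V]
    exact Submodule.subset_span ⟨k, hk, rfl⟩
  have hor : ∀ k, k < i → ⟪v k, v (i + 1)⟫ = 0 := by
    intro k hk
    rw [e1, ← hfix k hk, LinearIsometryEquiv.inner_map_map]
    exact h2.orth k i (by omega) (by omega) (by omega)
  have hvV : ∀ k, k < i + 1 → v k ∈ G.V (i + 1) := by
    intro k hk
    rw [h2.V]
    exact Submodule.subset_span ⟨k, hk, rfl⟩
  intro k hk
  rcases Nat.lt_succ_iff_lt_or_eq.1 hk with hk | hk
  · exact hor k hk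
  subst hk
  rcases C.fr _ (hm k) _ (hm (k + 1)) with h | h | h
  · exact h
  · exfalso
    apply hch.ρ_not k (by omega)
    refine (hch.Hi_of_fix k _ (hJ k hi) ?_).2
    intro z hz
    rw [h2.V] at hz
    induction hz using Submodule.span_induction with
    | mem e he =>
      obtain ⟨l, hl, rfl⟩ := he
      rcases Nat.lt_succ_iff_lt_or_eq.1 hl with hl | hl
      · exact hfix l hl
      · rw [hl, ← e1, ← h]
    | zero => exact map_zero _
    | add u v _ _ hu hv => rw [map_add, hu, hv]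
    | smul t u _ hu => rw [map_smul, hu]
  · exfalso
    have hT : G.T (G.ρ k) (v k) = -v k := by rw [← e1, h, neg_neg]
    rcases Nat.lt_or_ge (k + 2) d with hlt | hge
    · -- `Irr k`
      have hU : v k ∈ G.U k := by
        rw [Geo.U, Submodule.mem_orthogonal, h1.V]
        intro z hz
        induction hz using Submodule.span_induction with
        | mem e he =>
          obtain ⟨l, hl, rfl⟩ := he
          have hl' : l < k := hl
          exact h2.orth l k (by omega) (by omega) (by omega)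
        | zero => exact inner_zero_left _
        | add u v _ _ hu hv => rw [inner_add_left, hu, hv, add_zero]
        | smul t u _ hu => rw [real_inner_smul_left, hu, mul_zero]
      have h3 := hL.good.irr k (by omega) (Submodule.span ℝ {v k})
        (by rw [Submodule.span_singleton_le_iff_mem]; exact hU)
        (up_fix_of G hJ hi (by
          intro l hl z hz
          rw [Submodule.mem_span_singleton] at hz ⊢
          obtain ⟨t, rfl⟩ := hz
          rcases Nat.eq_or_lt_of_le hl with h4 | h4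
          · refine ⟨-t, ?_⟩
            rw [← h4, map_smul, hT]
            module
          · refine ⟨t, ?_⟩
            rw [map_smul]
            congr 1
            exact (hvV k (by omega) _ (Hi_eq G hJ (by omega) (G.ρ_mem_up h4))).symm))
      rcases h3 with h3 | h3
      · have h4 : v k = 0 := by
          have : v k ∈ Submodule.span ℝ {v k} := Submodule.mem_span_singleton_self _
          rw [h3, Submodule.mem_bot] at this
          exact this
        have := hn k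
        rw [h4, norm_zero] at this
        norm_num at this
      · have h4 := finU hL hJ hd (i := k) (by omega)
        have h5 := finrank_span_singleton (K := ℝ) (v := v k) (by
          intro h4
          have := hn k
          rw [h4, norm_zero] at this
          norm_num at this)
        rw [h3] at h5
        omega
    · -- `ρ_(d-2)` and `ρ_(d-1)` would commute
      have hkd : k + 1 = d - 1 := by omega
      have hJk := hJ k hi
      have hJd := hJ (d - 1) (by omega)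
      have hrU : ∀ z ∈ G.V (k + 1), ⟪r, z⟫ = 0 := by rw [hkd]; exact hL.perp
      have h4 := finU hL hJ hd (i := k + 1) (by omega)
      have h5 : Module.finrank ℝ (G.U (k + 1)) = 1 := by omega
      have hrU' : r ∈ G.U (k + 1) := by
        rw [Geo.U, Submodule.mem_orthogonal]
        intro z hz
        rw [real_inner_comm]
        exact hrU z hz
      have hTU : G.T (G.ρ k) r ∈ G.U (k + 1) := by
        refine G.map_mem_U _ ?_ hrU'
        intro z hz
        rw [h2.V] at hz ⊢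
        induction hz using Submodule.span_induction with
        | mem e he =>
          obtain ⟨l, hl, rfl⟩ := he
          rcases Nat.lt_succ_iff_lt_or_eq.1 hl with hl' | hl'
          · rw [hfix l hl']
            exact Submodule.subset_span ⟨l, hl, rfl⟩
          · rw [hl', hT]
            exact Submodule.neg_mem _ (Submodule.subset_span ⟨k, by simp, rfl⟩)
        | zero => rw [map_zero]; exact Submodule.zero_mem _
        | add u v _ _ hu hv => rw [map_add]; exact Submodule.add_mem _ hu hv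
        | smul t u _ hu => rw [map_smul]; exact Submodule.smul_mem _ _ hu
      have hr0 : (⟨r, hrU'⟩ : G.U (k + 1)) ≠ 0 := by
        intro h6
        have h7 : r = 0 := congrArg Subtype.val h6
        have := hL.norm
        rw [h7, norm_zero] at this
        norm_num at this
      obtain ⟨c, hc⟩ := (finrank_eq_one_iff_of_nonzero' _ hr0).1 h5 ⟨_, hTU⟩
      have hc' : c • r = G.T (G.ρ k) r := congrArg Subtype.val hc
      have hTr : G.T (G.ρ k) r = r ∨ G.T (G.ρ k) r = -r := by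
        rcases C.fr _ hr _ (C.cl _ hJk _ hr) with h6 | h6 | h6
        · exfalso
          rw [← hc', inner_smul_right, real_inner_self_eq_norm_sq, hL.norm] at h6
          have h7 : c = 0 := by linarith
          rw [h7, zero_smul] at hc'
          have h8 : ‖G.T (G.ρ k) r‖ = 1 := by rw [LinearIsometryEquiv.norm_map, hL.norm]
          rw [← hc', norm_zero] at h8
          norm_num at h8
        · exact Or.inl h6.symm
        · exact Or.inr (neg_eq_iff_eq_neg.1 h6.symm)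
      apply hch.not_comm k (by omega)
      rw [hkd]
      apply G.T_inj (mul_mem hJk hJd) (mul_mem hJd hJk)
      ext1 z
      rw [G.T_mul_apply hJk hJd, G.T_mul_apply hJd hJk, hL.refl, hL.refl, map_sref]
      rcases hTr with h6 | h6
      · rw [h6]
      · rw [h6, sref_neg]

/-- all the spaces `V_i` -/
theorem spn_all {r : E d} (hL : Last G r) (hJ : ∀ j, 1 ≤ j → G.ρ j ∈ G.H) (hd : 6 ≤ d)
    (C : Ctx G (G.orb r)) (hr : r ∈ G.orb r) {a w : E d} (ha : a ∈ G.orb r) (hw : w ∈ G.orb r)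
    {c b : ℝ} (hx : G.x = c • a) (hb : b ≠ 0) (hy : G.f (G.ρ 0 • G.x0) = b • w)
    (haw : ⟪a, w⟫ = 0) :
    ∀ i, 1 ≤ i → i + 2 ≤ d → Spn G (vs G a w) i ∧ Spn G (vs G a w) (i + 1) := by
  set v := vs G a w with hv
  have hm : ∀ k, v k ∈ G.orb r := vs_mem G C hJ ha hw
  have hn : ∀ k, ‖v k‖ = 1 := fun k => C.rs.norm _ (hm k)
  have hch := hL.good.chain
  have hc : c ≠ 0 := by
    rintro rfl
    exact hch.x_ne (by rw [hx, zero_smul])
  have ha1 : a ∈ G.V 1 := by
    have : a = c⁻¹ • G.x := by rw [hx, smul_smul, inv_mul_cancel₀ hc, one_smul]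
    rw [this]
    exact Submodule.smul_mem _ _ G.x_mem_V1
  have hw2 : w ∈ G.V 2 := by
    have : w = b⁻¹ • G.f (G.ρ 0 • G.x0) := by
      rw [hy, smul_smul, inv_mul_cancel₀ hb, one_smul]
    rw [this]
    exact Submodule.smul_mem _ _ (hch.mem_V 1 _ (G.ρ_mem_dn (by norm_num)))
  have s1 : Spn G v 1 := by
    apply spn_of G hn
    · intro k l hk hl hkl
      omega
    · intro k hk
      have : k = 0 := by omega
      subst this
      exact ha1
    · exact finV hL hJ hd (by omega)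
  have s2 : Spn G v 2 := by
    apply spn_of G hn
    · apply orth_succ s1.orth
      intro k hk
      have : k = 0 := by omega
      subst this
      exact haw
    · intro k hk
      have : k = 0 ∨ k = 1 := by omega
      rcases this with rfl | rfl
      · exact G.V_mono (by norm_num) ha1
      · exact hw2
    · exact finV hL hJ hd (by omega)
  intro i hi
  induction i, hi using Nat.le_induction with
  | base => exact fun _ => ⟨s1, s2⟩
  | succ i hi ih =>
    intro hid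
    obtain ⟨h1, h2⟩ := ih (by omega)
    refine ⟨h2, ?_⟩
    apply spn_of G hn
    · exact orth_succ h2.orth (next hL hJ hd C hr ha hw hi (by omega) h1 h2)
    · intro k hk
      rcases Nat.lt_succ_iff_lt_or_eq.1 hk with hk | hk
      · apply G.V_mono (Nat.le_succ (i + 1))
        rw [h2.V]
        exact Submodule.subset_span ⟨k, hk, rfl⟩
      · rw [hk]
        have e1 : v (i + 1) = G.T (G.ρ i) (v i) := by
          obtain ⟨j, rfl⟩ : ∃ j, i = j + 1 := ⟨i - 1, by omega⟩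
          rfl
        rw [e1]
        apply T_ρ_V2 hJ hi
        apply G.V_mono (Nat.le_succ (i + 1))
        rw [h2.V]
        exact Submodule.subset_span ⟨i, by simp, rfl⟩
    · exact finV hL hJ hd (by omega)

theorem orth_all {r : E d} (hL : Last G r) (hJ : ∀ j, 1 ≤ j → G.ρ j ∈ G.H) (hd : 6 ≤ d)
    (C : Ctx G (G.orb r)) (hr : r ∈ G.orb r) {a w : E d} (ha : a ∈ G.orb r) (hw : w ∈ G.orb r)
    {c b : ℝ} (hx : G.x = c • a) (hb : b ≠ 0) (hy : G.f (G.ρ 0 • G.x0) = b • w)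
    (haw : ⟪a, w⟫ = 0) :
    ∀ k l, k < d → l < d → k ≠ l → ⟪vs G a w k, vs G a w l⟫ = 0 := by
  obtain ⟨h1, h2⟩ := spn_all hL hJ hd C hr ha hw hx hb hy haw (d - 2) (by omega) (by omega)
  have h3 := next hL hJ hd C hr ha hw (by omega) (by omega) h1 h2
  have h4 := orth_succ h2.orth h3
  have e : d - 2 + 1 + 1 = d := by omega
  rw [e] at h4
  exact h4

/-- the sign `ε j` -/
theorem eps {r : E d} (hJ : ∀ j, 1 ≤ j → G.ρ j ∈ G.H) (hch : Chain G)
    (C : Ctx G (G.orb r)) {a w : E d} (ha : a ∈ G.orb r) (hw : w ∈ G.orb r)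
    {j : ℕ} (hj : 1 ≤ j) (hjd : j + 3 ≤ d) (h2 : Spn G (vs G a w) (j + 2))
    (ho : ∀ k l, k < d → l < d → k ≠ l → ⟪vs G a w k, vs G a w l⟫ = 0) :
    ∃ ε : ℤˣ, ∀ k, j + 2 ≤ k → G.T (G.ρ j) (vs G a w k) = sg ε • vs G a w k := by
  set v := vs G a w with hv
  have hm : ∀ k, v k ∈ G.orb r := vs_mem G C hJ ha hw
  obtain ⟨h, hh, e1, -⟩ := C.rf _ (hm (j + 2))
  have hV : h ∈ G.Hi (j + 2) := by
    apply hch.Hi_of_fix (j + 1) h hh
    intro z hz
    rw [h2.V] at hz
    rw [e1]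
    apply sref_eq_self
    induction hz using Submodule.span_induction with
    | mem e he =>
      obtain ⟨l, hl, rfl⟩ := he
      have hl' : l < j + 2 := hl
      exact ho (j + 2) l (by omega) (by omega) (by omega)
    | zero => exact inner_zero_right _
    | add u v _ _ hu hv => rw [inner_add_right, hu, hv, add_zero]
    | smul t u _ hu => rw [inner_smul_right, hu, mul_zero]
  have hcm := G.comm_up (i := j) le_rfl hV.2
  have hcT : ∀ z, G.T (G.ρ j) (sref (v (j + 2)) z) = sref (v (j + 2)) (G.T (G.ρ j) z) := by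
    intro z
    rw [← e1, ← e1, ← G.T_mul_apply (hJ j hj) hh, hcm, G.T_mul_apply hh (hJ j hj)]
  have h3 : ∃ ε : ℤˣ, G.T (G.ρ j) (v (j + 2)) = sg ε • v (j + 2) := by
    rcases comm_sref G C (hJ j hj) (hm (j + 2)) hcT with h | h
    · exact ⟨1, by rw [h]; simp [sg]⟩
    · exact ⟨-1, by rw [h]; simp [sg]⟩
  obtain ⟨ε, hε⟩ := h3
  refine ⟨ε, ?_⟩
  intro k hk
  induction k, hk using Nat.le_induction with
  | base => exact hε
  | succ k hk ih =>
    have e2 : v (k + 1) = G.T (G.ρ k) (v k) := by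
      obtain ⟨i, rfl⟩ : ∃ i, k = i + 1 := ⟨k - 1, by omega⟩
      rfl
    have h4 := G.comm j k hk
    rw [e2, ← G.T_mul_apply (hJ j hj) (hJ k (by omega)), h4,
      G.T_mul_apply (hJ k (by omega)) (hJ j hj), ih, map_smul]

/-- the correspondence `T_h a ↦ T_(ρ_0 h ρ_0) w` is well defined, with signs -/
theorem corr {Φ : Set (E d)} (C : Ctx G Φ) {a w : E d} (ha : a ∈ Φ) (hw : w ∈ Φ)
    {c b : ℝ} (hc : c ≠ 0) (hx : G.x = c • a) (hb : b ≠ 0) (hy : G.f (G.ρ 0 • G.x0) = b • w)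
    {h0 : Γ} (hh0 : h0 ∈ G.H) (e0 : ∀ v, G.T h0 v = sref a v)
    (ew : ∀ v, G.T (G.ρ 0 * h0 * G.ρ 0) v = sref w v) {g : Γ} (hg : g ∈ G.H) :
    (G.T g a = a ↔ G.T (G.ρ 0 * g * G.ρ 0) w = w) ∧
      (G.T g a = -a ↔ G.T (G.ρ 0 * g * G.ρ 0) w = -w) := by
  have na := C.rs.norm a ha
  have nw := C.rs.norm w hw
  have key : ∀ {g : Γ}, g ∈ G.H → (G.T g a = a ↔ G.T (G.ρ 0 * g * G.ρ 0) w = w) := by
    intro g hg
    have h1 := fix_xy G hg
    rw [hx, hy, map_smul, map_smul] at h1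
    constructor
    · intro h2
      have := h1.1 (by rw [h2])
      exact smul_right_injective _ hb this
    · intro h2
      have := h1.2 (by rw [h2])
      exact smul_right_injective _ hc this
  refine ⟨key hg, ?_⟩
  have h2 := key (mul_mem hh0 hg)
  rw [G.T_mul_apply hh0 hg, cj_mul, G.T_mul_apply (cj_mem G hh0) (cj_mem G hg), e0, ew] at h2
  constructor
  · intro h3
    rw [h3, sref_neg_right, sref_self na, neg_neg] at h2
    have h4 := h2.1 rfl
    have h5 := congrArg (sref w) h4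
    rw [sref_sref nw, sref_self nw] at h5
    exact h5
  · intro h3
    rw [h3, sref_neg_right, sref_self nw, neg_neg] at h2
    have h4 := h2.2 rfl
    have h5 := congrArg (sref a) h4
    rw [sref_sref na, sref_self na] at h5
    exact h5

/-- conjugation by `ρ_0` is realised by an isometry -/
theorem exM {Φ : Set (E d)} (C : Ctx G Φ) (u : OrthonormalBasis (Fin d) ℝ (E d))
    (mono : ∀ h ∈ G.H, ∀ k, ∃ l, G.T h (u k) = u l ∨ G.T h (u k) = -u l)
    (trans : ∀ k l, ∃ h ∈ G.H, G.T h (u k) = u l) {a w : E d} (ha : a ∈ Φ) (hw : w ∈ Φ)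
    {c b : ℝ} (hc : c ≠ 0) (hx : G.x = c • a) (hb : b ≠ 0) (hy : G.f (G.ρ 0 • G.x0) = b • w)
    {h0 : Γ} (hh0 : h0 ∈ G.H) (e0 : ∀ v, G.T h0 v = sref a v)
    (ew : ∀ v, G.T (G.ρ 0 * h0 * G.ρ 0) v = sref w v) (k0 : Fin d) (hk0 : u k0 = a) :
    ∃ M : E d ≃ₗᵢ[ℝ] E d, M a = w ∧
      ∀ h ∈ G.H, ∀ v, M (G.T h v) = G.T (G.ρ 0 * h * G.ρ 0) (M v) := by
  have hcorr := fun {g : Γ} (hg : g ∈ G.H) => corr C ha hw hc hx hb hy hh0 e0 ew hg
  choose hk hkH hke using fun k => trans k0 k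
  rw [hk0] at hke
  set m : Fin d → E d := fun k => G.T (G.ρ 0 * hk k * G.ρ 0) w with hm
  have hmΦ : ∀ k, m k ∈ Φ := fun k => C.cl _ (cj_mem G (hkH k)) _ hw
  -- the main computation
  have main : ∀ h ∈ G.H, ∀ l, (G.T h a = u l → G.T (G.ρ 0 * h * G.ρ 0) w = m l) ∧
      (G.T h a = -u l → G.T (G.ρ 0 * h * G.ρ 0) w = -m l) := by
    intro h hh l
    have hg : (hk l)⁻¹ * h ∈ G.H := mul_mem (inv_mem (hkH l)) hh
    have h1 := hcorr hg
    have e1 : G.T ((hk l)⁻¹ * h) a = G.T (hk l)⁻¹ (G.T h a) :=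
      G.T_mul_apply (inv_mem (hkH l)) hh a
    have e2 : G.T (G.ρ 0 * ((hk l)⁻¹ * h) * G.ρ 0) w =
        G.T (G.ρ 0 * hk l * G.ρ 0)⁻¹ (G.T (G.ρ 0 * h * G.ρ 0) w) := by
      rw [cj_mul, ← cj_inv, G.T_mul_apply (inv_mem (cj_mem G (hkH l))) (cj_mem G hh)]
    have e3 : G.T (hk l)⁻¹ (u l) = a := by rw [← hke l, G.T_inv_apply' (hkH l)]
    constructor
    · intro h2
      have h3 : G.T ((hk l)⁻¹ * h) a = a := by rw [e1, h2, e3]
      have h4 := h1.1.1 h3
      rw [e2] at h4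
      have h5 := congrArg (G.T (G.ρ 0 * hk l * G.ρ 0)) h4
      rw [G.T_inv_apply (cj_mem G (hkH l))] at h5
      exact h5
    · intro h2
      have h3 : G.T ((hk l)⁻¹ * h) a = -a := by rw [e1, h2, map_neg, e3]
      have h4 := h1.2.1 h3
      rw [e2] at h4
      have h5 := congrArg (G.T (G.ρ 0 * hk l * G.ρ 0)) h4
      rw [G.T_inv_apply (cj_mem G (hkH l)), map_neg] at h5
      exact h5
  -- `m` is injective up to sign
  have hmm : ∀ k l, k ≠ l → ⟪m k, m l⟫ = 0 := by
    intro k l hkl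
    have hg : (hk l)⁻¹ * hk k ∈ G.H := mul_mem (inv_mem (hkH l)) (hkH k)
    have h1 := hcorr hg
    have e1 : G.T ((hk l)⁻¹ * hk k) a = G.T (hk l)⁻¹ (u k) := by
      rw [G.T_mul_apply (inv_mem (hkH l)) (hkH k), hke k]
    have e2 : G.T (G.ρ 0 * ((hk l)⁻¹ * hk k) * G.ρ 0) w =
        G.T (G.ρ 0 * hk l * G.ρ 0)⁻¹ (m k) := by
      rw [cj_mul, ← cj_inv, G.T_mul_apply (inv_mem (cj_mem G (hkH l))) (cj_mem G (hkH k))]
    have e3 : G.T (G.ρ 0 * hk l * G.ρ 0)⁻¹ (m l) = w := G.T_inv_apply' (cj_mem G (hkH l)) w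
    have hul : ⟪u k, u l⟫ = 0 := u.orthonormal.2 hkl
    have nl : ⟪u l, u l⟫ = (1 : ℝ) := by rw [real_inner_self_eq_norm_sq, u.norm_eq_one]; norm_num
    rcases C.fr _ (hmΦ k) _ (hmΦ l) with h | h | h
    · exact h
    · exfalso
      have h2 := h1.1.2 (by rw [e2, h, e3])
      rw [e1] at h2
      have h3 := congrArg (G.T (hk l)) h2
      rw [G.T_inv_apply (hkH l), hke l] at h3
      rw [h3, nl] at hul
      norm_num at hul
    · exfalso
      have h2 := h1.2.2 (by rw [e2, h, map_neg, e3])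
      rw [e1] at h2
      have h3 := congrArg (G.T (hk l)) h2
      rw [G.T_inv_apply (hkH l), map_neg, hke l] at h3
      rw [h3, inner_neg_left, nl] at hul
      norm_num at hul
  have hmo : Orthonormal ℝ m := ⟨fun k => C.rs.norm _ (hmΦ k), fun k l hkl => hmm k l hkl⟩
  have hmo' : Orthonormal ℝ ((Set.univ : Set (Fin d)).domRestrict m) := by
    refine ⟨fun k => hmo.1 k, fun k l hkl => hmo.2 (fun h => hkl (Subtype.ext h))⟩
  obtain ⟨m', hm'⟩ := hmo'.exists_orthonormalBasis_extension_of_card_eq (by simp)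
  have hmk : ∀ k, u.equiv m' (Equiv.refl _) (u k) = m k := by
    intro k
    rw [OrthonormalBasis.equiv_apply_basis]
    exact hm' k trivial
  refine ⟨u.equiv m' (Equiv.refl _), ?_, ?_⟩
  · have h1 := (main 1 (one_mem _) k0).1 (by rw [G.T_one, hk0]; rfl)
    rw [cj_one, G.T_one] at h1
    rw [← hk0, hmk]
    exact h1.symm
  · intro h hh v
    set M := u.equiv m' (Equiv.refl _) with hM
    have h1 : ∀ k, M (G.T h (u k)) = G.T (G.ρ 0 * h * G.ρ 0) (M (u k)) := by
      intro k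
      have e4 : G.T (h * hk k) a = G.T h (u k) := by rw [G.T_mul_apply hh (hkH k), hke k]
      have e5 : G.T (G.ρ 0 * (h * hk k) * G.ρ 0) w = G.T (G.ρ 0 * h * G.ρ 0) (m k) := by
        rw [cj_mul, G.T_mul_apply (cj_mem G hh) (cj_mem G (hkH k))]
      obtain ⟨l, hl | hl⟩ := mono h hh k
      · rw [hl, hmk, hmk, ← e5]
        exact ((main _ (mul_mem hh (hkH k)) l).1 (by rw [e4, hl])).symm
      · rw [hl, map_neg, hmk, hmk, ← e5]
        exact ((main _ (mul_mem hh (hkH k)) l).2 (by rw [e4, hl])).symm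
    have h2 : (M.toLinearEquiv : E d →ₗ[ℝ] E d) ∘ₗ ((G.T h).toLinearEquiv : E d →ₗ[ℝ] E d) =
        ((G.T (G.ρ 0 * h * G.ρ 0)).toLinearEquiv : E d →ₗ[ℝ] E d) ∘ₗ
          (M.toLinearEquiv : E d →ₗ[ℝ] E d) := by
      apply u.toBasis.ext
      intro k
      rw [OrthonormalBasis.coe_toBasis]
      exact h1 k
    exact LinearMap.congr_fun h2 v

end FR2

open FR2 in
theorem fr2 (h : StmtOrb) : StmtFr2 := by
  intro d Γ _ _ X _ G r hd hL hfr hJ hax
  obtain ⟨a, ha, c, hx⟩ := hax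
  have hch := hL.good.chain
  have hJd := hJ (d - 1) (by omega)
  obtain ⟨rs, hr, cl, tr, cj, rfx, -⟩ := h d Γ X G (G.ρ (d - 1)) 1 r hJd (Or.inl rfl) hL.norm
    (fun v => by rw [hL.refl, one_smul])
  have C : Ctx G (G.orb r) := by
    refine ⟨rs, hfr, cl, tr, ?_⟩
    intro b hb
    obtain ⟨k, hk, e⟩ := rfx b hb
    refine ⟨k * G.ρ (d - 1) * k⁻¹, mul_mem (mul_mem hk hJd) (inv_mem hk), ?_,
      G.T (G.ρ 0 * k * G.ρ 0) r, cl _ (cj_mem G hk) _ hr, ?_⟩
    · intro v
      rw [cj k hk, one_smul, e]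
    · intro v
      have e1 : G.ρ 0 * G.ρ (d - 1) * G.ρ 0 = G.ρ (d - 1) := by
        rw [G.comm 0 (d - 1) (by omega), mul_assoc, G.sq, mul_one]
      rw [cj_mul, cj_mul, e1, ← cj_inv, cj _ (cj_mem G hk), one_smul]
  obtain ⟨w, hw, b, hb, hy, haw, h0, hh0, e0, ew⟩ := second G C hch hL.span ha hx
  have hc : c ≠ 0 := by
    rintro rfl
    exact hch.x_ne (by rw [hx, zero_smul])
  set v := vs G a w with hv
  have hm : ∀ k, v k ∈ G.orb r := vs_mem G C hJ ha hw
  have ho := orth_all hL hJ hd C hr ha hw hx hb hy haw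
  have hspn := spn_all hL hJ hd C hr ha hw hx hb hy haw
  have hvo : Orthonormal ℝ ((Set.univ : Set (Fin d)).domRestrict (fun k : Fin d => v k)) := by
    refine ⟨fun k => rs.norm _ (hm k.1), fun k l hkl => ho _ _ k.1.2 l.1.2 ?_⟩
    intro h
    exact hkl (Subtype.ext (Fin.ext h))
  obtain ⟨u, hu'⟩ := hvo.exists_orthonormalBasis_extension_of_card_eq (by simp)
  have hu : ∀ k : Fin d, u k = v k := fun k => hu' k trivial
  have huΦ : ∀ k, u k ∈ G.orb r := fun k => by rw [hu]; exact hm k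
  have nu : ∀ k, ‖u k‖ = 1 := fun k => rs.norm _ (huΦ k)
  have hall : ∀ e ∈ G.orb r, ∃ l, e = u l ∨ e = -u l := by
    intro e he
    by_contra hcon
    push Not at hcon
    have h1 : ∀ l, ⟪u l, e⟫ = 0 := by
      intro l
      rcases hfr e he _ (huΦ l) with h | h | h
      · rw [real_inner_comm]; exact h
      · exact absurd h (hcon l).1
      · exact absurd h (hcon l).2
    have h2 := u.sum_repr' e
    have h3 : e = 0 := by
      rw [← h2]
      apply Finset.sum_eq_zero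
      intro l _
      rw [h1 l, zero_smul]
    have h4 := rs.norm e he
    rw [h3, norm_zero] at h4
    norm_num at h4
  have mono : ∀ h ∈ G.H, ∀ k, ∃ l, G.T h (u k) = u l ∨ G.T h (u k) = -u l :=
    fun h hh k => hall _ (cl h hh _ (huΦ k))
  have trans : ∀ k l, ∃ h ∈ G.H, G.T h (u k) = u l := by
    intro k l
    obtain ⟨h, hh, e | e⟩ := tr _ (huΦ k) _ (huΦ l)
    · exact ⟨h, hh, e⟩
    · obtain ⟨s, hs, es, -⟩ := C.rf _ (huΦ l)
      refine ⟨s * h, mul_mem hs hh, ?_⟩
      rw [G.T_mul_apply hs hh, e, es, sref_neg_right, sref_self (nu l), neg_neg]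
  have hVs : ∀ i, i + 1 ≤ d → G.V i = Submodule.span ℝ (u '' {k | k.val < i}) := by
    intro i hi
    rcases Nat.eq_zero_or_pos i with rfl | hpos
    · have h1 := finV hL hJ hd (i := 0) (by omega)
      rw [Submodule.finrank_eq_zero] at h1
      rw [h1]
      simp
    · have h1 : Spn G v i := by
        rcases Nat.lt_or_ge (i + 1) d with h | h
        · exact (hspn i hpos (by omega)).1
        · have := (hspn (i - 1) (by omega) (by omega)).2
          have e : i - 1 + 1 = i := by omega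
          rwa [e] at this
      rw [h1.V]
      congr 1
      ext z
      constructor
      · rintro ⟨k, hk, rfl⟩
        have hk' : k < i := hk
        exact ⟨⟨k, by omega⟩, hk, hu _⟩
      · rintro ⟨k, hk, rfl⟩
        exact ⟨k, hk, (hu k).symm⟩
  have huV : ∀ (i : ℕ) (k : Fin d), i + 1 ≤ d → k.val < i → u k ∈ G.V i := by
    intro i k hi hk
    rw [hVs i hi]
    exact Submodule.subset_span ⟨k, hk, rfl⟩
  have huU : ∀ (i : ℕ) (k : Fin d), i + 1 ≤ d → i ≤ k.val → u k ∈ G.U i := by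
    intro i k hi hk
    rw [Geo.U, Submodule.mem_orthogonal, hVs i hi]
    intro z hz
    induction hz using Submodule.span_induction with
    | mem e he =>
      obtain ⟨l, hl, rfl⟩ := he
      have hl' : l.val < i := hl
      exact u.orthonormal.2 (fun h => by rw [h] at hl'; omega)
    | zero => exact inner_zero_left _
    | add u v _ _ hu hv => rw [inner_add_left, hu, hv, add_zero]
    | smul t u _ hu => rw [real_inner_smul_left, hu, mul_zero]
  have hstep : ∀ j : ℕ, 1 ≤ j → v (j + 1) = G.T (G.ρ j) (v j) := by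
    intro j hj
    obtain ⟨i, rfl⟩ : ∃ i, j = i + 1 := ⟨j - 1, by omega⟩
    rfl
  have heps : ∀ j : ℕ, ∃ ε : ℤˣ, 1 ≤ j → j + 3 ≤ d → ∀ k, j + 2 ≤ k →
      G.T (G.ρ j) (v k) = sg ε • v k := by
    intro j
    by_cases hj : 1 ≤ j ∧ j + 3 ≤ d
    · obtain ⟨ε, hε⟩ := eps hJ hch C ha hw hj.1 hj.2 (hspn (j + 1) (by omega) (by omega)).2 ho
      exact ⟨ε, fun _ _ => hε⟩
    · exact ⟨1, fun h1 h2 => absurd ⟨h1, h2⟩ hj⟩
  choose ε hε using heps
  have hk0 : u ⟨0, by omega⟩ = a := hu _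
  have hk1 : u ⟨1, by omega⟩ = w := hu _
  obtain ⟨M, hMa, hMc⟩ := exM C u mono trans ha hw hc hx hb hy hh0 e0 ew ⟨0, by omega⟩ hk0
  have hM2 : ∀ m ∈ G.Hi 2, ∀ z, M (G.T m z) = G.T m (M z) := by
    intro m hm2 z
    rw [hMc m hm2.1, G.comm_up (i := 0) le_rfl hm2.2, mul_assoc, G.sq, mul_one]
  have hMV : ∀ z ∈ G.V 2, M z ∈ G.V 2 := fun z hz =>
    G.map_mem_V M (fun m hm2 => ⟨m, hm2, fun z => (hM2 m hm2 z).symm⟩) hz
  have hη : ∃ η : ℤˣ, ∀ z ∈ G.U 2, M z = sg η • z := by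
    rcases hL.good.scal 2 (by omega) M (fun z hz => G.map_mem_U M hMV hz)
      (fun g hg z _ => hM2 g hg z) with h1 | h1
    · exact ⟨1, fun z hz => by rw [h1 z hz]; simp [sg]⟩
    · exact ⟨-1, fun z hz => by rw [h1 z hz]; simp [sg]⟩
  obtain ⟨η, hη⟩ := hη
  have hU0 : G.U 0 = ⊤ := by
    have h1 := finV hL hJ hd (i := 0) (by omega)
    rw [Submodule.finrank_eq_zero] at h1
    rw [Geo.U, h1, Submodule.bot_orthogonal_eq_top]
  have hsgη : sg η * sg η = 1 := by
    rcases Int.units_eq_one_or η with h1 | h1 <;> simp [h1, sg]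
  have hMM : ∀ z, M (M z) = z := by
    have h1 := hL.good.scal 0 (by omega) (M.trans M) (fun z _ => by rw [hU0]; trivial)
      (fun g hg z _ => by
        change M (M (G.T g z)) = G.T g (M (M z))
        rw [hMc g hg.1, hMc _ (cj_mem G hg.1), cj_cj])
    rw [hU0] at h1
    rcases h1 with h1 | h1
    · exact fun z => h1 z trivial
    · exfalso
      have h2 := h1 (u ⟨2, by omega⟩) trivial
      change M (M (u ⟨2, by omega⟩)) = _ at h2
      have h3 := huU 2 ⟨2, by omega⟩ (by omega) le_rfl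
      rw [hη _ h3, map_smul, hη _ h3, smul_smul, hsgη, one_smul] at h2
      exact ne_neg (nu _) h2
  refine ⟨u, c, b, η, ε, ?_⟩
  refine
    { a_ne := hc
      b_ne := hb
      fx := fun _ => by rw [hx, ← hk0]
      fy := fun _ => by rw [hy, ← hk1]
      frame := ?_
      mono := mono
      trans := trans
      V := hVs
      mid := ?_
      last := ?_
      conj := ⟨M, ?_, hMc⟩ }
  · intro k
    refine ⟨⟨1, one_mem _, Or.inl ?_⟩, ?_⟩
    · rw [G.T_one]; rfl
    · obtain ⟨s, hs, es, -⟩ := C.rf _ (huΦ k)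
      exact ⟨s, hs, es⟩
  · intro j hjd hj k
    split_ifs with hk
    · rcases Nat.lt_or_ge k.val j with h1 | h1
      · rw [Equiv.swap_apply_of_ne_of_ne (by rw [Ne, Fin.ext_iff]; dsimp only; omega)
          (by rw [Ne, Fin.ext_iff]; dsimp only; omega)]
        exact T_ρ_V hJ hj (huV j k (by omega) h1)
      · rcases Nat.eq_or_lt_of_le h1 with h2 | h2
        · have e1 : k = ⟨j, by omega⟩ := Fin.ext h2.symm
          rw [e1, Equiv.swap_apply_left, hu, hu]
          exact (hstep j hj).symm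
        · have e1 : k = ⟨j + 1, hjd⟩ := Fin.ext (by dsimp only; omega)
          rw [e1, Equiv.swap_apply_right, hu, hu]
          change G.T (G.ρ j) (v (j + 1)) = v j
          rw [hstep j hj, ← G.T_mul_apply (hJ j hj) (hJ j hj), G.sq, G.T_one]
          rfl
    · have h1 : j + 2 ≤ k.val := by omega
      have h2 := k.2
      rw [hu]
      exact hε j hj (by omega) _ h1
  · intro j hj hjd z
    have e1 : j = d - 1 := by omega
    subst e1
    obtain ⟨l, hl⟩ := hall r hr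
    have h1 : l = ⟨d - 1, hj⟩ := by
      by_contra hne
      have h2 : l.val < d - 1 := by
        have := l.2
        have h3 : l.val ≠ d - 1 := fun h => hne (Fin.ext h)
        omega
      have h3 := hL.perp _ (huV (d - 1) l (by omega) h2)
      rcases hl with hl | hl
      · rw [← hl, real_inner_self_eq_norm_sq, hL.norm] at h3
        norm_num at h3
      · have h4 : u l = -r := by rw [hl, neg_neg]
        rw [h4, inner_neg_right, real_inner_self_eq_norm_sq, hL.norm] at h3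
        norm_num at h3
    subst h1
    rw [hL.refl]
    rcases hl with hl | hl
    · rw [hl]
    · rw [hl, sref_neg]
  · intro k _
    split_ifs with hk
    · have h1 : k.val = 0 ∨ k.val = 1 := by omega
      rcases h1 with h1 | h1
      · have e1 : k = ⟨0, by omega⟩ := Fin.ext h1
        rw [e1, Equiv.swap_apply_left, hk0, hk1]
        exact hMa
      · have e1 : k = ⟨1, by omega⟩ := Fin.ext h1
        rw [e1, Equiv.swap_apply_right, hk0, hk1, ← hMa, hMM]
    · exact hη _ (huU 2 k (by omega) (by omega))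

end FO2
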