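import Pool.Agent.FO2.Stmts

/-!
# The frame case, part 3: the signs
-/

namespace FO2

open Lib_helper64.FO
open scoped RealInnerProductSpace

noncomputable section

namespace FR3

variable {d : ℕ} {Γ : Type} [Group Γ] {X : Type} [MulAction Γ X]

/-! ### `η = 1` -/

theorem swap_zero {j : ℕ} (hj : 1 ≤ j) (h : j + 1 < d) (k : Fin d) :
    (Equiv.swap (⟨j, by omega⟩ : Fin d) ⟨j + 1, h⟩ k).val = 0 ↔ k.val = 0 := by
  by_cases h1 : k = ⟨j, by omega⟩
  · subst h1
    rw [Equiv.swap_apply_left]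
    constructor
    · intro e; simp at e
    · intro e; simp only at e; omega
  · by_cases h2 : k = ⟨j + 1, h⟩
    · subst h2
      rw [Equiv.swap_apply_right]
      constructor
      · intro e; simp only at e; omega
      · intro e; simp at e
    · rw [Equiv.swap_apply_of_ne_of_ne h1 h2]

theorem flip (G : Geo d Γ X) (hd : 6 ≤ d) (u : OrthonormalBasis (Fin d) ℝ (E d)) (a b : ℝ)
    (ε : ℕ → ℤˣ) (hF : FrData G u a b (-1) ε) :
    ∃ (u' : OrthonormalBasis (Fin d) ℝ (E d)) (a' : ℝ), FrData G u' a' b 1 ε := by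
  obtain ⟨h0, hh0, e0⟩ := (hF.frame ⟨0, by omega⟩).2
  obtain ⟨u', hu'⟩ : ∃ u' : OrthonormalBasis (Fin d) ℝ (E d), u' = u.map (G.T h0) := ⟨_, rfl⟩
  have hval : ∀ k, u' k = sref (u ⟨0, by omega⟩) (u k) := by
    intro k
    rw [hu', OrthonormalBasis.map_apply, e0]
  have hz : ∀ k : Fin d, k.val = 0 → u' k = -u k := by
    intro k hk
    have : k = ⟨0, by omega⟩ := Fin.ext hk
    rw [hval, this, sref_self (u.orthonormal.1 _)]
  have hk : ∀ k : Fin d, k.val ≠ 0 → u' k = u k := by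
    intro k hk
    have hne : (⟨0, by omega⟩ : Fin d) ≠ k := by
      intro e
      exact hk (by rw [← e])
    rw [hval, sref, u.orthonormal.2 hne]
    simp
  have hs : ∀ k, u' k = u k ∨ u' k = -u k := by
    intro k
    by_cases h : k.val = 0
    · exact Or.inr (hz k h)
    · exact Or.inl (hk k h)
  refine ⟨u', -a, ?_⟩
  obtain ⟨M, hM, hMc⟩ := hF.conj
  refine
    { a_ne := neg_ne_zero.2 hF.a_ne
      b_ne := hF.b_ne
      fx := ?_
      fy := ?_
      frame := ?_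
      mono := ?_
      trans := ?_
      V := ?_
      mid := ?_
      last := ?_
      conj := ?_ }
  · intro h
    rw [hz ⟨0, h⟩ rfl, hF.fx h]
    simp
  · intro h
    rw [hk ⟨1, h⟩ (by simp), hF.fy h]
  · intro k
    refine ⟨⟨1, one_mem _, Or.inl (by rw [G.T_one]; rfl)⟩, ?_⟩
    obtain ⟨h, hh, e⟩ := (hF.frame k).2
    refine ⟨h, hh, fun v => ?_⟩
    rcases hs k with e1 | e1
    · rw [e1, e]
    · rw [e1, sref_neg, e]
  · intro h hh k
    obtain ⟨l, hl⟩ := hF.mono h hh k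
    refine ⟨l, ?_⟩
    rcases hs k with e1 | e1 <;> rcases hs l with e2 | e2 <;> rcases hl with e3 | e3 <;>
      rw [e1, e2] <;> simp [e3]
  · intro k l
    obtain ⟨h, hh, e⟩ := hF.trans k l
    obtain ⟨s, hs', es⟩ := (hF.frame l).2
    have e' : G.T (s * h) (u k) = -u l := by
      rw [G.T_mul_apply hs' hh, e, es, sref_self (u.orthonormal.1 _)]
    rcases hs k with e1 | e1 <;> rcases hs l with e2 | e2
    · exact ⟨h, hh, by rw [e1, e2, e]⟩
    · exact ⟨s * h, mul_mem hs' hh, by rw [e1, e2, e']⟩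
    · exact ⟨s * h, mul_mem hs' hh, by rw [e1, e2, map_neg, e', neg_neg]⟩
    · exact ⟨h, hh, by rw [e1, e2, map_neg, e]⟩
  · intro i hi
    rw [hF.V i hi]
    apply le_antisymm
    · rw [Submodule.span_le]
      rintro _ ⟨k, hk', rfl⟩
      have hm : u' k ∈ Submodule.span ℝ (u' '' {k : Fin d | k.val < i}) :=
        Submodule.subset_span ⟨k, hk', rfl⟩
      rcases hs k with e1 | e1
      · rw [SetLike.mem_coe, ← e1]
        exact hm
      · have e2 : u k = -u' k := by rw [e1, neg_neg]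
        rw [SetLike.mem_coe, e2]
        exact neg_mem hm
    · rw [Submodule.span_le]
      rintro _ ⟨k, hk', rfl⟩
      have hm : u k ∈ Submodule.span ℝ (u '' {k : Fin d | k.val < i}) :=
        Submodule.subset_span ⟨k, hk', rfl⟩
      rcases hs k with e1 | e1
      · rw [SetLike.mem_coe, e1]
        exact hm
      · rw [SetLike.mem_coe, e1]
        exact neg_mem hm
  · intro j h hj k
    have h1 := hF.mid j h hj k
    by_cases h2 : k.val < j + 2
    · rw [if_pos h2] at h1 ⊢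
      by_cases h3 : k.val = 0
      · rw [hz k h3, hz _ ((swap_zero hj h k).2 h3), map_neg, h1]
      · rw [hk k h3, hk _ (fun h4 => h3 ((swap_zero hj h k).1 h4)), h1]
    · rw [if_neg h2] at h1 ⊢
      rw [hk k (by omega), h1]
  · intro j h hj v
    rw [hF.last j h hj v, hk ⟨j, h⟩ (by simp only; omega)]
  · refine ⟨M.trans (LinearIsometryEquiv.neg ℝ), ?_, ?_⟩
    · intro k h
      have h1 := hM k h
      change -(M (u' k)) = _
      by_cases h2 : k.val < 2
      · rw [if_pos h2] at h1 ⊢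
        by_cases h3 : k.val = 0
        · have ek : k = ⟨0, by omega⟩ := Fin.ext h3
          rw [hz k h3, map_neg, h1, ek, Equiv.swap_apply_left, hk ⟨1, h⟩ (by simp), neg_neg]
        · have ek : k = ⟨1, h⟩ := Fin.ext (by simp only; omega)
          rw [hk k h3, h1, ek, Equiv.swap_apply_right, hz ⟨0, by omega⟩ rfl]
      · rw [if_neg h2] at h1 ⊢
        rw [hk k (by omega), h1]
        simp [sg]
    · intro h hh v
      change -(M (G.T h v)) = G.T _ (-(M v))
      rw [hMc h hh v, map_neg]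

/-! ### the signs `ε` -/

theorem eq_of_sg {e : ℤˣ} {v : E d} (hv : ‖v‖ = 1) (h : v = sg e • v) : e = 1 := by
  rcases Int.units_eq_one_or e with h1 | h1
  · exact h1
  · exfalso
    rw [h1] at h
    have h2 : v = -v := by
      simpa [sg] using h
    have h3 : v = 0 := by
      have : (2 : ℝ) • v = 0 := by
        rw [two_smul]
        nth_rewrite 2 [h2]
        simp
      simpa using this
    rw [h3] at hv
    simp at hv

theorem sg_sq (e : ℤˣ) : sg e * sg e = 1 := by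
  rcases Int.units_eq_one_or e with h1 | h1 <;> simp [h1, sg]

/-- the first sign -/
theorem first (G : Geo d Γ X) (hd : 6 ≤ d) (hG : Good G) (hH : ∀ j, 1 ≤ j → G.ρ j ∈ G.H)
    (u : OrthonormalBasis (Fin d) ℝ (E d)) (a b : ℝ) (ε : ℕ → ℤˣ) (hF : FrData G u a b 1 ε) :
    ε 1 = 1 := by
  obtain ⟨M, hM, hMc⟩ := hF.conj
  have hρ0 := G.sq 0
  have h1H := hH 1 le_rfl
  have h2H := hH 2 (by omega)
  -- the basis vectors
  obtain ⟨w, hw⟩ : ∃ w : ℕ → E d, ∀ (k : ℕ) (h : k < d), w k = u ⟨k, h⟩ :=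
    ⟨fun k => if h : k < d then u ⟨k, h⟩ else 0, fun k h => dif_pos h⟩
  have M0 : M (w 0) = w 1 := by
    rw [hw 0 (by omega), hw 1 (by omega), hM ⟨0, by omega⟩ (by omega), if_pos (by simp),
      Equiv.swap_apply_left]
  have M1 : M (w 1) = w 0 := by
    rw [hw 0 (by omega), hw 1 (by omega), hM ⟨1, by omega⟩ (by omega), if_pos (by simp),
      Equiv.swap_apply_right]
  have Mk : ∀ k, 2 ≤ k → k < d → M (w k) = w k := by
    intro k hk hkd
    rw [hw k hkd, hM ⟨k, hkd⟩ (by omega), if_neg (by simp only; omega)]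
    simp [sg]
  have hMM : ∀ v, M (M v) = v := by
    have : M.trans M = LinearIsometryEquiv.refl ℝ (E d) := by
      apply LinearIsometryEquiv.toLinearEquiv_injective
      apply u.toBasis.ext'
      intro k
      change M (M (u.toBasis k)) = u.toBasis k
      rw [OrthonormalBasis.coe_toBasis]
      have ek : u k = w k.val := (hw k.val k.isLt).symm
      rw [ek]
      rcases Nat.lt_or_ge k.val 2 with h | h
      · interval_cases hk : k.val
        · rw [M0, M1]
        · rw [M1, M0]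
      · rw [Mk _ h k.isLt, Mk _ h k.isLt]
    intro v
    exact congrArg (fun f : E d ≃ₗᵢ[ℝ] E d => f v) this
  have T10 : G.T (G.ρ 1) (w 0) = w 0 := by
    rw [hw 0 (by omega), hF.mid 1 (by omega) le_rfl ⟨0, by omega⟩, if_pos (by simp),
      Equiv.swap_apply_of_ne_of_ne (by simp [Fin.ext_iff]) (by simp [Fin.ext_iff])]
  have T11 : G.T (G.ρ 1) (w 1) = w 2 := by
    rw [hw 1 (by omega), hw 2 (by omega), hF.mid 1 (by omega) le_rfl ⟨1, by omega⟩,
      if_pos (by simp), Equiv.swap_apply_left]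
  have T12 : G.T (G.ρ 1) (w 2) = w 1 := by
    rw [hw 1 (by omega), hw 2 (by omega), hF.mid 1 (by omega) le_rfl ⟨2, by omega⟩,
      if_pos (by simp), Equiv.swap_apply_right]
  have T1k : ∀ k, 3 ≤ k → k < d → G.T (G.ρ 1) (w k) = sg (ε 1) • w k := by
    intro k hk hkd
    rw [hw k hkd, hF.mid 1 (by omega) le_rfl ⟨k, hkd⟩, if_neg (by simp only; omega)]
  have T2a : ∀ k, k < 2 → G.T (G.ρ 2) (w k) = w k := by
    intro k hk
    rw [hw k (by omega), hF.mid 2 (by omega) (by omega) ⟨k, by omega⟩, if_pos (by simp only; omega),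
      Equiv.swap_apply_of_ne_of_ne (by simp [Fin.ext_iff]; omega) (by simp [Fin.ext_iff]; omega)]
  have T22 : G.T (G.ρ 2) (w 2) = w 3 := by
    rw [hw 2 (by omega), hw 3 (by omega), hF.mid 2 (by omega) (by omega) ⟨2, by omega⟩,
      if_pos (by simp), Equiv.swap_apply_left]
  have T23 : G.T (G.ρ 2) (w 3) = w 2 := by
    rw [hw 2 (by omega), hw 3 (by omega), hF.mid 2 (by omega) (by omega) ⟨3, by omega⟩,
      if_pos (by simp), Equiv.swap_apply_right]
  -- the elements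
  have hq : ∀ h ∈ G.H, G.ρ 0 * h * G.ρ 0 ∈ G.H := by
    intro h hh
    have := G.conj_mem (G.ρ 0) hh
    rwa [G.inv_ρ] at this
  have Tq : ∀ h ∈ G.H, ∀ v, G.T (G.ρ 0 * h * G.ρ 0) v = M (G.T h (M v)) := by
    intro h hh v
    rw [hMc h hh (M v), hMM]
  have hyH : (G.ρ 0 * G.ρ 1 * G.ρ 0) * (G.ρ 1 * ((G.ρ 0 * (G.ρ 1 * G.ρ 2) * G.ρ 0) *
      (G.ρ 1 * ((G.ρ 0 * G.ρ 1 * G.ρ 0) * (G.ρ 1 * G.ρ 2))))) ∈ G.H :=
    mul_mem (hq _ h1H) (mul_mem h1H (mul_mem (hq _ (mul_mem h1H h2H)) (mul_mem h1H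
      (mul_mem (hq _ h1H) (mul_mem h1H h2H)))))
  have Ty : ∀ v, G.T ((G.ρ 0 * G.ρ 1 * G.ρ 0) * (G.ρ 1 * ((G.ρ 0 * (G.ρ 1 * G.ρ 2) * G.ρ 0) *
      (G.ρ 1 * ((G.ρ 0 * G.ρ 1 * G.ρ 0) * (G.ρ 1 * G.ρ 2)))))) v =
      M (G.T (G.ρ 1) (M (G.T (G.ρ 1) (M (G.T (G.ρ 1) (G.T (G.ρ 2) (M (G.T (G.ρ 1)
        (M (G.T (G.ρ 1) (M (G.T (G.ρ 1) (G.T (G.ρ 2) v))))))))))))) := by
    intro v
    rw [G.T_mul_apply (hq _ h1H) (mul_mem h1H (mul_mem (hq _ (mul_mem h1H h2H)) (mul_mem h1H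
      (mul_mem (hq _ h1H) (mul_mem h1H h2H))))),
      G.T_mul_apply h1H (mul_mem (hq _ (mul_mem h1H h2H)) (mul_mem h1H
      (mul_mem (hq _ h1H) (mul_mem h1H h2H)))),
      G.T_mul_apply (hq _ (mul_mem h1H h2H)) (mul_mem h1H
      (mul_mem (hq _ h1H) (mul_mem h1H h2H))),
      G.T_mul_apply h1H (mul_mem (hq _ h1H) (mul_mem h1H h2H)),
      G.T_mul_apply (hq _ h1H) (mul_mem h1H h2H),
      G.T_mul_apply h1H h2H,
      Tq _ h1H, Tq _ h1H, Tq _ (mul_mem h1H h2H), G.T_mul_apply h1H h2H]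
  obtain ⟨y, hy⟩ : ∃ y, y = (G.ρ 0 * G.ρ 1 * G.ρ 0) * (G.ρ 1 * ((G.ρ 0 * (G.ρ 1 * G.ρ 2) * G.ρ 0) *
      (G.ρ 1 * ((G.ρ 0 * G.ρ 1 * G.ρ 0) * (G.ρ 1 * G.ρ 2))))) := ⟨_, rfl⟩
  rw [← hy] at hyH Ty
  have Ty0 : G.T y (w 0) = w 0 := by
    rw [Ty, T2a 0 (by omega), T10, M0, T11, Mk 2 le_rfl (by omega), T12, M1, T2a 0 (by omega), T10,
      M0, T11, Mk 2 le_rfl (by omega), T12, M1]
  have Ty1 : G.T y (w 1) = w 1 := by
    rw [Ty, T2a 1 (by omega), T11, Mk 2 le_rfl (by omega), T12, M1, T10, M0, T2a 1 (by omega), T11,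
      Mk 2 le_rfl (by omega), T12, M1, T10, M0]
  have Ty2 : G.T y (w 2) = sg (ε 1) • w 2 := by
    have e3 : sg (ε 1) * sg (ε 1) = 1 := sg_sq _
    rw [Ty, T22]
    simp only [T1k 3 le_rfl (by omega), map_smul, Mk 3 (by omega) (by omega), T23, T12, M1, T10, M0,
      T11, Mk 2 le_rfl (by omega), smul_smul]
    rw [e3, one_mul]
  -- the position of `y`
  have hyup : y ∈ G.up 2 := by
    have h := hG.chain.Hi_of_fix 1 y hyH ?_
    · exact h.2
    intro v hv
    have hv' : v ∈ Submodule.span ℝ (u '' {k : Fin d | k.val < 2}) := by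
      rw [← hF.V 2 (by omega)]
      exact hv
    refine Submodule.span_induction (p := fun v _ => G.T y v = v) ?_ ?_ ?_ ?_ hv'
    · rintro _ ⟨k, hk, rfl⟩
      have ek : u k = w k.val := (hw k.val k.isLt).symm
      rw [ek]
      have hk' : k.val < 2 := hk
      interval_cases hk2 : k.val
      · exact Ty0
      · exact Ty1
    · exact map_zero _
    · intro x y _ _ hx hy
      rw [map_add, hx, hy]
    · intro c x _ hx
      rw [map_smul, hx]
  have hy012 : y ∈ gpar G.ρ {0, 1, 2} := by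
    have m0 : G.ρ 0 ∈ gpar G.ρ {0, 1, 2} := Subgroup.subset_closure ⟨0, by simp, rfl⟩
    have m1 : G.ρ 1 ∈ gpar G.ρ {0, 1, 2} := Subgroup.subset_closure ⟨1, by simp, rfl⟩
    have m2 : G.ρ 2 ∈ gpar G.ρ {0, 1, 2} := Subgroup.subset_closure ⟨2, by simp, rfl⟩
    rw [hy]
    exact mul_mem (mul_mem (mul_mem m0 m1) m0) (mul_mem m1 (mul_mem (mul_mem (mul_mem m0
      (mul_mem m1 m2)) m0) (mul_mem m1 (mul_mem (mul_mem (mul_mem m0 m1) m0) (mul_mem m1 m2)))))
  have hy2 : y ∈ gpar G.ρ {2} := by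
    have h := G.inter {j | 2 ≤ j} {0, 1, 2}
    have e : ({j | 2 ≤ j} ∩ {0, 1, 2} : Set ℕ) = {2} := by
      ext j
      simp only [Set.mem_inter_iff, Set.mem_ofPred_eq, Set.mem_insert_iff, Set.mem_singleton_iff]
      omega
    rw [e] at h
    rw [← h]
    exact ⟨hyup, hy012⟩
  have hcases : y = 1 ∨ y = G.ρ 2 := by
    have h2 : G.ρ 2 * G.ρ 2 = 1 := G.sq 2
    rw [gpar, Set.image_singleton] at hy2
    refine Subgroup.closure_induction (p := fun g _ => g = 1 ∨ g = G.ρ 2) ?_ ?_ ?_ ?_ hy2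
    · intro g hg
      exact Or.inr hg
    · exact Or.inl rfl
    · rintro g h - - (rfl | rfl) (rfl | rfl)
      · exact Or.inl (by simp)
      · exact Or.inr (by simp)
      · exact Or.inr (by simp)
      · exact Or.inl h2
    · rintro g - (rfl | rfl)
      · exact Or.inl (by simp)
      · exact Or.inr (G.inv_ρ 2)
  have hn2 : ‖w 2‖ = 1 := by
    rw [hw 2 (by omega)]
    exact u.orthonormal.1 _
  rcases hcases with h | h
  · rw [h, G.T_one] at Ty2
    exact eq_of_sg hn2 Ty2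
  · exfalso
    rw [h, T22] at Ty2
    have h3 : ⟪w 3, w 3⟫ = (1 : ℝ) := by
      rw [hw 3 (by omega), real_inner_self_eq_norm_sq, u.orthonormal.1]
      norm_num
    have h4 : ⟪w 3, w 2⟫ = (0 : ℝ) := by
      rw [hw 3 (by omega), hw 2 (by omega)]
      exact u.orthonormal.2 (by simp [Fin.ext_iff])
    have h5 : ⟪w 3, w 3⟫ = (0 : ℝ) := by
      nth_rewrite 2 [Ty2]
      rw [inner_smul_right, h4, mul_zero]
    rw [h3] at h5
    exact one_ne_zero h5

/-- the other signs -/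
theorem next (G : Geo d Γ X) (hG : Good G) (hH : ∀ j, 1 ≤ j → G.ρ j ∈ G.H)
    (u : OrthonormalBasis (Fin d) ℝ (E d)) (a b : ℝ) (ε : ℕ → ℤˣ) (hF : FrData G u a b 1 ε)
    (j : ℕ) (hj : 1 ≤ j) (hjd : j + 3 < d) (he : ε j = 1) : ε (j + 1) = 1 := by
  have hA := hH j hj
  have hB := hH (j + 1) (by omega)
  obtain ⟨w, hw⟩ : ∃ w : ℕ → E d, ∀ (k : ℕ) (h : k < d), w k = u ⟨k, h⟩ :=
    ⟨fun k => if h : k < d then u ⟨k, h⟩ else 0, fun k h => dif_pos h⟩
  have Aj : G.T (G.ρ j) (w j) = w (j + 1) := by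
    rw [hw j (by omega), hw (j + 1) (by omega), hF.mid j (by omega) hj ⟨j, by omega⟩,
      if_pos (by simp), Equiv.swap_apply_left]
  have Aj1 : G.T (G.ρ j) (w (j + 1)) = w j := by
    rw [hw j (by omega), hw (j + 1) (by omega), hF.mid j (by omega) hj ⟨j + 1, by omega⟩,
      if_pos (by simp), Equiv.swap_apply_right]
  have Ak : ∀ k, k < d → k ≠ j → k ≠ j + 1 → G.T (G.ρ j) (w k) = w k := by
    intro k hk h1 h2
    rw [hw k hk, hF.mid j (by omega) hj ⟨k, hk⟩]
    by_cases h3 : k < j + 2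
    · rw [if_pos (by simpa using h3), Equiv.swap_apply_of_ne_of_ne (by simp [Fin.ext_iff]; omega)
        (by simp [Fin.ext_iff]; omega)]
    · rw [if_neg (by simpa using h3), he]
      simp [sg]
  have Bj : G.T (G.ρ (j + 1)) (w (j + 1)) = w (j + 2) := by
    rw [hw (j + 1) (by omega), hw (j + 2) (by omega),
      hF.mid (j + 1) (by omega) (by omega) ⟨j + 1, by omega⟩, if_pos (by simp only; omega),
      Equiv.swap_apply_left]
  have Bj1 : G.T (G.ρ (j + 1)) (w (j + 2)) = w (j + 1) := by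
    have e : (⟨j + 2, by omega⟩ : Fin d) = ⟨j + 1 + 1, by omega⟩ := rfl
    rw [hw (j + 1) (by omega), hw (j + 2) (by omega),
      hF.mid (j + 1) (by omega) (by omega) ⟨j + 2, by omega⟩, if_pos (by simp only; omega), e,
      Equiv.swap_apply_right]
  have Bk : ∀ k, k < j + 3 → k ≠ j + 1 → k ≠ j + 2 → G.T (G.ρ (j + 1)) (w k) = w k := by
    intro k hk h1 h2
    rw [hw k (by omega), hF.mid (j + 1) (by omega) (by omega) ⟨k, by omega⟩,
      if_pos (by simp only; omega), Equiv.swap_apply_of_ne_of_ne (by simp [Fin.ext_iff]; omega)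
        (by simp [Fin.ext_iff]; omega)]
  have B3 : G.T (G.ρ (j + 1)) (w (j + 3)) = sg (ε (j + 1)) • w (j + 3) := by
    rw [hw (j + 3) (by omega), hF.mid (j + 1) (by omega) (by omega) ⟨j + 3, by omega⟩,
      if_neg (by simp only; omega)]
  -- the element
  have hz : G.ρ j * (G.ρ (j + 1) * (G.ρ j * (G.ρ (j + 1) * (G.ρ j * G.ρ (j + 1))))) ∈ G.H :=
    mul_mem hA (mul_mem hB (mul_mem hA (mul_mem hB (mul_mem hA hB))))
  have Tz : ∀ v, G.T (G.ρ j * (G.ρ (j + 1) * (G.ρ j * (G.ρ (j + 1) * (G.ρ j * G.ρ (j + 1)))))) v =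
      G.T (G.ρ j) (G.T (G.ρ (j + 1)) (G.T (G.ρ j) (G.T (G.ρ (j + 1)) (G.T (G.ρ j)
        (G.T (G.ρ (j + 1)) v))))) := by
    intro v
    rw [G.T_mul_apply hA (mul_mem hB (mul_mem hA (mul_mem hB (mul_mem hA hB)))),
      G.T_mul_apply hB (mul_mem hA (mul_mem hB (mul_mem hA hB))),
      G.T_mul_apply hA (mul_mem hB (mul_mem hA hB)), G.T_mul_apply hB (mul_mem hA hB),
      G.T_mul_apply hA hB]
  obtain ⟨z, hzd⟩ : ∃ z, z = G.ρ j * (G.ρ (j + 1) * (G.ρ j * (G.ρ (j + 1) * (G.ρ j *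
    G.ρ (j + 1))))) := ⟨_, rfl⟩
  rw [← hzd] at hz Tz
  have Tzk : ∀ k, k < j + 3 → G.T z (w k) = w k := by
    intro k hk
    rw [Tz]
    by_cases h1 : k = j
    · subst h1
      rw [Bk k (by omega) (by omega) (by omega), Aj, Bj, Ak (k + 2) (by omega) (by omega) (by omega),
        Bj1, Aj1]
    · by_cases h2 : k = j + 1
      · subst h2
        rw [Bj, Ak (j + 2) (by omega) (by omega) (by omega), Bj1, Aj1,
          Bk j (by omega) (by omega) (by omega), Aj]
      · by_cases h3 : k = j + 2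
        · subst h3
          rw [Bj1, Aj1, Bk j (by omega) (by omega) (by omega), Aj, Bj,
            Ak (j + 2) (by omega) (by omega) (by omega)]
        · rw [Bk k hk h2 h3, Ak k (by omega) h1 h2, Bk k hk h2 h3, Ak k (by omega) h1 h2,
            Bk k hk h2 h3, Ak k (by omega) h1 h2]
  have Tz3 : G.T z (w (j + 3)) = sg (ε (j + 1)) • w (j + 3) := by
    have e3 : sg (ε (j + 1)) * sg (ε (j + 1)) = 1 := sg_sq _
    have e4 : G.T (G.ρ j) (w (j + 3)) = w (j + 3) := Ak (j + 3) (by omega) (by omega) (by omega)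
    rw [Tz]
    simp only [B3, map_smul, e4, smul_smul]
    rw [e3, one_mul]
  have hzup : z ∈ G.up (j + 3) := by
    have h := hG.chain.Hi_of_fix (j + 2) z hz ?_
    · exact h.2
    intro v hv
    have hv' : v ∈ Submodule.span ℝ (u '' {k : Fin d | k.val < j + 3}) := by
      rw [← hF.V (j + 3) (by omega)]
      exact hv
    refine Submodule.span_induction (p := fun v _ => G.T z v = v) ?_ ?_ ?_ ?_ hv'
    · rintro _ ⟨k, hk, rfl⟩
      have ek : u k = w k.val := (hw k.val k.isLt).symm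
      rw [ek]
      exact Tzk k.val hk
    · exact map_zero _
    · intro x y _ _ hx hy
      rw [map_add, hx, hy]
    · intro c x _ hx
      rw [map_smul, hx]
  have hzj : z ∈ gpar G.ρ {j, j + 1} := by
    have m0 : G.ρ j ∈ gpar G.ρ {j, j + 1} := Subgroup.subset_closure ⟨j, by simp, rfl⟩
    have m1 : G.ρ (j + 1) ∈ gpar G.ρ {j, j + 1} := Subgroup.subset_closure ⟨j + 1, by simp, rfl⟩
    rw [hzd]
    exact mul_mem m0 (mul_mem m1 (mul_mem m0 (mul_mem m1 (mul_mem m0 m1))))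
  have hz1 : z = 1 := by
    have h := G.inter {k | j + 3 ≤ k} {j, j + 1}
    have e : ({k | j + 3 ≤ k} ∩ {j, j + 1} : Set ℕ) = ∅ := by
      rw [Set.eq_empty_iff_forall_notMem]
      rintro k ⟨h1, h2⟩
      have h1' : j + 3 ≤ k := h1
      rcases h2 with h2 | h2
      · omega
      · have h2' : k = j + 1 := h2
        omega
    have h2 : z ∈ gpar G.ρ ({k | j + 3 ≤ k} ∩ {j, j + 1}) := by
      rw [← h]
      exact ⟨hzup, hzj⟩
    rw [e, gpar, Set.image_empty, Subgroup.closure_empty, Subgroup.mem_bot] at h2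
    exact h2
  have hn : ‖w (j + 3)‖ = 1 := by
    rw [hw (j + 3) (by omega)]
    exact u.orthonormal.1 _
  rw [hz1, G.T_one] at Tz3
  exact eq_of_sg hn Tz3

theorem all (G : Geo d Γ X) (hd : 6 ≤ d) (hG : Good G) (hH : ∀ j, 1 ≤ j → G.ρ j ∈ G.H)
    (u : OrthonormalBasis (Fin d) ℝ (E d)) (a b : ℝ) (ε : ℕ → ℤˣ) (hF : FrData G u a b 1 ε)
    (j : ℕ) (hj : 1 ≤ j) : j + 2 < d → ε j = 1 := by
  induction j, hj using Nat.le_induction with
  | base =>
    intro _
    exact first G hd hG hH u a b ε hF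
  | succ j hj ih =>
    intro h
    exact next G hG hH u a b ε hF j hj (by omega) (ih (by omega))

end FR3

theorem fr3 : StmtFr3 := by
  intro d Γ _ _ X _ G hd hG hH _ u a b η ε hF
  rcases Int.units_eq_one_or η with h | h
  · subst h
    exact ⟨u, a, b, ε, hF, fun j hj hjd => FR3.all G hd hG hH u a b ε hF j hj hjd⟩
  · subst h
    obtain ⟨u', a', hF'⟩ := FR3.flip G hd u a b ε hF
    exact ⟨u', a', b, ε, hF', fun j hj hjd => FR3.all G hd hG hH u' a' b ε hF' j hj hjd⟩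

end

end FO2
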