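import Pool.Agent.FO2.Stmts

/-!
# The frame case: the realization is the bipartite double of the cross-polytope
-/

namespace FO2

open Lib_helper64.FO
open scoped RealInnerProductSpace

noncomputable section

namespace FR4

theorem sg_one : sg 1 = 1 := by simp [sg]

theorem sg_neg (s : ℤˣ) : sg (-s) = -sg s := by simp [sg]

theorem sg_cases (s : ℤˣ) : sg s = 1 ∨ sg s = -1 := by
  rcases Int.units_eq_one_or s with rfl | rfl
  · left; simp [sg]
  · right; simp [sg]

theorem sg_ne (s : ℤˣ) : sg s ≠ 0 := by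
  rcases sg_cases s with h | h <;> rw [h] <;> norm_num

theorem sg_sq (s : ℤˣ) : sg s ^ 2 = 1 := by
  rcases sg_cases s with h | h <;> rw [h] <;> norm_num

theorem sg_inj {s t : ℤˣ} (h : sg s = sg t) : s = t := by
  rcases Int.units_eq_one_or s with rfl | rfl <;> rcases Int.units_eq_one_or t with rfl | rfl
  · rfl
  · norm_num [sg] at h
  · norm_num [sg] at h
  · rfl

theorem inner_u {d : ℕ} (u : OrthonormalBasis (Fin d) ℝ (E d)) (k l : Fin d) :
    ⟪u k, u l⟫ = if k = l then (1 : ℝ) else 0 :=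
  orthonormal_iff_ite.1 u.orthonormal k l

/-- the vertex map of the double cross-polytope is injective -/
theorem F3_inj {d : ℕ} (u : OrthonormalBasis (Fin d) ℝ (E d)) {a b : ℝ} (ha : a ≠ 0) (hb : b ≠ 0)
    (hab : a ^ 2 ≠ b ^ 2) : Function.Injective (F3 u a b) := by
  rintro ⟨k, s, ω⟩ ⟨k', s', ω'⟩ h
  have hc : ∀ ω : Bool, (if ω then b else a) ≠ 0 := by
    intro ω; cases ω
    · simpa using ha
    · simpa using hb
  simp only [F3] at h
  have h1 := congrArg (fun v => ⟪u k, v⟫) h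
  simp only [inner_smul_right, inner_u, if_true, mul_one] at h1
  by_cases hk : k = k'
  · subst hk
    simp only [if_true, mul_one] at h1
    have h2 : (if ω then b else a) ^ 2 = (if ω' then b else a) ^ 2 := by
      have := congrArg (fun t => t ^ 2) h1
      simpa only [mul_pow, sg_sq, mul_one] using this
    have hω : ω = ω' := by
      cases ω <;> cases ω'
      · rfl
      · exact absurd (by simpa using h2) hab
      · exact absurd (by simpa using h2.symm) hab
      · rfl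
    subst hω
    have h3 : sg s = sg s' := mul_left_cancel₀ (hc ω) h1
    rw [sg_inj h3]
  · rw [if_neg hk, mul_zero] at h1
    exact absurd h1 (mul_ne_zero (hc ω) (sg_ne s))

section

variable {d : ℕ} {Γ : Type} [Group Γ] {X : Type} [MulAction Γ X] {G : Geo d Γ X}
  {u : OrthonormalBasis (Fin d) ℝ (E d)} {a b : ℝ} {ε : ℕ → ℤˣ}

theorem up_le_H (hH : ∀ j, 1 ≤ j → G.ρ j ∈ G.H) : G.up 1 ≤ G.H := by
  rw [Geo.up, gpar, Subgroup.closure_le]
  rintro _ ⟨j, hj, rfl⟩
  exact hH j hj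

/-- a signed frame vector is the image of any frame vector under an element of `H` -/
theorem reach (D : FrData G u a b 1 ε) (k l : Fin d) (s : ℤˣ) :
    ∃ h ∈ G.H, G.T h (u k) = sg s • u l := by
  obtain ⟨h, hh, e⟩ := D.trans k l
  rcases Int.units_eq_one_or s with rfl | rfl
  · exact ⟨h, hh, by rw [e, sg_one, one_smul]⟩
  · obtain ⟨-, h', hh', e'⟩ := D.frame l
    refine ⟨h' * h, mul_mem hh' hh, ?_⟩
    rw [G.T_mul_apply hh' hh, e, e', sref_self (u.orthonormal.1 l), sg_neg, sg_one]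
    module

/-- the image of a frame vector under an element of `H` is a signed frame vector -/
theorem mono' (D : FrData G u a b 1 ε) {h : Γ} (hh : h ∈ G.H) (k : Fin d) :
    ∃ (l : Fin d) (s : ℤˣ), G.T h (u k) = sg s • u l := by
  obtain ⟨l, e | e⟩ := D.mono h hh k
  · exact ⟨l, 1, by rw [e, sg_one, one_smul]⟩
  · exact ⟨l, -1, by rw [e, sg_neg, sg_one]; module⟩

/-- every vertex lies in the orbit of `x0` or of `ρ 0 x0` under `H` -/
theorem cases_X (h0 : G.ρ 0 ∉ G.H) (x : X) :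
    ∃ h ∈ G.H, x = h • G.x0 ∨ x = h • G.ρ 0 • G.x0 := by
  obtain ⟨g, rfl⟩ := G.trans x
  by_cases hg : g ∈ G.H
  · exact ⟨g, hg, Or.inl rfl⟩
  · refine ⟨g * G.ρ 0, G.mul_mem_of_not hg h0, Or.inr ?_⟩
    rw [smul_smul, mul_assoc, G.sq, mul_one]

theorem val_x0 (hd : 6 ≤ d) (D : FrData G u a b 1 ε) {h : Γ} (hh : h ∈ G.H) {l : Fin d} {s : ℤˣ}
    (e : G.T h (u ⟨0, by omega⟩) = sg s • u l) : G.f (h • G.x0) = F3 u a b (l, s, false) := by
  rw [← G.equiv h hh]
  change G.T h G.x = _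
  rw [D.fx (by omega), map_smul, e, smul_smul]
  simp [F3]

theorem val_y0 (hd : 6 ≤ d) (D : FrData G u a b 1 ε) {h : Γ} (hh : h ∈ G.H) {l : Fin d} {s : ℤˣ}
    (e : G.T h (u ⟨1, by omega⟩) = sg s • u l) :
    G.f (h • G.ρ 0 • G.x0) = F3 u a b (l, s, true) := by
  rw [← G.equiv h hh, D.fy (by omega), map_smul, e, smul_smul]
  simp [F3]

theorem ab_ne (hd : 6 ≤ d) (hH : ∀ j, 1 ≤ j → G.ρ j ∈ G.H) (h0 : G.ρ 0 ∉ G.H)
    (D : FrData G u a b 1 ε) : a ^ 2 ≠ b ^ 2 := by
  intro hab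
  have key : ∀ s : ℤˣ, a = b * sg s → False := by
    intro s hs
    obtain ⟨h, hh, e⟩ := reach D ⟨1, by omega⟩ ⟨0, by omega⟩ s
    have h1 := val_y0 hd D hh e
    have h2 : G.f G.x0 = F3 u a b (⟨0, by omega⟩, 1, false) := by
      have := val_x0 hd D (one_mem G.H) (l := ⟨0, by omega⟩) (s := 1)
        (by rw [G.T_one, sg_one, one_smul]; rfl)
      rwa [one_smul] at this
    have h3 : G.f (h • G.ρ 0 • G.x0) = G.f G.x0 := by
      rw [h1, h2]
      simp only [F3, sg_one, mul_one, if_true, Bool.false_eq_true, if_false]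
      rw [← hs]
    have h4 : (h * G.ρ 0) • G.x0 = G.x0 := by
      rw [mul_smul]
      exact G.inj h3
    have h5 := up_le_H hH (G.mem_up_of_fix h4)
    exact h0 ((Subgroup.mul_mem_cancel_left _ hh).1 h5)
  rcases sq_eq_sq_iff_eq_or_eq_neg.1 hab with h | h
  · exact key 1 (by rw [sg_one, mul_one, h])
  · exact key (-1) (by rw [sg_neg, sg_one, h]; ring)

/-- every value of `f` is a value of `F3` -/
theorem ex_val (hd : 6 ≤ d) (h0 : G.ρ 0 ∉ G.H) (D : FrData G u a b 1 ε) (x : X) :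
    ∃ y, G.f x = F3 u a b y := by
  obtain ⟨h, hh, rfl | rfl⟩ := cases_X h0 x
  · obtain ⟨l, s, e⟩ := mono' D hh ⟨0, by omega⟩
    exact ⟨_, val_x0 hd D hh e⟩
  · obtain ⟨l, s, e⟩ := mono' D hh ⟨1, by omega⟩
    exact ⟨_, val_y0 hd D hh e⟩

/-- and conversely -/
theorem ex_pt (hd : 6 ≤ d) (D : FrData G u a b 1 ε) (y : Fin d × ℤˣ × Bool) :
    ∃ x, G.f x = F3 u a b y := by
  obtain ⟨k, s, ω⟩ := y
  cases ω
  · obtain ⟨h, hh, e⟩ := reach D ⟨0, by omega⟩ k s
    exact ⟨_, val_x0 hd D hh e⟩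
  · obtain ⟨h, hh, e⟩ := reach D ⟨1, by omega⟩ k s
    exact ⟨_, val_y0 hd D hh e⟩

/-- the generators in `H` -/
theorem gen_val (D : FrData G u a b 1 ε) (hε : ∀ j, 1 ≤ j → j + 2 < d → ε j = 1) (i : Fin d)
    (hi : 1 ≤ i.val) (y : Fin d × ℤˣ × Bool) :
    G.T (G.ρ i) (F3 u a b y) = F3 u a b (m3 i y) := by
  obtain ⟨k, s, ω⟩ := y
  by_cases h : i.val + 1 < d
  · have e : G.T (G.ρ i) (u k) = u (Equiv.swap i ⟨i.val + 1, h⟩ k) := by
      have h1 := D.mid i.val h hi k
      rw [h1]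
      split_ifs with h2
      · rfl
      · rw [hε i.val hi (by omega), sg_one, one_smul, Equiv.swap_apply_of_ne_of_ne]
        · rw [Ne, Fin.ext_iff]; omega
        · rw [Ne, Fin.ext_iff]; dsimp only; omega
    have hi0 : i.val ≠ 0 := by omega
    simp only [F3, m3, h, dif_pos, hi0, if_false, map_smul, e]
  · have h1 := D.last i.val i.isLt (by omega)
    have e : ∀ v, G.T (G.ρ i) v = sref (u i) v := h1
    simp only [F3, m3, h, dif_neg, not_false_eq_true]
    rw [map_smul, e]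
    by_cases hk : k = i
    · subst hk
      rw [sref_self (u.orthonormal.1 k), if_pos rfl, sg_neg]
      module
    · rw [if_neg hk, sref, inner_u, if_neg (Ne.symm hk)]
      module

/-- the generator `ρ 0` -/
theorem gen_val0 (hd : 6 ≤ d) (h0 : G.ρ 0 ∉ G.H) (D : FrData G u a b 1 ε)
    (hF : Function.Injective (F3 u a b)) (x : X) (y : Fin d × ℤˣ × Bool)
    (hx : G.f x = F3 u a b y) :
    G.f (G.ρ 0 • x) = F3 u a b (m3 ⟨0, by omega⟩ y) := by
  obtain ⟨M, hM, hM'⟩ := D.conj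
  have hM1 : ∀ k : Fin d, M (u k) = u (Equiv.swap ⟨0, by omega⟩ ⟨1, by omega⟩ k) := by
    intro k
    rw [hM k (by omega)]
    split_ifs with h2
    · rfl
    · rw [sg_one, one_smul, Equiv.swap_apply_of_ne_of_ne]
      · rw [Ne, Fin.ext_iff]; dsimp only; omega
      · rw [Ne, Fin.ext_iff]; dsimp only; omega
  have hconj : ∀ h ∈ G.H, G.ρ 0 * h * G.ρ 0 ∈ G.H := by
    intro h hh
    have := G.conj_mem (G.ρ 0) hh
    rwa [G.inv_ρ] at this
  obtain ⟨h, hh, rfl | rfl⟩ := cases_X h0 x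
  · obtain ⟨l, s, e⟩ := mono' D hh ⟨0, by omega⟩
    have e1 := hF ((val_x0 hd D hh e).symm.trans hx)
    subst e1
    have e2 : G.T (G.ρ 0 * h * G.ρ 0) (u ⟨1, by omega⟩) =
        sg s • u (Equiv.swap ⟨0, by omega⟩ ⟨1, by omega⟩ l) := by
      have := hM' h hh (u ⟨0, by omega⟩)
      rw [hM1, Equiv.swap_apply_left] at this
      rw [← this, e, map_smul, hM1]
    have e3 := val_y0 hd D (hconj h hh) e2
    have e4 : (G.ρ 0 * h * G.ρ 0) • G.ρ 0 • G.x0 = G.ρ 0 • h • G.x0 := by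
      rw [smul_smul, smul_smul, mul_assoc _ (G.ρ 0) (G.ρ 0), G.sq, mul_one]
    rw [e4] at e3
    rw [e3]
    have h1 : (⟨0, by omega⟩ : Fin d).val + 1 < d := by dsimp only; omega
    simp only [m3, h1, dif_pos]
    rfl
  · obtain ⟨l, s, e⟩ := mono' D hh ⟨1, by omega⟩
    have e1 := hF ((val_y0 hd D hh e).symm.trans hx)
    subst e1
    have e2 : G.T (G.ρ 0 * h * G.ρ 0) (u ⟨0, by omega⟩) =
        sg s • u (Equiv.swap ⟨0, by omega⟩ ⟨1, by omega⟩ l) := by
      have := hM' h hh (u ⟨1, by omega⟩)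
      rw [hM1, Equiv.swap_apply_right] at this
      rw [← this, e, map_smul, hM1]
    have e3 := val_x0 hd D (hconj h hh) e2
    have e4 : (G.ρ 0 * h * G.ρ 0) • G.x0 = G.ρ 0 • h • G.ρ 0 • G.x0 := by
      rw [smul_smul, smul_smul, mul_assoc]
    rw [e4] at e3
    rw [e3]
    have h1 : (⟨0, by omega⟩ : Fin d).val + 1 < d := by dsimp only; omega
    simp only [m3, h1, dif_pos]
    rfl

end

end FR4

open FR4 in
theorem fr4 : StmtFr4 := by
  intro d Γ _ _ X _ G hd _ hH h0 u a b ε D hε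
  have hab := ab_ne hd hH h0 D
  have hF := F3_inj u D.a_ne D.b_ne hab
  refine ⟨u, a, b, D.a_ne, D.b_ne, hab, ?_⟩
  choose e he using ex_val hd h0 D
  have he_inj : Function.Injective e := by
    intro x x' h
    apply G.inj
    rw [he, he, h]
  have he_surj : Function.Surjective e := by
    intro y
    obtain ⟨x, hx⟩ := ex_pt hd D y
    exact ⟨x, hF ((he x).symm.trans hx)⟩
  refine ⟨1, Equiv.ofBijective e ⟨he_inj, he_surj⟩, ?_, ?_, fun x => he x⟩
  · change e ((1 : Γ) • G.x0) = _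
    rw [one_smul]
    apply hF
    rw [← he]
    have := val_x0 hd D (one_mem G.H) (l := ⟨0, by omega⟩) (s := 1)
      (by rw [G.T_one, sg_one, one_smul]; rfl)
    rwa [one_smul] at this
  · intro i x
    change e ((1 * G.ρ i * 1⁻¹) • x) = m3 i (e x)
    rw [one_mul, inv_one, mul_one]
    apply hF
    rw [← he]
    by_cases hi : i.val = 0
    · have hi' : i = ⟨0, by omega⟩ := Fin.ext hi
      rw [hi']
      exact gen_val0 hd h0 D hF x (e x) (he x)
    · rw [← gen_val D hε i (by omega), ← he, G.equiv _ (hH i.val (by omega))]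

end

end FO2
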