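import Pool.Agent.FO2.Defs

/-!
# The four families
-/

namespace FO2

open Lib_helper64.FO Equiv

/-- the predecessor of `j` (and `j` itself if `j = 0`) -/
def prd {d : ℕ} (j : Fin d) : Fin d := ⟨j.val - 1, by omega⟩

/-! ### The double simplex, type `{6, 3, …, 3}` -/

/-- The generators of the group of the double simplex: they permute the points `(i, ω)` with
`0 ≤ i ≤ d` and `ω` in `{false, true}`; the generator `j` exchanges `j` and `j + 1`, and the
generator `0` also changes `ω`. -/
def σ1 {d : ℕ} (j : Fin d) : Perm (Fin (d + 1) × Bool) :=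
  Equiv.prodCongr (Equiv.swap j.castSucc j.succ) (if j.val = 0 then Equiv.boolNot else Equiv.refl Bool)

theorem swap_comm' {α : Type} [DecidableEq α] {a b c e : α} (h1 : a ≠ c) (h2 : a ≠ e) (h3 : b ≠ c)
    (h4 : b ≠ e) (x : α) : Equiv.swap a b (Equiv.swap c e x) = Equiv.swap c e (Equiv.swap a b x) := by
  by_cases ha : x = a
  · subst ha
    rw [Equiv.swap_apply_of_ne_of_ne h1 h2, Equiv.swap_apply_left,
      Equiv.swap_apply_of_ne_of_ne h3 h4]
  · by_cases hb : x = b
    · subst hb
      rw [Equiv.swap_apply_of_ne_of_ne h3 h4, Equiv.swap_apply_right,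
        Equiv.swap_apply_of_ne_of_ne h1 h2]
    · by_cases hc : x = c
      · subst hc
        rw [Equiv.swap_apply_left, Equiv.swap_apply_of_ne_of_ne (a := a) h2.symm h4.symm,
          Equiv.swap_apply_of_ne_of_ne h1.symm h3.symm, Equiv.swap_apply_left]
      · by_cases he : x = e
        · subst he
          rw [Equiv.swap_apply_right, Equiv.swap_apply_of_ne_of_ne (a := a) h1.symm h3.symm,
            Equiv.swap_apply_of_ne_of_ne h2.symm h4.symm, Equiv.swap_apply_right]
        · rw [Equiv.swap_apply_of_ne_of_ne hc he, Equiv.swap_apply_of_ne_of_ne ha hb,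
            Equiv.swap_apply_of_ne_of_ne hc he]

/-- The string of generators of the double simplex. -/
def S1 (d : ℕ) : SGen d (Fin (d + 1) × Bool) where
  σ := σ1
  sq j := by
    ext1 x
    obtain ⟨i, b⟩ := x
    by_cases h : j.val = 0 <;> simp [σ1, h, Equiv.swap_apply_self]
  comm i j hij := by
    ext1 x
    obtain ⟨k, b⟩ := x
    have hs : ∀ x, Equiv.swap i.castSucc i.succ (Equiv.swap j.castSucc j.succ x) =
        Equiv.swap j.castSucc j.succ (Equiv.swap i.castSucc i.succ x) := by
      apply swap_comm' <;> (intro h; have := congrArg Fin.val h; simp at this; omega)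
    by_cases h : i.val = 0 <;> by_cases h' : j.val = 0 <;> simp [σ1, h, h', hs]

/-! ### The cube, type `{4, 3, …, 3}` -/

/-- The generators of the group of the cube act on the sign vectors `x`: the generator `0` changes
the sign of the coordinate `0`, and the generator `j ≥ 1` exchanges the coordinates `j - 1` and
`j`. -/
def m2 {d : ℕ} (j : Fin d) (x : Fin d → ℤˣ) : Fin d → ℤˣ := fun k =>
  if j.val = 0 then (if k = j then - x k else x k) else x (Equiv.swap (prd j) j k)

theorem m2_m2 {d : ℕ} (j : Fin d) (x : Fin d → ℤˣ) : m2 j (m2 j x) = x := by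
  funext k
  by_cases h : j.val = 0
  · by_cases h' : k = j <;> simp [m2, h, h']
  · simp [m2, h, Equiv.swap_apply_self]

theorem m2_comm {d : ℕ} (i j : Fin d) (hij : i.val + 2 ≤ j.val) (x : Fin d → ℤˣ) :
    m2 i (m2 j x) = m2 j (m2 i x) := by
  funext k
  have hj : j.val ≠ 0 := by omega
  have h3 : ∀ a : Fin d, a.val < j.val - 1 → a ≠ prd j ∧ a ≠ j := by
    intro a ha
    constructor
    · intro h; have := congrArg Fin.val h; simp [prd] at this; omega
    · intro h; have := congrArg Fin.val h; omega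
  by_cases h : i.val = 0
  · have h1 := h3 i (by omega)
    by_cases hk : k = i
    · subst hk
      simp [m2, h, hj, Equiv.swap_apply_of_ne_of_ne h1.1 h1.2]
    · have : Equiv.swap (prd j) j k ≠ i := by
        intro h2
        apply hk
        rw [← Equiv.swap_apply_self (prd j) j k, h2, Equiv.swap_apply_of_ne_of_ne h1.1 h1.2]
      simp [m2, h, hj, hk, this]
  · have h1 := h3 i (by omega)
    have h2 := h3 (prd i) (by change i.val - 1 < j.val - 1; omega)
    have := swap_comm' (a := prd i) (b := i) (c := prd j) (e := j) h2.1 h2.2 h1.1 h1.2 k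
    simp [m2, h, hj, this]

/-- The string of generators of the cube. -/
def S2 (d : ℕ) : SGen d (Fin d → ℤˣ) where
  σ j := Function.Involutive.toPerm (m2 j) (m2_m2 j)
  sq j := by
    ext1 x
    simp [m2_m2]
  comm i j hij := by
    ext1 x
    simp [m2_comm i j hij]

/-! ### The bipartite double of the cross-polytope, type `{6, 3, …, 3, 4}` -/

/-- The generators act on the points `(k, a, ω)` with `0 ≤ k < d`, a sign `a` and `ω` in
`{false, true}`: for `j < d - 1` the generator `j` exchanges the values `j` and `j + 1` of `k`, and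
if `j = 0` it also changes `ω`; the generator `d - 1` changes the sign `a` if `k = d - 1`. -/
def m3 {d : ℕ} (j : Fin d) (x : Fin d × ℤˣ × Bool) : Fin d × ℤˣ × Bool :=
  if h : j.val + 1 < d then
    (Equiv.swap j ⟨j.val + 1, h⟩ x.1, x.2.1, if j.val = 0 then !x.2.2 else x.2.2)
  else (x.1, if x.1 = j then - x.2.1 else x.2.1, x.2.2)

theorem m3_m3 {d : ℕ} (j : Fin d) (x : Fin d × ℤˣ × Bool) : m3 j (m3 j x) = x := by
  obtain ⟨k, a, b⟩ := x
  by_cases h : j.val + 1 < d
  · by_cases h' : j.val = 0
    · simp [m3, h', h' ▸ h, Equiv.swap_apply_self]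
    · simp [m3, h, h', Equiv.swap_apply_self]
  · by_cases h' : k = j <;> simp [m3, h, h']

theorem m3_comm {d : ℕ} (i j : Fin d) (hij : i.val + 2 ≤ j.val) (x : Fin d × ℤˣ × Bool) :
    m3 i (m3 j x) = m3 j (m3 i x) := by
  obtain ⟨k, a, b⟩ := x
  have hi : i.val + 1 < d := by omega
  have hj0 : j.val ≠ 0 := by omega
  by_cases hj : j.val + 1 < d
  · have hs : ∀ x, Equiv.swap i ⟨i.val + 1, hi⟩ (Equiv.swap j ⟨j.val + 1, hj⟩ x) =
        Equiv.swap j ⟨j.val + 1, hj⟩ (Equiv.swap i ⟨i.val + 1, hi⟩ x) := by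
      apply swap_comm' <;> (rw [Ne, Fin.ext_iff]; try dsimp only) <;> omega
    simp [m3, hi, hj, hj0, hs]
  · have h1 : i ≠ j := by intro h; have := congrArg Fin.val h; omega
    have h2 : (⟨i.val + 1, hi⟩ : Fin d) ≠ j := by
      intro h; have := congrArg Fin.val h; simp at this; omega
    have h3 : Equiv.swap i ⟨i.val + 1, hi⟩ k = j ↔ k = j := by
      constructor
      · intro h
        rw [← Equiv.swap_apply_self i ⟨i.val + 1, hi⟩ k, h,
          Equiv.swap_apply_of_ne_of_ne h1.symm h2.symm]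
      · rintro rfl
        exact Equiv.swap_apply_of_ne_of_ne h1.symm h2.symm
    simp [m3, hi, hj, h3]

/-- The string of generators of the bipartite double of the cross-polytope. -/
def S3 (d : ℕ) : SGen d (Fin d × ℤˣ × Bool) where
  σ j := Function.Involutive.toPerm (m3 j) (m3_m3 j)
  sq j := by
    ext1 x
    simp [m3_m3]
  comm i j hij := by
    ext1 x
    simp [m3_comm i j hij]

/-! ### The polytope of type `{4, 6, 3, …, 3}` (`d` even) -/

/-- The generators act on the sign vectors `x` as those of the cube, except the generator `1`, which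
exchanges the coordinates `0` and `1` and then multiplies the vector by the product of its
entries. -/
def m4 {d : ℕ} (j : Fin d) (x : Fin d → ℤˣ) : Fin d → ℤˣ := fun k =>
  if j.val = 1 then par x * m2 j x k else m2 j x k

theorem par_swap {d : ℕ} (j : Fin d) (h : j.val ≠ 0) (x : Fin d → ℤˣ) : par (m2 j x) = par x := by
  simp only [par, m2, h, if_false]
  exact Equiv.prod_comp (Equiv.swap (prd j) j) x

theorem par_flip {d : ℕ} (j : Fin d) (h : j.val = 0) (x : Fin d → ℤˣ) :
    par (m2 j x) = - par x := by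
  have e : ∀ k, m2 j x k = (if k = j then (-1 : ℤˣ) else 1) * x k := by
    intro k
    by_cases hk : k = j <;> simp [m2, h, hk]
  rw [par, Finset.prod_congr rfl (fun k _ => e k), Finset.prod_mul_distrib, Finset.prod_ite_eq']
  simp [par]

theorem par_mul_const {d : ℕ} (hd : Even d) (c : ℤˣ) (x : Fin d → ℤˣ) :
    par (fun k => c * x k) = par x := by
  simp only [par, Finset.prod_mul_distrib, Finset.prod_const, Finset.card_univ, Fintype.card_fin]
  have : c ^ d = 1 := by
    obtain ⟨e, he⟩ := hd
    rw [he, ← two_mul, pow_mul, Int.units_sq, one_pow]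
  rw [this, one_mul]

theorem m2_mul {d : ℕ} (j : Fin d) (c : ℤˣ) (x : Fin d → ℤˣ) :
    m2 j (fun k => c * x k) = fun k => c * m2 j x k := by
  funext k
  simp only [m2]
  split_ifs <;> simp

theorem m4_m4 {d : ℕ} (hd : Even d) (j : Fin d) (x : Fin d → ℤˣ) : m4 j (m4 j x) = x := by
  by_cases h : j.val = 1
  · have e : m4 j x = fun k => par x * m2 j x k := by funext k; simp [m4, h]
    have e2 : par (m4 j x) = par x := by
      rw [e, par_mul_const hd, par_swap j (by omega)]
    funext k
    have : m4 j (m4 j x) k = par (m4 j x) * m2 j (m4 j x) k := by simp [m4, h]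
    rw [this, e2, e, m2_mul, m2_m2, ← mul_assoc, ← sq, Int.units_sq, one_mul]
  · have e : ∀ y, m4 j y = m2 j y := by intro y; funext k; simp [m4, h]
    rw [e, e, m2_m2]

theorem m4_comm {d : ℕ} (i j : Fin d) (hij : i.val + 2 ≤ j.val) (x : Fin d → ℤˣ) :
    m4 i (m4 j x) = m4 j (m4 i x) := by
  have hj : ∀ y, m4 j y = m2 j y := by
    intro y; funext k
    have : j.val ≠ 1 := by omega
    simp [m4, this]
  by_cases h : i.val = 1
  · have hi : ∀ y, m4 i y = fun k => par y * m2 i y k := by intro y; funext k; simp [m4, h]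
    rw [hj, hj, hi, hi, par_swap j (by omega), m2_comm i j hij, m2_mul]
  · have hi : ∀ y, m4 i y = m2 i y := by intro y; funext k; simp [m4, h]
    rw [hj, hj, hi, hi, m2_comm i j hij]

/-- The string of generators of the polytope of type `{4, 6, 3, …, 3}`. -/
def S4 (d : ℕ) (hd : Even d) : SGen d (Fin d → ℤˣ) where
  σ j := Function.Involutive.toPerm (m4 j) (m4_m4 hd j)
  sq j := by
    ext1 x
    simp [m4_m4 hd]
  comm i j hij := by
    ext1 x
    simp [m4_comm i j hij]

/-! ### The vertex maps -/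

open scoped RealInnerProductSpace

/-- `v 0, …, v d` are the vertices of a regular simplex with centre `0` and circumradius `1`. -/
def IsSimplex {d : ℕ} (v : Fin (d + 1) → E d) : Prop :=
  ∀ i j, ⟪v i, v j⟫ = if i = j then (1 : ℝ) else -1 / d

/-- the vertex map of the double simplex -/
noncomputable def F1 {d : ℕ} (v : Fin (d + 1) → E d) (a b : ℝ) (y : Fin (d + 1) × Bool) : E d :=
  (if y.2 then b else a) • v y.1

/-- the vertex map of the cube with radii `a` for the even and `b` for the odd vertices -/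
noncomputable def F2 {d : ℕ} (u : OrthonormalBasis (Fin d) ℝ (E d)) (a b : ℝ) (y : Fin d → ℤˣ) :
    E d :=
  (if par y = 1 then a else b) • ∑ i, sg (y i) • u i

/-- the vertex map of the double cross-polytope -/
noncomputable def F3 {d : ℕ} (u : OrthonormalBasis (Fin d) ℝ (E d)) (a b : ℝ)
    (y : Fin d × ℤˣ × Bool) : E d :=
  ((if y.2.2 then b else a) * sg y.2.1) • u y.1

/-- `(P, f)` is a double simplex with centre `c` and circumradii `a` and `b`, up to signs. -/
def Fam1 {d : ℕ} {P : Type} [PartialOrder P] (rk : P → ℤ) (f : P → E d) : Prop :=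
  ∃ (v : Fin (d + 1) → E d) (a b : ℝ), IsSimplex v ∧ a ≠ 0 ∧ b ≠ 0 ∧ a ^ 2 ≠ b ^ 2 ∧
    Match rk f (S1 d) (0, false) (F1 v a b)

/-- `(P, f)` is a cube with even vertices of the form `a (± 1, …, ± 1)` and odd vertices of the
form `b (± 1, …, ± 1)`. -/
def Fam2 {d : ℕ} {P : Type} [PartialOrder P] (rk : P → ℤ) (f : P → E d) : Prop :=
  ∃ (u : OrthonormalBasis (Fin d) ℝ (E d)) (a b : ℝ), a ≠ 0 ∧ b ≠ 0 ∧ a ^ 2 ≠ b ^ 2 ∧
    Match rk f (S2 d) (fun _ => 1) (F2 u a b)

/-- `(P, f)` is a double cross-polytope with vertices `± a u_i` and `± b u_i`. -/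
def Fam3 {d : ℕ} {P : Type} [PartialOrder P] (rk : P → ℤ) (f : P → E d) : Prop :=
  ∃ (h : 0 < d) (u : OrthonormalBasis (Fin d) ℝ (E d)) (a b : ℝ), a ≠ 0 ∧ b ≠ 0 ∧ a ^ 2 ≠ b ^ 2 ∧
    Match rk f (S3 d) (⟨0, h⟩, 1, false) (F3 u a b)

/-- `d` is even and `(P, f)` is the polytope of type `{4, 6, 3, …, 3}` on the vertices of a
`d`-cube. -/
def Fam4 {d : ℕ} {P : Type} [PartialOrder P] (rk : P → ℤ) (f : P → E d) : Prop :=
  ∃ (hd : Even d) (u : OrthonormalBasis (Fin d) ℝ (E d)) (a : ℝ), a ≠ 0 ∧
    Match rk f (S4 d hd) (fun _ => 1) (F2 u a a)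

/-- The main theorem. -/
def MainStatement : Prop :=
  ∀ d : ℕ, 9 ≤ d →
    (∀ (P : Type) [PartialOrder P] [Finite P] (rk : P → ℤ), IsRegularPolytope d rk →
      ∀ f : P → E d, IsOrbitRealization rk f 2 ↔ Fam1 rk f ∨ Fam2 rk f ∨ Fam3 rk f ∨ Fam4 rk f) ∧
    (IsRegularPolytope d (rkC (S := S1 d)) ∧ IsRegularPolytope d (rkC (S := S2 d)) ∧
      IsRegularPolytope d (rkC (S := S3 d)) ∧
      ∀ hd : Even d, IsRegularPolytope d (rkC (S := S4 d hd)))

end FO2
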