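import Pool.Agent.FO2.Stmts
import Pool.Agent.Lib_helper64.FO.Flags

/-!
# From a two-orbit realization to its algebraic form
-/

namespace FO2

open Lib_helper64.FO
open scoped RealInnerProductSpace

namespace GE1

section Poset

variable {P : Type} [PartialOrder P] {d : ℕ} {rk : P → ℤ}

/-- faces of a flag are determined by their ranks -/
theorem flag_unique (hP : IsRegularPolytope d rk) (D : Flag P) {x y : P} (hx : x ∈ D) (hy : y ∈ D)
    (h : rk x = rk y) : x = y := by
  rcases D.le_or_le hx hy with h1 | h1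
  · rcases h1.lt_or_eq with h2 | h2
    · have := hP.strict _ _ h2; omega
    · exact h2
  · rcases h1.lt_or_eq with h2 | h2
    · have := hP.strict _ _ h2; omega
    · exact h2.symm

/-- the order of the faces of a flag is that of the ranks -/
theorem flag_le (hP : IsRegularPolytope d rk) (D : Flag P) {x y : P} (hx : x ∈ D) (hy : y ∈ D)
    (h : rk x ≤ rk y) : x ≤ y := by
  rcases D.le_or_le hx hy with h1 | h1
  · exact h1
  · rcases h1.lt_or_eq with h2 | h2
    · have := hP.strict _ _ h2; omega
    · exact h2.ge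

theorem smul_mem {γ : P ≃o P} {C D : Flag P} (h : γ • C = D) {x : P} (hx : x ∈ C) : γ x ∈ D := by
  rw [← h]
  change γ x ∈ ((γ • C : Flag P) : Set P)
  rw [Flag.coe_smul]
  exact ⟨x, hx, rfl⟩

/-- the vertices of a face of the base flag -/
theorem vertex_trans (hP : IsRegularPolytope d rk) {C : Flag P} {ρ : ℕ → (P ≃o P)}
    (hρ : PolyGroup d rk C ρ) {x0 : P} (h0 : x0 ∈ C) (hr0 : rk x0 = 0) {x : P} (hx : x ∈ C) {i : ℕ}
    (hi : rk x = (i : ℤ)) {v : P} (hv : rk v = 0) (hvx : v ≤ x) :
    ∃ g ∈ gpar ρ {j | j < i}, g x0 = v := by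
  have hch : IsChain (· ≤ ·) (insert v {y | y ∈ C ∧ x ≤ y}) := by
    apply IsChain.insert
    · intro a ha b hb _
      exact C.le_or_le ha.1 hb.1
    · intro b hb _
      exact Or.inl (hvx.trans hb.2)
  obtain ⟨D, hD⟩ := hch.exists_subset_flag
  have hvD : v ∈ D := hD (Set.mem_insert _ _)
  have hyD : ∀ y ∈ C, x ≤ y → y ∈ D := fun y hy hxy => hD (Set.mem_insert_of_mem _ ⟨hy, hxy⟩)
  obtain ⟨γ, hγ⟩ := hP.regular C D
  refine ⟨γ, ?_, ?_⟩
  · apply hρ.stab
    intro y hy k hk hki
    have hki' : i ≤ k := by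
      by_contra hcon
      exact hki (by simpa using hcon)
    have hxy : x ≤ y := flag_le hP C hx hy (by rw [hi, hk]; exact_mod_cast hki')
    exact flag_unique hP D (smul_mem hγ hy) (hyD y hy hxy) (hρ.rank γ y)
  · exact flag_unique hP D (smul_mem hγ h0) hvD (by rw [hρ.rank, hr0, hv])

/-- an automorphism which fixes the vertices of a face fixes all faces of that face -/
theorem fix_below {C : Flag P} {ρ : ℕ → (P ≃o P)}
    (hρ : PolyGroup d rk C ρ) {f : P → E d} (hf : Faithful rk f) (γ : P ≃o P) (x : P)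
    (hv : ∀ v, rk v = 0 → v ≤ x → γ v = v) (k : ℕ) :
    ∀ y, rk y = (k : ℤ) → y ≤ x → γ y = y := by
  induction k with
  | zero =>
    intro y hy hyx
    exact hv y (by simpa using hy) hyx
  | succ k ih =>
    intro y hy hyx
    apply hf (k + 1) (γ y) y (by rw [hρ.rank, hy]) hy
    change {z | ∃ G : P, rk G = (k : ℤ) ∧ G ≤ γ y ∧ faceImg rk f k G = z} =
      {z | ∃ G : P, rk G = (k : ℤ) ∧ G ≤ y ∧ faceImg rk f k G = z}
    ext z
    constructor
    · rintro ⟨G, hG, hGy, rfl⟩
      have h1 : γ.symm G ≤ y := by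
        rw [← γ.le_iff_le, γ.apply_symm_apply]
        exact hGy
      have h2 : rk (γ.symm G) = (k : ℤ) := by
        have := hρ.rank γ (γ.symm G)
        rw [γ.apply_symm_apply] at this
        rw [← this, hG]
      have h3 := ih (γ.symm G) h2 (h1.trans hyx)
      rw [γ.apply_symm_apply] at h3
      exact ⟨G, hG, by rw [h3]; exact h1, rfl⟩
    · rintro ⟨G, hG, hGy, rfl⟩
      refine ⟨G, hG, ?_, rfl⟩
      rw [← ih G hG (hGy.trans hyx), γ.le_iff_le]
      exact hGy

/-- the action on the vertices -/
@[reducible] def act (hr : ∀ (γ : P ≃o P) (x : P), rk (γ x) = rk x) :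
    MulAction (P ≃o P) {v : P // rk v = 0} where
  smul γ v := ⟨γ v.1, by rw [hr]; exact v.2⟩
  one_smul _ := rfl
  mul_smul _ _ _ := rfl

end Poset

end GE1

theorem geo1 (h : StmtLin) : StmtGeo1 := by
  intro d hd P _ _ rk hP f hf C ρ hρ
  obtain ⟨hfa, horb⟩ := hf
  obtain ⟨x0, h0, hr0⟩ := hP.flags C 0 (by norm_num) (by positivity)
  let _ := GE1.act hρ.rank
  have hsm : ∀ (γ : P ≃o P) (x : {v : P // rk v = 0}), (γ • x).1 = γ x.1 := fun _ _ => rfl
  have : Nonempty {v : P // rk v = 0} := ⟨⟨x0, hr0⟩⟩
  obtain ⟨c, T, hT1, hT2⟩ := h d (P ≃o P) {v : P // rk v = 0} (fun x => f x.1) (symGroup rk f) (by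
    rintro γ ⟨_, T, hT⟩
    exact ⟨T, fun x => hT x.1 x.2⟩)
  let G : Geo d (P ≃o P) {v : P // rk v = 0} :=
    { ρ := ρ
      x0 := ⟨x0, hr0⟩
      H := symGroup rk f
      f := fun x => f x.1 - c
      T := T
      one_of_ge := hρ.one_of_ge
      ne_one := hρ.ne_one
      sq := hρ.sq
      comm := hρ.comm
      gen := hρ.gen
      inter := hρ.inter
      trans := by
        rintro ⟨v, hv⟩
        obtain ⟨D, hD⟩ := Flag.exists_mem v
        obtain ⟨γ, hγ⟩ := hP.regular C D
        refine ⟨γ, Subtype.ext ?_⟩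
        rw [hsm]
        exact GE1.flag_unique hP D (GE1.smul_mem hγ h0) hD (by rw [hρ.rank, hr0, hv])
      stab := by
        intro j hj
        apply Subtype.ext
        rw [hsm]
        exact hρ.moves j x0 h0 (by rw [hr0]; omega)
      fix := by
        intro m γ hγ
        apply hρ.stab
        intro x hx i hi him
        have him' : i ≤ m := by
          by_contra hcon
          exact him (by simpa using hcon)
        refine GE1.fix_below hρ hfa γ x (fun v hv hvx => ?_) i x hi le_rfl
        obtain ⟨g, hg, rfl⟩ := GE1.vertex_trans hP hρ h0 hr0 hx hi hv hvx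
        have hg' : g ∈ gpar ρ {j | j < m} :=
          Subgroup.closure_mono (Set.image_mono fun j (hj : j < i) => lt_of_lt_of_le hj him') hg
        have := congrArg Subtype.val (hγ g hg')
        exact this
      inj := by
        rintro ⟨v, hv⟩ ⟨w, hw⟩ e
        apply Subtype.ext
        have e' : f v = f w := by
          have e2 : f v - c = f w - c := e
          exact sub_left_injective e2
        exact hfa 0 v w (by simpa using hv) (by simpa using hw) e'
      idx := by
        rw [← horb]
        exact (card_orbits_eq_index C (fun D => hP.regular C D) hρ.free (symGroup rk f)).symm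
      T_mul := hT1
      equiv := hT2
      noiso := by
        rintro γ hγ ⟨g, hg⟩
        apply hγ
        refine ⟨hρ.rank γ, (IsometryEquiv.subRight c).trans
          (g.toIsometryEquiv.trans (IsometryEquiv.addRight c)), fun v hv => ?_⟩
        have := hg ⟨v, hv⟩
        have h2 : g (f v - c) = f (γ v) - c := this
        change g (f v - c) + c = f (γ v)
        rw [h2, sub_add_cancel] }
  exact ⟨{v : P // rk v = 0}, inferInstance, G, Subtype.val, c,
    { poly := hρ
      inj := Subtype.val_injective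
      equiv := fun _ _ => rfl
      base := h0
      rank := fun x => x.2
      surj := fun v hv => ⟨⟨v, hv⟩, rfl⟩
      gens := rfl
      fval := fun _ => rfl }⟩

end FO2
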