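import Pool.Agent.FO2.Stmts

/-!
# From the algebraic form back to the polytope (module GE2)
-/

namespace FO2

open Lib_helper64.FO
open scoped RealInnerProductSpace Pointwise

namespace GE2

section

variable {d : ℕ} {P : Type} [PartialOrder P] {X Y : Type} [MulAction (P ≃o P) X]

/-- The action of the automorphisms on `Y`, twisted by the conjugation by `γ`. -/
def th (e : X ≃ Y) (γ : P ≃o P) : (P ≃o P) →* Equiv.Perm Y where
  toFun g :=
    { toFun := fun y => e (γ • g • γ⁻¹ • e.symm y)
      invFun := fun y => e (γ • g⁻¹ • γ⁻¹ • e.symm y)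
      left_inv := fun y => by simp
      right_inv := fun y => by simp }
  map_one' := by
    ext y
    simp
  map_mul' a b := by
    ext y
    simp [mul_smul]

theorem th_apply (e : X ≃ Y) (γ g : P ≃o P) (y : Y) :
    th e γ g y = e (γ • g • γ⁻¹ • e.symm y) := rfl

theorem th_inj (G : Geo d (P ≃o P) X) (e : X ≃ Y) (γ : P ≃o P) :
    Function.Injective (th e γ) := by
  rw [injective_iff_map_eq_one]
  intro g hg
  have h1 : γ * g * γ⁻¹ = 1 := by
    refine G.eq_one_of_fix ?_
    intro x
    have h2 := congrArg (fun p : Equiv.Perm Y => p (e x)) hg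
    have h3 : e (γ • g • γ⁻¹ • x) = e x := by
      simpa [th_apply] using h2
    rw [mul_smul, mul_smul]
    exact e.injective h3
  have h4 : γ * g = γ := by
    have := congrArg (fun z => z * γ) h1
    simpa using this
  exact mul_eq_left.1 h4

theorem th_rho (G : Geo d (P ≃o P) X) (e : X ≃ Y) (γ : P ≃o P) (S : SGen d Y)
    (h : ∀ (i : Fin d) (x : X), e ((γ * G.ρ i * γ⁻¹) • x) = S.σ i (e x)) (i : Fin d) :
    th e γ (G.ρ i) = S.σ i := by
  ext y
  rw [th_apply, ← mul_smul, ← mul_smul, h i, Equiv.apply_symm_apply]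

theorem map_gpar (G : Geo d (P ≃o P) X) (e : X ≃ Y) (γ : P ≃o P) (S : SGen d Y)
    (h : ∀ (i : Fin d) (x : X), e ((γ * G.ρ i * γ⁻¹) • x) = S.σ i (e x)) (I : Set ℕ) :
    (gpar G.ρ I).map (th e γ) = S.par {j | j.val ∈ I} := by
  rw [gpar, MonoidHom.map_closure]
  apply le_antisymm
  · rw [Subgroup.closure_le]
    rintro _ ⟨_, ⟨i, hi, rfl⟩, rfl⟩
    by_cases hd : i < d
    · rw [th_rho G e γ S h ⟨i, hd⟩]
      exact Subgroup.subset_closure ⟨⟨i, hd⟩, hi, rfl⟩
    · rw [G.one_of_ge i (not_lt.1 hd), map_one]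
      exact one_mem _
  · rw [SGen.par, Subgroup.closure_le]
    rintro _ ⟨j, hj, rfl⟩
    exact Subgroup.subset_closure ⟨G.ρ j, ⟨j.val, hj, rfl⟩, th_rho G e γ S h j⟩

end

section

variable {d : ℕ} {P : Type} [PartialOrder P] {rk : P → ℤ} {C : Flag P} {ρ : ℕ → (P ≃o P)}

/-- the stabiliser of the face of rank `i` of the flag -/
theorem stab_iff (hp : PolyGroup d rk C ρ) (i : ℕ) {x : P} (hx : x ∈ C) (hr : rk x = (i : ℤ))
    (hu : ∀ y ∈ C, rk y = (i : ℤ) → y = x) (g : P ≃o P) :
    g x = x ↔ g ∈ gpar ρ {j | j ≠ i} := by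
  constructor
  · intro h
    refine hp.stab _ g ?_
    intro y hy k hk hkI
    have hki : k = i := by
      by_contra hne
      exact hkI hne
    subst hki
    rw [hu y hy hk, h]
  · intro h
    have h1 : gpar ρ {j | j ≠ i} ≤ MulAction.stabilizer (P ≃o P) x := by
      rw [gpar, Subgroup.closure_le]
      rintro _ ⟨j, hj, rfl⟩
      refine hp.moves j x hx ?_
      rw [hr]
      intro hc
      exact hj (by exact_mod_cast hc.symm)
    exact h1 h

end

end GE2

open GE2 in
/-- GE2: from the algebraic form back to the polytope. -/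
theorem geo2 (h : StmtFlag) : StmtGeo2 := by
  intro d hd P _ _ rk hP f C ρ X _ G ι c hG Y S y0 F hM
  obtain ⟨γ, e, he0, hgen, hF⟩ := hM
  obtain ⟨huniq, hbd, hrk, hchain, -⟩ := h d P rk hP
  have hth : Function.Injective (th e γ) := th_inj G e γ
  -- the faces of the base flag
  have hex : ∀ i : Fin d, ∃ x ∈ C, rk x = (i.val : ℤ) := fun i =>
    hP.flags C (i.val : ℤ) (by omega) (by have := i.isLt; omega)
  choose fc hfC hfr using hex
  have hfu : ∀ (i : Fin d) (x : P), x ∈ C → rk x = (i.val : ℤ) → x = fc i := fun i x hx hr =>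
    huniq C x (fc i) hx (hfC i) (hr.trans (hfr i).symm)
  have hstab : ∀ (i : Fin d) (g : P ≃o P), g (fc i) = fc i ↔ g ∈ gpar ρ {j | j ≠ i.val} :=
    fun i g => stab_iff hG.poly i.val (hfC i) (hfr i)
      (fun y hy hr => hfu i y hy hr) g
  have hmap : ∀ i : Fin d, (gpar ρ {j | j ≠ i.val}).map (th e γ) = S.par {j | j ≠ i} := by
    intro i
    have h1 := map_gpar G e γ S hgen {j | j ≠ i.val}
    rw [hG.gens] at h1
    rw [h1]
    congr 1
    ext j
    simp [Fin.ext_iff]
  have hmapu : (⊤ : Subgroup (P ≃o P)).map (th e γ) = S.par Set.univ := by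
    have h1 := map_gpar G e γ S hgen Set.univ
    rw [G.gen] at h1
    rw [h1]
    congr 1
  -- every pair of comparable faces is in the image of the base flag
  have hreach : ∀ x y : P, x ≤ y → ∃ g : P ≃o P, (∀ i : Fin d, rk x = (i.val : ℤ) →
      γ (g (fc i)) = x) ∧ ∀ i : Fin d, rk y = (i.val : ℤ) → γ (g (fc i)) = y := by
    intro x y hxy
    obtain ⟨D, hD⟩ := hchain {x, y} (IsChain.pair hxy)
    obtain ⟨δ, hδ⟩ := hP.regular C D
    have key : ∀ z ∈ D, ∀ i : Fin d, rk z = (i.val : ℤ) → γ ((γ⁻¹ * δ) (fc i)) = z := by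
      intro z hz i hr
      have h1 : z ∈ (δ • C : Flag P) := by rw [hδ]; exact hz
      have h2 : z ∈ δ • (C : Set P) := by
        rw [← Flag.coe_smul]
        exact h1
      obtain ⟨w, hw, rfl⟩ := h2
      have h3 : rk w = (i.val : ℤ) := by
        rw [← hr]
        exact (hrk δ w).symm
      have h4 : w = fc i := hfu i w hw h3
      change γ ((γ⁻¹ * δ) (fc i)) = δ w
      rw [h4]
      change (γ * (γ⁻¹ * δ)) (fc i) = δ (fc i)
      rw [mul_inv_cancel_left]
    exact ⟨γ⁻¹ * δ, key x (hD (by simp)), key y (hD (by simp))⟩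
  -- the coset of a proper face
  have hcf : ∀ (i : Fin d) (x : P), rk x = (i.val : ℤ) → ∃ g ∈ S.par Set.univ,
      {p : Equiv.Perm Y | ∃ g : P ≃o P, p = th e γ g ∧ γ (g (fc i)) = x} =
        {p | ∃ h ∈ S.par {j | j ≠ i}, p = g * h} := by
    intro i x hx
    obtain ⟨g, hg, -⟩ := hreach x x le_rfl
    have hgx := hg i hx
    refine ⟨th e γ g, ?_, ?_⟩
    · rw [← hmapu]
      exact ⟨g, trivial, rfl⟩
    · ext p
      constructor
      · rintro ⟨g', rfl, hg'⟩
        refine ⟨th e γ (g⁻¹ * g'), ?_, ?_⟩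
        · rw [← hmap i]
          refine ⟨g⁻¹ * g', ?_, rfl⟩
          rw [SetLike.mem_coe, ← hstab]
          have h1 : g' (fc i) = g (fc i) := γ.injective (hg'.trans hgx.symm)
          change g⁻¹ (g' (fc i)) = fc i
          rw [h1]
          change (g⁻¹ * g) (fc i) = fc i
          rw [inv_mul_cancel]
          rfl
        · rw [← map_mul, mul_inv_cancel_left]
      · rintro ⟨k, hk, rfl⟩
        rw [← hmap i] at hk
        obtain ⟨m, hm, rfl⟩ := hk
        rw [SetLike.mem_coe, ← hstab] at hm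
        refine ⟨g * m, (map_mul _ _ _).symm, ?_⟩
        change γ (g (m (fc i))) = x
        rw [hm, hgx]
  let cf : ∀ (i : Fin d) (x : P), rk x = (i.val : ℤ) → CFace S := fun i x hx =>
    ⟨i, {p : Equiv.Perm Y | ∃ g : P ≃o P, p = th e γ g ∧ γ (g (fc i)) = x}, hcf i x hx⟩
  have htri : ∀ x : P, rk x = -1 ∨ rk x = d ∨ ∃ i : Fin d, rk x = (i.val : ℤ) := by
    intro x
    obtain ⟨h1, h2⟩ := hbd x
    by_cases ha : rk x = -1
    · exact Or.inl ha
    · by_cases hb : rk x = d
      · exact Or.inr (Or.inl hb)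
      · refine Or.inr (Or.inr ⟨⟨(rk x).toNat, by omega⟩, ?_⟩)
        change rk x = ((rk x).toNat : ℤ)
        omega
  have hex : ∀ x : P, ∃ z : CPos S, (rk x = -1 → z = ⊥) ∧ (rk x = d → z = ((⊤ : WithTop (CFace S)) : CPos S)) ∧
      ∀ (i : Fin d) (hx : rk x = (i.val : ℤ)), z = ((cf i x hx : WithTop (CFace S)) : CPos S) := by
    intro x
    rcases htri x with h1 | h1 | ⟨i, h1⟩
    · refine ⟨⊥, fun _ => rfl, fun h2 => ?_, fun j h2 => ?_⟩
      · exfalso; omega
      · exfalso; omega
    · refine ⟨((⊤ : WithTop (CFace S)) : CPos S), fun h2 => ?_, fun _ => rfl, fun j h2 => ?_⟩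
      · exfalso; omega
      · exfalso; have := j.isLt; omega
    · refine ⟨((cf i x h1 : WithTop (CFace S)) : CPos S), fun h2 => ?_, fun h2 => ?_, fun j h2 => ?_⟩
      · exfalso; omega
      · exfalso; have := i.isLt; omega
      · have hij : i = j := by
          apply Fin.ext
          omega
        subst hij
        rfl
  choose φ hφ1 hφ2 hφ3 using hex
  -- least and greatest faces
  obtain ⟨bt, hbt, hbr⟩ := hP.bot
  obtain ⟨tp, htp, htr⟩ := hP.top
  have hbot : ∀ x, rk x = -1 → x = bt := by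
    intro x hx
    by_contra hne
    have := hP.strict bt x (lt_of_le_of_ne (hbt x) (fun h => hne h.symm))
    omega
  have htop : ∀ x, rk x = d → x = tp := by
    intro x hx
    by_contra hne
    have := hP.strict x tp (lt_of_le_of_ne (htp x) hne)
    omega
  have hmono : ∀ x y : P, x ≤ y → rk x ≤ rk y := by
    intro x y hxy
    rcases eq_or_lt_of_le hxy with rfl | h1
    · exact le_rfl
    · exact (hP.strict x y h1).le
  have hfle : ∀ i j : Fin d, i ≤ j → fc i ≤ fc j := by
    intro i j hij
    rcases C.le_or_le (hfC i) (hfC j) with h1 | h1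
    · exact h1
    · rcases eq_or_lt_of_le h1 with h2 | h2
      · exact h2.ge
      · exfalso
        have h3 := hP.strict _ _ h2
        rw [hfr, hfr] at h3
        have h4 : i.val ≤ j.val := hij
        omega
  have hle : ∀ x y : P, φ x ≤ φ y ↔ x ≤ y := by
    intro x y
    rcases htri x with hx | hx | ⟨i, hx⟩
    · rw [hφ1 x hx, hbot x hx]
      exact iff_of_true bot_le (hbt y)
    · rcases htri y with hy | hy | ⟨j, hy⟩
      · rw [hφ2 x hx, hφ1 y hy]
        refine iff_of_false (fun h1 => ?_) (fun h1 => ?_)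
        · exact WithBot.coe_ne_bot (le_bot_iff.1 h1)
        · have := hmono x y h1
          omega
      · rw [htop x hx, htop y hy]
        exact iff_of_true le_rfl le_rfl
      · rw [hφ2 x hx, hφ3 y j hy]
        refine iff_of_false (fun h1 => ?_) (fun h1 => ?_)
        · rw [WithBot.coe_le_coe] at h1
          exact WithTop.coe_ne_top (top_le_iff.1 h1)
        · have := hmono x y h1
          have := j.isLt
          omega
    · rcases htri y with hy | hy | ⟨j, hy⟩
      · rw [hφ3 x i hx, hφ1 y hy]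
        refine iff_of_false (fun h1 => ?_) (fun h1 => ?_)
        · exact WithBot.coe_ne_bot (le_bot_iff.1 h1)
        · have := hmono x y h1
          omega
      · rw [hφ2 y hy, hφ3 x i hx, htop y hy]
        refine iff_of_true ?_ (htp x)
        rw [WithBot.coe_le_coe]
        exact le_top
      · rw [hφ3 x i hx, hφ3 y j hy, WithBot.coe_le_coe, WithTop.coe_le_coe, CFace.le_def]
        constructor
        · rintro ⟨h1, p, ⟨g, hg, hgx⟩, ⟨g', hg', hgy⟩⟩
          have h2 : g = g' := hth (hg.symm.trans hg')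
          subst h2
          rw [← hgx, ← hgy]
          exact γ.monotone (g.monotone (hfle i j h1))
        · intro h1
          refine ⟨?_, ?_⟩
          · have h2 := hmono x y h1
            change i ≤ j
            rw [Fin.le_def]
            omega
          · obtain ⟨g, hgx, hgy⟩ := hreach x y h1
            exact ⟨th e γ g, ⟨g, rfl, hgx i hx⟩, ⟨g, rfl, hgy j hy⟩⟩
  have hsurj : Function.Surjective φ := by
    intro z
    induction z using WithBot.recBotCoe with
    | bot => exact ⟨bt, hφ1 bt hbr⟩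
    | coe z =>
      induction z using WithTop.recTopCoe with
      | top => exact ⟨tp, hφ2 tp htr⟩
      | coe K =>
        obtain ⟨i, s, g0, hg0, hs⟩ := K
        rw [← hmapu] at hg0
        obtain ⟨g, -, rfl⟩ := hg0
        have hr : rk (γ (g (fc i))) = (i.val : ℤ) := by rw [hrk, hrk, hfr]
        refine ⟨γ (g (fc i)), ?_⟩
        rw [hφ3 _ i hr]
        congr 2
        refine CFace.ext' rfl ?_
        change {p : Equiv.Perm Y | ∃ g' : P ≃o P, p = th e γ g' ∧
          γ (g' (fc i)) = γ (g (fc i))} = s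
        rw [hs]
        ext p
        constructor
        · rintro ⟨g', rfl, hg'⟩
          refine ⟨th e γ (g⁻¹ * g'), ?_, ?_⟩
          · rw [← hmap i]
            refine ⟨g⁻¹ * g', ?_, rfl⟩
            rw [SetLike.mem_coe, ← hstab]
            have h1 : g' (fc i) = g (fc i) := γ.injective hg'
            change g⁻¹ (g' (fc i)) = fc i
            rw [h1]
            change (g⁻¹ * g) (fc i) = fc i
            rw [inv_mul_cancel]
            rfl
          · rw [← map_mul, mul_inv_cancel_left]
        · rintro ⟨k, hk, rfl⟩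
          have hk' : k ∈ S.par {j | j ≠ i} := hk
          rw [← hmap i] at hk'
          obtain ⟨m, hm, rfl⟩ := hk'
          rw [SetLike.mem_coe, ← hstab] at hm
          refine ⟨g * m, (map_mul _ _ _).symm, ?_⟩
          change γ (g (m (fc i))) = γ (g (fc i))
          rw [hm]
  refine ⟨c, RelIso.ofSurjective (OrderEmbedding.ofMapLEIff φ hle) hsurj, ?_, ?_⟩
  · intro x
    change rkC (φ x) = rk x
    rcases htri x with hx | hx | ⟨i, hx⟩
    · rw [hφ1 x hx, hx]
      rfl
    · rw [hφ2 x hx, hx]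
      rfl
    · rw [hφ3 x i hx, hx]
      rfl
  · intro v K hv hK g hg
    have hd0 : 0 < d := by omega
    have hv' : rk v = ((⟨0, hd0⟩ : Fin d).val : ℤ) := by rw [hv]; rfl
    have h1 : φ v = some (some K) := hK
    rw [hφ3 v ⟨0, hd0⟩ hv'] at h1
    have h2 : cf ⟨0, hd0⟩ v hv' = K := Option.some.inj (Option.some.inj h1)
    rw [← h2] at hg
    obtain ⟨m, rfl, hm⟩ := hg
    have h3 : e.symm y0 = γ • G.x0 := by rw [← he0, Equiv.symm_apply_apply]
    have h4 : ι G.x0 = fc ⟨0, hd0⟩ := hfu _ _ hG.base (hG.rank _)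
    have h5 : F (th e γ m y0) = G.f (γ • m • G.x0) := by
      rw [hF, th_apply, h3, inv_smul_smul]
    rw [h5, hG.fval, hG.equiv, hG.equiv, h4, hm]
    abel

end FO2
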