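import Pool.Agent.FO2.Stmts

/-!
# IB: the base of the irreducibility of the chain
-/

namespace FO2

open Lib_helper64.FO
open scoped RealInnerProductSpace

namespace IB

variable {d : ℕ} {Γ : Type} [Group Γ] {X : Type} [MulAction Γ X] (G : Geo d Γ X)

/-- an isometry which preserves a line -/
theorem pm_of_mem_span {A : E d ≃ₗᵢ[ℝ] E d} {u : E d} (h : A u ∈ Submodule.span ℝ {u}) :
    A u = u ∨ A u = -u := by
  obtain ⟨c, hc⟩ := Submodule.mem_span_singleton.1 h
  by_cases hu : u = 0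
  · subst hu
    left
    exact map_zero _
  have h1 : ‖A u‖ = ‖u‖ := A.norm_map u
  rw [← hc, norm_smul] at h1
  have h2 : ‖c‖ = 1 := by
    have h3 : 0 < ‖u‖ := norm_pos_iff.2 hu
    have h4 : (‖c‖ - 1) * ‖u‖ = 0 := by linarith
    rcases mul_eq_zero.1 h4 with h5 | h5
    · linarith
    · exact absurd h5 h3.ne'
  rw [Real.norm_eq_abs] at h2
  rcases eq_or_eq_neg_of_abs_eq h2 with h3 | h3
  · left
    rw [← hc, h3, one_smul]
  · right
    rw [← hc, h3, neg_one_smul]

/-- two lines preserved by `H_m`, spanning `U_m` -/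
structure Fr (G : Geo d Γ X) (m : ℕ) (u w : E d) : Prop where
  u_ne : u ≠ 0
  w_ne : w ≠ 0
  uU : u ∈ G.U m
  wU : w ∈ G.U m
  uw : ⟪u, w⟫ = (0 : ℝ)
  su : ∀ h ∈ G.Hi m, G.T h u = u ∨ G.T h u = -u
  sw : ∀ h ∈ G.Hi m, G.T h w = w ∨ G.T h w = -w
  dec : ∀ v, ∃ v0 ∈ G.V m, ∃ β γ : ℝ, v = v0 + β • u + γ • w

variable {G}

theorem Fr.symm {m : ℕ} {u w : E d} (F : Fr G m u w) : Fr G m w u where
  u_ne := F.w_ne
  w_ne := F.u_ne
  uU := F.wU
  wU := F.uU
  uw := by rw [real_inner_comm]; exact F.uw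
  su := F.sw
  sw := F.su
  dec := by
    intro v
    obtain ⟨v0, h0, β, γ, hv⟩ := F.dec v
    exact ⟨v0, h0, γ, β, by rw [hv]; abel⟩

variable (G)

theorem exists_line {i : ℕ} (C : Submodule ℝ (E d)) (hC : C ≤ G.U i)
    (hs : ∀ h ∈ G.Hi i, ∀ v ∈ C, G.T h v ∈ C) (h1 : Module.finrank ℝ C = 1) :
    ∃ c : E d, c ≠ 0 ∧ c ∈ G.U i ∧ C = Submodule.span ℝ {c} ∧
      ∀ h ∈ G.Hi i, G.T h c = c ∨ G.T h c = -c := by
  obtain ⟨⟨c, hc⟩, hne, hspan⟩ := finrank_eq_one_iff'.1 h1
  have hne' : c ≠ 0 := fun h => hne (Subtype.ext h)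
  have hCs : C = Submodule.span ℝ {c} := by
    apply le_antisymm
    · intro v hv
      obtain ⟨t, ht⟩ := hspan ⟨v, hv⟩
      rw [Submodule.mem_span_singleton]
      exact ⟨t, congrArg Subtype.val ht⟩
    · rw [Submodule.span_singleton_le_iff_mem]
      exact hc
  refine ⟨c, hne', hC hc, hCs, fun h hh => ?_⟩
  apply pm_of_mem_span
  rw [← hCs]
  exact hs h hh c hc

theorem stable_compl {i : ℕ} (C : Submodule ℝ (E d)) (hs : ∀ h ∈ G.Hi i, ∀ v ∈ C, G.T h v ∈ C) :
    ∀ h ∈ G.Hi i, ∀ v ∈ Cᗮ ⊓ G.U i, G.T h v ∈ Cᗮ ⊓ G.U i := by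
  intro h hh v hv
  refine ⟨?_, G.T_mem_U hh hv.2⟩
  rw [SetLike.mem_coe, Submodule.mem_orthogonal]
  intro b hb
  have h1 := hs h⁻¹ (inv_mem hh) b hb
  have h2 := (Submodule.mem_orthogonal _ _).1 hv.1 _ h1
  rw [← LinearIsometryEquiv.inner_map_map (G.T h), G.T_inv_apply hh.1] at h2
  exact h2

theorem finrank_U (i : ℕ) : Module.finrank ℝ (G.V i) + Module.finrank ℝ (G.U i) = d := by
  have h := Submodule.finrank_add_finrank_orthogonal (G.V i)
  rw [finrank_euclideanSpace_fin] at h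
  exact h

theorem exists_fr {m : ℕ} (hm : Module.finrank ℝ (G.U m) = 2) (hI : ¬ G.Irr m) :
    ∃ u w, Fr G m u w := by
  unfold Geo.Irr at hI
  push Not at hI
  obtain ⟨B, hB, hs, hb, ht⟩ := hI
  have h0 : 0 < Module.finrank ℝ B := by
    rw [Nat.pos_iff_ne_zero]
    intro h
    exact hb (Submodule.finrank_eq_zero.1 h)
  have h1 : Module.finrank ℝ B < 2 := by
    rw [← hm]
    exact Submodule.finrank_lt_finrank_of_lt (lt_of_le_of_ne hB ht)
  have h2 : Module.finrank ℝ B = 1 := by omega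
  have h3 := Submodule.finrank_add_inf_finrank_orthogonal hB
  obtain ⟨u, hu, huU, hBu, su⟩ := exists_line G B hB hs h2
  obtain ⟨w, hw, hwU, hBw, sw⟩ := exists_line G (Bᗮ ⊓ G.U m) inf_le_right
    (stable_compl G B hs) (by omega)
  have hwB : w ∈ Bᗮ := by
    have : w ∈ Bᗮ ⊓ G.U m := by rw [hBw]; exact Submodule.mem_span_singleton_self w
    exact this.1
  have huB : u ∈ B := by rw [hBu]; exact Submodule.mem_span_singleton_self u
  refine ⟨u, w, hu, hw, huU, hwU, (Submodule.mem_orthogonal _ _).1 hwB u huB, su, sw, ?_⟩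
  intro v
  obtain ⟨v0, hv0, v1, hv1, e1⟩ := Submodule.exists_add_mem_mem_orthogonal (K := G.V m) v
  obtain ⟨b, hbB, b', hb', e2⟩ := Submodule.exists_add_mem_mem_orthogonal (K := B) v1
  have hb'' : b' ∈ Bᗮ ⊓ G.U m := by
    refine ⟨hb', ?_⟩
    have : b' = v1 - b := by rw [e2]; abel
    rw [this]
    exact Submodule.sub_mem _ hv1 (hB hbB)
  rw [hBw] at hb''
  rw [hBu] at hbB
  obtain ⟨β, hβ⟩ := Submodule.mem_span_singleton.1 hbB
  obtain ⟨γ, hγ⟩ := Submodule.mem_span_singleton.1 hb''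
  exact ⟨v0, hv0, β, γ, by rw [e1, e2, hβ, hγ]; abel⟩

/-! ### counting -/

theorem card_le_two {A B : Subgroup Γ} [Finite Γ] (hAB : A ≤ B)
    (h : ∀ g ∈ B, ∀ k ∈ B, g ∉ A → k ∉ A → g⁻¹ * k ∈ A) : Nat.card B ≤ 2 * Nat.card A := by
  classical
  by_cases hE : ∃ y ∈ B, y ∉ A
  · obtain ⟨y, hyB, hyA⟩ := hE
    let f : B → A × Bool := fun b => if hb : (b : Γ) ∈ A then (⟨b, hb⟩, true) else
      (⟨y⁻¹ * b, h y hyB b b.2 hyA hb⟩, false)
    have hf : Function.Injective f := by
      intro a b hab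
      by_cases ha : (a : Γ) ∈ A <;> by_cases hb : (b : Γ) ∈ A <;>
        simp [f, ha, hb] at hab
      · exact hab
      · exact hab
    have h1 := Nat.card_le_card_of_injective f hf
    rw [Nat.card_prod, Nat.card_eq_fintype_card (α := Bool), Fintype.card_bool] at h1
    omega
  · push Not at hE
    have : A = B := le_antisymm hAB hE
    rw [this]
    omega

theorem two_le_card {A B : Subgroup Γ} [Finite Γ] (hAB : A ≤ B) {y : Γ} (hyB : y ∈ B)
    (hyA : y ∉ A) : 2 * Nat.card A ≤ Nat.card B := by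
  classical
  let f : A × Bool → B := fun p => if p.2 then ⟨p.1, hAB p.1.2⟩ else
    ⟨y * p.1, mul_mem hyB (hAB p.1.2)⟩
  have hf : Function.Injective f := by
    rintro ⟨a, s⟩ ⟨b, t⟩ hab
    have key : ∀ a b : A, (a : Γ) ≠ y * b := by
      intro a b h
      apply hyA
      have : y = a * (b : Γ)⁻¹ := by rw [h]; group
      rw [this]
      exact mul_mem a.2 (inv_mem b.2)
    cases s <;> cases t <;> simp [f] at hab
    · rw [hab]
    · exact absurd hab.symm (key b a)
    · exact absurd hab (key a b)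
    · rw [hab]
  have h1 := Nat.card_le_card_of_injective f hf
  rw [Nat.card_prod, Nat.card_eq_fintype_card (α := Bool), Fintype.card_bool] at h1
  omega

/-- case A: there is no line in `V_(l + 1)` orthogonal to `V_l` which is preserved by `H_l` -/
theorem caseA0 [Finite Γ] (hc : Chain G) {l : ℕ} (hl : l + 3 ≤ d)
    {y : Γ} (hy : y ∉ G.H) (hyu : y ∈ G.up (l + 1)) {e : E d} (he : e ≠ 0) (heU : e ∈ G.U l)
    (heV : e ∈ G.V (l + 1)) (se : ∀ h ∈ G.Hi l, G.T h e = e ∨ G.T h e = -e) : False := by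
  have hle : G.V l ≤ G.V (l + 1) := G.V_mono (Nat.le_succ l)
  have d1 : Module.finrank ℝ (G.V l) = l := hc.dim l (by omega)
  have d2 : Module.finrank ℝ (G.V (l + 1)) = l + 1 := hc.dim (l + 1) (by omega)
  have h3 := Submodule.finrank_add_inf_finrank_orthogonal hle
  let C : Submodule ℝ (E d) := (G.V l)ᗮ ⊓ G.V (l + 1)
  have hC1 : Module.finrank ℝ C = 1 := by
    change Module.finrank ℝ ((G.V l)ᗮ ⊓ G.V (l + 1) : Submodule ℝ (E d)) = 1
    omega
  have heC : e ∈ C := ⟨heU, heV⟩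
  have hCe : ∀ v ∈ C, ∃ t : ℝ, t • e = v := by
    intro v hv
    have h1 := (finrank_eq_one_iff_of_nonzero' (⟨e, heC⟩ : C)
      (fun h => he (congrArg Subtype.val h))).1 hC1 ⟨v, hv⟩
    obtain ⟨t, ht⟩ := h1
    exact ⟨t, congrArg Subtype.val ht⟩
  -- fixed `e` implies in `H_(l + 1)`
  have hfix : ∀ k ∈ G.Hi l, G.T k e = e → k ∈ G.Hi (l + 1) := by
    intro k hk hke
    refine hc.Hi_of_fix l k hk.1 ?_
    intro v hv
    obtain ⟨v0, hv0, v1, hv1, e1⟩ := Submodule.exists_add_mem_mem_orthogonal (K := G.V l) v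
    have h1 : v1 ∈ C := by
      refine ⟨hv1, ?_⟩
      have : v1 = v - v0 := by rw [e1]; abel
      rw [SetLike.mem_coe, this]
      exact Submodule.sub_mem _ hv (hle hv0)
    obtain ⟨t, ht⟩ := hCe v1 h1
    rw [e1, map_add, hv0 k hk, ← ht, map_smul, hke]
  have c1 : Nat.card (G.Hi l) ≤ 2 * Nat.card (G.Hi (l + 1)) := by
    refine card_le_two (G.Hi_anti (Nat.le_succ l)) ?_
    intro g hg k hk hgn hkn
    refine hfix _ (mul_mem (inv_mem hg) hk) ?_
    have e1 : G.T g e = -e := (se g hg).resolve_left fun h0 => hgn (hfix g hg h0)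
    have e2 : G.T k e = -e := (se k hk).resolve_left fun h0 => hkn (hfix k hk h0)
    rw [G.T_mul_apply (inv_mem hg.1) hk.1, e2, ← e1, G.T_inv_apply' hg.1]
  have c2 : Nat.card (G.up l) ≤ 2 * Nat.card (G.Hi l) := by
    refine card_le_two inf_le_right ?_
    intro g hg k hk hgn hkn
    have h5 : g⁻¹ * k ∈ G.up l := mul_mem (inv_mem hg) hk
    refine ⟨?_, h5⟩
    exact G.mul_mem_of_not (fun h1 => hgn ⟨G.H.inv_mem_iff.1 h1, hg⟩)
      (fun h1 => hkn ⟨h1, hk⟩)
  have c3 : 2 * Nat.card (G.Hi (l + 1)) ≤ Nat.card (G.up (l + 1)) :=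
    two_le_card inf_le_right hyu (fun h1 => hy h1.1)
  have c4 := hc.card l (by omega)
  have c5 : 0 < Nat.card (G.up (l + 1)) := Nat.card_pos
  omega

/-- case A: `V_(l + 1)` is not preserved by `H_l` -/
theorem caseA [Finite Γ] (hc : Chain G) {l : ℕ} (hl : l + 3 ≤ d)
    {y : Γ} (hy : y ∉ G.H) (hyu : y ∈ G.up (l + 1))
    (h : ∀ h ∈ G.Hi l, ∀ v ∈ G.V (l + 1), G.T h v ∈ G.V (l + 1)) : False := by
  have hle : G.V l ≤ G.V (l + 1) := G.V_mono (Nat.le_succ l)
  have d1 : Module.finrank ℝ (G.V l) = l := hc.dim l (by omega)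
  have d2 : Module.finrank ℝ (G.V (l + 1)) = l + 1 := hc.dim (l + 1) (by omega)
  have h3 := Submodule.finrank_add_inf_finrank_orthogonal hle
  obtain ⟨e, he, heU, hCe, se⟩ := exists_line G ((G.V l)ᗮ ⊓ G.V (l + 1)) inf_le_left
    (fun k hk v hv => ⟨G.T_mem_U hk hv.1, h k hk v hv.2⟩) (by omega)
  have heC : e ∈ (G.V l)ᗮ ⊓ G.V (l + 1) := by
    rw [hCe]
    exact Submodule.mem_span_singleton_self e
  exact caseA0 G hc hl hy hyu he heU heC.2 se

/-- equality of two elements of `H_m` -/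
theorem Fr.ext {G : Geo d Γ X} {m : ℕ} {u w : E d} (F : Fr G m u w) {g h : Γ} (hg : g ∈ G.Hi m)
    (hh : h ∈ G.Hi m) (h1 : G.T g u = G.T h u) (h2 : G.T g w = G.T h w) : g = h := by
  refine G.T_inj hg.1 hh.1 (LinearIsometryEquiv.ext fun v => ?_)
  obtain ⟨v0, h0, β, γ, hv⟩ := F.dec v
  rw [hv]
  simp only [map_add, map_smul]
  rw [h0 g hg, h0 h hh, h1, h2]

/-- `H_m` is commutative -/
theorem Fr.comm {G : Geo d Γ X} {m : ℕ} {u w : E d} (F : Fr G m u w) {g h : Γ} (hg : g ∈ G.Hi m)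
    (hh : h ∈ G.Hi m) : g * h = h * g := by
  refine F.ext (mul_mem hg hh) (mul_mem hh hg) ?_ ?_
  · rw [G.T_mul_apply hg.1 hh.1, G.T_mul_apply hh.1 hg.1]
    rcases F.su g hg with h1 | h1 <;> rcases F.su h hh with h2 | h2 <;> simp [h1, h2]
  · rw [G.T_mul_apply hg.1 hh.1, G.T_mul_apply hh.1 hg.1]
    rcases F.sw g hg with h1 | h1 <;> rcases F.sw h hh with h2 | h2 <;> simp [h1, h2]

/-- exponent two -/
theorem Fr.sq {G : Geo d Γ X} {m : ℕ} {u w : E d} (F : Fr G m u w) {g : Γ} (hg : g ∈ G.Hi m) :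
    g * g = 1 := by
  refine F.ext (mul_mem hg hg) (one_mem _) ?_ ?_
  · rw [G.T_mul_apply hg.1 hg.1, G.T_one]
    rcases F.su g hg with h1 | h1 <;> simp [h1]
  · rw [G.T_mul_apply hg.1 hg.1, G.T_one]
    rcases F.sw g hg with h1 | h1 <;> simp [h1]

/-- one of the last two generators is in `H`, the other is not -/
structure YZ (G : Geo d Γ X) (m : ℕ) (y z : Γ) : Prop where
  yH : y ∉ G.H
  zH : z ∈ G.H
  yu : y ∈ G.up m
  zu : z ∈ G.up m
  y2 : y * y = 1
  z2 : z * z = 1
  yz : y * z ≠ z * y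
  cen : ∀ k : Γ, k * y = y * k → k * z = z * k → k * G.ρ m = G.ρ m * k ∧
    k * G.ρ (m + 1) = G.ρ (m + 1) * k

theorem exists_yz (hc : Chain G) {m : ℕ} (hm : m + 1 < d) {u w : E d} (F : Fr G m u w) :
    ∃ y z, YZ G m y z := by
  have hs := G.ρ_mem_up (le_refl m)
  have ht := G.ρ_mem_up (Nat.le_succ m)
  have hn := hc.not_comm m hm
  by_cases h1 : G.ρ m ∈ G.H
  · by_cases h2 : G.ρ (m + 1) ∈ G.H
    · exact absurd (F.comm ⟨h1, hs⟩ ⟨h2, ht⟩) hn
    · exact ⟨G.ρ (m + 1), G.ρ m, h2, h1, ht, hs, G.sq _, G.sq _, fun h => hn h.symm,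
        fun k h3 h4 => ⟨h4, h3⟩⟩
  · by_cases h2 : G.ρ (m + 1) ∈ G.H
    · exact ⟨G.ρ m, G.ρ (m + 1), h1, h2, hs, ht, G.sq _, G.sq _, hn,
        fun k h3 h4 => ⟨h3, h4⟩⟩
    · have h3 := F.sq (g := G.ρ m * G.ρ (m + 1)) ⟨G.mul_mem_of_not h1 h2, mul_mem hs ht⟩
      exfalso
      apply hn
      have h4 := eq_inv_of_mul_eq_one_left h3
      rw [mul_inv_rev, G.inv_ρ, G.inv_ρ] at h4
      exact h4

theorem YZ.conj_mem {G : Geo d Γ X} {m : ℕ} {y z : Γ} (Y : YZ G m y z) {i : ℕ} (hi : i ≤ m)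
    {k : Γ} (hk : k ∈ G.Hi i) : y * k * y ∈ G.Hi i := by
  have hyi : y⁻¹ = y := inv_eq_of_mul_eq_one_left Y.y2
  have h1 := G.conj_mem y hk.1
  rw [hyi] at h1
  exact ⟨h1, mul_mem (mul_mem (G.up_anti hi Y.yu) hk.2) (G.up_anti hi Y.yu)⟩

/-- the reflection in `u` is in `H_m` -/
theorem exists_k {m : ℕ} {u w : E d} (F : Fr G m u w) {y z : Γ} (Y : YZ G m y z) :
    ∃ k ∈ G.Hi m, G.T k u = -u ∧ G.T k w = w := by
  have hz : z ∈ G.Hi m := ⟨Y.zH, Y.zu⟩
  have hz' : y * z * y ∈ G.Hi m := Y.conj_mem le_rfl hz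
  have hz1 : z ≠ 1 := by
    intro h
    exact Y.yz (by rw [h, mul_one, one_mul])
  have hz1' : y * z * y ≠ 1 := by
    intro h
    apply hz1
    calc z = (y * y) * z * (y * y) := by rw [Y.y2, one_mul, mul_one]
      _ = y * (y * z * y) * y := by group
      _ = 1 := by rw [h, mul_one, Y.y2]
  have hzz : z ≠ y * z * y := by
    intro h
    apply Y.yz
    calc y * z = y * (y * z * y) := by rw [← h]
      _ = (y * y) * z * y := by group
      _ = z * y := by rw [Y.y2, one_mul]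
  generalize y * z * y = z' at hz' hz1' hzz
  have hone : ∀ g ∈ G.Hi m, g ≠ 1 → G.T g u = u → G.T g w = w → False := by
    intro g hg hg1 h1 h2
    exact hg1 (F.ext hg (one_mem _) (by rw [h1, G.T_one]; rfl) (by rw [h2, G.T_one]; rfl))
  have hne : G.T z u = G.T z' u → G.T z w = G.T z' w → False := fun h1 h2 =>
    hzz (F.ext hz hz' h1 h2)
  have hprod : ∀ v, G.T (z * z') v = G.T z (G.T z' v) := fun v => G.T_mul_apply hz.1 hz'.1 v
  rcases F.su z hz with a | a <;> rcases F.sw z hz with b | b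
  · exact absurd (hone z hz hz1 a b) not_false
  · rcases F.su z' hz' with a' | a' <;> rcases F.sw z' hz' with b' | b'
    · exact absurd (hone z' hz' hz1' a' b') not_false
    · exact absurd (hne (by rw [a, a']) (by rw [b, b'])) not_false
    · exact ⟨z', hz', a', b'⟩
    · exact ⟨z * z', mul_mem hz hz', by rw [hprod, a', map_neg, a], by
        rw [hprod, b', map_neg, b, neg_neg]⟩
  · exact ⟨z, hz, a, b⟩
  · rcases F.su z' hz' with a' | a' <;> rcases F.sw z' hz' with b' | b'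
    · exact absurd (hone z' hz' hz1' a' b') not_false
    · exact ⟨z * z', mul_mem hz hz', by rw [hprod, a', a], by
        rw [hprod, b', map_neg, b, neg_neg]⟩
    · exact ⟨z', hz', a', b'⟩
    · exact absurd (hne (by rw [a, a']) (by rw [b, b'])) not_false

/-- case B: the line of `u` is not preserved by `H_(m - 1)` -/
theorem caseB [Finite Γ] (hc : Chain G) {l : ℕ} (hl : l + 3 = d) {u w : E d}
    (F : Fr G (l + 1) u w) {y z : Γ} (Y : YZ G (l + 1) y z)
    (hu : ∀ h ∈ G.Hi l, G.T h u = u ∨ G.T h u = -u) : False := by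
  obtain ⟨k, hk, k1, k2⟩ := exists_k G F Y
  have huV : ∀ v ∈ G.V (l + 1), ⟪u, v⟫ = (0 : ℝ) := by
    intro v hv
    rw [real_inner_comm]
    exact (Submodule.mem_orthogonal _ _).1 F.uU v hv
  have huu : ⟪u, u⟫ ≠ (0 : ℝ) := by
    rw [real_inner_self_eq_norm_sq]
    have := norm_pos_iff.2 F.u_ne
    positivity
  -- `T k` is a reflection
  have hrefl : ∀ v, G.T k v = v - (2 * ⟪u, v⟫ / ⟪u, u⟫) • u := by
    intro v
    obtain ⟨v0, h0, β, γ, hv⟩ := F.dec v
    have e1 : ⟪u, v⟫ = β * ⟪u, u⟫ := by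
      rw [hv, inner_add_right, inner_add_right, inner_smul_right, inner_smul_right, huV v0 h0,
        F.uw]
      ring
    have e2 : 2 * ⟪u, v⟫ / ⟪u, u⟫ = 2 * β := by
      rw [e1]
      field_simp
    rw [e2, hv]
    simp only [map_add, map_smul]
    rw [h0 k hk, k1, k2]
    module
  have hkne : k ≠ 1 := by
    intro h
    rw [h, G.T_one] at k1
    have h1 : u = -u := k1
    have h2 : (2 : ℝ) • u = 0 := by
      have h3 : (2 : ℝ) • u = u - (-u) := by module
      rw [h3, ← h1, sub_self]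
    rcases smul_eq_zero.1 h2 with h3 | h3
    · norm_num at h3
    · exact F.u_ne h3
  -- `k` commutes with `H_l`
  have hkl : k ∈ G.Hi l := G.Hi_anti (Nat.le_succ l) hk
  have hcom : ∀ h ∈ G.Hi l, k * h = h * k := by
    intro h hh
    refine G.T_inj (mul_mem hk.1 hh.1) (mul_mem hh.1 hk.1) (LinearIsometryEquiv.ext fun v => ?_)
    rw [G.T_mul_apply hk.1 hh.1, G.T_mul_apply hh.1 hk.1, hrefl v, hrefl (G.T h v), map_sub,
      map_smul]
    rcases hu h hh with h1 | h1
    · have e1 : ⟪u, G.T h v⟫ = ⟪u, v⟫ := by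
        conv_lhs => rw [← h1]
        exact LinearIsometryEquiv.inner_map_map _ _ _
      rw [e1, h1]
    · have e1 : ⟪u, G.T h v⟫ = -⟪u, v⟫ := by
        have h2 : u = -G.T h u := by rw [h1, neg_neg]
        conv_lhs => rw [h2]
        rw [inner_neg_left, LinearIsometryEquiv.inner_map_map]
      rw [e1, h1]
      module
  have hk' : y * k * y ∈ G.Hi (l + 1) := Y.conj_mem le_rfl hk
  have hcom' : ∀ h ∈ G.Hi l, (y * k * y) * h = h * (y * k * y) := by
    intro h hh
    have h1 := hcom _ (Y.conj_mem (Nat.le_succ l) hh)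
    calc (y * k * y) * h = y * (k * (y * h * y)) * y := by
          have : y * (k * (y * h * y)) * y = y * k * y * h * (y * y) := by group
          rw [this, Y.y2, mul_one]
      _ = y * ((y * h * y) * k) * y := by rw [h1]
      _ = (y * y) * h * (y * k * y) := by group
      _ = h * (y * k * y) := by rw [Y.y2, one_mul]
  by_cases hkk : y * k * y = k
  · -- `k` is central
    have hky : k * y = y * k := by
      calc k * y = (y * k * y) * y := by rw [hkk]
        _ = y * k * (y * y) := by group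
        _ = y * k := by rw [Y.y2, mul_one]
    have hkz : k * z = z * k := hcom z (G.Hi_anti (Nat.le_succ l) ⟨Y.zH, Y.zu⟩)
    obtain ⟨hm, hm1⟩ := Y.cen k hky hkz
    have hρ : ∀ j, k * G.ρ j = G.ρ j * k := by
      intro j
      rcases lt_trichotomy j l with hj | hj | hj
      · exact (G.comm_up (by omega : j + 2 ≤ l + 1) hk.2).symm
      · subst hj
        by_cases h1 : G.ρ j ∈ G.H
        · exact hcom _ ⟨h1, G.ρ_mem_up le_rfl⟩
        · have h2 := hcom (G.ρ j * y) ⟨G.mul_mem_of_not h1 Y.yH,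
            mul_mem (G.ρ_mem_up le_rfl) (G.up_anti (Nat.le_succ j) Y.yu)⟩
          calc k * G.ρ j = (k * (G.ρ j * y)) * y := by
                have : (k * (G.ρ j * y)) * y = k * G.ρ j * (y * y) := by group
                rw [this, Y.y2, mul_one]
            _ = ((G.ρ j * y) * k) * y := by rw [h2]
            _ = G.ρ j * (y * k) * y := by group
            _ = G.ρ j * (k * y) * y := by rw [hky]
            _ = G.ρ j * k * (y * y) := by group
            _ = G.ρ j * k := by rw [Y.y2, mul_one]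
      · by_cases h1 : j = l + 1
        · rw [h1]; exact hm
        · by_cases h2 : j = l + 2
          · rw [h2]; exact hm1
          · rw [G.one_of_ge j (by omega), one_mul, mul_one]
    have hcen : ∀ g : Γ, k * g = g * k := by
      intro g
      have h1 : gpar G.ρ Set.univ ≤ Subgroup.centralizer ({k} : Set Γ) := by
        rw [gpar, Subgroup.closure_le]
        rintro _ ⟨j, -, rfl⟩
        rw [SetLike.mem_coe, Subgroup.mem_centralizer_iff]
        intro h' hh
        rw [Set.mem_singleton_iff] at hh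
        subst hh
        exact hρ j
      have h2 : g ∈ gpar G.ρ Set.univ := by rw [G.gen]; exact Subgroup.mem_top g
      exact Subgroup.mem_centralizer_iff.1 (h1 h2) k rfl
    apply hkne
    apply G.eq_one_of_fix
    intro x
    obtain ⟨g, rfl⟩ := G.trans x
    rw [← mul_smul, hcen, mul_smul, G.up_fix_x0 (G.up_anti (by omega : 1 ≤ l + 1) hk.2)]
  · -- `V_(l + 1)` is preserved
    refine caseA G hc (le_of_eq hl) Y.yH Y.yu ?_
    have k2' : G.T (y * k * y) w = -w := by
      refine (F.sw _ hk').resolve_left fun h1 => ?_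
      rcases F.su _ hk' with h2 | h2
      · have h3 : y * k * y = 1 := F.ext hk' (one_mem _) (by rw [h2, G.T_one]; rfl)
          (by rw [h1, G.T_one]; rfl)
        apply hkne
        calc k = (y * y) * k * (y * y) := by rw [Y.y2, one_mul, mul_one]
          _ = y * (y * k * y) * y := by group
          _ = 1 := by rw [h3, mul_one, Y.y2]
      · exact hkk (F.ext hk' hk (by rw [h2, k1]) (by rw [h1, k2]))
    intro h hh v hv
    have hfix1 : G.T k (G.T h v) = G.T h v := by
      rw [← G.T_mul_apply hk.1 hh.1, hcom h hh, G.T_mul_apply hh.1 hk.1, hv k hk]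
    have hfix2 : G.T (y * k * y) (G.T h v) = G.T h v := by
      rw [← G.T_mul_apply hk'.1 hh.1, hcom' h hh, G.T_mul_apply hh.1 hk'.1, hv _ hk']
    obtain ⟨v0, h0, β, γ, e⟩ := F.dec (G.T h v)
    rw [e] at hfix1 hfix2 ⊢
    simp only [map_add, map_smul] at hfix1 hfix2
    rw [h0 k hk, k1, k2] at hfix1
    rw [h0 _ hk', k2'] at hfix2
    have e1 : (2 * β) • u = 0 := by
      have : (2 * β) • u = (v0 + β • u + γ • w) - (v0 + β • (-u) + γ • w) := by module
      rw [this, hfix1, sub_self]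
    have hβ : β = 0 := by
      rcases smul_eq_zero.1 e1 with h1 | h1
      · linarith
      · exact absurd h1 F.u_ne
    rw [hβ, zero_smul, zero_smul] at hfix2
    have e2 : (2 * γ) • w = 0 := by
      have : (2 * γ) • w = (v0 + 0 + γ • w) - (v0 + 0 + γ • (-w)) := by module
      rw [this, hfix2, sub_self]
    have hγ : γ = 0 := by
      rcases smul_eq_zero.1 e2 with h1 | h1
      · linarith
      · exact absurd h1 F.w_ne
    rw [hβ, hγ, zero_smul, zero_smul, add_zero, add_zero]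
    exact h0

end IB

theorem irrBase : StmtIrrBase := by
  intro d Γ _ _ X _ G hd hc hI
  obtain ⟨l, rfl⟩ : ∃ l, d = l + 3 := ⟨d - 3, by omega⟩
  have e1 : l + 3 - 2 = l + 1 := by omega
  have e2 : l + 3 - 3 = l := by omega
  rw [e1] at hI
  rw [e2]
  by_contra hI2
  have d1 : Module.finrank ℝ (G.V l) = l := hc.dim l (by omega)
  have d2 : Module.finrank ℝ (G.V (l + 1)) = l + 1 := hc.dim (l + 1) (by omega)
  have f1 := IB.finrank_U G l
  have f2 := IB.finrank_U G (l + 1)
  obtain ⟨u, w, F⟩ := IB.exists_fr G (m := l + 1) (by omega) hI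
  obtain ⟨y, z, Y⟩ := IB.exists_yz G hc (by omega) F
  -- a line in `U_l`
  obtain ⟨c, hc0, hcU, hcs⟩ : ∃ c : E (l + 3), c ≠ 0 ∧ c ∈ G.U l ∧
      ∀ h ∈ G.Hi l, G.T h c = c ∨ G.T h c = -c := by
    unfold Geo.Irr at hI2
    push Not at hI2
    obtain ⟨C, hC, hs, hb, ht⟩ := hI2
    have h0 : 0 < Module.finrank ℝ C := by
      rw [Nat.pos_iff_ne_zero]
      intro h
      exact hb (Submodule.finrank_eq_zero.1 h)
    have h1 : Module.finrank ℝ C < Module.finrank ℝ (G.U l) :=
      Submodule.finrank_lt_finrank_of_lt (lt_of_le_of_ne hC ht)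
    have h3 := Submodule.finrank_add_inf_finrank_orthogonal hC
    by_cases h4 : Module.finrank ℝ C = 1
    · obtain ⟨c, h5, h7, -, h6⟩ := IB.exists_line G C hC hs h4
      exact ⟨c, h5, h7, h6⟩
    · obtain ⟨c, h5, h7, -, h6⟩ := IB.exists_line G (Cᗮ ⊓ G.U l) inf_le_right
        (IB.stable_compl G C hs) (by omega)
      exact ⟨c, h5, h7, h6⟩
  obtain ⟨k, hk, k1, k2⟩ := IB.exists_k G F Y
  obtain ⟨k', hk', k1', k2'⟩ := IB.exists_k G F.symm Y
  obtain ⟨v0, h0, β, γ, hv⟩ := F.dec c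
  have hkc : G.T k c = v0 - β • u + γ • w := by
    rw [hv]
    simp only [map_add, map_smul]
    rw [h0 k hk, k1, k2]
    module
  have hkc' : G.T k' c = v0 + β • u - γ • w := by
    rw [hv]
    simp only [map_add, map_smul]
    rw [h0 k' hk', k1', k2']
    module
  -- a multiple of a vector
  have hscal : ∀ (t : ℝ) (q : E (l + 3)), c = t • q →
      ∀ h ∈ G.Hi l, G.T h q = q ∨ G.T h q = -q := by
    intro t q hq h hh
    have ht : t ≠ 0 := by
      intro h1
      exact hc0 (by rw [hq, h1, zero_smul])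
    have hq2 : q = t⁻¹ • c := by rw [hq, smul_smul, inv_mul_cancel₀ ht, one_smul]
    rcases hcs h hh with h1 | h1
    · left
      rw [hq2, map_smul, h1]
    · right
      rw [hq2, map_smul, h1, smul_neg]
  have htwo : ∀ q : E (l + 3), (2 : ℝ) • q = 0 → q = 0 := by
    intro q hq
    rcases smul_eq_zero.1 hq with h1 | h1
    · norm_num at h1
    · exact h1
  rcases hcs k (G.Hi_anti (Nat.le_succ l) hk) with a | a
  · have hβ : β • u = 0 := by
      apply htwo
      have : (2 : ℝ) • (β • u) = (v0 + β • u + γ • w) - (v0 - β • u + γ • w) := by module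
      rw [this, ← hv, ← hkc, a, sub_self]
    rcases hcs k' (G.Hi_anti (Nat.le_succ l) hk') with b | b
    · have hγ : γ • w = 0 := by
        apply htwo
        have : (2 : ℝ) • (γ • w) = (v0 + β • u + γ • w) - (v0 + β • u - γ • w) := by module
        rw [this, ← hv, ← hkc', b, sub_self]
      have hcv : c = v0 := by rw [hv, hβ, hγ, add_zero, add_zero]
      exact IB.caseA0 G hc le_rfl Y.yH Y.yu hc0 hcU (by rw [hcv]; exact h0) hcs
    · have h1 : v0 + β • u = 0 := by
        apply htwo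
        have : (2 : ℝ) • (v0 + β • u) = (v0 + β • u + γ • w) + (v0 + β • u - γ • w) := by module
        rw [this, ← hv, ← hkc', b, add_neg_cancel]
      refine IB.caseB G hc rfl F.symm Y (hscal γ w ?_)
      rw [hv, h1, zero_add]
  · have h1 : v0 + γ • w = 0 := by
      apply htwo
      have : (2 : ℝ) • (v0 + γ • w) = (v0 + β • u + γ • w) + (v0 - β • u + γ • w) := by module
      rw [this, ← hv, ← hkc, a, add_neg_cancel]
    refine IB.caseB G hc rfl F Y (hscal β u ?_)
    rw [hv]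
    have : v0 + β • u + γ • w = (v0 + γ • w) + β • u := by abel
    rw [this, h1, zero_add]

end FO2
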