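import Pool.Agent.FO2.Stmts
import Pool.Agent.Lib_helper64.FO.Ext

/-!
# The case `ρ 0 ∈ H` with an orthogonal frame (module IIF)
-/

namespace FO2

open Lib_helper64.FO
open scoped RealInnerProductSpace

namespace IIF

variable {d : ℕ} {Γ : Type} [Group Γ] {X : Type} [MulAction Γ X] (G : Geo d Γ X)

theorem ρ_inv_eq (j : ℕ) : (G.ρ j)⁻¹ = G.ρ j := inv_eq_of_mul_eq_one_left (G.sq j)

/-- conjugation by an element of `up i` preserves `Hi i` -/
theorem conj_Hi {i : ℕ} {α h : Γ} (hα : α ∈ G.up i) (hh : h ∈ G.Hi i) : α * h * α⁻¹ ∈ G.Hi i :=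
  ⟨G.conj_mem α hh.1, (G.up i).mul_mem ((G.up i).mul_mem hα hh.2) ((G.up i).inv_mem hα)⟩

theorem conj_Hi_iff {i : ℕ} {α h : Γ} (hα : α ∈ G.up i) : α * h * α⁻¹ ∈ G.Hi i ↔ h ∈ G.Hi i := by
  constructor
  · intro hh
    have h1 := conj_Hi G (inv_mem hα) hh
    have e : α⁻¹ * (α * h * α⁻¹) * α⁻¹⁻¹ = h := by group
    rwa [e] at h1
  · exact conj_Hi G hα

/-- `H` is generated by `H_1` and `ρ 0` if `ρ 0 ∈ H` and some `ρ j ∉ H`, `j ≥ 2` -/
theorem gen_H {j : ℕ} (hj : 2 ≤ j) (h0 : G.ρ 0 ∈ G.H) (hα : G.ρ j ∉ G.H) :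
    Subgroup.closure ((G.Hi 1 : Set Γ) ∪ {G.ρ 0}) = G.H := by
  set K := Subgroup.closure ((G.Hi 1 : Set Γ) ∪ {G.ρ 0}) with hK
  set α := G.ρ j with hαd
  have hup : α ∈ G.up 1 := G.ρ_mem_up (by omega)
  have hαα : α * α = 1 := G.sq j
  have hαi : α⁻¹ = α := ρ_inv_eq G j
  have hK1 : ∀ h ∈ G.Hi 1, h ∈ K := fun h hh => Subgroup.subset_closure (Or.inl hh)
  have hK0 : G.ρ 0 ∈ K := Subgroup.subset_closure (Or.inr rfl)
  have hKH : K ≤ G.H := by
    rw [hK, Subgroup.closure_le]
    rintro x (hx | hx)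
    · exact hx.1
    · rw [Set.mem_singleton_iff] at hx
      subst hx
      exact h0
  have hconj : ∀ k ∈ K, α * k * α ∈ K := by
    intro k hk
    refine Subgroup.closure_induction (p := fun k _ => α * k * α ∈ K) ?_ ?_ ?_ ?_ hk
    · rintro x (hx | hx)
      · have h1 := conj_Hi G hup hx
        rw [hαi] at h1
        exact hK1 _ h1
      · rw [Set.mem_singleton_iff] at hx
        subst hx
        have e : α * G.ρ 0 * α = G.ρ 0 := by
          have h2 := G.comm 0 j (by omega)
          rw [← h2, mul_assoc, hαα, mul_one]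
        rw [e]
        exact hK0
    · rw [mul_one, hαα]
      exact one_mem _
    · intro x y _ _ hx hy
      have e : α * (x * y) * α = (α * x * α) * (α * y * α) := by
        have : (α * x * α) * (α * y * α) = α * x * (α * α) * y * α := by group
        rw [this, hαα]
        group
      rw [e]
      exact mul_mem hx hy
    · intro x _ hx
      have e : α * x⁻¹ * α = (α * x * α)⁻¹ := by
        rw [mul_inv_rev, mul_inv_rev, hαi]
        group
      rw [e]
      exact inv_mem hx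
  have key : ∀ g : Γ, g ∈ K ∨ g * α ∈ K := by
    intro g
    have hg : g ∈ gpar G.ρ Set.univ := by rw [G.gen]; trivial
    unfold gpar at hg
    refine Subgroup.closure_induction (p := fun g _ => g ∈ K ∨ g * α ∈ K) ?_ ?_ ?_ ?_ hg
    · rintro _ ⟨k, -, rfl⟩
      rcases Nat.eq_zero_or_pos k with rfl | hk
      · exact Or.inl hK0
      · have hku : G.ρ k ∈ G.up 1 := G.ρ_mem_up hk
        by_cases hkH : G.ρ k ∈ G.H
        · exact Or.inl (hK1 _ ⟨hkH, hku⟩)
        · exact Or.inr (hK1 _ ⟨G.mul_mem_of_not hkH hα, mul_mem hku hup⟩)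
    · exact Or.inl (one_mem _)
    · intro x y _ _ hx hy
      rcases hx with hx | hx
      · rcases hy with hy | hy
        · exact Or.inl (mul_mem hx hy)
        · right
          rw [mul_assoc]
          exact mul_mem hx hy
      · rcases hy with hy | hy
        · right
          have e : x * y * α = (x * α) * (α * y * α) := by
            have : (x * α) * (α * y * α) = x * (α * α) * y * α := by group
            rw [this, hαα]
            group
          rw [e]
          exact mul_mem hx (hconj y hy)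
        · left
          have e : x * y = (x * α) * (α * (y * α) * α) := by
            have : (x * α) * (α * (y * α) * α) = x * (α * α) * y * (α * α) := by group
            rw [this, hαα]
            group
          rw [e]
          exact mul_mem hx (hconj _ hy)
    · intro x _ hx
      rcases hx with hx | hx
      · exact Or.inl (inv_mem hx)
      · right
        have e : x⁻¹ * α = α * (x * α)⁻¹ * α := by
          rw [mul_inv_rev, hαi]
          have : α * (α * x⁻¹) * α = (α * α) * x⁻¹ * α := by group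
          rw [this, hαα]
          group
        rw [e]
        exact hconj _ (inv_mem hx)
  refine le_antisymm hKH ?_
  intro g hg
  rcases key g with h1 | h1
  · exact h1
  · exfalso
    apply hα
    have h2 := mul_mem (inv_mem hg) (hKH h1)
    rwa [inv_mul_cancel_left] at h2

/-- Every vector of `V 1` is a multiple of `x`. -/
theorem V1 (hC : Chain G) (hd : 3 ≤ d) {v : E d} (hv : v ∈ G.V 1) : ∃ c : ℝ, c • G.x = v := by
  have h1 := hC.dim 1 (by omega)
  have hx : (⟨G.x, G.x_mem_V1⟩ : G.V 1) ≠ 0 := by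
    intro h
    exact hC.x_ne (congrArg Subtype.val h)
  obtain ⟨c, hc⟩ := (finrank_eq_one_iff_of_nonzero' (⟨G.x, G.x_mem_V1⟩ : G.V 1) hx).1 h1 ⟨v, hv⟩
  exact ⟨c, congrArg Subtype.val hc⟩

/-- The stabiliser of `a` in `H_1` is `H_2`. -/
theorem stab_a (hC : Chain G) (hd : 4 ≤ d) {a : E d} (ha : a ∈ G.V 2) (hne : ∀ c : ℝ, G.x ≠ c • a)
    (ha0 : a ≠ 0) {h : Γ} (hh : h ∈ G.Hi 1) : G.T h a = a ↔ h ∈ G.Hi 2 := by
  constructor
  · intro hfix
    refine hC.Hi_of_fix 1 h hh.1 ?_
    have hx2 : G.x ∈ G.V 2 := G.V_mono (by omega) G.x_mem_V1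
    have hxf : G.T h G.x = G.x := G.x_mem_V1 h hh
    have hli : LinearIndependent ℝ ![a, G.x] := by
      rw [LinearIndependent.pair_iff' ha0]
      intro c hc
      exact hne c hc.symm
    have hle : Submodule.span ℝ (Set.range ![a, G.x]) ≤ G.V 2 := by
      rw [Submodule.span_le]
      rintro _ ⟨i, rfl⟩
      fin_cases i
      · exact ha
      · exact hx2
    have hfr : Module.finrank ℝ (Submodule.span ℝ (Set.range ![a, G.x])) = 2 := by
      rw [finrank_span_eq_card hli, Fintype.card_fin]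
    have heq : Submodule.span ℝ (Set.range ![a, G.x]) = G.V 2 := by
      apply Submodule.eq_of_le_of_finrank_eq hle
      rw [hfr, hC.dim 2 (by omega)]
    intro v hv
    have hv' : v ∈ Submodule.span ℝ (Set.range ![a, G.x]) := by
      rw [heq]
      exact hv
    refine Submodule.span_induction (p := fun v _ => G.T h v = v) ?_ ?_ ?_ ?_ hv'
    · rintro _ ⟨i, rfl⟩
      fin_cases i
      · exact hfix
      · exact hxf
    · exact map_zero _
    · intro u w _ _ hu hw
      rw [map_add, hu, hw]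
    · intro c u _ hu
      rw [map_smul, hu]
  · intro h2
    exact ha h h2

end IIF

theorem iif (hExt : StmtExt) : StmtIIf := by
  classical
  intro d Γ _ _ X _ G hd hG h0 ε a hε ha haV hne hρ hF hκ j hj
  obtain ⟨κ, hκ0, hκ⟩ := hκ
  by_contra hα
  set α := G.ρ j with hαd
  have hC := hG.chain
  have hup1 : α ∈ G.up 1 := G.ρ_mem_up (by omega)
  have hup2 : α ∈ G.up 2 := G.ρ_mem_up hj
  have hαα : α * α = 1 := G.sq j
  have hαi : α⁻¹ = α := IIF.ρ_inv_eq G j
  have ha0 : a ≠ 0 := by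
    intro h
    rw [h, norm_zero] at ha
    exact zero_ne_one ha
  have haa : ⟪a, a⟫ = (1 : ℝ) := by rw [real_inner_self_eq_norm_sq, ha]; norm_num
  have horb : ∀ h ∈ G.H, G.T h a ∈ G.orb a := fun h hh => ⟨h, hh, Or.inl rfl⟩
  have hxfix : ∀ h ∈ G.Hi 1, G.T h G.x = G.x := fun h hh => G.x_mem_V1 h hh
  -- inner products with `x`
  have hxa : ∀ h ∈ G.Hi 1, ⟪G.T h a, G.x⟫ = ⟪a, G.x⟫ := by
    intro h hh
    conv_lhs => rw [← hxfix h hh]
    exact LinearIsometryEquiv.inner_map_map _ _ _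
  have hxa0 : ⟪a, G.x⟫ ≠ (0 : ℝ) := by
    have h1 := hκ a (by simpa [G.T_one] using horb 1 (one_mem _))
    rcases h1 with h1 | h1
    · rw [h1]; exact hκ0
    · rw [h1]; exact neg_ne_zero.2 hκ0
  -- the system `T_h a`
  have hstab : ∀ h ∈ G.Hi 1, ∀ k ∈ G.Hi 1, (G.T h a = G.T k a ↔ k⁻¹ * h ∈ G.Hi 2) := by
    intro h hh k hk
    rw [← IIF.stab_a G hC (by omega) haV hne ha0 (mul_mem (inv_mem hk) hh),
      G.T_mul_apply (inv_mem hk.1) hh.1]
    constructor
    · intro e
      rw [e, G.T_inv_apply' hk.1]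
    · intro e
      rw [← G.T_inv_apply hk.1 (G.T h a), e]
  have hinn : ∀ h ∈ G.Hi 1, ∀ k ∈ G.Hi 1,
      ⟪G.T h a, G.T k a⟫ = if G.T h a = G.T k a then (1 : ℝ) else 0 := by
    intro h hh k hk
    split_ifs with he
    · rw [he, LinearIsometryEquiv.inner_map_map, haa]
    · rcases hF _ (horb h hh.1) _ (horb k hk.1) with h1 | h1 | h1
      · exact h1
      · exact absurd h1 he
      · exfalso
        have h2 := hxa h hh
        rw [h1, inner_neg_left, hxa k hk] at h2
        apply hxa0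
        linarith
  -- conjugation by `α`
  have hcj : ∀ h ∈ G.Hi 1, α * h * α⁻¹ ∈ G.Hi 1 := fun h hh => IIF.conj_Hi G hup1 hh
  have hinn2 : ∀ h k : G.Hi 1, ⟪G.T (h : Γ) a, G.T (k : Γ) a⟫ =
      ⟪G.T (α * (h : Γ) * α⁻¹) a, G.T (α * (k : Γ) * α⁻¹) a⟫ := by
    rintro ⟨h, hh⟩ ⟨k, hk⟩
    rw [hinn h hh k hk, hinn _ (hcj h hh) _ (hcj k hk)]
    have e1 := hstab h hh k hk
    have e2 := hstab _ (hcj h hh) _ (hcj k hk)
    have e3 : (α * k * α⁻¹)⁻¹ * (α * h * α⁻¹) = α * (k⁻¹ * h) * α⁻¹ := by group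
    rw [e3, IIF.conj_Hi_iff G hup2] at e2
    simp only [e1, e2]
  have : Fintype (G.Hi 1) := Fintype.ofFinite _
  obtain ⟨g, hg⟩ := exists_linearIsometry (fun h : G.Hi 1 => G.T (h : Γ) a)
    (fun h : G.Hi 1 => G.T (α * (h : Γ) * α⁻¹) a) hinn2
  have hg' : ∀ h ∈ G.Hi 1, g (G.T h a) = G.T (α * h * α⁻¹) a := fun h hh => hg ⟨h, hh⟩
  -- the sum
  set s : E d := ∑ h : G.Hi 1, G.T (h : Γ) a with hs
  have hsV : s ∈ G.V 1 := by
    intro k hk
    rw [hs, map_sum]
    have e : ∀ h : G.Hi 1, G.T k (G.T (h : Γ) a) = G.T (((⟨k, hk⟩ : G.Hi 1) * h : G.Hi 1) : Γ) a := by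
      intro h
      rw [Subgroup.coe_mul, G.T_mul_apply hk.1 h.2.1]
    simp_rw [e]
    exact Equiv.sum_comp (Equiv.mulLeft (⟨k, hk⟩ : G.Hi 1)) (fun h : G.Hi 1 => G.T (h : Γ) a)
  have hsa : (1 : ℝ) ≤ ⟪s, a⟫ := by
    rw [hs, sum_inner]
    have e : ∀ h : G.Hi 1, ⟪G.T (h : Γ) a, a⟫ = if G.T (h : Γ) a = a then (1 : ℝ) else 0 := by
      intro h
      have h1 := hinn h h.2 1 (one_mem _)
      have h2 : G.T 1 a = a := by rw [G.T_one]; rfl
      rw [h2] at h1
      exact h1
    simp_rw [e]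
    have h1 : (if G.T ((1 : G.Hi 1) : Γ) a = a then (1 : ℝ) else 0) = 1 := by
      rw [if_pos]
      change G.T 1 a = a
      rw [G.T_one]
      rfl
    refine le_trans h1.ge ?_
    refine Finset.single_le_sum (f := fun h : G.Hi 1 => if G.T (h : Γ) a = a then (1 : ℝ) else 0)
      ?_ (Finset.mem_univ (1 : G.Hi 1))
    intro h _
    split_ifs <;> norm_num
  obtain ⟨c, hc⟩ := IIF.V1 G hC (by omega) hsV
  have hc0 : c ≠ 0 := by
    intro h
    rw [h, zero_smul] at hc
    rw [← hc, inner_zero_left] at hsa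
    linarith
  have hgs : g s = s := by
    rw [hs, map_sum]
    have e : ∀ h : G.Hi 1, g (G.T (h : Γ) a) = G.T (α * (h : Γ) * α⁻¹) a := fun h => hg h
    simp_rw [e]
    let φ : G.Hi 1 ≃ G.Hi 1 :=
      { toFun := fun h => ⟨α * (h : Γ) * α⁻¹, hcj h h.2⟩
        invFun := fun h => ⟨α⁻¹ * (h : Γ) * α⁻¹⁻¹, IIF.conj_Hi G (inv_mem hup1) h.2⟩
        left_inv := fun h => by
          apply Subtype.ext
          change α⁻¹ * (α * (h : Γ) * α⁻¹) * α⁻¹⁻¹ = h
          group
        right_inv := fun h => by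
          apply Subtype.ext
          change α * (α⁻¹ * (h : Γ) * α⁻¹⁻¹) * α⁻¹ = h
          group }
    exact Equiv.sum_comp φ (fun h : G.Hi 1 => G.T (h : Γ) a)
  have hgx : g G.x = G.x := by
    have h1 : G.x = c⁻¹ • s := by rw [← hc, smul_smul, inv_mul_cancel₀ hc0, one_smul]
    rw [h1, map_smul, hgs]
  have hga : g a = a := by
    have h1 := hg' 1 (one_mem _)
    have h2 : G.T 1 a = a := by rw [G.T_one]; rfl
    rw [mul_one, mul_inv_cancel, h2] at h1
    exact h1
  -- the system spans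
  have hspan : Submodule.span ℝ (Set.range (fun h : G.Hi 1 => G.T (h : Γ) a)) = ⊤ := by
    set W := Submodule.span ℝ (Set.range (fun h : G.Hi 1 => G.T (h : Γ) a)) with hW
    have hWmem : ∀ h ∈ G.Hi 1, G.T h a ∈ W := fun h hh =>
      Submodule.subset_span ⟨⟨h, hh⟩, rfl⟩
    have horbW : ∀ b ∈ G.orb a, b ∈ W := by
      intro b hb
      by_contra hbW
      have hperp : ∀ h ∈ G.Hi 1, ⟪G.T h a, b⟫ = (0 : ℝ) := by
        intro h hh
        rcases hF _ (horb h hh.1) _ hb with h1 | h1 | h1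
        · exact h1
        · exact absurd (h1 ▸ hWmem h hh) hbW
        · exfalso
          apply hbW
          have := Submodule.neg_mem W (hWmem h hh)
          rwa [h1, neg_neg] at this
      have h2 : ⟪s, b⟫ = (0 : ℝ) := by
        rw [hs, sum_inner]
        exact Finset.sum_eq_zero fun h _ => hperp h h.2
      rw [← hc, inner_smul_left] at h2
      have h3 : ⟪G.x, b⟫ = (0 : ℝ) := by
        rcases mul_eq_zero.1 h2 with h | h
        · exact absurd (by simpa using h) hc0
        · exact h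
      rw [real_inner_comm] at h3
      rcases hκ b hb with h | h
      · rw [h] at h3; exact hκ0 h3
      · rw [h] at h3; exact hκ0 (neg_eq_zero.1 h3)
    have hU0 : G.U 0 = ⊤ := by
      have h1 : G.V 0 = ⊥ := Submodule.finrank_eq_zero.1 (hC.dim 0 (by omega))
      rw [Geo.U, h1, Submodule.bot_orthogonal_eq_top]
    have hirr := hG.irr 0 (by omega) W (by rw [hU0]; exact le_top) (by
      intro h hh v hv
      refine Submodule.span_induction (p := fun v _ => G.T h v ∈ W) ?_ ?_ ?_ ?_ hv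
      · rintro _ ⟨k, rfl⟩
        change G.T h (G.T (k : Γ) a) ∈ W
        rw [← G.T_mul_apply hh.1 k.2.1]
        exact horbW _ (horb _ (mul_mem hh.1 k.2.1))
      · rw [map_zero]; exact zero_mem _
      · intro u w _ _ hu hw
        rw [map_add]; exact add_mem hu hw
      · intro t u _ hu
        rw [map_smul]; exact W.smul_mem t hu)
    rcases hirr with h | h
    · exfalso
      have h1 : a ∈ W := by
        have h2 := hWmem 1 (one_mem _)
        rw [G.T_one] at h2
        exact h2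
      rw [h, Submodule.mem_bot] at h1
      exact ha0 h1
    · rw [h, hU0]
  -- the relations
  have hrel1 : ∀ k ∈ G.Hi 1, ∀ v, g (G.T k v) = G.T (α * k * α⁻¹) (g v) := by
    intro k hk v
    have hv : v ∈ Submodule.span ℝ (Set.range (fun h : G.Hi 1 => G.T (h : Γ) a)) := by
      rw [hspan]; trivial
    refine Submodule.span_induction
      (p := fun v _ => g (G.T k v) = G.T (α * k * α⁻¹) (g v)) ?_ ?_ ?_ ?_ hv
    · rintro _ ⟨⟨h, hh⟩, rfl⟩
      change g (G.T k (G.T h a)) = G.T (α * k * α⁻¹) (g (G.T h a))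
      rw [← G.T_mul_apply hk.1 hh.1, hg' _ (mul_mem hk hh), hg' h hh,
        ← G.T_mul_apply (hcj k hk).1 (hcj h hh).1]
      congr 2
      group
    · simp only [map_zero]
    · intro u w _ _ hu hw
      simp only [map_add, hu, hw]
    · intro t u _ hu
      simp only [map_smul, hu]
  have hrel0 : ∀ v, g (G.T (G.ρ 0) v) = G.T (α * G.ρ 0 * α⁻¹) (g v) := by
    intro v
    have e : α * G.ρ 0 * α⁻¹ = G.ρ 0 := by
      have h2 := G.comm 0 j (by omega)
      rw [← h2, mul_assoc, mul_inv_cancel, mul_one]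
    rw [e, hρ, hρ, map_smul, map_sref, hga]
  refine hExt d Γ X G α hup1 hα g hgx ((G.Hi 1 : Set Γ) ∪ {G.ρ 0}) (IIF.gen_H G hj h0 hα) ?_
  rintro k (hk | hk) v
  · exact hrel1 k hk v
  · rw [Set.mem_singleton_iff] at hk
    subst hk
    exact hrel0 v

end FO2
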