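import Pool.Agent.FO2.Stmts

/-!
# The intersection property by downward induction on the first index
-/

namespace FO2

open Lib_helper64.FO
open scoped RealInnerProductSpace

namespace INT

theorem par_mono {d : ℕ} {Y : Type} (S : SGen d Y) {A B : Set (Fin d)} (h : A ⊆ B) :
    S.par A ≤ S.par B :=
  Subgroup.closure_mono (Set.image_mono h)

theorem comm' {d : ℕ} {Y : Type} (S : SGen d Y) (A B : Set (Fin d))
    (h : ∀ i ∈ A, ∀ j ∈ B, i.val + 2 ≤ j.val) :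
    ∀ a ∈ S.par A, ∀ b ∈ S.par B, a * b = b * a := by
  intro a ha b hb
  have h1 : S.par A ≤ Subgroup.centralizer (S.par B : Set (Equiv.Perm Y)) := by
    rw [SGen.par, Subgroup.closure_le]
    rintro _ ⟨j, hj, rfl⟩
    have h2 : S.par B ≤ Subgroup.centralizer ({S.σ j} : Set (Equiv.Perm Y)) := by
      rw [SGen.par, Subgroup.closure_le]
      rintro _ ⟨k, hk, rfl⟩
      rw [SetLike.mem_coe, Subgroup.mem_centralizer_iff]
      intro g hg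
      rw [Set.mem_singleton_iff] at hg
      subst hg
      exact S.comm j k (h j hj k hk)
    rw [SetLike.mem_coe, Subgroup.mem_centralizer_iff]
    intro g hg
    have := Subgroup.mem_centralizer_iff.1 (h2 hg) (S.σ j) rfl
    exact this.symm
  have := Subgroup.mem_centralizer_iff.1 (h1 ha) b hb
  exact this.symm

theorem split {d : ℕ} {Y : Type} (S : SGen d Y) (m : ℕ) (K : Set (Fin d))
    (hm : ∀ j ∈ K, j.val ≠ m) :
    ∀ p ∈ S.par K, ∃ a ∈ S.par {j | j ∈ K ∧ j.val < m}, ∃ b ∈ S.par {j | j ∈ K ∧ m < j.val},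
      p = a * b := by
  have hcomm := comm' S {j | j ∈ K ∧ j.val < m} {j | j ∈ K ∧ m < j.val} (by
    rintro i ⟨-, hi⟩ j ⟨-, hj⟩
    omega)
  intro p hp
  refine Subgroup.closure_induction (p := fun p _ => ∃ a ∈ S.par {j | j ∈ K ∧ j.val < m},
    ∃ b ∈ S.par {j | j ∈ K ∧ m < j.val}, p = a * b) ?_ ?_ ?_ ?_ hp
  · rintro _ ⟨j, hj, rfl⟩
    rcases lt_or_gt_of_ne (hm j hj) with h | h
    · exact ⟨S.σ j, Subgroup.subset_closure ⟨j, ⟨hj, h⟩, rfl⟩, 1, one_mem _, by simp⟩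
    · exact ⟨1, one_mem _, S.σ j, Subgroup.subset_closure ⟨j, ⟨hj, h⟩, rfl⟩, by simp⟩
  · exact ⟨1, one_mem _, 1, one_mem _, by simp⟩
  · rintro p q - - ⟨a, ha, b, hb, h1⟩ ⟨a', ha', b', hb', h1'⟩
    refine ⟨a * a', mul_mem ha ha', b * b', mul_mem hb hb', ?_⟩
    rw [h1, h1']
    calc a * b * (a' * b') = a * (b * a') * b' := by group
      _ = a * (a' * b) * b' := by rw [hcomm a' ha' b hb]
      _ = a * a' * (b * b') := by group
  · rintro p - ⟨a, ha, b, hb, h1⟩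
    refine ⟨a⁻¹, inv_mem ha, b⁻¹, inv_mem hb, ?_⟩
    rw [h1, mul_inv_rev]
    exact (hcomm _ (inv_mem ha) _ (inv_mem hb)).symm

/-- The first number from `k` on which is not in `J`. -/
theorem first {d : ℕ} (J : Set (Fin d)) (k : ℕ) (hk : k ≤ d) :
    ∃ m : ℕ, k ≤ m ∧ m ≤ d ∧ (∀ j ∈ J, j.val ≠ m) ∧ ∀ j : Fin d, k ≤ j.val → j.val < m → j ∈ J := by
  classical
  have hex : ∃ n : ℕ, k ≤ n ∧ ∀ j ∈ J, j.val ≠ n :=
    ⟨d, hk, fun j _ => (j.isLt).ne⟩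
  refine ⟨Nat.find hex, (Nat.find_spec hex).1, Nat.find_min' hex ⟨hk, fun j _ => (j.isLt).ne⟩,
    (Nat.find_spec hex).2, ?_⟩
  intro j h1 h2
  by_contra h3
  refine Nat.find_min hex h2 ⟨h1, ?_⟩
  intro i hi he
  have : i = j := Fin.ext he
  exact h3 (this ▸ hi)

theorem caseA {d : ℕ} {Y : Type} (S : SGen d Y) (k : ℕ)
    (H1 : ∀ I J : Set (Fin d), I ⊆ {j | k + 1 ≤ j.val} → J ⊆ {j | k + 1 ≤ j.val} →
      S.par I ⊓ S.par J = S.par (I ∩ J))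
    (H2 : ∀ m : ℕ, m ≤ d → ∀ g ∈ S.par {j | k ≤ j.val ∧ j.val < m}, g ∈ S.par {j | k + 1 ≤ j.val} →
      g ∈ S.par {j | k + 1 ≤ j.val ∧ j.val < m})
    (I J : Set (Fin d)) (hI : I ⊆ {j | k + 1 ≤ j.val}) (hJ : J ⊆ {j | k ≤ j.val}) (hk : k ≤ d)
    (g : Equiv.Perm Y) (hgI : g ∈ S.par I) (hgJ : g ∈ S.par J) : g ∈ S.par (I ∩ J) := by
  obtain ⟨m, hkm, hmd, hmJ, hJm⟩ := first J k hk
  obtain ⟨a, ha, b, hb, hab⟩ := split S m J hmJ g hgJ
  have hb1 : b ∈ S.par {j : Fin d | k + 1 ≤ j.val} := by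
    refine par_mono S ?_ hb
    rintro j ⟨-, hj⟩
    exact Nat.succ_le_of_lt (lt_of_le_of_lt hkm hj)
  have hg1 : g ∈ S.par {j : Fin d | k + 1 ≤ j.val} := par_mono S hI hgI
  have ha1 : a ∈ S.par {j : Fin d | k + 1 ≤ j.val} := by
    have : a = g * b⁻¹ := by rw [hab]; group
    rw [this]
    exact mul_mem hg1 (inv_mem hb1)
  have ha2 : a ∈ S.par {j : Fin d | k ≤ j.val ∧ j.val < m} := by
    refine par_mono S ?_ ha
    rintro j ⟨hj, hj'⟩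
    exact ⟨hJ hj, hj'⟩
  have ha3 := H2 m hmd a ha2 ha1
  have hg2 : g ∈ S.par {j : Fin d | j ∈ J ∧ k + 1 ≤ j.val} := by
    rw [hab]
    refine mul_mem (par_mono S ?_ ha3) (par_mono S ?_ hb)
    · rintro j ⟨hj, hj'⟩
      exact ⟨hJm j (by omega) hj', hj⟩
    · rintro j ⟨hj, hj'⟩
      exact ⟨hj, by omega⟩
  have h3 : g ∈ S.par I ⊓ S.par {j : Fin d | j ∈ J ∧ k + 1 ≤ j.val} := ⟨hgI, hg2⟩
  rw [H1 I {j : Fin d | j ∈ J ∧ k + 1 ≤ j.val} hI (fun j hj => hj.2)] at h3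
  refine par_mono S ?_ h3
  rintro j ⟨h4, h5⟩
  exact ⟨h4, h5.1⟩

theorem caseB {d : ℕ} {Y : Type} (S : SGen d Y) (k : ℕ)
    (H1 : ∀ I J : Set (Fin d), I ⊆ {j | k + 1 ≤ j.val} → J ⊆ {j | k + 1 ≤ j.val} →
      S.par I ⊓ S.par J = S.par (I ∩ J))
    (H2 : ∀ m : ℕ, m ≤ d → ∀ g ∈ S.par {j | k ≤ j.val ∧ j.val < m}, g ∈ S.par {j | k + 1 ≤ j.val} →
      g ∈ S.par {j | k + 1 ≤ j.val ∧ j.val < m})
    (I J : Set (Fin d)) (hI : I ⊆ {j | k ≤ j.val}) (hJ : J ⊆ {j | k ≤ j.val}) (hk : k ≤ d)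
    (m n : ℕ) (hkm : k ≤ m) (hmn : m ≤ n) (hmI : ∀ j ∈ I, j.val ≠ m)
    (hJn : ∀ j : Fin d, k ≤ j.val → j.val < n → j ∈ J)
    (g : Equiv.Perm Y) (hgI : g ∈ S.par I) (hgJ : g ∈ S.par J) : g ∈ S.par (I ∩ J) := by
  obtain ⟨a, ha, b, hb, hab⟩ := split S m I hmI g hgI
  have ha1 : a ∈ S.par (I ∩ J) := by
    refine par_mono S ?_ ha
    rintro j ⟨hj, hj'⟩
    exact ⟨hj, hJn j (hI hj) (lt_of_lt_of_le hj' hmn)⟩
  have hbJ : b ∈ S.par J := by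
    have : b = a⁻¹ * g := by rw [hab]; group
    rw [this]
    exact mul_mem (inv_mem (par_mono S Set.inter_subset_right ha1)) hgJ
  have hb1 : b ∈ S.par ({j : Fin d | j ∈ I ∧ m < j.val} ∩ J) := by
    refine caseA S k H1 H2 _ J ?_ hJ hk b hb hbJ
    rintro j ⟨-, hj⟩
    exact Nat.succ_le_of_lt (lt_of_le_of_lt hkm hj)
  rw [hab]
  refine mul_mem ha1 (par_mono S ?_ hb1)
  rintro j ⟨⟨h1, -⟩, h2⟩
  exact ⟨h1, h2⟩

end INT

theorem int : StmtInt := by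
  intro d Y S k H1 H2 I J hI hJ
  by_cases hk : k ≤ d
  · refine le_antisymm ?_ (le_inf (INT.par_mono S Set.inter_subset_left)
      (INT.par_mono S Set.inter_subset_right))
    rintro g ⟨hgI, hgJ⟩
    obtain ⟨m, hkm, hmd, hmI, hIm⟩ := INT.first I k hk
    obtain ⟨n, hkn, hnd, hnJ, hJn⟩ := INT.first J k hk
    rcases le_total m n with h | h
    · exact INT.caseB S k H1 H2 I J hI hJ hk m n hkm h hmI hJn g hgI hgJ
    · rw [Set.inter_comm]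
      exact INT.caseB S k H1 H2 J I hJ hI hk n m hkn h hnJ hIm g hgJ hgI
  · have hE : ∀ K : Set (Fin d), K ⊆ {j | k ≤ j.val} → K ⊆ {j | k + 1 ≤ j.val} := by
      intro K hK j hj
      have h1 : k ≤ j.val := hK hj
      have h2 := j.isLt
      omega
    exact H1 I J (hE I hI) (hE J hJ)

end FO2
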