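import Pool.Agent.FO2.Stmts

/-!
# Module IS: irreducibility goes down the chain

`Irr (i + 1)` implies `Irr i` for `i + 3 ≤ d`.
-/

namespace FO2

open Lib_helper64.FO
open scoped RealInnerProductSpace

noncomputable section

namespace ISMod

/-! ### counting -/

/-- A subgroup `K'` of the finite group `K` with at most two cosets. -/
theorem card_le_two_mul {Γ : Type} [Group Γ] [Finite Γ] (K K' : Subgroup Γ)
    (h : ∀ g ∈ K, g ∉ K' → ∀ k ∈ K, k ∉ K' → g⁻¹ * k ∈ K') : Nat.card K ≤ 2 * Nat.card K' := by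
  classical
  by_cases hc : ∀ g ∈ K, g ∈ K'
  · have : Nat.card K ≤ Nat.card K' := Nat.card_mono (Set.toFinite (K' : Set Γ)) hc
    omega
  · push Not at hc
    obtain ⟨g0, hg0, hg0'⟩ := hc
    have hsub : (K : Set Γ) ⊆ (K' : Set Γ) ∪ (fun k => g0 * k) '' (K' : Set Γ) := by
      intro k hk
      by_cases hk' : k ∈ K'
      · exact Or.inl hk'
      · refine Or.inr ⟨g0⁻¹ * k, h g0 hg0 hg0' k hk hk', ?_⟩
        simp
    have h1 : (K : Set Γ).ncard ≤ ((K' : Set Γ) ∪ (fun k => g0 * k) '' (K' : Set Γ)).ncard :=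
      Set.ncard_le_ncard hsub (Set.toFinite _)
    have h2 := Set.ncard_union_le (K' : Set Γ) ((fun k => g0 * k) '' (K' : Set Γ))
    have h3 : ((fun k => g0 * k) '' (K' : Set Γ)).ncard ≤ (K' : Set Γ).ncard :=
      Set.ncard_image_le (Set.toFinite _)
    have e1 : Nat.card K = (K : Set Γ).ncard := rfl
    have e2 : Nat.card K' = (K' : Set Γ).ncard := rfl
    omega

variable {d : ℕ} {Γ : Type} [Group Γ] {X : Type} [MulAction Γ X] (G : Geo d Γ X)

/-! ### the vector `e` -/

/-- A generator of the line `V_{i+1} ∩ U_i`. -/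
theorem exists_e {i : ℕ} (h1 : Module.finrank ℝ (G.V i) = i)
    (h2 : Module.finrank ℝ (G.V (i + 1)) = i + 1) :
    ∃ e : E d, e ≠ 0 ∧ e ∈ G.V (i + 1) ∧ e ∈ G.U i ∧
      (∀ w, w ∈ G.V (i + 1) → w ∈ G.U i → ∃ c : ℝ, w = c • e) := by
  have h := Submodule.finrank_add_inf_finrank_orthogonal (G.V_mono (Nat.le_succ i))
  rw [h1] at h
  have h3 : Module.finrank ℝ ((G.V i)ᗮ ⊓ G.V (i + 1) : Submodule ℝ (E d)) = 1 := by
    have h2' : Module.finrank ℝ (G.V i.succ) = i + 1 := h2
    have h' : i + Module.finrank ℝ ((G.V i)ᗮ ⊓ G.V (i + 1) : Submodule ℝ (E d)) = i + 1 :=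
      h.trans h2'
    omega
  rw [finrank_eq_one_iff'] at h3
  obtain ⟨e, he, h4⟩ := h3
  refine ⟨e.1, ?_, e.2.2, e.2.1, ?_⟩
  · intro h0
    exact he (Subtype.ext h0)
  · intro w hw hw'
    obtain ⟨c, hc⟩ := h4 ⟨w, hw', hw⟩
    exact ⟨c, by rw [← Submodule.coe_smul, hc]⟩

/-- decomposition of the vectors of `V_{i+1}` -/
theorem decomp {i : ℕ} {e : E d}
    (h : ∀ w, w ∈ G.V (i + 1) → w ∈ G.U i → ∃ c : ℝ, w = c • e) {v : E d}
    (hv : v ∈ G.V (i + 1)) : ∃ w ∈ G.V i, ∃ c : ℝ, v = w + c • e := by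
  obtain ⟨w, hw, z, hz, rfl⟩ := (G.V i).exists_add_mem_mem_orthogonal v
  have hz' : z ∈ G.V (i + 1) := by
    have := (G.V (i + 1)).sub_mem hv (G.V_mono (Nat.le_succ i) hw)
    rwa [add_sub_cancel_left] at this
  obtain ⟨c, rfl⟩ := h z hz' hz
  exact ⟨w, hw, c, rfl⟩

/-- the orthogonal complement of a stable space is stable -/
theorem stable_orth {K : Subgroup Γ} (hK : K ≤ G.H) {B : Submodule ℝ (E d)}
    (hB : ∀ h ∈ K, ∀ v ∈ B, G.T h v ∈ B) : ∀ h ∈ K, ∀ v ∈ Bᗮ, G.T h v ∈ Bᗮ := by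
  intro h hh v hv
  rw [Submodule.mem_orthogonal] at hv ⊢
  intro u hu
  have h1 := hv _ (hB h⁻¹ (inv_mem hh) u hu)
  rw [← G.T_inv_apply (hK hh) u, LinearIsometryEquiv.inner_map_map]
  exact h1

/-! ### the line `ℝ e` is not stable -/

section line

variable {i : ℕ}

/-- a subgroup of `Γ` normalised by `b` -/
theorem conj_closure {S : Set Γ} {b : Γ} (hb : b * b = 1)
    (h : ∀ s ∈ S, b * s * b ∈ Subgroup.closure S) :
    ∀ g ∈ Subgroup.closure S, b * g * b ∈ Subgroup.closure S := by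
  intro g hg
  induction hg using Subgroup.closure_induction with
  | mem s hs => exact h s hs
  | one => simp [hb]
  | mul x y _ _ hx hy =>
    have e : b * (x * y) * b = (b * x * b) * (b * y * b) := by
      calc b * (x * y) * b = b * x * (1 : Γ) * y * b := by group
        _ = b * x * (b * b) * y * b := by rw [hb]
        _ = (b * x * b) * (b * y * b) := by group
    rw [e]
    exact mul_mem hx hy
  | inv x _ hx =>
    have e : b * x⁻¹ * b = (b * x * b)⁻¹ := by
      have hb' : b⁻¹ = b := by rw [inv_eq_iff_mul_eq_one]; exact hb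
      rw [mul_inv_rev, mul_inv_rev, hb']
      group
    rw [e]
    exact inv_mem hx

/-- generators of `M` -/
def gen (ρ : ℕ → Γ) (i : ℕ) : Set Γ :=
  {g | ∃ j, i + 2 ≤ j ∧ (g = ρ j ∨ g = ρ (i + 1) * ρ j * ρ (i + 1))}

theorem up_split (i : ℕ) : ∀ g ∈ G.up (i + 1), g ∈ Subgroup.closure (gen G.ρ i) ∨
    G.ρ (i + 1) * g ∈ Subgroup.closure (gen G.ρ i) := by
  have hb := G.sq (i + 1)
  have hconj : ∀ g ∈ Subgroup.closure (gen G.ρ i),
      G.ρ (i + 1) * g * G.ρ (i + 1) ∈ Subgroup.closure (gen G.ρ i) := by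
    apply conj_closure hb
    rintro s ⟨j, hj, rfl | rfl⟩
    · exact Subgroup.subset_closure ⟨j, hj, Or.inr rfl⟩
    · have e : G.ρ (i + 1) * (G.ρ (i + 1) * G.ρ j * G.ρ (i + 1)) * G.ρ (i + 1) = G.ρ j := by
        calc G.ρ (i + 1) * (G.ρ (i + 1) * G.ρ j * G.ρ (i + 1)) * G.ρ (i + 1)
            = (G.ρ (i + 1) * G.ρ (i + 1)) * G.ρ j * (G.ρ (i + 1) * G.ρ (i + 1)) := by group
          _ = G.ρ j := by rw [hb]; group
      rw [e]
      exact Subgroup.subset_closure ⟨j, hj, Or.inl rfl⟩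
  intro g hg
  unfold Geo.up gpar at hg
  induction hg using Subgroup.closure_induction with
  | mem s hs =>
    obtain ⟨j, hj, rfl⟩ := hs
    have hj' : i + 1 ≤ j := hj
    rcases Nat.eq_or_lt_of_le hj' with h | h
    · right
      rw [← h, hb]
      exact one_mem _
    · left
      exact Subgroup.subset_closure ⟨j, h, Or.inl rfl⟩
  | one => exact Or.inl (one_mem _)
  | mul x y _ _ hx hy =>
    have hbb : ∀ z : Γ, G.ρ (i + 1) * (G.ρ (i + 1) * z) = z := by
      intro z
      rw [← mul_assoc, hb, one_mul]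
    rcases hx with hx | hx <;> rcases hy with hy | hy
    · exact Or.inl (mul_mem hx hy)
    · right
      have e : G.ρ (i + 1) * (x * y) = (G.ρ (i + 1) * x * G.ρ (i + 1)) * (G.ρ (i + 1) * y) := by
        rw [mul_assoc (G.ρ (i + 1) * x), hbb]
        group
      rw [e]
      exact mul_mem (hconj x hx) hy
    · right
      rw [← mul_assoc]
      exact mul_mem hx hy
    · left
      have e : x * y = (G.ρ (i + 1) * (G.ρ (i + 1) * x) * G.ρ (i + 1)) * (G.ρ (i + 1) * y) := by
        rw [mul_assoc (G.ρ (i + 1) * (G.ρ (i + 1) * x)), hbb, hbb]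
      rw [e]
      exact mul_mem (hconj _ hx) hy
  | inv x _ hx =>
    rcases hx with hx | hx
    · exact Or.inl (inv_mem hx)
    · right
      have h1 := hconj _ (inv_mem hx)
      have e : G.ρ (i + 1) * (G.ρ (i + 1) * x)⁻¹ * G.ρ (i + 1) = G.ρ (i + 1) * x⁻¹ := by
        rw [mul_inv_rev, G.inv_ρ, mul_assoc, mul_assoc, hb, mul_one]
      rwa [e] at h1

/-- the subgroup `N` -/
def N (i : ℕ) : Subgroup Γ where
  carrier := {g | g ∈ G.up (i + 1) ∧ G.ρ i * g * G.ρ i ∈ G.up (i + 1)}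
  mul_mem' := by
    rintro a b ⟨ha, ha'⟩ ⟨hb, hb'⟩
    refine ⟨mul_mem ha hb, ?_⟩
    have e : G.ρ i * (a * b) * G.ρ i = (G.ρ i * a * G.ρ i) * (G.ρ i * b * G.ρ i) := by
      calc G.ρ i * (a * b) * G.ρ i = G.ρ i * a * (1 : Γ) * b * G.ρ i := by group
        _ = G.ρ i * a * (G.ρ i * G.ρ i) * b * G.ρ i := by rw [G.sq]
        _ = (G.ρ i * a * G.ρ i) * (G.ρ i * b * G.ρ i) := by group
    rw [e]
    exact mul_mem ha' hb'
  one_mem' := by
    refine ⟨one_mem _, ?_⟩
    rw [mul_one, G.sq]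
    exact one_mem _
  inv_mem' := by
    rintro a ⟨ha, ha'⟩
    refine ⟨inv_mem ha, ?_⟩
    have e : G.ρ i * a⁻¹ * G.ρ i = (G.ρ i * a * G.ρ i)⁻¹ := by
      rw [mul_inv_rev, mul_inv_rev, G.inv_ρ, mul_assoc]
    rw [e]
    exact inv_mem ha'

theorem mem_N {i : ℕ} {g : Γ} :
    g ∈ N G i ↔ g ∈ G.up (i + 1) ∧ G.ρ i * g * G.ρ i ∈ G.up (i + 1) := Iff.rfl

/-- the fixed space of `N` -/
def FN (i : ℕ) : Submodule ℝ (E d) where
  carrier := {v | ∀ n ∈ N G i, G.T n v = v}
  add_mem' := by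
    intro a b ha hb h hh
    rw [map_add, ha h hh, hb h hh]
  zero_mem' := by
    intro h _
    exact map_zero _
  smul_mem' := by
    intro c a ha h hh
    rw [map_smul, ha h hh]

theorem mem_FN {i : ℕ} {v : E d} : v ∈ FN G i ↔ ∀ n ∈ N G i, G.T n v = v := Iff.rfl

/-- the line spanned by `e` is not stable under `H_i` -/
theorem not_line [Finite Γ] (hC : Chain G) (hi : i + 3 ≤ d) (irr : G.Irr (i + 1)) {e : E d}
    (he0 : e ≠ 0) (heV : e ∈ G.V (i + 1))
    (hdec : ∀ v ∈ G.V (i + 1), ∃ w ∈ G.V i, ∃ c : ℝ, v = w + c • e)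
    (hline : ∀ h ∈ G.Hi i, G.T h e = e ∨ G.T h e = -e) : False := by
  classical
  have hne : e ≠ -e := by
    intro h
    apply he0
    have h2 : (2 : ℝ) • e = 0 := by
      rw [two_smul]
      nth_rewrite 1 [h]
      simp
    rcases smul_eq_zero.1 h2 with h3 | h3
    · norm_num at h3
    · exact h3
  -- the stabiliser of `e`
  have hst : ∀ h ∈ G.Hi i, G.T h e = e → h ∈ G.Hi (i + 1) := by
    intro h hh he
    refine hC.Hi_of_fix i h hh.1 ?_
    intro v hv
    obtain ⟨w, hw, c, rfl⟩ := hdec v hv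
    rw [map_add, map_smul, hw h hh, he]
  have hst' : ∀ h ∈ G.Hi i, h ∉ G.Hi (i + 1) → G.T h e = -e := by
    intro h hh hn
    rcases hline h hh with h1 | h1
    · exact absurd (hst h hh h1) hn
    · exact h1
  -- counting
  have c1 : Nat.card (G.up i) ≤ 2 * Nat.card (G.Hi i) := by
    apply card_le_two_mul
    intro g hg hg' k hk hk'
    have hgH : g ∉ G.H := fun h => hg' ⟨h, hg⟩
    have hkH : k ∉ G.H := fun h => hk' ⟨h, hk⟩
    have h1 : g⁻¹ ∉ G.H := fun h => hgH (inv_inv g ▸ inv_mem h)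
    have h2 : g⁻¹ * k ∈ G.H := G.mul_mem_of_not h1 hkH
    have h3 : g⁻¹ * k ∈ G.up i := mul_mem (inv_mem hg) hk
    exact ⟨h2, h3⟩
  have c2 : Nat.card (G.Hi i) ≤ 2 * Nat.card (G.Hi (i + 1)) := by
    apply card_le_two_mul
    intro g hg hg' k hk hk'
    refine hst _ (mul_mem (inv_mem hg) hk) ?_
    have h1 := hst' g hg hg'
    have h2 := hst' k hk hk'
    rw [G.T_mul_apply (inv_mem hg.1) hk.1, h2, map_neg]
    have h3 := G.T_inv_apply' hg.1 e
    rw [h1, map_neg] at h3
    exact h3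
  have c3 := hC.card i (by omega)
  have hpos : 0 < Nat.card (G.Hi (i + 1)) := Nat.card_pos
  -- `up (i+1) ≤ H`
  have hupH : G.up (i + 1) ≤ G.H := by
    by_contra hcon
    have hle : 2 * Nat.card (G.Hi (i + 1)) ≤ Nat.card (G.up (i + 1)) := by
      have hdvd : Nat.card (G.Hi (i + 1)) ∣ Nat.card (G.up (i + 1)) :=
        Subgroup.card_dvd_of_le inf_le_right
      obtain ⟨m, hm⟩ := hdvd
      have hm2 : 2 ≤ m := by
        by_contra hm1
        have hm' : m = 0 ∨ m = 1 := by omega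
        have hpos' : 0 < Nat.card (G.up (i + 1)) := Nat.card_pos
        rcases hm' with rfl | rfl
        · rw [mul_zero] at hm
          omega
        · apply hcon
          have heq : G.Hi (i + 1) = G.up (i + 1) := by
            apply Subgroup.eq_of_le_of_card_ge inf_le_right
            rw [hm, mul_one]
            exact le_rfl
          rw [← heq]
          exact inf_le_left
      rw [hm, mul_comm]
      exact Nat.mul_le_mul_left _ hm2
    omega
  have hHi1 : G.Hi (i + 1) = G.up (i + 1) := inf_eq_right.2 hupH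
  -- `ρ i ∉ H`
  have hρ : G.ρ i ∉ G.H := by
    intro hρ
    have h1 : G.up i ≤ G.H := by
      rw [Geo.up, gpar, Subgroup.closure_le]
      rintro _ ⟨j, hj, rfl⟩
      have hj' : i ≤ j := hj
      rcases Nat.eq_or_lt_of_le hj' with h | h
      · rw [← h]; exact hρ
      · exact hupH (G.ρ_mem_up h)
    have h2 : G.Hi i = G.up i := inf_eq_right.2 h1
    rw [h2, hHi1] at c2
    rw [hHi1] at hpos
    omega
  set a := G.ρ i with ha
  set b := G.ρ (i + 1) with hb
  have haa : a * a = 1 := G.sq i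
  have hbb : b * b = 1 := G.sq (i + 1)
  have hainv : a⁻¹ = a := G.inv_ρ i
  have hbup : b ∈ G.up (i + 1) := G.ρ_mem_up le_rfl
  have haup : a ∈ G.up i := G.ρ_mem_up le_rfl
  have hup1 : G.up (i + 1) ≤ G.up i := G.up_anti (Nat.le_succ i)
  have htH : a * b * a ∈ G.H := by
    have := G.conj_mem a (hupH hbup)
    rwa [hainv] at this
  have htHi : a * b * a ∈ G.Hi i := ⟨htH, mul_mem (mul_mem haup (hup1 hbup)) haup⟩
  have htt : (a * b * a) * (a * b * a) = 1 := by
    calc (a * b * a) * (a * b * a) = a * b * (a * a) * b * a := by group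
      _ = a * (b * b) * a := by rw [haa]; group
      _ = 1 := by rw [hbb, mul_one, haa]
  have hnot : a * b * a ∉ G.up (i + 1) := hC.conj_not i (by omega)
  -- `t` normalises `up (i+1)`
  have hnorm : ∀ k ∈ G.up (i + 1), (a * b * a) * k * (a * b * a) ∈ G.up (i + 1) := by
    intro k hk
    have hkH : k ∈ G.H := hupH hk
    have hkHi : k ∈ G.Hi i := ⟨hkH, hup1 hk⟩
    have hmem : (a * b * a) * k * (a * b * a) ∈ G.Hi i := mul_mem (mul_mem htHi hkHi) htHi
    have hke : G.T k e = e := heV k (by rw [hHi1]; exact hk)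
    have : (a * b * a) * k * (a * b * a) ∈ G.Hi (i + 1) := by
      refine hst _ hmem ?_
      rw [G.T_mul_apply (mul_mem htH hkH) htH, G.T_mul_apply htH hkH]
      have h3 : G.T (a * b * a) (G.T (a * b * a) e) = e := by
        rw [← G.T_mul_apply htH htH, htt, G.T_one]; rfl
      rcases hline _ htHi with h | h
      · rw [h, hke, h]
      · rw [h, map_neg, hke, map_neg, h, neg_neg]
    rw [← hHi1]
    exact this
  -- generators of `N`
  have hcommj : ∀ j, i + 2 ≤ j → a * G.ρ j = G.ρ j * a := fun j hj => G.comm i j hj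
  have hN1 : ∀ j, i + 2 ≤ j → G.ρ j ∈ N G i := by
    intro j hj
    have h1 : G.ρ j ∈ G.up (i + 1) := G.ρ_mem_up (by omega)
    refine ⟨h1, ?_⟩
    rw [← ha, hcommj j hj, mul_assoc, haa, mul_one]
    exact h1
  have hN2 : ∀ j, i + 2 ≤ j → b * G.ρ j * b ∈ N G i := by
    intro j hj
    have h1 : G.ρ j ∈ G.up (i + 1) := G.ρ_mem_up (by omega)
    refine ⟨mul_mem (mul_mem hbup h1) hbup, ?_⟩
    have h2 := hnorm _ h1
    have e1 : a * b * a * G.ρ j * (a * b * a) = a * (b * G.ρ j * b) * a := by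
      calc a * b * a * G.ρ j * (a * b * a) = a * b * (a * G.ρ j) * a * b * a := by group
        _ = a * b * (G.ρ j * a) * a * b * a := by rw [hcommj j hj]
        _ = a * b * G.ρ j * (a * a) * b * a := by group
        _ = a * (b * G.ρ j * b) * a := by rw [haa]; group
    rw [e1] at h2
    exact h2
  have hMN : Subgroup.closure (gen G.ρ i) ≤ N G i := by
    rw [Subgroup.closure_le]
    rintro _ ⟨j, hj, rfl | rfl⟩
    · exact hN1 j hj
    · exact hN2 j hj
  have hbN : b ∉ N G i := fun h => hnot h.2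
  have hNM : N G i ≤ Subgroup.closure (gen G.ρ i) := by
    intro g hg
    rcases up_split G i g hg.1 with h | h
    · exact h
    · exfalso
      apply hbN
      have h1 := mul_mem (hMN h) (inv_mem hg)
      rwa [mul_inv_cancel_right] at h1
  have hNeq : Subgroup.closure (gen G.ρ i) = N G i := le_antisymm hMN hNM
  -- `N` is normalised by the generators of `up i`
  have hnormb : ∀ g ∈ N G i, b * g * b ∈ N G i := by
    rw [← hNeq]
    apply conj_closure hbb
    rintro s ⟨j, hj, rfl | rfl⟩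
    · exact Subgroup.subset_closure ⟨j, hj, Or.inr rfl⟩
    · have e1 : b * (G.ρ (i + 1) * G.ρ j * G.ρ (i + 1)) * b = G.ρ j := by
        rw [← hb]
        calc b * (b * G.ρ j * b) * b = (b * b) * G.ρ j * (b * b) := by group
          _ = G.ρ j := by rw [hbb]; group
      rw [e1]
      exact Subgroup.subset_closure ⟨j, hj, Or.inl rfl⟩
  have hnorma : ∀ g ∈ N G i, a * g * a ∈ N G i := by
    rintro g ⟨hg, hg'⟩
    refine ⟨hg', ?_⟩
    have e1 : G.ρ i * (a * g * a) * G.ρ i = g := by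
      rw [← ha]
      calc a * (a * g * a) * a = (a * a) * g * (a * a) := by group
        _ = g := by rw [haa]; group
    rw [e1]
    exact hg
  have hnormall : ∀ h ∈ G.up i, ∀ g ∈ N G i, h * g * h⁻¹ ∈ N G i := by
    intro h hh
    unfold Geo.up gpar at hh
    induction hh using Subgroup.closure_induction'' with
    | mem s hs =>
      obtain ⟨j, hj, rfl⟩ := hs
      have hj' : i ≤ j := hj
      intro g hg
      rw [G.inv_ρ]
      rcases Nat.eq_or_lt_of_le hj' with h | h
      · rw [← h]; exact hnorma g hg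
      · rcases Nat.eq_or_lt_of_le (show i + 1 ≤ j from h) with h | h
        · rw [← h]; exact hnormb g hg
        · exact mul_mem (mul_mem (hN1 j h) hg) (hN1 j h)
    | inv_mem s hs =>
      obtain ⟨j, hj, rfl⟩ := hs
      have hj' : i ≤ j := hj
      intro g hg
      rw [inv_inv, G.inv_ρ]
      rcases Nat.eq_or_lt_of_le hj' with h | h
      · rw [← h]; exact hnorma g hg
      · rcases Nat.eq_or_lt_of_le (show i + 1 ≤ j from h) with h | h
        · rw [← h]; exact hnormb g hg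
        · exact mul_mem (mul_mem (hN1 j h) hg) (hN1 j h)
    | one =>
      intro g hg
      simpa using hg
    | mul x y _ _ hx hy =>
      intro g hg
      have e1 : x * y * g * (x * y)⁻¹ = x * (y * g * y⁻¹) * x⁻¹ := by group
      rw [e1]
      exact hx _ (hy g hg)
  have hNH : N G i ≤ G.H := fun g hg => hupH hg.1
  -- the fixed space of `N`
  have hFstab : ∀ h ∈ G.Hi i, ∀ v ∈ FN G i, G.T h v ∈ FN G i := by
    intro h hh v hv n hn
    have h1 : h⁻¹ * n * h ∈ N G i := by
      have := hnormall h⁻¹ (inv_mem hh.2) n hn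
      rwa [inv_inv] at this
    have h2 := hv _ h1
    rw [G.T_mul_apply (mul_mem (inv_mem hh.1) (hNH hn)) hh.1,
      G.T_mul_apply (inv_mem hh.1) (hNH hn)] at h2
    rw [← G.T_inv_apply hh.1 (G.T n (G.T h v)), h2]
  have hVF : G.V (i + 1) ≤ FN G i := by
    intro v hv n hn
    exact hv n (by rw [hHi1]; exact hn.1)
  have hFV : FN G i ≤ G.V (i + 2) := by
    intro v hv h hh
    apply hv
    have h1 : G.up (i + 2) ≤ N G i := by
      rw [Geo.up, gpar, Subgroup.closure_le]
      rintro _ ⟨j, hj, rfl⟩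
      exact hN1 j hj
    exact h1 hh.2
  have d1 : Module.finrank ℝ (G.V (i + 1)) = i + 1 := hC.dim (i + 1) (by omega)
  have d2 : Module.finrank ℝ (G.V (i + 2)) = i + 2 := by
    by_cases h4 : i + 4 ≤ d
    · exact hC.dim (i + 2) (by omega)
    · have hd' : d - 1 = i + 2 := by omega
      have h5 := hC.dim' (by
        rw [hd']
        exact hupH (G.ρ_mem_up (by omega)))
      rw [hd'] at h5
      exact h5
  have l1 : Module.finrank ℝ (G.V (i + 1)) ≤ Module.finrank ℝ (FN G i) := Submodule.finrank_mono hVF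
  have l2 : Module.finrank ℝ (FN G i) ≤ Module.finrank ℝ (G.V (i + 2)) := Submodule.finrank_mono hFV
  have hcases : Module.finrank ℝ (FN G i) = i + 1 ∨ Module.finrank ℝ (FN G i) = i + 2 := by omega
  rcases hcases with hc | hc
  · -- `Fix N = V_{i+1}`
    have hF : G.V (i + 1) = FN G i :=
      Submodule.eq_of_le_of_finrank_eq hVF (by rw [d1, hc])
    apply hnot
    refine G.fix i (a * b * a) ?_
    intro g hg
    have hgdn : g ∈ G.dn i := hg
    have h1 : G.f ((a * g) • G.x0) ∈ G.V (i + 1) := by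
      rw [hF]
      intro n hn
      rw [G.equiv n (hNH hn)]
      congr 1
      rw [smul_smul]
      have h2 : a * n * a ∈ G.up (i + 1) := hn.2
      have e1 : n * (a * g) = a * g * (a * n * a) := by
        calc n * (a * g) = (1 : Γ) * n * a * g := by group
          _ = (a * a) * n * a * g := by rw [haa]
          _ = a * ((a * n * a) * g) := by group
          _ = a * (g * (a * n * a)) := by
            rw [G.comm_dn_up (Nat.lt_succ_self i) hgdn h2]
          _ = a * g * (a * n * a) := by group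
      rw [e1, mul_smul, G.up_fix_x0 (G.up_anti (by omega) h2)]
    have h2 := h1 b (by rw [hHi1]; exact hbup)
    rw [G.equiv b (hupH hbup)] at h2
    have h3 := G.inj h2
    calc (a * b * a) • g • G.x0 = a • (b • ((a * g) • G.x0)) := by
          simp only [smul_smul]
          congr 1
          group
      _ = a • ((a * g) • G.x0) := by rw [h3]
      _ = g • G.x0 := by
          rw [smul_smul, ← mul_assoc, haa, one_mul]
  · -- `Fix N = V_{i+2}`
    have hF : FN G i = G.V (i + 2) :=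
      Submodule.eq_of_le_of_finrank_eq hFV (by rw [d2, hc])
    have hL := Submodule.finrank_add_inf_finrank_orthogonal (G.V_mono (Nat.le_succ (i + 1)))
    have d2' : Module.finrank ℝ (G.V (i + 1).succ) = i + 2 := d2
    rw [d1, d2'] at hL
    have hU : Module.finrank ℝ (G.V (i + 1)) + Module.finrank ℝ (G.U (i + 1)) = d := by
      have := Submodule.finrank_add_finrank_orthogonal (G.V (i + 1))
      rw [finrank_euclideanSpace_fin] at this
      exact this
    have hstabL : ∀ h ∈ G.Hi (i + 1), ∀ v ∈ (G.V (i + 1))ᗮ ⊓ G.V (i + 1).succ,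
        G.T h v ∈ (G.V (i + 1))ᗮ ⊓ G.V (i + 1).succ := by
      rintro h hh v ⟨hv1, hv2⟩
      refine ⟨G.T_mem_U hh hv1, ?_⟩
      have hv2' : v ∈ FN G i := by rw [hF]; exact hv2
      have := hFstab h (G.Hi_anti (Nat.le_succ i) hh) v hv2'
      rw [hF] at this
      exact this
    rcases irr ((G.V (i + 1))ᗮ ⊓ G.V (i + 1).succ) inf_le_left hstabL with h | h
    · rw [h, finrank_bot] at hL
      omega
    · rw [h] at hL
      omega

end line

/-! ### the main step -/

theorem key [Finite Γ] {i : ℕ} (hC : Chain G) (hi : i + 3 ≤ d) (irr : G.Irr (i + 1)) {e : E d}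
    (he0 : e ≠ 0) (heV : e ∈ G.V (i + 1))
    (hsp : ∀ w, w ∈ G.V (i + 1) → w ∈ G.U i → ∃ c : ℝ, w = c • e) (B : Submodule ℝ (E d))
    (hBU : B ≤ G.U i) (hB : ∀ h ∈ G.Hi i, ∀ v ∈ B, G.T h v ∈ B) (heB : e ∈ B) : B = G.U i := by
  have hdec : ∀ v ∈ G.V (i + 1), ∃ w ∈ G.V i, ∃ c : ℝ, v = w + c • e :=
    fun v hv => decomp G hsp hv
  have hBo := stable_orth G (G.Hi_le_H i) hB
  have hle : Bᗮ ⊓ G.U i ≤ G.U (i + 1) := by
    rintro w ⟨hw1, hw2⟩
    rw [Geo.U, Submodule.mem_orthogonal]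
    intro v hv
    obtain ⟨z, hz, c, rfl⟩ := hdec v hv
    rw [inner_add_left, inner_smul_left]
    have h1 : ⟪z, w⟫ = (0 : ℝ) := (Submodule.mem_orthogonal _ _).1 hw2 z hz
    have h2 : ⟪e, w⟫ = (0 : ℝ) := (Submodule.mem_orthogonal _ _).1 hw1 e heB
    rw [h1, h2]
    simp
  have hst : ∀ h ∈ G.Hi (i + 1), ∀ v ∈ Bᗮ ⊓ G.U i, G.T h v ∈ Bᗮ ⊓ G.U i := by
    rintro h hh v ⟨hv1, hv2⟩
    have hh' := G.Hi_anti (Nat.le_succ i) hh
    exact ⟨hBo h hh' v hv1, G.T_mem_U hh' hv2⟩
  rcases irr _ hle hst with h | h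
  · have h1 := Submodule.finrank_add_inf_finrank_orthogonal hBU
    rw [h, finrank_bot, add_zero] at h1
    exact Submodule.eq_of_le_of_finrank_eq hBU h1
  · exfalso
    refine not_line G hC hi irr he0 heV hdec ?_
    intro k hk
    have h1 : G.T k e ∈ B := hB k hk e heB
    have h2 : G.T k e ∈ G.V (i + 1) := by
      have h3 : G.T k e ∈ (G.U (i + 1))ᗮ := by
        rw [← h, Submodule.mem_orthogonal']
        rintro u ⟨hu, -⟩
        exact (Submodule.mem_orthogonal _ _).1 hu _ h1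
      rw [Geo.U, Submodule.orthogonal_orthogonal] at h3
      exact h3
    obtain ⟨c, hc⟩ := hsp _ h2 (hBU h1)
    have h4 : ‖G.T k e‖ = ‖e‖ := LinearIsometryEquiv.norm_map _ _
    rw [hc, norm_smul] at h4
    have h5 : ‖c‖ = 1 := by
      have h6 : ‖e‖ ≠ 0 := norm_ne_zero_iff.2 he0
      exact mul_right_cancel₀ h6 (by rw [h4, one_mul])
    rw [Real.norm_eq_abs] at h5
    rcases (abs_eq (by norm_num)).1 h5 with h6 | h6
    · left; rw [hc, h6, one_smul]
    · right; rw [hc, h6, neg_one_smul]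

end ISMod

theorem irrStep : StmtIrrStep := by
  intro d Γ _ _ X _ G _ hC i hi irr B hBU hB
  obtain ⟨e, he0, heV, heU, hsp⟩ := ISMod.exists_e G (hC.dim i (by omega))
    (hC.dim (i + 1) (by omega))
  have hBo := ISMod.stable_orth G (G.Hi_le_H i) hB
  -- the projection of `e` to `B`
  obtain ⟨p, hp, q, hq, hpq⟩ := B.exists_add_mem_mem_orthogonal e
  have hpV : p ∈ G.V (i + 1) := by
    intro h hh
    have hh' := G.Hi_anti (Nat.le_succ i) hh
    have h1 : G.T h p + G.T h q = p + q := by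
      rw [← map_add, ← hpq]
      exact heV h hh
    have h2 : G.T h p - p = q - G.T h q := by
      rw [sub_eq_sub_iff_add_eq_add, h1, add_comm]
    have h3 : G.T h p - p ∈ B := B.sub_mem (hB h hh' p hp) hp
    have h4 : G.T h p - p ∈ Bᗮ := by
      rw [h2]
      exact Bᗮ.sub_mem hq (hBo h hh' q hq)
    have h5 : ⟪G.T h p - p, G.T h p - p⟫ = (0 : ℝ) := (Submodule.mem_orthogonal _ _).1 h4 _ h3
    exact sub_eq_zero.1 (inner_self_eq_zero.1 h5)
  obtain ⟨c, hc⟩ := hsp p hpV (hBU hp)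
  have hq' : q = (1 - c) • e := by
    rw [sub_smul, one_smul, ← hc]
    nth_rewrite 1 [hpq]
    abel
  have h0 : ⟪p, q⟫ = (0 : ℝ) := (Submodule.mem_orthogonal _ _).1 hq p hp
  rw [hc, hq', inner_smul_left, inner_smul_right] at h0
  have hee : ⟪e, e⟫ ≠ (0 : ℝ) := fun h => he0 (inner_self_eq_zero.1 h)
  have hcc : c = 0 ∨ 1 - c = 0 := by
    rcases mul_eq_zero.1 h0 with h | h
    · left; simpa using h
    · rcases mul_eq_zero.1 h with h | h
      · right; exact h
      · exact absurd h hee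
  rcases hcc with h | h
  · -- `e ∈ Bᗮ`
    left
    have heB : e ∈ Bᗮ ⊓ G.U i := by
      refine ⟨?_, heU⟩
      rw [h, sub_zero, one_smul] at hq'
      rw [← hq']
      exact hq
    have hst : ∀ h ∈ G.Hi i, ∀ v ∈ Bᗮ ⊓ G.U i, G.T h v ∈ Bᗮ ⊓ G.U i := by
      rintro h hh v ⟨hv1, hv2⟩
      exact ⟨hBo h hh v hv1, G.T_mem_U hh hv2⟩
    have h1 := ISMod.key G hC hi irr he0 heV hsp _ inf_le_right hst heB
    rw [Submodule.eq_bot_iff]
    intro v hv
    have h2 : v ∈ Bᗮ := by
      have := hBU hv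
      rw [← h1] at this
      exact this.1
    exact inner_self_eq_zero.1 ((Submodule.mem_orthogonal _ _).1 h2 v hv)
  · -- `e ∈ B`
    right
    refine ISMod.key G hC hi irr he0 heV hsp B hBU hB ?_
    have hc1 : c = 1 := by linarith
    rw [hc1, one_smul] at hc
    rw [← hc]
    exact hp

end

end FO2
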