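import Pool.Agent.FO2.Stmts

/-!
# Sections J01 and CHI

Both proofs use the isometry `g` of `StmtStarN` for `α = ρ 1` and the reflection `ρ (d - 1)`.
-/

namespace FO2

open Lib_helper64.FO
open scoped RealInnerProductSpace

noncomputable section

namespace J01

variable {d : ℕ} {Γ : Type} [Group Γ] {X : Type} [MulAction Γ X]

/-- A criterion for a subset to generate `H`. -/
theorem closure_eq (G : Geo d Γ X) (S : Set Γ) (hS : ∀ s ∈ S, s ∈ G.H) (α : Γ) (hα : α ∉ G.H)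
    (hα2 : α * α = 1) (hconj : ∀ s ∈ S, α * s * α⁻¹ ∈ Subgroup.closure S)
    (hgen : ∀ j, G.ρ j ∈ Subgroup.closure S ∨ ∃ k ∈ Subgroup.closure S, G.ρ j = k * α) :
    Subgroup.closure S = G.H := by
  have hle : Subgroup.closure S ≤ G.H := by
    rw [Subgroup.closure_le]
    exact hS
  have hαi : α⁻¹ = α := inv_eq_of_mul_eq_one_left hα2
  have hK : ∀ k ∈ Subgroup.closure S, α * k * α⁻¹ ∈ Subgroup.closure S := by
    intro k hk
    refine Subgroup.closure_induction (p := fun k _ => α * k * α⁻¹ ∈ Subgroup.closure S)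
      hconj ?_ ?_ ?_ hk
    · simp
    · rintro a b - - ha hb
      have e : α * (a * b) * α⁻¹ = (α * a * α⁻¹) * (α * b * α⁻¹) := by group
      rw [e]
      exact mul_mem ha hb
    · rintro a - ha
      have e : α * a⁻¹ * α⁻¹ = (α * a * α⁻¹)⁻¹ := by group
      rw [e]
      exact inv_mem ha
  have hall : ∀ γ : Γ, γ ∈ Subgroup.closure S ∨ ∃ k ∈ Subgroup.closure S, γ = k * α := by
    intro γ
    have hγ : γ ∈ gpar G.ρ Set.univ := by
      rw [G.gen]
      exact Subgroup.mem_top γ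
    refine Subgroup.closure_induction
      (p := fun γ _ => γ ∈ Subgroup.closure S ∨ ∃ k ∈ Subgroup.closure S, γ = k * α)
      ?_ ?_ ?_ ?_ hγ
    · rintro _ ⟨j, -, rfl⟩
      exact hgen j
    · exact Or.inl (one_mem _)
    · rintro a b - - ha hb
      rcases ha with ha | ⟨k, hk, rfl⟩
      · rcases hb with hb | ⟨l, hl, rfl⟩
        · exact Or.inl (mul_mem ha hb)
        · exact Or.inr ⟨a * l, mul_mem ha hl, by group⟩
      · rcases hb with hb | ⟨l, hl, rfl⟩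
        · exact Or.inr ⟨k * (α * b * α⁻¹), mul_mem hk (hK b hb), by group⟩
        · refine Or.inl ?_
          have e : k * α * (l * α) = k * (α * l * α⁻¹) := by
            rw [hαi]
            group
          rw [e]
          exact mul_mem hk (hK l hl)
    · rintro a - ha
      rcases ha with ha | ⟨k, hk, rfl⟩
      · exact Or.inl ((Subgroup.closure S).inv_mem ha)
      · refine Or.inr ⟨α * k⁻¹ * α⁻¹, hK _ ((Subgroup.closure S).inv_mem hk), ?_⟩
        rw [mul_inv_rev, hαi, mul_assoc, mul_assoc, hα2, mul_one]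
  refine le_antisymm hle ?_
  intro h hh
  rcases hall h with h1 | ⟨k, hk, e⟩
  · exact h1
  · exfalso
    apply hα
    have e2 : α = k⁻¹ * h := by rw [e]; group
    rw [e2]
    exact G.H.mul_mem (G.H.inv_mem (hle hk)) hh

theorem α_conj_Hi1 (G : Geo d Γ X) {h : Γ} (hh : h ∈ G.Hi 1) :
    G.ρ 1 * h * (G.ρ 1)⁻¹ ∈ G.Hi 1 := by
  refine ⟨G.conj_mem _ hh.1, ?_⟩
  exact (G.up 1).mul_mem ((G.up 1).mul_mem (G.ρ_mem_up le_rfl) hh.2)
    ((G.up 1).inv_mem (G.ρ_mem_up le_rfl))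

/-- `V_1` is the line spanned by `x`. -/
theorem mem_V1 (G : Geo d Γ X) (hd : 3 ≤ d) (hc : Chain G) {v : E d} (hv : v ∈ G.V 1) :
    ∃ c : ℝ, v = c • G.x := by
  have hdim := hc.dim 1 hd
  have hx : (⟨G.x, G.x_mem_V1⟩ : G.V 1) ≠ 0 := by
    intro h
    exact hc.x_ne (congrArg Subtype.val h)
  obtain ⟨c, hc'⟩ := (finrank_eq_one_iff_of_nonzero' _ hx).1 hdim ⟨v, hv⟩
  refine ⟨c, ?_⟩
  exact (congrArg Subtype.val hc').symm

theorem r_mem_U (G : Geo d Γ X) {r : E d} (hl : Last G r) {i : ℕ} (hi : i ≤ d - 1) : r ∈ G.U i := by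
  rw [Geo.U, Submodule.mem_orthogonal']
  intro v hv
  exact hl.perp v (G.V_mono hi hv)

theorem r_ne (G : Geo d Γ X) {r : E d} (hl : Last G r) : r ≠ 0 := by
  intro h
  have := hl.norm
  rw [h, norm_zero] at this
  exact zero_ne_one this

theorem eq_zero_of_eq_neg {v : E d} (h : v = -v) : v = 0 := by
  have h2 : (2 : ℝ) • v = 0 := by
    rw [two_smul]
    nth_rewrite 2 [h]
    exact add_neg_cancel v
  exact (smul_eq_zero.1 h2).resolve_left two_ne_zero

/-- the isometry `g` of `StmtStarN` has `g² = 1` -/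
theorem g_sq (G : Geo d Γ X) (hd : 5 ≤ d) {r : E d} (hl : Last G r) (g : E d ≃ₗᵢ[ℝ] E d)
    (gx : g G.x = G.x) (gr : g r = r ∨ g r = -r)
    (g1 : ∀ h ∈ G.Hi 1, ∀ v, g (G.T h v) = G.T (G.ρ 1 * h * (G.ρ 1)⁻¹) (g v)) :
    ∀ v, g (g v) = v := by
  have hcomm : ∀ h ∈ G.Hi 1, ∀ v, g (g (G.T h v)) = G.T h (g (g v)) := by
    intro h hh v
    rw [g1 h hh, g1 _ (α_conj_Hi1 G hh)]
    have e : G.ρ 1 * (G.ρ 1 * h * (G.ρ 1)⁻¹) * (G.ρ 1)⁻¹ = h := by
      rw [G.inv_ρ]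
      have h2 := G.sq 1
      calc G.ρ 1 * (G.ρ 1 * h * G.ρ 1) * G.ρ 1 = (G.ρ 1 * G.ρ 1) * h * (G.ρ 1 * G.ρ 1) := by group
        _ = h := by rw [h2, one_mul, mul_one]
    rw [e]
  have hV : ∀ v ∈ G.V 1, (g.trans g) v ∈ G.V 1 := by
    intro v hv m hm
    change G.T m (g (g v)) = g (g v)
    rw [← hcomm m hm, hv m hm]
  have hU : ∀ v ∈ G.U 1, (g.trans g) v ∈ G.U 1 := fun v hv => G.map_mem_U (g.trans g) hV hv
  have hscal := hl.good.scal 1 (by omega) (g.trans g) hU (fun h hh v _ => hcomm h hh v)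
  have grr : g (g r) = r := by
    rcases gr with e | e
    · rw [e, e]
    · rw [e, map_neg, e, neg_neg]
  have hU1 : ∀ v ∈ G.U 1, g (g v) = v := by
    rcases hscal with h | h
    · exact h
    · exfalso
      have h1 : g (g r) = -r := h r (r_mem_U G hl (by omega))
      rw [grr] at h1
      exact r_ne G hl (eq_zero_of_eq_neg h1)
  have hV1 : ∀ v ∈ G.V 1, g (g v) = v := by
    intro v hv
    obtain ⟨c, rfl⟩ := mem_V1 G (by omega) hl.good.chain hv
    rw [map_smul, map_smul, gx, gx]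
  intro v
  obtain ⟨y, hy, z, hz, rfl⟩ := (G.V 1).exists_add_mem_mem_orthogonal v
  rw [map_add, map_add, hV1 y hy, hU1 z hz]

end J01

theorem j01 (h1 : StmtExt) (h2 : StmtStarN) : StmtJ01 := by
  intro d Γ _ _ X _ G r hd hl hirr hsl hρ2
  by_contra hno
  rw [not_or] at hno
  obtain ⟨h0, hα⟩ := hno
  have hlast : G.ρ (d - 1) ∈ G.H := hl.J _ (by omega)
  have hc : G.ρ 1 * G.ρ (d - 1) * (G.ρ 1)⁻¹ = G.ρ (d - 1) := by
    rw [G.comm 1 (d - 1) (by omega)]
    group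
  obtain ⟨g, gx, gr, -, gs, g1⟩ := h2 d Γ X G (by omega) hl.good (G.ρ (d - 1)) 1 r hlast
    (Or.inl rfl) hl.norm (fun v => by rw [hl.refl, one_smul]) hirr hl.span hsl (G.ρ 1) hc
    (G.ρ_mem_up le_rfl)
  have gg := J01.g_sq G hd hl g gx gr g1
  have hi1 := G.inv_ρ 1
  have hi0 := G.inv_ρ 0
  have hs1 := G.sq 1
  have hu : G.ρ 0 * G.ρ 1 ∈ G.H := G.mul_mem_of_not h0 hα
  have hcu : G.ρ 1 * (G.ρ 0 * G.ρ 1) * (G.ρ 1)⁻¹ = (G.ρ 0 * G.ρ 1)⁻¹ := by
    rw [mul_inv_rev, hi0, hi1]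
    calc G.ρ 1 * (G.ρ 0 * G.ρ 1) * G.ρ 1 = G.ρ 1 * G.ρ 0 * (G.ρ 1 * G.ρ 1) := by group
      _ = G.ρ 1 * G.ρ 0 := by rw [hs1, mul_one]
  have hcl : Subgroup.closure ((G.Hi 1 : Set Γ) ∪ {G.ρ 0 * G.ρ 1}) = G.H := by
    refine J01.closure_eq G _ ?_ (G.ρ 1) hα hs1 ?_ ?_
    · rintro s (hs | hs)
      · exact hs.1
      · rw [Set.mem_singleton_iff] at hs
        rw [hs]
        exact hu
    · rintro s (hs | hs)
      · exact Subgroup.subset_closure (Or.inl (J01.α_conj_Hi1 G hs))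
      · rw [Set.mem_singleton_iff] at hs
        rw [hs, hcu]
        exact inv_mem (Subgroup.subset_closure (Or.inr rfl))
    · intro j
      rcases Nat.lt_or_ge j 2 with hj | hj
      · have hj' : j = 0 ∨ j = 1 := by omega
        rcases hj' with rfl | rfl
        · refine Or.inr ⟨G.ρ 0 * G.ρ 1, Subgroup.subset_closure (Or.inr rfl), ?_⟩
          rw [mul_assoc, hs1, mul_one]
        · exact Or.inr ⟨1, one_mem _, (one_mul _).symm⟩
      · refine Or.inl (Subgroup.subset_closure (Or.inl ⟨?_, G.ρ_mem_up (by omega)⟩))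
        rcases Nat.eq_or_lt_of_le hj with h | h
        · rw [← h]
          exact hρ2
        · exact hl.J j h
  rcases gs _ hu with hp | hm
  · refine h1 d Γ X G (G.ρ 1) (G.ρ_mem_up le_rfl) hα g gx _ hcl ?_
    rintro s (hs | hs)
    · exact g1 s hs
    · rw [Set.mem_singleton_iff] at hs
      rw [hs]
      exact hp
  · rw [hcu] at hm
    -- `A = T u ∘ g`
    have hA : ∀ h ∈ G.Hi 2, ∀ v, G.T (G.ρ 0 * G.ρ 1) (g (G.T h v)) =
        G.T h (G.T (G.ρ 0 * G.ρ 1) (g v)) := by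
      intro h hh v
      have hh1 : h ∈ G.Hi 1 := G.Hi_anti (by norm_num) hh
      rw [g1 h hh1, ← G.T_mul_apply hu (G.conj_mem _ hh.1), ← G.T_mul_apply hh.1 hu]
      have e : G.ρ 0 * G.ρ 1 * (G.ρ 1 * h * (G.ρ 1)⁻¹) = h * (G.ρ 0 * G.ρ 1) := by
        rw [hi1]
        calc G.ρ 0 * G.ρ 1 * (G.ρ 1 * h * G.ρ 1) = G.ρ 0 * (G.ρ 1 * G.ρ 1) * h * G.ρ 1 := by group
          _ = G.ρ 0 * h * G.ρ 1 := by rw [hs1, mul_one]
          _ = h * G.ρ 0 * G.ρ 1 := by rw [G.comm_up (by norm_num) hh.2]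
          _ = h * (G.ρ 0 * G.ρ 1) := by group
      rw [e]
    have hV : ∀ v ∈ G.V 2, (g.trans (G.T (G.ρ 0 * G.ρ 1))) v ∈ G.V 2 := by
      intro v hv m hm'
      change G.T m (G.T (G.ρ 0 * G.ρ 1) (g v)) = G.T (G.ρ 0 * G.ρ 1) (g v)
      rw [← hA m hm', hv m hm']
    have hU : ∀ v ∈ G.U 2, (g.trans (G.T (G.ρ 0 * G.ρ 1))) v ∈ G.U 2 :=
      fun v hv => G.map_mem_U _ hV hv
    have hscal := hl.good.scal 2 (by omega) (g.trans (G.T (G.ρ 0 * G.ρ 1))) hU
      (fun h hh v _ => hA h hh v)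
    have hr2 : r ∈ G.U 2 := J01.r_mem_U G hl (by omega)
    have hAA : G.T (G.ρ 0 * G.ρ 1) (g (G.T (G.ρ 0 * G.ρ 1) (g r))) = r := by
      rcases hscal with h | h
      · have e : G.T (G.ρ 0 * G.ρ 1) (g r) = r := h r hr2
        rw [e, e]
      · have e : G.T (G.ρ 0 * G.ρ 1) (g r) = -r := h r hr2
        rw [e, map_neg, map_neg, e, neg_neg]
    rw [hm, map_neg, G.T_inv_apply hu, gg] at hAA
    exact J01.r_ne G hl (J01.eq_zero_of_eq_neg hAA.symm)

theorem chi (h1 : StmtExt) (h2 : StmtStarN) : StmtChi := by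
  intro d Γ _ _ X _ G r hd hl hirr hsl h0 hα hρ2
  have hlast : G.ρ (d - 1) ∈ G.H := hl.J _ (by omega)
  have hc : G.ρ 1 * G.ρ (d - 1) * (G.ρ 1)⁻¹ = G.ρ (d - 1) := by
    rw [G.comm 1 (d - 1) (by omega)]
    group
  obtain ⟨g, gx, gr, go, gs, g1⟩ := h2 d Γ X G (by omega) hl.good (G.ρ (d - 1)) 1 r hlast
    (Or.inl rfl) hl.norm (fun v => by rw [hl.refl, one_smul]) hirr hl.span hsl (G.ρ 1) hc
    (G.ρ_mem_up le_rfl)
  have gg := J01.g_sq G hd hl g gx gr g1
  have hi1 := G.inv_ρ 1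
  have hs1 := G.sq 1
  have key : ∀ v, g (G.T (G.ρ 0) v) = -G.T (G.ρ 1 * G.ρ 0 * G.ρ 1) (g v) := by
    rcases gs _ h0 with hp | hm
    swap
    · rw [hi1] at hm
      exact hm
    exfalso
    have hk : G.ρ 1 * G.ρ 0 * (G.ρ 1)⁻¹ ∈ G.H := G.conj_mem _ h0
    have hck : G.ρ 1 * (G.ρ 1 * G.ρ 0 * (G.ρ 1)⁻¹) * (G.ρ 1)⁻¹ = G.ρ 0 := by
      rw [hi1]
      calc G.ρ 1 * (G.ρ 1 * G.ρ 0 * G.ρ 1) * G.ρ 1 =
          (G.ρ 1 * G.ρ 1) * G.ρ 0 * (G.ρ 1 * G.ρ 1) := by group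
        _ = G.ρ 0 := by rw [hs1, one_mul, mul_one]
    have hcl : Subgroup.closure ((G.Hi 1 : Set Γ) ∪ {G.ρ 0, G.ρ 1 * G.ρ 0 * (G.ρ 1)⁻¹}) =
        G.H := by
      refine J01.closure_eq G _ ?_ (G.ρ 1) hα hs1 ?_ ?_
      · rintro s (hs | hs | hs)
        · exact hs.1
        · rw [hs]
          exact h0
        · rw [Set.mem_singleton_iff] at hs
          rw [hs]
          exact hk
      · rintro s (hs | hs | hs)
        · exact Subgroup.subset_closure (Or.inl (J01.α_conj_Hi1 G hs))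
        · rw [hs]
          exact Subgroup.subset_closure (Or.inr (Or.inr rfl))
        · rw [Set.mem_singleton_iff] at hs
          rw [hs, hck]
          exact Subgroup.subset_closure (Or.inr (Or.inl rfl))
      · intro j
        rcases Nat.lt_or_ge j 2 with hj | hj
        · have hj' : j = 0 ∨ j = 1 := by omega
          rcases hj' with rfl | rfl
          · exact Or.inl (Subgroup.subset_closure (Or.inr (Or.inl rfl)))
          · exact Or.inr ⟨1, one_mem _, (one_mul _).symm⟩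
        · refine Or.inl (Subgroup.subset_closure (Or.inl ⟨?_, G.ρ_mem_up (by omega)⟩))
          rcases Nat.eq_or_lt_of_le hj with h | h
          · rw [← h]
            exact hρ2
          · exact hl.J j h
    refine h1 d Γ X G (G.ρ 1) (G.ρ_mem_up le_rfl) hα g gx _ hcl ?_
    rintro s (hs | hs | hs)
    · exact g1 s hs
    · rw [hs]
      exact hp
    · rw [Set.mem_singleton_iff] at hs
      rw [hs, hck]
      intro v
      have e := hp (g v)
      rw [gg v] at e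
      rw [← e, gg]
  refine ⟨g, gx, gr, go, ?_, ?_, key⟩
  · intro h hh
    have := gs h hh
    rw [hi1] at this
    exact this
  · intro h hh v
    have := g1 h hh v
    rw [hi1] at this
    exact this

end

end FO2
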