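import Pool.Agent.FO2.Stmts

/-!
# The generator `ρ 2` is isometric (module J2)
-/

namespace FO2

open Lib_helper64.FO
open scoped RealInnerProductSpace

noncomputable section

namespace J2

variable {d : ℕ} {Γ : Type} [Group Γ] {X : Type} [MulAction Γ X] (G : Geo d Γ X)

/-- A subgroup `K` of `H` that contains `H_1` and `α t ρ 0`-like elements is `H`: here `α = ρ j`,
`j ≥ 1`, is not in `H`, it normalises `K`, and `α * ρ 0 ∈ K`. -/
theorem eq_H {j : ℕ} (hj : 1 ≤ j) (hα : G.ρ j ∉ G.H) (K : Subgroup Γ) (hK : K ≤ G.H)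
    (h1 : G.Hi 1 ≤ K) (hn : ∀ k ∈ K, G.ρ j * k * G.ρ j ∈ K) (h0 : G.ρ j * G.ρ 0 ∈ K) :
    K = G.H := by
  have hsq := G.sq j
  have key : ∀ γ : Γ, γ ∈ K ∨ G.ρ j * γ ∈ K := by
    intro γ
    have hγ : γ ∈ Subgroup.closure (G.ρ '' Set.univ) := by
      have := G.gen
      unfold gpar at this
      rw [this]
      exact Subgroup.mem_top γ
    refine Subgroup.closure_induction (p := fun γ _ => γ ∈ K ∨ G.ρ j * γ ∈ K) ?_ ?_ ?_ ?_ hγ
    · rintro _ ⟨i, -, rfl⟩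
      rcases Nat.eq_zero_or_pos i with rfl | hi
      · exact Or.inr h0
      · have hup : G.ρ i ∈ G.up 1 := G.ρ_mem_up hi
        by_cases hH : G.ρ i ∈ G.H
        · exact Or.inl (h1 ⟨hH, hup⟩)
        · exact Or.inr (h1 ⟨G.mul_mem_of_not hα hH, mul_mem (G.ρ_mem_up hj) hup⟩)
    · exact Or.inl (one_mem K)
    · rintro a b - - ha hb
      rcases ha with ha | ha <;> rcases hb with hb | hb
      · exact Or.inl (mul_mem ha hb)
      · right
        have := mul_mem (hn a ha) hb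
        have e : G.ρ j * a * G.ρ j * (G.ρ j * b) = G.ρ j * (a * b) := by
          calc G.ρ j * a * G.ρ j * (G.ρ j * b) = G.ρ j * a * (G.ρ j * G.ρ j) * b := by group
            _ = _ := by rw [hsq]; group
        rwa [e] at this
      · right
        have := mul_mem ha hb
        rwa [mul_assoc] at this
      · left
        have := mul_mem (hn _ ha) hb
        have e : G.ρ j * (G.ρ j * a) * G.ρ j * (G.ρ j * b) = a * b := by
          calc G.ρ j * (G.ρ j * a) * G.ρ j * (G.ρ j * b) =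
              (G.ρ j * G.ρ j) * a * (G.ρ j * G.ρ j) * b := by group
            _ = _ := by rw [hsq]; group
        rwa [e] at this
    · rintro a - ha
      rcases ha with ha | ha
      · exact Or.inl (inv_mem ha)
      · right
        have := hn _ (inv_mem ha)
        have e : G.ρ j * (G.ρ j * a)⁻¹ * G.ρ j = G.ρ j * a⁻¹ := by
          rw [mul_inv_rev, G.inv_ρ]
          calc G.ρ j * (a⁻¹ * G.ρ j) * G.ρ j = G.ρ j * a⁻¹ * (G.ρ j * G.ρ j) := by group
            _ = _ := by rw [hsq, mul_one]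
        rwa [e] at this
  refine le_antisymm hK fun γ hγ => ?_
  rcases key γ with h | h
  · exact h
  · exfalso
    apply hα
    have h2 : G.ρ j * γ * γ⁻¹ ∈ G.H := mul_mem (hK h) (inv_mem hγ)
    rwa [mul_inv_cancel_right] at h2

/-- If `U_i` is zero then the dimension of `V_i` is `d`. -/
theorem U_ne (hc : Chain G) {i : ℕ} (hi : i + 2 ≤ d) : ∃ v ∈ G.U i, v ≠ 0 := by
  by_contra hcon
  push Not at hcon
  have h1 : G.U i = ⊥ := by
    rw [eq_bot_iff]
    intro v hv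
    rw [Submodule.mem_bot]
    exact hcon v hv
  have h2 := hc.dim i hi
  have h3 : G.V i = ⊤ := by
    unfold Geo.U at h1
    exact (Submodule.orthogonal_eq_bot_iff).1 h1
  rw [h3, finrank_top] at h2
  have h4 : Module.finrank ℝ (E d) = d := by simp
  omega

end J2

theorem j2 (h1 : StmtExt) (h2 : StmtStarN) : StmtJ2 := by
  intro d Γ _ _ X _ G r hd hL hirr hSL
  by_contra hρ2
  have hρ0 : G.ρ 0 ∉ G.H := fun h => hρ2 (hL.J0 h)
  have hc := hL.good.chain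
  have h02 : G.ρ 0 * G.ρ 2 = G.ρ 2 * G.ρ 0 := G.comm 0 2 (by omega)
  have hlast : G.ρ 2 * G.ρ (d - 1) = G.ρ (d - 1) * G.ρ 2 := G.comm 2 (d - 1) (by omega)
  have hi2 : (G.ρ 2)⁻¹ = G.ρ 2 := G.inv_ρ 2
  have hsq := G.sq 2
  obtain ⟨g, gx, -, -, gH, gH1⟩ := h2 d Γ X G (by omega) hL.good (G.ρ (d - 1)) 1 r
    (hL.J (d - 1) (by omega)) (Or.inl rfl) hL.norm (fun v => by rw [one_smul]; exact hL.refl v)
    hirr hL.span hSL (G.ρ 2) (by rw [hlast, mul_inv_cancel_right]) (G.ρ_mem_up (by omega))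
  obtain ⟨t0, ht0⟩ : ∃ t : Γ, t = G.ρ 2 * G.ρ 0 := ⟨_, rfl⟩
  have ht0H : t0 ∈ G.H := by
    rw [ht0]
    exact G.mul_mem_of_not hρ2 hρ0
  have hcomm : G.ρ 2 * t0 * (G.ρ 2)⁻¹ = t0 := by
    rw [hi2, ht0]
    calc G.ρ 2 * (G.ρ 2 * G.ρ 0) * G.ρ 2 = (G.ρ 2 * G.ρ 2) * (G.ρ 0 * G.ρ 2) := by group
      _ = _ := by rw [hsq, one_mul, h02]
  have hinv0 : t0⁻¹ = G.ρ 0 * G.ρ 2 := by rw [ht0, mul_inv_rev, G.inv_ρ, hi2]
  -- conjugation by `t0` on `H_2`
  have hconj : ∀ h ∈ G.Hi 2, t0 * h * t0⁻¹ = G.ρ 2 * h * (G.ρ 2)⁻¹ := by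
    intro h hh
    have e := G.comm_up (i := 0) (j := 2) (by omega) hh.2
    rw [hinv0, ht0, hi2]
    calc G.ρ 2 * G.ρ 0 * h * (G.ρ 0 * G.ρ 2) = G.ρ 2 * (G.ρ 0 * h) * (G.ρ 0 * G.ρ 2) := by group
      _ = G.ρ 2 * h * (G.ρ 0 * G.ρ 0) * G.ρ 2 := by rw [e]; group
      _ = _ := by rw [G.sq 0]; group
  have hρ2up : G.ρ 2 ∈ G.up 2 := G.ρ_mem_up le_rfl
  have hconj_mem : ∀ h ∈ G.Hi 2, G.ρ 2 * h * (G.ρ 2)⁻¹ ∈ G.Hi 2 := by
    intro h hh
    have h3 : G.ρ 2 * h * (G.ρ 2)⁻¹ ∈ G.up 2 := mul_mem (mul_mem hρ2up hh.2) (inv_mem hρ2up)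
    exact ⟨G.conj_mem _ hh.1, h3⟩
  have hconj_mem' : ∀ h ∈ G.Hi 2, t0⁻¹ * h * t0 ∈ G.Hi 2 := by
    intro h hh
    have e1 : t0⁻¹ * h * t0 = G.ρ 2 * h * (G.ρ 2)⁻¹ := by
      have e := G.comm_up (i := 0) (j := 2) (by omega) hh.2
      rw [hinv0, ht0, ← h02, hi2]
      calc G.ρ 0 * G.ρ 2 * h * (G.ρ 0 * G.ρ 2) = G.ρ 0 * G.ρ 2 * (h * G.ρ 0) * G.ρ 2 := by group
        _ = G.ρ 0 * G.ρ 2 * (G.ρ 0 * h) * G.ρ 2 := by rw [e]
        _ = (G.ρ 0 * G.ρ 2) * G.ρ 0 * h * G.ρ 2 := by group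
        _ = G.ρ 2 * (G.ρ 0 * G.ρ 0) * h * G.ρ 2 := by rw [h02]; group
        _ = _ := by rw [G.sq 0]; group
    rw [e1]
    exact hconj_mem h hh
  have hTconj : ∀ h ∈ G.Hi 2, ∀ v, G.T t0 (G.T h v) = G.T (G.ρ 2 * h * (G.ρ 2)⁻¹) (G.T t0 v) := by
    intro h hh v
    rw [← hconj h hh, ← G.T_mul_apply ht0H hh.1,
      ← G.T_mul_apply (mul_mem (mul_mem ht0H hh.1) (inv_mem ht0H)) ht0H, inv_mul_cancel_right]
  have hg2 : ∀ h ∈ G.Hi 2, ∀ v, g (G.T h v) = G.T (G.ρ 2 * h * (G.ρ 2)⁻¹) (g v) :=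
    fun h hh v => gH1 h (G.Hi_anti (by omega) hh) v
  -- the isometry `A`
  set A : E d ≃ₗᵢ[ℝ] E d := g.trans (G.T t0).symm with hA
  have hAg : ∀ v, G.T t0 (A v) = g v := fun v => (G.T t0).apply_symm_apply (g v)
  have hAcomm : ∀ h ∈ G.Hi 2, ∀ v, A (G.T h v) = G.T h (A v) := by
    intro h hh v
    apply (G.T t0).injective
    rw [hAg, hTconj h hh, hAg, hg2 h hh]
  have hAV : ∀ v ∈ G.V 2, A v ∈ G.V 2 := fun v hv =>
    G.map_mem_V A (fun m hm => ⟨m, hm, fun w => (hAcomm m hm w).symm⟩) hv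
  have hAU : ∀ v ∈ G.U 2, A v ∈ G.U 2 := fun v hv => G.map_mem_U A hAV hv
  have hTU : ∀ v ∈ G.U 2, G.T t0 v ∈ G.U 2 := fun v hv =>
    G.map_mem_U (G.T t0) (fun w hw => G.T_mem_V ht0H hconj_mem' hw) hv
  obtain ⟨w, hwU, hw0⟩ := J2.U_ne G hc (i := 2) (by omega)
  have hsame : g (G.T t0 w) = G.T t0 (g w) := by
    rcases hL.good.scal 2 (by omega) A hAU (fun h hh v _ => hAcomm h hh v) with h | h
    · have e : ∀ v ∈ G.U 2, g v = G.T t0 v := fun v hv => by rw [← hAg v, h v hv]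
      rw [e _ (hTU w hwU), e w hwU]
    · have e : ∀ v ∈ G.U 2, g v = -G.T t0 v := fun v hv => by rw [← hAg v, h v hv, map_neg]
      rw [e _ (hTU w hwU), e w hwU, map_neg]
  have hplus : ∀ v, g (G.T t0 v) = G.T (G.ρ 2 * t0 * (G.ρ 2)⁻¹) (g v) := by
    rcases gH t0 ht0H with h | h
    · exact h
    · exfalso
      have e := h w
      rw [hcomm, hsame] at e
      have e2 : G.T t0 (g w) = 0 := by
        have : (2 : ℝ) • G.T t0 (g w) = 0 := by
          rw [two_smul]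
          nth_rewrite 1 [e]
          exact neg_add_cancel _
        exact (smul_eq_zero.1 this).resolve_left two_ne_zero
      have e3 : g w = 0 := by
        have : G.T t0 (g w) = G.T t0 0 := by rw [e2, map_zero]
        exact (G.T t0).injective this
      have e4 : w = 0 := by
        have : g w = g 0 := by rw [e3, map_zero]
        exact g.injective this
      exact hw0 e4
  -- the generators
  set S : Set Γ := (G.Hi 1 : Set Γ) ∪ {t0} with hS
  have hSH : Subgroup.closure S ≤ G.H := by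
    rw [Subgroup.closure_le]
    rintro s (hs | hs)
    · exact hs.1
    · rw [Set.mem_singleton_iff] at hs
      rw [hs]
      exact ht0H
  have hcl : Subgroup.closure S = G.H := by
    refine J2.eq_H G (j := 2) (by omega) hρ2 _ hSH ?_ ?_ ?_
    · intro k hk
      exact Subgroup.subset_closure (Or.inl hk)
    · intro k hk
      refine Subgroup.closure_induction (p := fun k _ => G.ρ 2 * k * G.ρ 2 ∈ Subgroup.closure S)
        ?_ ?_ ?_ ?_ hk
      · rintro s (hs | hs)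
        · refine Subgroup.subset_closure (Or.inl ?_)
          have hρ1up : G.ρ 2 ∈ G.up 1 := G.ρ_mem_up (by omega)
          have h3 : G.ρ 2 * s * (G.ρ 2)⁻¹ ∈ G.up 1 := mul_mem (mul_mem hρ1up hs.2) (inv_mem hρ1up)
          have hm : G.ρ 2 * s * (G.ρ 2)⁻¹ ∈ G.Hi 1 := ⟨G.conj_mem _ hs.1, h3⟩
          rw [hi2] at hm
          exact hm
        · rw [Set.mem_singleton_iff] at hs
          subst hs
          rw [hi2] at hcomm
          rw [hcomm]
          exact Subgroup.subset_closure (Or.inr rfl)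
      · rw [mul_one, hsq]
        exact one_mem _
      · rintro a b - - ha hb
        have e : G.ρ 2 * (a * b) * G.ρ 2 = (G.ρ 2 * a * G.ρ 2) * (G.ρ 2 * b * G.ρ 2) := by
          calc G.ρ 2 * (a * b) * G.ρ 2 = G.ρ 2 * a * 1 * b * G.ρ 2 := by group
            _ = _ := by rw [← hsq]; group
        rw [e]
        exact mul_mem ha hb
      · rintro a - ha
        have e : G.ρ 2 * a⁻¹ * G.ρ 2 = (G.ρ 2 * a * G.ρ 2)⁻¹ := by
          rw [mul_inv_rev, mul_inv_rev, hi2, mul_assoc]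
        rw [e]
        exact inv_mem ha
    · rw [← ht0]
      exact Subgroup.subset_closure (Or.inr rfl)
  refine h1 d Γ X G (G.ρ 2) (G.ρ_mem_up (by omega)) hρ2 g gx S hcl ?_
  rintro s (hs | hs) v
  · exact gH1 s hs v
  · rw [Set.mem_singleton_iff] at hs
    subst hs
    exact hplus v

end

end FO2
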