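import Pool.Agent.FO2.Stmts

/-!
# The subgroups `H_i` are symmetric groups
-/

namespace FO2

open Lib_helper64.FO
open scoped RealInnerProductSpace

noncomputable section

namespace L1

/-! ### counting classes -/

theorem quot_card {n : ℕ} (r : Setoid (Fin n)) [Fintype (Quotient r)] (S : Finset (Fin n))
    (hS : ∀ s ∈ S, ∃ t, t ∉ S ∧ r s t) : Fintype.card (Quotient r) + S.card ≤ n := by
  classical
  have h1 : (Finset.univ : Finset (Quotient r)) = Sᶜ.image (fun a => (⟦a⟧ : Quotient r)) := by
    symm
    rw [Finset.eq_univ_iff_forall]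
    intro q
    induction q using Quotient.inductionOn with
    | h a =>
      by_cases ha : a ∈ S
      · obtain ⟨t, ht, h⟩ := hS a ha
        exact Finset.mem_image.2 ⟨t, Finset.mem_compl.2 ht, Quotient.sound (r.symm h)⟩
      · exact Finset.mem_image.2 ⟨a, Finset.mem_compl.2 ha, rfl⟩
  have h2 : Fintype.card (Quotient r) ≤ Sᶜ.card := by
    rw [← Finset.card_univ, h1]
    exact Finset.card_image_le
  have h3 := Finset.card_add_card_compl S
  rw [Fintype.card_fin] at h3
  omega

theorem quot_card_eq {n : ℕ} (r : Setoid (Fin n)) [Fintype (Quotient r)] (B : Finset (Fin n))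
    (hne : B.Nonempty) (h1 : ∀ a ∈ B, ∀ b ∈ B, r a b) (h2 : ∀ a, a ∉ B → ∀ b, r a b → a = b) :
    Fintype.card (Quotient r) + B.card = n + 1 := by
  classical
  obtain ⟨b0, hb0⟩ := hne
  have h3 := quot_card r (B.erase b0) (fun s hs =>
    ⟨b0, Finset.notMem_erase _ _, h1 s (Finset.mem_of_mem_erase hs) b0 hb0⟩)
  have h4 := Finset.card_erase_of_mem hb0
  have h5 : 0 < B.card := Finset.card_pos.2 ⟨b0, hb0⟩
  have h6 : (B.erase b0)ᶜ.card ≤ Fintype.card (Quotient r) := by
    rw [← Finset.card_univ]
    refine Finset.card_le_card_of_injOn (fun a => (⟦a⟧ : Quotient r)) (fun _ _ => Finset.mem_coe.2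
      (Finset.mem_univ _)) ?_
    intro a ha a' ha' he
    have he' : r a a' := Quotient.exact he
    rw [Finset.mem_coe, Finset.mem_compl, Finset.mem_erase] at ha ha'
    by_cases hB : a ∈ B
    · by_cases hB' : a' ∈ B
      · have e1 : a = b0 := by
          by_contra hn
          exact ha ⟨hn, hB⟩
        have e2 : a' = b0 := by
          by_contra hn
          exact ha' ⟨hn, hB'⟩
        rw [e1, e2]
      · exact (h2 a' hB' a (r.symm he')).symm
    · exact h2 a hB a' he'
  have h7 := Finset.card_add_card_compl (B.erase b0)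
  rw [Fintype.card_fin] at h7
  omega

/-! ### coordinates -/

section

variable {d : ℕ} (b : Module.Basis (Fin d) ℝ (E d))

theorem coord_perm (T : E d ≃ₗᵢ[ℝ] E d) (π : Equiv.Perm (Fin d)) (h : ∀ k, T (b k) = b (π k))
    (v : E d) (k : Fin d) : b.coord (π k) (T v) = b.coord k v := by
  have h1 : (b.coord (π k)) ∘ₗ (T.toLinearEquiv : E d →ₗ[ℝ] E d) = b.coord k := by
    apply b.ext
    intro j
    have h2 : ((b.coord (π k)) ∘ₗ (T.toLinearEquiv : E d →ₗ[ℝ] E d)) (b j) =
        b.coord (π k) (T (b j)) := rfl
    rw [h2, h j, Module.Basis.coord_apply, Module.Basis.coord_apply, Module.Basis.repr_self,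
      Module.Basis.repr_self, Finsupp.single_apply, Finsupp.single_apply]
    simp only [EmbeddingLike.apply_eq_iff_eq]
  exact LinearMap.congr_fun h1 v

theorem ext_coord {v w : E d} (h : ∀ k, b.coord k v = b.coord k w) : v = w := by
  apply b.ext_elem
  exact h

theorem fix_iff (T : E d ≃ₗᵢ[ℝ] E d) (π : Equiv.Perm (Fin d)) (h : ∀ k, T (b k) = b (π k))
    (v : E d) : T v = v ↔ ∀ k, b.coord (π k) v = b.coord k v := by
  constructor
  · intro hv k
    have := coord_perm b T π h v k
    rwa [hv] at this
  · intro hv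
    apply ext_coord b
    intro k
    obtain ⟨j, rfl⟩ := π.surjective k
    rw [coord_perm b T π h, hv]

end

/-! ### the classes of coordinates -/

variable {d : ℕ} {Γ : Type} [Group Γ] {X : Type} [MulAction Γ X] (G : Geo d Γ X)

/-- the coordinates `k` and `l` agree on `V_i` -/
def rel (b : Module.Basis (Fin d) ℝ (E d)) (i : ℕ) : Setoid (Fin d) where
  r k l := ∀ v ∈ G.V i, b.coord k v = b.coord l v
  iseqv := ⟨fun _ _ _ => rfl, fun h v hv => (h v hv).symm,
    fun h h' v hv => (h v hv).trans (h' v hv)⟩

section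

variable {b : Module.Basis (Fin d) ℝ (E d)} {i : ℕ}

theorem mem_Hi_iff (hC : Chain G) (hi : 1 ≤ i) {h : Γ} (hh : h ∈ G.Hi 1) {π : Equiv.Perm (Fin d)}
    (hπ : ∀ k, G.T h (b k) = b (π k)) : h ∈ G.Hi i ↔ ∀ k, rel G b i (π k) k := by
  constructor
  · intro h1 k v hv
    exact (fix_iff b (G.T h) π hπ v).1 (hv h h1) k
  · intro h1
    obtain ⟨j, rfl⟩ : ∃ j, i = j + 1 := ⟨i - 1, by omega⟩
    refine hC.Hi_of_fix j h hh.1 ?_
    intro v hv
    exact (fix_iff b (G.T h) π hπ v).2 fun k => h1 k v hv

theorem mem_V_iff (hC : Chain G) (hi : 1 ≤ i)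
    (hact : ∀ h ∈ G.Hi 1, ∃ π : Equiv.Perm (Fin d), ∀ k, G.T h (b k) = b (π k)) {v : E d} :
    v ∈ G.V i ↔ ∀ k l, rel G b i k l → b.coord k v = b.coord l v := by
  constructor
  · intro hv k l hkl
    exact hkl v hv
  · intro h1 h hh
    have hh1 : h ∈ G.Hi 1 := G.Hi_anti hi hh
    obtain ⟨π, hπ⟩ := hact h hh1
    rw [fix_iff b (G.T h) π hπ]
    intro k
    exact h1 _ _ ((mem_Hi_iff G hC hi hh1 hπ).1 hh k)

theorem finrank_V (hC : Chain G) (hi : 1 ≤ i)
    (hact : ∀ h ∈ G.Hi 1, ∃ π : Equiv.Perm (Fin d), ∀ k, G.T h (b k) = b (π k))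
    [Fintype (Quotient (rel G b i))] :
    Module.finrank ℝ (G.V i) = Fintype.card (Quotient (rel G b i)) := by
  set L : (Quotient (rel G b i) → ℝ) →ₗ[ℝ] E d :=
    (b.equivFun.symm : (Fin d → ℝ) →ₗ[ℝ] E d) ∘ₗ
      LinearMap.funLeft ℝ ℝ (fun k => (⟦k⟧ : Quotient (rel G b i))) with hL
  have hcoord : ∀ (g : Quotient (rel G b i) → ℝ) (k : Fin d), b.coord k (L g) = g ⟦k⟧ := by
    intro g k
    have h1 : L g = b.equivFun.symm (fun k => g ⟦k⟧) := rfl
    rw [h1, Module.Basis.coord_apply, ← Module.Basis.equivFun_apply, LinearEquiv.apply_symm_apply]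
  have hinj : Function.Injective L := by
    intro g g' he
    funext q
    induction q using Quotient.inductionOn with
    | h k => rw [← hcoord g k, ← hcoord g' k, he]
  have hrange : LinearMap.range L = G.V i := by
    ext v
    rw [LinearMap.mem_range, mem_V_iff G hC hi hact]
    constructor
    · rintro ⟨g, rfl⟩ k l hkl
      rw [hcoord, hcoord, Quotient.sound hkl]
    · intro h1
      refine ⟨Quotient.lift (fun k => b.coord k v) (fun k l hkl => h1 k l hkl), ?_⟩
      apply ext_coord b
      intro k
      rw [hcoord]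
      rfl
  rw [← hrange, LinearMap.finrank_range_of_inj hinj, Module.finrank_fintype_fun_eq_card]

theorem swap_mem (hC : Chain G) (hi : 1 ≤ i)
    (hall : ∀ π : Equiv.Perm (Fin d), ∃ h ∈ G.Hi 1, ∀ k, G.T h (b k) = b (π k)) {m n : Fin d}
    (hmn : rel G b i m n) : ∃ h ∈ G.Hi i, ∀ k, G.T h (b k) = b (Equiv.swap m n k) := by
  obtain ⟨h, hh, hk⟩ := hall (Equiv.swap m n)
  refine ⟨h, (mem_Hi_iff G hC hi hh hk).2 ?_, hk⟩
  intro k
  by_cases h1 : k = m
  · rw [h1, Equiv.swap_apply_left]
    exact (rel G b i).symm hmn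
  · by_cases h2 : k = n
    · rw [h2, Equiv.swap_apply_right]
      exact hmn
    · rw [Equiv.swap_apply_of_ne_of_ne h1 h2]

theorem sub_mem_U (hC : Chain G) (hi : 1 ≤ i)
    (hall : ∀ π : Equiv.Perm (Fin d), ∃ h ∈ G.Hi 1, ∀ k, G.T h (b k) = b (π k)) {m n : Fin d}
    (hmn : rel G b i m n) : b m - b n ∈ G.U i := by
  obtain ⟨h, hh, hk⟩ := swap_mem G hC hi hall hmn
  rw [Geo.U, Submodule.mem_orthogonal]
  intro v hv
  have h1 : G.T h (b m - b n) = -(b m - b n) := by
    rw [map_sub, hk, hk, Equiv.swap_apply_left, Equiv.swap_apply_right]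
    abel
  have h2 : ⟪v, b m - b n⟫ = ⟪G.T h v, G.T h (b m - b n)⟫ :=
    (LinearIsometryEquiv.inner_map_map _ _ _).symm
  rw [hv h hh, h1, inner_neg_right] at h2
  linarith

/-- by irreducibility two classes with at least two elements are equal -/
theorem irr_eq (hC : Chain G) (hi : 1 ≤ i) (hirr : G.Irr i)
    (hact : ∀ h ∈ G.Hi 1, ∃ π : Equiv.Perm (Fin d), ∀ k, G.T h (b k) = b (π k))
    (hall : ∀ π : Equiv.Perm (Fin d), ∃ h ∈ G.Hi 1, ∀ k, G.T h (b k) = b (π k)) {k l k' l' : Fin d}
    (hkl : rel G b i k l) (hne : l ≠ k) (hkl' : rel G b i k' l') (hne' : l' ≠ k') :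
    rel G b i k k' := by
  by_contra hcon
  set W : Submodule ℝ (E d) :=
    Submodule.span ℝ {y | ∃ m n, rel G b i k m ∧ rel G b i k n ∧ y = b m - b n} with hW
  have hWU : W ≤ G.U i := by
    rw [hW, Submodule.span_le]
    rintro y ⟨m, n, hm, hn, rfl⟩
    exact sub_mem_U G hC hi hall ((rel G b i).trans ((rel G b i).symm hm) hn)
  have hWst : ∀ h ∈ G.Hi i, ∀ v ∈ W, G.T h v ∈ W := by
    intro h hh v hv
    have hh1 : h ∈ G.Hi 1 := G.Hi_anti hi hh
    obtain ⟨π, hπ⟩ := hact h hh1
    have hr := (mem_Hi_iff G hC hi hh1 hπ).1 hh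
    have h1 : W ≤ W.comap ((G.T h).toLinearEquiv : E d →ₗ[ℝ] E d) := by
      conv_lhs => rw [hW]
      rw [Submodule.span_le]
      rintro y ⟨m, n, hm, hn, rfl⟩
      rw [SetLike.mem_coe, Submodule.mem_comap]
      have h2 : ((G.T h).toLinearEquiv : E d →ₗ[ℝ] E d) (b m - b n) = b (π m) - b (π n) := by
        change G.T h (b m - b n) = _
        rw [map_sub, hπ, hπ]
      rw [h2]
      refine Submodule.subset_span ⟨π m, π n, ?_, ?_, rfl⟩
      · exact (rel G b i).trans hm ((rel G b i).symm (hr m))
      · exact (rel G b i).trans hn ((rel G b i).symm (hr n))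
    exact h1 hv
  have hcoord : W ≤ LinearMap.ker (b.coord k') := by
    rw [hW, Submodule.span_le]
    rintro y ⟨m, n, hm, hn, rfl⟩
    rw [SetLike.mem_coe, LinearMap.mem_ker, map_sub, Module.Basis.coord_apply,
      Module.Basis.coord_apply, Module.Basis.repr_self, Module.Basis.repr_self,
      Finsupp.single_apply, Finsupp.single_apply, if_neg, if_neg, sub_zero]
    · rintro rfl
      exact hcon hn
    · rintro rfl
      exact hcon hm
  rcases hirr W hWU hWst with h0 | h0
  · have h1 : b k - b l ∈ W := Submodule.subset_span ⟨k, l, (rel G b i).refl k, hkl, rfl⟩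
    rw [h0, Submodule.mem_bot, sub_eq_zero] at h1
    exact hne (b.injective h1).symm
  · have h1 : b k' - b l' ∈ W := by
      rw [h0]
      exact sub_mem_U G hC hi hall hkl'
    have h2 := hcoord h1
    rw [LinearMap.mem_ker, map_sub, Module.Basis.coord_apply,
      Module.Basis.coord_apply, Module.Basis.repr_self, Module.Basis.repr_self,
      Finsupp.single_apply, Finsupp.single_apply, if_pos rfl, if_neg hne'] at h2
    norm_num at h2

end

end L1

open L1 in
theorem lab1 : StmtLab1 := by
  classical
  intro d Γ _ _ X _ G hd hG hρ Y hY i hi hid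
  have hC := hG.chain
  -- the basis
  have hcard : Fintype.card (Fin d) = Module.finrank ℝ (E d) := by
    rw [Fintype.card_fin, finrank_euclideanSpace_fin]
  have : Nonempty (Fin d) := ⟨⟨0, by omega⟩⟩
  set b : Module.Basis (Fin d) ℝ (E d) :=
    basisOfLinearIndependentOfCardEqFinrank hY.lin hcard with hb
  have hbY : ∀ k, b k = Y k := fun k => by
    rw [hb, coe_basisOfLinearIndependentOfCardEqFinrank]
  have hact : ∀ h ∈ G.Hi 1, ∃ π : Equiv.Perm (Fin d), ∀ k, G.T h (b k) = b (π k) := by
    intro h hh
    obtain ⟨π, hπ⟩ := hY.act h hh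
    exact ⟨π, fun k => by rw [hbY, hbY, hπ]⟩
  have hall : ∀ π : Equiv.Perm (Fin d), ∃ h ∈ G.Hi 1, ∀ k, G.T h (b k) = b (π k) := by
    intro π
    obtain ⟨h, hh, hπ⟩ := hY.all π
    exact ⟨h, hh, fun k => by rw [hbY, hbY, hπ]⟩
  set r := rel G b i with hr
  haveI : Fintype (Quotient r) := Fintype.ofFinite _
  have hcardQ : Fintype.card (Quotient r) = i := by
    rw [← finrank_V G hC hi hact]
    rcases Nat.lt_or_ge d (i + 2) with h1 | h1
    · obtain rfl : i = d - 1 := by omega
      exact hC.dim' (hρ (d - 1) (by omega))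
    · exact hC.dim i h1
  set B : Finset (Fin d) := Finset.univ.filter (fun k => ∃ l, l ≠ k ∧ r k l) with hB
  have hmemB : ∀ k, k ∈ B ↔ ∃ l, l ≠ k ∧ r k l := fun k => by simp [hB]
  have h2 : ∀ a, a ∉ B → ∀ c, r a c → a = c := by
    intro a ha c hac
    by_contra hne
    exact ha ((hmemB a).2 ⟨c, fun e => hne e.symm, hac⟩)
  have hBne : B.Nonempty := by
    by_contra hemp
    rw [Finset.not_nonempty_iff_eq_empty] at hemp
    have hinj : Function.Injective (fun k : Fin d => (⟦k⟧ : Quotient r)) := by
      intro k l hkl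
      exact h2 k (by rw [hemp]; exact Finset.notMem_empty _) l (Quotient.exact hkl)
    have := Fintype.card_le_of_injective _ hinj
    rw [Fintype.card_fin, hcardQ] at this
    omega
  have h1 : ∀ k ∈ B, ∀ k' ∈ B, r k k' := by
    intro k hk k' hk'
    obtain ⟨l, hne, hkl⟩ := (hmemB k).1 hk
    obtain ⟨l', hne', hkl'⟩ := (hmemB k').1 hk'
    rcases Nat.lt_or_ge d (i + 3) with h3 | h3
    · by_contra hcon
      rcases Nat.lt_or_ge d (i + 2) with h4 | h4
      · -- `i = d - 1`
        have hll : l ≠ l' := by
          rintro rfl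
          exact hcon (r.trans hkl (r.symm hkl'))
        have h5 := quot_card r {l, l'} (by
          intro s hs
          rw [Finset.mem_insert, Finset.mem_singleton] at hs
          rcases hs with rfl | rfl
          · refine ⟨k, ?_, r.symm hkl⟩
            rw [Finset.mem_insert, Finset.mem_singleton]
            rintro (rfl | rfl)
            · exact hne rfl
            · exact hcon (r.symm hkl')
          · refine ⟨k', ?_, r.symm hkl'⟩
            rw [Finset.mem_insert, Finset.mem_singleton]
            rintro (rfl | rfl)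
            · exact hcon hkl
            · exact hne' rfl)
        rw [hcardQ, Finset.card_pair hll] at h5
        omega
      · -- `i = d - 2`
        have hid2 : i = d - 2 := by omega
        -- the classes have at most two elements
        have hcl0 : ∀ m n p q q' : Fin d, r m n → r m p → m ≠ n → m ≠ p → n ≠ p → q' ≠ q →
            r q q' → ¬ r q m → False := by
          intro m n p q q' hmn hmp h5 h6 h7 h8 h9 h10
          have e1 : q' ≠ n := by
            rintro rfl
            exact h10 (r.trans h9 (r.symm hmn))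
          have e2 : q' ≠ p := by
            rintro rfl
            exact h10 (r.trans h9 (r.symm hmp))
          have h11 := quot_card r {q', n, p} (by
            intro s hs
            rw [Finset.mem_insert, Finset.mem_insert, Finset.mem_singleton] at hs
            rcases hs with rfl | rfl | rfl
            · refine ⟨q, ?_, r.symm h9⟩
              rw [Finset.mem_insert, Finset.mem_insert, Finset.mem_singleton]
              rintro (rfl | rfl | rfl)
              · exact h8 rfl
              · exact h10 (r.symm hmn)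
              · exact h10 (r.symm hmp)
            · refine ⟨m, ?_, r.symm hmn⟩
              rw [Finset.mem_insert, Finset.mem_insert, Finset.mem_singleton]
              rintro (rfl | rfl | rfl)
              · exact h10 h9
              · exact h5 rfl
              · exact h6 rfl
            · refine ⟨m, ?_, r.symm hmp⟩
              rw [Finset.mem_insert, Finset.mem_insert, Finset.mem_singleton]
              rintro (rfl | rfl | rfl)
              · exact h10 h9
              · exact h5 rfl
              · exact h6 rfl)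
          rw [hcardQ, Finset.card_insert_of_notMem, Finset.card_pair h7] at h11
          · omega
          · rw [Finset.mem_insert, Finset.mem_singleton]
            rintro (h | h)
            · exact e1 h
            · exact e2 h
        have hcl : ∀ m n p : Fin d, r m n → r m p → m ≠ n → m ≠ p → n ≠ p → False := by
          intro m n p hmn hmp h5 h6 h7
          by_cases h8 : r k m
          · refine hcl0 m n p k' l' hmn hmp h5 h6 h7 hne' hkl' ?_
            intro h9
            exact hcon (r.trans h8 (r.symm h9))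
          · exact hcl0 m n p k l hmn hmp h5 h6 h7 hne hkl h8
        -- so the squares are trivial
        have hsq : ∀ h ∈ G.Hi (d - 2), h * h = 1 := by
          intro h hh
          have hh' : h ∈ G.Hi i := by rw [hid2]; exact hh
          have hh1 : h ∈ G.Hi 1 := G.Hi_anti hi hh'
          obtain ⟨π, hπ⟩ := hact h hh1
          have hrr := (mem_Hi_iff G hC hi hh1 hπ).1 hh'
          have hππ : ∀ m, π (π m) = m := by
            intro m
            by_contra h5
            have h6 : π m ≠ m := by
              intro h6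
              rw [h6] at h5
              exact h5 h6
            have h7 : π (π m) ≠ π m := fun h7 => h6 (π.injective h7)
            exact hcl m (π m) (π (π m)) (r.symm (hrr m))
              (r.trans (r.symm (hrr m)) (r.symm (hrr (π m)))) (fun e => h6 e.symm)
              (fun e => h5 e.symm) (fun e => h7 e.symm)
          apply G.T_inj (mul_mem hh.1 hh.1) (one_mem _)
          rw [G.T_one]
          apply LinearIsometryEquiv.ext
          intro v
          rw [G.T_mul_apply hh.1 hh.1]
          change _ = v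
          apply ext_coord b
          intro m
          have e1 := coord_perm b (G.T h) π hπ (G.T h v) (π m)
          have e2 := coord_perm b (G.T h) π hπ v m
          rw [hππ m] at e1
          rw [e1, e2]
        have ha : G.ρ (d - 2) ∈ G.Hi (d - 2) := ⟨hρ _ (by omega), G.ρ_mem_up le_rfl⟩
        have hb' : G.ρ (d - 2 + 1) ∈ G.Hi (d - 2) := ⟨hρ _ (by omega), G.ρ_mem_up (by omega)⟩
        have hab := hsq _ (mul_mem ha hb')
        have hab' : G.ρ (d - 2) * G.ρ (d - 2 + 1) = (G.ρ (d - 2) * G.ρ (d - 2 + 1))⁻¹ :=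
          eq_inv_of_mul_eq_one_left hab
        rw [mul_inv_rev, G.inv_ρ, G.inv_ρ] at hab'
        exact hC.not_comm (d - 2) (by omega) hab'
    · exact irr_eq G hC hi (hG.irr i h3) hact hall hkl hne hkl' hne'
  refine ⟨B, ?_, ?_⟩
  · have := quot_card_eq r B hBne h1 h2
    rw [hcardQ] at this
    omega
  · intro h hh
    obtain ⟨π, hπ⟩ := hact h hh
    rw [mem_Hi_iff G hC hi hh hπ]
    constructor
    · intro h5 k hk
      have h6 : k = π k := h2 k hk (π k) (r.symm (h5 k))
      rw [← hbY, hπ, ← h6]
    · intro h5 k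
      by_cases hk : k ∈ B
      · refine h1 (π k) ?_ k hk
        by_contra hk'
        have h6 := h5 (π k) hk'
        rw [← hbY, hπ] at h6
        have h7 : π k = k := π.injective (b.injective h6)
        rw [h7] at hk'
        exact hk' hk
      · have h6 := h5 k hk
        rw [← hbY, hπ] at h6
        rw [b.injective h6]

end

end FO2
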