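import Pool.Agent.FO2.Stmts

/-!
# Module L2: the labelling of the coordinates
-/

namespace FO2

open Lib_helper64.FO
open scoped RealInnerProductSpace

namespace L2

open Equiv

section perm

variable {α : Type} [DecidableEq α]

/-- a permutation which moves `x` and is supported on `{x, y}` -/
theorem two_supp {p : Perm α} {x y : α} (h : ∀ k, k ≠ x → k ≠ y → p k = k) (hx : p x ≠ x) :
    p = swap x y := by
  have h1 : p x = y := by
    by_contra hne
    have h2 := h (p x) hx hne
    exact hx (p.injective h2)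
  have hxy : x ≠ y := fun e => hx (h1.trans e.symm)
  have h3 : p y = x := by
    by_contra hne
    by_cases h4 : p y = y
    · exact hxy (p.injective (h1.trans h4.symm))
    · exact h4 (p.injective (h (p y) hne h4))
  ext k
  by_cases e1 : k = x
  · rw [e1, h1, swap_apply_left]
  by_cases e2 : k = y
  · rw [e2, h3, swap_apply_right]
  rw [h k e1 e2, swap_apply_of_ne_of_ne e1 e2]

/-- a permutation that commutes with a transposition preserves its support -/
theorem comm_swap {p : Perm α} {a b : α} (hab : a ≠ b) (h : p * swap a b = swap a b * p) :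
    (p a = a ∧ p b = b) ∨ (p a = b ∧ p b = a) := by
  have h1 : p b = swap a b (p a) := by
    have := congrArg (fun q : Perm α => q a) h
    simpa using this
  by_cases e1 : p a = a
  · left
    rw [e1, swap_apply_left] at h1
    exact ⟨e1, h1⟩
  by_cases e2 : p a = b
  · right
    rw [e2, swap_apply_right] at h1
    exact ⟨e2, h1⟩
  rw [swap_apply_of_ne_of_ne e1 e2] at h1
  exact absurd (p.injective h1).symm hab

/-- centralizer of the symmetric group of a set of at least three elements -/
theorem fix_of_comm {p : Perm α} {B : Finset α} (hB : 3 ≤ B.card)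
    (h : ∀ a ∈ B, ∀ b ∈ B, p * swap a b = swap a b * p) {a : α} (ha : a ∈ B) : p a = a := by
  have h1 : 1 < (B.erase a).card := by
    rw [Finset.card_erase_of_mem ha]
    omega
  obtain ⟨b, hb, c, hc, hbc⟩ := Finset.one_lt_card.1 h1
  rw [Finset.mem_erase] at hb hc
  rcases comm_swap (Ne.symm hb.1) (h a ha b hb.2) with h2 | h2
  · exact h2.1
  rcases comm_swap (Ne.symm hc.1) (h a ha c hc.2) with h3 | h3
  · exact h3.1
  exact absurd (h2.1.symm.trans h3.1) hbc

/-- the relation that is excluded by the intersection property -/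
theorem swap_rel {x y z c e : α} (hxy : x ≠ y) (hxz : x ≠ z) (hyz : y ≠ z) (hxc : x ≠ c)
    (hxe : x ≠ e) (hyc : y ≠ c) (hye : y ≠ e) (hzc : z ≠ c) (hze : z ≠ e) :
    (swap x y * (swap y z * swap c e)) ^ 3 = swap c e := by
  have c1 : swap x y * swap c e = swap c e * swap x y := by
    ext k
    simp only [Perm.mul_apply, swap_apply_def]
    split_ifs <;> simp_all
  have c2 : swap y z * swap c e = swap c e * swap y z := by
    ext k
    simp only [Perm.mul_apply, swap_apply_def]
    split_ifs <;> simp_all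
  have h3 : (swap x y * swap y z) * (swap x y * swap y z) * (swap x y * swap y z) = 1 := by
    have h4 : swap x y * swap y z * swap x y = swap x z := by
      ext k
      simp only [Perm.mul_apply, swap_apply_def]
      split_ifs <;> simp_all
    have h5 : swap y z * swap x y * swap y z = swap x z := by
      ext k
      simp only [Perm.mul_apply, swap_apply_def]
      split_ifs <;> simp_all
    calc (swap x y * swap y z) * (swap x y * swap y z) * (swap x y * swap y z)
        = (swap x y * swap y z * swap x y) * (swap y z * swap x y * swap y z) := by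
          simp only [mul_assoc]
      _ = 1 := by rw [h4, h5, swap_mul_self]
  have c3 : Commute (swap x y * swap y z) (swap c e) := by
    exact (show Commute (swap x y) (swap c e) from c1).mul_left c2
  rw [← mul_assoc, c3.mul_pow]
  have h6 : (swap x y * swap y z) ^ 3 = 1 := by
    rw [pow_succ, pow_two]
    exact h3
  rw [h6, one_mul, pow_succ, pow_two, swap_mul_self, one_mul]

end perm

/-- the combinatorial core -/
theorem core (d : ℕ) (hd : 9 ≤ d) (i0 : ℕ) (hi0 : 1 ≤ i0) (hi0' : i0 ≤ 2) (B : ℕ → Finset (Fin d))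
    (hcard : ∀ i, 1 ≤ i → i + 1 ≤ d → (B i).card + i = d + 1)
    (hsub : ∀ i, 1 ≤ i → i + 2 ≤ d → B (i + 1) ⊆ B i)
    (p : ℕ → Perm (Fin d))
    (hsupp : ∀ j, i0 ≤ j → j + 1 ≤ d → ∀ k, k ∉ B j → p j k = k)
    (hsq : ∀ j, i0 ≤ j → j + 1 ≤ d → ∀ k, p j (p j k) = k)
    (hcomm : ∀ j, i0 ≤ j → j + 3 ≤ d → ∀ a ∈ B (j + 2), ∀ b ∈ B (j + 2),
      p j * swap a b = swap a b * p j)
    (hnot : ∀ j, i0 ≤ j → j + 2 ≤ d → ∃ k, k ∉ B (j + 1) ∧ p j k ≠ k)
    (hne : p (d - 1) ≠ 1) (hrel : (p (d - 4) * p (d - 3)) ^ 3 ≠ p (d - 1)) :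
    ∃ π : Perm (Fin d), ∀ j : Fin d, i0 ≤ j.val → ∀ k,
      p j (π k) = π (swap (prd j) j k) := by
  -- the element of `B i` not in `B (i + 1)`
  have hex : ∀ i, 1 ≤ i → i + 2 ≤ d → ∃ x, x ∈ B i ∧ x ∉ B (i + 1) ∧
      ∀ k ∈ B i, k ∉ B (i + 1) → k = x := by
    intro i h1 h2
    have h3 : (B i \ B (i + 1)).card = 1 := by
      rw [Finset.card_sdiff_of_subset (hsub i h1 h2)]
      have := hcard i h1 (by omega)
      have := hcard (i + 1) (by omega) (by omega)
      omega
    obtain ⟨x, hx⟩ := Finset.card_eq_one.1 h3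
    refine ⟨x, ?_, ?_, ?_⟩
    · have : x ∈ B i \ B (i + 1) := by rw [hx]; exact Finset.mem_singleton_self x
      exact (Finset.mem_sdiff.1 this).1
    · have : x ∈ B i \ B (i + 1) := by rw [hx]; exact Finset.mem_singleton_self x
      exact (Finset.mem_sdiff.1 this).2
    · intro k hk hk'
      have : k ∈ B i \ B (i + 1) := Finset.mem_sdiff.2 ⟨hk, hk'⟩
      rw [hx, Finset.mem_singleton] at this
      exact this
  have : Nonempty (Fin d) := ⟨⟨0, by omega⟩⟩
  choose! a ha1 ha2 ha3 using hex
  have hmono : ∀ i j, 1 ≤ i → i ≤ j → j + 1 ≤ d → B j ⊆ B i := by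
    intro i j h1 h2 h3
    induction j, h2 using Nat.le_induction with
    | base => exact Finset.Subset.refl _
    | succ j h4 ih =>
      exact (hsub j (by omega) (by omega)).trans (ih (by omega))
  have hfix : ∀ j, i0 ≤ j → j + 1 ≤ d → ∀ k, k ∈ B j → p j k ∈ B j := by
    intro j h1 h2 k hk
    by_contra hcon
    have h3 := hsupp j h1 h2 _ hcon
    rw [hsq j h1 h2] at h3
    exact hcon (h3 ▸ hk)
  -- the last two elements
  have hd2 : d - 2 + 1 = d - 1 := by omega
  have hc0 : p (d - 2) (a (d - 2)) ≠ a (d - 2) := by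
    obtain ⟨k, hk1, hk2⟩ := hnot (d - 2) (by omega) (by omega)
    have hk3 : k ∈ B (d - 2) := by
      by_contra hcon
      exact hk2 (hsupp (d - 2) (by omega) (by omega) k hcon)
    have hk4 := ha3 (d - 2) (by omega) (by omega) k hk3 hk1
    rwa [hk4] at hk2
  set c := p (d - 2) (a (d - 2)) with hc
  have hcB : c ∈ B (d - 1) := by
    by_contra hcon
    have h1 : c ∈ B (d - 2) := hfix (d - 2) (by omega) (by omega) _ (ha1 (d - 2) (by omega) (by omega))
    exact hc0 (ha3 (d - 2) (by omega) (by omega) c h1 (by rw [hd2]; exact hcon))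
  have hcard2 : (B (d - 1)).card = 2 := by
    have := hcard (d - 1) (by omega) (by omega)
    omega
  obtain ⟨e, hee⟩ : ∃ e, (B (d - 1)).erase c = {e} := by
    apply Finset.card_eq_one.1
    rw [Finset.card_erase_of_mem hcB, hcard2]
  have heB : e ∈ B (d - 1) ∧ e ≠ c := by
    have : e ∈ (B (d - 1)).erase c := by rw [hee]; exact Finset.mem_singleton_self e
    rw [Finset.mem_erase] at this
    exact ⟨this.2, this.1⟩
  have hB1 : ∀ k ∈ B (d - 1), k = c ∨ k = e := by
    intro k hk
    by_cases hkc : k = c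
    · exact Or.inl hkc
    · right
      have : k ∈ (B (d - 1)).erase c := Finset.mem_erase.2 ⟨hkc, hk⟩
      rw [hee, Finset.mem_singleton] at this
      exact this
  have haB : ∀ i j, 1 ≤ i → i < j → j + 1 ≤ d → ∀ k ∈ B j, a i ≠ k := by
    intro i j h1 h2 h3 k hk hcon
    exact ha2 i h1 (by omega) (hmono (i + 1) j (by omega) (by omega) h3 (hcon ▸ hk))
  have haa : ∀ i j, 1 ≤ i → i < j → j + 2 ≤ d → a i ≠ a j := by
    intro i j h1 h2 h3
    exact haB i j h1 h2 (by omega) _ (ha1 j (by omega) h3)
  have hac : ∀ i, 1 ≤ i → i + 2 ≤ d → a i ≠ c := fun i h1 h2 =>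
    haB i (d - 1) h1 (by omega) (by omega) c hcB
  have hae : ∀ i, 1 ≤ i → i + 2 ≤ d → a i ≠ e := fun i h1 h2 =>
    haB i (d - 1) h1 (by omega) (by omega) e heB.1
  -- the numbering
  let f : Fin d → Fin d := fun k =>
    if k.val + 2 < d then a (k.val + 1) else if k.val + 2 = d then c else e
  have hf1 : ∀ k : Fin d, k.val + 2 < d → f k = a (k.val + 1) := fun k h => by
    simp only [f, if_pos h]
  have hf2 : ∀ k : Fin d, k.val + 2 = d → f k = c := fun k h => by
    simp only [f]
    rw [if_neg (by omega), if_pos h]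
  have hf3 : ∀ k : Fin d, k.val + 1 = d → f k = e := fun k h => by
    simp only [f]
    rw [if_neg (by omega), if_neg (by omega)]
  have hlt : ∀ k l : Fin d, k.val < l.val → f k ≠ f l := by
    intro k l hkl
    have hl := l.isLt
    rcases (show l.val + 2 < d ∨ l.val + 2 = d ∨ l.val + 1 = d by omega) with h | h | h
    · rw [hf1 k (by omega), hf1 l h]
      exact haa _ _ (by omega) (by omega) (by omega)
    · rw [hf1 k (by omega), hf2 l h]
      exact hac _ (by omega) (by omega)
    · rw [hf3 l h]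
      rcases (show k.val + 2 < d ∨ k.val + 2 = d by omega) with h' | h'
      · rw [hf1 k h']
        exact hae _ (by omega) (by omega)
      · rw [hf2 k h']
        exact heB.2.symm
  have hinj : Function.Injective f := by
    intro k l hkl
    rcases lt_trichotomy k.val l.val with h | h | h
    · exact absurd hkl (hlt k l h)
    · exact Fin.ext h
    · exact absurd hkl.symm (hlt l k h)
  refine ⟨Equiv.ofBijective f (Finite.injective_iff_bijective.1 hinj), ?_⟩
  intro j hj k
  have hjd := j.isLt
  -- it is enough to identify `p j`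
  suffices hmain : p j = swap (f (prd j)) (f j) by
    rw [hmain]
    simp only [Equiv.ofBijective_apply]
    exact (hinj.map_swap _ _ _).symm
  have hprd : (prd j).val = j.val - 1 := rfl
  -- members of `B j`
  have hmem : ∀ i, 1 ≤ i → i + 3 ≤ d → ∀ k, k ∈ B i → k ∉ B (i + 2) → k = a i ∨ k = a (i + 1) := by
    intro i h1 h2 k hk hk'
    by_cases h3 : k ∈ B (i + 1)
    · exact Or.inr (ha3 (i + 1) (by omega) (by omega) k h3 hk')
    · exact Or.inl (ha3 i h1 (by omega) k hk h3)
  -- the moved element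
  have hmoved : ∀ i, i0 ≤ i → i + 2 ≤ d → p i (a i) ≠ a i := by
    intro i h1 h2
    obtain ⟨k, hk1, hk2⟩ := hnot i h1 h2
    have hk3 : k ∈ B i := by
      by_contra hcon
      exact hk2 (hsupp i h1 (by omega) k hcon)
    have hk4 := ha3 i (by omega) h2 k hk3 hk1
    rwa [hk4] at hk2
  have hgen : ∀ i, i0 ≤ i → i + 4 ≤ d → p i = swap (a i) (a (i + 1)) := by
    intro i h1 h2
    refine two_supp ?_ (hmoved i h1 (by omega))
    intro k hk1 hk2
    by_cases h3 : k ∈ B i
    · by_cases h4 : k ∈ B (i + 2)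
      · refine fix_of_comm (B := B (i + 2)) ?_ (hcomm i h1 (by omega)) h4
        have := hcard (i + 2) (by omega) (by omega)
        omega
      · rcases hmem i (by omega) (by omega) k h3 h4 with h5 | h5
        · exact absurd h5 hk1
        · exact absurd h5 hk2
    · exact hsupp i h1 (by omega) k h3
  -- the last generator
  have hlast : p (d - 1) = swap c e := by
    have h1 : ∀ k, k ≠ c → k ≠ e → p (d - 1) k = k := by
      intro k hk1 hk2
      refine hsupp (d - 1) (by omega) (by omega) k ?_
      intro hk3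
      rcases hB1 k hk3 with h | h
      · exact hk1 h
      · exact hk2 h
    refine two_supp h1 ?_
    intro h2
    apply hne
    ext k
    by_cases hk1 : k = c
    · rw [hk1, h2, Perm.one_apply]
    by_cases hk2 : k = e
    · rw [hk2, Perm.one_apply]
      congr 1
      by_contra h3
      by_cases h4 : p (d - 1) e = c
      · exact heB.2 ((p (d - 1)).injective (h4.trans h2.symm))
      · exact h3 ((p (d - 1)).injective (h1 _ h4 h3))
    rw [h1 k hk1 hk2, Perm.one_apply]
  rcases (show j.val + 4 ≤ d ∨ j.val + 3 = d ∨ j.val + 2 = d ∨ j.val + 1 = d by omega) with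
    h | h | h | h
  · rw [hgen j hj h, hf1 (prd j) (by omega), hf1 j (by omega), hprd,
      show j.val - 1 + 1 = j.val by omega]
  · -- `j = d - 3`
    rw [hf1 (prd j) (by omega), hf1 j (by omega), hprd, show j.val - 1 + 1 = j.val by omega]
    have hj3 : j.val = d - 3 := by omega
    have h2 : j.val + 2 = d - 1 := by omega
    have hce := hcomm j hj (by omega) c (by rw [h2]; exact hcB) e (by rw [h2]; exact heB.1)
    have hq : ∀ k, k ≠ a j → k ≠ a (j + 1) → k ≠ c → k ≠ e → p j k = k := by
      intro k k1 k2 k3 k4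
      refine hsupp j hj (by omega) k ?_
      intro h3
      by_cases h4 : k ∈ B (j + 2)
      · rw [h2] at h4
        rcases hB1 k h4 with h5 | h5
        · exact k3 h5
        · exact k4 h5
      · rcases hmem j (by omega) (by omega) k h3 h4 with h5 | h5
        · exact k1 h5
        · exact k2 h5
    rcases comm_swap heB.2.symm hce with ⟨h5, h6⟩ | ⟨h5, h6⟩
    · refine two_supp ?_ (hmoved j hj (by omega))
      intro k hk1 hk2
      by_cases k3 : k = c
      · rw [k3, h5]
      by_cases k4 : k = e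
      · rw [k4, h6]
      exact hq k hk1 hk2 k3 k4
    · exfalso
      have hac1 := hac j (by omega) (by omega)
      have hae1 := hae j (by omega) (by omega)
      have hac2 := hac (j + 1) (by omega) (by omega)
      have hae2 := hae (j + 1) (by omega) (by omega)
      have h7 : p j * swap c e = swap (a j) (a (j + 1)) := by
        refine two_supp ?_ ?_
        · intro k hk1 hk2
          rw [Perm.mul_apply]
          by_cases k3 : k = c
          · rw [k3, swap_apply_left, h6]
          by_cases k4 : k = e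
          · rw [k4, swap_apply_right, h5]
          rw [swap_apply_of_ne_of_ne k3 k4]
          exact hq k hk1 hk2 k3 k4
        · rw [Perm.mul_apply, swap_apply_of_ne_of_ne hac1 hae1]
          exact hmoved j hj (by omega)
      have h8 : p j = swap (a j) (a (j + 1)) * swap c e := by
        rw [← h7, mul_assoc, swap_mul_self, mul_one]
      have h9 := hgen (d - 4) (by omega) (by omega)
      apply hrel
      rw [show d - 4 + 1 = j.val by omega] at h9
      rw [show d - 3 = j.val by omega, h9, h8, hlast]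
      refine swap_rel ?_ ?_ ?_ ?_ ?_ hac1 hae1 hac2 hae2
      · exact haa _ _ (by omega) (by omega) (by omega)
      · exact haa _ _ (by omega) (by omega) (by omega)
      · exact haa _ _ (by omega) (by omega) (by omega)
      · exact hac _ (by omega) (by omega)
      · exact hae _ (by omega) (by omega)
  · -- `j = d - 2`
    rw [hf1 (prd j) (by omega), hf2 j h, hprd, show j.val - 1 + 1 = j.val by omega]
    have hj2 : j.val = d - 2 := by omega
    have hm := hmoved j hj (by omega)
    have hpc : p j (a j) = c := by rw [hj2]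
    have hpa : p j c = a j := by rw [← hpc, hsq j hj (by omega)]
    refine two_supp ?_ hm
    intro k hk1 hk2
    by_cases h3 : k ∈ B j
    · by_cases h4 : k ∈ B (j + 1)
      · rw [show j.val + 1 = d - 1 by omega] at h4
        rcases hB1 k h4 with h5 | h5
        · exact absurd h5 hk2
        · -- `k = e`
          have h6 := hfix j hj (by omega) k h3
          by_contra h7
          by_cases h8 : p j k ∈ B (j + 1)
          · rw [show j.val + 1 = d - 1 by omega] at h8
            rcases hB1 _ h8 with h9 | h9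
            · exact hk1 ((p j).injective (h9.trans hpc.symm))
            · exact h7 (h9.trans h5.symm)
          · have h9 := ha3 j (by omega) (by omega) _ h6 h8
            exact hk2 ((p j).injective (h9.trans hpa.symm))
      · exact absurd (ha3 j (by omega) (by omega) k h3 h4) hk1
    · exact hsupp j hj (by omega) k h3
  · -- `j = d - 1`
    rw [hf2 (prd j) (by omega), hf3 j h, show j.val = d - 1 by omega, hlast]

theorem ρ_not_up {d : ℕ} {Γ : Type} [Group Γ] {X : Type} [MulAction Γ X] (G : Geo d Γ X) {j : ℕ}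
    (hj : j < d) : G.ρ j ∉ G.up (j + 1) := by
  intro h
  have h1 : G.ρ j ∈ gpar G.ρ {j} ⊓ gpar G.ρ {k | j + 1 ≤ k} :=
    ⟨Subgroup.subset_closure ⟨j, rfl, rfl⟩, h⟩
  rw [G.inter] at h1
  have h2 : ({j} ∩ {k | j + 1 ≤ k} : Set ℕ) = ∅ := by
    ext k
    simp only [Set.mem_inter_iff, Set.mem_singleton_iff, Set.mem_ofPred_eq, Set.mem_empty_iff_false,
      iff_false, not_and]
    omega
  rw [h2, gpar, Set.image_empty, Subgroup.closure_empty, Subgroup.mem_bot] at h1
  exact G.ne_one j hj h1

end L2

theorem lab2 : StmtLab2 := by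
  intro d Γ _ _ X _ G hd _ i0 hi0 hρ Y hY hB
  have hi1 : 1 ≤ i0 := by rcases hi0 with h | h <;> omega
  have hi2 : i0 ≤ 2 := by rcases hi0 with h | h <;> omega
  have hYinj : Function.Injective Y := hY.lin.injective
  -- the permutation of an element of `H_1`
  choose! P hP using hY.act
  have hPu : ∀ h ∈ G.Hi 1, ∀ π : Equiv.Perm (Fin d), (∀ k, G.T h (Y k) = Y (π k)) → P h = π := by
    intro h hh π hπ
    ext k
    congr 1
    apply hYinj
    rw [← hP h hh k, hπ k]
  have hPmul : ∀ g ∈ G.Hi 1, ∀ h ∈ G.Hi 1, P (g * h) = P g * P h := by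
    intro g hg h hh
    refine hPu _ (mul_mem hg hh) _ ?_
    intro k
    rw [G.T_mul_apply hg.1 hh.1, hP h hh k, hP g hg]
    rfl
  have hspan : Submodule.span ℝ (Set.range Y) = ⊤ := by
    apply hY.lin.span_eq_top_of_card_eq_finrank'
    rw [Fintype.card_fin, finrank_euclideanSpace_fin]
  have hPinj : ∀ g ∈ G.Hi 1, ∀ h ∈ G.Hi 1, P g = P h → g = h := by
    intro g hg h hh e
    apply G.T_inj hg.1 hh.1
    have h1 : ((G.T g).toLinearEquiv : E d →ₗ[ℝ] E d) = ((G.T h).toLinearEquiv : E d →ₗ[ℝ] E d) := by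
      apply LinearMap.ext_on_range hspan
      intro k
      change G.T g (Y k) = G.T h (Y k)
      rw [hP g hg, hP h hh, e]
    ext1 v
    exact LinearMap.congr_fun h1 v
  have hP1 : P 1 = 1 := by
    refine hPu 1 (one_mem _) 1 ?_
    intro k
    rw [G.T_one]
    rfl
  choose! B hBc hBi using hB
  have hBi' : ∀ i, 1 ≤ i → i + 1 ≤ d → ∀ h ∈ G.Hi 1, (h ∈ G.Hi i ↔ ∀ k, k ∉ B i → P h k = k) := by
    intro i h1 h2 h hh
    rw [hBi i h1 h2 h hh]
    refine forall_congr' fun k => forall_congr' fun _ => ?_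
    rw [hP h hh k]
    exact hYinj.eq_iff
  -- surjectivity
  have hPs : ∀ π : Equiv.Perm (Fin d), ∃ h ∈ G.Hi 1, P h = π := by
    intro π
    obtain ⟨h, hh, e⟩ := hY.all π
    exact ⟨h, hh, hPu h hh π e⟩
  have hρ1 : ∀ j, i0 ≤ j → G.ρ j ∈ G.Hi 1 := fun j hj => ⟨hρ j hj, G.ρ_mem_up (by omega)⟩
  have hρj : ∀ j, i0 ≤ j → G.ρ j ∈ G.Hi j := fun j hj => ⟨hρ j hj, G.ρ_mem_up le_rfl⟩
  suffices hs : ∃ π : Equiv.Perm (Fin d), ∀ j : Fin d, i0 ≤ j.val → ∀ k,
      P (G.ρ j) (π k) = π (Equiv.swap (prd j) j k) by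
    obtain ⟨π, hπ⟩ := hs
    refine ⟨π, ?_⟩
    intro j hj k
    rw [hP _ (hρ1 j hj), hπ j hj k]
  refine L2.core d hd i0 hi1 hi2 B hBc ?_ (fun j => P (G.ρ j)) ?_ ?_ ?_ ?_ ?_ ?_
  · -- `B (i + 1) ⊆ B i`
    intro i h1 h2 k hk
    by_contra hk'
    have hc : 1 < (B (i + 1)).card := by
      have := hBc (i + 1) (by omega) (by omega)
      omega
    obtain ⟨l, hl, hlk⟩ : ∃ l ∈ B (i + 1), l ≠ k := Finset.exists_mem_ne hc k
    obtain ⟨h, hh, e⟩ := hPs (Equiv.swap k l)
    have h3 : h ∈ G.Hi (i + 1) := by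
      rw [hBi' (i + 1) (by omega) (by omega) h hh, e]
      intro m hm
      apply Equiv.swap_apply_of_ne_of_ne
      · rintro rfl; exact hm hk
      · rintro rfl; exact hm hl
    have h4 := (hBi' i h1 (by omega) h hh).1 (G.Hi_anti (Nat.le_succ i) h3) k hk'
    rw [e, Equiv.swap_apply_left] at h4
    exact hlk h4
  · intro j h1 h2
    exact (hBi' j (by omega) h2 _ (hρ1 j h1)).1 (hρj j h1)
  · intro j h1 h2 k
    have h3 := hPmul _ (hρ1 j h1) _ (hρ1 j h1)
    rw [G.sq, hP1] at h3
    have := congrArg (fun q : Equiv.Perm (Fin d) => q k) h3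
    simpa using this.symm
  · intro j h1 h2 a ha b hb
    obtain ⟨h, hh, e⟩ := hPs (Equiv.swap a b)
    have h3 : h ∈ G.Hi (j + 2) := by
      rw [hBi' (j + 2) (by omega) (by omega) h hh, e]
      intro m hm
      apply Equiv.swap_apply_of_ne_of_ne
      · rintro rfl; exact hm ha
      · rintro rfl; exact hm hb
    have h4 := G.comm_up (i := j) (j := j + 2) le_rfl h3.2
    change P (G.ρ j) * Equiv.swap a b = Equiv.swap a b * P (G.ρ j)
    rw [← e, ← hPmul _ (hρ1 j h1) _ hh, ← hPmul _ hh _ (hρ1 j h1), h4]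
  · intro j h1 h2
    by_contra hcon
    push Not at hcon
    have h3 := (hBi' (j + 1) (by omega) (by omega) _ (hρ1 j h1)).2 hcon
    exact L2.ρ_not_up G (by omega) h3.2
  · intro h1
    have h2 := hPinj _ (hρ1 (d - 1) (by omega)) 1 (one_mem _) (h1.trans hP1.symm)
    exact G.ne_one (d - 1) (by omega) h2
  · intro h1
    have m4 := hρ1 (d - 4) (by omega)
    have m3 := hρ1 (d - 3) (by omega)
    have m1 := hρ1 (d - 1) (by omega)
    have h2 : P ((G.ρ (d - 4) * G.ρ (d - 3)) ^ 3) = P (G.ρ (d - 1)) := by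
      rw [← h1, pow_succ, pow_two, hPmul _ (mul_mem (mul_mem m4 m3) (mul_mem m4 m3)) _
        (mul_mem m4 m3), hPmul _ (mul_mem m4 m3) _ (mul_mem m4 m3), hPmul _ m4 _ m3, pow_succ,
        pow_two]
    have h3 := hPinj _ (pow_mem (mul_mem m4 m3) 3) _ m1 h2
    have h4 : G.ρ (d - 1) ∈ gpar G.ρ {k | k < d - 2} ⊓ gpar G.ρ {k | d - 1 ≤ k} := by
      have h5 : d - 1 ∈ {k | d - 1 ≤ k} := by
        rw [Set.mem_ofPred_eq]
      refine ⟨?_, Subgroup.subset_closure ⟨d - 1, h5, rfl⟩⟩
      rw [← h3]
      have h6 : G.ρ (d - 4) ∈ gpar G.ρ {k | k < d - 2} := Subgroup.subset_closure ⟨d - 4, by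
        rw [Set.mem_ofPred_eq]; omega, rfl⟩
      have h7 : G.ρ (d - 3) ∈ gpar G.ρ {k | k < d - 2} := Subgroup.subset_closure ⟨d - 3, by
        rw [Set.mem_ofPred_eq]; omega, rfl⟩
      exact pow_mem (mul_mem h6 h7) 3
    rw [G.inter] at h4
    have h5 : ({k | k < d - 2} ∩ {k | d - 1 ≤ k} : Set ℕ) = ∅ := by
      ext k
      simp only [Set.mem_inter_iff, Set.mem_ofPred_eq, Set.mem_empty_iff_false, iff_false, not_and]
      omega
    rw [h5, gpar, Set.image_empty, Subgroup.closure_empty, Subgroup.mem_bot] at h4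
    exact G.ne_one (d - 1) (by omega) h4

end FO2
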