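import Pool.Agent.FO2.Stmts

/-!
# Centring and linearising
-/

namespace FO2

open Lib_helper64.FO
open scoped RealInnerProductSpace

noncomputable section

namespace LINP

variable {d : ℕ} {Γ : Type} [Group Γ] {X : Type} [Fintype X] [Nonempty X] [MulAction Γ X]
  (f : X → E d)

/-- the centroid -/
def cen : E d := (Fintype.card X : ℝ)⁻¹ • ∑ x, f x

theorem sum_sub_cen : ∑ x, (f x - cen f) = 0 := by
  have h : (Fintype.card X : ℝ) ≠ 0 := by exact_mod_cast Fintype.card_ne_zero
  rw [Finset.sum_sub_distrib, Finset.sum_const, Finset.card_univ, ← Nat.cast_smul_eq_nsmul ℝ, cen,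
    smul_smul, mul_inv_cancel₀ h, one_smul, sub_self]

theorem exists_lin (h : Γ) (hT : ∃ T : E d ≃ᵢ E d, ∀ x, T (f x) = f (h • x)) :
    ∃ L : E d ≃ₗᵢ[ℝ] E d, ∀ x, L (f x - cen f) = f (h • x) - cen f := by
  obtain ⟨T, hT⟩ := hT
  set A := T.toRealAffineIsometryEquiv with hA
  have hAT : ∀ v, A v = T v := fun v => by rw [hA]; rfl
  have hvs : ∀ v w : E d, A.linearIsometryEquiv (v - w) = A v - A w := fun v w => A.map_vsub v w
  have hn : (Fintype.card X : ℝ) ≠ 0 := by exact_mod_cast Fintype.card_ne_zero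
  have hc : A (cen f) = cen f := by
    have h1 : ∑ x, (A (f x) - A (cen f)) = 0 := by
      rw [← map_zero A.linearIsometryEquiv, ← sum_sub_cen f, map_sum]
      exact Finset.sum_congr rfl fun x _ => (hvs _ _).symm
    have h2 : ∑ x, A (f x) = ∑ x, f x := by
      have h3 : ∀ x, A (f x) = f (MulAction.toPerm h x) := fun x => by
        rw [hAT, hT x]
        rfl
      rw [Finset.sum_congr rfl fun x _ => h3 x]
      exact Equiv.sum_comp (MulAction.toPerm h) f
    have h4 := sum_sub_cen f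
    rw [Finset.sum_sub_distrib, Finset.sum_const, Finset.card_univ] at h1 h4
    rw [h2] at h1
    have h5 : (Fintype.card X) • A (cen f) = (Fintype.card X) • cen f :=
      (sub_eq_zero.1 h1).symm.trans (sub_eq_zero.1 h4)
    rw [← Nat.cast_smul_eq_nsmul ℝ, ← Nat.cast_smul_eq_nsmul ℝ] at h5
    exact smul_right_injective _ hn h5
  refine ⟨A.linearIsometryEquiv, fun x => ?_⟩
  rw [hvs, hc, hAT, hT x]

/-- the span of the centred points -/
def W : Submodule ℝ (E d) := Submodule.span ℝ (Set.range fun x => f x - cen f)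

theorem mem_W {h : Γ} {L : E d ≃ₗᵢ[ℝ] E d} (hL : ∀ x, L (f x - cen f) = f (h • x) - cen f)
    {v : E d} (hv : v ∈ W f) : L v ∈ W f := by
  have h1 : W f ≤ (W f).comap (L.toLinearEquiv : E d →ₗ[ℝ] E d) := by
    refine Submodule.span_le.2 ?_
    rintro _ ⟨x, rfl⟩
    show L (f x - cen f) ∈ W f
    rw [hL x]
    exact Submodule.subset_span ⟨h • x, rfl⟩
  exact h1 hv

theorem eq_on_W {L L' : E d →ₗ[ℝ] E d} (hL : ∀ x, L (f x - cen f) = L' (f x - cen f)) {v : E d}
    (hv : v ∈ W f) : L v = L' v := by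
  have h1 : Set.EqOn L L' (W f : Set (E d)) := by
    refine LinearMap.eqOn_span ?_
    rintro _ ⟨x, rfl⟩
    exact hL x
  exact h1 hv

/-- the linear map which is `L` on `W` and `1` on the orthogonal complement -/
def mk (L : E d ≃ₗᵢ[ℝ] E d) : E d →ₗ[ℝ] E d :=
  (L.toLinearEquiv : E d →ₗ[ℝ] E d) ∘ₗ ((W f).starProjection : E d →ₗ[ℝ] E d) +
    (LinearMap.id - ((W f).starProjection : E d →ₗ[ℝ] E d))

theorem mk_apply (L : E d ≃ₗᵢ[ℝ] E d) (v : E d) :
    mk f L v = L ((W f).starProjection v) + (v - (W f).starProjection v) := rfl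

theorem mk_of_mem (L : E d ≃ₗᵢ[ℝ] E d) {v : E d} (hv : v ∈ W f) : mk f L v = L v := by
  rw [mk_apply, Submodule.starProjection_eq_self_iff.2 hv, sub_self, add_zero]

theorem norm_mk {h : Γ} {L : E d ≃ₗᵢ[ℝ] E d} (hL : ∀ x, L (f x - cen f) = f (h • x) - cen f)
    (v : E d) : ‖mk f L v‖ = ‖v‖ := by
  have h0 : (W f).starProjection v ∈ W f := Submodule.starProjection_apply_mem _ _
  have h1 : L ((W f).starProjection v) ∈ W f := mem_W f hL h0
  have h2 : v - (W f).starProjection v ∈ (W f)ᗮ := Submodule.sub_starProjection_mem_orthogonal _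
  have h3 : ⟪L ((W f).starProjection v), v - (W f).starProjection v⟫ = 0 :=
    Submodule.inner_right_of_mem_orthogonal h1 h2
  have h4 : ⟪(W f).starProjection v, v - (W f).starProjection v⟫ = 0 :=
    Submodule.inner_right_of_mem_orthogonal h0 h2
  have h5 := norm_add_sq_eq_norm_sq_add_norm_sq_real h3
  have h6 := norm_add_sq_eq_norm_sq_add_norm_sq_real h4
  rw [L.norm_map] at h5
  rw [add_sub_cancel] at h6
  have h7 : ‖mk f L v‖ * ‖mk f L v‖ = ‖v‖ * ‖v‖ := by rw [mk_apply, h5, h6]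
  nlinarith [norm_nonneg (mk f L v), norm_nonneg v, mul_self_eq_mul_self_iff.1 h7,
    (mul_self_inj (norm_nonneg _) (norm_nonneg _)).1 h7]

end LINP

open LINP in
theorem lin : StmtLin := by
  intro d Γ _ X _ _ _ f H hH
  classical
  haveI : Fintype X := Fintype.ofFinite X
  have h1 : ∀ h ∈ H, ∃ L : E d ≃ₗᵢ[ℝ] E d, ∀ x, L (f x - cen f) = f (h • x) - cen f :=
    fun h hh => exists_lin f h (hH h hh)
  choose! L hL using h1
  have h2 : ∀ h ∈ H, ∃ M : E d ≃ₗᵢ[ℝ] E d, ∀ v, M v = mk f (L h) v := by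
    intro h hh
    let M0 : E d →ₗᵢ[ℝ] E d := ⟨mk f (L h), norm_mk f (hL h hh)⟩
    exact ⟨M0.toLinearIsometryEquiv rfl, fun v => rfl⟩
  choose! M hM using h2
  refine ⟨cen f, M, ?_, ?_⟩
  · intro g hg h hh
    have hgh : g * h ∈ H := H.mul_mem hg hh
    ext1 v
    show M (g * h) v = M g (M h v)
    rw [hM _ hgh, hM _ hh, hM _ hg]
    set p := (W f).starProjection v with hp
    have h0 : p ∈ W f := Submodule.starProjection_apply_mem _ _
    have h3 : v - p ∈ (W f)ᗮ := Submodule.sub_starProjection_mem_orthogonal _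
    have e1 : mk f (L g) (v - p) = v - p := by
      rw [mk_apply, (Submodule.starProjection_apply_eq_zero_iff _).2 h3, map_zero, sub_zero,
        zero_add]
    have e2 : mk f (L h) v = L h p + (v - p) := mk_apply f _ v
    have e3 : mk f (L (g * h)) v = L (g * h) p + (v - p) := mk_apply f _ v
    rw [e2, e3, map_add, e1, mk_of_mem f _ (mem_W f (hL h hh) h0)]
    congr 1
    refine eq_on_W f (L := ((L (g * h)).toLinearEquiv : E d →ₗ[ℝ] E d))
      (L' := ((L g).toLinearEquiv : E d →ₗ[ℝ] E d) ∘ₗ ((L h).toLinearEquiv : E d →ₗ[ℝ] E d))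
      (fun x => ?_) h0
    show L (g * h) (f x - cen f) = L g (L h (f x - cen f))
    rw [hL _ hgh, hL _ hh, hL _ hg, mul_smul]
  · intro h hh x
    rw [hM _ hh, mk_of_mem f _ (Submodule.subset_span ⟨x, rfl⟩), hL h hh]

end

end FO2
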