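import Pool.Agent.FO2.Stmts

/-!
# Position of the base vertex, type `A`

If the roots of the last reflection form a root system `A_d`, given by a regular simplex `v`, then
the base vertex is a multiple of a vertex of the simplex.
-/

namespace FO2

open Lib_helper64.FO
open scoped RealInnerProductSpace

noncomputable section

namespace PA

/-! ### regular simplices -/

section simplex

variable {d : ℕ} {v : Fin (d + 1) → E d}

theorem inner_comb (hv : IsSimplex v) (c : Fin (d + 1) → ℝ) (j : Fin (d + 1)) :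
    ⟪v j, ∑ i, c i • v i⟫ = c j * (1 + 1 / d) - (∑ i, c i) / d := by
  rw [inner_sum]
  have h1 : ∀ i, ⟪v j, c i • v i⟫ = (if j = i then c i * (1 + 1 / d) else 0) - c i / (d : ℝ) := by
    intro i
    rw [inner_smul_right, hv j i]
    split_ifs <;> ring
  rw [Finset.sum_congr rfl fun i _ => h1 i, Finset.sum_sub_distrib, Finset.sum_ite_eq,
    if_pos (Finset.mem_univ _), Finset.sum_div]

theorem sum_eq_zero (hd : d ≠ 0) (hv : IsSimplex v) : ∑ i, v i = 0 := by
  have hd' : (d : ℝ) ≠ 0 := Nat.cast_ne_zero.2 hd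
  have h1 : ∀ j, ⟪v j, ∑ i, v i⟫ = 0 := by
    intro j
    have h2 := inner_comb hv (fun _ => 1) j
    simp only [one_smul, Finset.sum_const, Finset.card_univ, Fintype.card_fin, nsmul_eq_mul,
      mul_one, one_mul] at h2
    rw [h2]
    push_cast
    field_simp
    ring
  rw [← inner_self_eq_zero (𝕜 := ℝ)]
  conv_lhs => rw [sum_inner]
  exact Finset.sum_eq_zero fun j _ => h1 j

theorem inner_sum_zero (hd : d ≠ 0) (hv : IsSimplex v) (w : E d) : ∑ i, ⟪v i, w⟫ = 0 := by
  rw [← sum_inner, sum_eq_zero hd hv, inner_zero_left]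

theorem simplex_ne (hv : IsSimplex v) {i j : Fin (d + 1)} (h : i ≠ j) : v i - v j ≠ 0 := by
  intro h0
  have h1 : ⟪v i, v i - v j⟫ = 0 := by rw [h0, inner_zero_right]
  rw [inner_sub_right, hv i i, hv i j, if_pos rfl, if_neg h] at h1
  have : (0 : ℝ) ≤ 1 / d := by positivity
  have h2 : (-1 : ℝ) / d = -(1 / d) := by ring
  rw [h2] at h1
  linarith

/-- A vector with equal inner products with all but one vertex is a multiple of that vertex. -/
theorem eq_smul (hd : d ≠ 0) (hv : IsSimplex v) (hs : ∀ w : E d, (∀ i, ⟪v i, w⟫ = 0) → w = 0)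
    {k0 : Fin (d + 1)} {x : E d} {c : ℝ} (h : ∀ k, k ≠ k0 → ⟪v k, x⟫ = c) :
    x = (-(d * c)) • v k0 := by
  have hd' : (d : ℝ) ≠ 0 := Nat.cast_ne_zero.2 hd
  have h0 := inner_sum_zero hd hv x
  rw [← Finset.add_sum_erase _ _ (Finset.mem_univ k0),
    Finset.sum_congr rfl fun k hk => h k (Finset.ne_of_mem_erase hk), Finset.sum_const,
    Finset.card_erase_of_mem (Finset.mem_univ _), Finset.card_univ, Fintype.card_fin,
    nsmul_eq_mul] at h0
  simp only [Nat.add_sub_cancel] at h0
  have h1 : x - (-(d * c)) • v k0 = 0 := by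
    apply hs
    intro i
    rw [inner_sub_right, inner_smul_right, hv i k0]
    by_cases hi : i = k0
    · subst hi
      rw [if_pos rfl]
      linarith
    · rw [h i hi, if_neg hi]
      field_simp
      ring
  exact sub_eq_zero.1 h1

end simplex

/-- the data of the proof -/
structure Ctx {d : ℕ} {Γ : Type} [Group Γ] {X : Type} [MulAction Γ X] (G : Geo d Γ X) (r : E d)
    (v : Fin (d + 1) → E d) : Prop where
  hd : 9 ≤ d
  last : Last G r
  isA : IsA (G.orb r) v
  mem : r ∈ G.orb r
  stab : ∀ h ∈ G.H, ∀ b ∈ G.orb r, G.T h b ∈ G.orb r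
  act : ∀ h ∈ G.H, ∃ π : Equiv.Perm (Fin (d + 1)),
    (∀ i, G.T h (v i) = v (π i)) ∨ (∀ i, G.T h (v i) = -v (π i))

/-- `v k - v l` is orthogonal to `V_i` -/
def R {d : ℕ} {Γ : Type} [Group Γ] {X : Type} [MulAction Γ X] (G : Geo d Γ X)
    (v : Fin (d + 1) → E d) (i : ℕ) (k l : Fin (d + 1)) : Prop := v k - v l ∈ G.U i

/-- the span of the differences of the vertices which are equivalent to `p` -/
def S {d : ℕ} {Γ : Type} [Group Γ] {X : Type} [MulAction Γ X] (G : Geo d Γ X)
    (v : Fin (d + 1) → E d) (i : ℕ) (p : Fin (d + 1)) : Submodule ℝ (E d) :=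
  Submodule.span ℝ {b | ∃ k l, R G v i k p ∧ R G v i l p ∧ b = v k - v l}

section

variable {d : ℕ} {Γ : Type} [Group Γ] {X : Type} [MulAction Γ X] {G : Geo d Γ X} {r : E d}
  {v : Fin (d + 1) → E d}

theorem R_refl (i : ℕ) (k : Fin (d + 1)) : R G v i k k := by
  rw [R, sub_self]
  exact zero_mem _

theorem R_symm {i : ℕ} {k l : Fin (d + 1)} (h : R G v i k l) : R G v i l k := by
  have := neg_mem h
  rwa [neg_sub] at this

theorem R_trans {i : ℕ} {k l m : Fin (d + 1)} (h : R G v i k l) (h' : R G v i l m) :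
    R G v i k m := by
  have := add_mem h h'
  rwa [sub_add_sub_cancel] at this

theorem R_mono {i j : ℕ} (hij : i ≤ j) {k l : Fin (d + 1)} (h : R G v j k l) : R G v i k l :=
  G.U_anti hij h

theorem R_inner {i : ℕ} {k l : Fin (d + 1)} (h : R G v i k l) {w : E d} (hw : w ∈ G.V i) :
    ⟪v k, w⟫ = ⟪v l, w⟫ := by
  have h1 : ⟪w, v k - v l⟫ = 0 := (Submodule.mem_orthogonal _ _).1 h w hw
  rw [inner_sub_right, real_inner_comm (v k) w, real_inner_comm (v l) w] at h1
  linarith

theorem S_le (i : ℕ) (p : Fin (d + 1)) : S G v i p ≤ G.U i := by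
  rw [S, Submodule.span_le]
  rintro _ ⟨k, l, hk, hl, rfl⟩
  exact R_trans hk (R_symm hl)

theorem Ctx.simplex (C : Ctx G r v) : IsSimplex v := C.isA.1

theorem Ctx.d0 (C : Ctx G r v) : d ≠ 0 := by
  have := C.hd
  omega

/-- the vertices span the space -/
theorem Ctx.eq_zero (C : Ctx G r v) {w : E d} (h : ∀ i, ⟪v i, w⟫ = 0) : w = 0 := by
  have h1 : w ∈ (Submodule.span ℝ (G.orb r))ᗮ := by
    rw [Submodule.mem_orthogonal]
    intro u hu
    induction hu using Submodule.span_induction with
    | mem u hu =>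
      obtain ⟨i, j, -, t, -, -, rfl⟩ := (C.isA.2 u).1 hu
      rw [real_inner_smul_left, inner_sub_left, h i, h j]
      ring
    | zero => exact inner_zero_left _
    | add u u' _ _ hu hu' => rw [inner_add_left, hu, hu', add_zero]
    | smul c u _ hu => rw [real_inner_smul_left, hu, mul_zero]
  rw [C.last.span, Submodule.top_orthogonal_eq_bot, Submodule.mem_bot] at h1
  exact h1

theorem Ctx.r_mem_U (C : Ctx G r v) {i : ℕ} (hi : i + 1 ≤ d) : r ∈ G.U i := by
  rw [Geo.U, Submodule.mem_orthogonal]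
  intro w hw
  rw [real_inner_comm]
  exact C.last.perp w (G.V_mono (by omega) hw)

theorem Ctx.r_ne (C : Ctx G r v) : r ≠ 0 := by
  intro h
  have := C.last.norm
  rw [h, norm_zero] at this
  exact zero_ne_one this

/-- the roots in `U_i` span `U_i` -/
theorem Ctx.span_phi (C : Ctx G r v) {i : ℕ} (hi : i + 3 ≤ d) :
    Submodule.span ℝ (G.orb r ∩ G.U i) = G.U i := by
  have h0 : ∀ h ∈ G.Hi i, ∀ u ∈ Submodule.span ℝ (G.orb r ∩ G.U i),
      G.T h u ∈ Submodule.span ℝ (G.orb r ∩ G.U i) := by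
    intro h hh u hu
    induction hu using Submodule.span_induction with
    | mem u hu =>
      exact Submodule.subset_span ⟨C.stab h hh.1 u hu.1, G.T_mem_U hh hu.2⟩
    | zero => rw [map_zero]; exact zero_mem _
    | add u u' _ _ hu hu' => rw [map_add]; exact add_mem hu hu'
    | smul c u _ hu => rw [map_smul]; exact Submodule.smul_mem _ _ hu
  rcases C.last.good.irr i hi _ (Submodule.span_le.2 fun _ hb => hb.2) h0 with h1 | h1
  · exfalso
    have : r ∈ Submodule.span ℝ (G.orb r ∩ G.U i) :=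
      Submodule.subset_span ⟨C.mem, C.r_mem_U (by omega)⟩
    rw [h1, Submodule.mem_bot] at this
    exact C.r_ne this
  · exact h1

theorem Ctx.mem_V (C : Ctx G r v) {i : ℕ} (hi : i + 3 ≤ d) {w : E d}
    (h : ∀ k l, R G v i k l → ⟪v k, w⟫ = ⟪v l, w⟫) : w ∈ G.V i := by
  have h1 : w ∈ (G.U i)ᗮ := by
    rw [← C.span_phi hi, Submodule.mem_orthogonal]
    intro u hu
    induction hu using Submodule.span_induction with
    | mem u hu =>
      obtain ⟨hu1, hu2⟩ := hu
      obtain ⟨k, l, -, t, ht, -, rfl⟩ := (C.isA.2 u).1 hu1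
      have h2 : v k - v l ∈ G.U i := by
        have := (G.U i).smul_mem t⁻¹ hu2
        rwa [smul_smul, inv_mul_cancel₀ ht.ne', one_smul] at this
      rw [real_inner_smul_left, inner_sub_left, h k l h2]
      ring
    | zero => exact inner_zero_left _
    | add u u' _ _ hu hu' => rw [inner_add_left, hu, hu', add_zero]
    | smul c u _ hu => rw [real_inner_smul_left, hu, mul_zero]
  rw [Geo.U, Submodule.orthogonal_orthogonal] at h1
  exact h1

/-- `H_i` permutes the blocks -/
theorem R_perm {i : ℕ} {h : Γ} (hh : h ∈ G.Hi i) {π : Equiv.Perm (Fin (d + 1))}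
    (hπ : (∀ i, G.T h (v i) = v (π i)) ∨ (∀ i, G.T h (v i) = -v (π i))) {k l : Fin (d + 1)}
    (hkl : R G v i k l) : R G v i (π k) (π l) := by
  have h1 : G.T h (v k - v l) ∈ G.U i := G.T_mem_U hh hkl
  rw [map_sub] at h1
  rcases hπ with hπ | hπ
  · rwa [hπ, hπ] at h1
  · rw [hπ, hπ] at h1
    have := neg_mem h1
    rwa [neg_sub, sub_neg_eq_add, neg_add_eq_sub] at this

/-- there are at least three blocks for `i = 2` -/
theorem Ctx.three (C : Ctx G r v) (k1 k2 : Fin (d + 1)) :
    ∃ k3, ¬ R G v 2 k1 k3 ∧ ¬ R G v 2 k2 k3 := by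
  classical
  have hd := C.hd
  by_contra hcon
  push Not at hcon
  have hV : Module.finrank ℝ (G.V 2) = 2 := C.last.good.chain.dim 2 (by omega)
  have h1 : LinearMap.ker ((innerₗ (E d) (v k1)).comp (G.V 2).subtype) ≠ ⊥ := by
    apply LinearMap.ker_ne_bot_of_finrank_lt
    rw [hV, Module.finrank_self]
    norm_num
  obtain ⟨w, hw, hw0⟩ := Submodule.exists_mem_ne_zero_of_ne_bot h1
  have hw1 : ⟪v k1, (w : E d)⟫ = 0 := hw
  have h2 : ∀ k, ⟪v k, (w : E d)⟫ = if R G v 2 k1 k then 0 else ⟪v k2, (w : E d)⟫ := by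
    intro k
    by_cases hk : R G v 2 k1 k
    · rw [if_pos hk, ← R_inner hk w.2, hw1]
    · rw [if_neg hk, ← R_inner (hcon k hk) w.2]
  have h3 := inner_sum_zero C.d0 C.simplex (w : E d)
  rw [Finset.sum_congr rfl fun k _ => h2 k, ← Finset.sum_filter_add_sum_filter_not _
    (fun k => R G v 2 k1 k), Finset.sum_congr rfl (g := fun _ => (0 : ℝ)) ?_,
    Finset.sum_congr (s₁ := Finset.univ.filter fun k => ¬ R G v 2 k1 k) rfl
    (g := fun _ => ⟪v k2, (w : E d)⟫) ?_, Finset.sum_const_zero, zero_add, Finset.sum_const,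
    nsmul_eq_mul, mul_eq_zero] at h3
  · apply hw0
    apply Subtype.ext
    apply C.eq_zero
    intro k
    rw [h2 k]
    split_ifs with hk
    · rfl
    · rcases h3 with h3 | h3
      · exfalso
        rw [Nat.cast_eq_zero, Finset.card_eq_zero, Finset.filter_eq_empty_iff] at h3
        exact h3 (Finset.mem_univ k) hk
      · exact h3
  · intro k hk
    rw [if_neg (Finset.mem_filter.1 hk).2]
  · intro k hk
    rw [if_pos (Finset.mem_filter.1 hk).2]

/-- the elements of `H_2` act without sign and preserve the blocks -/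
theorem Ctx.act2 (C : Ctx G r v) {h : Γ} (hh : h ∈ G.Hi 2) :
    ∃ π : Equiv.Perm (Fin (d + 1)), (∀ i, G.T h (v i) = v (π i)) ∧ ∀ k, R G v 2 (π k) k := by
  classical
  have hd := C.hd
  obtain ⟨π, hπ⟩ := C.act h hh.1
  rcases hπ with hπ | hπ
  · refine ⟨π, hπ, fun k => ?_⟩
    rw [R, Geo.U, Submodule.mem_orthogonal]
    intro w hw
    rw [inner_sub_right, ← hπ k]
    have h1 : ⟪w, G.T h (v k)⟫ = ⟪w, v k⟫ := by
      conv_lhs => rw [← hw h hh]
      rw [LinearIsometryEquiv.inner_map_map]
    rw [h1, sub_self]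
  · exfalso
    have k : Fin (d + 1) := 0
    obtain ⟨k3, h1, h2⟩ := C.three k (π k)
    set c : Fin (d + 1) → ℝ := fun l => if R G v 2 l k3 then 1 else 0 with hc
    have hw : ∑ l, c l • v l ∈ G.V 2 := by
      apply C.mem_V (by omega)
      intro a b hab
      rw [inner_comb C.simplex, inner_comb C.simplex]
      have : c a = c b := by
        rw [hc]
        dsimp only
        by_cases ha : R G v 2 a k3
        · rw [if_pos ha, if_pos (R_trans (R_symm hab) ha)]
        · rw [if_neg ha, if_neg fun hb => ha (R_trans hab hb)]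
      rw [this]
    have e1 : ⟪v k, ∑ l, c l • v l⟫ = -⟪v (π k), ∑ l, c l • v l⟫ := by
      rw [← inner_neg_left, ← hπ k]
      conv_rhs => rw [← hw h hh]
      rw [LinearIsometryEquiv.inner_map_map]
    rw [inner_comb C.simplex, inner_comb C.simplex] at e1
    have c1 : c k = 0 := if_neg h1
    have c2 : c (π k) = 0 := if_neg h2
    rw [c1, c2] at e1
    have hpos : 0 < ∑ l, c l := by
      apply Finset.sum_pos'
      · intro l _
        rw [hc]
        dsimp only
        split_ifs <;> norm_num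
      · refine ⟨k3, Finset.mem_univ _, ?_⟩
        rw [hc]
        dsimp only
        rw [if_pos (R_refl 2 k3)]
        exact one_pos
    have hd' : (0 : ℝ) < d := Nat.cast_pos.2 (by omega)
    have := div_pos hpos hd'
    linarith

/-- the span of the differences in a block is `H_i`-stable if the block is preserved -/
theorem S_stab {i : ℕ} {p : Fin (d + 1)} {h : Γ} {π : Equiv.Perm (Fin (d + 1))}
    (hπ : (∀ i, G.T h (v i) = v (π i)) ∨ (∀ i, G.T h (v i) = -v (π i)))
    (hp : ∀ k, R G v i k p → R G v i (π k) p) {w : E d} (hw : w ∈ S G v i p) :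
    G.T h w ∈ S G v i p := by
  rw [S] at hw
  induction hw using Submodule.span_induction with
  | mem u hu =>
    obtain ⟨k, l, hk, hl, rfl⟩ := hu
    rw [map_sub]
    rcases hπ with hπ | hπ
    · rw [hπ, hπ]
      exact Submodule.subset_span ⟨π k, π l, hp k hk, hp l hl, rfl⟩
    · rw [hπ, hπ, sub_neg_eq_add, neg_add_eq_sub]
      exact Submodule.subset_span ⟨π l, π k, hp l hl, hp k hk, rfl⟩
  | zero => rw [map_zero]; exact zero_mem _
  | add u u' _ _ hu hu' => rw [map_add]; exact add_mem hu hu'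
  | smul c u _ hu => rw [map_smul]; exact Submodule.smul_mem _ _ hu

/-- the big block for `i = 2` -/
theorem Ctx.big (C : Ctx G r v) : ∃ p q, p ≠ q ∧ R G v 2 p q ∧ S G v 2 p = G.U 2 := by
  have hd := C.hd
  obtain ⟨p, q, hpq, t, ht, -, hr⟩ := (C.isA.2 r).1 C.mem
  have h1 : R G v 2 p q := by
    have := (G.U 2).smul_mem t⁻¹ (C.r_mem_U (i := 2) (by omega))
    rwa [hr, smul_smul, inv_mul_cancel₀ ht.ne', one_smul] at this
  refine ⟨p, q, hpq, h1, ?_⟩
  have h0 : ∀ h ∈ G.Hi 2, ∀ w ∈ S G v 2 p, G.T h w ∈ S G v 2 p := by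
    intro h hh w hw
    obtain ⟨π, hπ, hk⟩ := C.act2 hh
    exact S_stab (Or.inl hπ) (fun k hkp => R_trans (hk k) hkp) hw
  rcases C.last.good.irr 2 (by omega) (S G v 2 p) (S_le 2 p) h0 with h2 | h2
  · exfalso
    have h3 : v p - v q ∈ S G v 2 p := Submodule.subset_span ⟨p, q, R_refl _ _, R_symm h1, rfl⟩
    rw [h2, Submodule.mem_bot] at h3
    exact simplex_ne C.simplex hpq h3
  · exact h2

/-- `v k` is in `V_2` if `k` is not in the big block -/
theorem mem_V2 (hv : IsSimplex v) {p : Fin (d + 1)} (hS : S G v 2 p = G.U 2) {k : Fin (d + 1)}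
    (hk : ¬ R G v 2 k p) : v k ∈ G.V 2 := by
  have h1 : v k ∈ (G.U 2)ᗮ := by
    rw [← hS, Submodule.mem_orthogonal]
    intro u hu
    rw [S] at hu
    induction hu using Submodule.span_induction with
    | mem u hu =>
      obtain ⟨a, b, ha, hb, rfl⟩ := hu
      have ha' : a ≠ k := fun e => hk (e ▸ ha)
      have hb' : b ≠ k := fun e => hk (e ▸ hb)
      rw [inner_sub_left, hv a k, hv b k, if_neg ha', if_neg hb', sub_self]
    | zero => exact inner_zero_left _
    | add u u' _ _ hu hu' => rw [inner_add_left, hu, hu', add_zero]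
    | smul c u _ hu => rw [real_inner_smul_left, hu, mul_zero]
  rw [Geo.U, Submodule.orthogonal_orthogonal] at h1
  exact h1

/-- at most two indices are outside of the big block -/
theorem Ctx.card_le (C : Ctx G r v) {p : Fin (d + 1)} (hS : S G v 2 p = G.U 2)
    (s : Finset (Fin (d + 1))) (hs : ∀ k ∈ s, ¬ R G v 2 k p) : s.card ≤ 2 := by
  have hd := C.hd
  have hd' : (0 : ℝ) < d := Nat.cast_pos.2 (by omega)
  have hV : Module.finrank ℝ (G.V 2) = 2 := C.last.good.chain.dim 2 (by omega)
  have hli : LinearIndependent ℝ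
      (fun k : s => (⟨v k, mem_V2 C.simplex hS (hs k k.2)⟩ : G.V 2)) := by
    rw [Fintype.linearIndependent_iff]
    intro g hg
    set c : Fin (d + 1) → ℝ := fun k => if h : k ∈ s then g ⟨k, h⟩ else 0 with hc
    have h1 : ∑ k, c k • v k = 0 := by
      have h2 := congrArg (fun w : G.V 2 => (w : E d)) hg
      simp only [Submodule.coe_sum, Submodule.coe_smul, Submodule.coe_zero] at h2
      rw [← Finset.sum_subset (Finset.subset_univ s), ← Finset.sum_coe_sort s, ← h2]
      · apply Finset.sum_congr rfl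
        intro k _
        rw [hc]
        dsimp only
        rw [dif_pos k.2]
      · intro k _ hk
        rw [hc]
        dsimp only
        rw [dif_neg hk, zero_smul]
    have h2 : ∀ k, c k * (1 + 1 / d) - (∑ i, c i) / d = 0 := by
      intro k
      rw [← inner_comb C.simplex, h1, inner_zero_right]
    have h3 : c p = 0 := dif_neg fun h => hs p h (R_refl _ _)
    have h4 : (∑ i, c i) / (d : ℝ) = 0 := by
      have := h2 p
      rw [h3] at this
      linarith
    intro k
    have h5 := h2 k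
    rw [h4, sub_zero, mul_eq_zero] at h5
    have h6 : c k = g k := by
      rw [hc]
      dsimp only
      rw [dif_pos k.2]
    rcases h5 with h5 | h5
    · rw [← h6, h5]
    · exfalso
      have : (0 : ℝ) < 1 + 1 / d := by positivity
      linarith
  have := hli.fintype_card_le_finrank
  rwa [hV, Fintype.card_coe] at this

/-- all indices but one are equivalent for `i = 1` -/
theorem Ctx.main (C : Ctx G r v) : ∃ k0 p, ∀ k, k ≠ k0 → R G v 1 k p := by
  classical
  have hd := C.hd
  obtain ⟨p, q, hpq, h1, hS⟩ := C.big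
  by_contra hcon
  push Not at hcon
  obtain ⟨k1, -, hk1⟩ := hcon p p
  obtain ⟨k2, hk12, hk2⟩ := hcon k1 p
  have hcl : ∀ k, k ≠ k1 → k ≠ k2 → R G v 2 k p := by
    intro k hk hk'
    by_contra hk3
    have := C.card_le hS {k, k1, k2} (by
      intro l hl
      simp only [Finset.mem_insert, Finset.mem_singleton] at hl
      rcases hl with rfl | rfl | rfl
      · exact hk3
      · exact fun h => hk1 (R_mono (by norm_num) h)
      · exact fun h => hk2 (R_mono (by norm_num) h))
    rw [Finset.card_eq_three.2 ⟨k, k1, k2, hk, hk', hk12.symm, rfl⟩] at this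
    omega
  -- `U_2` is stable under `H_1`
  have hst : ∀ h ∈ G.Hi 1, ∀ w ∈ G.U 2, G.T h w ∈ G.U 2 := by
    intro h hh w hw
    obtain ⟨π, hπ⟩ := C.act h hh.1
    rw [← hS] at hw ⊢
    refine S_stab hπ ?_ hw
    intro k hk
    by_contra hk3
    have hk4 : π k = k1 ∨ π k = k2 := by
      by_contra hne
      push Not at hne
      exact hk3 (hcl _ hne.1 hne.2)
    have hk5 : ¬ R G v 1 (π k) p := by
      rcases hk4 with e | e
      · rw [e]; exact hk1
      · rw [e]; exact hk2
    have h6 : ∀ l, l ≠ k1 → l ≠ k2 → π l = k1 ∨ π l = k2 := by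
      intro l hl hl'
      by_contra hne
      push Not at hne
      have e1 : R G v 1 l k :=
        R_trans (R_mono (by norm_num) (hcl l hl hl')) (R_symm (R_mono (by norm_num) hk))
      have e2 := R_perm hh hπ e1
      exact hk5 (R_trans (R_symm e2) (R_mono (by norm_num) (hcl _ hne.1 hne.2)))
    have h7 : ((Finset.univ.erase k1).erase k2).card ≤ ({k1, k2} : Finset (Fin (d + 1))).card := by
      apply Finset.card_le_card_of_injOn π
      · intro l hl
        rw [Finset.mem_coe, Finset.mem_erase, Finset.mem_erase] at hl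
        rw [Finset.mem_coe, Finset.mem_insert, Finset.mem_singleton]
        exact h6 l hl.2.1 hl.1
      · exact π.injective.injOn
    have h8 : ({k1, k2} : Finset (Fin (d + 1))).card ≤ 2 := Finset.card_le_two
    rw [Finset.card_erase_of_mem (Finset.mem_erase.2 ⟨hk12, Finset.mem_univ _⟩),
      Finset.card_erase_of_mem (Finset.mem_univ _), Finset.card_univ, Fintype.card_fin] at h7
    omega
  have hVV : G.V 2 = G.V 1 := by
    rcases C.last.good.irr 1 (by omega) (G.U 2) (G.U_anti (by norm_num)) hst with h2 | h2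
    · exfalso
      have : v p - v q ∈ G.U 2 := h1
      rw [h2, Submodule.mem_bot] at this
      exact simplex_ne C.simplex hpq this
    · have h3 : (G.U 2)ᗮ = (G.U 1)ᗮ := by rw [h2]
      rw [Geo.U, Geo.U, Submodule.orthogonal_orthogonal, Submodule.orthogonal_orthogonal] at h3
      exact h3
  have e2 := C.last.good.chain.dim 2 (by omega)
  have e1 := C.last.good.chain.dim 1 (by omega)
  rw [hVV, e1] at e2
  omega

theorem Ctx.pos (C : Ctx G r v) : ∃ (k0 : Fin (d + 1)) (c : ℝ), G.x = c • v k0 := by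
  obtain ⟨k0, p, h⟩ := C.main
  exact ⟨k0, _, eq_smul C.d0 C.simplex (fun w hw => C.eq_zero hw)
    fun k hk => R_inner (h k hk) G.x_mem_V1⟩

theorem renum {Φ : Set (E d)} (h : IsA Φ v) (π : Equiv.Perm (Fin (d + 1))) :
    IsA Φ (fun i => v (π i)) := by
  refine ⟨fun i j => ?_, fun a => ?_⟩
  · rw [h.1]
    simp [π.injective.eq_iff]
  · rw [h.2]
    constructor
    · rintro ⟨i, j, hij, t, ht, ha, rfl⟩
      exact ⟨π.symm i, π.symm j, fun e => hij (π.symm.injective e), t, ht, ha, by simp⟩
    · rintro ⟨i, j, hij, t, ht, ha, rfl⟩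
      exact ⟨π i, π j, fun e => hij (π.injective e), t, ht, ha, rfl⟩

end

end PA

theorem posA (h1 : StmtOrb) (h2 : StmtAutA) : StmtPosA := by
  intro d Γ _ _ X _ G r hd hr v hv
  have hJ : G.ρ (d - 1) ∈ G.H := hr.J _ (by omega)
  obtain ⟨o1, o2, o3, -, -, -, -⟩ := h1 d Γ X G (G.ρ (d - 1)) 1 r hJ (Or.inl rfl) hr.norm
    (fun w => by rw [one_smul]; exact hr.refl w)
  have C : PA.Ctx G r v := ⟨hd, hr, hv, o2, o3, fun h hh =>
    h2 d (G.orb r) v (by omega) hv (G.T h) fun a ha => o3 h hh a ha⟩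
  obtain ⟨k0, c, hx⟩ := C.pos
  exact ⟨fun i => v (Equiv.swap 0 k0 i), PA.renum hv _, c, by
    simpa only [Equiv.swap_apply_left] using hx⟩

end

end FO2
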