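import Pool.Agent.FO2.Stmts

/-!
# PD : position of the base vertex, type `D`
-/

namespace FO2

open Lib_helper64.FO
open scoped RealInnerProductSpace

noncomputable section

namespace PD

theorem sg_cases (s : ℤˣ) : sg s = 1 ∨ sg s = -1 := by
  rcases Int.units_eq_one_or s with h | h <;> rw [h] <;> simp [sg]

theorem sg_mul_self (s : ℤˣ) : sg s * sg s = 1 := by
  rcases sg_cases s with h | h <;> rw [h] <;> norm_num

theorem sg_ne (s : ℤˣ) : sg s ≠ 0 := by
  rcases sg_cases s with h | h <;> rw [h] <;> norm_num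

theorem sg_mul (s t : ℤˣ) : sg (s * t) = sg s * sg t := by
  simp [sg]

theorem abs_sg (s : ℤˣ) : |sg s| = 1 := by
  rcases sg_cases s with h | h <;> rw [h] <;> norm_num

variable {d : ℕ} {Γ : Type} [Group Γ] {X : Type} [MulAction Γ X] {G : Geo d Γ X}

/-- the elements of `V 1` are the multiples of the base vertex -/
theorem mem_V1 (hC : Chain G) (hd : 3 ≤ d) {v : E d} (hv : v ∈ G.V 1) : ∃ c : ℝ, v = c • G.x := by
  have h1 : Module.finrank ℝ (G.V 1) = 1 := hC.dim 1 (by omega)
  have hx : (⟨G.x, G.x_mem_V1⟩ : G.V 1) ≠ 0 := by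
    intro h
    exact hC.x_ne (congrArg Subtype.val h)
  obtain ⟨c, hc⟩ := (finrank_eq_one_iff_of_nonzero' _ hx).1 h1 ⟨v, hv⟩
  exact ⟨c, (congrArg Subtype.val hc).symm⟩

theorem mem_U1 (hC : Chain G) (hd : 3 ≤ d) {w : E d} : w ∈ G.U 1 ↔ ⟪G.x, w⟫ = (0 : ℝ) := by
  rw [Geo.U, Submodule.mem_orthogonal]
  constructor
  · intro h
    exact h _ G.x_mem_V1
  · intro h v hv
    obtain ⟨c, rfl⟩ := mem_V1 hC hd hv
    rw [inner_smul_left, h, mul_zero]

/-- coordinates of `T h v`, `h` in `H` -/
theorem coord {Φ : Set (E d)} {u : OrthonormalBasis (Fin d) ℝ (E d)} (h2 : StmtAutD) (hd : 5 ≤ d)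
    (hu : IsD Φ u) (hΦ : ∀ h ∈ G.H, ∀ b ∈ Φ, G.T h b ∈ Φ) {h : Γ} (hh : h ∈ G.H) :
    ∃ (π : Equiv.Perm (Fin d)) (s : Fin d → ℤˣ), ∀ k v, ⟪u k, G.T h v⟫ = sg (s k) * ⟪u (π k), v⟫ := by
  obtain ⟨π, s, hs⟩ := h2 d Φ u hd hu (G.T h⁻¹) (fun a ha => hΦ _ (inv_mem hh) a ha)
  refine ⟨π, s, fun k v => ?_⟩
  have e := LinearIsometryEquiv.inner_map_map (G.T h⁻¹) (u k) (G.T h v)
  rw [hs k, G.T_inv_apply' hh, inner_smul_left] at e
  rw [← e]
  simp

/-- changing signs of the orthonormal basis -/
theorem isD_signs (hd : 0 < d) {Φ : Set (E d)} {u : OrthonormalBasis (Fin d) ℝ (E d)}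
    (hu : IsD Φ u) (ε : Fin d → ℤˣ) : ∃ u' : OrthonormalBasis (Fin d) ℝ (E d), IsD Φ u' ∧
      ∀ k, u' k = sg (ε k) • u k := by
  classical
  have hon : Orthonormal ℝ (fun k => sg (ε k) • u k) := by
    rw [orthonormal_iff_ite]
    intro i j
    have := orthonormal_iff_ite.1 u.orthonormal i j
    rw [inner_smul_left, inner_smul_right, this]
    by_cases hij : i = j
    · subst hij
      simp [sg_mul_self]
    · simp [hij]
  have hcard : Fintype.card (Fin d) = Module.finrank ℝ (E d) := by simp
  have : Nonempty (Fin d) := ⟨⟨0, hd⟩⟩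
  let b := basisOfOrthonormalOfCardEqFinrank hon hcard
  have hb : ∀ k, b k = sg (ε k) • u k := fun k => by
    simp [b]
  let u' : OrthonormalBasis (Fin d) ℝ (E d) := b.toOrthonormalBasis (by
    have : (b : Fin d → E d) = fun k => sg (ε k) • u k := funext hb
    rw [this]; exact hon)
  have hu' : ∀ k, u' k = sg (ε k) • u k := fun k => by simp [u', hb]
  refine ⟨u', fun a => ?_, hu'⟩
  rw [hu a]
  constructor
  · rintro ⟨i, j, hij, s, t, e⟩
    refine ⟨i, j, hij, s * ε i, t * ε j, ?_⟩
    rw [e, hu', hu', sg_mul, sg_mul, smul_smul, smul_smul, mul_assoc, mul_assoc, sg_mul_self,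
      sg_mul_self, mul_one, mul_one]
  · rintro ⟨i, j, hij, s, t, e⟩
    refine ⟨i, j, hij, s * ε i, t * ε j, ?_⟩
    rw [e, hu', hu', sg_mul, sg_mul, smul_smul, smul_smul]

/-- `v` is the sum of its coordinates -/
theorem eq_of_coord (u : OrthonormalBasis (Fin d) ℝ (E d)) {v w : E d}
    (h : ∀ k, ⟪u k, v⟫ = ⟪u k, w⟫) : v = w := by
  apply u.repr.injective
  ext k
  rw [u.repr_apply_apply, u.repr_apply_apply]
  exact h k

theorem inner_eq_sum (u : OrthonormalBasis (Fin d) ℝ (E d)) (v w : E d) :
    ⟪v, w⟫ = ∑ k, ⟪u k, v⟫ * ⟪u k, w⟫ := by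
  rw [← u.sum_inner_mul_inner v w]
  refine Finset.sum_congr rfl fun k _ => ?_
  rw [real_inner_comm v (u k)]

end PD

open PD

theorem posD (h1 : StmtOrb) (h2 : StmtAutD) (h3 : StmtStar) : StmtPosD := by
  classical
  intro d Γ _ _ X _ G r hd L hI hSL hJ u hu
  have hC : Chain G := L.good.chain
  have hd3 : 3 ≤ d := by omega
  have hρ : G.ρ (d - 1) ∈ G.H := L.J _ (by omega)
  obtain ⟨hRS, hr, hΦ, -, -, -, -⟩ := h1 d Γ X G (G.ρ (d - 1)) 1 r hρ (Or.inl rfl) L.norm
    (fun v => by rw [one_smul]; exact L.refl v)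
  -- coordinates of the base vertex
  set xc : Fin d → ℝ := fun k => ⟪u k, G.x⟫ with hxc
  have hxfix : ∀ h ∈ G.Hi 1, G.T h G.x = G.x := fun h hh => G.x_mem_V1 h hh
  have hperm : ∀ h ∈ G.Hi 1, ∃ (π : Equiv.Perm (Fin d)) (s : Fin d → ℤˣ),
      (∀ k v, ⟪u k, G.T h v⟫ = sg (s k) * ⟪u (π k), v⟫) ∧ ∀ k, xc k = sg (s k) * xc (π k) := by
    intro h hh
    obtain ⟨π, s, hs⟩ := coord h2 (by omega) hu hΦ hh.1
    refine ⟨π, s, hs, fun k => ?_⟩
    have := hs k G.x
    rwa [hxfix h hh] at this
  obtain ⟨i0, j0, hij0, s0, t0, er⟩ := (hu r).1 hr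
  have hsq : (1 / √2 : ℝ) ≠ 0 := by positivity
  have hri : ∀ k, ⟪u k, r⟫ = (1 / √2 : ℝ) * (sg s0 * (if k = i0 then 1 else 0) +
      sg t0 * (if k = j0 then 1 else 0)) := by
    intro k
    rw [er, inner_smul_right, inner_add_right, inner_smul_right, inner_smul_right]
    rw [orthonormal_iff_ite.1 u.orthonormal k i0, orthonormal_iff_ite.1 u.orthonormal k j0]
  have hrx : ⟪r, G.x⟫ = (0 : ℝ) := L.perp _ (G.V_mono (by omega) G.x_mem_V1)
  have habs : |xc i0| = |xc j0| := by
    rw [real_inner_comm, inner_eq_sum u, Finset.sum_congr rfl (fun k _ => by rw [hri k])] at hrx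
    have e : ∑ k, ⟪u k, G.x⟫ * ((1 / √2 : ℝ) * (sg s0 * (if k = i0 then 1 else 0) +
        sg t0 * (if k = j0 then 1 else 0))) = (1 / √2 : ℝ) * (sg s0 * xc i0 + sg t0 * xc j0) := by
      have : ∀ k, ⟪u k, G.x⟫ * ((1 / √2 : ℝ) * (sg s0 * (if k = i0 then 1 else 0) +
        sg t0 * (if k = j0 then 1 else 0))) = (if k = i0 then (1 / √2 : ℝ) * sg s0 * xc k else 0) +
          (if k = j0 then (1 / √2 : ℝ) * sg t0 * xc k else 0) := by
        intro k
        simp only [hxc]
        split_ifs <;> ring
      rw [Finset.sum_congr rfl (fun k _ => this k), Finset.sum_add_distrib]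
      simp only [Finset.sum_ite_eq', Finset.mem_univ, if_true]
      ring
    rw [e] at hrx
    have h0 := (mul_eq_zero.1 hrx).resolve_left hsq
    have h4 : sg s0 * xc i0 = -(sg t0 * xc j0) := by linarith
    have h5 := congrArg abs h4
    rwa [abs_neg, abs_mul, abs_mul, abs_sg, abs_sg, one_mul, one_mul] at h5
  -- the space of the vectors supported on the zeros of `x`
  let B : Submodule ℝ (E d) :=
    { carrier := {v | ∀ k, xc k ≠ 0 → ⟪u k, v⟫ = (0 : ℝ)}
      add_mem' := by
        intro a b ha hb k hk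
        rw [inner_add_right, ha k hk, hb k hk, add_zero]
      zero_mem' := by
        intro k _
        exact inner_zero_right _
      smul_mem' := by
        intro c a ha k hk
        rw [inner_smul_right, ha k hk, mul_zero] }
  have hBU : B ≤ G.U 1 := by
    intro v hv
    rw [mem_U1 hC hd3, inner_eq_sum u]
    refine Finset.sum_eq_zero fun k _ => ?_
    by_cases hk : xc k = 0
    · have : ⟪u k, G.x⟫ = (0 : ℝ) := hk
      rw [this, zero_mul]
    · rw [hv k hk, mul_zero]
  have hBst : ∀ h ∈ G.Hi 1, ∀ v ∈ B, G.T h v ∈ B := by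
    intro h hh v hv k hk
    obtain ⟨π, s, hs, hx⟩ := hperm h hh
    have : xc (π k) ≠ 0 := by
      intro h0
      apply hk
      rw [hx k, h0, mul_zero]
    rw [hs k v, hv _ this, mul_zero]
  -- a vector orthogonal to `x` with prescribed support
  have hw : ∀ k l, k ≠ l → (xc l • u k - xc k • u l) ∈ G.U 1 := by
    intro k l hkl
    rw [mem_U1 hC hd3, inner_sub_right, inner_smul_right, inner_smul_right, real_inner_comm (u k),
      real_inner_comm (u l)]
    simp only [hxc]
    ring
  have hwc : ∀ k l, k ≠ l → ∀ m, ⟪u m, xc l • u k - xc k • u l⟫ =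
      xc l * (if m = k then 1 else 0) - xc k * (if m = l then 1 else 0) := by
    intro k l hkl m
    rw [inner_sub_right, inner_smul_right, inner_smul_right,
      orthonormal_iff_ite.1 u.orthonormal m k, orthonormal_iff_ite.1 u.orthonormal m l]
  rcases L.good.irr 1 (by omega) B hBU hBst with hB | hB
  · -- all coordinates of `x` are nonzero
    have hne : ∀ k, xc k ≠ 0 := by
      intro k hk
      have : u k ∈ B := by
        intro m hm
        have hmk : m ≠ k := fun e => hm (e ▸ hk)
        rw [orthonormal_iff_ite.1 u.orthonormal m k, if_neg hmk]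
      rw [hB, Submodule.mem_bot] at this
      exact u.orthonormal.ne_zero k this
    -- the level set of `i0`
    let C : Submodule ℝ (E d) :=
      { carrier := {v | (∀ k, |xc k| ≠ |xc i0| → ⟪u k, v⟫ = (0 : ℝ)) ∧ ⟪G.x, v⟫ = (0 : ℝ)}
        add_mem' := by
          rintro a b ⟨ha, ha'⟩ ⟨hb, hb'⟩
          refine ⟨fun k hk => ?_, ?_⟩
          · rw [inner_add_right, ha k hk, hb k hk, add_zero]
          · rw [inner_add_right, ha', hb', add_zero]
        zero_mem' := ⟨fun k _ => inner_zero_right _, inner_zero_right _⟩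
        smul_mem' := by
          rintro c a ⟨ha, ha'⟩
          refine ⟨fun k hk => ?_, ?_⟩
          · rw [inner_smul_right, ha k hk, mul_zero]
          · rw [inner_smul_right, ha', mul_zero] }
    have hCU : C ≤ G.U 1 := fun v hv => (mem_U1 hC hd3).2 hv.2
    have hCst : ∀ h ∈ G.Hi 1, ∀ v ∈ C, G.T h v ∈ C := by
      rintro h hh v ⟨hv, hv'⟩
      refine ⟨fun k hk => ?_, ?_⟩
      · obtain ⟨π, s, hs, hx⟩ := hperm h hh
        have : |xc (π k)| ≠ |xc i0| := by
          intro h0
          apply hk
          rw [hx k, abs_mul, abs_sg, one_mul, h0]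
        rw [hs k v, hv _ this, mul_zero]
      · have := LinearIsometryEquiv.inner_map_map (G.T h) G.x v
        rw [hxfix h hh] at this
        rw [this, hv']
    have hCw : (xc j0 • u i0 - xc i0 • u j0) ∈ C := by
      refine ⟨fun k hk => ?_, (mem_U1 hC hd3).1 (hw i0 j0 hij0)⟩
      have h1 : k ≠ i0 := fun e => hk (by rw [e])
      have h2 : k ≠ j0 := fun e => hk (by rw [e, habs])
      rw [hwc i0 j0 hij0, if_neg h1, if_neg h2]
      ring
    have hall : ∀ k, |xc k| = |xc i0| := by
      rcases L.good.irr 1 (by omega) C hCU hCst with h0 | h0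
      · exfalso
        rw [h0, Submodule.mem_bot] at hCw
        have := hwc i0 j0 hij0 i0
        rw [hCw, inner_zero_right, if_pos rfl, if_neg hij0] at this
        apply hne j0
        linarith
      · intro k
        by_contra hk
        have hki : i0 ≠ k := fun e => hk (by rw [e])
        have := hw i0 k hki
        rw [← h0] at this
        have h5 := this.1 k hk
        rw [hwc i0 k hki, if_neg (Ne.symm hki), if_pos rfl] at h5
        apply hne i0
        linarith
    -- change the signs
    obtain ⟨u', hu', hsgn⟩ := isD_signs (by omega) hu (fun k => if 0 < xc k then 1 else -1)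
    refine ⟨u', hu', |xc i0|, ?_⟩
    apply eq_of_coord u
    intro k
    rw [inner_smul_right, inner_sum]
    rw [Finset.sum_eq_single k]
    · rw [hsgn k, inner_smul_right, orthonormal_iff_ite.1 u.orthonormal k k, if_pos rfl, mul_one,
        ← hall k]
      change xc k = _
      by_cases hk : 0 < xc k
      · rw [if_pos hk, abs_of_pos hk]
        simp [sg]
      · rw [if_neg hk, abs_of_nonpos (not_lt.1 hk)]
        simp [sg]
    · intro m _ hm
      rw [hsgn m, inner_smul_right, orthonormal_iff_ite.1 u.orthonormal k m, if_neg (Ne.symm hm),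
        mul_zero]
    · intro hk
      exact absurd (Finset.mem_univ _) hk
  · -- `x` is a multiple of a vector of the frame: excluded
    exfalso
    obtain ⟨k0, hk0⟩ : ∃ k, xc k ≠ 0 := by
      by_contra hcon
      push Not at hcon
      apply hC.x_ne
      apply eq_of_coord u
      intro k
      rw [inner_zero_right]
      exact hcon k
    have hzero : ∀ k, k ≠ k0 → xc k = 0 := by
      intro k hk
      have h5 := hw k0 k (Ne.symm hk)
      rw [← hB] at h5
      have h6 := h5 k0 hk0
      rw [hwc k0 k (Ne.symm hk), if_pos rfl, if_neg (Ne.symm hk)] at h6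
      linarith
    have hx : G.x = xc k0 • u k0 := by
      apply eq_of_coord u
      intro k
      rw [inner_smul_right, orthonormal_iff_ite.1 u.orthonormal k k0]
      by_cases hk : k = k0
      · subst hk
        simp [hxc]
      · rw [if_neg hk, mul_zero]
        exact hzero k hk
    obtain ⟨j, hj⟩ := hJ
    have hj2 : j ≤ 2 := by
      by_contra h
      exact hj (L.J j (by omega))
    have hcomm : G.ρ j * G.ρ (d - 1) * (G.ρ j)⁻¹ = G.ρ (d - 1) := by
      rw [G.comm j (d - 1) (by omega), mul_assoc, mul_inv_cancel, mul_one]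
    obtain ⟨g, -, hg, hgT⟩ := h3 d Γ X G (by omega) L.good (G.ρ (d - 1)) 1 r hρ (Or.inl rfl) L.norm
      (fun v => by rw [one_smul]; exact L.refl v) hI L.span hSL (G.ρ j) hcomm
    -- the image of the base vertex under `ρ j`
    set y := G.f (G.ρ j • G.x0) with hy
    set z := g.symm y with hz
    have hgz : g z = y := g.apply_symm_apply y
    have hzT : ∀ h ∈ G.Hi 1, G.T h z = z ∨ G.T h z = -z := by
      intro h hh
      have hfix : G.T (G.ρ j * h * (G.ρ j)⁻¹) y = y := by
        rw [hy, G.equiv _ (G.conj_mem (G.ρ j) hh.1), mul_smul, mul_smul, inv_smul_smul,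
          G.up_fix_x0 hh.2]
      rcases hgT h hh.1 with h5 | h5
      · left
        apply g.injective
        rw [h5 z, hgz, hfix]
      · right
        apply g.injective
        rw [h5 z, hgz, hfix, map_neg, hgz]
    have hzV : z ∈ G.V 1 := by
      obtain ⟨z1, hz1, z2, hz2, e⟩ : ∃ z1 ∈ G.V 1, ∃ z2 ∈ G.U 1, z1 + z2 = z :=
        (Submodule.mem_sup).1 (by
          rw [Geo.U, Submodule.sup_orthogonal_of_hasOrthogonalProjection]
          exact Submodule.mem_top)
      have hst : ∀ h ∈ G.Hi 1, G.T h z2 = z2 ∨ G.T h z2 = -z2 := by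
        intro h hh
        have h5 : G.T h z1 = z1 := hz1 h hh
        have h6 : G.T h z2 ∈ G.U 1 := G.T_mem_U hh hz2
        rcases hzT h hh with h7 | h7
        · left
          rw [← e, map_add, h5] at h7
          exact add_left_cancel h7
        · right
          rw [← e, map_add, h5] at h7
          have h8 : z1 + z1 = -(G.T h z2 + z2) := by
            have : z1 + G.T h z2 + (z1 + z2) = 0 := by rw [h7]; abel
            rw [eq_neg_iff_add_eq_zero, ← this]
            abel
          have h9 : ⟪z1, z1 + z1⟫ = (0 : ℝ) := by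
            rw [h8, inner_neg_right, inner_add_right]
            rw [Geo.U, Submodule.mem_orthogonal] at h6 hz2
            rw [h6 z1 hz1, hz2 z1 hz1]
            simp
          have h10 : z1 = 0 := by
            rw [inner_add_right, real_inner_self_eq_norm_sq] at h9
            have : ‖z1‖ ^ 2 = 0 := by linarith
            exact norm_eq_zero.1 (pow_eq_zero_iff (two_ne_zero)|>.1 this)
          rw [h10, zero_add, zero_add] at h7
          exact h7
      have hspan : Submodule.span ℝ {z2} ≤ G.U 1 := by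
        rw [Submodule.span_le, Set.singleton_subset_iff]
        exact hz2
      have hspst : ∀ h ∈ G.Hi 1, ∀ v ∈ Submodule.span ℝ {z2}, G.T h v ∈ Submodule.span ℝ {z2} := by
        intro h hh v hv
        obtain ⟨c, rfl⟩ := Submodule.mem_span_singleton.1 hv
        rw [map_smul]
        rcases hst h hh with h5 | h5 <;> rw [h5]
        · exact Submodule.smul_mem _ _ (Submodule.mem_span_singleton_self z2)
        · exact Submodule.smul_mem _ _ (Submodule.neg_mem _ (Submodule.mem_span_singleton_self z2))
      rcases L.good.irr 1 (by omega) _ hspan hspst with h0 | h0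
      · have : z2 ∈ Submodule.span ℝ {z2} := Submodule.mem_span_singleton_self z2
        rw [h0, Submodule.mem_bot] at this
        rw [← e, this, add_zero]
        exact hz1
      · exfalso
        have h5 : Module.finrank ℝ (G.U 1) ≤ 1 := by
          rw [← h0]
          refine (finrank_span_le_card {z2}).trans ?_
          simp
        have h6 := Submodule.finrank_add_finrank_orthogonal (G.V 1)
        have h7 : Module.finrank ℝ (G.V 1) = 1 := hC.dim 1 (by omega)
        have h8 : Module.finrank ℝ (E d) = d := by simp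
        rw [h7, h8] at h6
        change 1 + Module.finrank ℝ (G.U 1) = d at h6
        omega
    obtain ⟨c1, hc1⟩ := mem_V1 hC hd3 hzV
    -- all vertices are multiples of frame vectors
    have hyu : ∃ (c : ℝ) (l : Fin d), y = c • u l := by
      obtain ⟨π, s, hs⟩ := h2 d (G.orb r) u (by omega) hu g hg
      refine ⟨c1 * xc k0 * sg (s k0), π k0, ?_⟩
      rw [← hgz, hc1, hx, map_smul, map_smul, hs k0, smul_smul, smul_smul]
    have hTu : ∀ h ∈ G.H, ∀ (c : ℝ) (l : Fin d), ∃ (c' : ℝ) (l' : Fin d),
        G.T h (c • u l) = c' • u l' := by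
      intro h hh c l
      obtain ⟨π, s, hs⟩ := h2 d (G.orb r) u (by omega) hu (G.T h) (fun a ha => hΦ h hh a ha)
      exact ⟨c * sg (s l), π l, by rw [map_smul, hs l, smul_smul]⟩
    have hvert : ∀ γ : Γ, ∃ (c : ℝ) (l : Fin d), G.f (γ • G.x0) = c • u l := by
      intro γ
      by_cases hγ : γ ∈ G.H
      · rw [← G.equiv γ hγ]
        change ∃ (c : ℝ) (l : Fin d), G.T γ G.x = c • u l
        rw [hx]
        exact hTu γ hγ _ _
      · obtain ⟨c, l, e⟩ := hyu
        have hm : γ * (G.ρ j)⁻¹ ∈ G.H := G.mul_mem_of_not hγ (by rwa [G.inv_ρ])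
        have h5 : G.f (γ • G.x0) = G.T (γ * (G.ρ j)⁻¹) y := by
          rw [hy, G.equiv _ hm, smul_smul, mul_assoc, inv_mul_cancel, mul_one]
        rw [h5, e]
        exact hTu _ hm _ _
    -- the chain of fixed spaces
    have hP : ∀ i, 1 ≤ i → i + 1 ≤ d → ∃ K : Finset (Fin d), K.card = i ∧ ∀ k ∈ K, u k ∈ G.V i := by
      intro i hi
      induction i, hi using Nat.le_induction with
      | base =>
        intro _
        refine ⟨{k0}, by simp, fun k hk => ?_⟩
        rw [Finset.mem_singleton] at hk
        subst hk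
        have h5 : u k = (xc k)⁻¹ • G.x := by
          conv_rhs => rw [hx]
          rw [smul_smul, inv_mul_cancel₀ hk0, one_smul]
        rw [h5]
        exact Submodule.smul_mem _ _ G.x_mem_V1
      | succ i hi ih =>
        intro hid
        obtain ⟨K, hK, hKV⟩ := ih (by omega)
        obtain ⟨m, hm, hmV⟩ : ∃ m ∈ G.dn i, G.f (m • G.x0) ∉ G.V i := by
          by_contra hcon
          push Not at hcon
          obtain ⟨h, hh, hh'⟩ := hC.step i (by omega)
          apply hh'
          refine G.fix i h fun m hm => ?_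
          apply G.inj
          rw [← G.equiv h hh.1]
          exact hcon m hm h hh
        obtain ⟨c, l, e⟩ := hvert m
        have hc : c ≠ 0 := by
          rintro rfl
          apply hmV
          rw [e, zero_smul]
          exact Submodule.zero_mem _
        have hl : u l ∉ G.V i := by
          intro h5
          apply hmV
          rw [e]
          exact Submodule.smul_mem _ _ h5
        have hl' : u l ∈ G.V (i + 1) := by
          have h5 := hC.mem_V i m hm
          rw [e] at h5
          have h6 := Submodule.smul_mem (G.V (i + 1)) c⁻¹ h5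
          rwa [smul_smul, inv_mul_cancel₀ hc, one_smul] at h6
        have hlK : l ∉ K := fun h5 => hl (hKV l h5)
        refine ⟨insert l K, by rw [Finset.card_insert_of_notMem hlK, hK], fun k hk => ?_⟩
        rcases Finset.mem_insert.1 hk with rfl | hk
        · exact hl'
        · exact G.V_mono (by omega) (hKV k hk)
    obtain ⟨K, hK, hKV⟩ := hP (d - 1) (by omega) (by omega)
    have hdis : ∀ k ∈ K, ⟪u k, r⟫ = (0 : ℝ) := fun k hk => by
      rw [real_inner_comm]
      exact L.perp _ (hKV k hk)
    have hi0 : i0 ∉ K := by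
      intro h5
      have h6 := hdis i0 h5
      rw [hri i0, if_pos rfl, if_neg hij0] at h6
      have h7 := (mul_eq_zero.1 h6).resolve_left hsq
      apply sg_ne s0
      linarith
    have hj0 : j0 ∉ K := by
      intro h5
      have h6 := hdis j0 h5
      rw [hri j0, if_pos rfl, if_neg (Ne.symm hij0)] at h6
      have h7 := (mul_eq_zero.1 h6).resolve_left hsq
      apply sg_ne t0
      linarith
    have hcard : (insert i0 (insert j0 K)).card = d - 1 + 2 := by
      rw [Finset.card_insert_of_notMem, Finset.card_insert_of_notMem hj0, hK]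
      rw [Finset.mem_insert, not_or]
      exact ⟨hij0, hi0⟩
    have hle := Finset.card_le_univ (insert i0 (insert j0 K))
    rw [hcard, Fintype.card_fin] at hle
    omega

end

end FO2
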