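import Pool.Agent.FO2.Stmts

/-!
# The automorphism group of a regular polytope and its distinguished generators
-/

namespace FO2

open Lib_helper64.FO
open scoped RealInnerProductSpace

noncomputable section

namespace POL

variable {P : Type} [PartialOrder P]

theorem mem_smul {γ : P ≃o P} {C : Flag P} {x : P} : x ∈ γ • C ↔ ∃ y ∈ C, γ y = x := by
  rw [← SetLike.mem_coe, Flag.coe_smul, Set.mem_smul_set]
  rfl

theorem apply_mem {γ : P ≃o P} {C : Flag P} {x : P} (hx : x ∈ C) : γ x ∈ γ • C :=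
  mem_smul.2 ⟨x, hx, rfl⟩

/-- The facts on flags. -/
structure Fct (d : ℕ) (rk : P → ℤ) : Prop where
  reg : IsRegularPolytope d rk
  uni : ∀ (C : Flag P) (x y : P), x ∈ C → y ∈ C → rk x = rk y → x = y
  rng : ∀ x : P, -1 ≤ rk x ∧ rk x ≤ d
  rank : ∀ (γ : P ≃o P) (x : P), rk (γ x) = rk x
  ext : ∀ (s : Set P), IsChain (· ≤ ·) s → ∃ C : Flag P, s ⊆ C
  adj : ∀ (C : Flag P) (i : ℕ), i < d → ∃ D : Flag P, D ≠ C ∧ (∀ x ∈ C, rk x ≠ (i : ℤ) → x ∈ D) ∧
      ∀ D' : Flag P, D' ≠ C → (∀ x ∈ C, rk x ≠ (i : ℤ) → x ∈ D') → D' = D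
  conn : ∀ (I : Set ℕ) (C D : Flag P), (∀ x ∈ C, ∀ i : ℕ, rk x = (i : ℤ) → i ∉ I → x ∈ D) →
      Relation.ReflTransGen (fun A B : Flag P => ∃ i ∈ I, i < d ∧ A ≠ B ∧
        ∀ x ∈ A, rk x ≠ (i : ℤ) → x ∈ B) C D

/-- adjacent flags -/
def Adj (rk : P → ℤ) (i : ℕ) (A B : Flag P) : Prop := A ≠ B ∧ ∀ x ∈ A, rk x ≠ (i : ℤ) → x ∈ B

variable {d : ℕ} {rk : P → ℤ}

theorem Adj.uniq (F : Fct d rk) {i : ℕ} (hi : i < d) {C D D' : Flag P} (h : Adj rk i C D)
    (h' : Adj rk i C D') : D = D' := by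
  obtain ⟨E, -, -, hE⟩ := F.adj C i hi
  rw [hE D h.1.symm h.2, hE D' h'.1.symm h'.2]

theorem Adj.symm (F : Fct d rk) {i : ℕ} {A B : Flag P} (h : Adj rk i A B) : Adj rk i B A := by
  refine ⟨h.1.symm, ?_⟩
  intro y hy hyi
  obtain ⟨x, hx, hxy⟩ := F.reg.flags A (rk y) (F.rng y).1 (F.rng y).2
  have hxB : x ∈ B := h.2 x hx (by rw [hxy]; exact hyi)
  rw [← F.uni B x y hxB hy hxy]
  exact hx

theorem Adj.smul (F : Fct d rk) (γ : P ≃o P) {i : ℕ} {A B : Flag P} (h : Adj rk i A B) :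
    Adj rk i (γ • A) (γ • B) := by
  refine ⟨?_, ?_⟩
  · intro e
    exact h.1 (MulAction.injective γ e)
  · intro x hx hxi
    obtain ⟨y, hy, rfl⟩ := mem_smul.1 hx
    rw [F.rank] at hxi
    exact apply_mem (h.2 y hy hxi)

theorem lt_of_rk (F : Fct d rk) {C : Flag P} {x y : P} (hx : x ∈ C) (hy : y ∈ C)
    (h : rk x < rk y) : x < y := by
  rcases C.le_or_le hx hy with h1 | h1
  · rcases h1.lt_or_eq with h2 | h2
    · exact h2
    · rw [h2] at h; exact absurd h (lt_irrefl _)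
  · rcases h1.lt_or_eq with h2 | h2
    · have := F.reg.strict y x h2
      omega
    · rw [h2] at h; exact absurd h (lt_irrefl _)

theorem fix_of_smul (F : Fct d rk) {γ : P ≃o P} {C : Flag P} (h : γ • C = C) {x : P}
    (hx : x ∈ C) : γ x = x := by
  apply F.uni C _ _ _ hx (F.rank γ x)
  rw [← h]
  exact apply_mem hx

theorem smul_of_fix {γ : P ≃o P} {C : Flag P} (h : ∀ x ∈ C, γ x = x) : γ • C = C := by
  apply SetLike.coe_injective
  ext x
  rw [SetLike.mem_coe, SetLike.mem_coe, mem_smul]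
  constructor
  · rintro ⟨y, hy, rfl⟩
    rw [h y hy]
    exact hy
  · intro hx
    exact ⟨x, hx, h x hx⟩

theorem free (F : Fct d rk) {C : Flag P} (γ : P ≃o P) (h : γ • C = C) : γ = 1 := by
  have hall : ∀ D : Flag P, γ • D = D := by
    intro D
    have hp := F.conn Set.univ C D (fun _ _ i _ hi => absurd (Set.mem_univ i) hi)
    induction hp with
    | refl => exact h
    | tail _ hs ih =>
      obtain ⟨i, -, hi, hne, hx⟩ := hs
      have a1 := Adj.smul F γ (i := i) ⟨hne, hx⟩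
      rw [ih] at a1
      exact a1.uniq F hi ⟨hne, hx⟩
  ext x
  obtain ⟨D, hD⟩ := F.ext {x} (by
    intro a ha b hb hab
    rw [Set.mem_singleton_iff] at ha hb
    exact absurd (ha.trans hb.symm) hab)
  exact fix_of_smul F (hall D) (hD (Set.mem_singleton x))

theorem eq_of_agree (F : Fct d rk) {C : Flag P} {g h : P ≃o P} (e : ∀ x ∈ C, g x = h x) :
    g = h := by
  have h1 : h⁻¹ * g = 1 := by
    apply free F (C := C)
    apply smul_of_fix
    intro x hx
    change h.symm (g x) = x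
    rw [e x hx, OrderIso.symm_apply_apply]
  exact (inv_mul_eq_one.1 h1).symm

section Gens

variable {C : Flag P} {ρ : ℕ → (P ≃o P)}

theorem moves (F : Fct d rk) (hρ : ∀ i, i < d → Adj rk i C (ρ i • C))
    (h1 : ∀ i, d ≤ i → ρ i = 1) (i : ℕ) (x : P) (hx : x ∈ C) (hi : rk x ≠ (i : ℤ)) :
    ρ i x = x := by
  rcases lt_or_ge i d with h | h
  · exact F.uni (ρ i • C) _ _ (apply_mem hx) ((hρ i h).2 x hx hi) (F.rank _ _)
  · rw [h1 i h]; rfl

theorem ne_fix (F : Fct d rk) (hρ : ∀ i, i < d → Adj rk i C (ρ i • C))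
    (h1 : ∀ i, d ≤ i → ρ i = 1) {i : ℕ} (hi : i < d) {x : P} (hx : x ∈ C)
    (hr : rk x = (i : ℤ)) : ρ i x ≠ x := by
  intro e
  apply (hρ i hi).1
  symm
  apply smul_of_fix
  intro y hy
  by_cases h : rk y = (i : ℤ)
  · rw [F.uni C y x hy hx (h.trans hr.symm), e]
  · exact moves F hρ h1 i y hy h

theorem sq (F : Fct d rk) (hρ : ∀ i, i < d → Adj rk i C (ρ i • C))
    (h1 : ∀ i, d ≤ i → ρ i = 1) (i : ℕ) : ρ i * ρ i = 1 := by
  rcases lt_or_ge i d with h | h
  · apply free F (C := C)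
    have a1 := Adj.smul F (ρ i) (hρ i h)
    have a2 := Adj.symm F (hρ i h)
    rw [mul_smul]
    exact a1.uniq F h a2
  · rw [h1 i h, one_mul]

theorem key (F : Fct d rk) (hρ : ∀ i, i < d → Adj rk i C (ρ i • C))
    (h1 : ∀ i, d ≤ i → ρ i = 1) {i j : ℕ} (hi : i < d) (hij : i + 2 ≤ j ∨ j + 2 ≤ i) {x : P}
    (hx : x ∈ C) (hr : rk x = (i : ℤ)) : ρ j (ρ i x) = ρ i x := by
  set y := ρ j (ρ i x) with hy
  have hry : rk y = (i : ℤ) := by rw [hy, F.rank, F.rank, hr]
  -- faces of `C` of rank different from `i`, `j`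
  have low : ∀ z ∈ C, rk z < i → rk z ≠ (j : ℤ) → z ≤ y := by
    intro z hz hzi hzj
    have e : ρ j (ρ i z) = z := by
      rw [moves F hρ h1 i z hz (by omega), moves F hρ h1 j z hz hzj]
    rw [← e, hy, (ρ j).le_iff_le, (ρ i).le_iff_le]
    exact (lt_of_rk F hz hx (by omega)).le
  have upp : ∀ z ∈ C, (i : ℤ) < rk z → rk z ≠ (j : ℤ) → y ≤ z := by
    intro z hz hzi hzj
    have e : ρ j (ρ i z) = z := by
      rw [moves F hρ h1 i z hz (by omega), moves F hρ h1 j z hz hzj]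
    rw [← e, hy, (ρ j).le_iff_le, (ρ i).le_iff_le]
    exact (lt_of_rk F hx hz (by omega)).le
  have cmp : ∀ z ∈ C, rk z ≠ (i : ℤ) → y ≤ z ∨ z ≤ y := by
    intro z hz hzi
    have hz1 := F.rng z
    rcases lt_or_gt_of_ne hzi with h | h
    · right
      by_cases hzj : rk z = (j : ℤ)
      · obtain ⟨w, hw, hwr⟩ := F.reg.flags C ((i : ℤ) - 1) (by omega) (by omega)
        exact (lt_of_rk F hz hw (by omega)).le.trans (low w hw (by omega) (by omega))
      · exact low z hz h hzj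
    · left
      by_cases hzj : rk z = (j : ℤ)
      · obtain ⟨w, hw, hwr⟩ := F.reg.flags C ((i : ℤ) + 1) (by omega) (by omega)
        exact (upp w hw (by omega) (by omega)).trans (lt_of_rk F hw hz (by omega)).le
      · exact upp z hz h hzj
  obtain ⟨D, hD⟩ := F.ext (insert y {z | z ∈ C ∧ rk z ≠ (i : ℤ)}) (by
    apply IsChain.insert
    · intro a ha b hb hab
      exact C.le_or_le ha.1 hb.1
    · intro b hb _
      exact cmp b hb.1 hb.2)
  have hyD : y ∈ D := hD (Set.mem_insert _ _)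
  by_cases hDC : D = C
  · exfalso
    rw [hDC] at hyD
    have e : y = x := F.uni C y x hyD hx (hry.trans hr.symm)
    have e2 : ρ j x = x := moves F hρ h1 j x hx (by omega)
    rw [hy] at e
    have e3 : ρ j (ρ i x) = ρ j x := by rw [e, e2]
    exact ne_fix F hρ h1 hi hx hr ((ρ j).injective e3)
  · have a1 : Adj rk i C D := ⟨fun e => hDC e.symm, fun z hz hzi => hD (Set.mem_insert_of_mem _ ⟨hz, hzi⟩)⟩
    have e := a1.uniq F hi (hρ i hi)
    rw [e] at hyD
    exact F.uni (ρ i • C) _ _ hyD (apply_mem hx) (by rw [hry, F.rank, hr])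

theorem comm (F : Fct d rk) (hρ : ∀ i, i < d → Adj rk i C (ρ i • C))
    (h1 : ∀ i, d ≤ i → ρ i = 1) (i j : ℕ) (hij : i + 2 ≤ j) : ρ i * ρ j = ρ j * ρ i := by
  rcases lt_or_ge j d with hj | hj
  · have hi : i < d := by omega
    apply eq_of_agree F (C := C)
    intro x hx
    change ρ i (ρ j x) = ρ j (ρ i x)
    by_cases hxi : rk x = (i : ℤ)
    · rw [moves F hρ h1 j x hx (by omega), key F hρ h1 hi (Or.inl hij) hx hxi]
    · by_cases hxj : rk x = (j : ℤ)
      · rw [moves F hρ h1 i x hx hxi, key F hρ h1 hj (Or.inr hij) hx hxj]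
      · rw [moves F hρ h1 i x hx hxi, moves F hρ h1 j x hx hxj, moves F hρ h1 i x hx hxi]
  · rw [h1 j hj, mul_one, one_mul]

theorem stab (F : Fct d rk) (hρ : ∀ i, i < d → Adj rk i C (ρ i • C)) (I : Set ℕ) (γ : P ≃o P)
    (h : ∀ x ∈ C, ∀ i : ℕ, rk x = (i : ℤ) → i ∉ I → γ x = x) : γ ∈ gpar ρ I := by
  have hp := F.conn I C (γ • C) (fun x hx i hxi hi => by
    have e := h x hx i hxi hi
    have := apply_mem (γ := γ) hx
    rw [e] at this
    exact this)
  have hall : ∀ D : Flag P, Relation.ReflTransGen (fun A B : Flag P => ∃ i ∈ I, i < d ∧ A ≠ B ∧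
        ∀ x ∈ A, rk x ≠ (i : ℤ) → x ∈ B) C D → ∃ g ∈ gpar ρ I, g • C = D := by
    intro D hD
    induction hD with
    | refl => exact ⟨1, one_mem _, one_smul _ _⟩
    | tail _ hs ih =>
      obtain ⟨i, hiI, hi, hne, hx⟩ := hs
      obtain ⟨g, hg, rfl⟩ := ih
      refine ⟨g * ρ i, mul_mem hg (Subgroup.subset_closure ⟨i, hiI, rfl⟩), ?_⟩
      have a1 := Adj.smul F g (hρ i hi)
      rw [mul_smul]
      exact a1.uniq F hi ⟨hne, hx⟩
  obtain ⟨g, hg, e⟩ := hall _ hp
  have h2 : γ⁻¹ * g = 1 := by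
    apply free F (C := C)
    rw [mul_smul, e, inv_smul_smul]
  rw [inv_mul_eq_one.1 h2]
  exact hg

theorem gpar_fix (F : Fct d rk) (hρ : ∀ i, i < d → Adj rk i C (ρ i • C))
    (h1 : ∀ i, d ≤ i → ρ i = 1) {I : Set ℕ} {γ : P ≃o P} (hγ : γ ∈ gpar ρ I) {x : P}
    (hx : x ∈ C) {i : ℕ} (hr : rk x = (i : ℤ)) (hi : i ∉ I) : γ x = x := by
  have hle : gpar ρ I ≤ MulAction.stabilizer (P ≃o P) x := by
    rw [gpar, Subgroup.closure_le]
    rintro _ ⟨k, hk, rfl⟩
    rw [SetLike.mem_coe, MulAction.mem_stabilizer_iff]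
    change ρ k x = x
    apply moves F hρ h1 k x hx
    intro e
    apply hi
    have : k = i := by
      rw [hr] at e
      exact_mod_cast e.symm
    rw [← this]
    exact hk
  exact MulAction.mem_stabilizer_iff.1 (hle hγ)

end Gens

end POL

/-- **the automorphism group of a regular polytope and its generators** -/
theorem poly (h1 : StmtFlag) (h2 : StmtConn) : StmtPoly := by
  intro d P _ _ rk hreg C
  obtain ⟨f1, f2, f3, f4, f5⟩ := h1 d P rk hreg
  have F : POL.Fct d rk := ⟨hreg, f1, f2, f3, f4, f5, h2 d P rk hreg⟩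
  have hex : ∀ i, i < d → ∃ γ : P ≃o P, POL.Adj rk i C (γ • C) := by
    intro i hi
    obtain ⟨D, hD, hx, -⟩ := F.adj C i hi
    obtain ⟨γ, hγ⟩ := hreg.regular C D
    rw [← hγ] at hD hx
    exact ⟨γ, hD.symm, hx⟩
  choose ρ' hρ' using hex
  set ρ : ℕ → (P ≃o P) := fun i => if h : i < d then ρ' i h else 1 with hρdef
  have hρ : ∀ i, i < d → POL.Adj rk i C (ρ i • C) := by
    intro i hi
    have : ρ i = ρ' i hi := by simp only [hρdef, dif_pos hi]
    rw [this]
    exact hρ' i hi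
  have hge : ∀ i, d ≤ i → ρ i = 1 := by
    intro i hi
    simp only [hρdef, dif_neg (not_lt.2 hi)]
  refine ⟨ρ, f3, fun γ hγ => POL.free F γ hγ, hge, ?_, POL.sq F hρ hge, POL.comm F hρ hge, ?_, ?_,
    POL.moves F hρ hge, POL.stab F hρ⟩
  · intro i hi e
    apply (hρ i hi).1
    rw [e, one_smul]
  · rw [eq_top_iff]
    intro γ _
    exact POL.stab F hρ _ γ (fun x _ i _ hi => absurd (Set.mem_univ i) hi)
  · intro I J
    apply le_antisymm
    · rintro γ ⟨hI, hJ⟩
      apply POL.stab F hρ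
      intro x hx i hr hi
      rw [Set.mem_inter_iff, not_and_or] at hi
      rcases hi with hi | hi
      · exact POL.gpar_fix F hρ hge hI hx hr hi
      · exact POL.gpar_fix F hρ hge hJ hx hr hi
    · apply le_inf
      · exact Subgroup.closure_mono (Set.image_mono Set.inter_subset_left)
      · exact Subgroup.closure_mono (Set.image_mono Set.inter_subset_right)

end

end FO2
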