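import Pool.Agent.FO2.Stmts

/-!
# The generator `ρ 0` in `H` is a hyperplane reflection, up to sign
-/

namespace FO2

open Lib_helper64.FO
open scoped RealInnerProductSpace

namespace R0

/-- a vector of a plane orthogonal to `q` is a multiple of `p`, where `p, q` are orthogonal -/
theorem plane {d : ℕ} {V : Submodule ℝ (E d)} (hV : Module.finrank ℝ V = 2) {p q v : E d}
    (hp : p ∈ V) (hq : q ∈ V) (hv : v ∈ V) (hp0 : p ≠ 0) (hq0 : q ≠ 0) (hpq : ⟪p, q⟫ = (0 : ℝ))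
    (hqv : ⟪q, v⟫ = (0 : ℝ)) : ∃ c : ℝ, v = c • p := by
  refine ⟨⟪p, v⟫ / ⟪p, p⟫, ?_⟩
  by_contra hne
  set r : E d := v - (⟪p, v⟫ / ⟪p, p⟫ : ℝ) • p with hr
  have hpp : ⟪p, p⟫ ≠ (0 : ℝ) := by
    intro h
    exact hp0 (inner_self_eq_zero.1 h)
  have hr0 : r ≠ 0 := by
    intro h
    exact hne (sub_eq_zero.1 h)
  have hrV : r ∈ V := V.sub_mem hv (V.smul_mem _ hp)
  have hpr : ⟪p, r⟫ = (0 : ℝ) := by
    rw [hr, inner_sub_right, inner_smul_right]
    field_simp
    ring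
  have hqr : ⟪q, r⟫ = (0 : ℝ) := by
    rw [hr, inner_sub_right, inner_smul_right, hqv, (real_inner_comm p q).trans hpq]
    ring
  have hli : LinearIndependent ℝ ![p, q, r] := by
    apply linearIndependent_of_ne_zero_of_inner_eq_zero
    · intro i
      fin_cases i
      · exact hp0
      · exact hq0
      · exact hr0
    · intro i j hij
      fin_cases i <;> fin_cases j <;>
        first
          | exact absurd rfl hij
          | exact hpq
          | exact hpr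
          | exact hqr
          | exact (real_inner_comm _ _).trans hpq
          | exact (real_inner_comm _ _).trans hpr
          | exact (real_inner_comm _ _).trans hqr
  have h3 : Module.finrank ℝ (Submodule.span ℝ (Set.range ![p, q, r])) = 3 := by
    rw [finrank_span_eq_card hli]
    simp
  have h4 : Submodule.span ℝ (Set.range ![p, q, r]) ≤ V := by
    rw [Submodule.span_le]
    rintro _ ⟨i, rfl⟩
    fin_cases i
    · exact hp
    · exact hq
    · exact hrV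
  have h5 := Submodule.finrank_mono h4
  omega

/-- An isometry with square `1` which preserves a plane `V`, is `ε` on the complement and does not
map the vector `x` of `V` to `± x`. -/
theorem main {d : ℕ} (A : E d ≃ₗᵢ[ℝ] E d) (hA : ∀ v, A (A v) = v) {V : Submodule ℝ (E d)}
    (hV : Module.finrank ℝ V = 2) (hAV : ∀ v ∈ V, A v ∈ V) {ε : ℝ} (hε : ε * ε = 1)
    (hU : ∀ v ∈ Vᗮ, A v = ε • v) {x : E d} (hx : x ∈ V) (h1 : A x ≠ ε • x)
    (h2 : A x ≠ -(ε • x)) : ∃ a : E d, ‖a‖ = 1 ∧ a ∈ V ∧ ⟪a, x⟫ ≠ (0 : ℝ) ∧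
      (∀ c : ℝ, x ≠ c • a) ∧ ∀ v, A v = ε • sref a v := by
  set p : E d := x + ε • A x with hp
  set q : E d := x - ε • A x with hq
  have hεε : ∀ v : E d, ε • ε • v = v := fun v => by rw [smul_smul, hε, one_smul]
  have hpV : p ∈ V := V.add_mem hx (V.smul_mem _ (hAV x hx))
  have hqV : q ∈ V := V.sub_mem hx (V.smul_mem _ (hAV x hx))
  have hAp : A p = ε • p := by
    rw [hp, map_add, map_smul, hA, smul_add, hεε, add_comm]
  have hAq : A q = -(ε • q) := by
    rw [hq, map_sub, map_smul, hA, smul_sub, hεε, neg_sub]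
  have hp0 : p ≠ 0 := by
    intro h
    apply h2
    have h3 : x = -(ε • A x) := eq_neg_of_add_eq_zero_left h
    calc A x = ε • ε • A x := (hεε _).symm
      _ = -(ε • -(ε • A x)) := by rw [smul_neg, neg_neg]
      _ = -(ε • x) := by rw [← h3]
  have hq0 : q ≠ 0 := by
    intro h
    apply h1
    have h3 : x = ε • A x := sub_eq_zero.1 h
    calc A x = ε • ε • A x := (hεε _).symm
      _ = ε • x := by rw [← h3]
  have hpq : ⟪p, q⟫ = (0 : ℝ) := by
    have h3 : ⟪A p, A q⟫ = ⟪p, q⟫ := A.inner_map_map p q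
    rw [hAp, hAq, inner_neg_right, inner_smul_left, inner_smul_right] at h3
    have h4 : (starRingEnd ℝ) ε * (ε * ⟪p, q⟫) = ⟪p, q⟫ := by
      rw [show (starRingEnd ℝ) ε = ε from rfl, ← mul_assoc, hε, one_mul]
    rw [h4] at h3
    linarith
  have hqq : 0 < ‖q‖ := norm_pos_iff.2 hq0
  have hx2 : (2 : ℝ) • x = p + q := by
    rw [hp, hq]
    module
  have hqx : 2 * ⟪q, x⟫ = ‖q‖ ^ 2 := by
    rw [← inner_smul_right, hx2, inner_add_right, real_inner_comm, hpq, zero_add,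
      real_inner_self_eq_norm_sq]
  have hpx : 2 * ⟪p, x⟫ = ‖p‖ ^ 2 := by
    rw [← inner_smul_right, hx2, inner_add_right, hpq, add_zero, real_inner_self_eq_norm_sq]
  refine ⟨‖q‖⁻¹ • q, ?_, V.smul_mem _ hqV, ?_, ?_, ?_⟩
  · rw [norm_smul, norm_inv, norm_norm, inv_mul_cancel₀ hqq.ne']
  · rw [inner_smul_left, show (starRingEnd ℝ) ‖q‖⁻¹ = ‖q‖⁻¹ from rfl]
    apply mul_ne_zero (inv_ne_zero hqq.ne')
    intro h
    rw [h, mul_zero] at hqx
    exact absurd hqx.symm (pow_ne_zero 2 hqq.ne')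
  · intro c hc
    have h3 : ⟪p, x⟫ = (0 : ℝ) := by
      rw [hc, inner_smul_right, inner_smul_right, hpq, mul_zero, mul_zero]
    rw [h3, mul_zero] at hpx
    exact absurd hpx.symm (pow_ne_zero 2 (norm_pos_iff.2 hp0).ne')
  -- orthogonal to `q`
  · have key : ∀ v : E d, ⟪q, v⟫ = (0 : ℝ) → A v = ε • v := by
      intro v hv
      obtain ⟨w, hw, u, hu, rfl⟩ := V.exists_add_mem_mem_orthogonal v
      have h3 : ⟪q, u⟫ = (0 : ℝ) := (V.mem_orthogonal u).1 hu q hqV
      rw [inner_add_right, h3, add_zero] at hv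
      obtain ⟨c, rfl⟩ := plane hV hpV hqV hw hp0 hq0 hpq hv
      rw [map_add, map_smul, hAp, hU u hu, smul_add ε (c • p) u, smul_comm c ε p]
    intro v
    have hn : ⟪‖q‖⁻¹ • q, v⟫ = ‖q‖⁻¹ * ⟪q, v⟫ := by
      rw [inner_smul_left]
      rfl
    set β : ℝ := ⟪q, v⟫ / ‖q‖ ^ 2 with hβ
    have hs : sref (‖q‖⁻¹ • q) v = v - (2 * β) • q := by
      rw [sref, hn, smul_smul, hβ]
      congr 2
      field_simp
    have hperp : ⟪q, v - β • q⟫ = (0 : ℝ) := by
      rw [inner_sub_right, inner_smul_right, real_inner_self_eq_norm_sq, hβ]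
      field_simp
      ring
    have h3 := key _ hperp
    rw [map_sub, map_smul, hAq] at h3
    rw [hs]
    have h4 : A v = ε • (v - β • q) - β • ε • q := by
      rw [← h3]
      module
    rw [h4]
    module

end R0

theorem rho0 : StmtRho0 := by
  intro d Γ _ _ X _ G hd hG hρ
  have hcomm : ∀ h ∈ G.Hi 2, G.ρ 0 * h = h * G.ρ 0 := fun h hh => G.comm_up (by norm_num) hh.2
  have hV : ∀ v ∈ G.V 2, G.T (G.ρ 0) v ∈ G.V 2 := by
    intro v hv
    refine G.T_mem_V hρ (fun m hm => ?_) hv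
    have e : (G.ρ 0)⁻¹ * m * G.ρ 0 = m := by
      rw [mul_assoc, ← hcomm m hm, inv_mul_cancel_left]
    rw [e]
    exact hm
  have hU : ∀ v ∈ G.U 2, G.T (G.ρ 0) v ∈ G.U 2 := fun v hv => G.map_mem_U _ hV hv
  have hT : ∀ h ∈ G.Hi 2, ∀ v ∈ G.U 2, G.T (G.ρ 0) (G.T h v) = G.T h (G.T (G.ρ 0) v) := by
    intro h hh v _
    rw [← G.T_mul_apply hρ hh.1, ← G.T_mul_apply hh.1 hρ, hcomm h hh]
  have hsq : ∀ v, G.T (G.ρ 0) (G.T (G.ρ 0) v) = v := by
    intro v
    rw [← G.T_mul_apply hρ hρ, G.sq, G.T_one]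
    rfl
  have hfx : G.T (G.ρ 0) G.x = G.f (G.ρ 0 • G.x0) := G.equiv _ hρ _
  have hx1 : G.x ∈ G.V 1 := G.x_mem_V1
  have hx2 : G.x ∈ G.V 2 := G.V_mono (by norm_num) hx1
  have hn := hG.chain.ρ0x
  have hdim := hG.chain.dim 2 (by omega)
  have hp : G.T (G.ρ 0) G.x ≠ G.x := by
    intro h
    apply hn
    rw [← hfx, h]
    exact hx1
  have hm : G.T (G.ρ 0) G.x ≠ -G.x := by
    intro h
    apply hn
    rw [← hfx, h]
    exact (G.V 1).neg_mem hx1
  rcases hG.scal 2 (by omega) (G.T (G.ρ 0)) hU hT with h | h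
  · obtain ⟨a, h1, h2, h3, h4, h5⟩ := R0.main (G.T (G.ρ 0)) hsq hdim hV (ε := 1) (by norm_num)
      (fun v hv => by rw [one_smul]; exact h v hv) hx2 (by rw [one_smul]; exact hp)
      (by rw [one_smul]; exact hm)
    exact ⟨1, a, Or.inl rfl, h1, h2, h3, h4, h5⟩
  · obtain ⟨a, h1, h2, h3, h4, h5⟩ := R0.main (G.T (G.ρ 0)) hsq hdim hV (ε := -1) (by norm_num)
      (fun v hv => by rw [neg_one_smul]; exact h v hv) hx2 (by rw [neg_one_smul]; exact hm)
      (by rw [neg_one_smul, neg_neg]; exact hp)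
    exact ⟨-1, a, Or.inr rfl, h1, h2, h3, h4, h5⟩

end FO2
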