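import Pool.Agent.FO2.Stmts

/-!
# R3A: an irreducible simply laced root set without `D_4` is of type `A_d`
-/

namespace FO2

open Lib_helper64.FO
open scoped RealInnerProductSpace

noncomputable section

namespace R3A

variable {d : ℕ} {Φ : Set (E d)} {k : ℕ} {b : Fin k → E d}

/-- a clique: roots with mutual inner products `1/2` -/
def Clq (Φ : Set (E d)) (k : ℕ) (b : Fin k → E d) : Prop :=
  (∀ i, b i ∈ Φ) ∧ ∀ i j, i ≠ j → ⟪b i, b j⟫ = (1 / 2 : ℝ)

theorem Clq.inner (h : IsRS Φ) (hb : Clq Φ k b) (i j : Fin k) :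
    ⟪b i, b j⟫ = (if i = j then 1 else 1 / 2 : ℝ) := by
  split_ifs with e
  · rw [e]; exact h.inner_self (hb.1 j)
  · exact hb.2 i j e

theorem Clq.lin (h : IsRS Φ) (hb : Clq Φ k b) : LinearIndependent ℝ b := by
  rw [Fintype.linearIndependent_iff]
  intro g hg
  have h1 : ∀ j, g j = -∑ i, g i := by
    intro j
    have h2 : ⟪b j, ∑ i, g i • b i⟫ = (0 : ℝ) := by rw [hg, inner_zero_right]
    rw [inner_sum] at h2
    have h3 : ∀ i ∈ Finset.univ, ⟪b j, g i • b i⟫ = (1 / 2 : ℝ) * g i + (if j = i then 1 / 2 * g i else 0) := by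
      intro i _
      rw [inner_smul_right, hb.inner h]
      split_ifs <;> ring
    rw [Finset.sum_congr rfl h3, Finset.sum_add_distrib, ← Finset.mul_sum, Finset.sum_ite_eq] at h2
    simp only [Finset.mem_univ, if_true] at h2
    linarith
  have h4 : ∑ i, g i = 0 := by
    have h5 : ∑ i, g i = ∑ _i : Fin k, (-∑ i, g i) := Finset.sum_congr rfl (fun j _ => h1 j)
    rw [Finset.sum_const, Finset.card_univ, Fintype.card_fin, nsmul_eq_mul] at h5
    have h6 : ((k : ℝ) + 1) * ∑ i, g i = 0 := by linarith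
    rcases mul_eq_zero.1 h6 with h7 | h7
    · have : (0 : ℝ) ≤ k := Nat.cast_nonneg k
      linarith
    · exact h7
  intro i
  rw [h1 i, h4, neg_zero]

theorem Clq.cons (hb : Clq Φ k b) {c : E d} (hc : c ∈ Φ) (h : ∀ i, ⟪c, b i⟫ = (1 / 2 : ℝ)) :
    Clq Φ (k + 1) (Fin.cons c b : Fin (k + 1) → E d) := by
  constructor
  · intro i
    refine Fin.cases ?_ (fun i => ?_) i
    · simpa using hc
    · simpa using hb.1 i
  · intro i j
    refine Fin.cases ?_ (fun i => ?_) i
    · refine Fin.cases (fun h0 => absurd rfl h0) (fun j _ => ?_) j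
      simpa using h j
    · refine Fin.cases (fun _ => ?_) (fun j hij => ?_) j
      · simp only [Fin.cons_succ, Fin.cons_zero]
        rw [real_inner_comm]
        exact h i
      · simp only [Fin.cons_succ]
        exact hb.2 i j (fun e => hij (by rw [e]))

/-- a maximal clique -/
theorem exists_max (h : IsRS Φ) : ∃ (k : ℕ) (b : Fin k → E d), 0 < k ∧ Clq Φ k b ∧
    ∀ c ∈ Φ, ¬ ∀ i, ⟪c, b i⟫ = (1 / 2 : ℝ) := by
  set s : Set ℕ := {k | ∃ b : Fin k → E d, Clq Φ k b} with hs
  have hbdd : BddAbove s := by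
    refine ⟨d, ?_⟩
    rintro k ⟨b, hb⟩
    have := (hb.lin h).fintype_card_le_finrank
    simpa using this
  have h1 : 1 ∈ s := by
    obtain ⟨a, ha⟩ := h.ne
    exact ⟨fun _ => a, fun _ => ha, fun i j hij => absurd (Subsingleton.elim i j) hij⟩
  obtain ⟨b, hb⟩ : sSup s ∈ s := Nat.sSup_mem ⟨1, h1⟩ hbdd
  refine ⟨sSup s, b, ?_, hb, ?_⟩
  · have := le_csSup hbdd h1
    omega
  · intro c hc hci
    have := le_csSup hbdd (show sSup s + 1 ∈ s from ⟨_, hb.cons hc hci⟩)
    omega

theorem Clq.sub_mem (h : IsRS Φ) (hb : Clq Φ k b) {i j : Fin k} (hij : i ≠ j) : b i - b j ∈ Φ := by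
  have h1 := h.refl _ (hb.1 j) _ (hb.1 i)
  have h2 : sref (b j) (b i) = b i - b j := by
    rw [sref, hb.2 j i (Ne.symm hij)]
    norm_num
  rwa [h2] at h1

/-- the positive case of the dichotomy -/
theorem dich_pos (h : IsRS Φ) (hD : ¬ HasD4 Φ) (hb : Clq Φ k b)
    (hmax : ∀ c ∈ Φ, ¬ ∀ i, ⟪c, b i⟫ = (1 / 2 : ℝ)) {c : E d} (hc : c ∈ Φ)
    (hp : ∀ i, ⟪c, b i⟫ = (0 : ℝ) ∨ ⟪c, b i⟫ = (1 / 2 : ℝ)) : ∀ i, ⟪c, b i⟫ = (0 : ℝ) := by
  by_contra hcon
  push Not at hcon
  obtain ⟨i, hi⟩ := hcon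
  have hi' := (hp i).resolve_left hi
  have hmx := hmax c hc
  push Not at hmx
  obtain ⟨j, hj⟩ := hmx
  have hj' := (hp j).resolve_right hj
  have hij : i ≠ j := by
    rintro rfl
    exact hi hj'
  by_cases hex : ∃ i', i' ≠ i ∧ ⟪c, b i'⟫ = (1 / 2 : ℝ)
  · obtain ⟨i', hi1, hi2⟩ := hex
    have hi'j : i' ≠ j := by
      rintro rfl
      exact hj hi2
    apply hD
    refine ⟨b i, hb.1 i, c, hc, b j, hb.1 j, b i - b i', hb.sub_mem h (Ne.symm hi1), hj', ?_, ?_,
      ?_, hb.2 i j hij, ?_⟩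
    · rw [inner_sub_right, hi', hi2, sub_self]
    · rw [inner_sub_right, hb.2 j i (Ne.symm hij), hb.2 j i' (Ne.symm hi'j), sub_self]
    · rw [real_inner_comm]; exact hi'
    · rw [inner_sub_right, h.inner_self (hb.1 i), hb.2 i i' (Ne.symm hi1)]
      norm_num
  · push Not at hex
    have h0 : ∀ l, l ≠ i → ⟪c, b l⟫ = (0 : ℝ) := fun l hl => (hp l).resolve_right (hex l hl)
    have hmem : b i - c ∈ Φ := by
      have h1 := h.refl _ hc _ (hb.1 i)
      have h2 : sref c (b i) = b i - c := by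
        rw [sref, hi']
        norm_num
      rwa [h2] at h1
    apply hmax _ hmem
    intro l
    rw [inner_sub_left, hb.inner h]
    by_cases hl : i = l
    · rw [if_pos hl, ← hl, hi']
      norm_num
    · rw [if_neg hl, h0 l (Ne.symm hl)]
      norm_num

/-- the dichotomy -/
theorem dich (h : IsRS Φ) (hSL : SL Φ) (hD : ¬ HasD4 Φ) (hb : Clq Φ k b)
    (hmax : ∀ c ∈ Φ, ¬ ∀ i, ⟪c, b i⟫ = (1 / 2 : ℝ)) {c : E d} (hc : c ∈ Φ) :
    (∃ i, c = b i ∨ c = -b i) ∨ (∃ i j, i ≠ j ∧ c = b i - b j) ∨ ∀ i, ⟪c, b i⟫ = (0 : ℝ) := by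
  by_cases h1 : ∃ i, c = b i ∨ c = -b i
  · exact Or.inl h1
  by_cases h2 : ∃ i j, i ≠ j ∧ c = b i - b j
  · exact Or.inr (Or.inl h2)
  right; right
  push Not at h1 h2
  have ht : ∀ i, ⟪c, b i⟫ = (0 : ℝ) ∨ ⟪c, b i⟫ = (1 / 2 : ℝ) ∨ ⟪c, b i⟫ = (-1 / 2 : ℝ) := by
    intro i
    rcases hSL c hc (b i) (hb.1 i) with h3 | h3 | h3 | h3 | h3
    · exact Or.inl h3
    · exact Or.inr (Or.inl h3)
    · exact Or.inr (Or.inr h3)
    · exact absurd h3 (h1 i).1
    · exact absurd h3 (h1 i).2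
  have hmix : ∀ i j, ⟪c, b i⟫ = (1 / 2 : ℝ) → ⟪c, b j⟫ = (-1 / 2 : ℝ) → False := by
    intro i j hi hj
    have hij : i ≠ j := by
      rintro rfl
      rw [hi] at hj
      norm_num at hj
    have h3 : ⟪c, b i - b j⟫ = (1 : ℝ) := by
      rw [inner_sub_right, hi, hj]; norm_num
    rcases hSL c hc _ (hb.sub_mem h hij) with h4 | h4 | h4 | h4 | h4
    · rw [h3] at h4; norm_num at h4
    · rw [h3] at h4; norm_num at h4
    · rw [h3] at h4; norm_num at h4
    · exact h2 i j hij h4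
    · exact h2 j i (Ne.symm hij) (by rw [h4]; abel)
  by_cases hneg : ∃ j, ⟪c, b j⟫ = (-1 / 2 : ℝ)
  · obtain ⟨j, hj⟩ := hneg
    have h5 := dich_pos h hD hb hmax (h.neg_mem hc) (by
      intro i
      rw [inner_neg_left]
      rcases ht i with h6 | h6 | h6
      · left; rw [h6, neg_zero]
      · exact (hmix i j h6 hj).elim
      · right; rw [h6]; norm_num)
    intro i
    have := h5 i
    rw [inner_neg_left] at this
    linarith
  · push Not at hneg
    exact dich_pos h hD hb hmax hc (fun i => by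
      rcases ht i with h6 | h6 | h6
      · exact Or.inl h6
      · exact Or.inr h6
      · exact absurd h6 (hneg i))

/-- the simplex of a clique of size `d` -/
theorem simplex {d : ℕ} {Φ : Set (E d)} (hd : 2 ≤ d) (h : IsRS Φ) {b : Fin d → E d}
    (hb : Clq Φ d b)
    (hall : ∀ c ∈ Φ, (∃ i, c = b i ∨ c = -b i) ∨ ∃ i j, i ≠ j ∧ c = b i - b j) :
    ∃ v, IsA Φ v := by
  have hd0 : (0 : ℝ) < d := by
    have : 0 < d := by omega
    exact_mod_cast this
  set μ : ℝ := √(2 * (d + 1) / d) with hμ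
  have hμ2 : μ * μ = 2 * (d + 1) / d := Real.mul_self_sqrt (by positivity)
  have hμ0 : 0 < μ := Real.sqrt_pos.2 (by positivity)
  set s : E d := ∑ i, b i with hs
  have hbs : ∀ i, ⟪b i, s⟫ = ((d : ℝ) + 1) / 2 := by
    intro i
    rw [hs, inner_sum]
    have e : ∀ j ∈ Finset.univ, ⟪b i, b j⟫ = (1 / 2 : ℝ) + (if i = j then 1 / 2 else 0) := by
      intro j _
      rw [hb.inner h]
      split_ifs <;> norm_num
    rw [Finset.sum_congr rfl e, Finset.sum_add_distrib, Finset.sum_ite_eq]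
    simp only [Finset.mem_univ, if_true, Finset.sum_const, Finset.card_univ, Fintype.card_fin,
      nsmul_eq_mul]
    ring
  have hss : ⟪s, s⟫ = (d : ℝ) * ((d : ℝ) + 1) / 2 := by
    conv_lhs => rw [hs]
    rw [sum_inner]
    rw [Finset.sum_congr rfl (fun i _ => hbs i)]
    simp only [Finset.sum_const, Finset.card_univ, Fintype.card_fin, nsmul_eq_mul]
    ring
  obtain ⟨v0, hv0⟩ : ∃ v0 : E d, v0 = (μ / (d + 1)) • s := ⟨_, rfl⟩
  set v : Fin (d + 1) → E d := Fin.cons v0 (fun i => v0 - μ • b i) with hv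
  have e0 : v 0 = v0 := by simp [hv]
  have e1 : ∀ i : Fin d, v i.succ = v0 - μ • b i := by intro i; simp [hv]
  have g00 : ⟪v0, v0⟫ = (1 : ℝ) := by
    rw [hv0, inner_smul_left, inner_smul_right, hss]
    simp only [conj_trivial]
    have : μ / (d + 1) * (μ / (d + 1) * ((d : ℝ) * ((d : ℝ) + 1) / 2))
        = (μ * μ) * ((d : ℝ) / (2 * (d + 1))) := by field_simp
    rw [this, hμ2]
    field_simp
  have g0b : ∀ i, ⟪v0, b i⟫ = (μ / 2 : ℝ) := by
    intro i
    rw [real_inner_comm, hv0, inner_smul_right, hbs i]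
    field_simp
  have gb0 : ∀ i, ⟪b i, v0⟫ = (μ / 2 : ℝ) := fun i => by rw [real_inner_comm]; exact g0b i
  have hμ3 : μ * (μ / 2) = (d + 1) / d := by
    have : μ * (μ / 2) = (μ * μ) / 2 := by ring
    rw [this, hμ2]; field_simp
  have gram : ∀ i j, ⟪v i, v j⟫ = if i = j then (1 : ℝ) else -1 / d := by
    intro i j
    refine Fin.cases ?_ (fun i => ?_) i
    · refine Fin.cases ?_ (fun j => ?_) j
      · rw [e0, if_pos rfl, g00]
      · rw [e0, e1, if_neg (Fin.succ_ne_zero j).symm, inner_sub_right, inner_smul_right, g00, g0b,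
          hμ3]
        field_simp
        ring
    · refine Fin.cases ?_ (fun j => ?_) j
      · rw [e0, e1, if_neg (Fin.succ_ne_zero i), inner_sub_left, inner_smul_left, g00, gb0]
        simp only [conj_trivial]
        rw [hμ3]
        field_simp
        ring
      · rw [e1, e1, inner_sub_left, inner_sub_right, inner_sub_right, inner_smul_left,
          inner_smul_left, inner_smul_right, inner_smul_right, g00, g0b, gb0, hb.inner h]
        simp only [conj_trivial]
        rw [hμ3]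
        by_cases hij : i = j
        · rw [if_pos hij, if_pos (by rw [hij]), mul_one, hμ2]
          field_simp
          ring
        · rw [if_neg hij, if_neg (fun e => hij (Fin.succ_injective _ e))]
          have : μ * (μ * (1 / 2)) = (d + 1) / d := by rw [← hμ3]; ring
          rw [this]
          field_simp
          ring
  -- differences
  have d0 : ∀ i : Fin d, v 0 - v i.succ = μ • b i := by
    intro i; rw [e0, e1]; abel
  have d1 : ∀ i j : Fin d, v i.succ - v j.succ = μ • (b j - b i) := by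
    intro i j; rw [e1, e1, smul_sub]; abel
  have hdiff : ∀ i j, i ≠ j → ∃ β ∈ Φ, v i - v j = μ • β := by
    intro i j
    refine Fin.cases ?_ (fun i => ?_) i
    · refine Fin.cases (fun h0 => absurd rfl h0) (fun j _ => ?_) j
      exact ⟨b j, hb.1 j, d0 j⟩
    · refine Fin.cases (fun _ => ?_) (fun j hij => ?_) j
      · refine ⟨-b i, h.neg_mem (hb.1 i), ?_⟩
        rw [smul_neg, ← d0 i]; abel
      · refine ⟨b j - b i, hb.sub_mem h (fun e => hij (by rw [e])), d1 i j⟩
  refine ⟨v, gram, fun a => ⟨fun ha => ?_, ?_⟩⟩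
  · have hinv : ∀ β : E d, β = (1 / μ) • (μ • β) := by
      intro β
      rw [smul_smul, one_div, inv_mul_cancel₀ hμ0.ne', one_smul]
    have hpos : 0 < 1 / μ := by positivity
    rcases hall a ha with ⟨i, h1 | h1⟩ | ⟨i, j, hij, h1⟩
    · refine ⟨0, i.succ, (Fin.succ_ne_zero i).symm, 1 / μ, hpos, h.norm a ha, ?_⟩
      rw [d0, ← hinv, h1]
    · refine ⟨i.succ, 0, Fin.succ_ne_zero i, 1 / μ, hpos, h.norm a ha, ?_⟩
      have : v i.succ - v 0 = μ • (-b i) := by rw [smul_neg, ← d0 i]; abel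
      rw [this, ← hinv, h1]
    · refine ⟨j.succ, i.succ, fun e => hij (Fin.succ_injective _ e).symm, 1 / μ, hpos,
        h.norm a ha, ?_⟩
      rw [d1, ← hinv, h1]
  · rintro ⟨i, j, hij, t, ht, hn, rfl⟩
    obtain ⟨β, hβ, e⟩ := hdiff i j hij
    rw [e, smul_smul] at hn ⊢
    rw [norm_smul, h.norm β hβ, mul_one, Real.norm_eq_abs, abs_of_pos (mul_pos ht hμ0)] at hn
    rw [hn, one_smul]
    exact hβ

end R3A

open R3A in
theorem rg3a : StmtRG3a := by
  intro d Φ hd h hirr hspan hSL hD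
  obtain ⟨k, b, hk, hb, hmax⟩ := exists_max h
  set L : Submodule ℝ (E d) := Submodule.span ℝ (Set.range b) with hL
  have hbL : ∀ i, b i ∈ L := fun i => Submodule.subset_span ⟨i, rfl⟩
  have hdich := fun (c : E d) (hc : c ∈ Φ) => dich h hSL hD hb hmax hc
  have hperp : ∀ c : E d, (∀ i, ⟪c, b i⟫ = (0 : ℝ)) → c ∈ Lᗮ := by
    intro c hc
    rw [Submodule.mem_orthogonal']
    intro u hu
    rw [hL] at hu
    induction hu using Submodule.span_induction with
    | mem x hx =>
      obtain ⟨i, rfl⟩ := hx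
      exact hc i
    | zero => exact inner_zero_right _
    | add x y _ _ hx hy => rw [inner_add_right, hx, hy, add_zero]
    | smul a x _ hx => rw [inner_smul_right, hx, mul_zero]
  have hin : ∀ a ∈ Φ, a ∈ L := by
    rcases hirr L (fun a ha => by
      rcases hdich a ha with ⟨i, h1 | h1⟩ | ⟨i, j, _, h1⟩ | h1
      · left; rw [h1]; exact hbL i
      · left; rw [h1]; exact neg_mem (hbL i)
      · left; rw [h1]; exact sub_mem (hbL i) (hbL j)
      · right; exact hperp a h1) with h2 | h2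
    · exact h2
    · exfalso
      have h3 := h2 (b ⟨0, hk⟩) (hb.1 _)
      rw [Submodule.mem_orthogonal] at h3
      have h4 := h3 _ (hbL ⟨0, hk⟩)
      rw [h.inner_self (hb.1 _)] at h4
      norm_num at h4
  have hLtop : L = ⊤ := by
    rw [eq_top_iff, ← hspan, Submodule.span_le]
    exact hin
  have hkd : k = d := by
    have h1 := finrank_span_eq_card (hb.lin h)
    rw [← hL, hLtop, finrank_top, Fintype.card_fin] at h1
    rw [← h1]
    simp
  subst hkd
  refine simplex hd h hb ?_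
  intro c hc
  rcases hdich c hc with h1 | h1 | h1
  · exact Or.inl h1
  · exact Or.inr h1
  · exfalso
    have h2 := hperp c h1
    rw [hLtop, Submodule.top_orthogonal_eq_bot, Submodule.mem_bot] at h2
    have h3 := h.norm c hc
    rw [h2, norm_zero] at h3
    norm_num at h3

end

end FO2
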