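import Pool.Agent.FO2.Stmts

/-!
# Module R3B: a maximal frame of a simply laced root system which contains `D_4`
-/

namespace FO2

open Lib_helper64.FO
open scoped RealInnerProductSpace

namespace R3B

variable {d : ℕ} {Φ : Set (E d)}

theorem kk : (1 / √2 : ℝ) * (1 / √2) = 1 / 2 := by
  rw [div_mul_div_comm, Real.mul_self_sqrt (by norm_num)]
  norm_num

theorem sg_cases (s : ℤˣ) : sg s = 1 ∨ sg s = -1 := by
  rcases Int.units_eq_one_or s with rfl | rfl
  · left; simp [sg]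
  · right; simp [sg]

theorem sg_mul (s t : ℤˣ) : sg (s * t) = sg s * sg t := by
  simp [sg]

theorem sg_sq (s : ℤˣ) : sg s * sg s = 1 := by
  rcases sg_cases s with h | h <;> rw [h] <;> norm_num

theorem sub_mem (h : IsRS Φ) {r v : E d} (hr : r ∈ Φ) (hv : v ∈ Φ) (hrv : ⟪r, v⟫ = (1 / 2 : ℝ)) :
    v - r ∈ Φ := by
  have := h.refl r hr v hv
  rw [sref, hrv] at this
  convert this using 1
  module

theorem dfr_of (h : IsRS Φ) {n : ℕ} {u : Fin n → E d} (hu : Orthonormal ℝ u)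
    (H : ∀ i j, i < j → (1 / √2 : ℝ) • (u i + u j) ∈ Φ ∧ (1 / √2 : ℝ) • (u i - u j) ∈ Φ) :
    DFr Φ n u := by
  have key : ∀ i j, i < j → ∀ s t : ℤˣ, (1 / √2 : ℝ) • (sg s • u i + sg t • u j) ∈ Φ := by
    intro i j hij s t
    obtain ⟨h1, h2⟩ := H i j hij
    rcases sg_cases s with hs | hs <;> rcases sg_cases t with ht | ht <;> rw [hs, ht]
    · convert h1 using 1; module
    · convert h2 using 1; module
    · convert h.neg_mem h2 using 1; module
    · convert h.neg_mem h1 using 1; module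
  refine ⟨hu, fun i j hij s t => ?_⟩
  rcases lt_or_gt_of_ne hij with hl | hl
  · exact key i j hl s t
  · rw [add_comm]
    exact key j i hl t s

theorem dfr_plus {n : ℕ} {u : Fin n → E d} (hu : DFr Φ n u) {i j : Fin n} (hij : i ≠ j) :
    (1 / √2 : ℝ) • (u i + u j) ∈ Φ := by
  have := hu.2 i j hij 1 1
  convert this using 1
  simp [sg]

theorem dfr_minus {n : ℕ} {u : Fin n → E d} (hu : DFr Φ n u) {i j : Fin n} (hij : i ≠ j) :
    (1 / √2 : ℝ) • (u i - u j) ∈ Φ := by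
  have := hu.2 i j hij 1 (-1)
  convert this using 1
  simp [sg, sub_eq_add_neg]

theorem dfr_signs {n : ℕ} {u : Fin n → E d} (hu : DFr Φ n u) (ε : Fin n → ℤˣ) :
    DFr Φ n (fun i => sg (ε i) • u i) := by
  refine ⟨?_, fun i j hij s t => ?_⟩
  · rw [orthonormal_iff_ite]
    intro i j
    rw [real_inner_smul_left, real_inner_smul_right, orthonormal_iff_ite.1 hu.1 i j]
    split_ifs with hij
    · subst hij
      rw [mul_one, sg_sq]
    · ring
  · have := hu.2 i j hij (s * ε i) (t * ε j)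
    rw [sg_mul, sg_mul] at this
    convert this using 1
    module

theorem dfr_four (h : IsRS Φ) {w0 w1 w2 w3 : E d}
    (n0 : ⟪w0, w0⟫ = (1 : ℝ)) (n1 : ⟪w1, w1⟫ = (1 : ℝ)) (n2 : ⟪w2, w2⟫ = (1 : ℝ))
    (n3 : ⟪w3, w3⟫ = (1 : ℝ)) (o1 : ⟪w0, w1⟫ = (0 : ℝ)) (o2 : ⟪w0, w2⟫ = (0 : ℝ))
    (o3 : ⟪w0, w3⟫ = (0 : ℝ)) (o4 : ⟪w1, w2⟫ = (0 : ℝ)) (o5 : ⟪w1, w3⟫ = (0 : ℝ))
    (o6 : ⟪w2, w3⟫ = (0 : ℝ))
    (m1 : (1 / √2 : ℝ) • (w0 + w1) ∈ Φ) (m1' : (1 / √2 : ℝ) • (w0 - w1) ∈ Φ)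
    (m2 : (1 / √2 : ℝ) • (w0 + w2) ∈ Φ) (m2' : (1 / √2 : ℝ) • (w0 - w2) ∈ Φ)
    (m3 : (1 / √2 : ℝ) • (w0 + w3) ∈ Φ) (m3' : (1 / √2 : ℝ) • (w0 - w3) ∈ Φ)
    (m4 : (1 / √2 : ℝ) • (w1 + w2) ∈ Φ) (m4' : (1 / √2 : ℝ) • (w1 - w2) ∈ Φ)
    (m5 : (1 / √2 : ℝ) • (w1 + w3) ∈ Φ) (m5' : (1 / √2 : ℝ) • (w1 - w3) ∈ Φ)
    (m6 : (1 / √2 : ℝ) • (w2 + w3) ∈ Φ) (m6' : (1 / √2 : ℝ) • (w2 - w3) ∈ Φ) :
    DFr Φ 4 ![w0, w1, w2, w3] := by
  have o1' : ⟪w1, w0⟫ = (0 : ℝ) := by rw [real_inner_comm]; exact o1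
  have o2' : ⟪w2, w0⟫ = (0 : ℝ) := by rw [real_inner_comm]; exact o2
  have o3' : ⟪w3, w0⟫ = (0 : ℝ) := by rw [real_inner_comm]; exact o3
  have o4' : ⟪w2, w1⟫ = (0 : ℝ) := by rw [real_inner_comm]; exact o4
  have o5' : ⟪w3, w1⟫ = (0 : ℝ) := by rw [real_inner_comm]; exact o5
  have o6' : ⟪w3, w2⟫ = (0 : ℝ) := by rw [real_inner_comm]; exact o6
  refine dfr_of h ?_ ?_
  · rw [orthonormal_iff_ite]
    intro i j
    fin_cases i <;> fin_cases j
    · exact n0
    · exact o1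
    · exact o2
    · exact o3
    · exact o1'
    · exact n1
    · exact o4
    · exact o5
    · exact o2'
    · exact o4'
    · exact n2
    · exact o6
    · exact o3'
    · exact o5'
    · exact o6'
    · exact n3
  · intro i j hij
    fin_cases i <;> fin_cases j <;> first
      | exact absurd hij (by decide)
      | exact ⟨m1, m1'⟩
      | exact ⟨m2, m2'⟩
      | exact ⟨m3, m3'⟩
      | exact ⟨m4, m4'⟩
      | exact ⟨m5, m5'⟩
      | exact ⟨m6, m6'⟩

theorem frame4 (h : IsRS Φ) (h4 : HasD4 Φ) : ∃ u : Fin 4 → E d, DFr Φ 4 u := by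
  obtain ⟨a, ha, b, hb, b', hb', b'', hb'', o1, o2, o3, i1, i2, i3⟩ := h4
  have na := h.inner_self ha
  have nb := h.inner_self hb
  have nb' := h.inner_self hb'
  have nb'' := h.inner_self hb''
  have o1' : ⟪b', b⟫ = (0 : ℝ) := by rw [real_inner_comm]; exact o1
  have o2' : ⟪b'', b⟫ = (0 : ℝ) := by rw [real_inner_comm]; exact o2
  have o3' : ⟪b'', b'⟫ = (0 : ℝ) := by rw [real_inner_comm]; exact o3
  have i1' : ⟪b, a⟫ = (1 / 2 : ℝ) := by rw [real_inner_comm]; exact i1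
  have i2' : ⟪b', a⟫ = (1 / 2 : ℝ) := by rw [real_inner_comm]; exact i2
  have i3' : ⟪b'', a⟫ = (1 / 2 : ℝ) := by rw [real_inner_comm]; exact i3
  have e1 : a - b ∈ Φ := sub_mem h hb ha i1'
  have e2 : a - b - b' ∈ Φ := sub_mem h hb' e1 (by rw [inner_sub_right, i2', o1']; norm_num)
  have e3 : a - b - b' - b'' ∈ Φ := sub_mem h hb'' e2 (by
    rw [inner_sub_right, inner_sub_right, i3', o2', o3']; norm_num)
  have e4 : b + b' + b'' - a ∈ Φ := by
    convert h.neg_mem e3 using 1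
    module
  have e5 : b + b' + b'' - a - a ∈ Φ := sub_mem h ha e4 (by
    rw [inner_sub_right, inner_add_right, inner_add_right, i1, i2, i3, na]; norm_num)
  obtain ⟨q, hq⟩ : ∃ q, q = a + a - b - b' - b'' := ⟨_, rfl⟩
  have hqm : q ∈ Φ := by
    rw [hq]
    convert h.neg_mem e5 using 1
    module
  have nq := h.inner_self hqm
  have q0 : ⟪b, q⟫ = (0 : ℝ) := by
    rw [hq]
    simp only [inner_sub_right, inner_add_right, i1', nb, o1, o2]
    norm_num
  have q1 : ⟪b', q⟫ = (0 : ℝ) := by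
    rw [hq]
    simp only [inner_sub_right, inner_add_right, i2', nb', o1', o3]
    norm_num
  have q2 : ⟪b'', q⟫ = (0 : ℝ) := by
    rw [hq]
    simp only [inner_sub_right, inner_add_right, i3', nb'', o2', o3']
    norm_num
  have q0' : ⟪q, b⟫ = (0 : ℝ) := by rw [real_inner_comm]; exact q0
  have q1' : ⟪q, b'⟫ = (0 : ℝ) := by rw [real_inner_comm]; exact q1
  have q2' : ⟪q, b''⟫ = (0 : ℝ) := by rw [real_inner_comm]; exact q2
  have q3 : ⟪q, a⟫ = (1 / 2 : ℝ) := by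
    rw [hq]
    simp only [inner_sub_left, inner_add_left, i1', i2', i3', na]
    norm_num
  have ea : a = (1 / 2 : ℝ) • (b + b' + b'' + q) := by
    rw [hq]
    module
  have f1 : a - b'' ∈ Φ := sub_mem h hb'' ha i3'
  have f2 : a - q ∈ Φ := sub_mem h hqm ha q3
  have f3 : a - b'' - q ∈ Φ := sub_mem h hqm f1 (by rw [inner_sub_right, q3, q2']; norm_num)
  have f4 : a - b' ∈ Φ := sub_mem h hb' ha i2'
  have f5 : a - b'' - q - b' ∈ Φ := sub_mem h hb' f3 (by
    rw [inner_sub_right, inner_sub_right, i2', o3, q1]; norm_num)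
  have f6 : a - b' - q ∈ Φ := sub_mem h hqm f4 (by rw [inner_sub_right, q3, q1']; norm_num)
  have f7 : a - b'' - b' ∈ Φ := sub_mem h hb' f1 (by rw [inner_sub_right, i2', o3]; norm_num)
  have sm : ∀ x y : E d, (1 / √2 : ℝ) • ((1 / √2 : ℝ) • x + (1 / √2 : ℝ) • y) =
      (1 / 2 : ℝ) • (x + y) := by
    intro x y
    rw [← smul_add, smul_smul, kk]
  have sm' : ∀ x y : E d, (1 / √2 : ℝ) • ((1 / √2 : ℝ) • x - (1 / √2 : ℝ) • y) =
      (1 / 2 : ℝ) • (x - y) := by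
    intro x y
    rw [← smul_sub, smul_smul, kk]
  have ii : ∀ x y : E d, ⟪(1 / √2 : ℝ) • x, (1 / √2 : ℝ) • y⟫ = (1 / 2 : ℝ) * ⟪x, y⟫ := by
    intro x y
    rw [real_inner_smul_left, real_inner_smul_right, ← mul_assoc, kk]
  refine ⟨![(1 / √2 : ℝ) • (b + b'), (1 / √2 : ℝ) • (b - b'), (1 / √2 : ℝ) • (b'' + q),
    (1 / √2 : ℝ) • (b'' - q)], dfr_four h ?_ ?_ ?_ ?_ ?_ ?_ ?_ ?_ ?_ ?_ ?_ ?_ ?_ ?_ ?_ ?_ ?_ ?_ ?_
      ?_ ?_ ?_⟩
  all_goals first
    | (rw [ii]
       simp only [inner_sub_left, inner_add_left, inner_sub_right, inner_add_right, nb, nb', nb'',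
         nq, o1, o2, o3, o1', o2', o3', q0, q1, q2, q0', q1', q2']
       norm_num)
    | rw [sm]
    | rw [sm']
  · convert hb using 1; module
  · convert hb' using 1; module
  · convert ha using 1; rw [ea]; module
  · convert f3 using 1; rw [ea]; module
  · convert f2 using 1; rw [ea]; module
  · convert f1 using 1; rw [ea]; module
  · convert f4 using 1; rw [ea]; module
  · convert f5 using 1; rw [ea]; module
  · convert f6 using 1; rw [ea]; module
  · convert f7 using 1; rw [ea]; module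
  · convert hb'' using 1; module
  · convert hqm using 1; module

theorem move (h : IsRS Φ) {p q v : E d} {σ τ : ℝ} (pp : ⟪p, p⟫ = (1 : ℝ))
    (pq : ⟪q, p⟫ = (0 : ℝ)) (pv : ⟪p, v⟫ = (0 : ℝ)) (qv : ⟪q, v⟫ = (0 : ℝ))
    (h1 : (1 / √2 : ℝ) • (p - τ • q) ∈ Φ) (h2 : (1 / √2 : ℝ) • (σ • p + v) ∈ Φ) :
    (1 / √2 : ℝ) • ((σ * τ) • q + v) ∈ Φ := by
  have := h.refl _ h1 _ h2
  have e : ⟪(1 / √2 : ℝ) • (p - τ • q), (1 / √2 : ℝ) • (σ • p + v)⟫ = σ / 2 := by
    rw [real_inner_smul_left, real_inner_smul_right, ← mul_assoc, kk]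
    simp only [inner_sub_left, inner_add_right, real_inner_smul_left, real_inner_smul_right, pp,
      pq, pv, qv]
    ring
  rw [sref, e] at this
  convert this using 1
  module

/-- A root at 45 degrees to one vector of the frame extends the frame. -/
theorem dfr_succ (h : IsRS Φ) {n : ℕ} (hn : 2 ≤ n) {u : Fin n → E d} (hu : DFr Φ n u) {c : E d}
    (hc : c ∈ Φ) {i0 : Fin n} {σ : ℝ} (hσ : σ = 1 ∨ σ = -1)
    (h0 : ⟪c, u i0⟫ = σ * (1 / √2)) (hj : ∀ j, j ≠ i0 → ⟪c, u j⟫ = (0 : ℝ)) :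
    ∃ u' : Fin (n + 1) → E d, DFr Φ (n + 1) u' := by
  have hs2 : √2 * (1 / √2) = (1 : ℝ) := mul_one_div_cancel (by positivity)
  have hσ2 : σ * σ = 1 := by rcases hσ with rfl | rfl <;> norm_num
  have ho := orthonormal_iff_ite.1 hu.1
  have nc := h.inner_self hc
  obtain ⟨w, hw⟩ : ∃ w, w = √2 • c - σ • u i0 := ⟨_, rfl⟩
  have hwu : ∀ j, ⟪w, u j⟫ = (0 : ℝ) := by
    intro j
    rw [hw, inner_sub_left, real_inner_smul_left, real_inner_smul_left, ho]
    by_cases hji : j = i0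
    · subst hji
      rw [h0, if_pos rfl]
      linear_combination σ * hs2
    · rw [hj j hji, if_neg (Ne.symm hji)]
      ring
  have huw : ∀ j, ⟪u j, w⟫ = (0 : ℝ) := fun j => by rw [real_inner_comm]; exact hwu j
  have hww : ⟪w, w⟫ = (1 : ℝ) := by
    have h1 : ⟪w, w⟫ = √2 * ⟪c, w⟫ - σ * ⟪u i0, w⟫ := by
      nth_rewrite 1 [hw]
      rw [inner_sub_left, real_inner_smul_left, real_inner_smul_left]
    have h2 : ⟪c, w⟫ = √2 * ⟪c, c⟫ - σ * ⟪c, u i0⟫ := by
      rw [hw, inner_sub_right, real_inner_smul_right, real_inner_smul_right]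
    rw [h1, huw, h2, nc, h0]
    have h3 : √2 * √2 = (2 : ℝ) := Real.mul_self_sqrt (by norm_num)
    linear_combination h3 - σ * σ * hs2 - hσ2
  have hcw : (1 / √2 : ℝ) • (σ • u i0 + w) ∈ Φ := by
    have : (1 / √2 : ℝ) • (σ • u i0 + w) = c := by
      rw [hw, show σ • u i0 + (√2 • c - σ • u i0) = √2 • c by module, smul_smul,
        mul_comm, hs2, one_smul]
    rw [this]
    exact hc
  have hpm : ∀ (τ : ℝ), τ = 1 ∨ τ = -1 → ∀ i j, i ≠ j → (1 / √2 : ℝ) • (u i - τ • u j) ∈ Φ := by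
    intro τ hτ i j hij
    rcases hτ with rfl | rfl
    · rw [one_smul]
      exact dfr_minus hu hij
    · rw [neg_one_smul, sub_neg_eq_add]
      exact dfr_plus hu hij
  have step : ∀ (i j : Fin n), i ≠ j → ∀ (σ τ : ℝ), τ = 1 ∨ τ = -1 →
      (1 / √2 : ℝ) • (σ • u i + w) ∈ Φ → (1 / √2 : ℝ) • ((σ * τ) • u j + w) ∈ Φ := by
    intro i j hij σ τ hτ hm
    exact move h (by rw [ho, if_pos rfl]) (by rw [ho, if_neg (Ne.symm hij)]) (huw i) (huw j)
      (hpm τ hτ i j hij) hm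
  have all1 : ∀ j, j ≠ i0 → ∀ τ : ℝ, τ = 1 ∨ τ = -1 → (1 / √2 : ℝ) • (τ • u j + w) ∈ Φ := by
    intro j hji τ hτ
    have h1 : σ * τ = 1 ∨ σ * τ = -1 := by
      rcases hσ with rfl | rfl <;> rcases hτ with rfl | rfl <;> norm_num
    have h2 := step i0 j (Ne.symm hji) σ (σ * τ) h1 hcw
    rw [← mul_assoc, hσ2, one_mul] at h2
    exact h2
  have all : ∀ j, ∀ τ : ℝ, τ = 1 ∨ τ = -1 → (1 / √2 : ℝ) • (τ • u j + w) ∈ Φ := by
    intro j τ hτ
    by_cases hji : j = i0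
    · obtain ⟨j1, hj1⟩ : ∃ j1 : Fin n, j1 ≠ j := by
        have : Nontrivial (Fin n) := Fin.nontrivial_iff_two_le.2 hn
        exact exists_ne j
      have h1 := all1 j1 (by rw [← hji]; exact hj1) 1 (Or.inl rfl)
      have h2 := step j1 j hj1 1 τ hτ h1
      rw [one_mul] at h2
      exact h2
    · exact all1 j hji τ hτ
  refine ⟨Fin.cons w u, dfr_of h ?_ ?_⟩
  · rw [orthonormal_iff_ite]
    intro i j
    refine Fin.cases ?_ (fun i => ?_) i <;> refine Fin.cases ?_ (fun j => ?_) j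
    · simp only [Fin.cons_zero, if_true]
      exact hww
    · simp only [Fin.cons_zero, Fin.cons_succ]
      rw [if_neg (Fin.succ_ne_zero j).symm]
      exact hwu j
    · simp only [Fin.cons_zero, Fin.cons_succ]
      rw [if_neg (Fin.succ_ne_zero i)]
      exact huw i
    · simp only [Fin.cons_succ, Fin.succ_inj]
      exact ho i j
  · intro i j
    refine Fin.cases ?_ (fun i => ?_) i <;> refine Fin.cases ?_ (fun j => ?_) j
    · intro h1
      exact absurd h1 (lt_irrefl _)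
    · intro _
      simp only [Fin.cons_zero, Fin.cons_succ]
      constructor
      · convert all j 1 (Or.inl rfl) using 1
        module
      · convert all j (-1) (Or.inr rfl) using 1
        module
    · intro h1
      exact absurd h1 (Fin.not_lt_zero _)
    · intro h1
      simp only [Fin.cons_succ]
      have hij : i ≠ j := fun h2 => absurd h1 (by rw [h2]; exact lt_irrefl _)
      exact ⟨dfr_plus hu hij, dfr_minus hu hij⟩

/-- A spinor over a frame of four vectors: another frame. -/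
theorem third4 (h : IsRS Φ) {u : Fin 4 → E d} (hu : DFr Φ 4 u) {c : E d}
    (hx : ∀ i, ⟪c, u i⟫ = (1 / (2 * √2) : ℝ) ∨ ⟪c, u i⟫ = (-(1 / (2 * √2)) : ℝ)) :
    ∃ u' : Fin 4 → E d, DFr Φ 4 u' ∧ ⟪c, u' 0⟫ = (1 / √2 : ℝ) ∧
      ∀ j, j ≠ 0 → ⟪c, u' j⟫ = (0 : ℝ) := by
  have hε : ∀ i, ∃ ε : ℤˣ, ⟪c, sg ε • u i⟫ = (1 / (2 * √2) : ℝ) := by
    intro i
    rcases hx i with h1 | h1
    · refine ⟨1, ?_⟩
      rw [real_inner_smul_right, h1]
      simp [sg]
    · refine ⟨-1, ?_⟩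
      rw [real_inner_smul_right, h1]
      simp [sg]
  choose ε hε using hε
  have hw := dfr_signs hu ε
  obtain ⟨w, hwd⟩ : ∃ w : Fin 4 → E d, w = fun i => sg (ε i) • u i := ⟨_, rfl⟩
  rw [← hwd] at hw
  have hcw : ∀ i, ⟪c, w i⟫ = (1 / (2 * √2) : ℝ) := fun i => by rw [hwd]; exact hε i
  have ho := orthonormal_iff_ite.1 hw.1
  have m00 : ⟪w 0, w 0⟫ = (1 : ℝ) := by rw [ho, if_pos rfl]
  have m11 : ⟪w 1, w 1⟫ = (1 : ℝ) := by rw [ho, if_pos rfl]
  have m22 : ⟪w 2, w 2⟫ = (1 : ℝ) := by rw [ho, if_pos rfl]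
  have m33 : ⟪w 3, w 3⟫ = (1 : ℝ) := by rw [ho, if_pos rfl]
  have m01 : ⟪w 0, w 1⟫ = (0 : ℝ) := by rw [ho, if_neg (by decide)]
  have m02 : ⟪w 0, w 2⟫ = (0 : ℝ) := by rw [ho, if_neg (by decide)]
  have m03 : ⟪w 0, w 3⟫ = (0 : ℝ) := by rw [ho, if_neg (by decide)]
  have m12 : ⟪w 1, w 2⟫ = (0 : ℝ) := by rw [ho, if_neg (by decide)]
  have m13 : ⟪w 1, w 3⟫ = (0 : ℝ) := by rw [ho, if_neg (by decide)]
  have m23 : ⟪w 2, w 3⟫ = (0 : ℝ) := by rw [ho, if_neg (by decide)]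
  have m10 : ⟪w 1, w 0⟫ = (0 : ℝ) := by rw [ho, if_neg (by decide)]
  have m20 : ⟪w 2, w 0⟫ = (0 : ℝ) := by rw [ho, if_neg (by decide)]
  have m30 : ⟪w 3, w 0⟫ = (0 : ℝ) := by rw [ho, if_neg (by decide)]
  have m21 : ⟪w 2, w 1⟫ = (0 : ℝ) := by rw [ho, if_neg (by decide)]
  have m31 : ⟪w 3, w 1⟫ = (0 : ℝ) := by rw [ho, if_neg (by decide)]
  have m32 : ⟪w 3, w 2⟫ = (0 : ℝ) := by rw [ho, if_neg (by decide)]
  have hP : ∀ i j : Fin 4, i ≠ j → (1 / √2 : ℝ) • (w i + w j) ∈ Φ := fun i j hij =>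
    dfr_plus hw hij
  have hM : ∀ i j : Fin 4, i ≠ j → (1 / √2 : ℝ) • (w i - w j) ∈ Φ := fun i j hij =>
    dfr_minus hw hij
  refine ⟨![(1 / 2 : ℝ) • (w 0 + w 1 + w 2 + w 3), (1 / 2 : ℝ) • (w 0 + w 1 - w 2 - w 3),
    (1 / 2 : ℝ) • (w 0 - w 1 + w 2 - w 3), (1 / 2 : ℝ) • (w 0 - w 1 - w 2 + w 3)],
    dfr_four h ?_ ?_ ?_ ?_ ?_ ?_ ?_ ?_ ?_ ?_ ?_ ?_ ?_ ?_ ?_ ?_ ?_ ?_ ?_ ?_ ?_ ?_, ?_, ?_⟩
  all_goals first
    | (rw [real_inner_smul_left, real_inner_smul_right]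
       simp only [inner_sub_left, inner_add_left, inner_sub_right, inner_add_right, m00, m11, m22,
         m33, m01, m02, m03, m12, m13, m23, m10, m20, m30, m21, m31, m32]
       norm_num)
    | skip
  · convert hP 0 1 (by decide) using 2; module
  · convert hP 2 3 (by decide) using 2; module
  · convert hP 0 2 (by decide) using 2; module
  · convert hP 1 3 (by decide) using 2; module
  · convert hP 0 3 (by decide) using 2; module
  · convert hP 1 2 (by decide) using 2; module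
  · convert hM 0 3 (by decide) using 2; module
  · convert hM 1 2 (by decide) using 2; module
  · convert hM 0 2 (by decide) using 2; module
  · convert hM 1 3 (by decide) using 2; module
  · convert hM 0 1 (by decide) using 2; module
  · convert hM 2 3 (by decide) using 2; module
  · change ⟪c, (1 / 2 : ℝ) • (w 0 + w 1 + w 2 + w 3)⟫ = (1 / √2 : ℝ)
    rw [real_inner_smul_right]
    simp only [inner_add_right, hcw]
    field_simp
    norm_num
  · intro j hj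
    fin_cases j
    · exact absurd rfl hj
    · change ⟪c, (1 / 2 : ℝ) • (w 0 + w 1 - w 2 - w 3)⟫ = (0 : ℝ)
      rw [real_inner_smul_right]
      simp only [inner_add_right, inner_sub_right, hcw]
      ring
    · change ⟪c, (1 / 2 : ℝ) • (w 0 - w 1 + w 2 - w 3)⟫ = (0 : ℝ)
      rw [real_inner_smul_right]
      simp only [inner_add_right, inner_sub_right, hcw]
      ring
    · change ⟪c, (1 / 2 : ℝ) • (w 0 - w 1 - w 2 + w 3)⟫ = (0 : ℝ)
      rw [real_inner_smul_right]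
      simp only [inner_add_right, inner_sub_right, hcw]
      ring

theorem card_le {n : ℕ} {u : Fin n → E d} (hu : DFr Φ n u) : n ≤ d := by
  have h1 := hu.1.linearIndependent.fintype_card_le_finrank
  rw [Fintype.card_fin, finrank_euclideanSpace_fin] at h1
  exact h1

end R3B

open R3B in
theorem rg3b : StmtRG3b := by
  intro d Φ h hSL h4
  obtain ⟨u4, hu4⟩ := frame4 h h4
  let S : Set ℕ := {n | 4 ≤ n ∧ ∃ u : Fin n → E d, DFr Φ n u}
  have hSn : S.Nonempty := ⟨4, le_refl _, u4, hu4⟩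
  have hSb : BddAbove S := ⟨d, fun n hn => by
    obtain ⟨_, u, hu⟩ := hn
    exact card_le hu⟩
  obtain ⟨hn4, u, hu⟩ : sSup S ∈ S := Nat.sSup_mem hSn hSb
  have hmax : ∀ m ∈ S, m ≤ sSup S := fun m hm => le_csSup hSb hm
  generalize sSup S = n at hn4 u hu hmax
  have hno : ∀ u' : Fin (n + 1) → E d, ¬ DFr Φ (n + 1) u' := fun u' hu' =>
    absurd (hmax (n + 1) ⟨by omega, u', hu'⟩) (by omega)
  refine ⟨n, u, hn4, hu, fun c hc => ?_⟩
  by_cases hfirst : ∃ i j, i ≠ j ∧ ∃ s t : ℤˣ, c = (1 / √2 : ℝ) • (sg s • u i + sg t • u j)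
  · exact Or.inl hfirst
  right
  have hs0 : (0 : ℝ) < √2 := by positivity
  have h22 : √2 * √2 = (2 : ℝ) := Real.mul_self_sqrt (by norm_num)
  have hval : ∀ i j, i ≠ j → ∀ s t : ℤˣ,
      2 * √2 * (sg s * ⟪c, u i⟫ + sg t * ⟪c, u j⟫) = 0 ∨
      2 * √2 * (sg s * ⟪c, u i⟫ + sg t * ⟪c, u j⟫) = 2 ∨
      2 * √2 * (sg s * ⟪c, u i⟫ + sg t * ⟪c, u j⟫) = -2 := by
    intro i j hij s t
    have h1 := hSL c hc _ (hu.2 i j hij s t)
    have h2 : 2 * √2 * (sg s * ⟪c, u i⟫ + sg t * ⟪c, u j⟫) =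
        4 * ⟪c, (1 / √2 : ℝ) • (sg s • u i + sg t • u j)⟫ := by
      rw [real_inner_smul_right, inner_add_right, real_inner_smul_right, real_inner_smul_right]
      field_simp
      linear_combination (2 * (sg s * ⟪c, u i⟫ + sg t * ⟪c, u j⟫)) * h22
    rw [h2]
    rcases h1 with h1 | h1 | h1 | h1 | h1
    · left
      rw [h1, mul_zero]
    · right; left
      rw [h1]
      norm_num
    · right; right
      rw [h1]
      norm_num
    · exact absurd ⟨i, j, hij, s, t, h1⟩ hfirst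
    · refine absurd ⟨i, j, hij, -s, -t, ?_⟩ hfirst
      rw [h1]
      have e1 : sg (-s) = -sg s := by simp [sg]
      have e2 : sg (-t) = -sg t := by simp [sg]
      rw [e1, e2]
      module
  obtain ⟨X, hX⟩ : ∃ X : Fin n → ℝ, X = fun i => 2 * √2 * ⟪c, u i⟫ := ⟨_, rfl⟩
  have hXi : ∀ i, ⟪c, u i⟫ = X i * (1 / (2 * √2)) := by
    intro i
    rw [hX]
    field_simp
  have hplus : ∀ i j, i ≠ j → X i + X j = 0 ∨ X i + X j = 2 ∨ X i + X j = -2 := by
    intro i j hij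
    have h1 := hval i j hij 1 1
    have e : 2 * √2 * (sg 1 * ⟪c, u i⟫ + sg 1 * ⟪c, u j⟫) = X i + X j := by
      rw [hX]
      simp only [sg, Units.val_one, Int.cast_one]
      ring
    rw [e] at h1
    exact h1
  have hminus : ∀ i j, i ≠ j → X i - X j = 0 ∨ X i - X j = 2 ∨ X i - X j = -2 := by
    intro i j hij
    have h1 := hval i j hij 1 (-1)
    have e : 2 * √2 * (sg 1 * ⟪c, u i⟫ + sg (-1) * ⟪c, u j⟫) = X i - X j := by
      rw [hX]
      simp only [sg, Units.val_one, Int.cast_one, Units.val_neg, Int.cast_neg]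
      ring
    rw [e] at h1
    exact h1
  have hex : ∀ i : Fin n, ∃ j, j ≠ i := by
    have : Nontrivial (Fin n) := Fin.nontrivial_iff_two_le.2 (by omega)
    exact fun i => exists_ne i
  by_cases hone : ∃ i, X i = 1 ∨ X i = -1
  · right
    obtain ⟨i, hi⟩ := hone
    have hall : ∀ j, X j = 1 ∨ X j = -1 := by
      intro j
      by_cases hji : i = j
      · rw [← hji]
        exact hi
      · rcases hi with hi | hi <;> rcases hplus i j hji with h1 | h1 | h1 <;>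
          rcases hminus i j hji with h2 | h2 | h2 <;> first
          | (exfalso; linarith)
          | (left; linarith)
          | (right; linarith)
    have hthird : ∀ j, ⟪c, u j⟫ = (1 / (2 * √2) : ℝ) ∨ ⟪c, u j⟫ = (-(1 / (2 * √2)) : ℝ) := by
      intro j
      rw [hXi]
      rcases hall j with h1 | h1 <;> rw [h1]
      · left; ring
      · right; ring
    refine ⟨?_, hthird⟩
    by_contra hlt
    have hn : n = 4 := by omega
    subst hn
    obtain ⟨u', hu', h0, hj⟩ := third4 h hu hthird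
    obtain ⟨u'', hu''⟩ := dfr_succ h (by norm_num) hu' hc (i0 := 0) (σ := 1) (Or.inl rfl)
      (by rw [h0, one_mul]) hj
    exact hno u'' hu''
  · left
    by_cases htwo : ∃ i, X i = 2 ∨ X i = -2
    · exfalso
      obtain ⟨i, hi⟩ := htwo
      have hz : ∀ j, j ≠ i → ⟪c, u j⟫ = (0 : ℝ) := by
        intro j hji
        have h3 : X j = 0 := by
          rcases hi with hi | hi <;> rcases hplus i j (Ne.symm hji) with h1 | h1 | h1 <;>
            rcases hminus i j (Ne.symm hji) with h2 | h2 | h2 <;> linarith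
        rw [hXi, h3, zero_mul]
      have h5 : ∃ σ : ℝ, (σ = 1 ∨ σ = -1) ∧ ⟪c, u i⟫ = σ * (1 / √2) := by
        rcases hi with hi | hi
        · refine ⟨1, Or.inl rfl, ?_⟩
          rw [hXi, hi]
          field_simp
        · refine ⟨-1, Or.inr rfl, ?_⟩
          rw [hXi, hi]
          field_simp
      obtain ⟨σ, hσ, h6⟩ := h5
      obtain ⟨u'', hu''⟩ := dfr_succ h (by omega) hu hc hσ h6 hz
      exact hno u'' hu''
    · intro i
      obtain ⟨j, hji⟩ := hex i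
      have h3 : X i = 0 := by
        rcases hplus i j (Ne.symm hji) with h1 | h1 | h1 <;>
          rcases hminus i j (Ne.symm hji) with h2 | h2 | h2 <;> first
          | linarith
          | exact absurd ⟨i, Or.inl (by linarith)⟩ hone
          | exact absurd ⟨i, Or.inr (by linarith)⟩ hone
          | exact absurd ⟨i, Or.inl (by linarith)⟩ htwo
          | exact absurd ⟨i, Or.inr (by linarith)⟩ htwo
      rw [hXi, h3, zero_mul]

end FO2
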