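import Pool.Agent.FO2.Stmts

/-!
# A maximal frame of type `D` in dimension at least nine is everything
-/

namespace FO2

open Lib_helper64.FO
open scoped RealInnerProductSpace

noncomputable section

namespace R3C

variable {d n : ℕ} {Φ : Set (E d)} {u : Fin n → E d}

/-- the projection on the orthogonal complement of the frame -/
def P (u : Fin n → E d) (c : E d) : E d := c - ∑ i, ⟪c, u i⟫ • u i

/-- `c` is a root of the third kind -/
def Sp (Φ : Set (E d)) (u : Fin n → E d) (c : E d) : Prop :=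
  c ∈ Φ ∧ 5 ≤ n ∧ ∀ i, ⟪c, u i⟫ = (1 / (2 * √2) : ℝ) ∨ ⟪c, u i⟫ = (-(1 / (2 * √2)) : ℝ)

/-- `c` is a root of the third kind with the signs `τ` -/
def SpT (Φ : Set (E d)) (u : Fin n → E d) (τ : Fin n → ℝ) (c : E d) : Prop :=
  c ∈ Φ ∧ ∀ i, ⟪c, u i⟫ = τ i * (1 / (2 * √2) : ℝ)

theorem kap_pos : (0 : ℝ) < 1 / (2 * √2) := by positivity

theorem kap_sq : (1 / (2 * √2) : ℝ) * (1 / (2 * √2)) = 1 / 8 := by
  have h : (√2 : ℝ) * √2 = 2 := Real.mul_self_sqrt (by norm_num)
  have h' : (√2 : ℝ) ≠ 0 := by positivity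
  field_simp
  nlinarith

theorem inner_uu (hu : Orthonormal ℝ u) (i j : Fin n) : ⟪u i, u j⟫ = if i = j then (1 : ℝ) else 0 :=
  orthonormal_iff_ite.1 hu i j

theorem inner_P_u (hu : Orthonormal ℝ u) (c : E d) (j : Fin n) : ⟪P u c, u j⟫ = (0 : ℝ) := by
  rw [P, inner_sub_left, sum_inner]
  simp only [real_inner_smul_left, inner_uu hu, mul_ite, mul_one, mul_zero, Finset.sum_ite_eq',
    Finset.mem_univ, if_true, sub_self]

theorem inner_P_left (c e : E d) : ⟪P u c, e⟫ = ⟪c, e⟫ - ∑ i, ⟪c, u i⟫ * ⟪e, u i⟫ := by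
  rw [P, inner_sub_left, sum_inner]
  congr 1
  refine Finset.sum_congr rfl fun i _ => ?_
  rw [real_inner_smul_left, real_inner_comm e (u i)]

theorem inner_P (hu : Orthonormal ℝ u) (c e : E d) :
    ⟪P u c, P u e⟫ = ⟪c, e⟫ - ∑ i, ⟪c, u i⟫ * ⟪e, u i⟫ := by
  have h : ⟪P u c, P u e⟫ = ⟪P u c, e⟫ := by
    conv_lhs => rw [P.eq_1 u e]
    rw [inner_sub_right, inner_sum]
    simp only [real_inner_smul_right, inner_P_u hu, mul_zero, Finset.sum_const_zero, sub_zero]
  rw [h, inner_P_left]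

theorem P_neg (c : E d) : P u (-c) = -P u c := by
  simp only [P, inner_neg_left, neg_smul, Finset.sum_neg_distrib]
  abel

theorem P_add_sum (c : E d) : c = P u c + ∑ i, ⟪c, u i⟫ • u i := by
  rw [P]; abel

/-- change of the signs of two coordinates -/
def flip (u : Fin n → E d) (i j : Fin n) (v : E d) : E d :=
  v - (2 * ⟪v, u i⟫) • u i - (2 * ⟪v, u j⟫) • u j

theorem inner_flip (hu : Orthonormal ℝ u) {i j : Fin n} (hij : i ≠ j) (v : E d) (l : Fin n) :
    ⟪flip u i j v, u l⟫ = if l = i ∨ l = j then -⟪v, u l⟫ else ⟪v, u l⟫ := by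
  rw [flip, inner_sub_left, inner_sub_left, real_inner_smul_left, real_inner_smul_left,
    inner_uu hu, inner_uu hu]
  by_cases h1 : l = i
  · subst h1
    rw [if_pos rfl, if_neg hij.symm, if_pos (Or.inl rfl)]
    ring
  · by_cases h2 : l = j
    · subst h2
      rw [if_neg hij, if_pos rfl, if_pos (Or.inr rfl)]
      ring
    · rw [if_neg (fun h => h1 h.symm), if_neg (fun h => h2 h.symm), if_neg (by tauto)]
      ring

theorem P_flip (hu : Orthonormal ℝ u) {i j : Fin n} (hij : i ≠ j) (v : E d) :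
    P u (flip u i j v) = P u v := by
  have hs : ∑ l, ⟪flip u i j v, u l⟫ • u l
      = ∑ l, ⟪v, u l⟫ • u l - (2 * ⟪v, u i⟫) • u i - (2 * ⟪v, u j⟫) • u j := by
    have h1 : ∀ l, ⟪flip u i j v, u l⟫ • u l = ⟪v, u l⟫ • u l
        - (if l = i then (2 * ⟪v, u i⟫) • u i else 0)
        - (if l = j then (2 * ⟪v, u j⟫) • u j else 0) := by
      intro l
      rw [inner_flip hu hij]
      by_cases h1 : l = i
      · subst h1
        rw [if_pos (Or.inl rfl), if_pos rfl, if_neg hij]
        module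
      · by_cases h2 : l = j
        · subst h2
          rw [if_pos (Or.inr rfl), if_neg h1, if_pos rfl]
          module
        · rw [if_neg (by tauto), if_neg h1, if_neg h2]
          module
    rw [Finset.sum_congr rfl fun l _ => h1 l, Finset.sum_sub_distrib, Finset.sum_sub_distrib,
      Finset.sum_ite_eq', Finset.sum_ite_eq', if_pos (Finset.mem_univ _),
      if_pos (Finset.mem_univ _)]
  rw [P, hs, flip, P]
  abel

theorem flip_mem (hΦ : IsRS Φ) (hD : DFr Φ n u) {i j : Fin n} (hij : i ≠ j) {c : E d}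
    (hc : c ∈ Φ) : flip u i j c ∈ Φ := by
  have ha := hD.2 i j hij 1 1
  have hb := hD.2 i j hij 1 (-1)
  have h := hΦ.refl _ ha _ (hΦ.refl _ hb _ hc)
  have h2 : (√2 : ℝ) * √2 = 2 := Real.mul_self_sqrt (by norm_num)
  have h3 : (1 / √2 : ℝ) * (1 / √2) = 1 / 2 := by
    rw [div_mul_div_comm, h2]; norm_num
  have s1 : sg 1 = 1 := by simp [sg]
  have s2 : sg (-1) = -1 := by simp [sg]
  rw [s1, s2] at h
  have e : sref ((1 / √2 : ℝ) • ((1 : ℝ) • u i + (1 : ℝ) • u j))
      (sref ((1 / √2 : ℝ) • ((1 : ℝ) • u i + (-1 : ℝ) • u j)) c) = flip u i j c := by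
    have hii : ⟪u i, u i⟫ = (1 : ℝ) := by rw [inner_uu hD.1, if_pos rfl]
    have hjj : ⟪u j, u j⟫ = (1 : ℝ) := by rw [inner_uu hD.1, if_pos rfl]
    have hij' : ⟪u i, u j⟫ = (0 : ℝ) := by rw [inner_uu hD.1, if_neg hij]
    have hji' : ⟪u j, u i⟫ = (0 : ℝ) := by rw [inner_uu hD.1, if_neg hij.symm]
    simp only [sref, flip, inner_sub_right, inner_add_left, inner_add_right, real_inner_smul_left,
      real_inner_smul_right, hii, hjj, hij', hji', real_inner_comm (u i) c, real_inner_comm (u j) c]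
    generalize ⟪u i, c⟫ = x
    generalize ⟪u j, c⟫ = y
    generalize (1 / √2 : ℝ) = r at h3
    have e1 : (2 * (r * (1 * x + -1 * y))) • r • ((1 : ℝ) • u i + (-1 : ℝ) • u j)
        = (x - y) • (u i - u j) := by
      rw [smul_smul, show 2 * (r * (1 * x + -1 * y)) * r = 2 * (r * r) * (x - y) by ring, h3]
      module
    have e2 : (2 * (r * (1 * x + 1 * y) - 2 * (r * (1 * x + -1 * y)) *
        (r * (1 * (r * (1 * 1 + 1 * 0)) + -1 * (r * (1 * 0 + 1 * 1)))))) •
        r • ((1 : ℝ) • u i + (1 : ℝ) • u j) = (x + y) • (u i + u j) := by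
      rw [smul_smul, show 2 * (r * (1 * x + 1 * y) - 2 * (r * (1 * x + -1 * y)) *
        (r * (1 * (r * (1 * 1 + 1 * 0)) + -1 * (r * (1 * 0 + 1 * 1))))) * r
          = 2 * (r * r) * (x + y) by ring, h3]
      module
    rw [e1, e2]
    module
  rwa [e] at h

/-- changing the signs of an even number of coordinates -/
theorem flipset (hΦ : IsRS Φ) (hD : DFr Φ n u) : ∀ (k : ℕ) (A : Finset (Fin n)), A.card = 2 * k →
    ∀ c ∈ Φ, ∃ c' ∈ Φ, P u c' = P u c ∧
      ∀ i, ⟪c', u i⟫ = if i ∈ A then -⟪c, u i⟫ else ⟪c, u i⟫ := by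
  intro k
  induction k with
  | zero =>
    intro A hA c hc
    have hA' : A = ∅ := Finset.card_eq_zero.1 (by omega)
    subst hA'
    exact ⟨c, hc, rfl, fun i => by simp⟩
  | succ k ih =>
    intro A hA c hc
    obtain ⟨i, hi, j, hj, hij⟩ := Finset.one_lt_card.1 (show 1 < A.card by omega)
    have hj' : j ∈ A.erase i := Finset.mem_erase.2 ⟨hij.symm, hj⟩
    have hcard : ((A.erase i).erase j).card = 2 * k := by
      rw [Finset.card_erase_of_mem hj', Finset.card_erase_of_mem hi]
      omega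
    obtain ⟨c', hc', h1, h2⟩ := ih _ hcard _ (flip_mem hΦ hD hij hc)
    refine ⟨c', hc', by rw [h1, P_flip hD.1 hij], ?_⟩
    intro l
    rw [h2, inner_flip hD.1 hij]
    by_cases hli : l = i
    · subst hli
      rw [if_neg (by simp), if_pos (Or.inl rfl), if_pos hi]
    · by_cases hlj : l = j
      · subst hlj
        rw [if_neg (by simp), if_pos (Or.inr rfl), if_pos hj]
      · rw [if_neg (show ¬(l = i ∨ l = j) by tauto)]
        by_cases hlA : l ∈ A
        · rw [if_pos (by simp [hli, hlj, hlA]), if_pos hlA]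
        · rw [if_neg (by simp [hlA]), if_neg hlA]

/-- the set of the negative coordinates -/
def Mn (u : Fin n → E d) (c : E d) : Finset (Fin n) :=
  Finset.univ.filter (fun i => ⟪c, u i⟫ = (-(1 / (2 * √2)) : ℝ))

theorem mem_Mn {c : E d} {i : Fin n} : i ∈ Mn u c ↔ ⟪c, u i⟫ = (-(1 / (2 * √2)) : ℝ) := by
  simp only [Mn, Finset.mem_filter, Finset.mem_univ, true_and]

theorem norm_even (hΦ : IsRS Φ) (hD : DFr Φ n u) {c : E d} (hc : Sp Φ u c)
    (he : Even (Mn u c).card) : ∃ c', SpT Φ u (fun _ => 1) c' ∧ P u c' = P u c := by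
  obtain ⟨k, hk⟩ := he
  obtain ⟨c', hc', h1, h2⟩ := flipset hΦ hD k (Mn u c) (by omega) c hc.1
  refine ⟨c', ⟨hc', ?_⟩, h1⟩
  intro i
  rw [h2]
  by_cases hi : i ∈ Mn u c
  · rw [if_pos hi, mem_Mn.1 hi]
    ring
  · rw [if_neg hi]
    rcases hc.2.2 i with h | h
    · rw [h]; ring
    · exact absurd (mem_Mn.2 h) hi

theorem norm_odd (hΦ : IsRS Φ) (hD : DFr Φ n u) (i0 : Fin n) {c : E d} (hc : Sp Φ u c)
    (ho : Odd (Mn u c).card) :
    ∃ c', SpT Φ u (fun i => if i = i0 then -1 else 1) c' ∧ P u c' = P u c := by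
  have hcoord : ∀ i, i ∉ Mn u c → ⟪c, u i⟫ = (1 / (2 * √2) : ℝ) := by
    intro i hi
    rcases hc.2.2 i with h | h
    · exact h
    · exact absurd (mem_Mn.2 h) hi
  by_cases h0 : i0 ∈ Mn u c
  · obtain ⟨k, hk⟩ := ho
    obtain ⟨c', hc', h1, h2⟩ := flipset hΦ hD k ((Mn u c).erase i0)
      (by rw [Finset.card_erase_of_mem h0]; omega) c hc.1
    refine ⟨c', ⟨hc', ?_⟩, h1⟩
    intro i
    rw [h2]
    by_cases hi0 : i = i0
    · subst hi0
      simp only [Finset.mem_erase, ne_eq, not_true_eq_false, false_and, if_false, if_true]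
      rw [mem_Mn.1 h0]
      ring
    · by_cases hi : i ∈ Mn u c
      · rw [if_pos (Finset.mem_erase.2 ⟨hi0, hi⟩), mem_Mn.1 hi]
        simp only [hi0, if_false]
        ring
      · rw [if_neg (fun h => hi (Finset.mem_erase.1 h).2), hcoord i hi]
        simp only [hi0, if_false]
        ring
  · obtain ⟨k, hk⟩ := ho
    obtain ⟨c', hc', h1, h2⟩ := flipset hΦ hD (k + 1) (insert i0 (Mn u c))
      (by rw [Finset.card_insert_of_notMem h0]; omega) c hc.1
    refine ⟨c', ⟨hc', ?_⟩, h1⟩
    intro i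
    rw [h2]
    by_cases hi0 : i = i0
    · subst hi0
      rw [if_pos (Finset.mem_insert_self _ _), hcoord i h0]
      simp only [if_true]
      ring
    · by_cases hi : i ∈ Mn u c
      · rw [if_pos (Finset.mem_insert_of_mem hi), mem_Mn.1 hi]
        simp only [hi0, if_false]
        ring
      · rw [if_neg (fun h => (Finset.mem_insert.1 h).elim hi0 hi), hcoord i hi]
        simp only [hi0, if_false]
        ring

theorem Sp.neg (hΦ : IsRS Φ) {c : E d} (hc : Sp Φ u c) : Sp Φ u (-c) := by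
  refine ⟨hΦ.neg_mem hc.1, hc.2.1, fun i => ?_⟩
  rw [inner_neg_left]
  rcases hc.2.2 i with h | h
  · right; rw [h]
  · left; rw [h, neg_neg]

theorem card_Mn_neg {c : E d} (hc : Sp Φ u c) : (Mn u (-c)).card + (Mn u c).card = n := by
  have h1 : Mn u (-c) = (Mn u c)ᶜ := by
    ext i
    simp only [Mn, Finset.mem_filter, Finset.mem_univ, true_and, Finset.mem_compl, inner_neg_left,
      neg_inj]
    have hk := kap_pos
    rcases hc.2.2 i with h | h
    · rw [h]
      constructor
      · intro _ h2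
        linarith
      · intro _
        rfl
    · rw [h]
      constructor
      · intro h2
        linarith
      · intro h2
        exact absurd rfl h2
  rw [h1, Finset.card_compl, Fintype.card_fin]
  have : (Mn u c).card ≤ n := by
    have := Finset.card_le_univ (Mn u c)
    rwa [Fintype.card_fin] at this
  omega

/-- the span of the normalised projections is small -/
theorem dimT (hΦ : IsRS Φ) (hSL : SL Φ) (hu : Orthonormal ℝ u) (hn : 5 ≤ n) {τ : Fin n → ℝ}
    (hτ : ∀ i, τ i * τ i = 1) (m : ℕ) (hm : (m : ℝ) * (1 - n / 8) ≤ ((m : ℝ) - 1) / 2)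
    (hm1 : 1 ≤ m) :
    Module.finrank ℝ (Submodule.span ℝ (P u '' {c | SpT Φ u τ c})) < m := by
  have hsum : ∀ c e, SpT Φ u τ c → SpT Φ u τ e → ⟪P u c, P u e⟫ = ⟪c, e⟫ - (n : ℝ) / 8 := by
    intro c e hc he
    rw [inner_P hu]
    congr 1
    have h1 : ∀ i ∈ (Finset.univ : Finset (Fin n)), ⟪c, u i⟫ * ⟪e, u i⟫ = (1 / 8 : ℝ) := by
      intro i _
      rw [hc.2 i, he.2 i]
      calc τ i * (1 / (2 * √2) : ℝ) * (τ i * (1 / (2 * √2) : ℝ))
          = (τ i * τ i) * ((1 / (2 * √2) : ℝ) * (1 / (2 * √2))) := by ring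
        _ = 1 / 8 := by rw [hτ, kap_sq]; ring
    rw [Finset.sum_congr rfl h1, Finset.sum_const, Finset.card_univ, Fintype.card_fin,
      nsmul_eq_mul]
    ring
  have hself : ∀ v ∈ P u '' {c | SpT Φ u τ c}, ⟪v, v⟫ = 1 - (n : ℝ) / 8 := by
    rintro _ ⟨c, hc, rfl⟩
    rw [hsum c c hc hc, hΦ.inner_self hc.1]
  have hne : ∀ v ∈ P u '' {c | SpT Φ u τ c}, ∀ w ∈ P u '' {c | SpT Φ u τ c}, v ≠ w →
      ⟪v, w⟫ = 1 / 2 - (n : ℝ) / 8 := by
    intro v hv w hw hvw
    have h1 := hself v hv
    have h2 := hself w hw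
    have h3 : (0 : ℝ) ≤ ⟪v + w, v + w⟫ := real_inner_self_nonneg
    rw [inner_add_left, inner_add_right, inner_add_right, h1, h2, real_inner_comm v w] at h3
    obtain ⟨c, hc, rfl⟩ := hv
    obtain ⟨e, he, rfl⟩ := hw
    have h4 := hsum c e hc he
    have hn' : (5 : ℝ) ≤ n := by exact_mod_cast hn
    have hce : c ≠ e := fun h => hvw (by rw [h])
    rcases hSL c hc.1 e he.1 with h | h | h | h | h
    · rw [h] at h4
      rw [h4] at h3
      linarith
    · rw [h4, h]
    · rw [h] at h4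
      rw [h4] at h3
      linarith
    · exact absurd h hce
    · have h5 : ⟪c, e⟫ = (-1 : ℝ) := by
        rw [h, inner_neg_left, hΦ.inner_self he.1]
      rw [h5] at h4
      rw [h4] at h3
      linarith
  have hfin : (P u '' {c | SpT Φ u τ c}).Finite :=
    (hΦ.fin.subset (fun c hc => hc.1)).image _
  by_contra hcon
  rw [not_lt] at hcon
  obtain ⟨B, hBV, hBspan, hBli⟩ := exists_linearIndependent ℝ (P u '' {c | SpT Φ u τ c})
  have hBfin : B.Finite := hfin.subset hBV
  have : Fintype B := hBfin.fintype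
  have hcardB : Module.finrank ℝ (Submodule.span ℝ B) = Fintype.card B := by
    rw [finrank_span_set_eq_card hBli, Set.toFinset_card]
  rw [← hBspan, hcardB] at hcon
  obtain ⟨s, -, hs⟩ := Finset.exists_subset_card_eq
    (show m ≤ (Finset.univ : Finset B).card by rwa [Finset.card_univ])
  have hin : ∀ v w : B, ⟪(v : E d), (w : E d)⟫
      = (1 / 2 - (n : ℝ) / 8) + (if v = w then (1 / 2 : ℝ) else 0) := by
    intro v w
    by_cases hvw : v = w
    · subst hvw
      rw [if_pos rfl, hself _ (hBV v.2)]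
      ring
    · rw [if_neg hvw, hne _ (hBV v.2) _ (hBV w.2) (fun h => hvw (Subtype.ext h))]
      ring
  have hnorm : ⟪∑ v ∈ s, (v : E d), ∑ w ∈ s, (w : E d)⟫
      = (m : ℝ) * ((m : ℝ) * (1 / 2 - (n : ℝ) / 8) + 1 / 2) := by
    rw [sum_inner]
    have h1 : ∀ v ∈ s, ⟪(v : E d), ∑ w ∈ s, (w : E d)⟫
        = (m : ℝ) * (1 / 2 - (n : ℝ) / 8) + 1 / 2 := by
      intro v hv
      rw [inner_sum, Finset.sum_congr rfl fun w _ => hin v w, Finset.sum_add_distrib,
        Finset.sum_const, hs, nsmul_eq_mul, Finset.sum_ite_eq, if_pos hv]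
    rw [Finset.sum_congr rfl h1, Finset.sum_const, hs, nsmul_eq_mul]
  have hle : ⟪∑ v ∈ s, (v : E d), ∑ w ∈ s, (w : E d)⟫ ≤ (0 : ℝ) := by
    rw [hnorm]
    have : (0 : ℝ) ≤ m := Nat.cast_nonneg m
    have h2 : (m : ℝ) * (1 / 2 - (n : ℝ) / 8) + 1 / 2 ≤ 0 := by linarith
    nlinarith
  have hzero : ∑ v ∈ s, (v : E d) = 0 := by
    have h0 : (0 : ℝ) ≤ ⟪∑ v ∈ s, (v : E d), ∑ w ∈ s, (w : E d)⟫ := real_inner_self_nonneg
    exact inner_self_eq_zero.1 (le_antisymm hle h0)
  obtain ⟨v, hv⟩ := Finset.card_pos.1 (show 0 < s.card by omega)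
  have := linearIndependent_iff'.1 hBli s (fun _ => (1 : ℝ)) (by simpa using hzero) v hv
  exact one_ne_zero this

/-- the frame and the projections of the third kind span everything -/
theorem top (hΦ : IsRS Φ) (hirr : IrrRS Φ) (hspan : Submodule.span ℝ Φ = ⊤)
    (h4 : 4 ≤ n) (hD : DFr Φ n u)
    (htri : ∀ c ∈ Φ, (∃ i j, i ≠ j ∧ ∃ s t : ℤˣ, c = (1 / √2 : ℝ) • (sg s • u i + sg t • u j)) ∨
        (∀ i, ⟪c, u i⟫ = (0 : ℝ)) ∨ Sp Φ u c) :
    Submodule.span ℝ (Set.range u) ⊔ Submodule.span ℝ (P u '' {c | Sp Φ u c}) = ⊤ := by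
  set L := Submodule.span ℝ (Set.range u) ⊔ Submodule.span ℝ (P u '' {c | Sp Φ u c}) with hL
  have hu : ∀ i, u i ∈ L := fun i =>
    Submodule.mem_sup_left (Submodule.subset_span ⟨i, rfl⟩)
  have hW : ∀ c, Sp Φ u c → P u c ∈ L := fun c hc =>
    Submodule.mem_sup_right (Submodule.subset_span ⟨c, hc, rfl⟩)
  have hspL : ∀ c, Sp Φ u c → c ∈ L := by
    intro c hc
    rw [P_add_sum (u := u) c]
    exact L.add_mem (hW c hc) (L.sum_mem fun i _ => L.smul_mem _ (hu i))
  have hdich : ∀ a ∈ Φ, a ∈ L ∨ a ∈ Lᗮ := by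
    intro f hf
    rcases htri f hf with ⟨i, j, -, s, t, h⟩ | h | h
    · left
      rw [h]
      exact L.smul_mem _ (L.add_mem (L.smul_mem _ (hu i)) (L.smul_mem _ (hu j)))
    · by_cases hall : ∀ c, Sp Φ u c → ⟪f, c⟫ = (0 : ℝ)
      · right
        rw [Submodule.mem_orthogonal']
        intro x hx
        have hPf : ∀ c, ⟪f, P u c⟫ = ⟪f, c⟫ := by
          intro c
          rw [real_inner_comm, inner_P_left, real_inner_comm]
          simp [h]
        have hxx : L ≤ (Submodule.span ℝ {f})ᗮ := by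
          rw [hL, sup_le_iff]
          constructor
          · rw [Submodule.span_le]
            rintro _ ⟨i, rfl⟩
            rw [SetLike.mem_coe, Submodule.mem_orthogonal_singleton_iff_inner_right]
            exact h i
          · rw [Submodule.span_le]
            rintro _ ⟨c, hc, rfl⟩
            rw [SetLike.mem_coe, Submodule.mem_orthogonal_singleton_iff_inner_right, hPf]
            exact hall c hc
        exact Submodule.mem_orthogonal_singleton_iff_inner_right.1 (hxx hx)
      · left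
        simp only [not_forall] at hall
        obtain ⟨c, hc, hfc⟩ := hall
        have hsp : Sp Φ u (sref f c) := by
          refine ⟨hΦ.refl f hf c hc.1, hc.2.1, fun i => ?_⟩
          have : ⟪sref f c, u i⟫ = ⟪c, u i⟫ := by
            rw [sref, inner_sub_left, real_inner_smul_left, h i]
            ring
          rw [this]
          exact hc.2.2 i
        have h1 : (2 * ⟪f, c⟫) • f ∈ L := by
          have e : (2 * ⟪f, c⟫) • f = c - sref f c := by
            rw [sref]; abel
          rw [e]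
          exact L.sub_mem (hspL _ hc) (hspL _ hsp)
        have h2 : (2 * ⟪f, c⟫ : ℝ) ≠ 0 := mul_ne_zero two_ne_zero hfc
        exact (L.smul_mem_iff h2).1 h1
    · left
      exact hspL f h
  have hmem : ∀ a ∈ Φ, a ∈ L := by
    rcases hirr L hdich with h | h
    · exact h
    · exfalso
      have hne : (⟨0, by omega⟩ : Fin n) ≠ ⟨1, by omega⟩ := by
        intro h; simp [Fin.ext_iff] at h
      have ha := hD.2 _ _ hne 1 1
      have h1 := h _ ha
      have h2 : (1 / √2 : ℝ) • (sg 1 • u ⟨0, by omega⟩ + sg 1 • u ⟨1, by omega⟩) ∈ L :=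
        L.smul_mem _ (L.add_mem (L.smul_mem _ (hu _)) (L.smul_mem _ (hu _)))
      have h3 := Submodule.inner_right_of_mem_orthogonal h2 h1
      rw [hΦ.inner_self ha] at h3
      exact one_ne_zero h3
  rw [eq_top_iff, ← hspan, Submodule.span_le]
  exact hmem

end R3C

open R3C in
theorem rg3c : StmtRG3c := by
  intro d Φ hd hΦ hirr hspan hSL n u h4 hD htri0
  have htri : ∀ c ∈ Φ,
      (∃ i j, i ≠ j ∧ ∃ s t : ℤˣ, c = (1 / √2 : ℝ) • (sg s • u i + sg t • u j)) ∨
        (∀ i, ⟪c, u i⟫ = (0 : ℝ)) ∨ Sp Φ u c := by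
    intro c hc
    rcases htri0 c hc with h | h | h
    · exact Or.inl h
    · exact Or.inr (Or.inl h)
    · exact Or.inr (Or.inr ⟨hc, h.1, h.2⟩)
  have htop := top hΦ hirr hspan h4 hD htri
  have hS : Module.finrank ℝ (Submodule.span ℝ (Set.range u)) = n := by
    rw [finrank_span_eq_card hD.1.linearIndependent, Fintype.card_fin]
  have hdim : d ≤ n + Module.finrank ℝ (Submodule.span ℝ (P u '' {c | Sp Φ u c})) := by
    have h1 := Submodule.finrank_add_le_finrank_add_finrank (Submodule.span ℝ (Set.range u))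
      (Submodule.span ℝ (P u '' {c | Sp Φ u c}))
    rw [htop, hS, finrank_top, finrank_euclideanSpace_fin] at h1
    exact h1
  by_cases hex : ∃ c, Sp Φ u c
  · exfalso
    obtain ⟨c0, hc0⟩ := hex
    have hn5 : 5 ≤ n := hc0.2.1
    have hn8 : n ≤ 8 := by
      have h1 : (0 : ℝ) ≤ ⟪P u c0, P u c0⟫ := real_inner_self_nonneg
      rw [inner_P hD.1, hΦ.inner_self hc0.1] at h1
      have h2 : ∀ i ∈ (Finset.univ : Finset (Fin n)), ⟪c0, u i⟫ * ⟪c0, u i⟫ = (1 / 8 : ℝ) := by
        intro i _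
        rcases hc0.2.2 i with h | h
        · rw [h, kap_sq]
        · rw [h, neg_mul_neg, kap_sq]
      rw [Finset.sum_congr rfl h2, Finset.sum_const, Finset.card_univ, Fintype.card_fin,
        nsmul_eq_mul] at h1
      have h3 : (n : ℝ) ≤ 8 := by linarith
      exact_mod_cast h3
    have i0 : Fin n := ⟨0, by omega⟩
    set τ0 : Fin n → ℝ := fun _ => 1 with hτ0
    set τ1 : Fin n → ℝ := fun i => if i = i0 then -1 else 1 with hτ1
    have h0sq : ∀ i, τ0 i * τ0 i = 1 := fun i => by simp [hτ0]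
    have h1sq : ∀ i, τ1 i * τ1 i = 1 := fun i => by
      simp only [hτ1]
      split_ifs <;> norm_num
    -- even: two classes, odd: one class
    have heven : Submodule.span ℝ (P u '' {c | Sp Φ u c}) ≤
        Submodule.span ℝ (P u '' {c | SpT Φ u τ0 c}) ⊔
          Submodule.span ℝ (P u '' {c | SpT Φ u τ1 c}) := by
      rw [Submodule.span_le]
      rintro _ ⟨c, hc, rfl⟩
      rcases Nat.even_or_odd (Mn u c).card with h | h
      · obtain ⟨c', hc', e⟩ := norm_even hΦ hD hc h
        rw [← e]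
        exact Submodule.mem_sup_left (Submodule.subset_span ⟨c', hc', rfl⟩)
      · obtain ⟨c', hc', e⟩ := norm_odd hΦ hD i0 hc h
        rw [← e]
        exact Submodule.mem_sup_right (Submodule.subset_span ⟨c', hc', rfl⟩)
    have hodd : Odd n → Submodule.span ℝ (P u '' {c | Sp Φ u c}) ≤
        Submodule.span ℝ (P u '' {c | SpT Φ u τ0 c}) := by
      intro hodd
      rw [Submodule.span_le]
      rintro _ ⟨c, hc, rfl⟩
      rcases Nat.even_or_odd (Mn u c).card with h | h
      · obtain ⟨c', hc', e⟩ := norm_even hΦ hD hc h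
        rw [← e]
        exact Submodule.subset_span ⟨c', hc', rfl⟩
      · have h' : Even (Mn u (-c)).card := by
          have := card_Mn_neg hc
          rw [← this] at hodd
          rcases Nat.even_or_odd (Mn u (-c)).card with h2 | h2
          · exact h2
          · exact absurd (h2.add_odd h) (Nat.not_even_iff_odd.2 hodd)
        obtain ⟨c', hc', e⟩ := norm_even hΦ hD (hc.neg hΦ) h'
        have e2 : P u c = -P u c' := by rw [e, P_neg, neg_neg]
        rw [e2]
        exact Submodule.neg_mem _ (Submodule.subset_span ⟨c', hc', rfl⟩)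
    have hfr := Submodule.finrank_mono heven
    have hfr2 := Submodule.finrank_add_le_finrank_add_finrank
      (Submodule.span ℝ (P u '' {c | SpT Φ u τ0 c}))
      (Submodule.span ℝ (P u '' {c | SpT Φ u τ1 c}))
    have hn : n = 5 ∨ n = 6 ∨ n = 7 ∨ n = 8 := by omega
    rcases hn with h | h | h | h
    · have h1 := dimT hΦ hSL hD.1 hn5 h0sq 4 (by rw [h]; norm_num) (by norm_num)
      have h2 := Submodule.finrank_mono (hodd (by rw [h]; decide))
      omega
    · have h1 := dimT hΦ hSL hD.1 hn5 h0sq 2 (by rw [h]; norm_num) (by norm_num)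
      have h2 := dimT hΦ hSL hD.1 hn5 h1sq 2 (by rw [h]; norm_num) (by norm_num)
      omega
    · have h1 := dimT hΦ hSL hD.1 hn5 h0sq 2 (by rw [h]; norm_num) (by norm_num)
      have h2 := Submodule.finrank_mono (hodd (by rw [h]; decide))
      omega
    · have h1 := dimT hΦ hSL hD.1 hn5 h0sq 1 (by rw [h]; norm_num) (by norm_num)
      have h2 := dimT hΦ hSL hD.1 hn5 h1sq 1 (by rw [h]; norm_num) (by norm_num)
      omega
  · have hemp : {c | Sp Φ u c} = ∅ := by
      ext c
      simp only [Set.mem_ofPred_eq, Set.mem_empty_iff_false, iff_false]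
      exact fun h => hex ⟨c, h⟩
    rw [hemp, Set.image_empty, Submodule.span_empty, finrank_bot, add_zero] at hdim
    rw [hemp, Set.image_empty, Submodule.span_empty, sup_bot_eq] at htop
    have hnd : n ≤ d := by
      have := hD.1.linearIndependent.fintype_card_le_finrank
      rwa [Fintype.card_fin, finrank_euclideanSpace_fin] at this
    obtain rfl : n = d := le_antisymm hnd hdim
    refine ⟨OrthonormalBasis.mk hD.1 (le_of_eq htop.symm), ?_⟩
    intro a
    have hco : ∀ i, (OrthonormalBasis.mk hD.1 (le_of_eq htop.symm)) i = u i := by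
      intro i
      rw [OrthonormalBasis.coe_mk]
    constructor
    · intro ha
      rcases htri a ha with ⟨i, j, hij, s, t, h⟩ | h | h
      · exact ⟨i, j, hij, s, t, by rw [hco, hco, h]⟩
      · exfalso
        have h1 : Submodule.span ℝ (Set.range u) ≤ (Submodule.span ℝ {a})ᗮ := by
          rw [Submodule.span_le]
          rintro _ ⟨i, rfl⟩
          rw [SetLike.mem_coe, Submodule.mem_orthogonal_singleton_iff_inner_right]
          exact h i
        rw [htop] at h1
        have h2 := Submodule.mem_orthogonal_singleton_iff_inner_right.1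
          (h1 (Submodule.mem_top (x := a)))
        rw [hΦ.inner_self ha] at h2
        exact one_ne_zero h2
      · exact absurd ⟨a, h⟩ hex
    · rintro ⟨i, j, hij, s, t, h⟩
      rw [h, hco, hco]
      exact hD.2 i j hij s t

end

end FO2
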