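import Pool.Agent.FO2.Stmts
import Pool.Agent.Lib_helper64.FO.Ext

/-!
# Module RG2: maps of a simply laced root set that preserve the angles up to signs
-/

namespace FO2

open Lib_helper64.FO
open scoped RealInnerProductSpace

noncomputable section

namespace RG2

variable {d : ℕ} {Φ : Set (E d)}

theorem sref_half {b a : E d} (h : ⟪b, a⟫ = (1 / 2 : ℝ)) : sref b a = a - b := by
  rw [sref, h]
  norm_num

theorem eq_of_half {a b c : E d} (ha : ⟪a, a⟫ = (1 : ℝ)) (hb : ⟪b, b⟫ = (1 : ℝ))
    (hc : ⟪c, c⟫ = (1 : ℝ)) (hab : ⟪a, b⟫ = (1 / 2 : ℝ)) (hac : ⟪a, c⟫ = (1 / 2 : ℝ))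
    (hbc : ⟪b, c⟫ = (-1 / 2 : ℝ)) : c = a - b := by
  have h0 : ⟪a - b - c, a - b - c⟫ = (0 : ℝ) := by
    simp only [inner_sub_left, inner_sub_right]
    rw [real_inner_comm a b, real_inner_comm a c, real_inner_comm b c, ha, hb, hc, hab, hac, hbc]
    norm_num
  have h1 := inner_self_eq_zero.1 h0
  exact (sub_eq_zero.1 h1).symm

section
variable (hR : IsRS Φ) {ψ : E d → E d} (hψ : ∀ b ∈ Φ, ψ b ∈ Φ)
  (hi : ∀ b ∈ Φ, ∀ c ∈ Φ, |⟪ψ b, ψ c⟫| = |⟪b, c⟫|)
  (hs : ∀ b ∈ Φ, ∀ c ∈ Φ, ψ (sref b c) = sref (ψ b) (ψ c) ∨ ψ (sref b c) = -sref (ψ b) (ψ c))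

include hR hψ hs in
/-- `ψ (-b) = ± ψ b` -/
theorem psi_neg {b : E d} (hb : b ∈ Φ) : ψ (-b) = ψ b ∨ ψ (-b) = -ψ b := by
  have h := hs b hb b hb
  rw [sref_self (hR.norm b hb), sref_self (hR.norm _ (hψ b hb)), neg_neg] at h
  exact h.symm

open Classical in
/-- the sign of `ψ b` is chosen such that the inner product with `ψ a` is `1 / 2` -/
def hat (ψ : E d → E d) (a b : E d) : E d := if ⟪ψ a, ψ b⟫ = (1 / 2 : ℝ) then ψ b else -ψ b

theorem hat_pm (ψ : E d → E d) (a b : E d) : hat ψ a b = ψ b ∨ hat ψ a b = -ψ b := by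
  unfold hat
  split_ifs
  · exact Or.inl rfl
  · exact Or.inr rfl

include hi in
theorem hat_inner {a b : E d} (ha : a ∈ Φ) (hb : b ∈ Φ) (hab : ⟪a, b⟫ = (1 / 2 : ℝ)) :
    ⟪ψ a, hat ψ a b⟫ = (1 / 2 : ℝ) := by
  unfold hat
  split_ifs with h
  · exact h
  · have h1 := hi a ha b hb
    rw [hab, abs_of_pos (show (0 : ℝ) < 1 / 2 by norm_num)] at h1
    rcases (abs_eq (show (0 : ℝ) ≤ 1 / 2 by norm_num)).1 h1 with h2 | h2
    · exact absurd h2 h
    · rw [inner_neg_right, h2, neg_neg]

include hR hψ in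
theorem hat_mem {a b : E d} (hb : b ∈ Φ) : hat ψ a b ∈ Φ := by
  rcases hat_pm ψ a b with h | h
  · rw [h]; exact hψ b hb
  · rw [h]; exact hR.neg_mem (hψ b hb)

include hi in
theorem hat_abs {a b c : E d} (hb : b ∈ Φ) (hc : c ∈ Φ) :
    |⟪hat ψ a b, hat ψ a c⟫| = |⟪b, c⟫| := by
  rw [← hi b hb c hc]
  rcases hat_pm ψ a b with h | h <;> rcases hat_pm ψ a c with h' | h' <;> rw [h, h'] <;>
    simp only [inner_neg_left, inner_neg_right, abs_neg, neg_neg]

include hR in
theorem sub_mem {a b : E d} (ha : a ∈ Φ) (hb : b ∈ Φ) (hab : ⟪a, b⟫ = (1 / 2 : ℝ)) :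
    a - b ∈ Φ ∧ ⟪a, a - b⟫ = (1 / 2 : ℝ) := by
  constructor
  · rw [← sref_half (show ⟪b, a⟫ = (1 / 2 : ℝ) by rw [real_inner_comm]; exact hab)]
    exact hR.refl b hb a ha
  · rw [inner_sub_right, hR.inner_self ha, hab]
    norm_num

include hR hψ hi hs in
theorem hat_sub {a b : E d} (ha : a ∈ Φ) (hb : b ∈ Φ) (hab : ⟪a, b⟫ = (1 / 2 : ℝ)) :
    hat ψ a (a - b) = ψ a - hat ψ a b := by
  have hba : ⟪b, a⟫ = (1 / 2 : ℝ) := by rw [real_inner_comm]; exact hab
  obtain ⟨hm, hai⟩ := sub_mem hR ha hb hab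
  have h1 : sref (ψ b) (ψ a) = ψ a - hat ψ a b := by
    have h2 : sref (ψ b) (ψ a) = sref (hat ψ a b) (ψ a) := by
      rcases hat_pm ψ a b with h | h
      · rw [h]
      · rw [h, sref_neg]
    rw [h2]
    apply sref_half
    rw [real_inner_comm]
    exact hat_inner hi ha hb hab
  have h3 : ψ (a - b) = ψ a - hat ψ a b ∨ ψ (a - b) = -(ψ a - hat ψ a b) := by
    have h4 := hs b hb a ha
    rwa [h1, sref_half hba] at h4
  have h5 : hat ψ a (a - b) = ψ a - hat ψ a b ∨ hat ψ a (a - b) = -(ψ a - hat ψ a b) := by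
    rcases hat_pm ψ a (a - b) with h | h <;> rcases h3 with h' | h' <;> rw [h, h']
    · exact Or.inl rfl
    · exact Or.inr rfl
    · exact Or.inr rfl
    · exact Or.inl (neg_neg _)
  rcases h5 with h | h
  · exact h
  · exfalso
    have h6 := hat_inner hi ha hm hai
    rw [h, inner_neg_right, inner_sub_right, hR.inner_self (hψ a ha), hat_inner hi ha hb hab] at h6
    norm_num at h6

include hR hψ hi hs in
theorem gram (hSL : SL Φ) {a b c : E d} (ha : a ∈ Φ) (hb : b ∈ Φ)
    (hab : ⟪a, b⟫ = (1 / 2 : ℝ)) (hc : c ∈ Φ) (hac : ⟪a, c⟫ = (1 / 2 : ℝ)) :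
    ⟪b, c⟫ = ⟪hat ψ a b, hat ψ a c⟫ := by
  have habs := hat_abs (a := a) hi hb hc
  have ib := hat_inner hi ha hb hab
  have ic := hat_inner hi ha hc hac
  have sa := hR.inner_self (hψ a ha)
  have sb := hR.inner_self (hat_mem (a := a) hR hψ hb)
  have sc := hR.inner_self (hat_mem (a := a) hR hψ hc)
  rcases hSL b hb c hc with h | h | h | h | h
  · rw [h, abs_zero, abs_eq_zero] at habs
    rw [h, habs]
  · rw [h, abs_of_pos (show (0 : ℝ) < 1 / 2 by norm_num)] at habs
    rcases (abs_eq (show (0 : ℝ) ≤ 1 / 2 by norm_num)).1 habs with h2 | h2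
    · rw [h, h2]
    · exfalso
      have h3 : hat ψ a c = ψ a - hat ψ a b :=
        eq_of_half sa sb sc ib ic (by rw [h2]; norm_num)
      obtain ⟨hm, -⟩ := sub_mem hR ha hb hab
      have h4 := hat_abs (a := a) hi hc hm
      rw [hat_sub hR hψ hi hs ha hb hab, ← h3, sc, inner_sub_right, real_inner_comm a c, hac,
        real_inner_comm b c, h] at h4
      norm_num at h4
  · have h3 : c = a - b :=
      eq_of_half (hR.inner_self ha) (hR.inner_self hb) (hR.inner_self hc) hab hac h
    rw [h]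
    conv_rhs => rw [h3, hat_sub hR hψ hi hs ha hb hab]
    rw [inner_sub_right, sb, real_inner_comm, ib]
    norm_num
  · subst h
    rw [hR.inner_self hb, sb]
  · exfalso
    rw [h, inner_neg_right, hac] at hab
    norm_num at hab

end

end RG2

open RG2 in
theorem rg2 : StmtRG2 := by
  classical
  intro d Φ hR hIrr hspan hSL ψ hψ hi hs
  obtain ⟨a, ha⟩ := hR.ne
  have haa := hR.inner_self ha
  -- classification of the elements of `Φ` with respect to `a`
  have hcl : ∀ c ∈ Φ, ⟪a, c⟫ ≠ (0 : ℝ) → (c = a ∨ c = -a) ∨ ⟪a, c⟫ = (1 / 2 : ℝ) ∨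
      ⟪a, -c⟫ = (1 / 2 : ℝ) := by
    intro c hc h0
    rcases hSL a ha c hc with h | h | h | h | h
    · exact absurd h h0
    · exact Or.inr (Or.inl h)
    · right; right
      rw [inner_neg_right, h]
      norm_num
    · exact Or.inl (Or.inl h.symm)
    · left; right
      rw [h, neg_neg]
  by_cases hN : ∃ b ∈ Φ, ⟪a, b⟫ = (1 / 2 : ℝ)
  · obtain ⟨b₀, hb₀, hab₀⟩ := hN
    set N : Set (E d) := {b | b ∈ Φ ∧ ⟪a, b⟫ = (1 / 2 : ℝ)} with hNdef
    have hNfin : N.Finite := hR.fin.subset fun b hb => hb.1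
    let _ : Fintype N := hNfin.fintype
    obtain ⟨g, hg⟩ := exists_linearIsometry (fun b : N => (b : E d)) (fun b : N => hat ψ a b)
      (fun b c => gram hR hψ hi hs hSL ha b.2.1 b.2.2 c.2.1 c.2.2)
    have hg' : ∀ b ∈ Φ, ⟪a, b⟫ = (1 / 2 : ℝ) → g b = hat ψ a b := fun b hb hab => hg ⟨b, hb, hab⟩
    have hga : g a = ψ a := by
      obtain ⟨hm, hai⟩ := sub_mem hR ha hb₀ hab₀
      have h1 := hg' b₀ hb₀ hab₀
      have h2 := hg' (a - b₀) hm hai
      rw [hat_sub hR hψ hi hs ha hb₀ hab₀] at h2
      have h3 : a = b₀ + (a - b₀) := by abel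
      rw [h3, map_add, h1, h2, ← h3]
      abel
    -- the span of `N`
    have hL : ∀ c ∈ Φ, ⟪a, c⟫ ≠ (0 : ℝ) → c ∈ Submodule.span ℝ N := by
      have haL : a ∈ Submodule.span ℝ N := by
        obtain ⟨hm, hai⟩ := sub_mem hR ha hb₀ hab₀
        have h3 : a = b₀ + (a - b₀) := by abel
        rw [h3]
        exact add_mem (Submodule.subset_span ⟨hb₀, hab₀⟩) (Submodule.subset_span ⟨hm, hai⟩)
      intro c hc h0
      rcases hcl c hc h0 with (h | h) | h | h
      · rw [h]; exact haL
      · rw [h]; exact neg_mem haL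
      · exact Submodule.subset_span ⟨hc, h⟩
      · have h4 : -c ∈ Submodule.span ℝ N := Submodule.subset_span ⟨hR.neg_mem hc, h⟩
        have h5 := (Submodule.span ℝ N).neg_mem h4
        rwa [neg_neg] at h5
    have hmove : ∀ c ∈ Φ, ⟪a, c⟫ = (0 : ℝ) → ∀ b ∈ N, ⟪b, c⟫ ≠ (0 : ℝ) →
        ⟪a, sref b c⟫ ≠ (0 : ℝ) := by
      intro c _ hac b hb hbc
      rw [sref, inner_sub_right, inner_smul_right, hac, hb.2]
      intro h
      apply hbc
      linarith
    have hNspan : Submodule.span ℝ N = ⊤ := by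
      have h1 : ∀ c ∈ Φ, c ∈ Submodule.span ℝ N ∨ c ∈ (Submodule.span ℝ N)ᗮ := by
        intro c hc
        by_cases h0 : ⟪a, c⟫ = (0 : ℝ)
        · by_cases h2 : ∃ b ∈ N, ⟪b, c⟫ ≠ (0 : ℝ)
          · left
            obtain ⟨b, hb, hbc⟩ := h2
            have h3 := hL _ (hR.refl b hb.1 c hc) (hmove c hc h0 b hb hbc)
            have h4 : c = sref b c + (2 * ⟪b, c⟫) • b := by
              rw [sref]
              abel
            rw [h4]
            exact add_mem h3 (Submodule.smul_mem _ _ (Submodule.subset_span hb))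
          · right
            push Not at h2
            rw [Submodule.mem_orthogonal]
            intro u hu
            induction hu using Submodule.span_induction with
            | mem x hx => exact h2 x hx
            | zero => exact inner_zero_left _
            | add x y _ _ hx hy => rw [inner_add_left, hx, hy, add_zero]
            | smul t x _ hx => rw [inner_smul_left, hx, mul_zero]
        · exact Or.inl (hL c hc h0)
      rcases hIrr _ h1 with h2 | h2
      · rw [eq_top_iff, ← hspan, Submodule.span_le]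
        exact h2
      · exfalso
        have h3 := h2 a ha
        have h4 := hL a ha (by rw [haa]; exact one_ne_zero)
        have h5 := (Submodule.mem_orthogonal _ _).1 h3 a h4
        rw [haa] at h5
        exact one_ne_zero h5
    have hfar : ∀ c ∈ Φ, ⟪a, c⟫ ≠ (0 : ℝ) → g c = ψ c ∨ g c = -ψ c := by
      intro c hc h0
      rcases hcl c hc h0 with (h | h) | h | h
      · rw [h]; exact Or.inl hga
      · rw [h, map_neg, hga]
        rcases psi_neg hR hψ hs ha with h' | h'
        · right; rw [h']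
        · left; rw [h']
      · rw [hg' c hc h]
        exact hat_pm ψ a c
      · have h1 := hg' (-c) (hR.neg_mem hc) h
        rw [map_neg] at h1
        have h2 : g c = -hat ψ a (-c) := by rw [← h1, neg_neg]
        rw [h2]
        rcases hat_pm ψ a (-c) with h3 | h3 <;> rcases psi_neg hR hψ hs hc with h4 | h4 <;>
          rw [h3, h4]
        · exact Or.inr rfl
        · exact Or.inl (neg_neg _)
        · exact Or.inl (neg_neg _)
        · right; rw [neg_neg]
    refine ⟨g, fun c hc => ?_⟩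
    by_cases h0 : ⟪a, c⟫ = (0 : ℝ)
    · have h2 : ∃ b ∈ N, ⟪b, c⟫ ≠ (0 : ℝ) := by
        by_contra h2
        push Not at h2
        have h3 : c ∈ (Submodule.span ℝ N)ᗮ := by
          rw [Submodule.mem_orthogonal]
          intro u hu
          induction hu using Submodule.span_induction with
          | mem x hx => exact h2 x hx
          | zero => exact inner_zero_left _
          | add x y _ _ hx hy => rw [inner_add_left, hx, hy, add_zero]
          | smul t x _ hx => rw [inner_smul_left, hx, mul_zero]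
        rw [hNspan, Submodule.top_orthogonal_eq_bot, Submodule.mem_bot] at h3
        have h4 := hR.inner_self hc
        rw [h3, inner_zero_left] at h4
        exact zero_ne_one h4
      obtain ⟨b, hb, hbc⟩ := h2
      have h3 := hfar _ (hR.refl b hb.1 c hc) (hmove c hc h0 b hb hbc)
      have h4 : g (sref b c) = sref (ψ b) (g c) := by
        rw [map_sref, hg' b hb.1 hb.2]
        rcases hat_pm ψ a b with h | h
        · rw [h]
        · rw [h, sref_neg]
      have h5 : sref (ψ b) (g c) = sref (ψ b) (ψ c) ∨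
          sref (ψ b) (g c) = -sref (ψ b) (ψ c) := by
        rw [h4] at h3
        rcases hs b hb.1 c hc with h | h <;> rw [h] at h3
        · exact h3
        · rw [neg_neg] at h3
          exact h3.symm
      have hn := hR.norm _ (hψ b hb.1)
      rcases h5 with h | h
      · left
        have := congrArg (sref (ψ b)) h
        rwa [sref_sref hn, sref_sref hn] at this
      · right
        have := congrArg (sref (ψ b)) h
        rwa [sref_neg_right, sref_sref hn, sref_sref hn] at this
    · exact hfar c hc h0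
  · -- no elements at the angle of 60 degrees
    push Not at hN
    have h1 : ∀ c ∈ Φ, ⟪a, c⟫ = (0 : ℝ) ∨ c = a ∨ c = -a := by
      intro c hc
      by_cases h0 : ⟪a, c⟫ = (0 : ℝ)
      · exact Or.inl h0
      · rcases hcl c hc h0 with h | h | h
        · exact Or.inr h
        · exact absurd h (hN c hc)
        · exact absurd h (hN _ (hR.neg_mem hc))
    have h2 : ∀ c ∈ Φ, c ∈ Submodule.span ℝ {a} ∨ c ∈ (Submodule.span ℝ {a})ᗮ := by
      intro c hc
      rcases h1 c hc with h | h | h
      · right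
        rw [Submodule.mem_orthogonal_singleton_iff_inner_right]
        exact h
      · left; rw [h]; exact Submodule.mem_span_singleton_self a
      · left; rw [h]; exact neg_mem (Submodule.mem_span_singleton_self a)
    have h3 : ∀ c ∈ Φ, c = a ∨ c = -a := by
      rcases hIrr _ h2 with h | h
      · intro c hc
        rcases h1 c hc with h4 | h4
        · exfalso
          obtain ⟨t, ht⟩ := Submodule.mem_span_singleton.1 (h c hc)
          rw [← ht, inner_smul_right, haa, mul_one] at h4
          rw [h4, zero_smul] at ht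
          have h5 := hR.inner_self hc
          rw [← ht, inner_zero_left] at h5
          exact zero_ne_one h5
        · exact h4
      · exfalso
        have h4 := (Submodule.mem_orthogonal _ _).1 (h a ha) a (Submodule.mem_span_singleton_self a)
        rw [haa] at h4
        exact one_ne_zero h4
    refine ⟨LinearIsometryEquiv.refl ℝ (E d), fun b hb => ?_⟩
    change b = ψ b ∨ b = -ψ b
    rcases h3 b hb with h | h <;> rcases h3 _ (hψ b hb) with h' | h' <;> rw [h']
    · exact Or.inl h
    · right; rw [neg_neg]; exact h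
    · right; exact h
    · exact Or.inl h

end

end FO2
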