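import Pool.Agent.FO2.Stmts

/-!
# Two-orbit realizations, module RGA: no small angles in an irreducible root set of rank `≥ 3`
-/

namespace FO2

open Lib_helper64.FO
open scoped RealInnerProductSpace

namespace RGA

variable {d : ℕ}

theorem self_one {a : E d} (h : ‖a‖ = 1) : ⟪a, a⟫ = (1 : ℝ) := by
  rw [real_inner_self_eq_norm_sq, h]; norm_num

theorem norm_one_of {a : E d} (h : ⟪a, a⟫ = (1 : ℝ)) : ‖a‖ = 1 := by
  rw [real_inner_self_eq_norm_sq] at h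
  exact (pow_eq_one_iff_of_nonneg (norm_nonneg a) two_ne_zero).1 h

/-- The plane spanned by two vectors. -/
def pl (a b : E d) : Submodule ℝ (E d) := Submodule.span ℝ {a, b}

theorem mem_pl {a b x : E d} : x ∈ pl a b ↔ ∃ s t : ℝ, s • a + t • b = x :=
  Submodule.mem_span_pair

theorem left_mem (a b : E d) : a ∈ pl a b := Submodule.subset_span (by simp)

theorem right_mem (a b : E d) : b ∈ pl a b := Submodule.subset_span (by simp)

theorem finrank_pl_le (a b : E d) : Module.finrank ℝ (pl a b) ≤ 2 := by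
  classical
  have h := finrank_span_finset_le_card (R := ℝ) ({a, b} : Finset (E d))
  have e : ((({a, b} : Finset (E d)) : Set (E d))) = {a, b} := by simp
  have h1 : Module.finrank ℝ (pl a b) ≤ ({a, b} : Finset (E d)).card := by
    have : (pl a b) = Submodule.span ℝ (({a, b} : Finset (E d)) : Set (E d)) := by rw [e]; rfl
    rw [this]
    exact h
  exact h1.trans Finset.card_le_two

/-- In a three-dimensional space `W`, the vectors `p`, `a`, `b` with `p ⟂ a, b` span `W`. -/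
theorem decomp {W : Submodule ℝ (E d)} (hW : Module.finrank ℝ W = 3) {p a b : E d}
    (hpW : p ∈ W) (haW : a ∈ W) (hbW : b ∈ W) (hp : ‖p‖ = 1) (ha : ‖a‖ = 1) (hb : ‖b‖ = 1)
    (hab : ⟪a, b⟫ ^ 2 < (1 : ℝ)) (hap : ⟪a, p⟫ = (0 : ℝ)) (hbp : ⟪b, p⟫ = (0 : ℝ))
    {q : E d} (hq : q ∈ W) : ∃ x y : ℝ, q = (⟪p, q⟫ : ℝ) • p + x • a + y • b := by
  have hpp := self_one hp
  have haa := self_one ha
  have hbb := self_one hb
  have hpa : ⟪p, a⟫ = (0 : ℝ) := by rw [real_inner_comm]; exact hap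
  have hpb : ⟪p, b⟫ = (0 : ℝ) := by rw [real_inner_comm]; exact hbp
  have hba : ⟪b, a⟫ = (⟪a, b⟫ : ℝ) := real_inner_comm _ _
  have hind : LinearIndependent ℝ ![p, a, b] := by
    rw [Fintype.linearIndependent_iff]
    intro g hg
    rw [Fin.sum_univ_three] at hg
    have hg' : g 0 • p + g 1 • a + g 2 • b = 0 := hg
    have e0 : g 0 = 0 := by
      have := congrArg (fun v => (⟪p, v⟫ : ℝ)) hg'
      simpa [inner_add_right, inner_smul_right, hp, hpa, hpb] using this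
    have e1 : g 1 + g 2 * ⟪a, b⟫ = 0 := by
      have := congrArg (fun v => (⟪a, v⟫ : ℝ)) hg'
      simpa [inner_add_right, inner_smul_right, ha, hap] using this
    have e2 : g 1 * ⟪a, b⟫ + g 2 = 0 := by
      have := congrArg (fun v => (⟪b, v⟫ : ℝ)) hg'
      simpa [inner_add_right, inner_smul_right, hb, hbp, hba] using this
    have e3 : g 2 * (1 - ⟪a, b⟫ ^ 2) = 0 := by linear_combination e2 - ⟪a, b⟫ * e1
    have e4 : g 2 = 0 := by
      rcases mul_eq_zero.1 e3 with h | h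
      · exact h
      · exfalso; linarith
    have e5 : g 1 = 0 := by rw [e4] at e1; linarith
    intro i
    fin_cases i
    · exact e0
    · exact e5
    · exact e4
  have hle : Submodule.span ℝ (Set.range ![p, a, b]) ≤ W := by
    rw [Submodule.span_le]
    rintro _ ⟨i, rfl⟩
    fin_cases i
    · exact hpW
    · exact haW
    · exact hbW
  have heq : Submodule.span ℝ (Set.range ![p, a, b]) = W := by
    apply Submodule.eq_of_le_of_finrank_eq hle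
    rw [finrank_span_eq_card hind, hW]
    rfl
  rw [← heq] at hq
  rw [Submodule.mem_span_range_iff_exists_fun] at hq
  obtain ⟨g, hg⟩ := hq
  rw [Fin.sum_univ_three] at hg
  have hg' : g 0 • p + g 1 • a + g 2 • b = q := hg
  refine ⟨g 1, g 2, ?_⟩
  have e0 : (⟪p, q⟫ : ℝ) = g 0 := by
    rw [← hg']
    simp [inner_add_right, inner_smul_right, hp, hpa, hpb]
  rw [e0, hg']

/-- A unit vector of `W` orthogonal to `a`, `b`. -/
theorem exists_perp {W : Submodule ℝ (E d)} (hW : Module.finrank ℝ W = 3) {a b : E d}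
    (haW : a ∈ W) (hbW : b ∈ W) (ha : ‖a‖ = 1) (hb : ‖b‖ = 1) (hab : ⟪a, b⟫ ^ 2 < (1 : ℝ)) :
    ∃ p ∈ W, ‖p‖ = 1 ∧ ⟪a, p⟫ = (0 : ℝ) ∧ ⟪b, p⟫ = (0 : ℝ) := by
  obtain ⟨w, hwW, hw⟩ : ∃ w ∈ W, w ∉ pl a b := by
    by_contra hcon
    push Not at hcon
    have h1 : Module.finrank ℝ W ≤ Module.finrank ℝ (pl a b) :=
      Submodule.finrank_mono fun x hx => hcon x hx
    have := finrank_pl_le a b
    omega
  have haa := self_one ha
  have hbb := self_one hb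
  have hba : ⟪b, a⟫ = (⟪a, b⟫ : ℝ) := real_inner_comm _ _
  have hD : (1 : ℝ) - ⟪a, b⟫ ^ 2 ≠ 0 := by linarith
  set t : ℝ := ⟪a, b⟫ with ht
  set α : ℝ := (⟪a, w⟫ - t * ⟪b, w⟫) / (1 - t ^ 2) with hα
  set β : ℝ := (⟪b, w⟫ - t * ⟪a, w⟫) / (1 - t ^ 2) with hβ
  set u : E d := w - (α • a + β • b) with hu
  have hu0 : u ≠ 0 := by
    intro h
    apply hw
    rw [mem_pl]
    exact ⟨α, β, (sub_eq_zero.1 h).symm⟩
  have hn : ‖u‖ ≠ 0 := norm_ne_zero_iff.2 hu0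
  have hau : ⟪a, u⟫ = (0 : ℝ) := by
    rw [hu, inner_sub_right, inner_add_right, inner_smul_right, inner_smul_right, haa, ← ht, hα, hβ]
    field_simp
    ring
  have hbu : ⟪b, u⟫ = (0 : ℝ) := by
    rw [hu, inner_sub_right, inner_add_right, inner_smul_right, inner_smul_right, hbb, hba, hα, hβ]
    field_simp
    ring
  refine ⟨‖u‖⁻¹ • u, W.smul_mem _ (W.sub_mem hwW (W.add_mem (W.smul_mem _ haW)
    (W.smul_mem _ hbW))), ?_, ?_, ?_⟩
  · rw [norm_smul, norm_inv, norm_norm, inv_mul_cancel₀ hn]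
  · rw [inner_smul_right, hau, mul_zero]
  · rw [inner_smul_right, hbu, mul_zero]

/-- Uniqueness up to sign. -/
theorem perp_unique {W : Submodule ℝ (E d)} (hW : Module.finrank ℝ W = 3) {p a b : E d}
    (hpW : p ∈ W) (haW : a ∈ W) (hbW : b ∈ W) (hp : ‖p‖ = 1) (ha : ‖a‖ = 1) (hb : ‖b‖ = 1)
    (hab : ⟪a, b⟫ ^ 2 < (1 : ℝ)) (hap : ⟪a, p⟫ = (0 : ℝ)) (hbp : ⟪b, p⟫ = (0 : ℝ))
    {q : E d} (hq : q ∈ W) (hq1 : ‖q‖ = 1) (haq : ⟪a, q⟫ = (0 : ℝ)) (hbq : ⟪b, q⟫ = (0 : ℝ)) :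
    q = p ∨ q = -p := by
  obtain ⟨x, y, hxy⟩ := decomp hW hpW haW hbW hp ha hb hab hap hbp hq
  have h1 : (⟪q, q⟫ : ℝ) = ⟪p, q⟫ ^ 2 := by
    have h2 : (⟪q, q⟫ : ℝ) = ⟪(⟪p, q⟫ : ℝ) • p + x • a + y • b, q⟫ := congrArg (fun v => ⟪v, q⟫) hxy
    rw [h2, inner_add_left, inner_add_left, inner_smul_left, inner_smul_left, inner_smul_left, haq,
      hbq]
    simp
    ring
  rw [self_one hq1] at h1
  have h3 : ⟪q - (⟪p, q⟫ : ℝ) • p, q - (⟪p, q⟫ : ℝ) • p⟫ = (0 : ℝ) := by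
    rw [inner_sub_left, inner_sub_right, inner_sub_right, inner_smul_left, inner_smul_right,
      inner_smul_right, inner_smul_left, self_one hq1, self_one hp, real_inner_comm p q]
    simp
    nlinarith
  have h4 : q = (⟪p, q⟫ : ℝ) • p := sub_eq_zero.1 (inner_self_eq_zero.1 h3)
  have h5 : (⟪p, q⟫ : ℝ) = 1 ∨ (⟪p, q⟫ : ℝ) = -1 := by
    rcases mul_eq_zero.1 (show ((⟪p, q⟫ : ℝ) - 1) * (⟪p, q⟫ + 1) = 0 by linear_combination -h1) with h | h
    · left; linarith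
    · right; linarith
  rcases h5 with h | h
  · left; rw [h4, h, one_smul]
  · right; rw [h4, h, neg_smul, one_smul]

/-- The axes: unit vectors of `W` orthogonal to a pair of roots in `W` with inner product `t`. -/
def Ax (Φ : Set (E d)) (W : Submodule ℝ (E d)) (t : ℝ) : Set (E d) :=
  {q | q ∈ W ∧ ‖q‖ = 1 ∧ ∃ a ∈ Φ, ∃ b ∈ Φ, a ∈ W ∧ b ∈ W ∧ ⟪a, b⟫ = t ∧ ⟪a, q⟫ = (0 : ℝ) ∧
    ⟪b, q⟫ = (0 : ℝ)}

theorem finite_Ax {Φ : Set (E d)} (h : IsRS Φ) {W : Submodule ℝ (E d)}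
    (hW : Module.finrank ℝ W = 3) {t : ℝ} (ht : t ^ 2 < 1) : (Ax Φ W t).Finite := by
  have hfin : ∀ a ∈ Φ, ∀ b ∈ Φ, {q : E d | q ∈ W ∧ ‖q‖ = 1 ∧ a ∈ W ∧ b ∈ W ∧ ⟪a, b⟫ = t ∧
      ⟪a, q⟫ = (0 : ℝ) ∧ ⟪b, q⟫ = (0 : ℝ)}.Finite := by
    intro a ha b hb
    rcases Set.eq_empty_or_nonempty {q : E d | q ∈ W ∧ ‖q‖ = 1 ∧ a ∈ W ∧ b ∈ W ∧ ⟪a, b⟫ = t ∧
      ⟪a, q⟫ = (0 : ℝ) ∧ ⟪b, q⟫ = (0 : ℝ)} with h0 | ⟨p, hpW, hp, haW, hbW, hab, hap, hbp⟩
    · rw [h0]; exact Set.finite_empty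
    · refine Set.Finite.subset (Set.toFinite {p, -p}) ?_
      rintro q ⟨hqW, hq, -, -, -, haq, hbq⟩
      exact perp_unique hW hpW haW hbW hp (h.norm a ha) (h.norm b hb) (by rw [hab]; exact ht)
        hap hbp hqW hq haq hbq
  refine (h.fin.biUnion fun a ha => h.fin.biUnion fun b hb => hfin a ha b hb).subset ?_
  rintro q ⟨hqW, hq, a, ha, b, hb, haW, hbW, hab, haq, hbq⟩
  simp only [Set.mem_iUnion]
  exact ⟨a, ha, b, hb, hqW, hq, haW, hbW, hab, haq, hbq⟩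

theorem sref_mem {W : Submodule ℝ (E d)} {c q : E d} (hc : c ∈ W) (hq : q ∈ W) : sref c q ∈ W :=
  W.sub_mem hq (W.smul_mem _ hc)

theorem Ax_sref {Φ : Set (E d)} (h : IsRS Φ) {W : Submodule ℝ (E d)} {t : ℝ} {c q : E d}
    (hc : c ∈ Φ) (hcW : c ∈ W) (hq : q ∈ Ax Φ W t) : sref c q ∈ Ax Φ W t := by
  obtain ⟨hqW, hq1, a, ha, b, hb, haW, hbW, hab, haq, hbq⟩ := hq
  have hc1 := h.norm c hc
  refine ⟨sref_mem hcW hqW, norm_one_of ?_, sref c a, h.refl c hc a ha, sref c b,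
    h.refl c hc b hb, sref_mem hcW haW, sref_mem hcW hbW, ?_, ?_, ?_⟩
  · rw [inner_sref hc1]; exact self_one hq1
  · rw [inner_sref hc1]; exact hab
  · rw [inner_sref hc1]; exact haq
  · rw [inner_sref hc1]; exact hbq

/-- The angle of the rotation `s_b s_a`. -/
theorem rot {W : Submodule ℝ (E d)} (hW : Module.finrank ℝ W = 3) {p a b : E d}
    (hpW : p ∈ W) (haW : a ∈ W) (hbW : b ∈ W) (hp : ‖p‖ = 1) (ha : ‖a‖ = 1) (hb : ‖b‖ = 1)
    (hab : ⟪a, b⟫ ^ 2 < (1 : ℝ)) (hap : ⟪a, p⟫ = (0 : ℝ)) (hbp : ⟪b, p⟫ = (0 : ℝ))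
    {q : E d} (hq : q ∈ W) (hq1 : ‖q‖ = 1) :
    (⟪q, sref b (sref a q)⟫ : ℝ) = 1 - 2 * (1 - ⟪a, b⟫ ^ 2) * (1 - ⟪p, q⟫ ^ 2) := by
  obtain ⟨x, y, hxy⟩ := decomp hW hpW haW hbW hp ha hb hab hap hbp hq
  have hpp := self_one hp
  have haa := self_one ha
  have hbb := self_one hb
  have hqq := self_one hq1
  have hpa : ⟪p, a⟫ = (0 : ℝ) := by rw [real_inner_comm]; exact hap
  have hpb : ⟪p, b⟫ = (0 : ℝ) := by rw [real_inner_comm]; exact hbp
  have hba : ⟪b, a⟫ = (⟪a, b⟫ : ℝ) := real_inner_comm _ _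
  have e1 : (⟪a, q⟫ : ℝ) = x + y * ⟪a, b⟫ := by
    have h2 : (⟪a, q⟫ : ℝ) = ⟪a, (⟪p, q⟫ : ℝ) • p + x • a + y • b⟫ :=
      congrArg (fun v => ⟪a, v⟫) hxy
    rw [h2, inner_add_right, inner_add_right, inner_smul_right, inner_smul_right,
      inner_smul_right, hap, haa]
    ring
  have e2 : (⟪b, q⟫ : ℝ) = x * ⟪a, b⟫ + y := by
    have h2 : (⟪b, q⟫ : ℝ) = ⟪b, (⟪p, q⟫ : ℝ) • p + x • a + y • b⟫ :=
      congrArg (fun v => ⟪b, v⟫) hxy
    rw [h2, inner_add_right, inner_add_right, inner_smul_right, inner_smul_right,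
      inner_smul_right, hbp, hbb, hba]
    ring
  have e3 : (1 : ℝ) = ⟪p, q⟫ ^ 2 + x * ⟪a, q⟫ + y * ⟪b, q⟫ := by
    have h2 : (⟪q, q⟫ : ℝ) = ⟪(⟪p, q⟫ : ℝ) • p + x • a + y • b, q⟫ :=
      congrArg (fun v => ⟪v, q⟫) hxy
    rw [hqq, inner_add_left, inner_add_left, inner_smul_left, inner_smul_left,
      inner_smul_left] at h2
    simp only [conj_trivial] at h2
    rw [h2]
    ring
  have e4 : (⟪q, sref b (sref a q)⟫ : ℝ) =
      1 - 2 * ⟪a, q⟫ ^ 2 - 2 * ⟪b, q⟫ ^ 2 + 4 * ⟪a, b⟫ * ⟪a, q⟫ * ⟪b, q⟫ := by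
    have hqa : ⟪q, a⟫ = (⟪a, q⟫ : ℝ) := real_inner_comm _ _
    have hqb : ⟪q, b⟫ = (⟪b, q⟫ : ℝ) := real_inner_comm _ _
    rw [sref, sref, inner_sub_right, inner_sub_right, inner_smul_right, inner_smul_right,
      inner_sub_right, inner_smul_right, hqq, hqa, hqb, hba]
    ring
  rw [e4, e1, e2]
  rw [e1, e2] at e3
  linear_combination (2 * (1 - ⟪a, b⟫ ^ 2)) * e3

end RGA

open RGA

theorem rga : StmtRGa := by
  intro d Φ hd hΦ hirr hspan a ha b hb hne hne'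
  by_contra hcon
  push Not at hcon
  have ha1 := hΦ.norm a ha
  have hb1 := hΦ.norm b hb
  have haa := self_one ha1
  have hbb := self_one hb1
  have hba : ⟪b, a⟫ = (⟪a, b⟫ : ℝ) := real_inner_comm _ _
  -- `⟪a, b⟫ ^ 2 < 1`
  have ht1 : (⟪a, b⟫ : ℝ) ^ 2 < 1 := by
    have h1 : (⟪a - b, a - b⟫ : ℝ) = 2 - 2 * ⟪a, b⟫ := by
      rw [inner_sub_left, inner_sub_right, inner_sub_right, haa, hbb, hba]; ring
    have h2 : (⟪a + b, a + b⟫ : ℝ) = 2 + 2 * ⟪a, b⟫ := by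
      rw [inner_add_left, inner_add_right, inner_add_right, haa, hbb, hba]; ring
    have h3 : (0 : ℝ) < ⟪a - b, a - b⟫ := real_inner_self_pos.2 (sub_ne_zero.2 hne)
    have h4 : (0 : ℝ) < ⟪a + b, a + b⟫ :=
      real_inner_self_pos.2 fun h => hne' (eq_neg_of_add_eq_zero_left h)
    rw [h1] at h3
    rw [h2] at h4
    nlinarith
  -- a root neither in the plane nor orthogonal to it
  obtain ⟨c, hc, hcP, hcP'⟩ : ∃ c ∈ Φ, c ∉ pl a b ∧ c ∉ (pl a b)ᗮ := by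
    by_contra hno
    push Not at hno
    rcases hirr (pl a b) (fun c hc => by
      by_cases h : c ∈ pl a b
      · exact Or.inl h
      · exact Or.inr (hno c hc h)) with h | h
    · have h1 : (⊤ : Submodule ℝ (E d)) ≤ pl a b := by
        rw [← hspan, Submodule.span_le]
        exact h
      have h2 : Module.finrank ℝ (⊤ : Submodule ℝ (E d)) ≤ 2 :=
        (Submodule.finrank_mono h1).trans (finrank_pl_le a b)
      rw [finrank_top, finrank_euclideanSpace, Fintype.card_fin] at h2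
      omega
    · have h1 := h a ha
      rw [Submodule.mem_orthogonal] at h1
      have h2 := h1 a (left_mem a b)
      rw [haa] at h2
      norm_num at h2
  have hc1 := hΦ.norm c hc
  -- the space `W`
  have hlin : LinearIndependent ℝ ![c, a, b] := by
    rw [Fintype.linearIndependent_iff]
    intro g hg
    rw [Fin.sum_univ_three] at hg
    have hg' : g 0 • c + g 1 • a + g 2 • b = 0 := hg
    have e0 : g 0 = 0 := by
      by_contra h0
      apply hcP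
      rw [mem_pl]
      refine ⟨-(g 0)⁻¹ * g 1, -(g 0)⁻¹ * g 2, ?_⟩
      have h1 : g 0 • c = -(g 1 • a + g 2 • b) := by
        rw [add_assoc] at hg'
        exact eq_neg_of_add_eq_zero_left hg'
      calc (-(g 0)⁻¹ * g 1) • a + (-(g 0)⁻¹ * g 2) • b
          = (g 0)⁻¹ • (-(g 1 • a + g 2 • b)) := by module
        _ = (g 0)⁻¹ • (g 0 • c) := by rw [h1]
        _ = c := by rw [smul_smul, inv_mul_cancel₀ h0, one_smul]
    rw [e0, zero_smul, zero_add] at hg'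
    have e1 : g 1 + g 2 * ⟪a, b⟫ = 0 := by
      have := congrArg (fun v => (⟪a, v⟫ : ℝ)) hg'
      simpa [inner_add_right, inner_smul_right, ha1] using this
    have e2 : g 1 * ⟪a, b⟫ + g 2 = 0 := by
      have := congrArg (fun v => (⟪b, v⟫ : ℝ)) hg'
      simpa [inner_add_right, inner_smul_right, hb1, hba] using this
    have e3 : g 2 * (1 - ⟪a, b⟫ ^ 2) = 0 := by linear_combination e2 - ⟪a, b⟫ * e1
    have e4 : g 2 = 0 := by
      rcases mul_eq_zero.1 e3 with h | h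
      · exact h
      · exfalso; linarith
    have e5 : g 1 = 0 := by rw [e4] at e1; linarith
    intro i
    fin_cases i
    · exact e0
    · exact e5
    · exact e4
  obtain ⟨W, hW, hcW, haW, hbW⟩ : ∃ W : Submodule ℝ (E d), Module.finrank ℝ W = 3 ∧ c ∈ W ∧
      a ∈ W ∧ b ∈ W := by
    refine ⟨Submodule.span ℝ (Set.range ![c, a, b]), ?_, Submodule.subset_span ⟨0, rfl⟩,
      Submodule.subset_span ⟨1, rfl⟩, Submodule.subset_span ⟨2, rfl⟩⟩
    rw [finrank_span_eq_card hlin]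
    rfl
  obtain ⟨p, hpW, hp1, hap, hbp⟩ := exists_perp hW haW hbW ha1 hb1 ht1
  have hpp := self_one hp1
  have hcc := self_one hc1
  have hpax : p ∈ Ax Φ W ⟪a, b⟫ := ⟨hpW, hp1, a, ha, b, hb, haW, hbW, rfl, hap, hbp⟩
  -- the inner product of `p` and `s_c p`
  have hpc : (⟪p, sref c p⟫ : ℝ) = 1 - 2 * ⟪c, p⟫ ^ 2 := by
    rw [sref, inner_sub_right, inner_smul_right, hpp, real_inner_comm c p]
    ring
  obtain ⟨x, y, hxy⟩ := decomp hW hpW haW hbW hp1 ha1 hb1 ht1 hap hbp hcW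
  have hcp0 : (⟪c, p⟫ : ℝ) ≠ 0 := by
    intro h0
    apply hcP
    rw [mem_pl]
    refine ⟨x, y, ?_⟩
    rw [real_inner_comm, h0, zero_smul, zero_add] at hxy
    exact hxy.symm
  have hperp : ∀ v ∈ pl a b, (⟪v, p⟫ : ℝ) = 0 := by
    intro v hv
    obtain ⟨s, t, rfl⟩ := mem_pl.1 hv
    rw [inner_add_left, inner_smul_left, inner_smul_left, hap, hbp]
    simp
  have hcp1 : (⟪c, p⟫ : ℝ) ^ 2 < 1 := by
    set k : ℝ := ⟪c, p⟫ with hk
    have hkc : (⟪p, c⟫ : ℝ) = k := real_inner_comm _ _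
    have h1 : (⟪c - k • p, c - k • p⟫ : ℝ) = 1 - k ^ 2 := by
      rw [inner_sub_left, inner_sub_right, inner_sub_right, inner_smul_left, inner_smul_right,
        inner_smul_right, inner_smul_left, hcc, hpp, hkc, ← hk]
      simp
      ring
    have h2 : (0 : ℝ) ≤ ⟪c - k • p, c - k • p⟫ := real_inner_self_nonneg
    rcases h2.lt_or_eq with h3 | h3
    · rw [h1] at h3; linarith
    · exfalso
      apply hcP'
      have h4 : c = k • p := sub_eq_zero.1 (inner_self_eq_zero.1 h3.symm)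
      rw [Submodule.mem_orthogonal]
      intro v hv
      rw [h4, inner_smul_right, hperp v hv, mul_zero]
  -- choose the pair
  have hfin : {z : E d × E d | z ∈ Ax Φ W ⟪a, b⟫ ×ˢ Ax Φ W ⟪a, b⟫ ∧
      |(⟪z.1, z.2⟫ : ℝ)| < 1}.Finite :=
    ((finite_Ax hΦ hW ht1).prod (finite_Ax hΦ hW ht1)).subset fun z hz => hz.1
  obtain ⟨⟨p', q⟩, ⟨⟨hp', hq⟩, hlt⟩, hmax⟩ := Set.exists_max_image _
    (fun z : E d × E d => |(⟪z.1, z.2⟫ : ℝ)|) hfin ⟨(p, sref c p), ⟨hpax, Ax_sref hΦ hc hcW hpax⟩, by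
      show |(⟪p, sref c p⟫ : ℝ)| < 1
      rw [hpc, abs_lt]
      have : (0 : ℝ) < ⟪c, p⟫ ^ 2 := by positivity
      constructor <;> linarith⟩
  obtain ⟨hpW', hp1', a', ha', b', hb', haW', hbW', hab', hap', hbp'⟩ := hp'
  have hr := rot hW hpW' haW' hbW' hp1' (hΦ.norm a' ha') (hΦ.norm b' hb') (by rw [hab']; exact ht1)
    hap' hbp' hq.1 hq.2.1
  rw [hab'] at hr
  have hm : (⟪p', q⟫ : ℝ) ^ 2 < 1 := by
    rw [← sq_abs]
    have h0 := abs_nonneg (⟪p', q⟫ : ℝ)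
    have h1 : |(⟪p', q⟫ : ℝ)| < 1 := hlt
    nlinarith
  have h1 : (1 + |(⟪p', q⟫ : ℝ)| ^ 2) / 2 ≤ ⟪q, sref b' (sref a' q)⟫ := by
    rw [hr, sq_abs]
    nlinarith
  have h2 : (⟪q, sref b' (sref a' q)⟫ : ℝ) < 1 := by
    rw [hr]
    nlinarith
  have h3 := hmax (q, sref b' (sref a' q))
    ⟨⟨hq, Ax_sref hΦ hb' hbW' (Ax_sref hΦ ha' haW' hq)⟩, by
      show |(⟪q, sref b' (sref a' q)⟫ : ℝ)| < 1
      rw [abs_lt]
      have := sq_nonneg |(⟪p', q⟫ : ℝ)|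
      constructor <;> linarith⟩
  have h4 : |(⟪q, sref b' (sref a' q)⟫ : ℝ)| ≤ |(⟪p', q⟫ : ℝ)| := h3
  have h5 := (le_abs_self _).trans h4
  have h6 : |(⟪p', q⟫ : ℝ)| < 1 := hlt
  nlinarith [sq_nonneg (1 - |(⟪p', q⟫ : ℝ)|)]

end FO2
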