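import Pool.Agent.FO2.Stmts

/-!
# RGB: the possible inner products of a finite root set without small angles
-/

namespace FO2

open Lib_helper64.FO
open scoped RealInnerProductSpace

noncomputable section

namespace RGB

/-- the numerical contradiction -/
theorem num {x : ℝ} (h0 : 0 ≤ x) (h1 : x < 3 / 4) (h2 : (2 * x - 1) ^ 2 < 3 / 4)
    (h3 : x * (4 * x - 3) ^ 2 < 3 / 4) (h4 : (8 * x ^ 2 - 8 * x + 1) ^ 2 < 3 / 4)
    (h5 : x * (16 * x ^ 2 - 20 * x + 5) ^ 2 < 3 / 4) : False := by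
  have hx : (0.0669 : ℝ) < x := by nlinarith
  have e5 : x * (16 * x ^ 2 - 20 * x + 5) ^ 2 - 3 / 4 =
      (3 / 4 - x) * (32 * ((x * (1 - x)) * ((1 - 2 * x) * (1 - 4 * x))) - 1) := by ring
  have key : 32 * ((x * (1 - x)) * ((1 - 2 * x) * (1 - 4 * x))) - 1 < 0 := by
    by_contra hcon
    push Not at hcon
    have : 0 ≤ (3 / 4 - x) * (32 * ((x * (1 - x)) * ((1 - 2 * x) * (1 - 4 * x))) - 1) :=
      mul_nonneg (by linarith) hcon
    linarith
  rcases lt_or_ge x 0.12 with h6 | h6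
  · rcases lt_or_ge x 0.09 with h7 | h7
    · have a1 : (0.0624 : ℝ) ≤ x * (1 - x) := by nlinarith
      have a2 : (0.5248 : ℝ) ≤ (1 - 2 * x) * (1 - 4 * x) := by nlinarith
      have a3 : (0.0624 : ℝ) * 0.5248 ≤ (x * (1 - x)) * ((1 - 2 * x) * (1 - 4 * x)) :=
        mul_le_mul a1 a2 (by norm_num) (by linarith)
      norm_num at a3
      linarith
    · have a1 : (0.0819 : ℝ) ≤ x * (1 - x) := by nlinarith
      have a2 : (0.395 : ℝ) ≤ (1 - 2 * x) * (1 - 4 * x) := by nlinarith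
      have a3 : (0.0819 : ℝ) * 0.395 ≤ (x * (1 - x)) * ((1 - 2 * x) * (1 - 4 * x)) :=
        mul_le_mul a1 a2 (by norm_num) (by linarith)
      norm_num at a3
      linarith
  · rcases lt_or_ge x 0.41 with h7 | h7
    · -- `T_3`
      nlinarith [mul_nonneg (mul_nonneg (sub_nonneg.2 h6) (sub_nonneg.2 h7.le))
        (show (0 : ℝ) ≤ 0.96 - x by linarith), mul_nonneg (sub_nonneg.2 h6) (sub_nonneg.2 h7.le)]
    · rcases lt_or_ge x 0.629 with h8 | h8
      · -- `T_4`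
        have a1 : (2 * x - 1) ^ 2 ≤ 0.067 := by nlinarith
        have a2 : 8 * x ^ 2 - 8 * x + 1 ≤ -0.866 := by nlinarith
        nlinarith
      · have a1 : (0.1875 : ℝ) ≤ x * (1 - x) := by nlinarith
        have a2 : (0.39 : ℝ) ≤ (1 - 2 * x) * (1 - 4 * x) := by nlinarith
        have a3 : (0.1875 : ℝ) * 0.39 ≤ (x * (1 - x)) * ((1 - 2 * x) * (1 - 4 * x)) :=
          mul_le_mul a1 a2 (by norm_num) (by linarith)
        norm_num at a3
        linarith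

/-- the values of the inner product -/
theorem vals {t : ℝ} (h1 : t ^ 2 < 3 / 4)
    (h2 : 2 * t ^ 2 - 1 = 1 ∨ 2 * t ^ 2 - 1 = -1 ∨ (2 * t ^ 2 - 1) ^ 2 < 3 / 4)
    (h3 : 4 * t ^ 3 - 3 * t = 1 ∨ 4 * t ^ 3 - 3 * t = -1 ∨ (4 * t ^ 3 - 3 * t) ^ 2 < 3 / 4)
    (h4 : 8 * t ^ 4 - 8 * t ^ 2 + 1 = 1 ∨ 8 * t ^ 4 - 8 * t ^ 2 + 1 = -1 ∨
      (8 * t ^ 4 - 8 * t ^ 2 + 1) ^ 2 < 3 / 4)
    (h5 : 16 * t ^ 5 - 20 * t ^ 3 + 5 * t = 1 ∨ 16 * t ^ 5 - 20 * t ^ 3 + 5 * t = -1 ∨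
      (16 * t ^ 5 - 20 * t ^ 3 + 5 * t) ^ 2 < 3 / 4) : AS t := by
  have ht1 : t ≠ 1 := by
    rintro rfl
    norm_num at h1
  have ht2 : t ≠ -1 := by
    rintro rfl
    norm_num at h1
  have s2 : √2 ^ 2 = (2 : ℝ) := Real.sq_sqrt (by norm_num)
  have s5 : √5 ^ 2 = (5 : ℝ) := Real.sq_sqrt (by norm_num)
  have r0 : t = 0 → AS t := fun h => ⟨0, Or.inl rfl, Or.inl h⟩
  have rh : t = 1 / 2 → AS t := fun h => ⟨1 / 2, Or.inr (Or.inl rfl), Or.inl h⟩
  have rh' : t = -(1 / 2) → AS t := fun h => ⟨1 / 2, Or.inr (Or.inl rfl), Or.inr h⟩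
  have rs : t = √2 / 2 → AS t := fun h => ⟨√2 / 2, Or.inr (Or.inr (Or.inl rfl)), Or.inl h⟩
  have rs' : t = -(√2 / 2) → AS t := fun h => ⟨√2 / 2, Or.inr (Or.inr (Or.inl rfl)), Or.inr h⟩
  have rp : t = (√5 + 1) / 4 → AS t :=
    fun h => ⟨(√5 + 1) / 4, Or.inr (Or.inr (Or.inr (Or.inl rfl))), Or.inl h⟩
  have rp' : t = -((√5 + 1) / 4) → AS t :=
    fun h => ⟨(√5 + 1) / 4, Or.inr (Or.inr (Or.inr (Or.inl rfl))), Or.inr h⟩
  have rm : t = (√5 - 1) / 4 → AS t :=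
    fun h => ⟨(√5 - 1) / 4, Or.inr (Or.inr (Or.inr (Or.inr (Or.inl rfl)))), Or.inl h⟩
  have rm' : t = -((√5 - 1) / 4) → AS t :=
    fun h => ⟨(√5 - 1) / 4, Or.inr (Or.inr (Or.inr (Or.inr (Or.inl rfl)))), Or.inr h⟩
  rcases h2 with h | h | h2
  · exfalso
    linarith
  · exact r0 (by nlinarith)
  rcases h3 with h | h | h3
  · have e : (t - 1) * (2 * t + 1) ^ 2 = 0 := by linear_combination h
    rcases mul_eq_zero.1 e with e | e
    · exact absurd (by linarith) ht1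
    · have := pow_eq_zero_iff (two_ne_zero) |>.1 e
      exact rh' (by linarith)
  · have e : (t + 1) * (2 * t - 1) ^ 2 = 0 := by linear_combination h
    rcases mul_eq_zero.1 e with e | e
    · exact absurd (by linarith) ht2
    · have := pow_eq_zero_iff (two_ne_zero) |>.1 e
      exact rh (by linarith)
  rcases h4 with h | h | h4
  · have e : t ^ 2 * ((t - 1) * (t + 1)) = 0 := by linear_combination h / 8
    rcases mul_eq_zero.1 e with e | e
    · exact r0 (pow_eq_zero_iff (two_ne_zero) |>.1 e)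
    · rcases mul_eq_zero.1 e with e | e
      · exact absurd (by linarith) ht1
      · exact absurd (by linarith) ht2
  · have e : (2 * t ^ 2 - 1) ^ 2 = 0 := by linear_combination h / 2
    have e1 := pow_eq_zero_iff (two_ne_zero) |>.1 e
    have e2 : (t - √2 / 2) * (t + √2 / 2) = 0 := by linear_combination e1 / 2 - s2 / 4
    rcases mul_eq_zero.1 e2 with e2 | e2
    · exact rs (by linarith)
    · exact rs' (by linarith)
  rcases h5 with h | h | h5
  · have e : (t - 1) * (4 * t ^ 2 + 2 * t - 1) ^ 2 = 0 := by linear_combination h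
    rcases mul_eq_zero.1 e with e | e
    · exact absurd (by linarith) ht1
    · have e1 := pow_eq_zero_iff (two_ne_zero) |>.1 e
      have e2 : (t - (√5 - 1) / 4) * (t + (√5 + 1) / 4) = 0 := by
        linear_combination e1 / 4 - s5 / 16
      rcases mul_eq_zero.1 e2 with e2 | e2
      · exact rm (by linarith)
      · exact rp' (by linarith)
  · have e : (t + 1) * (4 * t ^ 2 - 2 * t - 1) ^ 2 = 0 := by linear_combination h
    rcases mul_eq_zero.1 e with e | e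
    · exact absurd (by linarith) ht2
    · have e1 := pow_eq_zero_iff (two_ne_zero) |>.1 e
      have e2 : (t + (√5 - 1) / 4) * (t - (√5 + 1) / 4) = 0 := by
        linear_combination e1 / 4 - s5 / 16
      rcases mul_eq_zero.1 e2 with e2 | e2
      · exact rm' (by linarith)
      · exact rp (by linarith)
  exfalso
  refine num (x := t ^ 2) (by positivity) h1 h2 ?_ ?_ ?_
  · calc t ^ 2 * (4 * t ^ 2 - 3) ^ 2 = (4 * t ^ 3 - 3 * t) ^ 2 := by ring
      _ < 3 / 4 := h3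
  · calc (8 * (t ^ 2) ^ 2 - 8 * t ^ 2 + 1) ^ 2 = (8 * t ^ 4 - 8 * t ^ 2 + 1) ^ 2 := by ring
      _ < 3 / 4 := h4
  · calc t ^ 2 * (16 * (t ^ 2) ^ 2 - 20 * t ^ 2 + 5) ^ 2 =
        (16 * t ^ 5 - 20 * t ^ 3 + 5 * t) ^ 2 := by ring
      _ < 3 / 4 := h5

end RGB

open RGB in
theorem rgb : StmtRGb := by
  intro d Φ hΦ hsm a ha b hb
  have haa := hΦ.inner_self ha
  by_cases h1 : a = b
  · rw [← h1, haa]
    exact ⟨1, Or.inr (Or.inr (Or.inr (Or.inr (Or.inr rfl)))), Or.inl rfl⟩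
  by_cases h2 : a = -b
  · have h3 : b = -a := by rw [h2, neg_neg]
    rw [h3, inner_neg_right, haa]
    exact ⟨1, Or.inr (Or.inr (Or.inr (Or.inr (Or.inr rfl)))), Or.inr rfl⟩
  -- every element of `Φ`
  have key : ∀ c ∈ Φ, ⟪a, c⟫ = 1 ∨ ⟪a, c⟫ = -1 ∨ ⟪a, c⟫ ^ 2 < (3 / 4 : ℝ) := by
    intro c hc
    by_cases h3 : a = c
    · left
      rw [← h3, haa]
    by_cases h4 : a = -c
    · right
      left
      have h5 : c = -a := by rw [h4, neg_neg]
      rw [h5, inner_neg_right, haa]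
    exact Or.inr (Or.inr (hsm a ha c hc h3 h4))
  -- one step of the recursion
  have stp : ∀ v ∈ Φ, ∀ w ∈ Φ, ∀ t : ℝ, ⟪v, w⟫ = t →
      (2 * t) • w - v ∈ Φ ∧ ⟪w, (2 * t) • w - v⟫ = t := by
    intro v hv w hw t ht
    have e1 : (2 * t) • w - v = -sref w v := by
      rw [sref, real_inner_comm, ht]
      module
    refine ⟨?_, ?_⟩
    · rw [e1]
      exact hΦ.neg_mem (hΦ.refl w hw v hv)
    · rw [inner_sub_right, inner_smul_right, hΦ.inner_self hw, real_inner_comm, ht]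
      ring
  set t : ℝ := ⟪a, b⟫ with ht
  obtain ⟨m2, i2⟩ := stp a ha b hb t ht.symm
  set v2 := (2 * t) • b - a with hv2
  obtain ⟨m3, i3⟩ := stp b hb v2 m2 t i2
  set v3 := (2 * t) • v2 - b with hv3
  obtain ⟨m4, i4⟩ := stp v2 m2 v3 m3 t i3
  set v4 := (2 * t) • v3 - v2 with hv4
  obtain ⟨m5, i5⟩ := stp v3 m3 v4 m4 t i4
  set v5 := (2 * t) • v4 - v3 with hv5
  have a2 : ⟪a, v2⟫ = 2 * t ^ 2 - 1 := by
    rw [hv2, inner_sub_right, inner_smul_right, haa, ← ht]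
    ring
  have a3 : ⟪a, v3⟫ = 4 * t ^ 3 - 3 * t := by
    rw [hv3, inner_sub_right, inner_smul_right, a2, ← ht]
    ring
  have a4 : ⟪a, v4⟫ = 8 * t ^ 4 - 8 * t ^ 2 + 1 := by
    rw [hv4, inner_sub_right, inner_smul_right, a2, a3]
    ring
  have a5 : ⟪a, v5⟫ = 16 * t ^ 5 - 20 * t ^ 3 + 5 * t := by
    rw [hv5, inner_sub_right, inner_smul_right, a3, a4]
    ring
  have k2 := key v2 m2
  have k3 := key v3 m3
  have k4 := key v4 m4
  have k5 := key v5 m5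
  rw [a2] at k2
  rw [a3] at k3
  rw [a4] at k4
  rw [a5] at k5
  exact vals (hsm a ha b hb h1 h2) k2 k3 k4 k5

end

end FO2
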