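import Pool.Agent.FO2.Stmts

/-!
# Finite root sets without angles of 45 degrees (module RGC)
-/

set_option autoImplicit false

namespace FO2

open Lib_helper64.FO
open scoped RealInnerProductSpace

noncomputable section

namespace RGC

/-! ### the table of inner products -/

/-- squares of the elements of `AS`, `r = √5` -/
def SQ (r X : ℝ) : Prop :=
  X = 0 ∨ X = 1 / 4 ∨ X = 1 / 2 ∨ X = (3 + r) / 8 ∨ X = (3 - r) / 8 ∨ X = 1

theorem sq_of_AS {t : ℝ} (h : AS t) : SQ (√5) (t ^ 2) := by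
  obtain ⟨s, hs, ht⟩ := h
  have e : t ^ 2 = s ^ 2 := by rcases ht with rfl | rfl <;> ring
  have h2 : √2 * √2 = (2 : ℝ) := Real.mul_self_sqrt (by norm_num)
  have h5 : √5 * √5 = (5 : ℝ) := Real.mul_self_sqrt (by norm_num)
  rw [e]
  unfold SQ
  rcases hs with rfl | rfl | rfl | rfl | rfl | rfl
  · left; norm_num
  · right; left; norm_num
  · right; right; left; nlinarith
  · right; right; right; left; nlinarith
  · right; right; right; right; left; nlinarith
  · right; right; right; right; right; norm_num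

theorem r_sq : √5 ^ 2 = (5 : ℝ) := Real.sq_sqrt (by norm_num)

theorem r_lo : (2.236 : ℝ) < √5 := by
  apply Real.lt_sqrt_of_sq_lt
  norm_num

theorem r_hi : √5 < (2.237 : ℝ) := by
  rw [Real.sqrt_lt' (by norm_num)]
  norm_num

theorem tab0 {r X Y A B : ℝ} (hr : r ^ 2 = 5) (h1 : 2.236 < r) (h2 : r < 2.237)
    (hX : SQ r X) (hY : SQ r Y) (hA : SQ r A) (hB : SQ r B) (e1 : A + B = X + Y)
    (e2 : (A - B) ^ 2 = 4 * X * Y) :
    (X = 0 ∧ (Y = 0 ∨ Y = 1 / 2 ∨ Y = 1)) ∨ (X = 1 / 2 ∧ (Y = 0 ∨ Y = 1 / 2)) ∨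
      (X = 1 ∧ Y = 0) ∨ (X = 1 / 4 ∧ Y = 1 / 4) := by
  have hBe : B = X + Y - A := by linarith
  subst hBe
  rcases hX with rfl | rfl | rfl | rfl | rfl | rfl <;>
  rcases hY with rfl | rfl | rfl | rfl | rfl | rfl <;>
  first
  | exact Or.inl ⟨rfl, Or.inl rfl⟩
  | exact Or.inl ⟨rfl, Or.inr (Or.inl rfl)⟩
  | exact Or.inl ⟨rfl, Or.inr (Or.inr rfl)⟩
  | exact Or.inr (Or.inl ⟨rfl, Or.inl rfl⟩)
  | exact Or.inr (Or.inl ⟨rfl, Or.inr rfl⟩)
  | exact Or.inr (Or.inr (Or.inl ⟨rfl, rfl⟩))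
  | exact Or.inr (Or.inr (Or.inr ⟨rfl, rfl⟩))
  | (exfalso
     rcases hA with rfl | rfl | rfl | rfl | rfl | rfl <;>
     first
     | linarith
     | (rcases hB with h | h | h | h | h | h <;> linarith))

theorem dia0 {r T P M : ℝ} (hr : r ^ 2 = 5) (h1 : 2.236 < r) (h2 : r < 2.237)
    (hT : SQ r T) (hP : SQ r P) (hM : SQ r M) (e1 : P + M = (1 + T) / 2)
    (e2 : (P - M) ^ 2 = T) : T = 0 ∨ T = 1 := by
  have hBe : M = (1 + T) / 2 - P := by linarith
  subst hBe
  rcases hT with rfl | rfl | rfl | rfl | rfl | rfl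
  · exact Or.inl rfl
  · exfalso
    rcases hP with rfl | rfl | rfl | rfl | rfl | rfl <;> linarith
  · exfalso
    rcases hP with rfl | rfl | rfl | rfl | rfl | rfl <;> linarith
  · exfalso
    rcases hP with rfl | rfl | rfl | rfl | rfl | rfl <;> linarith
  · exfalso
    rcases hP with rfl | rfl | rfl | rfl | rfl | rfl <;> linarith
  · exact Or.inr rfl

/-! ### neighbours -/

variable {d : ℕ} {Φ : Set (E d)}

/-- `√2 / 2` -/
def k : ℝ := √2 / 2

theorem k_sq : k * k = 1 / 2 := by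
  have h2 : √2 * √2 = (2 : ℝ) := Real.mul_self_sqrt (by norm_num)
  unfold k
  nlinarith

theorem k_pos : 0 < k := by unfold k; positivity

/-- `u` is perpendicular to `a` and `(a + u) / √2` is a root -/
def N (Φ : Set (E d)) (a u : E d) : Prop := u ∈ Φ ∧ ⟪a, u⟫ = (0 : ℝ) ∧ k • (a + u) ∈ Φ

theorem sref_perp {a u : E d} (h : ⟪a, u⟫ = (0 : ℝ)) : sref a u = u := by
  simp [sref, h]

theorem N.comm {a u : E d} (ha : a ∈ Φ) (hu : N Φ a u) : N Φ u a :=
  ⟨ha, by rw [real_inner_comm]; exact hu.2.1, by rw [add_comm]; exact hu.2.2⟩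

theorem N.negl (h : IsRS Φ) {a u : E d} (ha : a ∈ Φ) (hu : N Φ a u) : N Φ (-a) u := by
  refine ⟨hu.1, by rw [inner_neg_left, hu.2.1, neg_zero], ?_⟩
  have h1 := h.refl a ha _ hu.2.2
  rwa [sref_smul, sref_add, sref_self (h.norm a ha), sref_perp hu.2.1] at h1

theorem N.negr (h : IsRS Φ) {a u : E d} (ha : a ∈ Φ) (hu : N Φ a u) : N Φ a (-u) :=
  ((hu.comm ha).negl h hu.1).comm (h.neg_mem hu.1)

theorem N.ofNeg (h : IsRS Φ) {a u : E d} (ha : a ∈ Φ) (hu : N Φ (-a) u) : N Φ a u := by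
  have := hu.negl h (h.neg_mem ha)
  rwa [neg_neg] at this

theorem N.map {a u : E d} (g : E d ≃ₗᵢ[ℝ] E d) (hg : ∀ c ∈ Φ, g c ∈ Φ) (hu : N Φ a u) :
    N Φ (g a) (g u) := by
  refine ⟨hg _ hu.1, by rw [LinearIsometryEquiv.inner_map_map]; exact hu.2.1, ?_⟩
  have := hg _ hu.2.2
  rwa [map_smul, map_add] at this

/-- two neighbours are equal, opposite or perpendicular -/
theorem N.dia (h : IsRS Φ) (hAS : ∀ a ∈ Φ, ∀ b ∈ Φ, AS ⟪a, b⟫) {a u v : E d} (ha : a ∈ Φ)
    (hu : N Φ a u) (hv : N Φ a v) : v = u ∨ v = -u ∨ ⟪u, v⟫ = (0 : ℝ) := by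
  have haa := h.inner_self ha
  have huu := h.inner_self hu.1
  have hvv := h.inner_self hv.1
  have hau := hu.2.1
  have hav := hv.2.1
  have hua : ⟪u, a⟫ = (0 : ℝ) := by rw [real_inner_comm]; exact hau
  have h1 := sq_of_AS (hAS u hu.1 v hv.1)
  have h2 := sq_of_AS (hAS _ hu.2.2 _ hv.2.2)
  have h3 := sq_of_AS (hAS _ hu.2.2 _ (hv.negr h ha).2.2)
  have e2 : ⟪k • (a + u), k • (a + v)⟫ = (1 + ⟪u, v⟫) / 2 := by
    simp only [inner_smul_left, inner_smul_right, inner_add_left, inner_add_right, haa, hav, hua,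
      RCLike.conj_to_real]
    linear_combination (1 + ⟪u, v⟫) * k_sq
  have e3 : ⟪k • (a + u), k • (a + -v)⟫ = (1 - ⟪u, v⟫) / 2 := by
    simp only [inner_smul_left, inner_smul_right, inner_add_left, inner_add_right, haa, hav, hua,
      RCLike.conj_to_real, inner_neg_right]
    linear_combination (1 - ⟪u, v⟫) * k_sq
  rw [e2] at h2
  rw [e3] at h3
  rcases dia0 r_sq r_lo r_hi h1 h2 h3 (by ring) (by ring) with h4 | h4
  · right; right
    exact pow_eq_zero_iff (by norm_num) |>.1 h4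
  · have h5 : (⟪u, v⟫ - 1) * (⟪u, v⟫ + 1) = (0 : ℝ) := by linear_combination h4
    rcases mul_eq_zero.1 h5 with h6 | h6
    · left
      have h7 : ⟪v - u, v - u⟫ = (0 : ℝ) := by
        simp only [inner_sub_left, inner_sub_right, huu, hvv, real_inner_comm u v]
        linarith
      exact sub_eq_zero.1 (inner_self_eq_zero.1 h7)
    · right; left
      have h7 : ⟪v + u, v + u⟫ = (0 : ℝ) := by
        simp only [inner_add_left, inner_add_right, huu, hvv, real_inner_comm u v]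
        linarith
      exact eq_neg_of_add_eq_zero_left (inner_self_eq_zero.1 h7)

/-- perpendicular neighbours are neighbours -/
theorem N.trans (h : IsRS Φ) {a u v : E d} (ha : a ∈ Φ) (hu : N Φ a u) (hv : N Φ a v)
    (huv : ⟪u, v⟫ = (0 : ℝ)) : N Φ u v := by
  have haa := h.inner_self ha
  have hua : ⟪u, a⟫ = (0 : ℝ) := by rw [real_inner_comm]; exact hu.2.1
  have e2 : ⟪k • (a + u), k • (a + v)⟫ = (1 / 2 : ℝ) := by
    simp only [inner_smul_left, inner_smul_right, inner_add_left, inner_add_right, haa, hv.2.1, hua,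
      huv, RCLike.conj_to_real]
    linear_combination k_sq
  have h1 := h.refl _ hu.2.2 _ hv.2.2
  have h2 : sref (k • (a + u)) (k • (a + v)) = k • (-u + v) := by
    rw [sref, e2]
    module
  rw [h2] at h1
  exact N.ofNeg h hu.1 ⟨hv.1, by rw [inner_neg_left, huv, neg_zero], h1⟩

/-- a root at 45 degrees -/
theorem N.of45 (h : IsRS Φ) {c u : E d} (hc : c ∈ Φ) (hu : u ∈ Φ) (hcu : ⟪c, u⟫ = k) :
    ∃ v, N Φ u v ∧ c = k • (u + v) := by
  have huu := h.inner_self hu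
  have h1 := h.neg_mem (h.refl c hc u hu)
  rw [sref, hcu] at h1
  have e : k • (u + -(u - (2 * k) • c)) = c := by
    have : k • (u + -(u - (2 * k) • c)) = (2 * (k * k)) • c := by module
    rw [this, k_sq]
    module
  refine ⟨-(u - (2 * k) • c), ⟨h1, ?_, ?_⟩, e.symm⟩
  · have huc : ⟪u, c⟫ = k := by rw [real_inner_comm]; exact hcu
    simp only [inner_neg_right, inner_sub_right, inner_smul_right, huu, huc]
    linear_combination 2 * k_sq
  · rw [e]; exact hc

/-- the class of `a` -/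
def Q (Φ : Set (E d)) (a x : E d) : Prop := x = a ∨ x = -a ∨ N Φ a x

theorem Q.mem (h : IsRS Φ) {a x : E d} (ha : a ∈ Φ) (hx : Q Φ a x) : x ∈ Φ := by
  rcases hx with rfl | rfl | hx
  · exact ha
  · exact h.neg_mem ha
  · exact hx.1

theorem Q.neg (h : IsRS Φ) {a x : E d} (ha : a ∈ Φ) (hx : Q Φ a x) : Q Φ a (-x) := by
  rcases hx with rfl | rfl | hx
  · exact Or.inr (Or.inl rfl)
  · exact Or.inl (neg_neg a)
  · exact Or.inr (Or.inr (hx.negr h ha))

/-- neighbours of elements of the class belong to the class -/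
theorem Q.next (h : IsRS Φ) (hAS : ∀ a ∈ Φ, ∀ b ∈ Φ, AS ⟪a, b⟫) {a x y : E d} (ha : a ∈ Φ)
    (hx : Q Φ a x) (hy : N Φ x y) : Q Φ a y := by
  rcases hx with rfl | rfl | hx
  · exact Or.inr (Or.inr hy)
  · exact Or.inr (Or.inr (hy.ofNeg h ha))
  · rcases N.dia h hAS hx.1 (hx.comm ha) hy with h1 | h1 | h1
    · exact Or.inl h1
    · exact Or.inr (Or.inl h1)
    · exact Or.inr (Or.inr (N.trans h hx.1 (hx.comm ha) hy h1))

/-- the span of the class -/
def W (Φ : Set (E d)) (a : E d) : Submodule ℝ (E d) := Submodule.span ℝ {x | Q Φ a x}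

theorem mem_W {a x : E d} (hx : Q Φ a x) : x ∈ W Φ a := Submodule.subset_span hx

theorem sq_eq {t : ℝ} (h : t ^ 2 = 1 / 2) : t = k ∨ -t = k := by
  have h5 : (t - k) * (t + k) = (0 : ℝ) := by linear_combination h - k_sq
  rcases mul_eq_zero.1 h5 with h6 | h6
  · left; linarith
  · right; linarith

theorem sq_one {t : ℝ} (h : t ^ 2 = 1) : t = 1 ∨ -t = 1 := by
  have h5 : (t - 1) * (t + 1) = (0 : ℝ) := by linear_combination h
  rcases mul_eq_zero.1 h5 with h6 | h6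
  · left; linarith
  · right; linarith

theorem eq_of_inner_one (h : IsRS Φ) {c x : E d} (hc : c ∈ Φ) (hx : x ∈ Φ) (e : ⟪c, x⟫ = (1 : ℝ)) :
    c = x := by
  have h7 : ⟪c - x, c - x⟫ = (0 : ℝ) := by
    simp only [inner_sub_left, inner_sub_right, h.inner_self hc, h.inner_self hx,
      real_inner_comm c x, e]
    norm_num
  exact sub_eq_zero.1 (inner_self_eq_zero.1 h7)

/-- a root which has the product `± √2 / 2` or `± 1` with an element of the class is in the span -/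
theorem mem_of_sq (h : IsRS Φ) (hAS : ∀ a ∈ Φ, ∀ b ∈ Φ, AS ⟪a, b⟫) {a c x : E d} (ha : a ∈ Φ)
    (hc : c ∈ Φ) (hx : Q Φ a x) (e : ⟪c, x⟫ ^ 2 = (1 / 2 : ℝ) ∨ ⟪c, x⟫ ^ 2 = (1 : ℝ)) :
    c ∈ W Φ a := by
  have key : ∀ x, Q Φ a x → ⟪c, x⟫ = k → c ∈ W Φ a := by
    intro x hx e
    obtain ⟨v, hv, rfl⟩ := N.of45 h hc (hx.mem h ha) e
    exact Submodule.smul_mem _ _ (Submodule.add_mem _ (mem_W hx) (mem_W (Q.next h hAS ha hx hv)))
  rcases e with e | e
  · rcases sq_eq e with e | e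
    · exact key x hx e
    · exact key (-x) (hx.neg h ha) (by rw [inner_neg_right]; exact e)
  · rcases sq_one e with e | e
    · rw [eq_of_inner_one h hc (hx.mem h ha) e]
      exact mem_W hx
    · rw [eq_of_inner_one h hc (h.neg_mem (hx.mem h ha)) (by rw [inner_neg_right]; exact e)]
      exact mem_W (hx.neg h ha)

/-- the table for the pair `u`, `v` -/
theorem tab (h : IsRS Φ) (hAS : ∀ a ∈ Φ, ∀ b ∈ Φ, AS ⟪a, b⟫) {c u v : E d} (hc : c ∈ Φ)
    (hu : u ∈ Φ) (hv : N Φ u v) :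
    (⟪c, u⟫ ^ 2 = (0 : ℝ) ∧ (⟪c, v⟫ ^ 2 = (0 : ℝ) ∨ ⟪c, v⟫ ^ 2 = (1 / 2 : ℝ) ∨
      ⟪c, v⟫ ^ 2 = (1 : ℝ))) ∨
    (⟪c, u⟫ ^ 2 = (1 / 2 : ℝ) ∧ (⟪c, v⟫ ^ 2 = (0 : ℝ) ∨ ⟪c, v⟫ ^ 2 = (1 / 2 : ℝ))) ∨
    (⟪c, u⟫ ^ 2 = (1 : ℝ) ∧ ⟪c, v⟫ ^ 2 = (0 : ℝ)) ∨
    (⟪c, u⟫ ^ 2 = (1 / 4 : ℝ) ∧ ⟪c, v⟫ ^ 2 = (1 / 4 : ℝ)) := by
  have hX := sq_of_AS (hAS c hc u hu)
  have hY := sq_of_AS (hAS c hc v hv.1)
  have hA := sq_of_AS (hAS c hc _ hv.2.2)
  have hB := sq_of_AS (hAS c hc _ (hv.negr h hu).2.2)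
  refine tab0 r_sq r_lo r_hi hX hY hA hB ?_ ?_
  · simp only [inner_smul_right, inner_add_right, inner_neg_right]
    linear_combination (2 * ⟪c, u⟫ ^ 2 + 2 * ⟪c, v⟫ ^ 2) * k_sq
  · simp only [inner_smul_right, inner_add_right, inner_neg_right]
    linear_combination (16 * ⟪c, u⟫ ^ 2 * ⟪c, v⟫ ^ 2 * (k * k + 1 / 2)) * k_sq

/-- the position of a root with respect to a class -/
theorem cls (h : IsRS Φ) (hAS : ∀ a ∈ Φ, ∀ b ∈ Φ, AS ⟪a, b⟫) {a u c : E d} (ha : a ∈ Φ)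
    (hu : N Φ a u) (hc : c ∈ Φ) :
    c ∈ W Φ a ∨ (∀ x, Q Φ a x → ⟪c, x⟫ = (0 : ℝ)) ∨ (∀ x, Q Φ a x → ⟪c, x⟫ ^ 2 = (1 / 4 : ℝ)) := by
  have qa : Q Φ a a := Or.inl rfl
  by_cases hW : c ∈ W Φ a
  · exact Or.inl hW
  right
  have nW : ∀ x, Q Φ a x → ¬ (⟪c, x⟫ ^ 2 = (1 / 2 : ℝ) ∨ ⟪c, x⟫ ^ 2 = (1 : ℝ)) := fun x hx e =>
    hW (mem_of_sq h hAS ha hc hx e)
  have na := nW a qa
  push Not at na
  have h2 : ∀ v, N Φ a v → (⟪c, a⟫ ^ 2 = (0 : ℝ) ∧ ⟪c, v⟫ ^ 2 = (0 : ℝ)) ∨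
      (⟪c, a⟫ ^ 2 = (1 / 4 : ℝ) ∧ ⟪c, v⟫ ^ 2 = (1 / 4 : ℝ)) := by
    intro v hv
    have nv := nW v (Or.inr (Or.inr hv))
    push Not at nv
    rcases tab h hAS hc ha hv with ⟨h3, h4 | h4 | h4⟩ | ⟨h3, _⟩ | ⟨h3, _⟩ | ⟨h3, h4⟩
    · exact Or.inl ⟨h3, h4⟩
    · exact absurd h4 nv.1
    · exact absurd h4 nv.2
    · exact absurd h3 na.1
    · exact absurd h3 na.2
    · exact Or.inr ⟨h3, h4⟩
  rcases h2 u hu with ⟨h3, _⟩ | ⟨h3, _⟩
  · left
    rintro x (rfl | rfl | hx)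
    · exact pow_eq_zero_iff (by norm_num) |>.1 h3
    · rw [inner_neg_right, neg_eq_zero]
      exact pow_eq_zero_iff (by norm_num) |>.1 h3
    · rcases h2 x hx with ⟨_, h4⟩ | ⟨h4, _⟩
      · exact pow_eq_zero_iff (by norm_num) |>.1 h4
      · rw [h3] at h4
        norm_num at h4
  · right
    rintro x (rfl | rfl | hx)
    · exact h3
    · rw [inner_neg_right, neg_sq]
      exact h3
    · rcases h2 x hx with ⟨h4, _⟩ | ⟨_, h4⟩
      · rw [h3] at h4
        norm_num at h4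
      · exact h4

theorem perp_W {a c : E d} (hc : ∀ x, Q Φ a x → ⟪c, x⟫ = (0 : ℝ)) : c ∈ (W Φ a)ᗮ := by
  rw [Submodule.mem_orthogonal']
  intro u hu
  induction hu using Submodule.span_induction with
  | mem x hx => exact hc x hx
  | zero => exact inner_zero_right _
  | add x y _ _ hx hy => rw [inner_add_right, hx, hy, add_zero]
  | smul t x _ hx => rw [inner_smul_right, hx, mul_zero]

/-- the end of the argument -/
theorem fin (hd : 5 ≤ d) (h : IsRS Φ) (hI : IrrRS Φ) (hs : Submodule.span ℝ Φ = ⊤) {a : E d}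
    (ha : a ∈ Φ) (S : Finset (E d)) (hS : S.card ≤ 4) (hQ : ∀ x, Q Φ a x → x ∈ Submodule.span ℝ
      (S : Set (E d))) (hall : ∀ c ∈ Φ, c ∈ W Φ a ∨ c ∈ (W Φ a)ᗮ) : False := by
  have h1 : ∀ c ∈ Φ, c ∈ W Φ a := by
    rcases hI (W Φ a) hall with h2 | h2
    · exact h2
    · exfalso
      have h3 := (Submodule.mem_orthogonal' _ _).1 (h2 a ha) a (mem_W (Or.inl rfl))
      rw [h.inner_self ha] at h3
      norm_num at h3
  have h2 : (⊤ : Submodule ℝ (E d)) ≤ Submodule.span ℝ (S : Set (E d)) := by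
    rw [← hs]
    refine (Submodule.span_le.2 h1).trans ?_
    exact Submodule.span_le.2 hQ
  have h3 : Module.finrank ℝ (⊤ : Submodule ℝ (E d)) ≤
      Module.finrank ℝ (Submodule.span ℝ (S : Set (E d))) := Submodule.finrank_mono h2
  have h4 := finrank_span_finset_le_card (R := ℝ) S
  rw [finrank_top, finrank_euclideanSpace_fin] at h3
  change Module.finrank ℝ (Submodule.span ℝ (S : Set (E d))) ≤ S.card at h4
  omega

/-- three mutually orthogonal members in the class -/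
def P3 (Φ : Set (E d)) (a : E d) : Prop := ∃ u v, N Φ a u ∧ N Φ a v ∧ ⟪u, v⟫ = (0 : ℝ)

theorem P3.all (h : IsRS Φ) (hH : HomRS Φ) {a b : E d} (ha : a ∈ Φ) (hb : b ∈ Φ) (hP : P3 Φ a) :
    P3 Φ b := by
  obtain ⟨u, v, hu, hv, huv⟩ := hP
  obtain ⟨g, hg, e⟩ := hH a ha b hb
  have h1 := hu.map g hg
  have h2 := hv.map g hg
  have h3 : ⟪g u, g v⟫ = (0 : ℝ) := by rw [LinearIsometryEquiv.inner_map_map]; exact huv
  rcases e with e | e
  · rw [e] at h1 h2
    exact ⟨g u, g v, h1, h2, h3⟩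
  · rw [e] at h1 h2
    exact ⟨g u, g v, h1.ofNeg h hb, h2.ofNeg h hb, h3⟩

/-- the neighbour `b' = (a - u) / √2` of `b = (a + u) / √2` -/
theorem N.twin (h : IsRS Φ) {a u : E d} (ha : a ∈ Φ) (hu : N Φ a u) :
    N Φ (k • (a + u)) (k • (a + -u)) := by
  have huu := h.inner_self hu.1
  have haa := h.inner_self ha
  have hua : ⟪u, a⟫ = (0 : ℝ) := by rw [real_inner_comm]; exact hu.2.1
  refine ⟨(hu.negr h ha).2.2, ?_, ?_⟩
  · simp only [inner_smul_left, inner_smul_right, inner_add_left, inner_add_right, haa, hua,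
      RCLike.conj_to_real, inner_neg_right, huu, hu.2.1]
    ring
  · have e : k • (k • (a + u) + k • (a + -u)) = (2 * (k * k)) • a := by module
    rw [e, k_sq]
    have e2 : ((2 : ℝ) * (1 / 2)) • a = a := by module
    rw [e2]
    exact ha

/-- classes with two pairs: a root at 60 degrees to both members is in the class -/
theorem auxA (h : IsRS Φ) (hAS : ∀ a ∈ Φ, ∀ b ∈ Φ, AS ⟪a, b⟫) (hn : ∀ b ∈ Φ, ¬ P3 Φ b)
    {a u c : E d} (ha : a ∈ Φ) (hu : N Φ a u) (hc : c ∈ Φ) (e1 : ⟪c, a⟫ = (1 / 2 : ℝ))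
    (e2 : ⟪c, u⟫ = (1 / 2 : ℝ)) : c = a ∨ c = u := by
  have h1 : ⟪c, k • (a + u)⟫ = k := by
    rw [inner_smul_right, inner_add_right, e1, e2]
    ring
  obtain ⟨v, hv, rfl⟩ := N.of45 h hc hu.2.2 h1
  have ht := hu.twin h ha
  rcases N.dia h hAS hu.2.2 ht hv with h2 | h2 | h2
  · left
    rw [h2]
    have e : k • (k • (a + u) + k • (a + -u)) = (2 * (k * k)) • a := by module
    rw [e, k_sq]
    module
  · right
    rw [h2]
    have e : k • (k • (a + u) + -(k • (a + -u))) = (2 * (k * k)) • u := by module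
    rw [e, k_sq]
    module
  · exact absurd ⟨_, _, ht, hv, h2⟩ (hn _ hu.2.2)

theorem half_of_sq {t : ℝ} (h : t ^ 2 = 1 / 4) : t = 1 / 2 ∨ -t = 1 / 2 := by
  have h5 : (t - 1 / 2) * (t + 1 / 2) = (0 : ℝ) := by linear_combination h
  rcases mul_eq_zero.1 h5 with h6 | h6
  · left; linarith
  · right; linarith

theorem auxA' (h : IsRS Φ) (hAS : ∀ a ∈ Φ, ∀ b ∈ Φ, AS ⟪a, b⟫) (hn : ∀ b ∈ Φ, ¬ P3 Φ b)
    {a u c : E d} (ha : a ∈ Φ) (hu : N Φ a u) (hc : c ∈ Φ) (e1 : ⟪c, a⟫ ^ 2 = (1 / 4 : ℝ))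
    (e2 : ⟪c, u⟫ ^ 2 = (1 / 4 : ℝ)) : Q Φ a c := by
  have qu : Q Φ a u := Or.inr (Or.inr hu)
  rcases half_of_sq e1 with e1 | e1 <;> rcases half_of_sq e2 with e2 | e2
  · rcases auxA h hAS hn ha hu hc e1 e2 with rfl | rfl
    · exact Or.inl rfl
    · exact qu
  · rw [← inner_neg_right] at e2
    rcases auxA h hAS hn ha (hu.negr h ha) hc e1 e2 with rfl | rfl
    · exact Or.inl rfl
    · exact qu.neg h ha
  · rw [← inner_neg_right] at e1
    rcases auxA h hAS hn (h.neg_mem ha) (hu.negl h ha) hc e1 e2 with rfl | rfl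
    · exact Or.inr (Or.inl rfl)
    · exact qu
  · rw [← inner_neg_right] at e1 e2
    rcases auxA h hAS hn (h.neg_mem ha) ((hu.negl h ha).negr h (h.neg_mem ha)) hc e1 e2 with
      rfl | rfl
    · exact Or.inr (Or.inl rfl)
    · exact qu.neg h ha

theorem P3.perp (h : IsRS Φ) (hAS : ∀ a ∈ Φ, ∀ b ∈ Φ, AS ⟪a, b⟫) {a u : E d} (ha : a ∈ Φ)
    (hu : N Φ a u) (hP : P3 Φ a) : ∃ w, N Φ a w ∧ ⟪u, w⟫ = (0 : ℝ) := by
  obtain ⟨x, y, hx, hy, hxy⟩ := hP
  rcases N.dia h hAS ha hu hx with rfl | rfl | h1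
  · exact ⟨y, hy, hxy⟩
  · refine ⟨y, hy, ?_⟩
    rwa [inner_neg_left, neg_eq_zero] at hxy
  · exact ⟨x, hx, h1⟩

end RGC

open RGC

theorem rgc : StmtRGc := by
  classical
  intro d Φ hd h hI hs hH hAS a0 ha0 b0 hb0 hab
  -- every root has a neighbour
  obtain ⟨u0, hu0, -⟩ := N.of45 h ha0 hb0 hab
  by_cases hP : ∃ a ∈ Φ, P3 Φ a
  · obtain ⟨a1, ha1, hP1⟩ := hP
    have hall : ∀ b ∈ Φ, P3 Φ b := fun b hb => hP1.all h hH ha1 hb
    have ha := hb0
    obtain ⟨a, hae⟩ : ∃ a, a = b0 := ⟨_, rfl⟩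
    rw [← hae] at ha hu0
    obtain ⟨u, hu⟩ : ∃ u, u = u0 := ⟨_, rfl⟩
    rw [← hu] at hu0
    clear hu hae
    have haa := h.inner_self ha
    have huu := h.inner_self hu0.1
    have hau := hu0.2.1
    have hua : ⟪u, a⟫ = (0 : ℝ) := by rw [real_inner_comm]; exact hau
    -- the vector w
    obtain ⟨w, hw, hw'⟩ := P3.perp h hAS hu0.2.2 (hu0.twin h ha) (hall _ hu0.2.2)
    have kne := k_pos.ne'
    have hw1 := hw.2.1
    rw [inner_smul_left, inner_add_left, RCLike.conj_to_real] at hw1 hw'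
    rw [inner_neg_left] at hw'
    have haw : ⟪a, w⟫ = (0 : ℝ) := by
      have h1 := (mul_eq_zero.1 hw1).resolve_left kne
      have h2 := (mul_eq_zero.1 hw').resolve_left kne
      linarith
    have huw : ⟪u, w⟫ = (0 : ℝ) := by
      have h1 := (mul_eq_zero.1 hw1).resolve_left kne
      linarith
    have hwa : ⟪w, a⟫ = (0 : ℝ) := by rw [real_inner_comm]; exact haw
    have hea : ⟪k • (k • (a + u) + w), a⟫ = (1 / 2 : ℝ) := by
      simp only [inner_smul_left, inner_add_left, RCLike.conj_to_real, haa, hua, hwa]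
      linear_combination k_sq
    have hwx : ∀ x, N Φ a x → ⟪u, x⟫ = (0 : ℝ) → ⟪w, x⟫ ^ 2 = (1 / 2 : ℝ) := by
      intro x hx hux
      have h1 := tab h hAS hw.2.2 ha hx
      rw [hea] at h1
      have h2 : ⟪k • (k • (a + u) + w), x⟫ ^ 2 = (1 / 4 : ℝ) := by
        rcases h1 with ⟨h3, _⟩ | ⟨h3, _⟩ | ⟨h3, _⟩ | ⟨_, h3⟩
        · norm_num at h3
        · norm_num at h3
        · norm_num at h3
        · exact h3
      simp only [inner_smul_left, inner_add_left, RCLike.conj_to_real, hx.2.1, hux] at h2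
      linear_combination 2 * h2 - 2 * ⟪w, x⟫ ^ 2 * k_sq
    -- the vectors v, v2
    obtain ⟨v, hv, huv, hwv⟩ : ∃ v, N Φ a v ∧ ⟪u, v⟫ = (0 : ℝ) ∧ ⟪w, v⟫ = k := by
      obtain ⟨v, hv, huv⟩ := P3.perp h hAS ha hu0 (hall a ha)
      rcases sq_eq (hwx v hv huv) with h1 | h1
      · exact ⟨v, hv, huv, h1⟩
      · exact ⟨-v, hv.negr h ha, by rw [inner_neg_right, huv, neg_zero], by
          rw [inner_neg_right]; exact h1⟩
    obtain ⟨v2, hv2, hwe⟩ := N.of45 h hw.1 hv.1 hwv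
    have hav2 : ⟪a, v2⟫ = (0 : ℝ) := by
      rw [hwe, inner_smul_right, inner_add_right, hv.2.1, zero_add] at haw
      exact (mul_eq_zero.1 haw).resolve_left kne
    have huv2 : ⟪u, v2⟫ = (0 : ℝ) := by
      rw [hwe, inner_smul_right, inner_add_right, huv, zero_add] at huw
      exact (mul_eq_zero.1 huw).resolve_left kne
    have hN2 : N Φ a v2 := by
      rcases Q.next h hAS ha (Or.inr (Or.inr hv)) hv2 with h1 | h1 | h1
      · rw [h1, haa] at hav2
        norm_num at hav2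
      · rw [h1, inner_neg_right, haa] at hav2
        norm_num at hav2
      · exact h1
    have hvv := h.inner_self hv.1
    have hvv2 := h.inner_self hv2.1
    have hva : ⟪v, a⟫ = (0 : ℝ) := by rw [real_inner_comm]; exact hv.2.1
    have hv2a : ⟪v2, a⟫ = (0 : ℝ) := by rw [real_inner_comm]; exact hav2
    have hvu : ⟪v, u⟫ = (0 : ℝ) := by rw [real_inner_comm]; exact huv
    have hv2u : ⟪v2, u⟫ = (0 : ℝ) := by rw [real_inner_comm]; exact huv2
    have hv2v : ⟪v2, v⟫ = (0 : ℝ) := by rw [real_inner_comm]; exact hv2.2.1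
    refine fin hd h hI hs ha {a, u, v, v2} Finset.card_le_four ?_ ?_
    · intro x hx
      push_cast
      rcases hx with rfl | rfl | hx
      · exact Submodule.subset_span (by simp)
      · exact Submodule.neg_mem _ (Submodule.subset_span (by simp))
      · rcases N.dia h hAS ha hu0 hx with rfl | rfl | h1
        · exact Submodule.subset_span (by simp)
        · exact Submodule.neg_mem _ (Submodule.subset_span (by simp))
        · rcases N.dia h hAS ha hv hx with rfl | rfl | h2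
          · exact Submodule.subset_span (by simp)
          · exact Submodule.neg_mem _ (Submodule.subset_span (by simp))
          · rcases N.dia h hAS ha hN2 hx with rfl | rfl | h3
            · exact Submodule.subset_span (by simp)
            · exact Submodule.neg_mem _ (Submodule.subset_span (by simp))
            · exfalso
              have h4 := hwx x hx h1
              rw [hwe, inner_smul_left, inner_add_left, h2, h3] at h4
              norm_num at h4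
    · intro c hc
      have hcc := h.inner_self hc
      rcases cls h hAS ha hu0 hc with h1 | h1 | h1
      · exact Or.inl h1
      · exact Or.inr (perp_W h1)
      · left
        have ea := h1 a (Or.inl rfl)
        have eu := h1 u (Or.inr (Or.inr hu0))
        have ev := h1 v (Or.inr (Or.inr hv))
        have ev2 := h1 v2 (Or.inr (Or.inr hN2))
        have key : c = ⟪c, a⟫ • a + ⟪c, u⟫ • u + ⟪c, v⟫ • v + ⟪c, v2⟫ • v2 := by
          rw [← sub_eq_zero, ← inner_self_eq_zero (𝕜 := ℝ)]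
          simp only [inner_sub_left, inner_sub_right, inner_add_left, inner_add_right,
            inner_smul_left, inner_smul_right, RCLike.conj_to_real, haa, huu, hvv, hvv2, hcc, hau,
            hua, hv.2.1, hva, huv, hvu, hav2, hv2a, huv2, hv2u, hv2v, hv2.2.1,
            real_inner_comm c a, real_inner_comm c u, real_inner_comm c v, real_inner_comm c v2]
          linear_combination -ea - eu - ev - ev2
        rw [key]
        exact Submodule.add_mem _ (Submodule.add_mem _ (Submodule.add_mem _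
          (Submodule.smul_mem _ _ (mem_W (Or.inl rfl)))
          (Submodule.smul_mem _ _ (mem_W (Or.inr (Or.inr hu0)))))
          (Submodule.smul_mem _ _ (mem_W (Or.inr (Or.inr hv)))))
          (Submodule.smul_mem _ _ (mem_W (Or.inr (Or.inr hN2))))
  · push Not at hP
    refine fin hd h hI hs hb0 {b0, u0} (Finset.card_le_two.trans (by norm_num)) ?_ ?_
    · intro x hx
      push_cast
      rcases hx with rfl | rfl | hx
      · exact Submodule.subset_span (by simp)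
      · exact Submodule.neg_mem _ (Submodule.subset_span (by simp))
      · rcases N.dia h hAS hb0 hu0 hx with rfl | rfl | h1
        · exact Submodule.subset_span (by simp)
        · exact Submodule.neg_mem _ (Submodule.subset_span (by simp))
        · exact absurd ⟨_, _, hu0, hx, h1⟩ (hP _ hb0)
    · intro c hc
      rcases cls h hAS hb0 hu0 hc with h1 | h1 | h1
      · exact Or.inl h1
      · exact Or.inr (perp_W h1)
      · exact Or.inl (mem_W (auxA' h hAS hP hb0 hu0 hc (h1 _ (Or.inl rfl))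
          (h1 _ (Or.inr (Or.inr hu0)))))

end

end FO2
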