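import Pool.Agent.FO2.Stmts

/-!
# Root sets without angles of 36 degrees in dimension at least five (module RGD)
-/

namespace FO2

open Lib_helper64.FO
open scoped RealInnerProductSpace

noncomputable section

namespace RGD

/-- the possible inner products; `p` is the golden ratio -/
def Val (p t : ℝ) : Prop :=
  t = 0 ∨ t = 1 / 2 ∨ t = -(1 / 2) ∨ t = p / 2 ∨ t = -(p / 2) ∨ t = (p - 1) / 2 ∨
    t = -((p - 1) / 2) ∨ t = 1 ∨ t = -1

/-- the standing hypotheses -/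
structure Hyp {d : ℕ} (Φ : Set (E d)) (p : ℝ) : Prop where
  rs : IsRS Φ
  sq : p ^ 2 = p + 1
  lo : 8 / 5 < p
  hi : p < 13 / 8
  val : ∀ a ∈ Φ, ∀ b ∈ Φ, Val p ⟪a, b⟫

theorem two_sum {p t t' : ℝ} (lo : 8 / 5 < p) (hi : p < 13 / 8) (h : Val p t) (h' : Val p t')
    (e : t + t' = (p + 1) / 2) :
    (t = 1 ∧ t' = (p - 1) / 2) ∨ (t = p / 2 ∧ t' = 1 / 2) ∨ (t = 1 / 2 ∧ t' = p / 2) ∨
      (t = (p - 1) / 2 ∧ t' = 1) := by
  rcases h with h | h | h | h | h | h | h | h | h <;>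
    rcases h' with h' | h' | h' | h' | h' | h' | h' | h' | h' <;>
    first
      | (exfalso; subst h h'; linarith)
      | exact Or.inl ⟨h, h'⟩
      | exact Or.inr (Or.inl ⟨h, h'⟩)
      | exact Or.inr (Or.inr (Or.inl ⟨h, h'⟩))
      | exact Or.inr (Or.inr (Or.inr ⟨h, h'⟩))

variable {d : ℕ} {Φ : Set (E d)} {p : ℝ}

/-- the roots at 36 degrees from `a` -/
def NN (Φ : Set (E d)) (p : ℝ) (a : E d) : Set (E d) := {b | b ∈ Φ ∧ ⟪a, b⟫ = p / 2}

/-- the span of `a` and its neighbours -/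
def TT (Φ : Set (E d)) (p : ℝ) (a : E d) : Submodule ℝ (E d) :=
  Submodule.span ℝ (insert a (NN Φ p a))

theorem a_mem (a : E d) : a ∈ TT Φ p a := Submodule.subset_span (Set.mem_insert _ _)

theorem N_mem {a b : E d} (hb : b ∈ NN Φ p a) : b ∈ TT Φ p a :=
  Submodule.subset_span (Set.mem_insert_of_mem _ hb)

theorem neg_mem' (H : Hyp Φ p) {a : E d} (ha : -a ∈ Φ) : a ∈ Φ := by
  have := H.rs.neg_mem ha
  rwa [neg_neg] at this

theorem self (H : Hyp Φ p) {a : E d} (ha : a ∈ Φ) : ⟪a, a⟫ = (1 : ℝ) := H.rs.inner_self ha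

theorem eq_of_one (H : Hyp Φ p) {a b : E d} (ha : a ∈ Φ) (hb : b ∈ Φ) (h : ⟪a, b⟫ = (1 : ℝ)) :
    a = b := (inner_eq_one_iff_of_norm_eq_one (H.rs.norm a ha) (H.rs.norm b hb)).1 h

/-- switching -/
theorem sw_mem (H : Hyp Φ p) {a b : E d} (ha : a ∈ Φ) (hb : b ∈ Φ) (h : ⟪a, b⟫ = p / 2) :
    p • a - b ∈ Φ := by
  have h1 := H.rs.neg_mem (H.rs.refl a ha b hb)
  have e : -sref a b = p • a - b := by
    rw [sref, h]
    module
  rwa [e] at h1

theorem sw_N (H : Hyp Φ p) {a b : E d} (ha : a ∈ Φ) (hb : b ∈ NN Φ p a) :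
    p • a - b ∈ NN Φ p a := by
  refine ⟨sw_mem H ha hb.1 hb.2, ?_⟩
  rw [inner_sub_right, inner_smul_right, self H ha, hb.2]
  ring

theorem symm {a b : E d} (ha : a ∈ Φ) (hb : b ∈ NN Φ p a) : a ∈ NN Φ p b :=
  ⟨ha, by rw [real_inner_comm]; exact hb.2⟩

theorem sw_inner (H : Hyp Φ p) {a b c : E d} (hc : c ∈ NN Φ p a) :
    ⟪p • a - b, c⟫ = (p + 1) / 2 - (⟪b, c⟫ : ℝ) := by
  rw [inner_sub_left, real_inner_smul_left, hc.2, ← H.sq]
  ring

/-- products of two neighbours -/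
theorem NN_prod (H : Hyp Φ p) {a b c : E d} (ha : a ∈ Φ) (hb : b ∈ NN Φ p a) (hc : c ∈ NN Φ p a)
    (h1 : b ≠ c) (h2 : p • a - b ≠ c) : ⟪b, c⟫ = (1 / 2 : ℝ) ∨ ⟪b, c⟫ = p / 2 := by
  have hs := sw_N H ha hb
  have e := sw_inner H (b := b) hc
  rcases two_sum H.lo H.hi (H.val _ hb.1 _ hc.1) (H.val _ hs.1 _ hc.1) (by rw [e]; ring) with
    h | h | h | h
  · exact absurd (eq_of_one H hb.1 hc.1 h.1) h1
  · exact Or.inr h.1
  · exact Or.inl h.1
  · exact absurd (eq_of_one H hs.1 hc.1 h.2) h2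

/-- (i) there are no five roots with all mutual products `p / 2` -/
theorem no5 (H : Hyp Φ p) {b0 b1 b2 b3 b4 : E d} (h0 : b0 ∈ Φ) (h1 : b1 ∈ Φ) (h2 : b2 ∈ Φ)
    (h3 : b3 ∈ Φ) (h4 : b4 ∈ Φ) (e01 : ⟪b0, b1⟫ = p / 2) (e02 : ⟪b0, b2⟫ = p / 2)
    (e03 : ⟪b0, b3⟫ = p / 2) (e04 : ⟪b0, b4⟫ = p / 2) (e12 : ⟪b1, b2⟫ = p / 2)
    (e13 : ⟪b1, b3⟫ = p / 2) (e14 : ⟪b1, b4⟫ = p / 2) (e23 : ⟪b2, b3⟫ = p / 2)
    (e24 : ⟪b2, b4⟫ = p / 2) (e34 : ⟪b3, b4⟫ = p / 2) : False := by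
  have hp := H.sq
  have m1 : b3 - p • b2 ∈ Φ := by
    have h := H.rs.refl b2 h2 b3 h3
    have e : sref b2 b3 = b3 - p • b2 := by
      rw [sref, e23]
      module
    rwa [e] at h
  have m2 : b3 - p • b2 + b1 ∈ Φ := by
    have h := H.rs.refl b1 h1 _ m1
    have e : sref b1 (b3 - p • b2) = b3 - p • b2 + b1 := by
      have e' : ⟪b1, b3 - p • b2⟫ = (-1 / 2 : ℝ) := by
        rw [inner_sub_right, inner_smul_right, e13, e12]
        linear_combination (-1 / 2) * hp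
      rw [sref, e']
      module
    rwa [e] at h
  have m3 : b3 - p • b2 + b1 - (p - 1) • b0 ∈ Φ := by
    have h := H.rs.refl b0 h0 _ m2
    have e : sref b0 (b3 - p • b2 + b1) = b3 - p • b2 + b1 - (p - 1) • b0 := by
      have e' : ⟪b0, b3 - p • b2 + b1⟫ = (p - 1) / 2 := by
        rw [inner_add_right, inner_sub_right, inner_smul_right, e03, e02, e01]
        linear_combination (-1 / 2) * hp
      rw [sref, e']
      module
    rwa [e] at h
  have hv := H.val _ m3 _ h4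
  have e : ⟪b3 - p • b2 + b1 - (p - 1) • b0, b4⟫ = (p - 2) / 2 := by
    rw [inner_sub_left, inner_add_left, inner_sub_left, real_inner_smul_left, real_inner_smul_left,
      e34, e24, e14, e04]
    linear_combination (-1) * hp
  rw [e] at hv
  have lo := H.lo
  have hi := H.hi
  rcases hv with h | h | h | h | h | h | h | h | h <;> linarith

/-- the linear relation -/
theorem dep (H : Hyp Φ p) {a0 a1 a2 u v : E d} (h0 : a0 ∈ Φ) (h1 : a1 ∈ Φ) (h2 : a2 ∈ Φ)
    (hu : u ∈ Φ) (hv : v ∈ Φ) (e01 : ⟪a0, a1⟫ = p / 2) (e02 : ⟪a0, a2⟫ = p / 2)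
    (e12 : ⟪a1, a2⟫ = p / 2) (e0u : ⟪a0, u⟫ = p / 2) (e0v : ⟪a0, v⟫ = p / 2)
    (e1u : ⟪a1, u⟫ = p / 2) (e1v : ⟪a1, v⟫ = p / 2) (e2u : ⟪a2, u⟫ = p / 2)
    (e2v : ⟪a2, v⟫ = p / 2) (euv : ⟪u, v⟫ = (1 / 2 : ℝ)) :
    u + v = (p - 1) • (a0 + a1 + a2) := by
  have hp := H.sq
  have f0 := self H h0
  have f1 := self H h1
  have f2 := self H h2
  have fu := self H hu
  have fv := self H hv
  have g01 : ⟪a1, a0⟫ = p / 2 := by rw [real_inner_comm]; exact e01
  have g02 : ⟪a2, a0⟫ = p / 2 := by rw [real_inner_comm]; exact e02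
  have g12 : ⟪a2, a1⟫ = p / 2 := by rw [real_inner_comm]; exact e12
  have g0u : ⟪u, a0⟫ = p / 2 := by rw [real_inner_comm]; exact e0u
  have g0v : ⟪v, a0⟫ = p / 2 := by rw [real_inner_comm]; exact e0v
  have g1u : ⟪u, a1⟫ = p / 2 := by rw [real_inner_comm]; exact e1u
  have g1v : ⟪v, a1⟫ = p / 2 := by rw [real_inner_comm]; exact e1v
  have g2u : ⟪u, a2⟫ = p / 2 := by rw [real_inner_comm]; exact e2u
  have g2v : ⟪v, a2⟫ = p / 2 := by rw [real_inner_comm]; exact e2v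
  have guv : ⟪v, u⟫ = (1 / 2 : ℝ) := by rw [real_inner_comm]; exact euv
  have key : ⟪u + v - (p - 1) • (a0 + a1 + a2), u + v - (p - 1) • (a0 + a1 + a2)⟫ = (0 : ℝ) := by
    simp only [inner_sub_left, inner_sub_right, inner_add_left, inner_add_right,
      real_inner_smul_left, inner_smul_right, f0, f1, f2, fu, fv, e01, e02, e12, e0u, e0v, e1u,
      e1v, e2u, e2v, euv, g01, g02, g12, g0u, g0v, g1u, g1v, g2u, g2v, guv]
    linear_combination (3 * p - 6) * hp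
  rw [inner_self_eq_zero, sub_eq_zero] at key
  exact key

/-- the norm contradiction -/
theorem no_half (H : Hyp Φ p) {a b1 b2 b3 c : E d} (ha : a ∈ Φ) (h1 : b1 ∈ NN Φ p a)
    (h2 : b2 ∈ NN Φ p a) (h3 : b3 ∈ NN Φ p a) (hc : c ∈ NN Φ p a) (e12 : ⟪b1, b2⟫ = p / 2)
    (e13 : ⟪b1, b3⟫ = p / 2) (e1c : ⟪b1, c⟫ = p / 2) (e23 : ⟪b2, b3⟫ = (1 / 2 : ℝ))
    (e2c : ⟪b2, c⟫ = (1 / 2 : ℝ)) (e3c : ⟪b3, c⟫ = (1 / 2 : ℝ)) : False := by
  have hp := H.sq
  have f0 := self H ha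
  have f1 := self H h1.1
  have f2 := self H h2.1
  have f3 := self H h3.1
  have fc := self H hc.1
  have e01 := h1.2
  have e02 := h2.2
  have e03 := h3.2
  have e0c := hc.2
  have g01 : ⟪b1, a⟫ = p / 2 := by rw [real_inner_comm]; exact e01
  have g02 : ⟪b2, a⟫ = p / 2 := by rw [real_inner_comm]; exact e02
  have g03 : ⟪b3, a⟫ = p / 2 := by rw [real_inner_comm]; exact e03
  have g0c : ⟪c, a⟫ = p / 2 := by rw [real_inner_comm]; exact e0c
  have g12 : ⟪b2, b1⟫ = p / 2 := by rw [real_inner_comm]; exact e12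
  have g13 : ⟪b3, b1⟫ = p / 2 := by rw [real_inner_comm]; exact e13
  have g1c : ⟪c, b1⟫ = p / 2 := by rw [real_inner_comm]; exact e1c
  have g23 : ⟪b3, b2⟫ = (1 / 2 : ℝ) := by rw [real_inner_comm]; exact e23
  have g2c : ⟪c, b2⟫ = (1 / 2 : ℝ) := by rw [real_inner_comm]; exact e2c
  have g3c : ⟪c, b3⟫ = (1 / 2 : ℝ) := by rw [real_inner_comm]; exact e3c
  have key : ⟪b2 + b3 + c - b1 - p • a, b2 + b3 + c - b1 - p • a⟫ = 6 - 4 * p := by
    simp only [inner_sub_left, inner_sub_right, inner_add_left, inner_add_right,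
      real_inner_smul_left, inner_smul_right, f0, f1, f2, f3, fc, e01, e02, e03, e0c, e12, e13,
      e1c, e23, e2c, e3c, g01, g02, g03, g0c, g12, g13, g1c, g23, g2c, g3c]
    linear_combination (-1) * hp
  have h := real_inner_self_nonneg (x := b2 + b3 + c - b1 - p • a)
  rw [key] at h
  have lo := H.lo
  linarith

/-- (ii) the fourth neighbour -/
theorem mem4 (H : Hyp Φ p) {a b1 b2 b3 c : E d} (ha : a ∈ Φ) (h1 : b1 ∈ NN Φ p a)
    (h2 : b2 ∈ NN Φ p a) (h3 : b3 ∈ NN Φ p a) (hc : c ∈ NN Φ p a) (e12 : ⟪b1, b2⟫ = p / 2)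
    (e13 : ⟪b1, b3⟫ = p / 2) (e1c : ⟪b1, c⟫ = p / 2)
    (e23 : ⟪b2, b3⟫ = (1 / 2 : ℝ) ∨ ⟪b2, b3⟫ = p / 2)
    (e2c : ⟪b2, c⟫ = (1 / 2 : ℝ) ∨ ⟪b2, c⟫ = p / 2)
    (e3c : ⟪b3, c⟫ = (1 / 2 : ℝ) ∨ ⟪b3, c⟫ = p / 2) (W : Submodule ℝ (E d)) (wa : a ∈ W)
    (w1 : b1 ∈ W) (w2 : b2 ∈ W) (w3 : b3 ∈ W) : c ∈ W := by
  have hp := H.sq
  have hp1 : p - 1 ≠ 0 := by
    have := H.lo
    intro h
    linarith
  -- solving `(p - 1) • c = y`
  have solve : ∀ y : E d, y ∈ W → (p - 1) • c = y → c ∈ W := by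
    intro y hy e
    have : c = (p - 1)⁻¹ • y := by rw [← e, smul_smul, inv_mul_cancel₀ hp1, one_smul]
    rw [this]
    exact W.smul_mem _ hy
  -- products after switching
  have s : ∀ {b b' : E d}, b' ∈ NN Φ p a → ∀ {t t' : ℝ}, ⟪b, b'⟫ = t → (p + 1) / 2 - t = t' →
      ⟪p • a - b, b'⟫ = t' := by
    intro b b' hb' t t' e e'
    rw [sw_inner H hb', e, e']
  have cm : ∀ {b b' : E d} {t : ℝ}, ⟪b, b'⟫ = t → ⟪b', b⟫ = t := by
    intro b b' t e
    rw [real_inner_comm]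
    exact e
  rcases e23 with e23 | e23 <;> rcases e2c with e2c | e2c <;> rcases e3c with e3c | e3c
  · exact (no_half H ha h1 h2 h3 hc e12 e13 e1c e23 e2c e3c).elim
  · -- 23, 2c : switch 2
    have hs := sw_N H ha h2
    have r := dep H ha h3.1 hc.1 h1.1 hs.1 h3.2 hc.2 e3c h1.2 hs.2 (cm e13)
      (cm (s h3 e23 (by ring))) (cm e1c) (cm (s hc e2c (by ring)))
      (cm (s h1 (cm e12) (by ring)))
    refine solve (b1 + (p • a - b2) - (p - 1) • (a + b3)) ?_ ?_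
    · exact W.sub_mem (W.add_mem w1 (W.sub_mem (W.smul_mem _ wa) w2))
        (W.smul_mem _ (W.add_mem wa w3))
    · rw [r]
      module
  · -- 23, 3c : switch 3
    have hs := sw_N H ha h3
    have r := dep H ha h2.1 hc.1 h1.1 hs.1 h2.2 hc.2 e2c h1.2 hs.2 (cm e12)
      (cm (s h2 (cm e23) (by ring))) (cm e1c) (cm (s hc e3c (by ring)))
      (cm (s h1 (cm e13) (by ring)))
    refine solve (b1 + (p • a - b3) - (p - 1) • (a + b2)) ?_ ?_
    · exact W.sub_mem (W.add_mem w1 (W.sub_mem (W.smul_mem _ wa) w3))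
        (W.smul_mem _ (W.add_mem wa w2))
    · rw [r]
      module
  · -- 23
    have r := dep H ha h1.1 hc.1 h2.1 h3.1 h1.2 hc.2 e1c h2.2 h3.2 e12 e13 (cm e2c) (cm e3c) e23
    refine solve (b2 + b3 - (p - 1) • (a + b1)) ?_ ?_
    · exact W.sub_mem (W.add_mem w2 w3) (W.smul_mem _ (W.add_mem wa w1))
    · rw [r]
      module
  · -- 2c, 3c : switch c
    have hs := sw_N H ha hc
    have r := dep H ha h2.1 h3.1 h1.1 hs.1 h2.2 h3.2 e23 h1.2 hs.2 (cm e12)
      (cm (s h2 (cm e2c) (by ring))) (cm e13) (cm (s h3 (cm e3c) (by ring)))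
      (cm (s h1 (cm e1c) (by ring)))
    have e : c = b1 + p • a - (p - 1) • (a + b2 + b3) := by
      rw [← r]
      module
    rw [e]
    exact W.sub_mem (W.add_mem w1 (W.smul_mem _ wa))
      (W.smul_mem _ (W.add_mem (W.add_mem wa w2) w3))
  · -- 2c
    have r := dep H ha h1.1 h3.1 h2.1 hc.1 h1.2 h3.2 e13 h2.2 hc.2 e12 e1c (cm e23) e3c e2c
    have e : c = (p - 1) • (a + b1 + b3) - b2 := by
      rw [← r]
      module
    rw [e]
    exact W.sub_mem (W.smul_mem _ (W.add_mem (W.add_mem wa w1) w3)) w2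
  · -- 3c
    have r := dep H ha h1.1 h2.1 h3.1 hc.1 h1.2 h2.2 e12 h3.2 hc.2 e13 e1c e23 e2c e3c
    have e : c = (p - 1) • (a + b1 + b2) - b3 := by
      rw [← r]
      module
    rw [e]
    exact W.sub_mem (W.smul_mem _ (W.add_mem (W.add_mem wa w1) w2)) w3
  · exact (no5 H ha h1.1 h2.1 h3.1 hc.1 h1.2 h2.2 h3.2 hc.2 e12 e13 e1c e23 e2c e3c).elim

/-- normalisation by switching -/
theorem exists_sw (H : Hyp Φ p) {a b c : E d} (ha : a ∈ Φ) (hb : b ∈ NN Φ p a)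
    (hc : c ∈ NN Φ p a) (W : Submodule ℝ (E d)) (wa : a ∈ W) (wb : b ∈ W) (wc : c ∉ W) :
    ∃ c', c' ∈ NN Φ p a ∧ c' ∉ W ∧ ⟪b, c'⟫ = p / 2 := by
  have h1 : b ≠ c := fun h => wc (h ▸ wb)
  have h2 : p • a - b ≠ c := fun h => wc (h ▸ W.sub_mem (W.smul_mem _ wa) wb)
  rcases NN_prod H ha hb hc h1 h2 with h | h
  · refine ⟨p • a - c, sw_N H ha hc, ?_, ?_⟩
    · intro hcon
      apply wc
      have e : c = p • a - (p • a - c) := by module
      rw [e]
      exact W.sub_mem (W.smul_mem _ wa) hcon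
    · rw [real_inner_comm, sw_inner H hb, real_inner_comm, h]
      ring
  · exact ⟨c, hc, wc, h⟩

/-- (ii) `TT a` has dimension at most `4` -/
theorem exists_span (H : Hyp Φ p) {a : E d} (ha : a ∈ Φ) :
    ∃ s : Finset (E d), s.card ≤ 4 ∧ TT Φ p a ≤ Submodule.span ℝ (s : Set (E d)) := by
  classical
  have red : ∀ s : Finset (E d), a ∈ s → (∀ b ∈ NN Φ p a, b ∈ Submodule.span ℝ (s : Set (E d))) →
      TT Φ p a ≤ Submodule.span ℝ (s : Set (E d)) := by
    intro s hs h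
    rw [TT, Submodule.span_le]
    rintro x (rfl | hx)
    · exact Submodule.subset_span hs
    · exact h x hx
  by_cases h0 : ∀ b ∈ NN Φ p a, b ∈ Submodule.span ℝ (({a} : Finset (E d)) : Set (E d))
  · exact ⟨{a}, by simp, red _ (by simp) h0⟩
  push Not at h0
  obtain ⟨b1, hb1, -⟩ := h0
  by_cases h1 : ∀ b ∈ NN Φ p a, b ∈ Submodule.span ℝ (({a, b1} : Finset (E d)) : Set (E d))
  · exact ⟨{a, b1}, (Finset.card_le_two).trans (by omega), red _ (by simp) h1⟩
  push Not at h1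
  obtain ⟨b2', hb2', w2'⟩ := h1
  have m : ∀ (s : Finset (E d)) (x : E d), x ∈ s → x ∈ Submodule.span ℝ (s : Set (E d)) :=
    fun s x hx => Submodule.subset_span (Finset.mem_coe.2 hx)
  obtain ⟨b2, hb2, w2, e12⟩ := exists_sw H ha hb1 hb2' _ (m _ a (by simp)) (m _ b1 (by simp)) w2'
  by_cases h2 : ∀ b ∈ NN Φ p a, b ∈ Submodule.span ℝ (({a, b1, b2} : Finset (E d)) : Set (E d))
  · exact ⟨{a, b1, b2}, (Finset.card_le_three).trans (by omega), red _ (by simp) h2⟩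
  push Not at h2
  obtain ⟨b3', hb3', w3'⟩ := h2
  obtain ⟨b3, hb3, w3, e13⟩ := exists_sw H ha hb1 hb3' _ (m _ a (by simp)) (m _ b1 (by simp)) w3'
  have gen : ∀ (W : Submodule ℝ (E d)) (b c : E d), a ∈ W → b ∈ W → c ∉ W → b ∈ NN Φ p a →
      c ∈ NN Φ p a → ⟪b, c⟫ = (1 / 2 : ℝ) ∨ ⟪b, c⟫ = p / 2 := by
    intro W b c wa wb wc hb hc
    exact NN_prod H ha hb hc (fun h => wc (h ▸ wb))
      (fun h => wc (h ▸ W.sub_mem (W.smul_mem _ wa) wb))
  refine ⟨{a, b1, b2, b3}, Finset.card_le_four, red _ (by simp) ?_⟩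
  intro c' hc'
  by_contra wc'
  obtain ⟨c, hc, wc, e1c⟩ := exists_sw H ha hb1 hc' _ (m _ a (by simp)) (m _ b1 (by simp)) wc'
  apply wc
  have e23 := gen _ b2 b3 (m _ a (by simp)) (m _ b2 (by simp)) w3 hb2 hb3
  have e2c := gen _ b2 c (m _ a (by simp)) (m _ b2 (by simp)) wc hb2 hc
  have e3c := gen _ b3 c (m _ a (by simp)) (m _ b3 (by simp)) wc hb3 hc
  exact mem4 H ha hb1 hb2 hb3 hc e12 e13 e1c e23 e2c e3c _ (m _ a (by simp)) (m _ b1 (by simp))
    (m _ b2 (by simp)) (m _ b3 (by simp))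

/-- (iii) one inclusion -/
theorem TT_le (H : Hyp Φ p) {a b : E d} (ha : a ∈ Φ) (hb : b ∈ NN Φ p a) :
    TT Φ p b ≤ TT Φ p a := by
  rw [TT, Submodule.span_le]
  rintro c (rfl | hc)
  · exact N_mem hb
  have hs := sw_N H hb.1 (symm ha hb)
  have ha' := symm ha hb
  -- `v = p • b - a`
  have e : ⟪p • b - a, c⟫ = (p + 1) / 2 - (⟪a, c⟫ : ℝ) := sw_inner H hc
  rcases two_sum H.lo H.hi (H.val _ ha _ hc.1) (H.val _ hs.1 _ hc.1) (by rw [e]; ring) with
    h | h | h | h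
  · rw [← eq_of_one H ha hc.1 h.1]
    exact a_mem a
  · exact N_mem ⟨hc.1, h.1⟩
  · have h5 : p • b - c ∈ NN Φ p a := by
      refine ⟨(sw_N H hb.1 hc).1, ?_⟩
      rw [inner_sub_right, inner_smul_right, hb.2, h.1]
      linear_combination (1 / 2) * H.sq
    have h6 : c = p • b - (p • b - c) := by module
    rw [h6]
    exact Submodule.sub_mem _ (Submodule.smul_mem _ _ (N_mem hb)) (N_mem h5)
  · rw [← eq_of_one H hs.1 hc.1 h.2]
    exact Submodule.sub_mem _ (Submodule.smul_mem _ _ (N_mem hb)) (a_mem a)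

theorem TT_eq (H : Hyp Φ p) {a b : E d} (ha : a ∈ Φ) (hb : b ∈ NN Φ p a) :
    TT Φ p b = TT Φ p a :=
  le_antisymm (TT_le H ha hb) (TT_le H hb.1 (symm ha hb))

/-- a product `(p - 1) / 2` produces a common neighbour -/
theorem common (H : Hyp Φ p) {b c : E d} (hb : b ∈ Φ) (hc : c ∈ Φ)
    (h : ⟪c, b⟫ = (p - 1) / 2) : ∃ w, w ∈ NN Φ p b ∧ w ∈ NN Φ p c := by
  have hp := H.sq
  have h' : ⟪b, c⟫ = (p - 1) / 2 := by rw [real_inner_comm]; exact h
  have m1 : c - (p - 1) • b ∈ Φ := by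
    have h1 := H.rs.refl b hb c hc
    have e : sref b c = c - (p - 1) • b := by
      rw [sref, h']
      module
    rwa [e] at h1
  have e1 : ⟪c - (p - 1) • b, b⟫ = -((p - 1) / 2) := by
    rw [inner_sub_left, real_inner_smul_left, h, self H hb]
    ring
  have e2 : ⟪c - (p - 1) • b, c⟫ = p / 2 := by
    rw [inner_sub_left, real_inner_smul_left, h', self H hc]
    linear_combination (-1 / 2) * hp
  have m2 : b + (p - 1) • (c - (p - 1) • b) ∈ Φ := by
    have h1 := H.rs.refl _ m1 b hb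
    have e : sref (c - (p - 1) • b) b = b + (p - 1) • (c - (p - 1) • b) := by
      rw [sref, e1]
      module
    rwa [e] at h1
  refine ⟨_, ⟨m2, ?_⟩, ⟨m2, ?_⟩⟩
  · rw [inner_add_right, inner_smul_right, self H hb, real_inner_comm, e1]
    linear_combination (-1 / 2) * hp
  · rw [inner_add_right, inner_smul_right, h, real_inner_comm, e2]
    linear_combination (1 / 2) * hp

/-- products with a vector outside -/
theorem vals (H : Hyp Φ p) {b c : E d} (hb : b ∈ Φ) (hc : c ∈ Φ) (h : c ∉ TT Φ p b) :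
    ⟪c, b⟫ = (0 : ℝ) ∨ ⟪c, b⟫ = (1 / 2 : ℝ) ∨ ⟪c, b⟫ = (-(1 / 2) : ℝ) := by
  have key : ∀ c ∈ Φ, ⟪c, b⟫ = p / 2 ∨ ⟪c, b⟫ = (p - 1) / 2 ∨ ⟪c, b⟫ = (1 : ℝ) →
      c ∈ TT Φ p b := by
    rintro c hc (h | h | h)
    · exact N_mem ⟨hc, by rw [real_inner_comm]; exact h⟩
    · obtain ⟨w, hwb, hwc⟩ := common H hb hc h
      rw [← TT_eq H hb hwb, TT_eq H hc hwc]
      exact a_mem c
    · rw [eq_of_one H hc hb h]
      exact a_mem b
  have key' : (⟪c, b⟫ = -(p / 2) ∨ ⟪c, b⟫ = -((p - 1) / 2) ∨ ⟪c, b⟫ = (-1 : ℝ)) →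
      c ∈ TT Φ p b := by
    intro h
    have h1 : -c ∈ TT Φ p b := by
      refine key (-c) (H.rs.neg_mem hc) ?_
      rw [inner_neg_left]
      rcases h with h | h | h
      · left; rw [h, neg_neg]
      · right; left; rw [h, neg_neg]
      · right; right; rw [h, neg_neg]
    have := Submodule.neg_mem _ h1
    rwa [neg_neg] at this
  rcases H.val c hc b hb with e | e | e | e | e | e | e | e | e
  · exact Or.inl e
  · exact Or.inr (Or.inl e)
  · exact Or.inr (Or.inr e)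
  · exact absurd (key c hc (Or.inl e)) h
  · exact absurd (key' (Or.inl e)) h
  · exact absurd (key c hc (Or.inr (Or.inl e))) h
  · exact absurd (key' (Or.inr (Or.inl e))) h
  · exact absurd (key c hc (Or.inr (Or.inr e))) h
  · exact absurd (key' (Or.inr (Or.inr e))) h

/-- (iv) -/
theorem perp_a (H : Hyp Φ p) {a b c : E d} (ha : a ∈ Φ) (hb : b ∈ NN Φ p a) (hc : c ∈ Φ)
    (h : c ∉ TT Φ p a) : ⟪c, a⟫ = (0 : ℝ) := by
  have hs := sw_N H ha hb
  have h1 := vals H ha hc h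
  have h2 := vals H hb.1 hc (by rw [TT_eq H ha hb]; exact h)
  have h3 := vals H hs.1 hc (by rw [TT_eq H ha hs]; exact h)
  have e : ⟪c, p • a - b⟫ = p * (⟪c, a⟫ : ℝ) - ⟪c, b⟫ := by
    rw [inner_sub_right, inner_smul_right]
  rw [e] at h3
  have lo := H.lo
  rcases h1 with h1 | h1 | h1
  · exact h1
  · exfalso
    rw [h1] at h3
    rcases h2 with h2 | h2 | h2 <;> rw [h2] at h3 <;> rcases h3 with h3 | h3 | h3 <;>
      linarith [H.hi]
  · exfalso
    rw [h1] at h3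
    rcases h2 with h2 | h2 | h2 <;> rw [h2] at h3 <;> rcases h3 with h3 | h3 | h3 <;>
      linarith [H.hi]

/-- every root is in `TT a` or orthogonal to it -/
theorem mem_or_perp (H : Hyp Φ p) {a b c : E d} (ha : a ∈ Φ) (hb : b ∈ NN Φ p a) (hc : c ∈ Φ) :
    c ∈ TT Φ p a ∨ c ∈ (TT Φ p a)ᗮ := by
  by_cases h : c ∈ TT Φ p a
  · exact Or.inl h
  right
  rw [Submodule.mem_orthogonal]
  intro u hu
  induction hu using Submodule.span_induction with
  | mem x hx =>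
    rcases hx with rfl | hx
    · rw [real_inner_comm]
      exact perp_a H ha hb hc h
    · rw [real_inner_comm]
      exact perp_a H hx.1 (symm ha hx) hc (by rw [TT_eq H ha hx]; exact h)
  | zero => rw [inner_zero_left]
  | add x y _ _ hx hy => rw [inner_add_left, hx, hy, add_zero]
  | smul r x _ hx => rw [real_inner_smul_left, hx, mul_zero]

theorem no_N (H : Hyp Φ p) (hd : 5 ≤ d) (hirr : IrrRS Φ) (hspan : Submodule.span ℝ Φ = ⊤)
    {a b : E d} (ha : a ∈ Φ) (hb : b ∈ NN Φ p a) : False := by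
  rcases hirr (TT Φ p a) (fun c hc => mem_or_perp H ha hb hc) with h | h
  · obtain ⟨s, hs, hle⟩ := exists_span H ha
    have h1 : (⊤ : Submodule ℝ (E d)) ≤ Submodule.span ℝ (s : Set (E d)) := by
      rw [← hspan, Submodule.span_le]
      intro c hc
      exact hle (h c hc)
    have h2 : Module.finrank ℝ (⊤ : Submodule ℝ (E d)) ≤
        Module.finrank ℝ (Submodule.span ℝ (s : Set (E d))) := Submodule.finrank_mono h1
    have h3 : Module.finrank ℝ (Submodule.span ℝ (s : Set (E d))) ≤ s.card :=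
      finrank_span_finset_le_card s
    rw [finrank_top, finrank_euclideanSpace, Fintype.card_fin] at h2
    omega
  · have h1 := h a ha
    rw [Submodule.mem_orthogonal] at h1
    have h2 := h1 a (a_mem a)
    rw [self H ha] at h2
    exact one_ne_zero h2

end RGD

theorem rgd : StmtRGd := by
  intro d Φ hd hRS hirr hspan hAS hne
  have h5 : √5 ^ 2 = (5 : ℝ) := Real.sq_sqrt (by norm_num)
  have h5lo : (11 / 5 : ℝ) < √5 := by
    rw [show (11 / 5 : ℝ) = √((11 / 5) ^ 2) from (Real.sqrt_sq (by norm_num)).symm]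
    exact Real.sqrt_lt_sqrt (by norm_num) (by norm_num)
  have h5hi : √5 < (9 / 4 : ℝ) := by
    rw [show (9 / 4 : ℝ) = √((9 / 4) ^ 2) from (Real.sqrt_sq (by norm_num)).symm]
    exact Real.sqrt_lt_sqrt (by norm_num) (by norm_num)
  have hne' : ∀ a ∈ Φ, ∀ b ∈ Φ, ⟪a, b⟫ ≠ (-(√2 / 2) : ℝ) := by
    intro a ha b hb h
    refine hne a ha (-b) (hRS.neg_mem hb) ?_
    rw [inner_neg_right, h, neg_neg]
  have H : RGD.Hyp Φ ((1 + √5) / 2) :=
    { rs := hRS
      sq := by linear_combination (1 / 4) * h5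
      lo := by linarith
      hi := by linarith
      val := by
        intro a ha b hb
        obtain ⟨s, hs, ht⟩ := hAS a ha b hb
        unfold RGD.Val
        rcases hs with rfl | rfl | rfl | rfl | rfl | rfl <;> rcases ht with ht | ht
        · left; exact ht
        · left; rw [ht, neg_zero]
        · right; left; exact ht
        · right; right; left; exact ht
        · exact absurd ht (hne a ha b hb)
        · exact absurd ht (hne' a ha b hb)
        · right; right; right; left; rw [ht]; ring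
        · right; right; right; right; left; rw [ht]; ring
        · right; right; right; right; right; left; rw [ht]; ring
        · right; right; right; right; right; right; left; rw [ht]; ring
        · right; right; right; right; right; right; right; left; exact ht
        · right; right; right; right; right; right; right; right; exact ht }
  set p : ℝ := (1 + √5) / 2 with hp
  -- no product `p / 2`
  have n1 : ∀ a ∈ Φ, ∀ b ∈ Φ, ⟪a, b⟫ ≠ p / 2 := by
    intro a ha b hb h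
    exact RGD.no_N H hd hirr hspan ha ⟨hb, h⟩
  have n2 : ∀ a ∈ Φ, ∀ b ∈ Φ, ⟪a, b⟫ ≠ (p - 1) / 2 := by
    intro a ha b hb h
    obtain ⟨w, hw, -⟩ := RGD.common H hb ha h
    exact n1 b hb w hw.1 hw.2
  intro a ha b hb
  have ng : ∀ t : ℝ, ⟪a, b⟫ = -t → ⟪a, -b⟫ = t := by
    intro t h
    rw [inner_neg_right, h, neg_neg]
  rcases H.val a ha b hb with e | e | e | e | e | e | e | e | e
  · exact Or.inl e
  · exact Or.inr (Or.inl e)
  · right; right; left
    rw [e]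
    norm_num
  · exact absurd e (n1 a ha b hb)
  · exact absurd (ng _ e) (n1 a ha (-b) (hRS.neg_mem hb))
  · exact absurd e (n2 a ha b hb)
  · exact absurd (ng _ e) (n2 a ha (-b) (hRS.neg_mem hb))
  · right; right; right; left
    exact RGD.eq_of_one H ha hb e
  · right; right; right; right
    have h1 := RGD.eq_of_one H ha (hRS.neg_mem hb) (ng 1 e)
    exact h1

end

end FO2
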