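import Pool.Agent.FO2.Stmts

/-!
# Module RLF: a polytope that matches the data `RealC` is faithfully realized
-/

namespace FO2

open Lib_helper64.FO
open scoped RealInnerProductSpace

noncomputable section

namespace RLF

variable {d : ℕ} {Y : Type} {S : SGen d Y}

theorem par_mono {I J : Set (Fin d)} (h : I ⊆ J) : S.par I ≤ S.par J :=
  Subgroup.closure_mono (Set.image_mono h)

theorem σ_mem {I : Set (Fin d)} {j : Fin d} (h : j ∈ I) : S.σ j ∈ S.par I :=
  Subgroup.subset_closure ⟨j, h, rfl⟩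

theorem coset_sub (K : CFace S) {g : Equiv.Perm Y} (hg : g ∈ K.coset) : g ∈ S.par Set.univ := by
  obtain ⟨g0, h0, e⟩ := K.ex
  rw [e] at hg
  obtain ⟨h, hh, rfl⟩ := hg
  exact mul_mem h0 (par_mono (Set.subset_univ _) hh)

theorem coset_ne (K : CFace S) : ∃ g, g ∈ K.coset := by
  obtain ⟨g0, h0, e⟩ := K.ex
  exact ⟨g0, by rw [e]; exact ⟨1, one_mem _, by simp⟩⟩

/-- the coset of rank `i` of `g` -/
def mk (i : Fin d) (g : Equiv.Perm Y) (hg : g ∈ S.par Set.univ) : CFace S :=
  ⟨i, {p | ∃ h ∈ S.par {j | j ≠ i}, p = g * h}, g, hg, rfl⟩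

theorem mem_mk (i : Fin d) (g : Equiv.Perm Y) (hg : g ∈ S.par Set.univ) :
    g ∈ (mk i g hg).coset := ⟨1, one_mem _, by simp⟩

theorem eq_of_mem {K K' : CFace S} (hr : K.rank = K'.rank) {g g' : Equiv.Perm Y} (hg : g ∈ K.coset)
    (hg' : g' ∈ K'.coset) (h : g⁻¹ * g' ∈ S.par {j | j ≠ K.rank}) : K = K' := by
  refine CFace.ext' hr ?_
  rw [K.coset_eq hg, K'.coset_eq hg', ← hr]
  ext q
  constructor
  · rintro ⟨k, hk, rfl⟩
    exact ⟨(g⁻¹ * g')⁻¹ * k, mul_mem (inv_mem h) hk, by group⟩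
  · rintro ⟨k, hk, rfl⟩
    exact ⟨(g⁻¹ * g') * k, mul_mem h hk, by group⟩

theorem mem_single {j : Fin d} {x : Equiv.Perm Y} (h : x ∈ S.par {j}) : x = 1 ∨ x = S.σ j := by
  refine Subgroup.closure_induction (p := fun x _ => x = 1 ∨ x = S.σ j) ?_ ?_ ?_ ?_ h
  · rintro _ ⟨k, hk, rfl⟩
    rw [Set.mem_singleton_iff] at hk
    rw [hk]
    exact Or.inr rfl
  · exact Or.inl rfl
  · rintro x y - - (rfl | rfl) (rfl | rfl)
    · left; simp
    · right; simp
    · right; simp
    · left; exact S.sq j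
  · rintro x - (rfl | rfl)
    · left; simp
    · right
      rw [inv_eq_iff_mul_eq_one]
      exact S.sq j

/-- two faces of rank `i ≥ 1` with the same facets are equal -/
theorem key (hS : StrC S) (i : Fin d) (hi : 1 ≤ i.val)
    (edge : ∀ g ∈ S.par {j | i ≤ j}, S.σ (prd i) * g * S.σ (prd i) ∈ S.par {j | i ≤ j} →
      g ∈ S.par {j | i < j}) (K K' : CFace S) (hK : K.rank = i) (hK' : K'.rank = i)
    (h : ∀ L : CFace S, L.rank = prd i → L ≤ K → L ≤ K') : K = K' := by
  obtain ⟨g, hg⟩ := coset_ne K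
  have hgu := coset_sub K hg
  set j : Fin d := prd i with hj
  have hjv : j.val = i.val - 1 := rfl
  have hji : j ≤ i := by
    rw [Fin.le_def, hjv]; omega
  -- the face of rank `j` of `g`
  have h1 : mk j g hgu ≤ K := by
    rw [CFace.le_def]
    refine ⟨?_, g, mem_mk j g hgu, hg⟩
    rw [hK]; exact hji
  obtain ⟨-, g', hg'1, hg'2⟩ := h _ rfl h1
  obtain ⟨h0, hh0, rfl⟩ := hg'1
  obtain ⟨a, ha, b, hb, e1, e2⟩ := S.conj_split j h0 hh0
  have hb' : b ∈ S.par {k | i ≤ k} := by
    refine par_mono ?_ hb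
    intro k hk
    have hk' : j.val < k.val := hk
    change i ≤ k
    rw [Fin.le_def]; omega
  have ha' : a ∈ S.par {k | k ≠ K'.rank} := by
    refine par_mono ?_ ha
    intro k hk
    have hk' : k.val < j.val := hk
    change k ≠ K'.rank
    rw [hK']
    intro hh
    rw [hh] at hk'; omega
  have hgb : g * b ∈ K'.coset := by
    have : g * b = (g * h0) * a⁻¹ := by rw [e2]; group
    rw [this, K'.coset_eq hg'2]
    exact ⟨a⁻¹, inv_mem ha', rfl⟩
  -- the other one
  have hsu : g * S.σ j ∈ S.par Set.univ := mul_mem hgu (σ_mem (Set.mem_univ _))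
  have hjne : j ≠ i := by
    intro hh
    have := congrArg Fin.val hh
    omega
  have h2 : mk j (g * S.σ j) hsu ≤ K := by
    rw [CFace.le_def]
    refine ⟨?_, g * S.σ j, mem_mk j _ hsu, ?_⟩
    · rw [hK]; exact hji
    · rw [K.coset_eq hg]
      refine ⟨S.σ j, σ_mem ?_, rfl⟩
      change j ≠ K.rank
      rw [hK]; exact hjne
  obtain ⟨-, g2, hg21, hg22⟩ := h _ rfl h2
  obtain ⟨h3, hh3, rfl⟩ := hg21
  rw [K'.coset_eq hgb] at hg22
  obtain ⟨k, hk, e3⟩ := hg22
  rw [hK'] at hk
  obtain ⟨a', ha1, b', hb1, e4, e5⟩ := S.conj_split j h3 hh3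
  obtain ⟨a2, ha2, b2, hb2, e6, e7⟩ := S.conj_split i k hk
  -- `b2⁻¹ * b⁻¹ * σ j * b' = a2 * a'⁻¹`
  have e8 : b2⁻¹ * b⁻¹ * S.σ j * b' = a2 * a'⁻¹ := by
    have e9 : S.σ j * (b' * a') = b * (b2 * a2) := by
      rw [← e5, ← e7]
      have : g * (S.σ j * h3) = g * (b * k) := by
        rw [← mul_assoc, e3, ← mul_assoc]
      exact mul_left_cancel this
    calc b2⁻¹ * b⁻¹ * S.σ j * b' = b2⁻¹ * b⁻¹ * (S.σ j * (b' * a')) * a'⁻¹ := by group
      _ = b2⁻¹ * b⁻¹ * (b * (b2 * a2)) * a'⁻¹ := by rw [e9]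
      _ = a2 * a'⁻¹ := by group
  have hlow : a2 * a'⁻¹ ∈ S.par {k | k ≤ j} := by
    refine mul_mem (par_mono ?_ ha2) (inv_mem (par_mono ?_ ha1))
    · intro k hk
      have hk' : k.val < i.val := hk
      change k ≤ j
      rw [Fin.le_def]; omega
    · intro k hk
      have hk' : k.val < j.val := hk
      change k ≤ j
      rw [Fin.le_def]; omega
  have hhi : a2 * a'⁻¹ ∈ S.par {k | j ≤ k} := by
    rw [← e8]
    refine mul_mem (mul_mem (mul_mem (inv_mem (par_mono ?_ hb2)) (inv_mem (par_mono ?_ hb')))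
      (σ_mem ?_)) (par_mono ?_ hb1)
    · intro k hk
      have hk' : i.val < k.val := hk
      change j ≤ k
      rw [Fin.le_def]; omega
    · intro k hk
      have hk' : i.val ≤ k.val := hk
      change j ≤ k
      rw [Fin.le_def]; omega
    · change j ≤ j
      exact le_rfl
    · intro k hk
      have hk' : j.val < k.val := hk
      change j ≤ k
      rw [Fin.le_def]; omega
  have hx : a2 * a'⁻¹ ∈ S.par {j} := by
    have : a2 * a'⁻¹ ∈ S.par {k | k ≤ j} ⊓ S.par {k | j ≤ k} := ⟨hlow, hhi⟩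
    rw [hS.inter] at this
    have e : ({k | k ≤ j} ∩ {k | j ≤ k} : Set (Fin d)) = {j} := by
      ext k
      simp only [Set.mem_inter_iff, Set.mem_ofPred_eq, Set.mem_singleton_iff]
      exact ⟨fun h => le_antisymm h.1 h.2, fun h => by rw [h]; exact ⟨le_rfl, le_rfl⟩⟩
    rw [e] at this
    exact this
  have hb1' : b' ∈ S.par {k | i ≤ k} := by
    refine par_mono ?_ hb1
    intro k hk
    have hk' : j.val < k.val := hk
    change i ≤ k
    rw [Fin.le_def]; omega
  have hb2' : b2 ∈ S.par {k | i ≤ k} := by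
    refine par_mono ?_ hb2
    intro k hk
    have hk' : i < k := hk
    exact hk'.le
  have hsq : S.σ j * S.σ j = 1 := S.sq j
  have hbpar : b ∈ S.par {k | k ≠ i} := by
    rcases mem_single hx with hx1 | hx1
    · exfalso
      rw [hx1] at e8
      have : S.σ j = b * b2 * b'⁻¹ := by
        calc S.σ j = b * b2 * (b2⁻¹ * b⁻¹ * S.σ j * b') * b'⁻¹ := by group
          _ = b * b2 * b'⁻¹ := by rw [e8]; group
      have h5 : S.σ j ∈ S.par {k | i ≤ k} := by
        rw [this]
        exact mul_mem (mul_mem hb' hb2') (inv_mem hb1')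
      have h6 : S.σ j ∈ S.par {j} ⊓ S.par {k | i ≤ k} := ⟨σ_mem rfl, h5⟩
      rw [hS.inter] at h6
      have e : ({j} ∩ {k | i ≤ k} : Set (Fin d)) = ∅ := by
        ext k
        simp only [Set.mem_inter_iff, Set.mem_ofPred_eq, Set.mem_singleton_iff,
          Set.mem_empty_iff_false, iff_false, not_and]
        rintro rfl hk
        exact hjne (le_antisymm hji hk)
      rw [e, SGen.par, Set.image_empty, Subgroup.closure_empty, Subgroup.mem_bot] at h6
      exact hS.ne_one j h6
    · rw [hx1] at e8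
      have e10 : S.σ j * (b * b2) * S.σ j = b' := by
        have : S.σ j * b' = b * b2 * S.σ j := by
          calc S.σ j * b' = b * b2 * (b2⁻¹ * b⁻¹ * S.σ j * b') := by group
            _ = b * b2 * S.σ j := by rw [e8]
        calc S.σ j * (b * b2) * S.σ j = S.σ j * (b * b2 * S.σ j) := by group
          _ = S.σ j * (S.σ j * b') := by rw [this]
          _ = (S.σ j * S.σ j) * b' := by group
          _ = b' := by rw [hsq, one_mul]
      have h7 := edge (b * b2) (mul_mem hb' hb2') (by rw [e10]; exact hb1')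
      have h8 : b = (b * b2) * b2⁻¹ := by group
      rw [h8]
      refine mul_mem (par_mono ?_ h7) (inv_mem (par_mono ?_ hb2))
      · intro k hk
        exact ne_of_gt hk
      · intro k hk
        exact ne_of_gt hk
  refine eq_of_mem (by rw [hK, hK']) hg hgb ?_
  rw [hK]
  have : g⁻¹ * (g * b) = b := by group
  rw [this]
  exact hbpar

theorem cases_rk {m : ℕ} (x : CPos S) (h : rkC x = (m : ℤ)) :
    (x = ((⊤ : WithTop (CFace S)) : CPos S) ∧ m = d) ∨
      ∃ K : CFace S, x = some (some K) ∧ K.rank.val = m := by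
  match x, h with
  | ⊥, h =>
    exfalso
    have : (-1 : ℤ) = m := h
    omega
  | some ⊤, h =>
    left
    have : (d : ℤ) = m := h
    exact ⟨rfl, by omega⟩
  | some (some K), h =>
    right
    have : (K.rank.val : ℤ) = m := h
    exact ⟨K, rfl, by omega⟩

end RLF

open RLF in
theorem realF (_h1 : StmtFlag) (_h2 : StmtPoly) : StmtRealF := by
  intro d Y S y0 F i0 _ hS hR P _ _ rk _ f hM
  obtain ⟨c, φ, hrk, hval⟩ := hM
  have hd : 0 < d := lt_of_le_of_lt (Nat.zero_le _) i0.isLt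
  intro m
  induction m with
  | zero =>
    intro A B hA hB e
    have hA' : rkC (φ A) = ((0 : ℕ) : ℤ) := by rw [hrk]; exact_mod_cast hA
    have hB' : rkC (φ B) = ((0 : ℕ) : ℤ) := by rw [hrk]; exact_mod_cast hB
    rcases cases_rk _ hA' with ⟨-, h⟩ | ⟨K, hK, hKr⟩
    · omega
    rcases cases_rk _ hB' with ⟨-, h⟩ | ⟨L, hL, hLr⟩
    · omega
    obtain ⟨g, hg⟩ := coset_ne K
    obtain ⟨g', hg'⟩ := coset_ne L
    have e1 := hval A K (by exact_mod_cast hA) hK g hg
    have e2 := hval B L (by exact_mod_cast hB) hL g' hg'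
    have e3 : f A = f B := e
    rw [e1, e2] at e3
    have e4 := hR.inj (add_left_cancel e3)
    have hr : K.rank = L.rank := by rw [Fin.ext_iff, hKr, hLr]
    have h5 : g⁻¹ * g' ∈ S.par {j | j.val ≠ 0} := by
      refine hR.stab _ (mul_mem (inv_mem (coset_sub K hg)) (coset_sub L hg')) ?_
      change g.symm (g' y0) = y0
      rw [← e4]
      exact g.symm_apply_apply _
    have h6 : K = L := by
      refine eq_of_mem hr hg hg' (par_mono ?_ h5)
      intro j hj
      change j ≠ K.rank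
      intro hh
      exact hj (by rw [hh, hKr])
    apply φ.injective
    rw [hK, hL, h6]
  | succ m ih =>
    intro A B hA hB e
    have hA' : rkC (φ A) = ((m + 1 : ℕ) : ℤ) := by rw [hrk]; exact_mod_cast hA
    have hB' : rkC (φ B) = ((m + 1 : ℕ) : ℤ) := by rw [hrk]; exact_mod_cast hB
    rcases cases_rk _ hA' with ⟨h1, h1'⟩ | ⟨K, hK, hKr⟩
    · rcases cases_rk _ hB' with ⟨h2, h2'⟩ | ⟨L, hL, hLr⟩
      · apply φ.injective
        rw [h1, h2]
      · have := L.rank.isLt
        omega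
    rcases cases_rk _ hB' with ⟨h2, h2'⟩ | ⟨L, hL, hLr⟩
    · have := K.rank.isLt
      omega
    have hr : K.rank = L.rank := by rw [Fin.ext_iff, hKr, hLr]
    have hKL : K = L := by
      refine key hS K.rank (by omega) (hR.edge K.rank (by omega)) K L rfl hr.symm ?_
      intro M hM hle
      have hMv : M.rank.val = m := by
        rw [hM]
        change K.rank.val - 1 = m
        omega
      set C : P := φ.symm (some (some M)) with hC
      have hφC : φ C = some (some M) := φ.apply_symm_apply _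
      have hCr : rk C = (m : ℤ) := by
        rw [← hrk, hφC]
        change ((M.rank.val : ℕ) : ℤ) = m
        rw [hMv]
      have hCA : C ≤ A := by
        rw [← φ.le_iff_le, hφC, hK]
        have e0 : ((M : WithTop (CFace S)) : CPos S) ≤ ((K : WithTop (CFace S)) : CPos S) :=
          WithBot.coe_le_coe.2 (WithTop.coe_le_coe.2 hle)
        exact e0
      have hmem : faceImg rk f m C ∈
          ({x | ∃ G : P, rk G = (m : ℤ) ∧ G ≤ A ∧ faceImg rk f m G = x} : Set (FaceImg d m)) :=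
        ⟨C, hCr, hCA, rfl⟩
      have e' : ({x | ∃ G : P, rk G = (m : ℤ) ∧ G ≤ A ∧ faceImg rk f m G = x} :
          Set (FaceImg d m)) = {x | ∃ G : P, rk G = (m : ℤ) ∧ G ≤ B ∧ faceImg rk f m G = x} := e
      rw [e'] at hmem
      obtain ⟨C', hC'r, hC'B, e'⟩ := hmem
      have hCC : C' = C := ih C' C hC'r hCr e'
      rw [hCC, ← φ.le_iff_le, hφC, hL] at hC'B
      exact WithTop.coe_le_coe.1 (WithBot.coe_le_coe.1 hC'B)
    apply φ.injective
    rw [hK, hL, hKL]

end

end FO2
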