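import Pool.Agent.FO2.Stmts
import Pool.Agent.Lib_helper64.FO.Flags

/-!
# A polytope that matches the data of a two-orbit realization has two flag orbits
-/

namespace FO2

open Lib_helper64.FO
open scoped RealInnerProductSpace

namespace RLO

section coset

variable {d : ℕ} {Y : Type} {S : SGen d Y}

/-- left multiplication of a coset -/
def lmul (g : Equiv.Perm Y) (hg : g ∈ S.par Set.univ) (F : CFace S) : CFace S where
  rank := F.rank
  coset := {p | g⁻¹ * p ∈ F.coset}
  ex := by
    obtain ⟨g0, hg0, e⟩ := F.ex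
    refine ⟨g * g0, mul_mem hg hg0, ?_⟩
    ext p
    rw [Set.mem_setOf_eq, e]
    constructor
    · rintro ⟨h, hh, e'⟩
      exact ⟨h, hh, by rw [mul_assoc, ← e']; group⟩
    · rintro ⟨h, hh, rfl⟩
      exact ⟨h, hh, by group⟩

theorem mem_lmul (g : Equiv.Perm Y) (hg : g ∈ S.par Set.univ) (F : CFace S) (p : Equiv.Perm Y) :
    p ∈ (lmul g hg F).coset ↔ g⁻¹ * p ∈ F.coset := Iff.rfl

theorem lmul_lmul (g h : Equiv.Perm Y) (hg : g ∈ S.par Set.univ) (hh : h ∈ S.par Set.univ)
    (F : CFace S) : lmul g hg (lmul h hh F) = lmul (g * h) (mul_mem hg hh) F := by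
  refine CFace.ext' rfl ?_
  ext p
  rw [mem_lmul, mem_lmul, mem_lmul]
  have : h⁻¹ * (g⁻¹ * p) = (g * h)⁻¹ * p := by group
  rw [this]

theorem lmul_one (F : CFace S) : lmul 1 (one_mem _) F = F := by
  refine CFace.ext' rfl ?_
  ext p
  rw [mem_lmul]
  simp

theorem lmul_mono (g : Equiv.Perm Y) (hg : g ∈ S.par Set.univ) {F G : CFace S} (h : F ≤ G) :
    lmul g hg F ≤ lmul g hg G := by
  obtain ⟨h1, p, hp1, hp2⟩ := h
  refine ⟨h1, g * p, ?_, ?_⟩
  · change g⁻¹ * (g * p) ∈ F.coset
    simpa using hp1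
  · change g⁻¹ * (g * p) ∈ G.coset
    simpa using hp2

/-- left multiplication as an automorphism -/
def lmulIso (g : Equiv.Perm Y) (hg : g ∈ S.par Set.univ) : CFace S ≃o CFace S where
  toFun := lmul g hg
  invFun := lmul g⁻¹ (inv_mem hg)
  left_inv F := by
    rw [lmul_lmul]
    simp only [inv_mul_cancel]
    exact lmul_one F
  right_inv F := by
    rw [lmul_lmul]
    simp only [mul_inv_cancel]
    exact lmul_one F
  map_rel_iff' := by
    intro F G
    constructor
    · intro h
      have := lmul_mono g⁻¹ (inv_mem hg) h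
      change lmul g⁻¹ _ (lmul g hg F) ≤ lmul g⁻¹ _ (lmul g hg G) at this
      rw [lmul_lmul, lmul_lmul] at this
      simp only [inv_mul_cancel] at this
      rwa [lmul_one, lmul_one] at this
    · exact lmul_mono g hg

/-- left multiplication on the coset poset -/
def lmulC (g : Equiv.Perm Y) (hg : g ∈ S.par Set.univ) : CPos S ≃o CPos S :=
  (lmulIso g hg).withTopCongr.withBotCongr

/-- a proper face as a face of the coset poset -/
def emb (K : CFace S) : CPos S := ((K : WithTop (CFace S)) : WithBot (WithTop (CFace S)))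

theorem emb_inj {K L : CFace S} (h : emb K = emb L) : K = L :=
  WithTop.coe_injective (WithBot.coe_injective h)

theorem lmulC_emb (g : Equiv.Perm Y) (hg : g ∈ S.par Set.univ) (F : CFace S) :
    lmulC g hg (emb F) = emb (lmul g hg F) := rfl

theorem rkC_emb (K : CFace S) : rkC (emb K) = K.rank.val := rfl

theorem cases_emb (x : CPos S) : x = ⊥ ∨ x = ⊤ ∨ ∃ K : CFace S, x = emb K := by
  match x with
  | ⊥ => exact Or.inl rfl
  | some ⊤ => exact Or.inr (Or.inl rfl)
  | some (some F) => exact Or.inr (Or.inr ⟨F, rfl⟩)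

theorem rkC_bot : rkC (⊥ : CPos S) = -1 := rfl

theorem rkC_top : rkC (⊤ : CPos S) = d := rfl

theorem rkC_lmulC (g : Equiv.Perm Y) (hg : g ∈ S.par Set.univ) (x : CPos S) :
    rkC (lmulC g hg x) = rkC x := by
  match x with
  | ⊥ => rfl
  | some ⊤ => rfl
  | some (some F) => rfl

/-- the coset of `g` of rank `i` -/
def cos (g : Equiv.Perm Y) (hg : g ∈ S.par Set.univ) (i : Fin d) : CFace S where
  rank := i
  coset := {p | ∃ h ∈ S.par {j | j ≠ i}, p = g * h}
  ex := ⟨g, hg, rfl⟩

theorem mem_cos (g : Equiv.Perm Y) (hg : g ∈ S.par Set.univ) (i : Fin d) :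
    g ∈ (cos g hg i : CFace S).coset := ⟨1, one_mem _, by simp⟩

theorem eq_cos (F : CFace S) (g : Equiv.Perm Y) (hg : g ∈ S.par Set.univ) (h : g ∈ F.coset) :
    F = cos g hg F.rank := by
  refine CFace.ext' rfl ?_
  rw [F.coset_eq h]
  rfl

theorem coset_subset (F : CFace S) {g : Equiv.Perm Y} (h : g ∈ F.coset) :
    g ∈ S.par Set.univ := by
  obtain ⟨g0, hg0, e⟩ := F.ex
  rw [e] at h
  obtain ⟨k, hk, rfl⟩ := h
  exact mul_mem hg0 (Subgroup.closure_mono (Set.image_mono (Set.subset_univ _)) hk)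

theorem common (K : ℕ → CFace S) (hr : ∀ i, i < d → (K i).rank.val = i)
    (hle : ∀ i, i + 1 < d → K i ≤ K (i + 1)) :
    ∀ m, 1 ≤ m → m ≤ d → ∃ g ∈ S.par Set.univ, ∀ i, i < m → g ∈ (K i).coset := by
  intro m hm
  induction m, hm using Nat.le_induction with
  | base =>
    intro _
    obtain ⟨g, hg, e⟩ := (K 0).ex
    refine ⟨g, hg, fun i hi => ?_⟩
    have : i = 0 := by omega
    subst this
    rw [e]
    exact ⟨1, one_mem _, by simp⟩
  | succ m hm ih =>
    intro hmd
    obtain ⟨g, hg, hall⟩ := ih (by omega)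
    have h1 := hle (m - 1) (by omega)
    rw [show m - 1 + 1 = m by omega] at h1
    obtain ⟨-, k, hk1, hk2⟩ := h1
    have hgm := hall (m - 1) (by omega)
    have hk1' := hk1
    rw [(K (m - 1)).coset_eq hgm] at hk1
    obtain ⟨b, hb, rfl⟩ := hk1
    obtain ⟨a, ha, b', hb', e1, e2⟩ := S.conj_split _ b hb
    have hrm := hr (m - 1) (by omega)
    have hrm' := hr m (by omega)
    refine ⟨g * b', mul_mem hg (Subgroup.closure_mono (Set.image_mono (Set.subset_univ _)) hb'),
      fun i hi => ?_⟩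
    rcases Nat.lt_or_ge i m with h | h
    · rw [(K i).coset_eq (hall i h)]
      refine ⟨b', Subgroup.closure_mono (Set.image_mono ?_) hb', rfl⟩
      intro j hj
      have hj' : (K (m - 1)).rank < j := hj
      have h2 := hr i (by omega)
      intro e
      rw [e] at hj'
      have : (K (m - 1)).rank.val < (K i).rank.val := hj'
      omega
    · have : i = m := by omega
      subst this
      have e3 : g * b' = (g * b) * a⁻¹ := by rw [e2]; group
      rw [e3, (K i).coset_eq hk2]
      refine ⟨a⁻¹, inv_mem (Subgroup.closure_mono (Set.image_mono ?_) ha), rfl⟩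
      intro j hj
      have hj' : j < (K (i - 1)).rank := hj
      intro e
      rw [e] at hj'
      have : (K i).rank.val < (K (i - 1)).rank.val := hj'
      omega

end coset

section iso

variable {d : ℕ} {Y : Type} {F : Y → E d}

theorem isom_one : Isom F 1 := ⟨IsometryEquiv.refl _, fun _ => rfl⟩

theorem isom_mul {g h : Equiv.Perm Y} (hg : Isom F g) (hh : Isom F h) : Isom F (g * h) := by
  obtain ⟨T, hT⟩ := hg
  obtain ⟨U, hU⟩ := hh
  refine ⟨U.trans T, fun y => ?_⟩
  change T (U (F y)) = F (g (h y))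
  rw [hU, hT]

theorem isom_inv {g : Equiv.Perm Y} (hg : Isom F g) : Isom F g⁻¹ := by
  obtain ⟨T, hT⟩ := hg
  refine ⟨T.symm, fun y => ?_⟩
  rw [IsometryEquiv.symm_apply_eq, hT]
  simp

end iso

section gen

variable {d : ℕ} {Y : Type} (S : SGen d Y) (i0 : Fin d)

/-- the subgroup of index at most two -/
def N : Subgroup (Equiv.Perm Y) :=
  Subgroup.closure ({p | ∃ j, j ≠ i0 ∧ p = S.σ j} ∪ {p | ∃ j, j ≠ i0 ∧ p = S.σ i0 * S.σ j * S.σ i0})

theorem N_conj {h : Equiv.Perm Y} (hh : h ∈ N S i0) : S.σ i0 * h * S.σ i0 ∈ N S i0 := by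
  have hs := S.sq i0
  refine Subgroup.closure_induction (p := fun h _ => S.σ i0 * h * S.σ i0 ∈ N S i0) ?_ ?_ ?_ ?_ hh
  · rintro p (⟨j, hj, rfl⟩ | ⟨j, hj, rfl⟩)
    · exact Subgroup.subset_closure (Or.inr ⟨j, hj, rfl⟩)
    · have : S.σ i0 * (S.σ i0 * S.σ j * S.σ i0) * S.σ i0 = S.σ j := by
        calc _ = (S.σ i0 * S.σ i0) * S.σ j * (S.σ i0 * S.σ i0) := by group
          _ = _ := by rw [hs]; group
      rw [this]
      exact Subgroup.subset_closure (Or.inl ⟨j, hj, rfl⟩)
  · rw [mul_one, hs]; exact one_mem _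
  · intro a b _ _ ha hb
    have : S.σ i0 * (a * b) * S.σ i0 = (S.σ i0 * a * S.σ i0) * (S.σ i0 * b * S.σ i0) := by
      calc _ = S.σ i0 * a * 1 * b * S.σ i0 := by group
        _ = S.σ i0 * a * (S.σ i0 * S.σ i0) * b * S.σ i0 := by rw [hs]
        _ = _ := by group
    rw [this]
    exact mul_mem ha hb
  · intro a _ ha
    have hinv : (S.σ i0)⁻¹ = S.σ i0 := inv_eq_of_mul_eq_one_left hs
    have : S.σ i0 * a⁻¹ * S.σ i0 = (S.σ i0 * a * S.σ i0)⁻¹ := by
      rw [mul_inv_rev, mul_inv_rev, hinv]; group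
    rw [this]
    exact inv_mem ha

theorem N_or {g : Equiv.Perm Y} (hg : g ∈ S.par Set.univ) : g ∈ N S i0 ∨ g * S.σ i0 ∈ N S i0 := by
  have hs := S.sq i0
  have hinv : (S.σ i0)⁻¹ = S.σ i0 := inv_eq_of_mul_eq_one_left hs
  refine Subgroup.closure_induction (p := fun g _ => g ∈ N S i0 ∨ g * S.σ i0 ∈ N S i0)
    ?_ ?_ ?_ ?_ hg
  · rintro _ ⟨j, -, rfl⟩
    by_cases h : j = i0
    · right
      rw [h, hs]
      exact one_mem _
    · exact Or.inl (Subgroup.subset_closure (Or.inl ⟨j, h, rfl⟩))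
  · exact Or.inl (one_mem _)
  · rintro a b _ _ (ha | ha) (hb | hb)
    · exact Or.inl (mul_mem ha hb)
    · right
      rw [mul_assoc]
      exact mul_mem ha hb
    · right
      have : a * b * S.σ i0 = (a * S.σ i0) * (S.σ i0 * b * S.σ i0) := by
        calc _ = a * 1 * b * S.σ i0 := by group
          _ = a * (S.σ i0 * S.σ i0) * b * S.σ i0 := by rw [hs]
          _ = _ := by group
      rw [this]
      exact mul_mem ha (N_conj S i0 hb)
    · left
      have : a * b = (a * S.σ i0) * (S.σ i0 * (b * S.σ i0) * S.σ i0) := by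
        calc _ = a * 1 * b * 1 := by group
          _ = a * (S.σ i0 * S.σ i0) * b * (S.σ i0 * S.σ i0) := by rw [hs]
          _ = _ := by group
      rw [this]
      exact mul_mem ha (N_conj S i0 hb)
  · rintro a _ (ha | ha)
    · exact Or.inl (inv_mem ha)
    · right
      have h1 := N_conj S i0 (inv_mem ha)
      have : S.σ i0 * (a * S.σ i0)⁻¹ * S.σ i0 = a⁻¹ * S.σ i0 := by
        rw [mul_inv_rev, hinv]
        calc _ = (S.σ i0 * S.σ i0) * a⁻¹ * S.σ i0 := by group
          _ = _ := by rw [hs]; group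
      rwa [this] at h1

theorem N_isom {F : Y → E d} {y0 : Y} (hR : RealC S y0 F i0) {g : Equiv.Perm Y}
    (hg : g ∈ N S i0) : Isom F g := by
  refine Subgroup.closure_induction (p := fun g _ => Isom F g) ?_ isom_one
    (fun _ _ _ _ ha hb => isom_mul ha hb) (fun _ _ ha => isom_inv ha) hg
  rintro p (⟨j, hj, rfl⟩ | ⟨j, hj, rfl⟩)
  · exact hR.iso1 j hj
  · exact hR.iso2 j hj

end gen

end RLO

open RLO

theorem realO (h1 : StmtFlag) (h2 : StmtPoly) : StmtRealO := by
  classical
  intro d Y S y0 F i0 hY hS hR P _ _ rk hP f hM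
  obtain ⟨c, φ, hφ, hf⟩ := hM
  obtain ⟨p1, p2, p3, p4, -⟩ := h1 d P rk hP
  have hd : 0 < d := i0.pos
  obtain ⟨C, -⟩ := p4 ∅ (by simp [IsChain])
  obtain ⟨ρ, hρ⟩ := h2 d P rk hP C
  -- the automorphism given by `g`
  let Λ : ∀ g : Equiv.Perm Y, g ∈ S.par Set.univ → (P ≃o P) := fun g hg =>
    (φ.trans (lmulC g hg)).trans φ.symm
  have hΛ : ∀ g hg x, φ (Λ g hg x) = lmulC g hg (φ x) := by
    intro g hg x
    exact φ.apply_symm_apply _
  -- faces of rank `i < d`
  have hf' : ∀ (v : P) (K : CFace S), rk v = 0 → φ v = emb K → ∀ g ∈ K.coset,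
    f v = c + F (g y0) := hf
  have hface : ∀ (x : P) (i : ℕ), rk x = i → i < d → ∃ K : CFace S, φ x = emb K ∧
      K.rank.val = i := by
    intro x i hx hi
    have h := hφ x
    rw [hx] at h
    rcases cases_emb (φ x) with e | e | ⟨K, e⟩
    · rw [e, rkC_bot] at h; omega
    · rw [e, rkC_top] at h; omega
    · rw [e, rkC_emb] at h
      exact ⟨K, e, by exact_mod_cast h⟩
  have hbot : ∀ x : P, rk x = -1 → φ x = ⊥ := by
    intro x hx
    have h := hφ x
    rw [hx] at h
    rcases cases_emb (φ x) with e | e | ⟨K, e⟩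
    · exact e
    · rw [e, rkC_top] at h; omega
    · rw [e, rkC_emb] at h; omega
  have htop : ∀ x : P, rk x = d → φ x = ⊤ := by
    intro x hx
    have h := hφ x
    rw [hx] at h
    rcases cases_emb (φ x) with e | e | ⟨K, e⟩
    · rw [e, rkC_bot] at h; omega
    · exact e
    · rw [e, rkC_emb] at h
      have := K.rank.isLt
      omega
  -- a common element of a flag
  have hcommon : ∀ D : Flag P, ∃ g, g ∈ S.par Set.univ ∧ ∀ x ∈ D, ∀ K : CFace S,
      φ x = emb K → g ∈ K.coset := by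
    intro D
    have hx : ∀ i : ℕ, i < d → ∃ x ∈ D, rk x = i := fun i hi => hP.flags D i (by omega) (by omega)
    have hne : Nonempty P := ⟨φ.symm ⊥⟩
    choose! x hxD hxr using hx
    have hK : ∀ i : ℕ, i < d → ∃ K : CFace S, φ (x i) = emb K ∧ K.rank.val = i :=
      fun i hi => hface (x i) i (hxr i hi) hi
    obtain ⟨K0, -, -⟩ := hK 0 hd
    have : Nonempty (CFace S) := ⟨K0⟩
    choose! K hK1 hK2 using hK
    obtain ⟨g, hg, hall⟩ := common K hK2 (by
      intro i hi
      have hlt : x i < x (i + 1) := by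
        have hne : x i ≠ x (i + 1) := by
          intro e
          have a := hxr i (by omega)
          have b := hxr (i + 1) hi
          rw [e, b] at a
          omega
        rcases D.Chain' (hxD i (by omega)) (hxD (i + 1) hi) hne with h | h
        · exact lt_of_le_of_ne h hne
        · have := hP.strict _ _ (lt_of_le_of_ne h hne.symm)
          rw [hxr i (by omega), hxr (i + 1) hi] at this
          omega
      have h3 := φ.monotone hlt.le
      rw [hK1 i (by omega), hK1 (i + 1) hi] at h3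
      exact WithTop.coe_le_coe.1 (WithBot.coe_le_coe.1 h3)) d hd le_rfl
    refine ⟨g, hg, fun y hy L hL => ?_⟩
    have hr : rk y = L.rank.val := by rw [← hφ y, hL, rkC_emb]
    have hy' : y = x L.rank.val := by
      apply p1 D y _ hy (hxD _ L.rank.isLt)
      rw [hr, hxr _ L.rank.isLt]
    have : K L.rank.val = L := by
      have := hK1 L.rank.val L.rank.isLt
      rw [← hy', hL] at this
      exact (emb_inj this).symm
    rw [← this]
    exact hall _ L.rank.isLt
  -- every automorphism is some `Λ g`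
  have hsurj : ∀ γ : P ≃o P, ∃ g hg, γ = Λ g hg := by
    intro γ
    obtain ⟨g1, hg1, hc1⟩ := hcommon C
    obtain ⟨g2, hg2, hc2⟩ := hcommon (γ • C)
    refine ⟨g2 * g1⁻¹, mul_mem hg2 (inv_mem hg1), ?_⟩
    set γ' := Λ (g2 * g1⁻¹) (mul_mem hg2 (inv_mem hg1)) with hγ'
    have hsub : ∀ x ∈ C, γ' x = γ x := by
      intro x hx
      apply φ.injective
      rw [hΛ]
      have hγx : γ x ∈ (γ • C : Flag P) := by
        change γ x ∈ ((γ • C : Flag P) : Set P)
        rw [Flag.coe_smul]
        exact ⟨x, hx, rfl⟩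
      have hr : rk (γ x) = rk x := p3 γ x
      rcases cases_emb (φ x) with e | e | ⟨K, e⟩
      · have h5 : rk x = -1 := by rw [← hφ x, e, rkC_bot]
        rw [e, hbot (γ x) (by omega)]
        rfl
      · have h5 : rk x = d := by rw [← hφ x, e, rkC_top]
        rw [e, htop (γ x) (by omega)]
        rfl
      · have h5 : rk x = K.rank.val := by rw [← hφ x, e, rkC_emb]
        obtain ⟨L, hL, hLr⟩ := hface (γ x) K.rank.val (by rw [hr, h5]) K.rank.isLt
        rw [hL, e, lmulC_emb]
        have m1 := hc1 x hx K e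
        have m2 := hc2 (γ x) hγx L hL
        have : lmul (g2 * g1⁻¹) (mul_mem hg2 (inv_mem hg1)) K = L := by
          have m3 : g2 ∈ (lmul (g2 * g1⁻¹) (mul_mem hg2 (inv_mem hg1)) K).coset := by
            rw [mem_lmul]
            have : (g2 * g1⁻¹)⁻¹ * g2 = g1 := by group
            rw [this]
            exact m1
          rw [eq_cos _ g2 hg2 m3, eq_cos L g2 hg2 m2]
          have : (lmul (g2 * g1⁻¹) (mul_mem hg2 (inv_mem hg1)) K).rank = L.rank := by
            apply Fin.ext
            exact hLr.symm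
          rw [this]
        rw [this]
    have hfix : (γ'⁻¹ * γ) • C = C := by
      apply SetLike.coe_injective
      rw [Flag.coe_smul]
      ext x
      constructor
      · rintro ⟨y, hy, rfl⟩
        change γ'⁻¹ (γ y) ∈ C
        rw [← hsub y hy]
        have : γ'⁻¹ (γ' y) = y := γ'.symm_apply_apply y
        rw [this]
        exact hy
      · intro hx
        refine ⟨x, hx, ?_⟩
        change γ'⁻¹ (γ x) = x
        rw [← hsub x hx]
        exact γ'.symm_apply_apply x
    have := hρ.free _ hfix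
    exact (inv_mul_eq_one.1 this).symm
  -- isometric automorphisms
  have hiso : ∀ g hg, Λ g hg ∈ symGroup rk f ↔ Isom F g := by
    intro g hg
    have hval : ∀ (v : P) (h : Equiv.Perm Y) (K : CFace S), rk v = 0 → φ v = emb K →
        h ∈ K.coset → f v = c + F (h y0) ∧ f (Λ g hg v) = c + F (g (h y0)) := by
      intro v h K hv hK hh
      refine ⟨hf' v K hv hK h hh, ?_⟩
      have h3 : φ (Λ g hg v) = emb (lmul g hg K) := by rw [hΛ, hK, lmulC_emb]
      have h4 := hf' (Λ g hg v) _ (by rw [p3, hv]) h3 (g * h) (by rw [mem_lmul]; simpa using hh)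
      exact h4
    constructor
    · rintro ⟨-, T, hT⟩
      refine ⟨((IsometryEquiv.addLeft c).trans T).trans (IsometryEquiv.addLeft (-c)), ?_⟩
      intro y
      obtain ⟨h, hh, rfl⟩ := hR.trans y
      let K : CFace S := cos h hh ⟨0, hd⟩
      let v := φ.symm (emb K)
      have hK : φ v = emb K := φ.apply_symm_apply _
      have hv : rk v = 0 := by rw [← hφ v, hK]; rfl
      obtain ⟨e1, e2⟩ := hval v h K hv hK (mem_cos h hh _)
      change -c + T (c + F (h y0)) = F (g (h y0))
      rw [← e1, hT v hv, e2]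
      abel
    · rintro ⟨T, hT⟩
      refine ⟨fun x => p3 _ x, ((IsometryEquiv.addLeft (-c)).trans T).trans
        (IsometryEquiv.addLeft c), ?_⟩
      intro v hv
      obtain ⟨K, hK, -⟩ := hface v 0 (by exact_mod_cast hv) hd
      obtain ⟨h, hh⟩ : ∃ h, h ∈ K.coset := by
        obtain ⟨g0, -, e⟩ := K.ex
        exact ⟨g0, by rw [e]; exact ⟨1, one_mem _, by simp⟩⟩
      obtain ⟨e1, e2⟩ := hval v h K hv hK hh
      change c + T (-c + f v) = f (Λ g hg v)
      rw [e1, e2, ← hT]
      congr 2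
      abel
  have hΛmul : ∀ g hg h hh, Λ g hg * Λ h hh = Λ (g * h) (mul_mem hg hh) := by
    intro g hg h hh
    ext x
    apply φ.injective
    change φ (Λ g hg (Λ h hh x)) = φ (Λ (g * h) _ x)
    rw [hΛ, hΛ, hΛ]
    rcases cases_emb (φ x) with e | e | ⟨K, e⟩
    · rw [e]; rfl
    · rw [e]; rfl
    · rw [e, lmulC_emb, lmulC_emb, lmulC_emb, lmul_lmul]
  have hs0 : S.σ i0 ∈ S.par Set.univ := Subgroup.subset_closure ⟨i0, Set.mem_univ _, rfl⟩
  have hidx : (symGroup rk f).index = 2 := by
    rw [Subgroup.index_eq_two_iff]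
    refine ⟨Λ (S.σ i0) hs0, fun γ => ?_⟩
    obtain ⟨g, hg, rfl⟩ := hsurj γ
    rw [hΛmul, hiso, hiso]
    by_cases h : Isom F g
    · refine Or.inr ⟨h, fun h' => hR.noiso ?_⟩
      have := isom_mul (isom_inv h) h'
      rwa [inv_mul_cancel_left] at this
    · refine Or.inl ⟨?_, h⟩
      rcases N_or S i0 hg with h' | h'
      · exact absurd (N_isom S i0 hR h') h
      · exact N_isom S i0 hR h'
  rw [flagOrbits, card_orbits_eq_index C (fun D => hP.regular C D) (fun γ hγ => hρ.free γ hγ), hidx]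

end FO2
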