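import Pool.Agent.FO2.Stmts

/-!
# Modules SA, SD: `H_1` acts as the full symmetric group
-/

namespace FO2

open Lib_helper64.FO
open scoped RealInnerProductSpace

noncomputable section

namespace SAD

variable {d : ℕ} {Γ : Type} [Group Γ] {X : Type} [MulAction Γ X]

/-- From adjacent data on swaps to all permutations. -/
theorem all_of_swap (G : Geo d Γ X) (Y : Fin d → E d)
    (hs : ∀ i j, i ≠ j → ∃ h ∈ G.Hi 1, ∀ k, G.T h (Y k) = Y (Equiv.swap i j k))
    (π : Equiv.Perm (Fin d)) : ∃ h ∈ G.Hi 1, ∀ k, G.T h (Y k) = Y (π k) := by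
  induction π using Equiv.Perm.swap_induction_on with
  | one =>
    refine ⟨1, one_mem _, ?_⟩
    intro k
    rw [G.T_one]
    rfl
  | swap_mul f i j hij ih =>
    obtain ⟨h, hh, e⟩ := ih
    obtain ⟨g, hg, e'⟩ := hs i j hij
    refine ⟨g * h, mul_mem hg hh, ?_⟩
    intro k
    rw [G.T_mul_apply (G.Hi_le_H 1 hg) (G.Hi_le_H 1 hh), e, e']
    rfl

/-- the reflection in a root that is orthogonal to the base vertex belongs to `T(H_1)` -/
theorem refl_mem [Finite Γ] (hO : StmtOrb) (G : Geo d Γ X) {r : E d} (hd : 9 ≤ d) (hr : Last G r)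
    {b : E d} (hb : b ∈ G.orb r) (hx : ⟪b, G.x⟫ = (0 : ℝ)) :
    ∃ h ∈ G.Hi 1, ∀ v, G.T h v = sref b v := by
  have hρ : G.ρ (d - 1) ∈ G.H := hr.J _ (by omega)
  obtain ⟨_, _, _, _, h5, h6, _⟩ := hO d Γ X G (G.ρ (d - 1)) 1 r hρ (Or.inl rfl) hr.norm
    (by intro v; rw [one_smul, hr.refl v])
  obtain ⟨k, hk, e⟩ := h6 b hb
  have hh : k * G.ρ (d - 1) * k⁻¹ ∈ G.H := mul_mem (mul_mem hk hρ) (inv_mem hk)
  have hT : ∀ v, G.T (k * G.ρ (d - 1) * k⁻¹) v = sref b v := by
    intro v
    rw [h5 k hk v, one_smul, e]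
  refine ⟨k * G.ρ (d - 1) * k⁻¹, ⟨hh, ?_⟩, hT⟩
  apply G.mem_up_of_fix
  apply G.inj
  rw [← G.equiv _ hh, hT]
  change sref b G.x = G.x
  rw [sref, hx]
  simp

theorem x_ne {G : Geo d Γ X} {r : E d} (hr : Last G r) : G.x ≠ 0 := hr.good.chain.x_ne

theorem T_orb {G : Geo d Γ X} {r : E d} {h : Γ} (hh : h ∈ G.H) : ∀ a ∈ G.orb r, G.T h a ∈ G.orb r := by
  rintro a ⟨k, hk, e⟩
  refine ⟨h * k, mul_mem hh hk, ?_⟩
  rw [G.T_mul_apply hh hk]
  rcases e with e | e
  · left; rw [e]
  · right; rw [e, map_neg]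

/-! ### type `A` -/

section A

variable {v : Fin (d + 1) → E d} {Φ : Set (E d)}

theorem inner_self' (hv : IsA Φ v) (i : Fin (d + 1)) : ⟪v i, v i⟫ = (1 : ℝ) := by
  rw [hv.1]; simp

theorem inner_ne (hv : IsA Φ v) {i j : Fin (d + 1)} (h : i ≠ j) : ⟪v i, v j⟫ = (-1 / d : ℝ) := by
  rw [hv.1]; simp [h]

theorem v_inj (hd : 9 ≤ d) (hv : IsA Φ v) {i j : Fin (d + 1)} (h : v i = v j) : i = j := by
  by_contra hij
  have h1 := inner_ne hv hij
  rw [h, inner_self' hv] at h1
  have h2 : (9 : ℝ) ≤ d := by exact_mod_cast hd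
  have h3 : (-1 / d : ℝ) ≤ 0 := by
    apply div_nonpos_of_nonpos_of_nonneg <;> linarith
  linarith

theorem v_neg (hd : 9 ≤ d) (hv : IsA Φ v) {i j : Fin (d + 1)} (h : v i = -v j) : False := by
  have h2 : (9 : ℝ) ≤ d := by exact_mod_cast hd
  have h1 : ⟪v i, v i⟫ = (1 : ℝ) := inner_self' hv i
  have h3 : ⟪v i, -v j⟫ = (1 : ℝ) := by rw [← h]; exact h1
  rw [inner_neg_right, hv.1] at h3
  split_ifs at h3
  · linarith
  · have h4 : (1 : ℝ) / d < 1 := by
      rw [div_lt_one (by linarith)]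
      linarith
    have h5 : -(-1 / (d : ℝ)) = 1 / d := by ring
    linarith

theorem lin_A (hd : 9 ≤ d) (hv : IsA Φ v) : LinearIndependent ℝ (fun k : Fin d => v k.succ) := by
  have h2 : (9 : ℝ) ≤ d := by exact_mod_cast hd
  rw [Fintype.linearIndependent_iff]
  intro c hc j
  have key : ∀ j : Fin d, c j * (1 + 1 / d) = (1 / d) * ∑ k, c k := by
    intro j
    have h1 : ⟪v j.succ, ∑ k, c k • v k.succ⟫ = (0 : ℝ) := by rw [hc, inner_zero_right]
    rw [inner_sum] at h1
    have h3 : ∀ k : Fin d, ⟪v j.succ, c k • v k.succ⟫ =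
        (if j = k then c k * (1 + 1 / d) else 0) - (1 / d) * c k := by
      intro k
      rw [inner_smul_right, hv.1]
      by_cases hjk : j = k
      · subst hjk
        simp
        ring
      · have : j.succ ≠ k.succ := fun h => hjk (Fin.succ_injective _ h)
        simp [hjk]
        ring
    rw [Finset.sum_congr rfl (fun k _ => h3 k), Finset.sum_sub_distrib, ← Finset.mul_sum] at h1
    simp only [Finset.sum_ite_eq, Finset.mem_univ, if_true] at h1
    linarith
  have hS : ∑ k, c k = 0 := by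
    have h1 : ∑ j : Fin d, c j * (1 + 1 / (d : ℝ)) = ∑ j : Fin d, (1 / (d : ℝ)) * ∑ k, c k :=
      Finset.sum_congr rfl (fun j _ => key j)
    rw [← Finset.sum_mul, Finset.sum_const, Finset.card_univ, Fintype.card_fin, nsmul_eq_mul] at h1
    have h3 : (d : ℝ) ≠ 0 := by linarith
    field_simp at h1
    have h4 : (∑ k, c k) * (d + 1 - d) = 0 := by linarith
    simpa using h4
  have h1 := key j
  rw [hS, mul_zero] at h1
  rcases mul_eq_zero.1 h1 with h | h
  · exact h
  · exfalso
    have : (0 : ℝ) < 1 / d := by positivity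
    linarith

/-- the root `t • (v i - v j)` and its reflection -/
theorem root_A (hd : 9 ≤ d) (hv : IsA Φ v) {i j : Fin (d + 1)} (hij : i ≠ j) :
    ∃ b ∈ Φ, (∀ k, k ≠ i → k ≠ j → ⟪b, v k⟫ = (0 : ℝ)) ∧
      ∀ k, sref b (v k) = v (Equiv.swap i j k) := by
  have h2 : (9 : ℝ) ≤ d := by exact_mod_cast hd
  have hne : v i - v j ≠ 0 := by
    intro h
    exact hij (v_inj hd hv (sub_eq_zero.1 h))
  have hpos : 0 < ‖v i - v j‖ := norm_pos_iff.2 hne
  have hn : ‖v i - v j‖ ^ 2 = 2 * (1 + 1 / d) := by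
    rw [← real_inner_self_eq_norm_sq, inner_sub_left, inner_sub_right, inner_sub_right,
      inner_self' hv, inner_self' hv, inner_ne hv hij, inner_ne hv hij.symm]
    ring
  set t := 1 / ‖v i - v j‖ with ht
  have htp : 0 < t := by positivity
  have ht2 : t * t * (2 * (1 + 1 / d)) = 1 := by
    rw [← hn, ht]
    field_simp
  have hzero : ∀ k, k ≠ i → k ≠ j → ⟪t • (v i - v j), v k⟫ = (0 : ℝ) := by
    intro k hki hkj
    rw [real_inner_smul_left, inner_sub_left, inner_ne hv hki.symm, inner_ne hv hkj.symm]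
    ring
  refine ⟨t • (v i - v j), ?_, hzero, ?_⟩
  · rw [hv.2]
    refine ⟨i, j, hij, t, htp, ?_, rfl⟩
    rw [norm_smul, Real.norm_of_nonneg htp.le, ht]
    field_simp
  · intro k
    by_cases hki : k = i
    · subst hki
      rw [Equiv.swap_apply_left, sref, real_inner_smul_left, inner_sub_left, inner_self' hv,
        inner_ne hv hij.symm, smul_smul]
      have : 2 * (t * (1 - -1 / (d : ℝ))) * t = 1 := by linear_combination ht2
      rw [this]
      module
    · by_cases hkj : k = j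
      · subst hkj
        rw [Equiv.swap_apply_right, sref, real_inner_smul_left, inner_sub_left, inner_self' hv,
          inner_ne hv hij, smul_smul]
        have : 2 * (t * (-1 / (d : ℝ) - 1)) * t = -1 := by linear_combination -ht2
        rw [this]
        module
      · rw [Equiv.swap_apply_of_ne_of_ne hki hkj, sref, hzero k hki hkj]
        simp

end A

end SAD

open SAD in
theorem symA (h1 : StmtOrb) (h2 : StmtAutA) : StmtSymA := by
  intro d Γ _ _ X _ G r hd hr v hv hx
  obtain ⟨c, hc⟩ := hx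
  have hc0 : c ≠ 0 := by
    intro h
    apply x_ne hr
    rw [hc, h, zero_smul]
  refine ⟨lin_A hd hv, ?_, ?_⟩
  · intro h hh
    have hH := G.Hi_le_H 1 hh
    have hfix : G.T h (v 0) = v 0 := by
      have h3 := G.x_mem_V1 h hh
      rw [hc, map_smul] at h3
      exact smul_right_injective _ hc0 h3
    obtain ⟨π, hπ⟩ := h2 d (G.orb r) v (by omega) hv (G.T h) (T_orb hH)
    rcases hπ with hπ | hπ
    · have h0 : π 0 = 0 := by
        have := hπ 0
        rw [hfix] at this
        exact (v_inj hd hv this).symm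
      have hs : ∀ k : Fin d, π k.succ ≠ 0 := by
        intro k hk
        rw [← h0] at hk
        exact Fin.succ_ne_zero k (π.injective hk)
      have hinj : Function.Injective (fun k : Fin d => (π k.succ).pred (hs k)) := by
        intro a b hab
        have : π a.succ = π b.succ := Fin.pred_inj.1 hab
        exact Fin.succ_injective _ (π.injective this)
      refine ⟨Equiv.ofBijective _ (Finite.injective_iff_bijective.1 hinj), ?_⟩
      intro k
      rw [hπ]
      simp
    · exfalso
      have := hπ 0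
      rw [hfix] at this
      exact v_neg hd hv this
  · apply all_of_swap G
    intro i j hij
    have hij' : i.succ ≠ j.succ := fun h => hij (Fin.succ_injective _ h)
    obtain ⟨b, hb, hz, hr'⟩ := root_A hd hv hij'
    obtain ⟨h, hh, e⟩ := refl_mem h1 G hd hr hb (by
      rw [hc, real_inner_smul_right, hz 0 (Fin.succ_ne_zero i).symm (Fin.succ_ne_zero j).symm,
        mul_zero])
    refine ⟨h, hh, ?_⟩
    intro k
    rw [e, hr']
    congr 1
    by_cases hki : k = i
    · subst hki; simp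
    · by_cases hkj : k = j
      · subst hkj; simp
      · rw [Equiv.swap_apply_of_ne_of_ne hki hkj, Equiv.swap_apply_of_ne_of_ne]
        · exact fun h => hki (Fin.succ_injective _ h)
        · exact fun h => hkj (Fin.succ_injective _ h)

namespace SAD

section D

variable {d : ℕ} {u : OrthonormalBasis (Fin d) ℝ (E d)} {Φ : Set (E d)}

/-- the root `(u i - u j) / √2` and its reflection -/
theorem root_D (hu : IsD Φ u) {i j : Fin d} (hij : i ≠ j) :
    ∃ b ∈ Φ, ⟪b, ∑ k, u k⟫ = (0 : ℝ) ∧ ∀ k, sref b (u k) = u (Equiv.swap i j k) := by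
  have hin : ∀ k l, ⟪u k, u l⟫ = if k = l then (1 : ℝ) else 0 := by
    intro k l
    exact orthonormal_iff_ite.1 u.orthonormal k l
  have hs : (1 / √2 : ℝ) * (1 / √2) = 1 / 2 := by
    have h : (√2 : ℝ) * √2 = 2 := Real.mul_self_sqrt (by norm_num)
    rw [div_mul_div_comm, h]
    norm_num
  have hk : ∀ k, ⟪(1 / √2 : ℝ) • (u i - u j), u k⟫ =
      (1 / √2 : ℝ) * ((if i = k then 1 else 0) - (if j = k then 1 else 0)) := by
    intro k
    rw [real_inner_smul_left, inner_sub_left, hin, hin]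
  refine ⟨(1 / √2 : ℝ) • (u i - u j), ?_, ?_, ?_⟩
  · rw [hu]
    refine ⟨i, j, hij, 1, -1, ?_⟩
    congr 1
    simp [sg, sub_eq_add_neg]
  · rw [inner_sum, Finset.sum_congr rfl (fun k _ => hk k), ← Finset.mul_sum,
      Finset.sum_sub_distrib]
    simp
  · intro k
    rw [sref, hk, smul_smul]
    by_cases hki : k = i
    · subst hki
      rw [Equiv.swap_apply_left, if_pos rfl, if_neg hij.symm]
      have : 2 * (1 / √2 * ((1 : ℝ) - 0)) * (1 / √2) = 1 := by linarith
      rw [this]
      module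
    · by_cases hkj : k = j
      · subst hkj
        rw [Equiv.swap_apply_right, if_pos rfl, if_neg hij]
        have : 2 * (1 / √2 * ((0 : ℝ) - 1)) * (1 / √2) = -1 := by linarith
        rw [this]
        module
      · rw [Equiv.swap_apply_of_ne_of_ne hki hkj, if_neg (Ne.symm hki), if_neg (Ne.symm hkj)]
        simp

end D

end SAD

open SAD in
theorem symD (h1 : StmtOrb) (h2 : StmtAutD) : StmtSymD := by
  intro d Γ _ _ X _ G r hd hr u hu hx
  obtain ⟨c, hc⟩ := hx
  have hc0 : c ≠ 0 := by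
    intro h
    apply x_ne hr
    rw [hc, h, zero_smul]
  have hin : ∀ k l, ⟪u k, u l⟫ = if k = l then (1 : ℝ) else 0 := by
    intro k l
    exact orthonormal_iff_ite.1 u.orthonormal k l
  refine ⟨u.orthonormal.linearIndependent, ?_, ?_⟩
  · intro h hh
    have hH := G.Hi_le_H 1 hh
    have hfix : G.T h (∑ k, u k) = ∑ k, u k := by
      have h3 := G.x_mem_V1 h hh
      rw [hc, map_smul] at h3
      exact smul_right_injective _ hc0 h3
    obtain ⟨π, s, hπ⟩ := h2 d (G.orb r) u (by omega) hu (G.T h) (T_orb hH)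
    refine ⟨π, ?_⟩
    intro k
    rw [hπ k]
    have e1 : ⟪∑ l, u l, u (π k)⟫ = (1 : ℝ) := by
      rw [sum_inner, Finset.sum_congr rfl (fun l _ => hin l (π k))]
      simp
    rw [← hfix, map_sum, sum_inner] at e1
    have e2 : ∀ l, ⟪G.T h (u l), u (π k)⟫ = if l = k then (sg (s k) : ℝ) else 0 := by
      intro l
      rw [hπ l, real_inner_smul_left, hin]
      by_cases hlk : l = k
      · subst hlk; simp
      · have : π l ≠ π k := fun h => hlk (π.injective h)
        simp [hlk, this]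
    rw [Finset.sum_congr rfl (fun l _ => e2 l)] at e1
    simp only [Finset.sum_ite_eq', Finset.mem_univ, if_true] at e1
    rw [e1, one_smul]
  · apply all_of_swap G
    intro i j hij
    obtain ⟨b, hb, hz, hr'⟩ := root_D hu hij
    obtain ⟨h, hh, e⟩ := refl_mem h1 G hd hr hb (by rw [hc, real_inner_smul_right, hz, mul_zero])
    refine ⟨h, hh, ?_⟩
    intro k
    rw [e, hr']

end

end FO2
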