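import Pool.Agent.FO2.Stmts

/-!
# Isometries commuting with `H_i` on `U_i`
-/

namespace FO2

open Lib_helper64.FO
open scoped RealInnerProductSpace

noncomputable section

namespace SC

variable {d : ℕ} {Γ : Type} [Group Γ] {X : Type} [MulAction Γ X]

/-- `V_(i+1) ∩ U_i` is a line -/
theorem line (G : Geo d Γ X) (hc : Chain G) {i : ℕ} (hi : i + 3 ≤ d) :
    ∃ e : E d, e ≠ 0 ∧ e ∈ G.V (i + 1) ∧ e ∈ G.U i ∧
      ∀ v ∈ G.V (i + 1), v ∈ G.U i → ∃ c : ℝ, c • e = v := by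
  have h1 : Module.finrank ℝ (G.V i) = i := hc.dim i (by omega)
  have h2 : Module.finrank ℝ (G.V (i + 1)) = i + 1 := hc.dim (i + 1) (by omega)
  have hle : G.V i ≤ G.V (i + 1) := G.V_mono (by omega)
  have h := Submodule.finrank_add_inf_finrank_orthogonal hle
  have h3 : Module.finrank ℝ ((G.V i)ᗮ ⊓ G.V (i + 1) : Submodule ℝ (E d)) = 1 := by omega
  obtain ⟨⟨e, he⟩, hne, hsp⟩ := finrank_eq_one_iff'.1 h3
  refine ⟨e, ?_, he.2, he.1, ?_⟩
  · intro h0
    apply hne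
    exact Subtype.ext h0
  · intro v hv hu
    obtain ⟨c, hcc⟩ := hsp ⟨v, hu, hv⟩
    exact ⟨c, congrArg Subtype.val hcc⟩

/-- the part of `U_i` on which `A` is the scalar `s` -/
def eig (G : Geo d Γ X) (i : ℕ) (A : E d ≃ₗᵢ[ℝ] E d) (s : ℝ) : Submodule ℝ (E d) where
  carrier := {v | v ∈ G.U i ∧ A v = s • v}
  add_mem' := by
    rintro a b ⟨ha, ha'⟩ ⟨hb, hb'⟩
    exact ⟨add_mem ha hb, by rw [map_add, ha', hb', smul_add]⟩
  zero_mem' := ⟨zero_mem _, by simp⟩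
  smul_mem' := by
    rintro c a ⟨ha, ha'⟩
    exact ⟨Submodule.smul_mem _ _ ha, by rw [map_smul, ha', smul_comm]⟩

theorem eig_all (G : Geo d Γ X) {i : ℕ} (hI : G.Irr i) (A : E d ≃ₗᵢ[ℝ] E d)
    (hA : ∀ h ∈ G.Hi i, ∀ v ∈ G.U i, A (G.T h v) = G.T h (A v)) (s : ℝ) {e : E d} (he : e ≠ 0)
    (hU : e ∈ G.U i) (hs : A e = s • e) : ∀ v ∈ G.U i, A v = s • v := by
  have hst : ∀ h ∈ G.Hi i, ∀ v ∈ eig G i A s, G.T h v ∈ eig G i A s := by
    intro h hh v hv
    refine ⟨G.T_mem_U hh hv.1, ?_⟩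
    rw [hA h hh v hv.1, hv.2, map_smul]
  rcases hI (eig G i A s) (fun v hv => hv.1) hst with h | h
  · exfalso
    apply he
    have : e ∈ eig G i A s := ⟨hU, hs⟩
    rw [h, Submodule.mem_bot] at this
    exact this
  · intro v hv
    rw [← h] at hv
    exact hv.2

end SC

/-- **isometries commuting with `H_i` on `U_i` are `± 1` on `U_i`** -/
theorem scal : StmtScal := by
  intro d Γ _ _ X _ G hd hc hirr
  refine ⟨hc, hirr, ?_⟩
  intro i hi A hAU hAc
  obtain ⟨e, he, heV, heU, hline⟩ := SC.line G hc hi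
  have hV : A e ∈ G.V (i + 1) := by
    intro h hh
    have hh' : h ∈ G.Hi i := G.Hi_anti (by omega) hh
    rw [← hAc h hh' e heU, heV h hh]
  obtain ⟨c, hce⟩ := hline (A e) hV (hAU e heU)
  have hn : ‖A e‖ = ‖e‖ := A.norm_map e
  rw [← hce, norm_smul] at hn
  have hne : ‖e‖ ≠ 0 := norm_ne_zero_iff.2 he
  have hc1 : ‖c‖ = 1 := by
    field_simp at hn
    exact hn
  rw [Real.norm_eq_abs] at hc1
  rcases (abs_eq (by norm_num : (0 : ℝ) ≤ 1)).1 hc1 with h1 | h1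
  · left
    intro v hv
    have := SC.eig_all G (hirr i hi) A hAc 1 he heU (by rw [← hce, h1]) v hv
    rw [this, one_smul]
  · right
    intro v hv
    have := SC.eig_all G (hirr i hi) A hAc (-1) he heU (by rw [← hce, h1]) v hv
    rw [this, neg_smul, one_smul]

end

end FO2
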