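import Pool.Agent.FO2.Stmts

/-!
# Module ST: conjugation by an element commuting with a reflection
-/

namespace FO2

open Lib_helper64.FO
open scoped RealInnerProductSpace

noncomputable section

namespace ST

variable {d : ℕ}

theorem eq_of_sref {p q : E d} (hp : ‖p‖ = 1) (hq : ‖q‖ = 1) (h : ∀ v, sref p v = sref q v) :
    p = q ∨ p = -q := by
  have h1 := h p
  rw [sref_self hp, sref] at h1
  have h2 : p = ⟪q, p⟫ • q := by
    have h3 : (2 : ℝ) • p = (2 : ℝ) • (⟪q, p⟫ • q) := by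
      rw [smul_smul]
      have : (2 : ℝ) • p = p + p := two_smul ℝ p
      rw [this]
      have h4 : -p = p - (2 * ⟪q, p⟫) • q := h1
      calc p + p = p - -p := by abel
        _ = p - (p - (2 * ⟪q, p⟫) • q) := by rw [← h4]
        _ = (2 * ⟪q, p⟫) • q := by abel
    exact smul_right_injective (E d) (two_ne_zero' ℝ) h3
  have h3 : |⟪q, p⟫| = 1 := by
    have := congrArg norm h2
    rw [norm_smul, hp, hq, mul_one, Real.norm_eq_abs] at this
    exact this.symm
  rcases (abs_eq (zero_le_one)).1 h3 with h4 | h4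
  · left; rw [h2, h4, one_smul]
  · right; rw [h2, h4, neg_one_smul]

/-- reflections commute iff the roots are orthogonal or parallel -/
theorem comm_of_inner {p q : E d} (h : ⟪p, q⟫ = (0 : ℝ) ∨ p = q ∨ p = -q) (v : E d) :
    sref p (sref q v) = sref q (sref p v) := by
  rcases h with h | rfl | rfl
  · have h' : ⟪q, p⟫ = (0 : ℝ) := by rw [real_inner_comm]; exact h
    simp only [sref, inner_sub_right, inner_smul_right, h, h']
    module
  · rfl
  · rw [sref_neg, sref_neg]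

theorem inner_of_comm {p q : E d} (hp : ‖p‖ = 1) (hq : ‖q‖ = 1)
    (h : ∀ v, sref p (sref q v) = sref q (sref p v)) :
    ⟪p, q⟫ = (0 : ℝ) ∨ p = q ∨ p = -q := by
  have hqq : ⟪q, q⟫ = (1 : ℝ) := by rw [real_inner_self_eq_norm_sq, hq]; norm_num
  have h1 := h q
  rw [sref_self hq, sref_neg_right] at h1
  have e1 : sref p q = q - (2 * ⟪p, q⟫) • p := rfl
  have e2 : sref q (sref p q) = -q - (2 * ⟪p, q⟫) • (p - (2 * ⟪p, q⟫) • q) := by
    rw [e1, sref, inner_sub_right, inner_smul_right, hqq, real_inner_comm p q]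
    module
  rw [e2, e1] at h1
  have h2 : (4 * ⟪p, q⟫) • (p - ⟪p, q⟫ • q) = (0 : E d) := by
    have h3 : -(q - (2 * ⟪p, q⟫) • p) - (-q - (2 * ⟪p, q⟫) • (p - (2 * ⟪p, q⟫) • q)) = 0 := by
      rw [h1, sub_self]
    rw [← h3]
    module
  rcases smul_eq_zero.1 h2 with h3 | h3
  · left; linarith
  · right
    have h4 : p = ⟪p, q⟫ • q := sub_eq_zero.1 h3
    have h5 : |⟪p, q⟫| = 1 := by
      have := congrArg norm h4
      rw [norm_smul, hp, hq, mul_one, Real.norm_eq_abs] at this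
      exact this.symm
    rcases (abs_eq (zero_le_one)).1 h5 with h6 | h6
    · left; rw [h4, h6, one_smul]
    · right; rw [h4, h6, neg_one_smul]

variable {Γ : Type} [Group Γ] {X : Type} [MulAction Γ X] (G : Geo d Γ X)

/-- equality up to sign -/
def Eqs (p q : E d) : Prop := p = q ∨ p = -q

theorem Eqs.refl (p : E d) : Eqs p p := Or.inl rfl

theorem Eqs.symm {p q : E d} (h : Eqs p q) : Eqs q p := by
  rcases h with rfl | rfl
  · exact Or.inl rfl
  · exact Or.inr (neg_neg _).symm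

theorem Eqs.trans {p q r : E d} (h : Eqs p q) (h' : Eqs q r) : Eqs p r := by
  rcases h with rfl | rfl <;> rcases h' with rfl | rfl
  · exact Or.inl rfl
  · exact Or.inr rfl
  · exact Or.inr rfl
  · exact Or.inl (neg_neg _)

theorem Eqs.map (g : E d ≃ₗᵢ[ℝ] E d) {p q : E d} (h : Eqs p q) : Eqs (g p) (g q) := by
  rcases h with rfl | rfl
  · exact Or.inl rfl
  · exact Or.inr (map_neg g _)

theorem Eqs.sref_eq {p q : E d} (h : Eqs p q) (v : E d) : sref p v = sref q v := by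
  rcases h with rfl | rfl
  · rfl
  · exact sref_neg _ _

theorem Eqs.sref_right (b : E d) {p q : E d} (h : Eqs p q) : Eqs (sref b p) (sref b q) := by
  rcases h with rfl | rfl
  · exact Or.inl rfl
  · exact Or.inr (sref_neg_right _ _)

theorem Eqs.of_smul {ε : ℝ} (hε : ε = 1 ∨ ε = -1) (p : E d) : Eqs (ε • p) p := by
  rcases hε with rfl | rfl
  · exact Or.inl (one_smul _ _)
  · exact Or.inr (neg_one_smul _ _)

theorem Eqs.abs_inner {p q r s : E d} (h : Eqs p q) (h' : Eqs r s) :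
    |⟪p, r⟫| = |(⟪q, s⟫ : ℝ)| := by
  rcases h with rfl | rfl <;> rcases h' with rfl | rfl <;>
    simp [inner_neg_left, inner_neg_right]

end ST

open _root_.FO2.ST in
theorem star (h1 : StmtOrb) (h2 : StmtRG2) : StmtStar := by
  intro d Γ _ _ X _ G hd hgood ρ ε a hρ hε hna hT hirr hspan hsl α hα
  obtain ⟨hRS, haΦ, hstab, -, hconj, -, -⟩ := h1 d Γ X G ρ ε a hρ hε hna hT
  have hH : ∀ {γ h : Γ}, h ∈ G.H → γ * h * γ⁻¹ ∈ G.H := fun {γ h} hh => G.conj_mem γ hh
  have hε0 : ε ≠ 0 := by rcases hε with rfl | rfl <;> norm_num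
  have hnorm : ∀ k : Γ, ‖G.T k a‖ = 1 := fun k => by rw [LinearIsometryEquiv.norm_map, hna]
  -- conjugates of `ρ`
  have hRH : ∀ k ∈ G.H, k * ρ * k⁻¹ ∈ G.H := fun k hk => mul_mem (mul_mem hk hρ) (inv_mem hk)
  have hRα : ∀ k : Γ, α * (k * ρ * k⁻¹) * α⁻¹ = (α * k * α⁻¹) * ρ * (α * k * α⁻¹)⁻¹ := by
    intro k
    calc α * (k * ρ * k⁻¹) * α⁻¹
        = (α * k * α⁻¹) * (α * ρ * α⁻¹) * (α * k * α⁻¹)⁻¹ := by group
      _ = _ := by rw [hα]
  -- equality of the conjugates
  have hReq : ∀ k ∈ G.H, ∀ l ∈ G.H, (k * ρ * k⁻¹ = l * ρ * l⁻¹ ↔ Eqs (G.T k a) (G.T l a)) := by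
    intro k hk l hl
    constructor
    · intro e
      apply eq_of_sref (hnorm k) (hnorm l)
      intro v
      have e1 := hconj k hk v
      have e2 := hconj l hl v
      rw [e, e2] at e1
      exact (smul_right_injective (E d) hε0 e1).symm
    · intro e
      apply G.T_inj (hRH k hk) (hRH l hl)
      ext1 v
      rw [hconj k hk v, hconj l hl v, e.sref_eq]
  -- commuting conjugates
  have hsm : ∀ p q v : E d, sref p (ε • sref q v) = ε • sref p (sref q v) := fun p q v =>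
    sref_smul p _ _
  have hRcomm : ∀ k ∈ G.H, ∀ l ∈ G.H,
      ((k * ρ * k⁻¹) * (l * ρ * l⁻¹) = (l * ρ * l⁻¹) * (k * ρ * k⁻¹) ↔
        (⟪G.T k a, G.T l a⟫ = (0 : ℝ) ∨ G.T k a = G.T l a ∨ G.T k a = -G.T l a)) := by
    intro k hk l hl
    have key : ∀ k ∈ G.H, ∀ l ∈ G.H, ∀ v, G.T ((k * ρ * k⁻¹) * (l * ρ * l⁻¹)) v =
        ε • ε • sref (G.T k a) (sref (G.T l a) v) := by
      intro k hk l hl v
      rw [G.T_mul_apply (hRH k hk) (hRH l hl), hconj l hl v, hconj k hk, hsm]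
    constructor
    · intro e
      apply inner_of_comm (hnorm k) (hnorm l)
      intro v
      have e1 := key k hk l hl v
      have e2 := key l hl k hk v
      rw [e, e2] at e1
      exact (smul_right_injective (E d) hε0 (smul_right_injective (E d) hε0 e1)).symm
    · intro e
      apply G.T_inj (mul_mem (hRH k hk) (hRH l hl)) (mul_mem (hRH l hl) (hRH k hk))
      ext1 v
      rw [key k hk l hl v, key l hl k hk v, comm_of_inner e]
  -- well-definedness
  have hA : ∀ k ∈ G.H, ∀ l ∈ G.H, Eqs (G.T k a) (G.T l a) →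
      Eqs (G.T (α * k * α⁻¹) a) (G.T (α * l * α⁻¹) a) := by
    intro k hk l hl e
    rw [← hReq _ (hH hk) _ (hH hl), ← hRα, ← hRα, (hReq k hk l hl).2 e]
  -- a representative of every root
  have hrep : ∀ b ∈ G.orb a, ∃ k ∈ G.H, Eqs b (G.T k a) := by
    rintro b ⟨k, hk, hb⟩
    exact ⟨k, hk, hb⟩
  classical
  choose! κ hκ hκb using hrep
  set ψ : E d → E d := fun b => G.T (α * κ b * α⁻¹) a with hψ
  have hψk : ∀ b ∈ G.orb a, ∀ k ∈ G.H, Eqs b (G.T k a) → Eqs (ψ b) (G.T (α * k * α⁻¹) a) := by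
    intro b hb k hk e
    exact hA _ (hκ b hb) k hk ((hκb b hb).symm.trans e)
  have hTmem : ∀ k ∈ G.H, G.T k a ∈ G.orb a := fun k hk => ⟨k, hk, Or.inl rfl⟩
  have hψm : ∀ b ∈ G.orb a, ψ b ∈ G.orb a := fun b hb => hTmem _ (hH (hκ b hb))
  -- inner products
  have hcase : ∀ k ∈ G.H, ∀ l ∈ G.H, |(⟪G.T k a, G.T l a⟫ : ℝ)| = 0 ∨
      |(⟪G.T k a, G.T l a⟫ : ℝ)| = 1 / 2 ∨
      |(⟪G.T k a, G.T l a⟫ : ℝ)| = 1 := by
    intro k hk l hl
    rcases hsl _ (hTmem k hk) _ (hTmem l hl) with h | h | h | h | h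
    · left; rw [h, abs_zero]
    · right; left; rw [h]; norm_num
    · right; left; rw [h]; norm_num
    · right; right
      rw [h, real_inner_self_eq_norm_sq, hnorm l]; norm_num
    · right; right
      rw [h, inner_neg_left, real_inner_self_eq_norm_sq, hnorm l]; norm_num
  have hone : ∀ k ∈ G.H, ∀ l ∈ G.H, (|(⟪G.T k a, G.T l a⟫ : ℝ)| = 1 ↔
      k * ρ * k⁻¹ = l * ρ * l⁻¹) := by
    intro k hk l hl
    rw [hReq k hk l hl]
    constructor
    · intro h
      rcases hsl _ (hTmem k hk) _ (hTmem l hl) with h' | h' | h' | h' | h'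
      · rw [h'] at h; norm_num at h
      · rw [h'] at h; norm_num at h
      · rw [h'] at h; norm_num at h
      · exact Or.inl h'
      · exact Or.inr h'
    · intro h
      rw [h.abs_inner (Eqs.refl _), real_inner_self_eq_norm_sq, hnorm l]; norm_num
  have hzero : ∀ k ∈ G.H, ∀ l ∈ G.H, (|(⟪G.T k a, G.T l a⟫ : ℝ)| = 0 ↔
      ((k * ρ * k⁻¹) * (l * ρ * l⁻¹) = (l * ρ * l⁻¹) * (k * ρ * k⁻¹) ∧
        k * ρ * k⁻¹ ≠ l * ρ * l⁻¹)) := by
    intro k hk l hl
    rw [hRcomm k hk l hl, Ne, ← hone k hk l hl, abs_eq_zero]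
    constructor
    · intro h
      exact ⟨Or.inl h, by rw [h]; norm_num⟩
    · rintro ⟨h | h, h'⟩
      · exact h
      · exfalso
        apply h'
        rw [(show Eqs (G.T k a) (G.T l a) from h).abs_inner (Eqs.refl _),
          real_inner_self_eq_norm_sq, hnorm l]
        norm_num
  have hinner : ∀ k ∈ G.H, ∀ l ∈ G.H, |(⟪G.T (α * k * α⁻¹) a, G.T (α * l * α⁻¹) a⟫ : ℝ)| =
      |(⟪G.T k a, G.T l a⟫ : ℝ)| := by
    intro k hk l hl
    have hinj : ∀ x y : Γ, α * x * α⁻¹ = α * y * α⁻¹ ↔ x = y := by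
      intro x y
      rw [mul_left_inj, mul_right_inj]
    have hmul : ∀ x y : Γ, (α * x * α⁻¹) * (α * y * α⁻¹) = α * (x * y) * α⁻¹ := by
      intro x y; group
    have e1 : |(⟪G.T (α * k * α⁻¹) a, G.T (α * l * α⁻¹) a⟫ : ℝ)| = 1 ↔
        |(⟪G.T k a, G.T l a⟫ : ℝ)| = 1 := by
      rw [hone _ (hH hk) _ (hH hl), hone k hk l hl, ← hRα, ← hRα, hinj]
    have e0 : |(⟪G.T (α * k * α⁻¹) a, G.T (α * l * α⁻¹) a⟫ : ℝ)| = 0 ↔
        |(⟪G.T k a, G.T l a⟫ : ℝ)| = 0 := by
      rw [hzero _ (hH hk) _ (hH hl), hzero k hk l hl, ← hRα, ← hRα, hmul, hmul, hinj, Ne, hinj]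
    rcases hcase _ (hH hk) _ (hH hl) with h | h | h
    · rw [h, e0.1 h]
    · rcases hcase k hk l hl with h' | h' | h'
      · rw [e0.2 h', h']
      · rw [h, h']
      · rw [e1.2 h', h']
    · rw [h, e1.1 h]
  have hψi : ∀ b ∈ G.orb a, ∀ c ∈ G.orb a, |(⟪ψ b, ψ c⟫ : ℝ)| = |⟪b, c⟫| := by
    intro b hb c hc
    rw [(hκb b hb).abs_inner (hκb c hc)]
    exact hinner _ (hκ b hb) _ (hκ c hc)
  -- reflections
  have hrefl : ∀ k ∈ G.H, ∀ l ∈ G.H,
      Eqs (sref (G.T k a) (G.T l a)) (G.T (k * ρ * k⁻¹ * l) a) := by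
    intro k hk l hl
    rw [G.T_mul_apply (hRH k hk) hl, hconj k hk]
    exact (Eqs.of_smul hε _).symm
  have hψs : ∀ b ∈ G.orb a, ∀ c ∈ G.orb a, Eqs (ψ (sref b c)) (sref (ψ b) (ψ c)) := by
    intro b hb c hc
    have hk := hκ b hb
    have hl := hκ c hc
    have e1 : Eqs (sref b c) (G.T (κ b * ρ * (κ b)⁻¹ * κ c) a) := by
      rw [(hκb b hb).sref_eq]
      exact ((hκb c hc).sref_right _).trans (hrefl _ hk _ hl)
    have e2 := hψk _ (hRS.refl b hb c hc) _ (mul_mem (hRH _ hk) hl) e1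
    refine e2.trans ?_
    have e3 : α * (κ b * ρ * (κ b)⁻¹ * κ c) * α⁻¹ =
        (α * κ b * α⁻¹) * ρ * (α * κ b * α⁻¹)⁻¹ * (α * κ c * α⁻¹) := by
      rw [← hRα]; group
    rw [e3]
    exact (hrefl _ (hH hk) _ (hH hl)).symm
  obtain ⟨g, hg⟩ := h2 d (G.orb a) hRS hirr hspan hsl ψ hψm hψi hψs
  have hgk : ∀ k ∈ G.H, Eqs (g (G.T k a)) (G.T (α * k * α⁻¹) a) := by
    intro k hk
    exact (show Eqs _ _ from hg _ (hTmem k hk)).trans (hψk _ (hTmem k hk) k hk (Eqs.refl _))
  have hga : Eqs (g a) a := by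
    have := hgk 1 (one_mem _)
    rw [mul_one, mul_inv_cancel, G.T_one] at this
    exact this
  have hgm : ∀ b ∈ G.orb a, g b ∈ G.orb a := by
    intro b hb
    rcases hg b hb with h | h
    · rw [h]; exact hψm b hb
    · rw [h]; exact hRS.neg_mem (hψm b hb)
  refine ⟨g, hga, hgm, ?_⟩
  intro h hh
  -- every root is, up to sign, the image of a root
  have hkey : ∀ c ∈ G.orb a, g (G.T h (g.symm c)) = G.T (α * h * α⁻¹) c ∨
      g (G.T h (g.symm c)) = -G.T (α * h * α⁻¹) c := by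
    intro c hc
    obtain ⟨m, hm, e⟩ : ∃ m ∈ G.H, Eqs c (G.T m a) := ⟨κ c, hκ c hc, hκb c hc⟩
    have hk : α⁻¹ * m * α ∈ G.H := by
      have := hH (γ := α⁻¹) hm
      rwa [inv_inv] at this
    have e0 : α * (α⁻¹ * m * α) * α⁻¹ = m := by group
    have e1 : Eqs (g (G.T (α⁻¹ * m * α) a)) c := by
      have := hgk _ hk
      rw [e0] at this
      exact this.trans e.symm
    have e2 : Eqs (g.symm c) (G.T (α⁻¹ * m * α) a) := by
      have := (e1.map g.symm).symm
      rwa [LinearIsometryEquiv.symm_apply_apply] at this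
    have e3 : Eqs (g (G.T h (g.symm c))) (g (G.T h (G.T (α⁻¹ * m * α) a))) :=
      (e2.map (G.T h)).map g
    have e4 : Eqs (g (G.T h (G.T (α⁻¹ * m * α) a))) (G.T (α * h * α⁻¹) (G.T m a)) := by
      rw [← G.T_mul_apply hh hk]
      have := hgk _ (mul_mem hh hk)
      have e5 : α * (h * (α⁻¹ * m * α)) * α⁻¹ = (α * h * α⁻¹) * m := by group
      rw [e5, G.T_mul_apply (hH hh) hm] at this
      exact this
    exact e3.trans (e4.trans (e.symm.map (G.T (α * h * α⁻¹))))
  let L : Submodule ℝ (E d) :=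
    { carrier := {v | g (G.T h (g.symm v)) = G.T (α * h * α⁻¹) v}
      add_mem' := by
        intro v w hv hw
        simp only [Set.mem_setOf_eq, map_add] at hv hw ⊢
        rw [hv, hw]
      zero_mem' := by simp
      smul_mem' := by
        intro c v hv
        simp only [Set.mem_setOf_eq, map_smul] at hv ⊢
        rw [hv] }
  let L' : Submodule ℝ (E d) :=
    { carrier := {v | g (G.T h (g.symm v)) = -G.T (α * h * α⁻¹) v}
      add_mem' := by
        intro v w hv hw
        simp only [Set.mem_setOf_eq, map_add] at hv hw ⊢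
        rw [hv, hw]; abel
      zero_mem' := by simp
      smul_mem' := by
        intro c v hv
        simp only [Set.mem_setOf_eq, map_smul] at hv ⊢
        rw [hv, smul_neg] }
  have hL' : ∀ w ∈ L', w ∈ Lᗮ := by
    intro w hw
    rw [Submodule.mem_orthogonal]
    intro v hv
    have hv' : g (G.T h (g.symm v)) = G.T (α * h * α⁻¹) v := hv
    have hw' : g (G.T h (g.symm w)) = -G.T (α * h * α⁻¹) w := hw
    have e1 : ⟪g (G.T h (g.symm v)), g (G.T h (g.symm w))⟫ = (⟪v, w⟫ : ℝ) := by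
      rw [LinearIsometryEquiv.inner_map_map, LinearIsometryEquiv.inner_map_map,
        LinearIsometryEquiv.inner_map_map]
    rw [hv', hw', inner_neg_right, LinearIsometryEquiv.inner_map_map] at e1
    linarith
  have hLL : ∀ c ∈ G.orb a, c ∈ L ∨ c ∈ Lᗮ := by
    intro c hc
    rcases hkey c hc with e | e
    · exact Or.inl e
    · exact Or.inr (hL' c e)
  rcases hirr L hLL with hall | hall
  · left
    have htop : L = ⊤ := by
      rw [eq_top_iff, ← hspan]
      exact Submodule.span_le.2 hall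
    intro v
    have : g v ∈ L := by rw [htop]; exact Submodule.mem_top
    have e : g (G.T h (g.symm (g v))) = G.T (α * h * α⁻¹) (g v) := this
    rwa [LinearIsometryEquiv.symm_apply_apply] at e
  · right
    have hall' : ∀ c ∈ G.orb a, c ∈ L' := by
      intro c hc
      rcases hkey c hc with e | e
      · exfalso
        have h3 := (Submodule.mem_orthogonal L c).1 (hall c hc) c e
        have h4 := hRS.norm c hc
        rw [real_inner_self_eq_norm_sq, h4] at h3
        norm_num at h3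
      · exact e
    have htop : L' = ⊤ := by
      rw [eq_top_iff, ← hspan]
      exact Submodule.span_le.2 hall'
    intro v
    have : g v ∈ L' := by rw [htop]; exact Submodule.mem_top
    have e : g (G.T h (g.symm (g v))) = -G.T (α * h * α⁻¹) (g v) := this
    rwa [LinearIsometryEquiv.symm_apply_apply] at e

end

end FO2
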