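import Pool.Agent.FO2.Stmts

/-!
# Module STN: the normalised form of (star), and the case `ρ 0 ∈ H`, irreducible
-/

namespace FO2

open Lib_helper64.FO
open scoped RealInnerProductSpace

noncomputable section

namespace STN

variable {d : ℕ} {Γ : Type} [Group Γ] {X : Type} [MulAction Γ X] (G : Geo d Γ X)

/-- elements of `up 1` normalise `H_1` -/
theorem conj_Hi1 {α : Γ} (hα : α ∈ G.up 1) {h : Γ} (hh : h ∈ G.Hi 1) : α * h * α⁻¹ ∈ G.Hi 1 :=
  ⟨G.conj_mem α hh.1, (G.up 1).mul_mem ((G.up 1).mul_mem hα hh.2) ((G.up 1).inv_mem hα)⟩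

theorem conj_Hi1' {α : Γ} (hα : α ∈ G.up 1) {h : Γ} (hh : h ∈ G.Hi 1) : α⁻¹ * h * α ∈ G.Hi 1 := by
  have := conj_Hi1 G (inv_mem hα) hh
  rwa [inv_inv] at this

/-- a line spanned by `w` that is stable under `H_1` is `V_1` -/
theorem mem_V1 (hd : 4 ≤ d) (hG : Good G) {w : E d}
    (hw : ∀ m ∈ G.Hi 1, G.T m w = w ∨ G.T m w = -w) : w ∈ G.V 1 := by
  classical
  have h1 : Module.finrank ℝ (G.V 1) = 1 := hG.chain.dim 1 (by omega)
  -- decompose `w`
  obtain ⟨v, hv, p, hp, hvp⟩ : ∃ v ∈ G.V 1, ∃ p ∈ G.U 1, w = v + p := by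
    have := Submodule.exists_add_mem_mem_orthogonal (K := G.V 1) w
    obtain ⟨v, hv, p, hp, e⟩ := this
    exact ⟨v, hv, p, hp, e⟩
  have hpm : ∀ m ∈ G.Hi 1, G.T m p = p ∨ G.T m p = -p := by
    intro m hm
    have hTv : G.T m v = v := hv m hm
    have hTp : G.T m p ∈ G.U 1 := G.T_mem_U hm hp
    have hneg : -p ∈ G.U 1 := neg_mem hp
    have key : ∀ (u : E d) (q : E d), u ∈ G.V 1 → q ∈ G.U 1 → u + q = 0 → q = 0 := by
      intro u q hu hq h0
      have h2 : q = -u := by rw [← add_right_inj u, h0]; simp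
      have h3 : ⟪u, q⟫ = (0 : ℝ) := (Submodule.mem_orthogonal _ _).1 hq u hu
      rw [h2, inner_neg_right, neg_eq_zero, inner_self_eq_zero] at h3
      rw [h2, h3, neg_zero]
    rcases hw m hm with h | h
    · left
      rw [hvp, map_add, hTv] at h
      exact add_left_cancel h
    · right
      rw [hvp, map_add, hTv] at h
      have h4 : (v + v) + (G.T m p + p) = 0 := by
        have : v + G.T m p + (v + p) = 0 := by rw [h]; simp
        rw [← this]; abel
      have h5 := key (v + v) (G.T m p + p) (add_mem hv hv) (add_mem hTp hp) h4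
      exact eq_neg_of_add_eq_zero_left h5
  have hB := hG.irr 1 (by omega) (Submodule.span ℝ {p})
    (by
      rw [Submodule.span_le]
      rintro _ rfl
      exact hp)
    (by
      intro h hh v hv
      rw [Submodule.mem_span_singleton] at hv ⊢
      obtain ⟨c, rfl⟩ := hv
      rcases hpm h hh with e | e
      · exact ⟨c, by rw [map_smul, e]⟩
      · exact ⟨-c, by rw [map_smul, e, neg_smul, smul_neg]⟩)
  rcases hB with hB | hB
  · rw [Submodule.span_singleton_eq_bot] at hB
    rw [hvp, hB, add_zero]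
    exact hv
  · exfalso
    have h2 := (G.V 1).finrank_add_finrank_orthogonal
    have h3 : Module.finrank ℝ (G.U 1) ≤ 1 := by
      rw [← hB]
      exact (finrank_span_le_card ({p} : Set (E d))).trans (by simp)
    have h4 : Module.finrank ℝ (E d) = d := by simp [E]
    change Module.finrank ℝ (G.V 1) + Module.finrank ℝ (G.U 1) = _ at h2
    omega

/-- an isometry that maps `x` to `V_1` maps it to `± x` -/
theorem eq_or_neg (hd : 4 ≤ d) (hG : Good G) (g : E d ≃ₗᵢ[ℝ] E d) (h : g G.x ∈ G.V 1) :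
    g G.x = G.x ∨ g G.x = -G.x := by
  have h1 : Module.finrank ℝ (G.V 1) = 1 := hG.chain.dim 1 (by omega)
  have hx0 : (⟨G.x, G.x_mem_V1⟩ : G.V 1) ≠ 0 := by
    intro e
    exact hG.chain.x_ne (congrArg Subtype.val e)
  obtain ⟨c, hc⟩ := (finrank_eq_one_iff_of_nonzero' _ hx0).1 h1 ⟨g G.x, h⟩
  have hc' : c • G.x = g G.x := congrArg Subtype.val hc
  have hn : ‖g G.x‖ = ‖G.x‖ := g.norm_map _
  rw [← hc', norm_smul] at hn
  have hx : ‖G.x‖ ≠ 0 := norm_ne_zero_iff.2 hG.chain.x_ne
  have hc1 : ‖c‖ = 1 := by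
    have := mul_right_cancel₀ hx (hn.trans (one_mul _).symm)
    exact this
  rw [Real.norm_eq_abs] at hc1
  rcases (abs_eq (zero_le_one)).1 hc1 with e | e
  · left; rw [← hc', e, one_smul]
  · right; rw [← hc', e, neg_smul, one_smul]

/-- `- g` as a linear isometry equivalence -/
def ng (g : E d ≃ₗᵢ[ℝ] E d) : E d ≃ₗᵢ[ℝ] E d := g.trans (LinearIsometryEquiv.neg ℝ)

theorem ng_apply (g : E d ≃ₗᵢ[ℝ] E d) (v : E d) : ng g v = -g v := rfl

theorem orb_neg {a b : E d} (h : b ∈ G.orb a) : -b ∈ G.orb a := by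
  obtain ⟨k, hk, e | e⟩ := h
  · exact ⟨k, hk, Or.inr (by rw [e])⟩
  · exact ⟨k, hk, Or.inl (by rw [e, neg_neg])⟩

/-- A subgroup `K` of `H`, normalised by `α ∉ H` with `α ^ 2 = 1`, which contains `ρ i` or
`ρ i * α` for all `i`, is `H`. -/
theorem eq_H {K : Subgroup Γ} (hK : K ≤ G.H) {α : Γ} (hα : α ∉ G.H) (hsq : α * α = 1)
    (hn : ∀ k ∈ K, α * k * α⁻¹ ∈ K) (hρ : ∀ i, G.ρ i ∈ K ∨ G.ρ i * α ∈ K) : K = G.H := by
  have hinv : α⁻¹ = α := by rw [inv_eq_iff_mul_eq_one]; exact hsq
  let L : Subgroup Γ :=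
    { carrier := {g | g ∈ K ∨ g * α ∈ K}
      mul_mem' := by
        rintro a b (ha | ha) (hb | hb)
        · exact Or.inl (mul_mem ha hb)
        · right
          rw [mul_assoc]
          exact mul_mem ha hb
        · right
          have h1 := mul_mem ha (hn b hb)
          rw [hinv] at h1
          have e : a * α * (α * b * α) = a * (α * α) * b * α := by group
          rw [e, hsq, mul_one] at h1
          exact h1
        · left
          have h1 := mul_mem ha (hn _ hb)
          rw [hinv] at h1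
          have e : a * α * (α * (b * α) * α) = a * (α * α) * b * (α * α) := by group
          rw [e, hsq, mul_one, mul_one] at h1
          exact h1
      one_mem' := Or.inl (one_mem _)
      inv_mem' := by
        rintro a (ha | ha)
        · exact Or.inl (inv_mem ha)
        · right
          have h1 := hn _ (inv_mem ha)
          rw [mul_inv_rev, hinv] at h1
          have e : α * (α * a⁻¹) * α = (α * α) * a⁻¹ * α := by group
          rw [e, hsq, one_mul] at h1
          exact h1 }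
  have hL : L = ⊤ := by
    rw [eq_top_iff, ← G.gen, gpar, Subgroup.closure_le]
    rintro _ ⟨i, -, rfl⟩
    exact hρ i
  refine le_antisymm hK ?_
  intro h hh
  have h1 : h ∈ L := by rw [hL]; exact Subgroup.mem_top _
  rcases h1 with h1 | h1
  · exact h1
  · exfalso
    apply hα
    have h2 := mul_mem (inv_mem hh) (hK h1)
    rwa [inv_mul_cancel_left] at h2

/-- `H` is generated by `H_1` and `t`, if `t = ρ 0` or `t = ρ 0 * α` commutes with `α`. -/
theorem closure_eq_H {α : Γ} (hα1 : α ∈ G.up 1) (hα : α ∉ G.H) (hsq : α * α = 1) {t : Γ}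
    (ht : t ∈ G.H) (hc : α * t * α⁻¹ = t) (h0 : t = G.ρ 0 ∨ t = G.ρ 0 * α) :
    Subgroup.closure ((G.Hi 1 : Set Γ) ∪ {t}) = G.H := by
  apply eq_H G (α := α) ?_ hα hsq
  · intro k hk
    have h1 : Subgroup.closure ((G.Hi 1 : Set Γ) ∪ {t}) ≤
        (Subgroup.closure ((G.Hi 1 : Set Γ) ∪ {t})).comap (MulAut.conj α).toMonoidHom := by
      rw [Subgroup.closure_le]
      rintro s (hs | hs)
      · change α * s * α⁻¹ ∈ Subgroup.closure ((G.Hi 1 : Set Γ) ∪ {t})
        exact Subgroup.subset_closure (Or.inl (conj_Hi1 G hα1 hs))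
      · rw [Set.mem_singleton_iff] at hs
        subst hs
        change α * s * α⁻¹ ∈ Subgroup.closure ((G.Hi 1 : Set Γ) ∪ {s})
        rw [hc]
        exact Subgroup.subset_closure (Or.inr rfl)
    exact h1 hk
  · intro i
    rcases Nat.eq_zero_or_pos i with rfl | hi
    · rcases h0 with h0 | h0
      · left
        rw [← h0]
        exact Subgroup.subset_closure (Or.inr rfl)
      · right
        rw [← h0]
        exact Subgroup.subset_closure (Or.inr rfl)
    · have hu : G.ρ i ∈ G.up 1 := G.ρ_mem_up hi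
      by_cases hH : G.ρ i ∈ G.H
      · left
        exact Subgroup.subset_closure (Or.inl ⟨hH, hu⟩)
      · right
        exact Subgroup.subset_closure (Or.inl ⟨G.mul_mem_of_not hH hα, mul_mem hu hα1⟩)
  · rw [Subgroup.closure_le]
    rintro s (hs | hs)
    · exact hs.1
    · rw [Set.mem_singleton_iff] at hs
      subst hs
      exact ht

end STN

theorem starN (h : StmtStar) : StmtStarN := by
  intro d Γ _ _ X _ G hd hG ρ ε a hρ hε ha hT hirr hspan hSL α hα hα1
  obtain ⟨g, hga, hgo, hg⟩ := h d Γ X G hd hG ρ ε a hρ hε ha hT hirr hspan hSL α hα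
  have hgV : g G.x ∈ G.V 1 := by
    apply STN.mem_V1 G hd hG
    intro m hm
    have hm' := STN.conj_Hi1' G hα1 hm
    have e : α * (α⁻¹ * m * α) * α⁻¹ = m := by group
    have hx : G.T (α⁻¹ * m * α) G.x = G.x := G.x_mem_V1 _ hm'
    rcases hg _ hm'.1 with h1 | h1
    · left
      have := h1 G.x
      rw [e, hx] at this
      exact this.symm
    · right
      have := h1 G.x
      rw [e, hx] at this
      exact (neg_eq_iff_eq_neg.2 this).symm
  have fin : ∀ g : E d ≃ₗᵢ[ℝ] E d, g G.x = G.x → (g a = a ∨ g a = -a) →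
      (∀ b ∈ G.orb a, g b ∈ G.orb a) →
      (∀ h ∈ G.H, (∀ v, g (G.T h v) = G.T (α * h * α⁻¹) (g v)) ∨
        (∀ v, g (G.T h v) = -G.T (α * h * α⁻¹) (g v))) →
      ∃ g : E d ≃ₗᵢ[ℝ] E d, g G.x = G.x ∧ (g a = a ∨ g a = -a) ∧
        (∀ b ∈ G.orb a, g b ∈ G.orb a) ∧
        (∀ h ∈ G.H, (∀ v, g (G.T h v) = G.T (α * h * α⁻¹) (g v)) ∨
          (∀ v, g (G.T h v) = -G.T (α * h * α⁻¹) (g v))) ∧
        ∀ h ∈ G.Hi 1, ∀ v, g (G.T h v) = G.T (α * h * α⁻¹) (g v) := by
    intro g h1 h2 h3 h4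
    refine ⟨g, h1, h2, h3, h4, ?_⟩
    intro m hm
    rcases h4 m hm.1 with h5 | h5
    · exact h5
    · exfalso
      have h6 := h5 G.x
      have h7 : G.T m G.x = G.x := G.x_mem_V1 m hm
      have h8 : G.T (α * m * α⁻¹) G.x = G.x := G.x_mem_V1 _ (STN.conj_Hi1 G hα1 hm)
      rw [h7, h1, h8] at h6
      have h9 : (2 : ℝ) • G.x = 0 := by
        rw [two_smul]
        nth_rewrite 1 [h6]
        exact neg_add_cancel _
      exact hG.chain.x_ne ((smul_eq_zero.1 h9).resolve_left two_ne_zero)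
  rcases STN.eq_or_neg G hd hG g hgV with hx | hx
  · exact fin g hx hga hgo hg
  · refine fin (STN.ng g) ?_ ?_ ?_ ?_
    · rw [STN.ng_apply, hx, neg_neg]
    · rcases hga with e | e
      · right; rw [STN.ng_apply, e]
      · left; rw [STN.ng_apply, e, neg_neg]
    · intro b hb
      rw [STN.ng_apply]
      exact STN.orb_neg G (hgo b hb)
    · intro m hm
      rcases hg m hm with e | e
      · left
        intro v
        rw [STN.ng_apply, STN.ng_apply, e, map_neg]
      · right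
        intro v
        rw [STN.ng_apply, STN.ng_apply, e, map_neg]

theorem iii (h1 : StmtExt) (h2 : StmtStarN) : StmtIIi := by
  intro d Γ _ _ X _ G hd hG h0 ε a hε ha haV hT hirr hspan hSL j hj
  by_contra hα
  have hα1 : G.ρ j ∈ G.up 1 := G.ρ_mem_up (by omega)
  have hsq : G.ρ j * G.ρ j = 1 := G.sq j
  have hcomm : G.ρ j * G.ρ 0 * (G.ρ j)⁻¹ = G.ρ 0 := by
    rw [← G.comm 0 j (by omega), mul_inv_cancel_right]
  obtain ⟨g, hgx, hga, -, -, hg1⟩ := h2 d Γ X G (by omega) hG (G.ρ 0) ε a h0 hε ha hT hirr hspan hSL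
    (G.ρ j) hcomm hα1
  refine h1 d Γ X G (G.ρ j) hα1 hα g hgx ((G.Hi 1 : Set Γ) ∪ {G.ρ 0})
    (STN.closure_eq_H G hα1 hα hsq h0 hcomm (Or.inl rfl)) ?_
  rintro s (hs | hs) v
  · exact hg1 s hs v
  · rw [Set.mem_singleton_iff] at hs
    subst hs
    rw [hcomm, hT, hT, map_smul, map_sref]
    rcases hga with e | e
    · rw [e]
    · rw [e, sref_neg]

end

end FO2
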