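import Pool.Agent.FO2.Stmts

/-!
# T1: if `ρ 0` is not isometric then `ρ j`, `j ≥ 3`, is isometric (MP_0bb2d9_co)
-/

namespace FO2

open Lib_helper64.FO
open scoped RealInnerProductSpace

namespace T1

/-! ### gluing isometries -/

/-- the isometry which is the identity on `V` and `± A` on the orthogonal complement -/
theorem glue {d : ℕ} (V : Submodule ℝ (E d)) (A : E d ≃ₗᵢ[ℝ] E d) (hA : ∀ w ∈ Vᗮ, A w ∈ Vᗮ)
    {ε : ℝ} (hε : ε = 1 ∨ ε = -1) :
    ∃ g : E d ≃ₗᵢ[ℝ] E d, (∀ v ∈ V, g v = v) ∧ ∀ w ∈ Vᗮ, g w = ε • A w := by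
  let P : E d →ₗ[ℝ] E d := (V.starProjection : E d →ₗ[ℝ] E d)
  have hP : ∀ v, P v = V.starProjection v := fun _ => rfl
  let L : E d →ₗ[ℝ] E d := P + ε • ((A.toLinearEquiv : E d →ₗ[ℝ] E d) ∘ₗ (LinearMap.id - P))
  have hL : ∀ v, L v = P v + ε • A (v - P v) := fun _ => rfl
  have hnorm : ∀ v, ‖L v‖ = ‖v‖ := by
    intro v
    have h1 : P v ∈ V := Submodule.starProjection_apply_mem V v
    have h2 : v - P v ∈ Vᗮ := Submodule.sub_starProjection_mem_orthogonal v
    have h3 : ε • A (v - P v) ∈ Vᗮ := Submodule.smul_mem _ _ (hA _ h2)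
    have e1 : ⟪P v, ε • A (v - P v)⟫ = (0 : ℝ) := Submodule.inner_right_of_mem_orthogonal h1 h3
    have e2 : ⟪P v, v - P v⟫ = (0 : ℝ) := Submodule.inner_right_of_mem_orthogonal h1 h2
    have e3 : ‖ε • A (v - P v)‖ = ‖v - P v‖ := by
      rw [norm_smul, LinearIsometryEquiv.norm_map]
      rcases hε with rfl | rfl <;> simp
    have e4 : ‖L v‖ ^ 2 = ‖v‖ ^ 2 := by
      have s1 := norm_add_sq_real (P v) (ε • A (v - P v))
      have s2 := norm_add_sq_real (P v) (v - P v)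
      rw [e1, e3] at s1
      rw [e2, add_sub_cancel] at s2
      rw [hL, s1, s2]
    exact (sq_eq_sq₀ (norm_nonneg _) (norm_nonneg _)).1 e4
  let g' : E d →ₗᵢ[ℝ] E d := ⟨L, hnorm⟩
  refine ⟨g'.toLinearIsometryEquiv rfl, ?_, ?_⟩
  · intro v hv
    change L v = v
    rw [hL, hP, Submodule.starProjection_eq_self_iff.2 hv, sub_self, map_zero, smul_zero, add_zero]
  · intro w hw
    change L w = _
    rw [hL, hP, (Submodule.starProjection_apply_eq_zero_iff V).2 hw, sub_zero, zero_add]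

/-- an isometry that preserves a line acts on it by a sign -/
theorem line {d : ℕ} (L : Submodule ℝ (E d)) (hL : Module.finrank ℝ L = 1) (A : E d ≃ₗᵢ[ℝ] E d)
    (hA : ∀ w ∈ L, A w ∈ L) : ∃ ε : ℝ, (ε = 1 ∨ ε = -1) ∧ ∀ w ∈ L, A w = ε • w := by
  obtain ⟨e, he, hspan⟩ := finrank_eq_one_iff'.1 hL
  obtain ⟨c, hc⟩ := hspan ⟨A e, hA e e.2⟩
  have hc' : c • (e : E d) = A e := congrArg Subtype.val hc
  have he' : (e : E d) ≠ 0 := fun h => he (Subtype.ext h)
  refine ⟨c, ?_, ?_⟩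
  · have h1 : ‖c • (e : E d)‖ = ‖(e : E d)‖ := by rw [hc', LinearIsometryEquiv.norm_map]
    rw [norm_smul] at h1
    have h2 : ‖c‖ = 1 := by
      have h3 : ‖(e : E d)‖ ≠ 0 := norm_ne_zero_iff.2 he'
      exact mul_eq_right₀ h3 |>.1 h1
    rw [Real.norm_eq_abs] at h2
    exact (abs_eq zero_le_one).1 h2
  · intro w hw
    obtain ⟨t, ht⟩ := hspan ⟨w, hw⟩
    have ht' : t • (e : E d) = w := congrArg Subtype.val ht
    rw [← ht', map_smul, ← hc', smul_comm]

/-! ### generation -/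

section

variable {d : ℕ} {Γ : Type} [Group Γ] {X : Type} [MulAction Γ X] (G : Geo d Γ X)

/-- conjugation by an involution which preserves a generating set -/
theorem conj_closure {c : Γ} {S : Set Γ} (hS : ∀ s ∈ S, c * s * c⁻¹ ∈ Subgroup.closure S) {x : Γ}
    (hx : x ∈ Subgroup.closure S) : c * x * c⁻¹ ∈ Subgroup.closure S := by
  induction hx using Subgroup.closure_induction with
  | mem x hx => exact hS x hx
  | one => simp
  | mul a b _ _ ha hb =>
    have e : c * (a * b) * c⁻¹ = (c * a * c⁻¹) * (c * b * c⁻¹) := by group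
    rw [e]
    exact mul_mem ha hb
  | inv a _ ha =>
    have e : c * a⁻¹ * c⁻¹ = (c * a * c⁻¹)⁻¹ := by group
    rw [e]
    exact inv_mem ha

/-- a generating set of `H` -/
theorem gen_H {c : Γ} (hc : c ∉ G.H) (hcc : c * c = 1) {S : Set Γ} (hSH : ∀ s ∈ S, s ∈ G.H)
    (hS : ∀ s ∈ S, c * s * c⁻¹ ∈ Subgroup.closure S)
    (hρ : ∀ i, G.ρ i ∈ Subgroup.closure S ∨ c * G.ρ i ∈ Subgroup.closure S) :
    Subgroup.closure S = G.H := by
  have hci : c⁻¹ = c := inv_eq_of_mul_eq_one_left hcc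
  have hconj : ∀ x ∈ Subgroup.closure S, c * x * c ∈ Subgroup.closure S := by
    intro x hx
    have h := conj_closure hS hx
    rw [hci] at h
    exact h
  have hle : Subgroup.closure S ≤ G.H := (Subgroup.closure_le _).2 hSH
  have key : ∀ γ : Γ, γ ∈ gpar G.ρ Set.univ →
      γ ∈ Subgroup.closure S ∨ c * γ ∈ Subgroup.closure S := by
    intro γ hγ
    unfold gpar at hγ
    induction hγ using Subgroup.closure_induction with
    | mem x hx =>
      obtain ⟨i, -, rfl⟩ := hx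
      exact hρ i
    | one => exact Or.inl (one_mem _)
    | mul a b _ _ ha hb =>
      rcases ha with ha | ha
      · rcases hb with hb | hb
        · exact Or.inl (mul_mem ha hb)
        · right
          have e : c * (a * b) = (c * a * c) * (c * b) := by
            calc c * (a * b) = c * a * 1 * b := by group
              _ = c * a * (c * c) * b := by rw [hcc]
              _ = _ := by group
          rw [e]
          exact mul_mem (hconj _ ha) hb
      · rcases hb with hb | hb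
        · right
          rw [← mul_assoc]
          exact mul_mem ha hb
        · left
          have e : a * b = (c * (c * a) * c) * (c * b) := by
            calc a * b = 1 * a * 1 * b := by group
              _ = (c * c) * a * (c * c) * b := by rw [hcc]
              _ = _ := by group
          rw [e]
          exact mul_mem (hconj _ ha) hb
    | inv a _ ha =>
      rcases ha with ha | ha
      · exact Or.inl (inv_mem ha)
      · right
        have e : c * a⁻¹ = c * (c * a)⁻¹ * c := by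
          rw [mul_inv_rev, hci]
          calc c * a⁻¹ = c * a⁻¹ * 1 := by group
            _ = c * a⁻¹ * (c * c) := by rw [hcc]
            _ = _ := by group
        rw [e]
        exact hconj _ (inv_mem ha)
  refine le_antisymm hle ?_
  intro h hh
  have h1 : h ∈ gpar G.ρ Set.univ := by rw [G.gen]; trivial
  rcases key h h1 with h2 | h2
  · exact h2
  · exfalso
    have h3 : c * h ∈ G.H := hle h2
    have h4 : c = (c * h) * h⁻¹ := by group
    exact hc (by rw [h4]; exact mul_mem h3 (inv_mem hh))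

end

end T1

open T1 in
/-- **T1.** -/
theorem t1 (hExt : StmtExt) : StmtT1 := by
  intro d Γ _ _ X _ G hd hG h0 j hj
  by_contra hc
  have hjd : j < d := by
    by_contra hjd
    exact hc (by rw [G.one_of_ge j (by omega)]; exact one_mem _)
  set c := G.ρ j with hcdef
  have hcc : c * c = 1 := G.sq j
  have hci : c⁻¹ = c := inv_eq_of_mul_eq_one_left hcc
  have hcup : ∀ i, i ≤ j → c ∈ G.up i := fun i hi => G.ρ_mem_up hi
  -- `c` commutes with `ρ 0` and `ρ 1`
  have hc0 : G.ρ 0 * c = c * G.ρ 0 := G.comm 0 j (by omega)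
  have hc1 : G.ρ 1 * c = c * G.ρ 1 := G.comm 1 j (by omega)
  have h00 : G.ρ 0 * G.ρ 0 = 1 := G.sq 0
  -- `c` normalises `H_i`
  have hcH : ∀ i, i ≤ j → ∀ m ∈ G.Hi i, c * m * c⁻¹ ∈ G.Hi i := by
    intro i hi m hm
    have h1 : c * m * c⁻¹ ∈ G.up i :=
      mul_mem (mul_mem (hcup i hi) hm.2) (inv_mem (hcup i hi))
    exact ⟨G.conj_mem c hm.1, h1⟩
  set t0 := c * G.ρ 0 with ht0
  have ht0H : t0 ∈ G.H := G.mul_mem_of_not hc h0
  have ht0c : c * t0 * c⁻¹ = t0 := by
    rw [ht0, hci]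
    calc c * (c * G.ρ 0) * c = c * c * (G.ρ 0 * c) := by group
      _ = c * G.ρ 0 := by rw [hcc, hc0, one_mul]
  -- conjugation by `t0` on `H_i`, `i ≥ 2`
  have ht0m : ∀ i, 2 ≤ i → i ≤ j → ∀ m ∈ G.Hi i, t0 * m = (c * m * c⁻¹) * t0 := by
    intro i hi2 hi m hm
    have e1 : G.ρ 0 * m = m * G.ρ 0 := G.comm_up (by omega) hm.2
    rw [ht0]
    calc c * G.ρ 0 * m = c * (G.ρ 0 * m) := by group
      _ = c * (m * G.ρ 0) := by rw [e1]
      _ = (c * m * c⁻¹) * (c * G.ρ 0) := by group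
  have hnorm0 : ∀ i, 2 ≤ i → i ≤ j → ∀ m ∈ G.Hi i, t0⁻¹ * m * t0 ∈ G.Hi i := by
    intro i hi2 hi m hm
    have hm' : c * m * c⁻¹ ∈ G.Hi i := hcH i hi m hm
    have e1 := ht0m i hi2 hi (c * m * c⁻¹) hm'
    have e2 : c * (c * m * c⁻¹) * c⁻¹ = m := by
      rw [hci]
      calc c * (c * m * c) * c = (c * c) * m * (c * c) := by group
        _ = m := by rw [hcc]; group
    rw [e2] at e1
    have e3 : t0⁻¹ * m * t0 = c * m * c⁻¹ := by
      rw [mul_assoc, ← e1]
      group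
    rw [e3]
    exact hm'
  let A := G.T t0
  have hAV : ∀ i, 2 ≤ i → i ≤ j → ∀ v ∈ G.V i, A v ∈ G.V i := fun i hi2 hi v hv =>
    G.T_mem_V ht0H (hnorm0 i hi2 hi) hv
  have hAU : ∀ i, 2 ≤ i → i ≤ j → ∀ v ∈ G.U i, A v ∈ G.U i := fun i hi2 hi v hv =>
    G.map_mem_U A (hAV i hi2 hi) hv
  -- the line `V_3 ∩ U_2`
  obtain ⟨ε, hε, hline⟩ : ∃ ε : ℝ, (ε = 1 ∨ ε = -1) ∧ ∀ w ∈ G.V 3, w ∈ G.U 2 → A w = ε • w := by
    have hdim : Module.finrank ℝ ((G.V 2)ᗮ ⊓ G.V 3 : Submodule ℝ (E d)) = 1 := by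
      apply Submodule.finrank_add_inf_finrank_orthogonal' (G.V_mono (by omega))
      rw [hG.chain.dim 2 (by omega), hG.chain.dim 3 (by omega)]
    obtain ⟨ε, hε, h1⟩ := line _ hdim A (by
      rintro w ⟨hw1, hw2⟩
      exact ⟨hAU 2 le_rfl (by omega) w hw1, hAV 3 (by omega) (by omega) w hw2⟩)
    exact ⟨ε, hε, fun w hw1 hw2 => h1 w ⟨hw2, hw1⟩⟩
  obtain ⟨g, hgV, hgU⟩ := glue (G.V 2) A (hAU 2 le_rfl (by omega)) hε
  have hεε : ε * ε = 1 := by rcases hε with h | h <;> rw [h] <;> norm_num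
  -- decompositions
  have dec : ∀ (i : ℕ) (v : E d), ∃ a ∈ G.V i, ∃ w ∈ G.U i, v = a + w := fun i v =>
    Submodule.exists_add_mem_mem_orthogonal v
  have hgV3 : ∀ v ∈ G.V 3, g v = v := by
    intro v hv
    obtain ⟨a, ha, w, hw, e⟩ := dec 2 v
    have hw3 : w ∈ G.V 3 := by
      have h1 : w = v - a := by rw [e]; abel
      rw [h1]
      exact sub_mem hv (G.V_mono (by omega) ha)
    rw [e, map_add, hgV a ha, hgU w hw, hline w hw3 hw, smul_smul, hεε, one_smul]
  have hgU3 : ∀ w ∈ G.U 3, g w = ε • A w := fun w hw => hgU w (G.U_anti (by omega) hw)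
  have hgx : g G.x = G.x := hgV _ (G.V_mono (by omega) G.x_mem_V1)
  -- the element `t1`
  obtain ⟨t1, ht1H, ht1c, ht1V, ht1A, ht1ρ⟩ : ∃ t1 ∈ G.H, c * t1 * c⁻¹ = t1 ∧
      (∀ m ∈ G.Hi 3, t1⁻¹ * m * t1 ∈ G.Hi 3) ∧
      (∀ w ∈ G.U 3, A (G.T t1 w) = G.T t1 (A w)) ∧ (G.ρ 1 = t1 ∨ c * G.ρ 1 = t1) := by
    by_cases h1 : G.ρ 1 ∈ G.H
    · have hn : ∀ m ∈ G.Hi 3, (G.ρ 1)⁻¹ * m * G.ρ 1 ∈ G.Hi 3 := by
        intro m hm
        have e1 : G.ρ 1 * m = m * G.ρ 1 := G.comm_up (by omega) hm.2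
        have e2 : (G.ρ 1)⁻¹ * m * G.ρ 1 = m := by
          rw [mul_assoc, ← e1]
          group
        rw [e2]
        exact hm
      have hBV : ∀ v ∈ G.V 3, G.T (G.ρ 1) v ∈ G.V 3 := fun v hv => G.T_mem_V h1 hn hv
      have hBU : ∀ v ∈ G.U 3, G.T (G.ρ 1) v ∈ G.U 3 := fun v hv => G.map_mem_U _ hBV hv
      have hcomm : ∀ h ∈ G.Hi 3, ∀ v ∈ G.U 3,
          G.T (G.ρ 1) (G.T h v) = G.T h (G.T (G.ρ 1) v) := by
        intro h hh v _
        rw [← G.T_mul_apply h1 hh.1, ← G.T_mul_apply hh.1 h1, G.comm_up (by omega) hh.2]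
      refine ⟨G.ρ 1, h1, ?_, hn, ?_, Or.inl rfl⟩
      · rw [← hc1]
        group
      · intro w hw
        rcases hG.scal 3 (by omega) (G.T (G.ρ 1)) hBU hcomm with h2 | h2
        · rw [h2 w hw, h2 _ (hAU 3 (by omega) hj w hw)]
        · rw [h2 w hw, h2 _ (hAU 3 (by omega) hj w hw), map_neg]
    · have ht1H : c * G.ρ 1 ∈ G.H := G.mul_mem_of_not hc h1
      have htm : ∀ m ∈ G.Hi 3, (c * G.ρ 1) * m = (c * m * c⁻¹) * (c * G.ρ 1) := by
        intro m hm
        have e1 : G.ρ 1 * m = m * G.ρ 1 := G.comm_up (by omega) hm.2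
        calc c * G.ρ 1 * m = c * (G.ρ 1 * m) := by group
          _ = c * (m * G.ρ 1) := by rw [e1]
          _ = (c * m * c⁻¹) * (c * G.ρ 1) := by group
      have hn : ∀ m ∈ G.Hi 3, (c * G.ρ 1)⁻¹ * m * (c * G.ρ 1) ∈ G.Hi 3 := by
        intro m hm
        have hm' : c * m * c⁻¹ ∈ G.Hi 3 := hcH 3 hj m hm
        have e1 := htm (c * m * c⁻¹) hm'
        have e2 : c * (c * m * c⁻¹) * c⁻¹ = m := by
          rw [hci]
          calc c * (c * m * c) * c = (c * c) * m * (c * c) := by group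
            _ = m := by rw [hcc]; group
        rw [e2] at e1
        have e3 : (c * G.ρ 1)⁻¹ * m * (c * G.ρ 1) = c * m * c⁻¹ := by
          rw [mul_assoc, ← e1]
          group
        rw [e3]
        exact hm'
      -- the element `t0⁻¹ t1` commutes with `H_3`
      have huH : t0⁻¹ * (c * G.ρ 1) ∈ G.H := mul_mem (inv_mem ht0H) ht1H
      have hum : ∀ m ∈ G.Hi 3, t0⁻¹ * (c * G.ρ 1) * m = m * (t0⁻¹ * (c * G.ρ 1)) := by
        intro m hm
        calc t0⁻¹ * (c * G.ρ 1) * m = t0⁻¹ * ((c * G.ρ 1) * m) := by group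
          _ = t0⁻¹ * ((c * m * c⁻¹) * (c * G.ρ 1)) := by rw [htm m hm]
          _ = t0⁻¹ * ((c * m * c⁻¹) * t0) * (t0⁻¹ * (c * G.ρ 1)) := by group
          _ = t0⁻¹ * (t0 * m) * (t0⁻¹ * (c * G.ρ 1)) := by rw [← ht0m 3 (by omega) hj m hm]
          _ = m * (t0⁻¹ * (c * G.ρ 1)) := by group
      have hCV : ∀ v ∈ G.V 3, G.T (t0⁻¹ * (c * G.ρ 1)) v ∈ G.V 3 := by
        intro v hv
        refine G.T_mem_V huH ?_ hv
        intro m hm
        have e2 : (t0⁻¹ * (c * G.ρ 1))⁻¹ * m * (t0⁻¹ * (c * G.ρ 1)) = m := by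
          rw [mul_assoc, ← hum m hm]
          group
        rw [e2]
        exact hm
      have hCU : ∀ v ∈ G.U 3, G.T (t0⁻¹ * (c * G.ρ 1)) v ∈ G.U 3 := fun v hv =>
        G.map_mem_U _ hCV hv
      have hcomm : ∀ h ∈ G.Hi 3, ∀ v ∈ G.U 3, G.T (t0⁻¹ * (c * G.ρ 1)) (G.T h v) =
          G.T h (G.T (t0⁻¹ * (c * G.ρ 1)) v) := by
        intro h hh v _
        rw [← G.T_mul_apply huH hh.1, ← G.T_mul_apply hh.1 huH, hum h hh]
      have hB : ∀ w, G.T (c * G.ρ 1) w = A (G.T (t0⁻¹ * (c * G.ρ 1)) w) := by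
        intro w
        change _ = G.T t0 _
        rw [← G.T_mul_apply ht0H huH]
        congr 2
        group
      refine ⟨c * G.ρ 1, ht1H, ?_, hn, ?_, Or.inr rfl⟩
      · rw [hci]
        calc c * (c * G.ρ 1) * c = c * c * (G.ρ 1 * c) := by group
          _ = c * G.ρ 1 := by rw [hcc, hc1, one_mul]
      · intro w hw
        have hAw := hAU 3 (by omega) hj w hw
        rcases hG.scal 3 (by omega) (G.T (t0⁻¹ * (c * G.ρ 1))) hCU hcomm with h2 | h2
        · rw [hB w, hB (A w), h2 w hw, h2 _ hAw]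
        · rw [hB w, hB (A w), h2 w hw, h2 _ hAw, map_neg]
  have hBV : ∀ v ∈ G.V 3, G.T t1 v ∈ G.V 3 := fun v hv => G.T_mem_V ht1H ht1V hv
  have hBU : ∀ v ∈ G.U 3, G.T t1 v ∈ G.U 3 := fun v hv => G.map_mem_U _ hBV hv
  -- the generating set
  let S : Set Γ := (G.Hi 2 : Set Γ) ∪ {t0, t1}
  have hS2 : ∀ m ∈ G.Hi 2, m ∈ Subgroup.closure S := fun m hm =>
    Subgroup.subset_closure (Or.inl hm)
  have hSt0 : t0 ∈ Subgroup.closure S := Subgroup.subset_closure (Or.inr (Or.inl rfl))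
  have hSt1 : t1 ∈ Subgroup.closure S := Subgroup.subset_closure (Or.inr (Or.inr rfl))
  have hgen : Subgroup.closure S = G.H := by
    refine gen_H G hc hcc ?_ ?_ ?_
    · rintro s (hs | hs | hs)
      · exact hs.1
      · rw [hs]; exact ht0H
      · rw [Set.mem_singleton_iff] at hs
        rw [hs]; exact ht1H
    · rintro s (hs | hs | hs)
      · exact hS2 _ (hcH 2 (by omega) s hs)
      · rw [hs, ht0c]; exact hSt0
      · rw [Set.mem_singleton_iff] at hs
        rw [hs, ht1c]; exact hSt1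
    · intro i
      rcases Nat.lt_or_ge i 2 with hi | hi
      · have hi' : i = 0 ∨ i = 1 := by omega
        rcases hi' with rfl | rfl
        · right
          exact hSt0
        · rcases ht1ρ with h | h
          · left; rw [h]; exact hSt1
          · right; rw [h]; exact hSt1
      · by_cases hi2 : G.ρ i ∈ G.H
        · left
          exact hS2 _ ⟨hi2, G.ρ_mem_up hi⟩
        · right
          exact hS2 _ ⟨G.mul_mem_of_not hc hi2, mul_mem (hcup 2 (by omega)) (G.ρ_mem_up hi)⟩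
  refine hExt d Γ X G c (hcup 1 (by omega)) hc g hgx S hgen ?_
  rintro s (hs | hs | hs) v
  · obtain ⟨a, ha, w, hw, e⟩ := dec 2 v
    have hs' : c * s * c⁻¹ ∈ G.Hi 2 := hcH 2 (by omega) s hs
    have hTw : G.T s w ∈ G.U 2 := G.T_mem_U hs hw
    have e1 : A (G.T s w) = G.T (c * s * c⁻¹) (A w) := by
      change G.T t0 _ = G.T _ (G.T t0 w)
      rw [← G.T_mul_apply ht0H hs.1, ← G.T_mul_apply hs'.1 ht0H, ht0m 2 le_rfl (by omega) s hs]
    rw [e, map_add, map_add, map_add, map_add, ha s hs, hgV a ha, hgU _ hTw, hgU w hw, ha _ hs',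
      map_smul, e1]
  · rw [hs, ht0c]
    obtain ⟨a, ha, w, hw, e⟩ := dec 2 v
    have h1 : A a ∈ G.V 2 := hAV 2 le_rfl (by omega) a ha
    have h2 : A w ∈ G.U 2 := hAU 2 le_rfl (by omega) w hw
    change g (A v) = A (g v)
    rw [e, map_add, map_add, map_add, map_add, hgV _ h1, hgV a ha, hgU _ h2, hgU w hw, map_smul]
  · rw [Set.mem_singleton_iff] at hs
    rw [hs, ht1c]
    obtain ⟨a, ha, w, hw, e⟩ := dec 3 v
    rw [e, map_add, map_add, map_add, map_add, hgV3 _ (hBV a ha), hgV3 a ha, hgU3 _ (hBU w hw),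
      hgU3 w hw, map_smul, ht1A w hw]

end FO2
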