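import Pool.Agent.FO2.Asm
import Pool.Agent.FO2.CH
import Pool.Agent.FO2.IS
import Pool.Agent.FO2.IB
import Pool.Agent.FO2.SC
import Pool.Agent.FO2.RGA
import Pool.Agent.FO2.RGB
import Pool.Agent.FO2.RGC
import Pool.Agent.FO2.RGD
import Pool.Agent.FO2.RG2
import Pool.Agent.FO2.R3A
import Pool.Agent.FO2.R3B
import Pool.Agent.FO2.R3C
import Pool.Agent.FO2.AUA
import Pool.Agent.FO2.AUD
import Pool.Agent.FO2.EXT
import Pool.Agent.FO2.T1
import Pool.Agent.FO2.R0
import Pool.Agent.FO2.BL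
import Pool.Agent.FO2.IIF
import Pool.Agent.FO2.ST
import Pool.Agent.FO2.STN
import Pool.Agent.FO2.J2
import Pool.Agent.FO2.J01
import Pool.Agent.FO2.FR1
import Pool.Agent.FO2.FR2
import Pool.Agent.FO2.FR3
import Pool.Agent.FO2.FR4
import Pool.Agent.FO2.PA
import Pool.Agent.FO2.PD
import Pool.Agent.FO2.SA
import Pool.Agent.FO2.L1
import Pool.Agent.FO2.L2
import Pool.Agent.FO2.FA0
import Pool.Agent.FO2.FA1
import Pool.Agent.FO2.FD0
import Pool.Agent.FO2.FD1
import Pool.Agent.FO2.FLG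
import Pool.Agent.FO2.CNN
import Pool.Agent.FO2.POL
import Pool.Agent.FO2.LIN
import Pool.Agent.FO2.GE1
import Pool.Agent.FO2.GE2
import Pool.Agent.FO2.INT
import Pool.Agent.FO2.COA
import Pool.Agent.FO2.COB
import Pool.Agent.FO2.RLF
import Pool.Agent.FO2.RLO
import Pool.Agent.FO2.ADJ
import Pool.Agent.FO2.E1
import Pool.Agent.FO2.E2
import Pool.Agent.FO2.E3
import Pool.Agent.FO2.E4

/-!
# The main theorem, from the modules
-/

namespace FO2

theorem algAll : Alg where
  Ch := chain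
  St := irrStep
  Ba := irrBase
  Sc := scal
  RGa := rga
  RGb := rgb
  RGc := rgc
  RGd := rgd
  RG2 := rg2
  RG3a := rg3a
  RG3b := rg3b
  RG3c := rg3c
  AutA := autA
  AutD := autD
  Ext := ext
  T1 := t1
  R0 := rho0
  La := last
  Orb := orb
  Bl := block
  IIf := iif
  Star := star
  StarN := starN
  IIi := iii
  J2 := j2
  J01 := j01
  Fr1 := fr1
  Fr2 := fr2
  Fr3 := fr3
  Fr4 := fr4
  PosA := posA
  PosD := posD
  SymA := symA
  SymD := symD
  Lab1 := lab1
  Lab2 := lab2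
  Chi := chi
  FinA0 := finA0
  FinA1 := finA1
  FinD0 := finD0
  FinD1 := finD1

theorem posAll : Pos where
  Flg := flg
  Conn := cnn
  Poly := poly
  Lin := lin
  Geo1 := geo1
  Geo2 := geo2
  Int := int
  CosA := cosA
  CosB := cosB
  RealF := realF
  RealO := realO
  Adj := adjT
  Ex1S := ex1S
  Ex2S := ex2S
  Ex3S := ex3S
  Ex4S := ex4S
  Ex1R := ex1R
  Ex2R := ex2R
  Ex3R := ex3R
  Ex4R := ex4R

theorem mainThm : MainStatement := main algAll posAll

end FO2
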