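import Pool.Agent.FO2.Fam

/-!
# The algebraic form of a two-orbit realization

`Geo d Γ X`: a group `Γ` (the automorphism group of the polytope) with its distinguished generators
`ρ 0, …, ρ (d - 1)` acting on the set `X` of vertices, base vertex `x0`, the subgroup `H` of index
`2` of the automorphisms induced by isometries, the centred vertex map `f : X → E d` and the
isometries `T h`, `h ∈ H`.
-/

namespace FO2

open Lib_helper64.FO
open scoped RealInnerProductSpace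

noncomputable section

/-- the subgroup generated by the `ρ i` with `i ∈ I` -/
def gpar {Γ : Type} [Group Γ] (ρ : ℕ → Γ) (I : Set ℕ) : Subgroup Γ := Subgroup.closure (ρ '' I)

/-- A two-orbit realization in `E d` of a finite regular `d`-polytope, in algebraic form. -/
structure Geo (d : ℕ) (Γ : Type) [Group Γ] (X : Type) [MulAction Γ X] where
  ρ : ℕ → Γ
  x0 : X
  H : Subgroup Γ
  f : X → E d
  T : Γ → (E d ≃ₗᵢ[ℝ] E d)
  one_of_ge : ∀ i, d ≤ i → ρ i = 1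
  ne_one : ∀ i, i < d → ρ i ≠ 1
  sq : ∀ i, ρ i * ρ i = 1
  comm : ∀ i j, i + 2 ≤ j → ρ i * ρ j = ρ j * ρ i
  gen : gpar ρ Set.univ = ⊤
  inter : ∀ I J : Set ℕ, gpar ρ I ⊓ gpar ρ J = gpar ρ (I ∩ J)
  trans : ∀ x : X, ∃ g : Γ, g • x0 = x
  stab : ∀ j, 1 ≤ j → ρ j • x0 = x0
  fix : ∀ (m : ℕ) (γ : Γ), (∀ g ∈ gpar ρ {j | j < m}, γ • g • x0 = g • x0) →
    γ ∈ gpar ρ {j | m < j}
  inj : Function.Injective f
  idx : H.index = 2
  T_mul : ∀ g ∈ H, ∀ h ∈ H, T (g * h) = T g * T h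
  equiv : ∀ h ∈ H, ∀ x, T h (f x) = f (h • x)
  noiso : ∀ γ, γ ∉ H → ¬ ∃ g : E d ≃ₗᵢ[ℝ] E d, ∀ x, g (f x) = f (γ • x)

namespace Geo

variable {d : ℕ} {Γ : Type} [Group Γ] {X : Type} [MulAction Γ X] (G : Geo d Γ X)

/-- the subgroup generated by the `ρ j` with `i ≤ j` -/
def up (i : ℕ) : Subgroup Γ := gpar G.ρ {j | i ≤ j}

/-- the subgroup generated by the `ρ j` with `j < i` -/
def dn (i : ℕ) : Subgroup Γ := gpar G.ρ {j | j < i}

/-- `H_i`: the stabiliser in `H` of the faces of rank `< i` of the base flag -/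
def Hi (i : ℕ) : Subgroup Γ := G.H ⊓ G.up i

/-- `V_i`: the fixed space of `H_i` -/
def V (i : ℕ) : Submodule ℝ (E d) where
  carrier := {v | ∀ h ∈ G.Hi i, G.T h v = v}
  add_mem' := by
    intro a b ha hb h hh
    rw [map_add, ha h hh, hb h hh]
  zero_mem' := by
    intro h _
    exact map_zero _
  smul_mem' := by
    intro c a ha h hh
    rw [map_smul, ha h hh]

theorem mem_V {i : ℕ} {v : E d} : v ∈ G.V i ↔ ∀ h ∈ G.Hi i, G.T h v = v := Iff.rfl

/-- `U_i`: the orthogonal complement of `V_i` -/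
def U (i : ℕ) : Submodule ℝ (E d) := (G.V i)ᗮ

/-- the base vertex -/
def x : E d := G.f G.x0

/-- `H_i` acts irreducibly on `U_i` -/
def Irr (i : ℕ) : Prop :=
  ∀ B : Submodule ℝ (E d), B ≤ G.U i → (∀ h ∈ G.Hi i, ∀ v ∈ B, G.T h v ∈ B) → B = ⊥ ∨ B = G.U i

theorem T_one : G.T 1 = 1 := by
  have h := G.T_mul 1 (one_mem _) 1 (one_mem _)
  rw [one_mul] at h
  exact mul_eq_left.1 h.symm

theorem T_inv {h : Γ} (hh : h ∈ G.H) : G.T h⁻¹ = (G.T h)⁻¹ := by
  have := G.T_mul h⁻¹ (inv_mem hh) h hh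
  rw [inv_mul_cancel, G.T_one] at this
  exact (eq_inv_of_mul_eq_one_left this.symm)

theorem normal : G.H.Normal := Subgroup.normal_of_index_eq_two G.idx

theorem conj_mem (γ : Γ) {h : Γ} (hh : h ∈ G.H) : γ * h * γ⁻¹ ∈ G.H := G.normal.conj_mem h hh γ

theorem mul_mem_of_not {a b : Γ} (ha : a ∉ G.H) (hb : b ∉ G.H) : a * b ∈ G.H :=
  (Subgroup.mul_mem_iff_of_index_two G.idx).2 (iff_of_false ha hb)

theorem inv_ρ (i : ℕ) : (G.ρ i)⁻¹ = G.ρ i := by
  rw [inv_eq_iff_mul_eq_one]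
  exact G.sq i

theorem ρ_mem_up {i j : ℕ} (h : i ≤ j) : G.ρ j ∈ G.up i := Subgroup.subset_closure ⟨j, h, rfl⟩

theorem ρ_mem_dn {i j : ℕ} (h : j < i) : G.ρ j ∈ G.dn i := Subgroup.subset_closure ⟨j, h, rfl⟩

theorem up_anti {i j : ℕ} (h : i ≤ j) : G.up j ≤ G.up i :=
  Subgroup.closure_mono (Set.image_mono fun _ (hk : j ≤ _) => h.trans hk)

theorem dn_mono {i j : ℕ} (h : i ≤ j) : G.dn i ≤ G.dn j :=
  Subgroup.closure_mono (Set.image_mono fun _ (hk : _ < i) => lt_of_lt_of_le hk h)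

theorem up_zero : G.up 0 = ⊤ := by
  have e : {j : ℕ | 0 ≤ j} = Set.univ := by ext; simp
  rw [up, e, G.gen]

theorem Hi_anti {i j : ℕ} (h : i ≤ j) : G.Hi j ≤ G.Hi i := inf_le_inf le_rfl (G.up_anti h)

theorem Hi_le_H (i : ℕ) : G.Hi i ≤ G.H := inf_le_left

theorem V_mono {i j : ℕ} (h : i ≤ j) : G.V i ≤ G.V j := fun _ hv k hk => hv k (G.Hi_anti h hk)

theorem U_anti {i j : ℕ} (h : i ≤ j) : G.U j ≤ G.U i := Submodule.orthogonal_le (G.V_mono h)

/-- `ρ i` commutes with `up j` for `i + 2 ≤ j`. -/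
theorem comm_up {i j : ℕ} (h : i + 2 ≤ j) {g : Γ} (hg : g ∈ G.up j) : G.ρ i * g = g * G.ρ i := by
  have h1 : G.up j ≤ Subgroup.centralizer ({G.ρ i} : Set Γ) := by
    rw [up, gpar, Subgroup.closure_le]
    rintro _ ⟨k, hk, rfl⟩
    rw [SetLike.mem_coe, Subgroup.mem_centralizer_iff]
    intro h' hh
    rw [Set.mem_singleton_iff] at hh
    subst hh
    exact G.comm i k (h.trans hk)
  exact Subgroup.mem_centralizer_iff.1 (h1 hg) (G.ρ i) rfl

/-- `dn i` commutes with `up j` for `i < j`. -/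
theorem comm_dn_up {i j : ℕ} (h : i < j) {a : Γ} (ha : a ∈ G.dn i) {g : Γ} (hg : g ∈ G.up j) :
    a * g = g * a := by
  have h1 : G.dn i ≤ Subgroup.centralizer (G.up j : Set Γ) := by
    rw [dn, gpar, Subgroup.closure_le]
    rintro _ ⟨k, hk, rfl⟩
    rw [SetLike.mem_coe, Subgroup.mem_centralizer_iff]
    intro g hg
    have hk' : k < i := hk
    exact (G.comm_up (by omega) hg).symm
  exact (Subgroup.mem_centralizer_iff.1 (h1 ha) g hg).symm

theorem up_fix_x0 {g : Γ} (hg : g ∈ G.up 1) : g • G.x0 = G.x0 := by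
  have h1 : G.up 1 ≤ MulAction.stabilizer Γ G.x0 := by
    rw [up, gpar, Subgroup.closure_le]
    rintro _ ⟨k, hk, rfl⟩
    exact G.stab k hk
  exact h1 hg

theorem mem_up_of_fix {γ : Γ} (h : γ • G.x0 = G.x0) : γ ∈ G.up 1 := by
  refine G.fix 0 γ ?_
  intro g hg
  have : g = 1 := by
    have e : {j : ℕ | j < 0} = ∅ := by ext; simp
    rw [e, gpar, Set.image_empty, Subgroup.closure_empty, Subgroup.mem_bot] at hg
    exact hg
  rw [this, one_smul, h]

include G in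
/-- `Γ` acts faithfully on `X`. -/
theorem eq_one_of_fix {γ : Γ} (h : ∀ x : X, γ • x = x) : γ = 1 := by
  have := G.fix d γ (fun g _ => h _)
  have h2 : gpar G.ρ {j | d < j} ≤ ⊥ := by
    rw [gpar, Subgroup.closure_le]
    rintro _ ⟨k, hk, rfl⟩
    exact G.one_of_ge k (le_of_lt hk)
  exact h2 this

theorem T_inj {g h : Γ} (hg : g ∈ G.H) (hh : h ∈ G.H) (e : G.T g = G.T h) : g = h := by
  have h1 : ∀ x : X, g • x = h • x := by
    intro x
    apply G.inj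
    rw [← G.equiv g hg, ← G.equiv h hh, e]
  have h2 : h⁻¹ * g = 1 := by
    apply G.eq_one_of_fix
    intro x
    rw [mul_smul, h1, inv_smul_smul]
  exact (inv_mul_eq_one.1 h2).symm

end Geo

/-- the reflection in the unit vector `a` -/
def sref {d : ℕ} (a v : E d) : E d := v - (2 * ⟪a, v⟫) • a

/-- `Φ` is a finite set of unit vectors, closed under the reflections in its elements. -/
structure IsRS {d : ℕ} (Φ : Set (E d)) : Prop where
  fin : Φ.Finite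
  ne : Φ.Nonempty
  norm : ∀ a ∈ Φ, ‖a‖ = 1
  refl : ∀ a ∈ Φ, ∀ b ∈ Φ, sref a b ∈ Φ

/-- `Φ` is irreducible: it is not the union of two nonempty orthogonal parts. -/
def IrrRS {d : ℕ} (Φ : Set (E d)) : Prop :=
  ∀ L : Submodule ℝ (E d), (∀ a ∈ Φ, a ∈ L ∨ a ∈ Lᗮ) → (∀ a ∈ Φ, a ∈ L) ∨ (∀ a ∈ Φ, a ∈ Lᗮ)

/-- `Φ` consists of the vectors of an orthonormal system and their negatives. -/
def FrameRS {d : ℕ} (Φ : Set (E d)) : Prop := ∀ a ∈ Φ, ∀ b ∈ Φ, ⟪a, b⟫ = 0 ∨ a = b ∨ a = -b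

/-- `Φ` is simply laced: all inner products are `0`, `± 1/2` or `± 1`. -/
def SL {d : ℕ} (Φ : Set (E d)) : Prop :=
  ∀ a ∈ Φ, ∀ b ∈ Φ, ⟪a, b⟫ = 0 ∨ ⟪a, b⟫ = 1 / 2 ∨ ⟪a, b⟫ = -1 / 2 ∨ a = b ∨ a = -b

/-- All elements of `Φ` are equivalent under the isometries that preserve `Φ`, up to sign. -/
def HomRS {d : ℕ} (Φ : Set (E d)) : Prop :=
  ∀ a ∈ Φ, ∀ b ∈ Φ, ∃ g : E d ≃ₗᵢ[ℝ] E d, (∀ c ∈ Φ, g c ∈ Φ) ∧ (g a = b ∨ g a = -b)

/-- root system `A_d`, given by a regular simplex -/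
def IsA {d : ℕ} (Φ : Set (E d)) (v : Fin (d + 1) → E d) : Prop :=
  (∀ i j, ⟪v i, v j⟫ = if i = j then (1 : ℝ) else -1 / d) ∧
    ∀ a : E d, a ∈ Φ ↔ ∃ i j, i ≠ j ∧ ∃ t : ℝ, 0 < t ∧ ‖a‖ = 1 ∧ a = t • (v i - v j)

/-- root system `D_d`, given by an orthonormal basis -/
def IsD {d : ℕ} (Φ : Set (E d)) (u : OrthonormalBasis (Fin d) ℝ (E d)) : Prop :=
  ∀ a : E d, a ∈ Φ ↔ ∃ i j, i ≠ j ∧ ∃ s t : ℤˣ, a = (1 / √2 : ℝ) • (sg s • u i + sg t • u j)

namespace Geo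

variable {d : ℕ} {Γ : Type} [Group Γ] {X : Type} [MulAction Γ X] (G : Geo d Γ X)

/-- the orbit of the vector `a` under `H`, with signs -/
def orb (a : E d) : Set (E d) := {b | ∃ h ∈ G.H, b = G.T h a ∨ b = -G.T h a}

end Geo

/-! ### basic lemmas on reflections -/

section sref

variable {d : ℕ}

theorem sref_self {a : E d} (h : ‖a‖ = 1) : sref a a = -a := by
  rw [sref, real_inner_self_eq_norm_sq, h]
  module

theorem sref_neg (a v : E d) : sref (-a) v = sref a v := by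
  simp [sref, inner_neg_left]

theorem sref_add (a v w : E d) : sref a (v + w) = sref a v + sref a w := by
  simp only [sref, inner_add_right]
  module

theorem sref_smul (a v : E d) (c : ℝ) : sref a (c • v) = c • sref a v := by
  simp only [sref, inner_smul_right]
  module

theorem sref_neg_right (a v : E d) : sref a (-v) = -sref a v := by
  simp only [sref, inner_neg_right]
  module

theorem sref_sref {a : E d} (h : ‖a‖ = 1) (v : E d) : sref a (sref a v) = v := by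
  have h2 : ⟪a, a⟫ = 1 := by rw [real_inner_self_eq_norm_sq, h]; norm_num
  simp only [sref, inner_sub_right, inner_smul_right, h2]
  module

theorem map_sref (g : E d ≃ₗᵢ[ℝ] E d) (a v : E d) : g (sref a v) = sref (g a) (g v) := by
  simp only [sref, map_sub, map_smul, LinearIsometryEquiv.inner_map_map]

theorem inner_sref {a : E d} (h : ‖a‖ = 1) (v w : E d) : ⟪sref a v, sref a w⟫ = ⟪v, w⟫ := by
  have h2 : ⟪a, a⟫ = 1 := by rw [real_inner_self_eq_norm_sq, h]; norm_num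
  simp only [sref, inner_sub_left, inner_sub_right, inner_smul_left, inner_smul_right, h2,
    real_inner_comm v a]
  simp
  ring

theorem IsRS.neg_mem {Φ : Set (E d)} (h : IsRS Φ) {a : E d} (ha : a ∈ Φ) : -a ∈ Φ := by
  rw [← sref_self (h.norm a ha)]
  exact h.refl a ha a ha

theorem IsRS.inner_self {Φ : Set (E d)} (h : IsRS Φ) {a : E d} (ha : a ∈ Φ) : ⟪a, a⟫ = (1 : ℝ) := by
  rw [real_inner_self_eq_norm_sq, h.norm a ha]; norm_num

end sref

namespace Geo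

variable {d : ℕ} {Γ : Type} [Group Γ] {X : Type} [MulAction Γ X] (G : Geo d Γ X)

theorem T_mul_apply {g h : Γ} (hg : g ∈ G.H) (hh : h ∈ G.H) (v : E d) :
    G.T (g * h) v = G.T g (G.T h v) := by
  rw [G.T_mul g hg h hh]; rfl

theorem T_inv_apply {g : Γ} (hg : g ∈ G.H) (v : E d) : G.T g (G.T g⁻¹ v) = v := by
  rw [← G.T_mul_apply hg (inv_mem hg), mul_inv_cancel, G.T_one]; rfl

theorem T_inv_apply' {g : Γ} (hg : g ∈ G.H) (v : E d) : G.T g⁻¹ (G.T g v) = v := by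
  rw [← G.T_mul_apply (inv_mem hg) hg, inv_mul_cancel, G.T_one]; rfl

/-- an element of `H` that normalises `H_i` preserves `V_i` -/
theorem T_mem_V {i : ℕ} {g : Γ} (hg : g ∈ G.H) (hn : ∀ m ∈ G.Hi i, g⁻¹ * m * g ∈ G.Hi i) {v : E d}
    (hv : v ∈ G.V i) : G.T g v ∈ G.V i := by
  intro m hm
  have h1 := hv _ (hn m hm)
  rw [G.T_mul_apply (mul_mem (inv_mem hg) (G.Hi_le_H i hm)) hg,
    G.T_mul_apply (inv_mem hg) (G.Hi_le_H i hm)] at h1
  rw [← G.T_inv_apply hg (G.T m (G.T g v)), h1]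

/-- an isometry `A` whose conjugation preserves `H_i` preserves `V_i` -/
theorem map_mem_V {i : ℕ} (A : E d ≃ₗᵢ[ℝ] E d)
    (hA : ∀ m ∈ G.Hi i, ∃ m' ∈ G.Hi i, ∀ v, G.T m (A v) = A (G.T m' v)) {v : E d}
    (hv : v ∈ G.V i) : A v ∈ G.V i := by
  intro m hm
  obtain ⟨m', hm', e⟩ := hA m hm
  rw [e v, hv m' hm']

/-- an isometry that preserves `V_i` preserves `U_i` -/
theorem map_mem_U {i : ℕ} (A : E d ≃ₗᵢ[ℝ] E d) (hA : ∀ v ∈ G.V i, A v ∈ G.V i) {w : E d}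
    (hw : w ∈ G.U i) : A w ∈ G.U i := by
  have hmap : (G.V i).map (A.toLinearEquiv : E d →ₗ[ℝ] E d) = G.V i := by
    apply Submodule.eq_of_le_of_finrank_eq
    · rintro _ ⟨v, hv, rfl⟩
      exact hA v hv
    · exact LinearEquiv.finrank_map_eq A.toLinearEquiv (G.V i)
  rw [U, Submodule.mem_orthogonal] at hw ⊢
  intro v hv
  rw [← hmap] at hv
  obtain ⟨v', hv', rfl⟩ := hv
  change ⟪A v', A w⟫ = 0
  rw [LinearIsometryEquiv.inner_map_map]
  exact hw v' hv'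

/-- elements of `H_i` preserve `U_i` -/
theorem T_mem_U {i : ℕ} {h : Γ} (hh : h ∈ G.Hi i) {w : E d} (hw : w ∈ G.U i) : G.T h w ∈ G.U i := by
  refine G.map_mem_U (G.T h) ?_ hw
  intro v hv
  rw [hv h hh]
  exact hv

theorem x_mem_V1 : G.x ∈ G.V 1 := by
  intro h hh
  rw [x, G.equiv h hh.1, G.up_fix_x0 hh.2]

theorem one_mem_up_d {g : Γ} (hg : g ∈ G.up d) : g = 1 := by
  have h2 : G.up d ≤ ⊥ := by
    rw [up, gpar, Subgroup.closure_le]
    rintro _ ⟨k, hk, rfl⟩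
    exact G.one_of_ge k hk
  exact h2 hg

end Geo

/-- The realization `G` is given, after a change of the base flag, by the string of permutations
`S` of `Y`, base point `y0` and vertex map `F`. -/
def GMatch {d : ℕ} {Γ : Type} [Group Γ] {X : Type} [MulAction Γ X] (G : Geo d Γ X) {Y : Type}
    (S : SGen d Y) (y0 : Y) (F : Y → E d) : Prop :=
  ∃ (γ : Γ) (e : X ≃ Y), e (γ • G.x0) = y0 ∧
    (∀ (i : Fin d) (x : X), e ((γ * G.ρ i * γ⁻¹) • x) = S.σ i (e x)) ∧ ∀ x, G.f x = F (e x)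

end

end FO2
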