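import Pool.Agent.FO2.Geo

/-!
# Statements of the modules
-/

namespace FO2

open Lib_helper64.FO
open scoped RealInnerProductSpace

noncomputable section

/-! ## Block P: posets -/

section Poset

variable {P : Type} [PartialOrder P]

/-- The automorphisms `ρ 0, …, ρ (d - 1)` move the flag `C` to its adjacent flags; they generate the
automorphism group `P ≃o P`, which acts simply transitively on the flags, and have the intersection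
property. -/
structure PolyGroup (d : ℕ) (rk : P → ℤ) (C : Flag P) (ρ : ℕ → (P ≃o P)) : Prop where
  rank : ∀ (γ : P ≃o P) (x : P), rk (γ x) = rk x
  free : ∀ γ : P ≃o P, γ • C = C → γ = 1
  one_of_ge : ∀ i, d ≤ i → ρ i = 1
  ne_one : ∀ i, i < d → ρ i ≠ 1
  sq : ∀ i, ρ i * ρ i = 1
  comm : ∀ i j, i + 2 ≤ j → ρ i * ρ j = ρ j * ρ i
  gen : gpar ρ Set.univ = ⊤
  inter : ∀ I J : Set ℕ, gpar ρ I ⊓ gpar ρ J = gpar ρ (I ∩ J)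
  moves : ∀ (i : ℕ) (x : P), x ∈ C → rk x ≠ (i : ℤ) → ρ i x = x
  stab : ∀ (I : Set ℕ) (γ : P ≃o P), (∀ x ∈ C, ∀ i : ℕ, rk x = (i : ℤ) → i ∉ I → γ x = x) →
    γ ∈ gpar ρ I

/-- the face of rank `i` of the flag, and its incidences: faces of an interval lie in flags -/
def StmtFlag : Prop :=
  ∀ (d : ℕ) (P : Type) [PartialOrder P] [Finite P] (rk : P → ℤ), IsRegularPolytope d rk →
    (∀ (C : Flag P) (x y : P), x ∈ C → y ∈ C → rk x = rk y → x = y) ∧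
    (∀ x : P, -1 ≤ rk x ∧ rk x ≤ d) ∧
    (∀ (γ : P ≃o P) (x : P), rk (γ x) = rk x) ∧
    (∀ (s : Set P), IsChain (· ≤ ·) s → ∃ C : Flag P, s ⊆ C) ∧
    (∀ (C : Flag P) (i : ℕ), i < d → ∃ D : Flag P, D ≠ C ∧ (∀ x ∈ C, rk x ≠ (i : ℤ) → x ∈ D) ∧
      ∀ D' : Flag P, D' ≠ C → (∀ x ∈ C, rk x ≠ (i : ℤ) → x ∈ D') → D' = D)

/-- strong flag-connectedness: two flags which have the same faces of all ranks not in `I` are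
joined by a sequence of flags, two successive ones differing in exactly one face, of a rank in
`I` -/
def StmtConn : Prop :=
  ∀ (d : ℕ) (P : Type) [PartialOrder P] [Finite P] (rk : P → ℤ), IsRegularPolytope d rk →
    ∀ (I : Set ℕ) (C D : Flag P), (∀ x ∈ C, ∀ i : ℕ, rk x = (i : ℤ) → i ∉ I → x ∈ D) →
      Relation.ReflTransGen (fun A B : Flag P => ∃ i ∈ I, i < d ∧ A ≠ B ∧
        ∀ x ∈ A, rk x ≠ (i : ℤ) → x ∈ B) C D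

def StmtPoly : Prop :=
  ∀ (d : ℕ) (P : Type) [PartialOrder P] [Finite P] (rk : P → ℤ), IsRegularPolytope d rk →
    ∀ C : Flag P, ∃ ρ : ℕ → (P ≃o P), PolyGroup d rk C ρ

/-- centring and linearising -/
def StmtLin : Prop :=
  ∀ (d : ℕ) (Γ : Type) [Group Γ] (X : Type) [Finite X] [Nonempty X] [MulAction Γ X] (f : X → E d)
    (H : Subgroup Γ), (∀ h ∈ H, ∃ T : E d ≃ᵢ E d, ∀ x, T (f x) = f (h • x)) →
    ∃ (c : E d) (T : Γ → (E d ≃ₗᵢ[ℝ] E d)), (∀ g ∈ H, ∀ h ∈ H, T (g * h) = T g * T h) ∧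
      ∀ h ∈ H, ∀ x, T h (f x - c) = f (h • x) - c

/-- `G` is the algebraic form of the realization `f` of the polytope `P` with base flag `C` and
generators `ρ`; `ι` maps the points of `X` to the vertices of `P`, and `c` is the centre. -/
structure GeoOf {d : ℕ} (rk : P → ℤ) (f : P → E d) (C : Flag P) (ρ : ℕ → (P ≃o P)) {X : Type}
    [MulAction (P ≃o P) X] (G : Geo d (P ≃o P) X) (ι : X → P) (c : E d) : Prop where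
  poly : PolyGroup d rk C ρ
  inj : Function.Injective ι
  equiv : ∀ (γ : P ≃o P) (x : X), ι (γ • x) = γ (ι x)
  base : ι G.x0 ∈ C
  rank : ∀ x, rk (ι x) = 0
  surj : ∀ v, rk v = 0 → ∃ x, ι x = v
  gens : G.ρ = ρ
  fval : ∀ x, G.f x = f (ι x) - c

/-- from a two-orbit realization to its algebraic form -/
def StmtGeo1 : Prop :=
  ∀ (d : ℕ), 3 ≤ d → ∀ (P : Type) [PartialOrder P] [Finite P] (rk : P → ℤ),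
    IsRegularPolytope d rk → ∀ f : P → E d, IsOrbitRealization rk f 2 →
    ∀ (C : Flag P) (ρ : ℕ → (P ≃o P)), PolyGroup d rk C ρ →
    ∃ (X : Type) (_ : MulAction (P ≃o P) X) (G : Geo d (P ≃o P) X) (ι : X → P) (c : E d),
      GeoOf rk f C ρ G ι c

/-- and back -/
def StmtGeo2 : Prop :=
  ∀ (d : ℕ), 3 ≤ d → ∀ (P : Type) [PartialOrder P] [Finite P] (rk : P → ℤ),
    IsRegularPolytope d rk → ∀ (f : P → E d) (C : Flag P) (ρ : ℕ → (P ≃o P)) (X : Type)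
    [MulAction (P ≃o P) X] (G : Geo d (P ≃o P) X) (ι : X → P) (c : E d), GeoOf rk f C ρ G ι c →
    ∀ (Y : Type) (S : SGen d Y) (y0 : Y) (F : Y → E d), GMatch G S y0 F → Match rk f S y0 F

/-- The generators of `S` are different from `1` and have the intersection property. -/
structure StrC {d : ℕ} {Y : Type} (S : SGen d Y) : Prop where
  ne_one : ∀ i, S.σ i ≠ 1
  inter : ∀ I J : Set (Fin d), S.par I ⊓ S.par J = S.par (I ∩ J)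

/-- criterion for the intersection property: from the generators `σ j`, `j ≥ k + 1`, to the
generators `σ j`, `j ≥ k` -/
def StmtInt : Prop :=
  ∀ (d : ℕ) (Y : Type) (S : SGen d Y) (k : ℕ),
    (∀ I J : Set (Fin d), I ⊆ {j | k + 1 ≤ j.val} → J ⊆ {j | k + 1 ≤ j.val} →
      S.par I ⊓ S.par J = S.par (I ∩ J)) →
    (∀ m : ℕ, m ≤ d → ∀ g ∈ S.par {j | k ≤ j.val ∧ j.val < m}, g ∈ S.par {j | k + 1 ≤ j.val} →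
      g ∈ S.par {j | k + 1 ≤ j.val ∧ j.val < m}) →
    ∀ I J : Set (Fin d), I ⊆ {j | k ≤ j.val} → J ⊆ {j | k ≤ j.val} →
      S.par I ⊓ S.par J = S.par (I ∩ J)

/-- cosets of a chain have a common element; flags of the coset poset -/
def StmtCosA : Prop :=
  ∀ (d : ℕ) (Y : Type) (S : SGen d Y), 1 ≤ d → Finite Y →
    (∀ s : Set (CFace S), IsChain (· ≤ ·) s → ∃ g ∈ S.par Set.univ, ∀ F ∈ s, g ∈ F.coset) ∧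
    (∀ C : Flag (CPos S), ∃ g ∈ S.par Set.univ, ∀ F : CFace S,
      (some (some F) : CPos S) ∈ C ↔ g ∈ F.coset) ∧
    (∀ (C : Flag (CPos S)) (i : ℤ), -1 ≤ i → i ≤ d → ∃ x ∈ C, rkC x = i) ∧
    (∀ C D : Flag (CPos S), ∃ γ : CPos S ≃o CPos S, γ • C = D)

/-- the coset poset of a string C-group is a regular polytope -/
def StmtCosB : Prop :=
  ∀ (d : ℕ) (Y : Type) (S : SGen d Y), 1 ≤ d → Finite Y → StrC S →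
    IsRegularPolytope d (rkC (S := S))

/-- `g` acts on the points `F y` by an isometry -/
def Isom {d : ℕ} {Y : Type} (F : Y → E d) (g : Equiv.Perm Y) : Prop :=
  ∃ T : E d ≃ᵢ E d, ∀ y, T (F y) = F (g y)

/-- Conditions under which the coset poset with vertex map `F` is a two-orbit realization. -/
structure RealC {d : ℕ} {Y : Type} (S : SGen d Y) (y0 : Y) (F : Y → E d) (i0 : Fin d) : Prop where
  trans : ∀ y, ∃ g ∈ S.par Set.univ, g y0 = y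
  stab : ∀ g ∈ S.par Set.univ, g y0 = y0 → g ∈ S.par {j | j.val ≠ 0}
  stab' : ∀ j : Fin d, j.val ≠ 0 → S.σ j y0 = y0
  inj : Function.Injective F
  edge : ∀ m : Fin d, 1 ≤ m.val → ∀ g ∈ S.par {j | m ≤ j},
    S.σ (prd m) * g * S.σ (prd m) ∈ S.par {j | m ≤ j} → g ∈ S.par {j | m < j}
  iso1 : ∀ j, j ≠ i0 → Isom F (S.σ j)
  iso2 : ∀ j, j ≠ i0 → Isom F (S.σ i0 * S.σ j * S.σ i0)
  noiso : ¬ Isom F (S.σ i0)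

/-- a polytope that matches such data is faithfully realized -/
def StmtRealF : Prop :=
  ∀ (d : ℕ) (Y : Type) (S : SGen d Y) (y0 : Y) (F : Y → E d) (i0 : Fin d), Finite Y → StrC S →
    RealC S y0 F i0 → ∀ (P : Type) [PartialOrder P] [Finite P] (rk : P → ℤ),
    IsRegularPolytope d rk → ∀ f : P → E d, Match rk f S y0 F → Faithful rk f

/-- a polytope that matches such data has two flag orbits -/
def StmtRealO : Prop :=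
  ∀ (d : ℕ) (Y : Type) (S : SGen d Y) (y0 : Y) (F : Y → E d) (i0 : Fin d), Finite Y → StrC S →
    RealC S y0 F i0 → ∀ (P : Type) [PartialOrder P] [Finite P] (rk : P → ℤ),
    IsRegularPolytope d rk → ∀ f : P → E d, Match rk f S y0 F → flagOrbits rk f = 2

end Poset

/-! ## the four families exist -/

/-- the adjacent transposition `(j, j + 1)` of `Fin n` -/
def adj (n j : ℕ) : Equiv.Perm (Fin n) :=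
  if h : j + 1 < n then Equiv.swap ⟨j, by omega⟩ ⟨j + 1, h⟩ else 1

/-- the permutations of `{a, …, b}` are generated by the adjacent transpositions -/
def StmtAdj : Prop :=
  ∀ n a b : ℕ, a ≤ b → b < n → ∀ π : Equiv.Perm (Fin n),
    (∀ k : Fin n, (k.val < a ∨ b < k.val) → π k = k) →
    π ∈ Subgroup.closure (adj n '' {j | a ≤ j ∧ j < b})

def StmtEx1S : Prop := ∀ d : ℕ, 4 ≤ d → StrC (S1 d)
def StmtEx2S : Prop := ∀ d : ℕ, 4 ≤ d → StrC (S2 d)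
def StmtEx3S : Prop := ∀ d : ℕ, 4 ≤ d → StrC (S3 d)
def StmtEx4S : Prop := ∀ (d : ℕ) (hd : Even d), 4 ≤ d → StrC (S4 d hd)

def StmtEx1R : Prop := ∀ d : ℕ, 4 ≤ d →
  ∀ (v : Fin (d + 1) → E d) (a b : ℝ), IsSimplex v → a ≠ 0 → b ≠ 0 → a ^ 2 ≠ b ^ 2 →
    ∃ i0, RealC (S1 d) (0, false) (F1 v a b) i0

def StmtEx2R : Prop := ∀ d : ℕ, 4 ≤ d →
  ∀ (u : OrthonormalBasis (Fin d) ℝ (E d)) (a b : ℝ), a ≠ 0 → b ≠ 0 → a ^ 2 ≠ b ^ 2 →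
    ∃ i0, RealC (S2 d) (fun _ => 1) (F2 u a b) i0

def StmtEx3R : Prop := ∀ (d : ℕ) (hd : 4 ≤ d),
  ∀ (u : OrthonormalBasis (Fin d) ℝ (E d)) (a b : ℝ), a ≠ 0 → b ≠ 0 → a ^ 2 ≠ b ^ 2 →
    ∃ i0, RealC (S3 d) (⟨0, by omega⟩, 1, false) (F3 u a b) i0

def StmtEx4R : Prop := ∀ (d : ℕ) (hd : Even d), 4 ≤ d →
  ∀ (u : OrthonormalBasis (Fin d) ℝ (E d)) (a : ℝ), a ≠ 0 →
    ∃ i0, RealC (S4 d hd) (fun _ => 1) (F2 u a a) i0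

/-! ## Block L: the chain of fixed spaces -/

/-- The facts on the chain `V_0 ≤ V_1 ≤ … ≤ V_d`. -/
structure Chain {d : ℕ} {Γ : Type} [Group Γ] {X : Type} [MulAction Γ X] (G : Geo d Γ X) :
    Prop where
  mem_V : ∀ i, ∀ g ∈ G.dn i, G.f (g • G.x0) ∈ G.V (i + 1)
  Hi_of_fix : ∀ i, ∀ h ∈ G.H, (∀ v ∈ G.V (i + 1), G.T h v = v) → h ∈ G.Hi (i + 1)
  dim : ∀ i, i + 2 ≤ d → Module.finrank ℝ (G.V i) = i
  dim' : G.ρ (d - 1) ∈ G.H → Module.finrank ℝ (G.V (d - 1)) = d - 1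
  top' : G.ρ (d - 1) ∉ G.H → G.V (d - 1) = ⊤
  x_ne : G.x ≠ 0
  f_ne : ∀ y, G.f y ≠ 0
  ρ0x : G.f (G.ρ 0 • G.x0) ∉ G.V 1
  not_comm : ∀ i, i + 1 < d → G.ρ i * G.ρ (i + 1) ≠ G.ρ (i + 1) * G.ρ i
  conj_not : ∀ i, i + 1 < d → G.ρ i * G.ρ (i + 1) * G.ρ i ∉ G.up (i + 1)
  ρ_not : ∀ i, i < d → G.ρ i ∉ G.up (i + 1)
  step : ∀ i, i + 2 ≤ d → ∃ h ∈ G.Hi i, h ∉ G.up (i + 1)
  card : ∀ i, i + 2 ≤ d → 3 * Nat.card (G.up (i + 1)) ≤ Nat.card (G.up i)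

def StmtChain : Prop :=
  ∀ (d : ℕ) (Γ : Type) [Group Γ] [Finite Γ] (X : Type) [MulAction Γ X] (G : Geo d Γ X), 3 ≤ d →
    Chain G

def StmtIrrStep : Prop :=
  ∀ (d : ℕ) (Γ : Type) [Group Γ] [Finite Γ] (X : Type) [MulAction Γ X] (G : Geo d Γ X), 3 ≤ d →
    Chain G → ∀ i, i + 3 ≤ d → G.Irr (i + 1) → G.Irr i

def StmtIrrBase : Prop :=
  ∀ (d : ℕ) (Γ : Type) [Group Γ] [Finite Γ] (X : Type) [MulAction Γ X] (G : Geo d Γ X), 3 ≤ d →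
    Chain G → ¬ G.Irr (d - 2) → G.Irr (d - 3)

/-- The chain facts together with irreducibility and its consequence on commuting isometries. -/
structure Good {d : ℕ} {Γ : Type} [Group Γ] {X : Type} [MulAction Γ X] (G : Geo d Γ X) :
    Prop where
  chain : Chain G
  irr : ∀ i, i + 3 ≤ d → G.Irr i
  scal : ∀ i, i + 3 ≤ d → ∀ A : E d ≃ₗᵢ[ℝ] E d, (∀ v ∈ G.U i, A v ∈ G.U i) →
    (∀ h ∈ G.Hi i, ∀ v ∈ G.U i, A (G.T h v) = G.T h (A v)) →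
    (∀ v ∈ G.U i, A v = v) ∨ (∀ v ∈ G.U i, A v = -v)

def StmtScal : Prop :=
  ∀ (d : ℕ) (Γ : Type) [Group Γ] [Finite Γ] (X : Type) [MulAction Γ X] (G : Geo d Γ X), 3 ≤ d →
    Chain G → (∀ i, i + 3 ≤ d → G.Irr i) → Good G

/-! ## Block R: finite root sets -/

/-- the values `0, ± 1/2, ± √2/2, ± (√5 + 1)/4, ± (√5 - 1)/4, ± 1` -/
def AS (t : ℝ) : Prop :=
  ∃ s : ℝ, (s = 0 ∨ s = 1 / 2 ∨ s = √2 / 2 ∨ s = (√5 + 1) / 4 ∨ s = (√5 - 1) / 4 ∨ s = 1) ∧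
    (t = s ∨ t = -s)

def StmtRGa : Prop :=
  ∀ (d : ℕ) (Φ : Set (E d)), 3 ≤ d → IsRS Φ → IrrRS Φ → Submodule.span ℝ Φ = ⊤ →
    ∀ a ∈ Φ, ∀ b ∈ Φ, a ≠ b → a ≠ -b → ⟪a, b⟫ ^ 2 < (3 / 4 : ℝ)

def StmtRGb : Prop :=
  ∀ (d : ℕ) (Φ : Set (E d)), IsRS Φ → (∀ a ∈ Φ, ∀ b ∈ Φ, a ≠ b → a ≠ -b → ⟪a, b⟫ ^ 2 < (3 / 4 : ℝ)) →
    ∀ a ∈ Φ, ∀ b ∈ Φ, AS ⟪a, b⟫

def StmtRGc : Prop :=
  ∀ (d : ℕ) (Φ : Set (E d)), 5 ≤ d → IsRS Φ → IrrRS Φ → Submodule.span ℝ Φ = ⊤ → HomRS Φ →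
    (∀ a ∈ Φ, ∀ b ∈ Φ, AS ⟪a, b⟫) → ∀ a ∈ Φ, ∀ b ∈ Φ, ⟪a, b⟫ ≠ √2 / 2

def StmtRGd : Prop :=
  ∀ (d : ℕ) (Φ : Set (E d)), 5 ≤ d → IsRS Φ → IrrRS Φ → Submodule.span ℝ Φ = ⊤ →
    (∀ a ∈ Φ, ∀ b ∈ Φ, AS ⟪a, b⟫) → (∀ a ∈ Φ, ∀ b ∈ Φ, ⟪a, b⟫ ≠ √2 / 2) → SL Φ

def StmtRG2 : Prop :=
  ∀ (d : ℕ) (Φ : Set (E d)), IsRS Φ → IrrRS Φ → Submodule.span ℝ Φ = ⊤ → SL Φ →
    ∀ ψ : E d → E d, (∀ b ∈ Φ, ψ b ∈ Φ) → (∀ b ∈ Φ, ∀ c ∈ Φ, |⟪ψ b, ψ c⟫| = |⟪b, c⟫|) →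
    (∀ b ∈ Φ, ∀ c ∈ Φ, ψ (sref b c) = sref (ψ b) (ψ c) ∨ ψ (sref b c) = -sref (ψ b) (ψ c)) →
    ∃ g : E d ≃ₗᵢ[ℝ] E d, ∀ b ∈ Φ, g b = ψ b ∨ g b = -ψ b

/-- a configuration that spans a root system `D_4` -/
def HasD4 {d : ℕ} (Φ : Set (E d)) : Prop :=
  ∃ a ∈ Φ, ∃ b ∈ Φ, ∃ b' ∈ Φ, ∃ b'' ∈ Φ, ⟪b, b'⟫ = (0 : ℝ) ∧ ⟪b, b''⟫ = (0 : ℝ) ∧
    ⟪b', b''⟫ = (0 : ℝ) ∧ ⟪a, b⟫ = (1 / 2 : ℝ) ∧ ⟪a, b'⟫ = (1 / 2 : ℝ) ∧ ⟪a, b''⟫ = (1 / 2 : ℝ)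

def StmtRG3a : Prop :=
  ∀ (d : ℕ) (Φ : Set (E d)), 2 ≤ d → IsRS Φ → IrrRS Φ → Submodule.span ℝ Φ = ⊤ → SL Φ →
    ¬ HasD4 Φ → ∃ v, IsA Φ v

/-- `u 0, …, u (n - 1)` are orthonormal and all `(± u i ± u j) / √2`, `i ≠ j`, belong to `Φ`. -/
def DFr {d : ℕ} (Φ : Set (E d)) (n : ℕ) (u : Fin n → E d) : Prop :=
  Orthonormal ℝ u ∧ ∀ i j, i ≠ j → ∀ s t : ℤˣ, (1 / √2 : ℝ) • (sg s • u i + sg t • u j) ∈ Φ

/-- the part of a maximal frame -/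
def StmtRG3b : Prop :=
  ∀ (d : ℕ) (Φ : Set (E d)), IsRS Φ → SL Φ → HasD4 Φ →
    ∃ (n : ℕ) (u : Fin n → E d), 4 ≤ n ∧ DFr Φ n u ∧
      ∀ c ∈ Φ, (∃ i j, i ≠ j ∧ ∃ s t : ℤˣ, c = (1 / √2 : ℝ) • (sg s • u i + sg t • u j)) ∨
        (∀ i, ⟪c, u i⟫ = (0 : ℝ)) ∨
        (5 ≤ n ∧ ∀ i, ⟪c, u i⟫ = (1 / (2 * √2) : ℝ) ∨ ⟪c, u i⟫ = (-(1 / (2 * √2)) : ℝ))

def StmtRG3c : Prop :=
  ∀ (d : ℕ) (Φ : Set (E d)), 9 ≤ d → IsRS Φ → IrrRS Φ → Submodule.span ℝ Φ = ⊤ → SL Φ →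
    ∀ (n : ℕ) (u : Fin n → E d), 4 ≤ n → DFr Φ n u →
      (∀ c ∈ Φ, (∃ i j, i ≠ j ∧ ∃ s t : ℤˣ, c = (1 / √2 : ℝ) • (sg s • u i + sg t • u j)) ∨
        (∀ i, ⟪c, u i⟫ = (0 : ℝ)) ∨
        (5 ≤ n ∧ ∀ i, ⟪c, u i⟫ = (1 / (2 * √2) : ℝ) ∨ ⟪c, u i⟫ = (-(1 / (2 * √2)) : ℝ))) →
      ∃ u : OrthonormalBasis (Fin d) ℝ (E d), IsD Φ u

/-- automorphisms of `A_d` -/
def StmtAutA : Prop :=
  ∀ (d : ℕ) (Φ : Set (E d)) (v : Fin (d + 1) → E d), 5 ≤ d → IsA Φ v → ∀ g : E d ≃ₗᵢ[ℝ] E d,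
    (∀ a ∈ Φ, g a ∈ Φ) → ∃ (π : Equiv.Perm (Fin (d + 1))),
      (∀ i, g (v i) = v (π i)) ∨ (∀ i, g (v i) = -v (π i))

/-- automorphisms of `D_d` -/
def StmtAutD : Prop :=
  ∀ (d : ℕ) (Φ : Set (E d)) (u : OrthonormalBasis (Fin d) ℝ (E d)), 5 ≤ d → IsD Φ u →
    ∀ g : E d ≃ₗᵢ[ℝ] E d, (∀ a ∈ Φ, g a ∈ Φ) →
      ∃ (π : Equiv.Perm (Fin d)) (s : Fin d → ℤˣ), ∀ i, g (u i) = sg (s i) • u (π i)

/-! ## Block C: the classification -/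

/-- If conjugation by `α` is realised by an isometry fixing the base vertex, then `α` is
isometric. -/
def StmtExt : Prop :=
  ∀ (d : ℕ) (Γ : Type) [Group Γ] [Finite Γ] (X : Type) [MulAction Γ X] (G : Geo d Γ X),
    ∀ α ∈ G.up 1, α ∉ G.H → ∀ g : E d ≃ₗᵢ[ℝ] E d, g G.x = G.x → ∀ S : Set Γ,
      Subgroup.closure S = G.H → (∀ s ∈ S, ∀ v, g (G.T s v) = G.T (α * s * α⁻¹) (g v)) → False

def StmtT1 : Prop :=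
  ∀ (d : ℕ) (Γ : Type) [Group Γ] [Finite Γ] (X : Type) [MulAction Γ X] (G : Geo d Γ X), 6 ≤ d →
    Good G → G.ρ 0 ∉ G.H → ∀ j, 3 ≤ j → G.ρ j ∈ G.H

def StmtRho0 : Prop :=
  ∀ (d : ℕ) (Γ : Type) [Group Γ] [Finite Γ] (X : Type) [MulAction Γ X] (G : Geo d Γ X), 5 ≤ d →
    Good G → G.ρ 0 ∈ G.H → ∃ (ε : ℝ) (a : E d), (ε = 1 ∨ ε = -1) ∧ ‖a‖ = 1 ∧ a ∈ G.V 2 ∧
      ⟪a, G.x⟫ ≠ 0 ∧ (∀ c : ℝ, G.x ≠ c • a) ∧ ∀ v, G.T (G.ρ 0) v = ε • sref a v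

/-- the last generator is a hyperplane reflection -/
def StmtLast : Prop :=
  ∀ (d : ℕ) (Γ : Type) [Group Γ] [Finite Γ] (X : Type) [MulAction Γ X] (G : Geo d Γ X), 3 ≤ d →
    Chain G → G.ρ (d - 1) ∈ G.H → ∃ r : E d, ‖r‖ = 1 ∧ (∀ v ∈ G.V (d - 1), ⟪r, v⟫ = (0 : ℝ)) ∧
      ∀ v, G.T (G.ρ (d - 1)) v = sref r v

/-- the orbit of the root of a reflection -/
def StmtOrb : Prop :=
  ∀ (d : ℕ) (Γ : Type) [Group Γ] [Finite Γ] (X : Type) [MulAction Γ X] (G : Geo d Γ X) (ρ : Γ)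
    (ε : ℝ) (a : E d), ρ ∈ G.H → (ε = 1 ∨ ε = -1) → ‖a‖ = 1 → (∀ v, G.T ρ v = ε • sref a v) →
    IsRS (G.orb a) ∧ a ∈ G.orb a ∧ (∀ h ∈ G.H, ∀ b ∈ G.orb a, G.T h b ∈ G.orb a) ∧
    (∀ b ∈ G.orb a, ∀ c ∈ G.orb a, ∃ h ∈ G.H, G.T h b = c ∨ G.T h b = -c) ∧
    (∀ k ∈ G.H, ∀ v, G.T (k * ρ * k⁻¹) v = ε • sref (G.T k a) v) ∧
    (∀ b ∈ G.orb a, ∃ k ∈ G.H, sref b = sref (G.T k a)) ∧ HomRS (G.orb a)

/-- spanning, and the dichotomy irreducible / frame -/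
def StmtBlock : Prop :=
  ∀ (d : ℕ) (Γ : Type) [Group Γ] [Finite Γ] (X : Type) [MulAction Γ X] (G : Geo d Γ X), 4 ≤ d →
    Good G → ∀ Φ : Set (E d), IsRS Φ → (∀ h ∈ G.H, ∀ b ∈ Φ, G.T h b ∈ Φ) →
    (∀ b ∈ Φ, ∀ c ∈ Φ, ∃ h ∈ G.H, G.T h b = c ∨ G.T h b = -c) →
    Submodule.span ℝ Φ = ⊤ ∧ (¬ IrrRS Φ → FrameRS Φ ∧
      ((∃ a ∈ Φ, ∃ c : ℝ, G.x = c • a) ∨
        ∃ κ : ℝ, κ ≠ 0 ∧ ∀ a ∈ Φ, ⟪a, G.x⟫ = κ ∨ ⟪a, G.x⟫ = -κ))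

/-- case `ρ 0 ∈ H`, frame -/
def StmtIIf : Prop :=
  ∀ (d : ℕ) (Γ : Type) [Group Γ] [Finite Γ] (X : Type) [MulAction Γ X] (G : Geo d Γ X), 5 ≤ d →
    Good G → G.ρ 0 ∈ G.H → ∀ (ε : ℝ) (a : E d), (ε = 1 ∨ ε = -1) → ‖a‖ = 1 → a ∈ G.V 2 →
    (∀ c : ℝ, G.x ≠ c • a) → (∀ v, G.T (G.ρ 0) v = ε • sref a v) → FrameRS (G.orb a) →
    (∃ κ : ℝ, κ ≠ 0 ∧ ∀ b ∈ G.orb a, ⟪b, G.x⟫ = κ ∨ ⟪b, G.x⟫ = -κ) →
    ∀ j, 2 ≤ j → G.ρ j ∈ G.H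

/-- conjugation by an element that commutes with a reflection is realised by an isometry, up to
signs -/
def StmtStar : Prop :=
  ∀ (d : ℕ) (Γ : Type) [Group Γ] [Finite Γ] (X : Type) [MulAction Γ X] (G : Geo d Γ X), 4 ≤ d →
    Good G → ∀ (ρ : Γ) (ε : ℝ) (a : E d), ρ ∈ G.H → (ε = 1 ∨ ε = -1) → ‖a‖ = 1 →
    (∀ v, G.T ρ v = ε • sref a v) → IrrRS (G.orb a) → Submodule.span ℝ (G.orb a) = ⊤ →
    SL (G.orb a) → ∀ α : Γ, α * ρ * α⁻¹ = ρ →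
    ∃ g : E d ≃ₗᵢ[ℝ] E d, (g a = a ∨ g a = -a) ∧ (∀ b ∈ G.orb a, g b ∈ G.orb a) ∧
      ∀ h ∈ G.H, (∀ v, g (G.T h v) = G.T (α * h * α⁻¹) (g v)) ∨
        (∀ v, g (G.T h v) = -G.T (α * h * α⁻¹) (g v))

/-- the normalised form -/
def StmtStarN : Prop :=
  ∀ (d : ℕ) (Γ : Type) [Group Γ] [Finite Γ] (X : Type) [MulAction Γ X] (G : Geo d Γ X), 4 ≤ d →
    Good G → ∀ (ρ : Γ) (ε : ℝ) (a : E d), ρ ∈ G.H → (ε = 1 ∨ ε = -1) → ‖a‖ = 1 →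
    (∀ v, G.T ρ v = ε • sref a v) → IrrRS (G.orb a) → Submodule.span ℝ (G.orb a) = ⊤ →
    SL (G.orb a) → ∀ α : Γ, α * ρ * α⁻¹ = ρ → α ∈ G.up 1 →
    ∃ g : E d ≃ₗᵢ[ℝ] E d, g G.x = G.x ∧ (g a = a ∨ g a = -a) ∧ (∀ b ∈ G.orb a, g b ∈ G.orb a) ∧
      (∀ h ∈ G.H, (∀ v, g (G.T h v) = G.T (α * h * α⁻¹) (g v)) ∨
        (∀ v, g (G.T h v) = -G.T (α * h * α⁻¹) (g v))) ∧
      ∀ h ∈ G.Hi 1, ∀ v, g (G.T h v) = G.T (α * h * α⁻¹) (g v)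

/-- case `ρ 0 ∈ H`, irreducible -/
def StmtIIi : Prop :=
  ∀ (d : ℕ) (Γ : Type) [Group Γ] [Finite Γ] (X : Type) [MulAction Γ X] (G : Geo d Γ X), 5 ≤ d →
    Good G → G.ρ 0 ∈ G.H → ∀ (ε : ℝ) (a : E d), (ε = 1 ∨ ε = -1) → ‖a‖ = 1 → a ∈ G.V 2 →
    (∀ v, G.T (G.ρ 0) v = ε • sref a v) → IrrRS (G.orb a) → Submodule.span ℝ (G.orb a) = ⊤ →
    SL (G.orb a) → ∀ j, 2 ≤ j → G.ρ j ∈ G.H

/-- The last generator `ρ (d - 1)` is the reflection with root `r`, and `J ⊆ {0, 1, 2}`. -/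
structure Last {d : ℕ} {Γ : Type} [Group Γ] {X : Type} [MulAction Γ X] (G : Geo d Γ X) (r : E d) :
    Prop where
  good : Good G
  J : ∀ j, 3 ≤ j → G.ρ j ∈ G.H
  J0 : G.ρ 0 ∈ G.H → G.ρ 2 ∈ G.H
  norm : ‖r‖ = 1
  perp : ∀ v ∈ G.V (d - 1), ⟪r, v⟫ = (0 : ℝ)
  refl : ∀ v, G.T (G.ρ (d - 1)) v = sref r v
  span : Submodule.span ℝ (G.orb r) = ⊤

def StmtJ2 : Prop :=
  ∀ (d : ℕ) (Γ : Type) [Group Γ] [Finite Γ] (X : Type) [MulAction Γ X] (G : Geo d Γ X) (r : E d),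
    5 ≤ d → Last G r → IrrRS (G.orb r) → SL (G.orb r) → G.ρ 2 ∈ G.H

def StmtJ01 : Prop :=
  ∀ (d : ℕ) (Γ : Type) [Group Γ] [Finite Γ] (X : Type) [MulAction Γ X] (G : Geo d Γ X) (r : E d),
    5 ≤ d → Last G r → IrrRS (G.orb r) → SL (G.orb r) → G.ρ 2 ∈ G.H →
    G.ρ 0 ∈ G.H ∨ G.ρ 1 ∈ G.H

/-! ### the frame case -/

/-- frame case: `J = {0}` and the base vertex is a multiple of a frame vector -/
def StmtFr1 : Prop :=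
  ∀ (d : ℕ) (Γ : Type) [Group Γ] [Finite Γ] (X : Type) [MulAction Γ X] (G : Geo d Γ X) (r : E d),
    6 ≤ d → Last G r → FrameRS (G.orb r) →
    ((∃ a ∈ G.orb r, ∃ c : ℝ, G.x = c • a) ∨
        ∃ κ : ℝ, κ ≠ 0 ∧ ∀ a ∈ G.orb r, ⟪a, G.x⟫ = κ ∨ ⟪a, G.x⟫ = -κ) →
    (∀ j, 1 ≤ j → G.ρ j ∈ G.H) ∧ ∃ a ∈ G.orb r, ∃ c : ℝ, G.x = c • a

/-- frame case: the form of the generators up to the signs `ε j` and `η`. The coordinates are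
`0, …, d - 1`, `u j` for natural `j` means the `j`-th basis vector. -/
structure FrData {d : ℕ} {Γ : Type} [Group Γ] {X : Type} [MulAction Γ X] (G : Geo d Γ X)
    (u : OrthonormalBasis (Fin d) ℝ (E d)) (a b : ℝ) (η : ℤˣ) (ε : ℕ → ℤˣ) : Prop where
  a_ne : a ≠ 0
  b_ne : b ≠ 0
  fx : ∀ h : 0 < d, G.x = a • u ⟨0, h⟩
  fy : ∀ h : 1 < d, G.f (G.ρ 0 • G.x0) = b • u ⟨1, h⟩
  frame : ∀ k, u k ∈ G.orb (u k) ∧ ∃ h ∈ G.H, ∀ v, G.T h v = sref (u k) v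
  mono : ∀ h ∈ G.H, ∀ k, ∃ l, G.T h (u k) = u l ∨ G.T h (u k) = -u l
  trans : ∀ k l, ∃ h ∈ G.H, G.T h (u k) = u l
  V : ∀ i, i + 1 ≤ d → G.V i = Submodule.span ℝ (u '' {k | k.val < i})
  mid : ∀ (j : ℕ) (h : j + 1 < d), 1 ≤ j → ∀ k : Fin d, G.T (G.ρ j) (u k) =
    if k.val < j + 2 then u (Equiv.swap ⟨j, by omega⟩ ⟨j + 1, h⟩ k) else sg (ε j) • u k
  last : ∀ (j : ℕ) (h : j < d), j + 1 = d → ∀ v, G.T (G.ρ j) v = sref (u ⟨j, h⟩) v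
  /-- conjugation by `ρ 0` on `H` is conjugation by the isometry `M = (0 1) ⊕ η` -/
  conj : ∃ M : E d ≃ₗᵢ[ℝ] E d, (∀ k : Fin d, ∀ h : 1 < d, M (u k) =
      if k.val < 2 then u (Equiv.swap ⟨0, by omega⟩ ⟨1, h⟩ k) else sg η • u k) ∧
    ∀ h ∈ G.H, ∀ v, M (G.T h v) = G.T (G.ρ 0 * h * G.ρ 0) (M v)

def StmtFr2 : Prop :=
  ∀ (d : ℕ) (Γ : Type) [Group Γ] [Finite Γ] (X : Type) [MulAction Γ X] (G : Geo d Γ X) (r : E d),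
    6 ≤ d → Last G r → FrameRS (G.orb r) → (∀ j, 1 ≤ j → G.ρ j ∈ G.H) →
    (∃ a ∈ G.orb r, ∃ c : ℝ, G.x = c • a) → ∃ u a b η ε, FrData G u a b η ε

/-- one may assume `η = 1`, and then all `ε j` are `1` -/
def StmtFr3 : Prop :=
  ∀ (d : ℕ) (Γ : Type) [Group Γ] [Finite Γ] (X : Type) [MulAction Γ X] (G : Geo d Γ X),
    6 ≤ d → Good G → (∀ j, 1 ≤ j → G.ρ j ∈ G.H) → G.ρ 0 ∉ G.H → ∀ u a b η ε, FrData G u a b η ε →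
    ∃ u a b ε, FrData G u a b 1 ε ∧ ∀ j, 1 ≤ j → j + 2 < d → ε j = 1

def StmtFr4 : Prop :=
  ∀ (d : ℕ) (Γ : Type) [Group Γ] [Finite Γ] (X : Type) [MulAction Γ X] (G : Geo d Γ X)
    (hd : 6 ≤ d), Good G → (∀ j, 1 ≤ j → G.ρ j ∈ G.H) → G.ρ 0 ∉ G.H → ∀ u a b ε,
    FrData G u a b 1 ε → (∀ j, 1 ≤ j → j + 2 < d → ε j = 1) →
    ∃ (u : OrthonormalBasis (Fin d) ℝ (E d)) (a b : ℝ), a ≠ 0 ∧ b ≠ 0 ∧ a ^ 2 ≠ b ^ 2 ∧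
      GMatch G (S3 d) (⟨0, by omega⟩, 1, false) (F3 u a b)

/-! ### the irreducible case -/

/-- position of the base vertex, type `A` -/
def StmtPosA : Prop :=
  ∀ (d : ℕ) (Γ : Type) [Group Γ] [Finite Γ] (X : Type) [MulAction Γ X] (G : Geo d Γ X) (r : E d),
    9 ≤ d → Last G r → ∀ v, IsA (G.orb r) v → ∃ v, IsA (G.orb r) v ∧ ∃ c : ℝ, G.x = c • v 0

/-- position of the base vertex, type `D` -/
def StmtPosD : Prop :=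
  ∀ (d : ℕ) (Γ : Type) [Group Γ] [Finite Γ] (X : Type) [MulAction Γ X] (G : Geo d Γ X) (r : E d),
    9 ≤ d → Last G r → IrrRS (G.orb r) → SL (G.orb r) → (∃ j, G.ρ j ∉ G.H) →
    ∀ u, IsD (G.orb r) u → ∃ u, IsD (G.orb r) u ∧ ∃ c : ℝ, G.x = c • ∑ i, u i

/-- `H_1` acts on the linearly independent vectors `Y k` as the full symmetric group, and
`ρ (d - 1)` acts as a transposition. -/
structure SymData {d : ℕ} {Γ : Type} [Group Γ] {X : Type} [MulAction Γ X] (G : Geo d Γ X)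
    (Y : Fin d → E d) : Prop where
  lin : LinearIndependent ℝ Y
  act : ∀ h ∈ G.Hi 1, ∃ π : Equiv.Perm (Fin d), ∀ k, G.T h (Y k) = Y (π k)
  all : ∀ π : Equiv.Perm (Fin d), ∃ h ∈ G.Hi 1, ∀ k, G.T h (Y k) = Y (π k)

def StmtSymA : Prop :=
  ∀ (d : ℕ) (Γ : Type) [Group Γ] [Finite Γ] (X : Type) [MulAction Γ X] (G : Geo d Γ X) (r : E d),
    9 ≤ d → Last G r → ∀ v, IsA (G.orb r) v → (∃ c : ℝ, G.x = c • v 0) →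
    SymData G (fun k => v k.succ)

def StmtSymD : Prop :=
  ∀ (d : ℕ) (Γ : Type) [Group Γ] [Finite Γ] (X : Type) [MulAction Γ X] (G : Geo d Γ X) (r : E d),
    9 ≤ d → Last G r → ∀ u : OrthonormalBasis (Fin d) ℝ (E d), IsD (G.orb r) u →
    (∃ c : ℝ, G.x = c • ∑ i, u i) → SymData G (fun k => u k)

/-- the subgroups `H_i` are symmetric groups -/
def StmtLab1 : Prop :=
  ∀ (d : ℕ) (Γ : Type) [Group Γ] [Finite Γ] (X : Type) [MulAction Γ X] (G : Geo d Γ X),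
    9 ≤ d → Good G → (∀ j, 2 ≤ j → G.ρ j ∈ G.H) → ∀ Y, SymData G Y →
    ∀ i, 1 ≤ i → i + 1 ≤ d → ∃ B : Finset (Fin d), B.card + i = d + 1 ∧
      ∀ h ∈ G.Hi 1, (h ∈ G.Hi i ↔ ∀ k, k ∉ B → G.T h (Y k) = Y k)

/-- after a renumbering the generators `ρ j` in `H`, `j ≥ i0`, are the transpositions
`(j - 1, j)` -/
def StmtLab2 : Prop :=
  ∀ (d : ℕ) (Γ : Type) [Group Γ] [Finite Γ] (X : Type) [MulAction Γ X] (G : Geo d Γ X),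
    9 ≤ d → Good G → ∀ i0 : ℕ, (i0 = 1 ∨ i0 = 2) → (∀ j, i0 ≤ j → G.ρ j ∈ G.H) →
    ∀ Y, SymData G Y →
    (∀ i, 1 ≤ i → i + 1 ≤ d → ∃ B : Finset (Fin d), B.card + i = d + 1 ∧
      ∀ h ∈ G.Hi 1, (h ∈ G.Hi i ↔ ∀ k, k ∉ B → G.T h (Y k) = Y k)) →
    ∃ π : Equiv.Perm (Fin d), ∀ j : Fin d, i0 ≤ j.val → ∀ k,
      G.T (G.ρ j) (Y (π k)) = Y (π (Equiv.swap (prd j) j k))

def StmtFinA0 : Prop :=
  ∀ (d : ℕ) (Γ : Type) [Group Γ] [Finite Γ] (X : Type) [MulAction Γ X] (G : Geo d Γ X) (r : E d),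
    9 ≤ d → Last G r → IrrRS (G.orb r) → SL (G.orb r) → G.ρ 0 ∉ G.H → (∀ j, 1 ≤ j → G.ρ j ∈ G.H) →
    ∀ v, IsA (G.orb r) v → (∃ c : ℝ, G.x = c • v 0) →
    (∀ j : Fin d, 1 ≤ j.val → ∀ k : Fin d,
      G.T (G.ρ j) (v k.succ) = v (Equiv.swap (prd j) j k).succ) →
    ∃ (v : Fin (d + 1) → E d) (a b : ℝ), IsSimplex v ∧ a ≠ 0 ∧ b ≠ 0 ∧ a ^ 2 ≠ b ^ 2 ∧
      GMatch G (S1 d) (0, false) (F1 v a b)

/-- `J = {1}`: conjugation by `ρ 1` is realised by an isometry up to signs, with sign `-1` at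
`ρ 0` -/
def StmtChi : Prop :=
  ∀ (d : ℕ) (Γ : Type) [Group Γ] [Finite Γ] (X : Type) [MulAction Γ X] (G : Geo d Γ X) (r : E d),
    5 ≤ d → Last G r → IrrRS (G.orb r) → SL (G.orb r) → G.ρ 0 ∈ G.H → G.ρ 1 ∉ G.H →
    G.ρ 2 ∈ G.H → ∃ g : E d ≃ₗᵢ[ℝ] E d, g G.x = G.x ∧ (g r = r ∨ g r = -r) ∧
      (∀ b ∈ G.orb r, g b ∈ G.orb r) ∧
      (∀ h ∈ G.H, (∀ v, g (G.T h v) = G.T (G.ρ 1 * h * G.ρ 1) (g v)) ∨
        (∀ v, g (G.T h v) = -G.T (G.ρ 1 * h * G.ρ 1) (g v))) ∧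
      (∀ h ∈ G.Hi 1, ∀ v, g (G.T h v) = G.T (G.ρ 1 * h * G.ρ 1) (g v)) ∧
      ∀ v, g (G.T (G.ρ 0) v) = -G.T (G.ρ 1 * G.ρ 0 * G.ρ 1) (g v)

def StmtFinA1 : Prop :=
  ∀ (d : ℕ) (Γ : Type) [Group Γ] [Finite Γ] (X : Type) [MulAction Γ X] (G : Geo d Γ X) (r : E d),
    9 ≤ d → Last G r → IrrRS (G.orb r) → SL (G.orb r) → G.ρ 0 ∈ G.H → G.ρ 1 ∉ G.H →
    G.ρ 2 ∈ G.H → ∀ v, IsA (G.orb r) v → False

def StmtFinD0 : Prop :=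
  ∀ (d : ℕ) (Γ : Type) [Group Γ] [Finite Γ] (X : Type) [MulAction Γ X] (G : Geo d Γ X) (r : E d),
    9 ≤ d → Last G r → IrrRS (G.orb r) → SL (G.orb r) → G.ρ 0 ∉ G.H → (∀ j, 1 ≤ j → G.ρ j ∈ G.H) →
    ∀ u : OrthonormalBasis (Fin d) ℝ (E d), IsD (G.orb r) u → (∃ c : ℝ, G.x = c • ∑ i, u i) →
    (∀ j : Fin d, 1 ≤ j.val → ∀ k : Fin d, G.T (G.ρ j) (u k) = u (Equiv.swap (prd j) j k)) →
    ∃ (u : OrthonormalBasis (Fin d) ℝ (E d)) (a b : ℝ), a ≠ 0 ∧ b ≠ 0 ∧ a ^ 2 ≠ b ^ 2 ∧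
      GMatch G (S2 d) (fun _ => 1) (F2 u a b)

def StmtFinD1 : Prop :=
  ∀ (d : ℕ) (Γ : Type) [Group Γ] [Finite Γ] (X : Type) [MulAction Γ X] (G : Geo d Γ X) (r : E d),
    9 ≤ d → Last G r → IrrRS (G.orb r) → SL (G.orb r) → G.ρ 0 ∈ G.H → G.ρ 1 ∉ G.H →
    G.ρ 2 ∈ G.H → ∀ u : OrthonormalBasis (Fin d) ℝ (E d), IsD (G.orb r) u →
    (∃ c : ℝ, G.x = c • ∑ i, u i) →
    (∀ j : Fin d, 2 ≤ j.val → ∀ k : Fin d, G.T (G.ρ j) (u k) = u (Equiv.swap (prd j) j k)) →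
    ∃ (hd : Even d) (u : OrthonormalBasis (Fin d) ℝ (E d)) (a : ℝ), a ≠ 0 ∧
      GMatch G (S4 d hd) (fun _ => 1) (F2 u a a)

end

end FO2
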